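import Mathlib

/-!
# Longbranched unimodal maps, part 1: combinatorics of cutting times
-/

set_option autoImplicit false

namespace Pool.Agent.X322.Ub

/-- cutting times of a symbol sequence -/
def IsCuttingTimes (ν : ℕ → Bool) (S : ℕ → ℕ) : Prop :=
  S 0 = 1 ∧ ∀ k, IsLeast {n | S k < n ∧ ν n ≠ ν (n - S k)} (S (k + 1))

/-- time elapsed since the last cutting time -/
def beta (ν : ℕ → Bool) : ℕ → ℕ
  | 0 => 1
  | n + 1 => if n ≤ 1 then 1 else if ν n = ν (beta ν n) then beta ν n + 1 else 1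

theorem beta_pos (ν : ℕ → Bool) (n : ℕ) : 1 ≤ beta ν n := by
  cases n with
  | zero => exact le_rfl
  | succ n =>
    rw [beta]
    split_ifs <;> omega

theorem beta_eq (ν : ℕ → Bool) {n : ℕ} (hn : 2 ≤ n) (h : ν n = ν (beta ν n)) :
    beta ν (n + 1) = beta ν n + 1 := by
  rw [beta, if_neg (by omega), if_pos h]

theorem beta_ne (ν : ℕ → Bool) {n : ℕ} (hn : 2 ≤ n) (h : ν n ≠ ν (beta ν n)) :
    beta ν (n + 1) = 1 := by
  rw [beta, if_neg (by omega), if_neg h]

theorem beta_spec {ν : ℕ → Bool} {S : ℕ → ℕ} (hS : IsCuttingTimes ν S) (n : ℕ) (hn : 2 ≤ n) :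
    ∃ k, S k < n ∧ n ≤ S (k + 1) ∧ beta ν n = n - S k := by
  have hlt : ∀ k, S k < S (k + 1) := fun k => (hS.2 k).1.1
  induction n, hn using Nat.le_induction with
  | base =>
    refine ⟨0, by rw [hS.1]; omega, ?_, ?_⟩
    · have := hlt 0
      rw [hS.1] at this
      have h2 : S (0 + 1) = S 1 := rfl
      omega
    · rw [hS.1]
      rfl
  | succ n hn ih =>
    obtain ⟨k, h1, h2, h3⟩ := ih
    rcases Nat.lt_or_ge n (S (k + 1)) with h | h
    · have he : ν n = ν (beta ν n) := by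
        by_contra hne
        rw [h3] at hne
        have := (hS.2 k).2 ⟨h1, hne⟩
        omega
      refine ⟨k, by omega, by omega, ?_⟩
      rw [beta_eq ν hn he, h3]
      omega
    · have hn' : n = S (k + 1) := by omega
      have hne : ν n ≠ ν (beta ν n) := by
        rw [h3, hn']
        exact (hS.2 k).1.2
      refine ⟨k + 1, by omega, ?_, ?_⟩
      · have := hlt (k + 1)
        omega
      · rw [beta_ne ν hn hne, hn']
        omega

theorem beta_bound {ν : ℕ → Bool} {S Q : ℕ → ℕ} (hS : IsCuttingTimes ν S)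
    (hQ : ∀ k, 1 ≤ k → S k - S (k - 1) = S (Q k)) {B : ℕ} (hB : ∀ k, 1 ≤ k → Q k ≤ B) :
    ∃ M, ∀ n, 2 ≤ n → beta ν n ≤ M := by
  have hlt : ∀ k, S k < S (k + 1) := fun k => (hS.2 k).1.1
  have hmono : Monotone S := monotone_nat_of_le_succ fun k => (hlt k).le
  refine ⟨S B, fun n hn => ?_⟩
  obtain ⟨k, h1, h2, h3⟩ := beta_spec hS n hn
  have h4 := hQ (k + 1) (by omega)
  have h5 : S (Q (k + 1)) ≤ S B := hmono (hB (k + 1) (by omega))
  simp only [Nat.add_sub_cancel] at h4
  omega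

end Pool.Agent.X322.Ub
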