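import Mathlib
import Pool.Agent.X322.Ub1

/-!
# Longbranched unimodal maps, part 2: the orbit of the turning point
-/

set_option autoImplicit false

namespace Pool.Agent.X322.Ub

open Set Function

variable {f : unitInterval → unitInterval} {c : unitInterval}

/-- the kneading sequence -/
noncomputable def nu (f : unitInterval → unitInterval) (c : unitInterval) (n : ℕ) : Bool :=
  decide (c < f^[n] c)

theorem unif_iter (hf : Continuous f) (M : ℕ) {e : ℝ} (he : 0 < e) :
    ∃ d > 0, ∀ j ≤ M, ∀ a b, dist a b < d → dist (f^[j] a) (f^[j] b) < e := by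
  induction M with
  | zero =>
    exact ⟨e, he, fun j hj a b h => by
      obtain rfl : j = 0 := by omega
      simpa using h⟩
  | succ M ih =>
    obtain ⟨d, hd, h⟩ := ih
    have huc : UniformContinuous (f^[M + 1]) :=
      CompactSpace.uniformContinuous_of_continuous (hf.iterate _)
    obtain ⟨d', hd', h'⟩ := Metric.uniformContinuous_iff.1 huc e he
    refine ⟨min d d', lt_min hd hd', fun j hj a b hab => ?_⟩
    rcases Nat.lt_or_ge j (M + 1) with hj' | hj'
    · exact h j (by omega) a b (lt_of_lt_of_le hab (min_le_left _ _))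
    · obtain rfl : j = M + 1 := by omega
      exact h' (lt_of_lt_of_le hab (min_le_right _ _))

theorem away (hnp : ∀ n, 1 ≤ n → f^[n] c ≠ c) (M : ℕ) :
    ∃ e > 0, ∀ m, 1 ≤ m → m ≤ M → e ≤ dist (f^[m] c) c := by
  induction M with
  | zero => exact ⟨1, one_pos, fun m h1 h2 => by omega⟩
  | succ M ih =>
    obtain ⟨e, he, h⟩ := ih
    refine ⟨min e (dist (f^[M + 1] c) c), lt_min he (dist_pos.2 (hnp _ (by omega))),
      fun m h1 h2 => ?_⟩
    rcases Nat.lt_or_ge m (M + 1) with h3 | h3
    · exact (min_le_left _ _).trans (h m h1 (by omega))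
    · obtain rfl : m = M + 1 := by omega
      exact min_le_right _ _

theorem dist_of_le {a b : unitInterval} (h : a ≤ b) : dist a b = (b : ℝ) - a := by
  have h' : (a : ℝ) ≤ b := h
  rw [Subtype.dist_eq, Real.dist_eq, abs_of_nonpos (by linarith)]
  ring

theorem dist_of_ge {a b : unitInterval} (h : b ≤ a) : dist a b = (a : ℝ) - b := by
  rw [dist_comm, dist_of_le h]

theorem opp {a b c : unitInterval} (ha : a ≠ c) (hb : b ≠ c)
    (h : decide (c < a) ≠ decide (c < b)) :
    dist b c ≤ dist a b ∧ dist a c ≤ dist a b := by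
  rcases lt_or_gt_of_ne ha with h1 | h1 <;> rcases lt_or_gt_of_ne hb with h2 | h2
  · exact absurd (by rw [decide_eq_false h1.not_gt, decide_eq_false h2.not_gt]) h
  · have h3 : (a : ℝ) < c := h1
    have h4 : (c : ℝ) < b := h2
    rw [dist_of_ge h2.le, dist_of_le h1.le, dist_of_le (h1.trans h2).le]
    constructor <;> linarith
  · have h3 : (c : ℝ) < a := h1
    have h4 : (b : ℝ) < c := h2
    rw [dist_of_le h2.le, dist_of_ge h1.le, dist_of_ge (h2.trans h1).le]
    constructor <;> linarith
  · exact absurd (by rw [decide_eq_true h1, decide_eq_true h2]) h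

theorem exists_cut {ν : ℕ → Bool} {M : ℕ} (hM : ∀ n, 2 ≤ n → beta ν n ≤ M) {n : ℕ}
    (hn : 2 ≤ n) : ∃ j, beta ν n + j ≤ M ∧ ν (n + j) ≠ ν (beta ν n + j) := by
  by_contra hcon
  push Not at hcon
  have key : ∀ j, beta ν n + j ≤ M + 1 → beta ν (n + j) = beta ν n + j := by
    intro j
    induction j with
    | zero => intro _; rfl
    | succ j ih =>
      intro h
      have h1 := ih (by omega)
      have h2 := hcon j (by omega)
      rw [← h1] at h2
      have := beta_eq ν (n := n + j) (by omega) h2
      rw [← add_assoc n j 1, this, h1]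
      ring
  have h1 := hM n hn
  have h2 := key (M + 1 - beta ν n) (by omega)
  have h3 := hM (n + (M + 1 - beta ν n)) (by omega)
  omega

theorem claim1 (hf : Continuous f) (hnp : ∀ n, 1 ≤ n → f^[n] c ≠ c) {M : ℕ}
    (hM : ∀ n, 2 ≤ n → beta (nu f c) n ≤ M) :
    ∃ e > 0, ∀ n, 2 ≤ n → e ≤ dist (f^[n] c) (f^[beta (nu f c) n] c) := by
  obtain ⟨e0, he0, h0⟩ := away hnp M
  obtain ⟨d, hd, hu⟩ := unif_iter hf M he0
  refine ⟨d, hd, fun n hn => ?_⟩
  by_contra hlt
  push Not at hlt
  obtain ⟨j, hj, hne⟩ := exists_cut hM hn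
  have h1 := hu j (by omega) _ _ hlt
  rw [← iterate_add_apply, ← iterate_add_apply] at h1
  have hb := beta_pos (nu f c) n
  have h2 := opp (c := c) (hnp (n + j) (by omega))
    (hnp (beta (nu f c) n + j) (by omega)) hne
  have h3 := h0 (beta (nu f c) n + j) (by omega) hj
  rw [add_comm j n, add_comm j] at h1
  linarith [h2.1]

theorem claim2 (hf : Continuous f) {e : ℝ} (he : 0 < e)
    (h1 : ∀ n, 2 ≤ n → e ≤ dist (f^[n] c) (f^[beta (nu f c) n] c)) :
    ∃ d > 0, d ≤ e ∧ ∀ n, 2 ≤ n → dist (f^[n] c) c < d →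
      nu f c n = nu f c (beta (nu f c) n) := by
  obtain ⟨d, hd, hu⟩ := unif_iter hf 1 he
  refine ⟨min d e, lt_min hd he, min_le_right _ _, fun n hn hdist => ?_⟩
  by_contra hne
  have h2 := beta_ne (nu f c) hn hne
  have h3 := h1 (n + 1) (by omega)
  have h4 := hu 1 le_rfl _ _ (lt_of_lt_of_le hdist (min_le_left _ _))
  rw [h2] at h3
  rw [← iterate_add_apply, add_comm 1 n] at h4
  linarith

/-- position relative to the comparison point -/
noncomputable def sg (f : unitInterval → unitInterval) (c : unitInterval) (n : ℕ) : Bool :=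
  decide (f^[n] c < f^[beta (nu f c) n] c)

theorem sg_succ (hinc : StrictMonoOn f (Iic c)) (hdec : StrictAntiOn f (Ici c))
    (hnp : ∀ n, 1 ≤ n → f^[n] c ≠ c) {n : ℕ} (hn : 2 ≤ n)
    (hne : f^[n] c ≠ f^[beta (nu f c) n] c) :
    sg f c (n + 1) = xor (nu f c n) (sg f c n) := by
  have hb := beta_pos (nu f c) n
  have hn1 : f^[n] c ≠ c := hnp n (by omega)
  have hn2 : f^[beta (nu f c) n] c ≠ c := hnp _ hb
  by_cases hν : nu f c n = nu f c (beta (nu f c) n)
  · have h1 := beta_eq (nu f c) hn hν
    unfold sg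
    rw [h1, iterate_succ_apply', iterate_succ_apply']
    by_cases h2 : c < f^[n] c
    · have h3 : nu f c n = true := decide_eq_true h2
      rw [h3] at hν ⊢
      have h4 : c < f^[beta (nu f c) n] c := of_decide_eq_true hν.symm
      rw [Bool.true_xor, ← decide_not, decide_eq_decide, not_lt]
      rw [hdec.lt_iff_gt h2.le h4.le]
      exact ⟨le_of_lt, fun h => lt_of_le_of_ne h hne.symm⟩
    · have h3 : nu f c n = false := decide_eq_false h2
      rw [h3] at hν ⊢
      have h4 : ¬ c < f^[beta (nu f c) n] c := of_decide_eq_false hν.symm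
      rw [Bool.false_xor, decide_eq_decide]
      exact hinc.lt_iff_lt (not_lt.1 h2) (not_lt.1 h4)
  · have h1 := beta_ne (nu f c) hn hν
    have h5 : sg f c (n + 1) = true := by
      unfold sg
      rw [h1, iterate_succ_apply', iterate_one]
      apply decide_eq_true
      rcases lt_or_gt_of_ne hn1 with h | h
      · exact hinc h.le (mem_Iic.2 le_rfl) h
      · exact hdec (mem_Ici.2 le_rfl) h.le h
    rw [h5]
    rcases lt_or_gt_of_ne hn1 with h | h
    · have h3 : nu f c n = false := decide_eq_false h.not_gt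
      have h4 : nu f c (beta (nu f c) n) = true := by
        rw [h3] at hν
        cases h6 : nu f c (beta (nu f c) n)
        · exact absurd h6.symm hν
        · rfl
      have h7 : c < f^[beta (nu f c) n] c := of_decide_eq_true h4
      have h8 : sg f c n = true := decide_eq_true (h.trans h7)
      rw [h3, h8]
      rfl
    · have h3 : nu f c n = true := decide_eq_true h
      have h4 : nu f c (beta (nu f c) n) = false := by
        rw [h3] at hν
        cases h6 : nu f c (beta (nu f c) n)
        · rfl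
        · exact absurd h6.symm hν
      have h7 : ¬ c < f^[beta (nu f c) n] c := of_decide_eq_false h4
      have h8 : sg f c n = false := decide_eq_false ((not_lt.1 h7).trans h.le).not_gt
      rw [h3, h8]
      rfl

theorem sg_close (hnp : ∀ n, 1 ≤ n → f^[n] c ≠ c) {e : ℝ} {n : ℕ} (hn : 2 ≤ n)
    (h1 : e ≤ dist (f^[n] c) (f^[beta (nu f c) n] c)) (h2 : dist (f^[n] c) c < e)
    (h3 : nu f c n = nu f c (beta (nu f c) n)) : sg f c n = nu f c n := by
  have hn1 : f^[n] c ≠ c := hnp n (by omega)
  rcases lt_or_gt_of_ne hn1 with h | h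
  · have h4 : nu f c n = false := decide_eq_false h.not_gt
    rw [h4] at h3 ⊢
    have h5 : ¬ c < f^[beta (nu f c) n] c := of_decide_eq_false h3.symm
    apply decide_eq_false
    intro h6
    rw [dist_of_le h6.le] at h1
    rw [dist_of_le h.le] at h2
    have h7 : ((f^[beta (nu f c) n] c : unitInterval) : ℝ) ≤ c := not_lt.1 h5
    linarith
  · have h4 : nu f c n = true := decide_eq_true h
    rw [h4] at h3 ⊢
    have h5 : c < f^[beta (nu f c) n] c := of_decide_eq_true h3.symm
    apply decide_eq_true
    by_contra h6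
    rw [dist_of_ge (not_lt.1 h6)] at h1
    rw [dist_of_ge h.le] at h2
    have h7 : (c : ℝ) < (f^[beta (nu f c) n] c : unitInterval) := h5
    linarith

end Pool.Agent.X322.Ub
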