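import Mathlib
import Pool.Agent.X322.Ub2

/-!
# Longbranched unimodal maps, part 3: one-sided approach to the turning point
-/

set_option autoImplicit false

namespace Pool.Agent.X322.Ub

open Set Function Filter Topology

variable {f : unitInterval → unitInterval} {c : unitInterval}

/-- the omega-limit set -/
def om (f : unitInterval → unitInterval) (c : unitInterval) : Set unitInterval :=
  {y | ∀ ε : ℝ, 0 < ε → ∀ N : ℕ, ∃ n, N ≤ n ∧ dist (f^[n] c) y < ε}

theorem om_closed : IsClosed (om f c) := by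
  rw [← isSeqClosed_iff_isClosed]
  intro u y hu hlim ε hε N
  obtain ⟨K, hK⟩ := (Metric.tendsto_atTop.1 hlim) (ε / 2) (by linarith)
  obtain ⟨n, hn, hd⟩ := hu K (ε / 2) (by linarith) N
  refine ⟨n, hn, ?_⟩
  have h1 := hK K le_rfl
  have h2 := dist_triangle (f^[n] c) (u K) y
  linarith

theorem om_maps (hf : Continuous f) {y : unitInterval} (hy : y ∈ om f c) : f y ∈ om f c := by
  intro ε hε N
  obtain ⟨d, hd, h⟩ := Metric.continuousAt_iff.1 (hf.continuousAt (x := y)) ε hε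
  obtain ⟨n, hn, hdist⟩ := hy d hd N
  refine ⟨n + 1, by omega, ?_⟩
  rw [iterate_succ_apply']
  exact h hdist

theorem om_iter (hf : Continuous f) {y : unitInterval} (hy : y ∈ om f c) (n : ℕ) :
    f^[n] y ∈ om f c := by
  induction n with
  | zero => exact hy
  | succ n ih =>
    rw [iterate_succ_apply']
    exact om_maps hf ih

theorem om_of_lim {u : ℕ → ℕ} (hu : ∀ k, k ≤ u k) {φ : ℕ → ℕ} (hφ : StrictMono φ)
    {y : unitInterval} (h : Tendsto (fun k => f^[u (φ k)] c) atTop (𝓝 y)) : y ∈ om f c := by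
  intro ε hε N
  obtain ⟨K, hK⟩ := (Metric.tendsto_atTop.1 h) ε hε
  refine ⟨u (φ (max K N)), ?_, hK _ (le_max_left _ _)⟩
  have h1 := hu (φ (max K N))
  have h2 := hφ.id_le (max K N)
  have h3 := le_max_right K N
  have h4 : max K N ≤ φ (max K N) := h2
  omega

/-- inverse uniform continuity along the orbit -/
theorem iuc (hf : Continuous f) {j : ℕ} (hinj : InjOn (f^[j]) (om f c)) {w : unitInterval}
    (hw : w ∈ om f c) {ρ : ℝ} (hρ : 0 < ρ) :
    ∃ η > 0, ∃ N : ℕ, ∀ n, N ≤ n → dist (f^[n + j] c) (f^[j] w) < η → dist (f^[n] c) w < ρ := by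
  by_contra hcon
  push Not at hcon
  have h1 : ∀ k : ℕ, ∃ n, k ≤ n ∧ dist (f^[n + j] c) (f^[j] w) < 1 / ((k : ℝ) + 1) ∧
      ρ ≤ dist (f^[n] c) w := fun k => hcon _ (by positivity) k
  choose u hu1 hu2 hu3 using h1
  obtain ⟨y, φ, hφ, hlim⟩ := CompactSpace.tendsto_subseq (fun k => f^[u k] c)
  have hy : y ∈ om f c := om_of_lim hu1 hφ hlim
  have h2 : Tendsto (fun k => f^[j] (f^[u (φ k)] c)) atTop (𝓝 (f^[j] y)) :=
    ((hf.iterate j).tendsto y).comp hlim
  have h3 : Tendsto (fun k => f^[j] (f^[u (φ k)] c)) atTop (𝓝 (f^[j] w)) := by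
    rw [tendsto_iff_dist_tendsto_zero]
    have h4 : Tendsto (fun k : ℕ => 1 / ((k : ℝ) + 1)) atTop (𝓝 0) :=
      tendsto_one_div_add_atTop_nhds_zero_nat
    refine squeeze_zero (fun _ => dist_nonneg) (fun k => ?_) (h4.comp hφ.tendsto_atTop)
    rw [← iterate_add_apply, add_comm j]
    exact (hu2 (φ k)).le
  have h5 : y = w := hinj hy hw (tendsto_nhds_unique h2 h3)
  have h6 : Tendsto (fun k => dist (f^[u (φ k)] c) w) atTop (𝓝 (dist y w)) :=
    hlim.dist tendsto_const_nhds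
  have h7 : ρ ≤ dist y w := ge_of_tendsto' h6 fun k => hu3 (φ k)
  rw [h5, dist_self] at h7
  linarith

theorem hit (hf : Continuous f)
    (hmin : ∀ y ∈ om f c, ∀ ε : ℝ, 0 < ε → ∃ n, dist (f^[n] y) c < ε) {d : ℝ} (hd : 0 < d) :
    ∃ N : ℕ, ∀ y ∈ om f c, ∃ n ≤ N, dist (f^[n] y) c < d := by
  by_contra hcon
  push Not at hcon
  choose u hu1 hu2 using hcon
  obtain ⟨y, φ, hφ, hlim⟩ := CompactSpace.tendsto_subseq u
  have hy : y ∈ om f c := (om_closed.isSeqClosed) (fun k => hu1 (φ k)) hlim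
  obtain ⟨n, hn⟩ := hmin y hy d hd
  have h2 : Tendsto (fun k => dist (f^[n] (u (φ k))) c) atTop (𝓝 (dist (f^[n] y) c)) :=
    (((hf.iterate n).tendsto y).comp hlim).dist tendsto_const_nhds
  have h3 : ∀ᶠ k in atTop, d ≤ dist (f^[n] (u (φ k))) c := by
    filter_upwards [eventually_ge_atTop n] with k hk
    exact hu2 (φ k) n (hk.trans (hφ.id_le k))
  have h4 : d ≤ dist (f^[n] y) c := ge_of_tendsto h2 h3
  linarith

theorem exists_w (hf : Continuous f) (hc : c ∈ om f c) (hnp : ∀ n, 1 ≤ n → f^[n] c ≠ c)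
    (hbij : BijOn f (om f c) (om f c))
    (hmin : ∀ y ∈ om f c, ∀ ε : ℝ, 0 < ε → ∃ n, dist (f^[n] y) c < ε) {d : ℝ} (hd : 0 < d) :
    ∃ w ∈ om f c, ∃ j, 1 ≤ j ∧ f^[j] w = c ∧ dist w c < d ∧ ∀ i < j, f^[i] w ≠ c := by
  obtain ⟨N, hN⟩ := hit hf hmin hd
  obtain ⟨y, hy, hyc⟩ := (hbij.iterate (N + 1)).surjOn hc
  obtain ⟨n, hn, hdist⟩ := hN y hy
  have h1 : f^[N + 1 - n] (f^[n] y) = c := by
    rw [← iterate_add_apply, Nat.sub_add_cancel (by omega), hyc]
  refine ⟨f^[n] y, om_iter hf hy n, N + 1 - n, by omega, h1, hdist, fun i hi hic => ?_⟩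
  have h2 : f^[N + 1 - n - i] c = c := by
    have h3 : f^[N + 1 - n - i] (f^[i] (f^[n] y)) = c := by
      rw [← iterate_add_apply f (N + 1 - n - i) i, Nat.sub_add_cancel hi.le, h1]
    rwa [hic] at h3
  exact hnp _ (by omega) h2

theorem exists_min (a : ℕ → ℝ) (j : ℕ) (ha : ∀ i < j, 0 < a i) : ∃ e > 0, ∀ i < j, e ≤ a i := by
  induction j with
  | zero => exact ⟨1, one_pos, fun i hi => absurd hi (by omega)⟩
  | succ j ih =>
    obtain ⟨e, he, h⟩ := ih fun i hi => ha i (by omega)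
    refine ⟨min e (a j), lt_min he (ha j (by omega)), fun i hi => ?_⟩
    rcases Nat.lt_or_ge i j with h3 | h3
    · exact (min_le_left _ _).trans (h i h3)
    · obtain rfl : i = j := by omega
      exact min_le_right _ _

theorem sg_iter (hinc : StrictMonoOn f (Iic c)) (hdec : StrictAntiOn f (Ici c))
    (hnp : ∀ n, 1 ≤ n → f^[n] c ≠ c)
    (hne : ∀ n, 2 ≤ n → f^[n] c ≠ f^[beta (nu f c) n] c) {n n' : ℕ} (hn : 2 ≤ n) (hn' : 2 ≤ n')
    (hs : sg f c n = sg f c n') (j : ℕ) (h : ∀ i < j, nu f c (n + i) = nu f c (n' + i)) :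
    sg f c (n + j) = sg f c (n' + j) := by
  induction j with
  | zero => exact hs
  | succ j ih =>
    have h1 := ih fun i hi => h i (by omega)
    rw [← add_assoc, ← add_assoc, sg_succ hinc hdec hnp (by omega) (hne _ (by omega)),
      sg_succ hinc hdec hnp (by omega) (hne _ (by omega)), h1, h j (by omega)]

theorem claim4 (hf : Continuous f) (hinc : StrictMonoOn f (Iic c)) (hdec : StrictAntiOn f (Ici c))
    (hc : c ∈ om f c) (hnp : ∀ n, 1 ≤ n → f^[n] c ≠ c)
    (hbij : BijOn f (om f c) (om f c))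
    (hmin : ∀ y ∈ om f c, ∀ ε : ℝ, 0 < ε → ∃ n, dist (f^[n] y) c < ε) {M : ℕ}
    (hM : ∀ n, 2 ≤ n → beta (nu f c) n ≤ M) :
    ∃ s : Bool, ∃ η > 0, ∃ N : ℕ, ∀ n, N ≤ n → dist (f^[n] c) c < η → nu f c n = s := by
  obtain ⟨e, he, hC1⟩ := claim1 hf hnp hM
  obtain ⟨d, hd, hde, hC2⟩ := claim2 hf he hC1
  have hne : ∀ n, 2 ≤ n → f^[n] c ≠ f^[beta (nu f c) n] c := by
    intro n hn heq
    have := hC1 n hn
    rw [heq, dist_self] at this
    linarith
  have hC3 : ∀ n, 2 ≤ n → dist (f^[n] c) c < d → sg f c n = nu f c n := fun n hn hdist =>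
    sg_close hnp hn (hC1 n hn) (lt_of_lt_of_le hdist hde) (hC2 n hn hdist)
  obtain ⟨w, hw, j, hj, hjc, hwd, hwi⟩ := exists_w hf hc hnp hbij hmin hd
  obtain ⟨a, ha, hai⟩ := exists_min (fun i => dist (f^[i] w) c) j fun i hi => dist_pos.2 (hwi i hi)
  obtain ⟨r, hr, hri⟩ := unif_iter hf j ha
  have hρ : 0 < min r (d - dist w c) := lt_min hr (by linarith)
  obtain ⟨η, hη, N, hN⟩ := iuc hf (hbij.iterate j).injOn hw hρ
  rw [hjc] at hN
  have key : ∀ n, max N 2 ≤ n → dist (f^[n + j] c) c < min η d →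
      nu f c (n + j) = sg f c (n + j) ∧ sg f c n = nu f c n ∧
        ∀ i < j, nu f c (n + i) = decide (c < f^[i] w) := by
    intro n hn hdist
    have hn1 : N ≤ n := (le_max_left _ _).trans hn
    have hn2 : 2 ≤ n := (le_max_right _ _).trans hn
    have h1 := hN n hn1 (lt_of_lt_of_le hdist (min_le_left _ _))
    have h2 : dist (f^[n] c) c < d := by
      have h3 := dist_triangle (f^[n] c) w c
      have h4 := lt_of_lt_of_le h1 (min_le_right _ _)
      linarith
    refine ⟨(hC3 (n + j) (by omega) (lt_of_lt_of_le hdist (min_le_right _ _))).symm,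
      hC3 n hn2 h2, fun i hi => ?_⟩
    by_contra hne'
    have h5 := hri i hi.le _ _ (lt_of_lt_of_le h1 (min_le_left _ _))
    rw [← iterate_add_apply, add_comm i n] at h5
    have h6 := (opp (c := c) (hnp (n + i) (by omega)) (hwi i hi) hne').1
    have h7 := hai i hi
    linarith
  have key2 : ∀ n n', max N 2 ≤ n → max N 2 ≤ n' → dist (f^[n + j] c) c < min η d →
      dist (f^[n' + j] c) c < min η d → nu f c (n + j) = nu f c (n' + j) := by
    intro n n' hn hn' h1 h2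
    obtain ⟨a1, a2, a3⟩ := key n hn h1
    obtain ⟨b1, b2, b3⟩ := key n' hn' h2
    have hn2 : 2 ≤ n := (le_max_right _ _).trans hn
    have hn2' : 2 ≤ n' := (le_max_right _ _).trans hn'
    rw [a1, b1]
    refine sg_iter hinc hdec hnp hne hn2 hn2' ?_ j fun i hi => by rw [a3 i hi, b3 i hi]
    have h3 := a3 0 (by omega)
    have h4 := b3 0 (by omega)
    rw [add_zero] at h3 h4
    rw [a2, b2, h3, h4]
  obtain ⟨m, hm, hmd⟩ := hc (min η d) (lt_min hη hd) (max N 2 + j)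
  refine ⟨nu f c m, min η d, lt_min hη hd, max N 2 + j, fun n hn hdist => ?_⟩
  have h1 := key2 (n - j) (m - j) (by omega) (by omega)
    (by rwa [Nat.sub_add_cancel (by omega)]) (by rwa [Nat.sub_add_cancel (by omega)])
  rwa [Nat.sub_add_cancel (by omega), Nat.sub_add_cancel (by omega)] at h1

end Pool.Agent.X322.Ub
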