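import Mathlib
import Pool.Agent.X322.Ub3

/-!
# Longbranched unimodal maps, part 4: counting argument
-/

set_option autoImplicit false

namespace Pool.Agent.X322.Ub

open Set Function Filter Topology

variable {f : unitInterval → unitInterval} {c : unitInterval}

open Classical in
/-- side of the turning point, with the turning point put on the side `s` -/
noncomputable def sd (c : unitInterval) (s : Bool) (y : unitInterval) : Bool :=
  if y = c then s else decide (c < y)

theorem sd_true {s : Bool} {y : unitInterval} (h : sd c s y = true) : c ≤ y := by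
  unfold sd at h
  split_ifs at h with h1
  · exact h1.ge
  · exact (of_decide_eq_true h).le

theorem sd_false {s : Bool} {y : unitInterval} (h : sd c s y = false) : y ≤ c := by
  unfold sd at h
  split_ifs at h with h1
  · exact h1.le
  · exact not_lt.1 (of_decide_eq_false h)

/-- the gap next to the turning point -/
theorem gap {s : Bool} {η : ℝ} {N : ℕ} (hnp : ∀ n, 1 ≤ n → f^[n] c ≠ c)
    (h : ∀ n, N ≤ n → dist (f^[n] c) c < η → nu f c n = s) {y : unitInterval}
    (hy : y ∈ om f c) (hyc : y ≠ c) (hd : dist y c < η) : decide (c < y) = s := by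
  by_contra hne
  have h1 : 0 < min (η - dist y c) (dist y c) := lt_min (by linarith) (dist_pos.2 hyc)
  obtain ⟨n, hn, hdist⟩ := hy _ h1 (max N 1)
  have hn1 : N ≤ n := (le_max_left _ _).trans hn
  have hn2 : 1 ≤ n := (le_max_right _ _).trans hn
  have h2 := dist_triangle (f^[n] c) y c
  have h3 := lt_of_lt_of_le hdist (min_le_left _ _)
  have h4 := lt_of_lt_of_le hdist (min_le_right _ _)
  have h5 := h n hn1 (by linarith)
  have h6 : decide (c < f^[n] c) ≠ decide (c < y) := by
    intro h7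
    exact hne (h7.symm.trans h5)
  have h7 := (opp (hnp n hn2) hyc h6).1
  linarith

/-- local constancy of the side function -/
theorem sd_loc {s : Bool} {η : ℝ} {N : ℕ} (hnp : ∀ n, 1 ≤ n → f^[n] c ≠ c)
    (h : ∀ n, N ≤ n → dist (f^[n] c) c < η → nu f c n = s) {y z : unitInterval}
    (hy : y ∈ om f c) (hz : z ∈ om f c) (hd : dist y z < η) : sd c s y = sd c s z := by
  by_cases h1 : y = c
  · by_cases h2 : z = c
    · rw [h1, h2]
    · have h3 := gap hnp h hz h2 (by rwa [h1, dist_comm] at hd)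
      unfold sd
      rw [if_pos h1, if_neg h2]
      convert h3.symm
  · by_cases h2 : z = c
    · have h3 := gap hnp h hy h1 (by rwa [h2] at hd)
      unfold sd
      rw [if_neg h1, if_pos h2]
      convert h3
    · unfold sd
      rw [if_neg h1, if_neg h2]
      by_contra hne
      have hne' : decide (c < y) ≠ decide (c < z) := by convert hne
      obtain ⟨h3, h4⟩ := opp h1 h2 hne'
      have h5 := gap hnp h hy h1 (by linarith)
      have h6 := gap hnp h hz h2 (by linarith)
      exact hne' (h5.trans h6.symm)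

/-- two ordered points with the same side sequence enclose no preimage of the turning point -/
theorem squeeze (hinc : StrictMonoOn f (Iic c)) (hdec : StrictAntiOn f (Ici c)) {s : Bool}
    {y z : unitInterval} (hsd : ∀ n, sd c s (f^[n] y) = sd c s (f^[n] z)) {t : unitInterval}
    (h1 : y < t) (h2 : t < z) (n : ℕ) :
    (f^[n] y < f^[n] t ∧ f^[n] t < f^[n] z) ∨ (f^[n] z < f^[n] t ∧ f^[n] t < f^[n] y) := by
  induction n with
  | zero => exact Or.inl ⟨h1, h2⟩
  | succ n ih =>
    rw [iterate_succ_apply', iterate_succ_apply', iterate_succ_apply']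
    have h3 := hsd n
    cases h4 : sd c s (f^[n] y)
    · have h5 := sd_false h4
      have h6 := sd_false (h3.symm.trans h4)
      rcases ih with ⟨a, b⟩ | ⟨a, b⟩
      · exact Or.inl ⟨hinc h5 (b.le.trans h6) a, hinc (b.le.trans h6) h6 b⟩
      · exact Or.inr ⟨hinc h6 (b.le.trans h5) a, hinc (b.le.trans h5) h5 b⟩
    · have h5 := sd_true h4
      have h6 := sd_true (h3.symm.trans h4)
      rcases ih with ⟨a, b⟩ | ⟨a, b⟩
      · exact Or.inr ⟨hdec (h5.trans a.le) h6 b, hdec h5 (h5.trans a.le) a⟩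
      · exact Or.inl ⟨hdec (h6.trans a.le) h5 b, hdec h6 (h6.trans a.le) a⟩

theorem expansive (hinc : StrictMonoOn f (Iic c)) (hdec : StrictAntiOn f (Ici c))
    (hnh : ∀ x ∈ om f c, ∀ y ∈ om f c, x < y → ∃ t, x < t ∧ t < y ∧ ∃ n, f^[n] t = c) {s : Bool}
    {y z : unitInterval} (hy : y ∈ om f c) (hz : z ∈ om f c) (hyz : y ≠ z) :
    ∃ n, sd c s (f^[n] y) ≠ sd c s (f^[n] z) := by
  by_contra hcon
  push Not at hcon
  have main : ∀ y ∈ om f c, ∀ z ∈ om f c, y < z →
      (∀ n, sd c s (f^[n] y) = sd c s (f^[n] z)) → False := by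
    intro y hy z hz hlt hsd
    obtain ⟨t, h1, h2, n, hn⟩ := hnh y hy z hz hlt
    have h3 := squeeze hinc hdec hsd h1 h2 n
    rw [hn] at h3
    have h4 := hsd n
    cases h5 : sd c s (f^[n] y)
    · have h6 := sd_false h5
      have h7 := sd_false (h4.symm.trans h5)
      rcases h3 with ⟨_, b⟩ | ⟨_, b⟩
      · exact absurd h7 (not_le.2 b)
      · exact absurd h6 (not_le.2 b)
    · have h6 := sd_true h5
      have h7 := sd_true (h4.symm.trans h5)
      rcases h3 with ⟨a, _⟩ | ⟨a, _⟩
      · exact absurd h6 (not_le.2 a)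
      · exact absurd h7 (not_le.2 a)
  rcases lt_or_gt_of_ne hyz with h | h
  · exact main y hy z hz h hcon
  · exact main z hz y hy h fun n => (hcon n).symm

/-- uniform expansivity on the omega-limit set -/
theorem unif_expansive (hf : Continuous f) (hinc : StrictMonoOn f (Iic c))
    (hdec : StrictAntiOn f (Ici c))
    (hnh : ∀ x ∈ om f c, ∀ y ∈ om f c, x < y → ∃ t, x < t ∧ t < y ∧ ∃ n, f^[n] t = c) {s : Bool}
    {η : ℝ} (hη : 0 < η)
    (hloc : ∀ y ∈ om f c, ∀ z ∈ om f c, dist y z < η → sd c s y = sd c s z) {r : ℝ}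
    (hr : 0 < r) :
    ∃ K : ℕ, ∀ y ∈ om f c, ∀ z ∈ om f c,
      (∀ n ≤ K, sd c s (f^[n] y) = sd c s (f^[n] z)) → dist y z < r := by
  by_contra hcon
  push Not at hcon
  choose u hu v hv h1 h2 using hcon
  obtain ⟨y, φ, hφ, hlimy⟩ := CompactSpace.tendsto_subseq u
  obtain ⟨z, ψ, hψ, hlimz⟩ := CompactSpace.tendsto_subseq (fun k => v (φ k))
  have hlimy' : Tendsto (fun k => u (φ (ψ k))) atTop (𝓝 y) := hlimy.comp hψ.tendsto_atTop
  have hlimz' : Tendsto (fun k => v (φ (ψ k))) atTop (𝓝 z) := hlimz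
  have hy : y ∈ om f c := om_closed.isSeqClosed (fun k => hu (φ (ψ k))) hlimy'
  have hz : z ∈ om f c := om_closed.isSeqClosed (fun k => hv (φ (ψ k))) hlimz'
  have h3 : r ≤ dist y z := ge_of_tendsto' (hlimy'.dist hlimz') fun k => h2 (φ (ψ k))
  have hne : y ≠ z := by
    intro h
    rw [h, dist_self] at h3
    linarith
  obtain ⟨n, hn⟩ := expansive hinc hdec hnh (s := s) hy hz hne
  have h4 : Tendsto (fun k => f^[n] (u (φ (ψ k)))) atTop (𝓝 (f^[n] y)) :=
    ((hf.iterate n).tendsto y).comp hlimy'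
  have h5 : Tendsto (fun k => f^[n] (v (φ (ψ k)))) atTop (𝓝 (f^[n] z)) :=
    ((hf.iterate n).tendsto z).comp hlimz'
  obtain ⟨K1, hK1⟩ := (Metric.tendsto_atTop.1 h4) η hη
  obtain ⟨K2, hK2⟩ := (Metric.tendsto_atTop.1 h5) η hη
  have h6 := hK1 (max n (max K1 K2)) ((le_max_left _ _).trans (le_max_right _ _))
  have h7 := hK2 (max n (max K1 K2)) ((le_max_right _ _).trans (le_max_right _ _))
  have h8 := hloc _ (om_iter hf (hu _) n) _ (om_iter hf hy n) h6
  have h9 := hloc _ (om_iter hf (hv _) n) _ (om_iter hf hz n) h7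
  have h10 : n ≤ φ (ψ (max n (max K1 K2))) :=
    (le_max_left n _).trans ((hψ.id_le _).trans (hφ.id_le _))
  have h11 := h1 _ n h10
  exact hn (h8.symm.trans (h11.trans h9))

/-- inverse uniform continuity on the omega-limit set -/
theorem inv_unif (hf : Continuous f) (hinj : InjOn f (om f c)) {r : ℝ} (hr : 0 < r) :
    ∃ d > 0, ∀ y ∈ om f c, ∀ z ∈ om f c, dist (f y) (f z) < d → dist y z < r := by
  by_contra hcon
  push Not at hcon
  have h0 : ∀ k : ℕ, ∃ y ∈ om f c, ∃ z ∈ om f c, dist (f y) (f z) < 1 / ((k : ℝ) + 1) ∧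
      r ≤ dist y z := fun k => hcon _ (by positivity)
  choose u hu v hv h1 h2 using h0
  obtain ⟨y, φ, hφ, hlimy⟩ := CompactSpace.tendsto_subseq u
  obtain ⟨z, ψ, hψ, hlimz⟩ := CompactSpace.tendsto_subseq (fun k => v (φ k))
  have hlimy' : Tendsto (fun k => u (φ (ψ k))) atTop (𝓝 y) := hlimy.comp hψ.tendsto_atTop
  have hlimz' : Tendsto (fun k => v (φ (ψ k))) atTop (𝓝 z) := hlimz
  have hy : y ∈ om f c := om_closed.isSeqClosed (fun k => hu (φ (ψ k))) hlimy'
  have hz : z ∈ om f c := om_closed.isSeqClosed (fun k => hv (φ (ψ k))) hlimz'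
  have h3 : r ≤ dist y z := ge_of_tendsto' (hlimy'.dist hlimz') fun k => h2 (φ (ψ k))
  have h4 : Tendsto (fun k => dist (f (u (φ (ψ k)))) (f (v (φ (ψ k))))) atTop
      (𝓝 (dist (f y) (f z))) :=
    ((hf.tendsto y).comp hlimy').dist ((hf.tendsto z).comp hlimz')
  have h5 : Tendsto (fun k => dist (f (u (φ (ψ k)))) (f (v (φ (ψ k))))) atTop (𝓝 0) := by
    have h6 : Tendsto (fun k : ℕ => 1 / ((k : ℝ) + 1)) atTop (𝓝 0) :=
      tendsto_one_div_add_atTop_nhds_zero_nat
    refine squeeze_zero (fun _ => dist_nonneg) (fun k => (h1 (φ (ψ k))).le)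
      (h6.comp (hφ.comp hψ).tendsto_atTop)
  have h6 : dist (f y) (f z) = 0 := tendsto_nhds_unique h4 h5
  have h7 : y = z := hinj hy hz (dist_eq_zero.1 h6)
  rw [h7, dist_self] at h3
  linarith

/-- an interval without preimages of the turning point is mapped injectively by all iterates -/
theorem inj_of_avoid (hf : Continuous f) (hinc : StrictMonoOn f (Iic c))
    (hdec : StrictAntiOn f (Ici c)) {x y : unitInterval}
    (h : ∀ t, x < t → t < y → ∀ n, f^[n] t ≠ c) (n : ℕ) : InjOn (f^[n]) (Ioo x y) := by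
  induction n with
  | zero => exact injOn_id _
  | succ n ih =>
    have hpre : IsPreconnected (f^[n] '' Ioo x y) :=
      isPreconnected_Ioo.image _ (hf.iterate n).continuousOn
    have hside : (∀ t ∈ Ioo x y, f^[n] t < c) ∨ (∀ t ∈ Ioo x y, c < f^[n] t) := by
      by_contra hcon
      push Not at hcon
      obtain ⟨⟨t, ht, h1⟩, ⟨u, hu, h2⟩⟩ := hcon
      have h3 : c ∈ f^[n] '' Ioo x y :=
        hpre.Icc_subset (mem_image_of_mem _ hu) (mem_image_of_mem _ ht) ⟨h2, h1⟩
      obtain ⟨v, hv, hvc⟩ := h3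
      exact h v hv.1 hv.2 n hvc
    intro a ha b hb hab
    rw [iterate_succ_apply', iterate_succ_apply'] at hab
    apply ih ha hb
    rcases hside with h1 | h1
    · exact hinc.injOn (h1 a ha).le (h1 b hb).le hab
    · exact hdec.injOn (h1 a ha).le (h1 b hb).le hab

theorem main (hf : Continuous f) (hinc : StrictMonoOn f (Iic c)) (hdec : StrictAntiOn f (Ici c))
    (hnh : ∀ x ∈ om f c, ∀ y ∈ om f c, x < y → ∃ t, x < t ∧ t < y ∧ ∃ n, f^[n] t = c)
    (hc : c ∈ om f c) (hnp : ∀ n, 1 ≤ n → f^[n] c ≠ c)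
    (hbij : BijOn f (om f c) (om f c))
    (hmin : ∀ y ∈ om f c, ∀ ε : ℝ, 0 < ε → ∃ n, dist (f^[n] y) c < ε)
    {S Q : ℕ → ℕ} (hS : IsCuttingTimes (fun n => decide (c < f^[n] c)) S)
    (hQ : ∀ k, 1 ≤ k → S k - S (k - 1) = S (Q k)) {B : ℕ} (hB : ∀ k, 1 ≤ k → Q k ≤ B) :
    False := by
  obtain ⟨M, hM⟩ := beta_bound hS hQ hB
  obtain ⟨s, η, hη, N, hN⟩ := claim4 hf hinc hdec hc hnp hbij hmin hM
  have hloc : ∀ y ∈ om f c, ∀ z ∈ om f c, dist y z < η → sd c s y = sd c s z :=
    fun y hy z hz h => sd_loc hnp hN hy hz h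
  obtain ⟨d, hd, hd'⟩ := inv_unif hf hbij.injOn hη
  obtain ⟨K, hK⟩ := unif_expansive hf hinc hdec hnh hη hloc hd
  -- a block of agreement can be extended to the left
  have hG : ∀ y ∈ om f c, ∀ z ∈ om f c, (∀ n ≤ K, sd c s (f^[n] (f y)) = sd c s (f^[n] (f z))) →
      sd c s y = sd c s z := fun y hy z hz h =>
    hloc y hy z hz (hd' y hy z hz (hK _ (om_maps hf hy) _ (om_maps hf hz) h))
  have hdown : ∀ k : ℕ, ∀ y ∈ om f c, ∀ z ∈ om f c,
      (∀ n ≤ K, sd c s (f^[k + n] y) = sd c s (f^[k + n] z)) →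
      ∀ n ≤ k + K, sd c s (f^[n] y) = sd c s (f^[n] z) := by
    intro k
    induction k with
    | zero =>
      intro y hy z hz h n hn
      have := h n (by omega)
      rwa [zero_add] at this
    | succ k ih =>
      intro y hy z hz h n hn
      have h1 : ∀ n ≤ K, sd c s (f^[k + n] (f y)) = sd c s (f^[k + n] (f z)) := by
        intro n hn
        rw [← iterate_succ_apply, ← iterate_succ_apply]
        have := h n hn
        rwa [show k + 1 + n = (k + n).succ by omega] at this
      have h2 := ih (f y) (om_maps hf hy) (f z) (om_maps hf hz) h1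
      cases n with
      | zero => exact hG y hy z hz fun n hn => h2 n (by omega)
      | succ n =>
        have := h2 n (by omega)
        rwa [← iterate_succ_apply, ← iterate_succ_apply] at this
  -- distinct points
  have hdist : ∀ a b : ℕ, a < b → f^[a] c ≠ f^[b] c := by
    intro a b hab heq
    have h1 : f^[a] c = f^[a] (f^[b - a] c) := by
      rw [← iterate_add_apply, Nat.add_sub_cancel' hab.le]
      exact heq
    have h2 := (hbij.iterate a).injOn hc (om_iter hf hc (b - a)) h1
    exact hnp (b - a) (by omega) h2.symm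
  have hdist' : ∀ a b : ℕ, a ≠ b → f^[a] c ≠ f^[b] c := by
    intro a b hab
    rcases lt_or_gt_of_ne hab with h | h
    · exact hdist a b h
    · exact (hdist b a h).symm
  have hsep : ∀ a b : ℕ, ∃ n, a ≠ b → sd c s (f^[n] (f^[a] c)) ≠ sd c s (f^[n] (f^[b] c)) := by
    intro a b
    by_cases hab : a = b
    · exact ⟨0, fun h => absurd hab h⟩
    · obtain ⟨n, hn⟩ := expansive hinc hdec hnh (s := s) (om_iter hf hc a)
        (om_iter hf hc b) (hdist' a b hab)
      exact ⟨n, fun _ => hn⟩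
  choose T hT using hsep
  set P := Fintype.card (Fin (K + 1) → Bool) + 1 with hP
  set k := Finset.univ.sup (fun p : Fin P × Fin P => T p.1 p.2) with hk
  have hcard : Fintype.card (Fin (K + 1) → Bool) < Fintype.card (Fin P) := by
    rw [Fintype.card_fin]
    omega
  obtain ⟨a, b, hab, heq⟩ := Fintype.exists_ne_map_eq_of_card_lt
    (fun (a : Fin P) (i : Fin (K + 1)) => sd c s (f^[k + i] (f^[(a : ℕ)] c))) hcard
  have h1 := hdown k _ (om_iter hf hc a) _ (om_iter hf hc b) (fun n hn =>
    congrFun heq ⟨n, by omega⟩)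
  have h2 : T a b ≤ k := by
    have := Finset.le_sup (f := fun p : Fin P × Fin P => T p.1 p.2) (Finset.mem_univ (a, b))
    exact this
  exact hT a b (fun h => hab (Fin.ext h)) (h1 (T a b) (by omega))

end Pool.Agent.X322.Ub
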