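import Mathlib

/-!
# A one-dimensional horseshoe lemma and nonconvergence to periodic sequences
-/

set_option autoImplicit false

open Set Filter Topology

namespace Pool.Agent.X322.Hs

/-- extraction of a subinterval mapped onto `[l, r]`, increasing case -/
theorem ext_up {f : ℝ → ℝ} (hf : Continuous f) {a b l r : ℝ} (hab : a ≤ b) (hlr : l ≤ r)
    (ha : f a ≤ l) (hb : r ≤ f b) :
    ∃ a' b', a ≤ a' ∧ a' ≤ b' ∧ b' ≤ b ∧ f a' = l ∧ f b' = r ∧
      ∀ z, a' ≤ z → z ≤ b' → l ≤ f z ∧ f z ≤ r := by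
  -- first point where `f ≥ r`
  have hc1 : IsCompact (Icc a b ∩ f ⁻¹' (Ici r)) :=
    isCompact_Icc.inter_right (isClosed_Ici.preimage hf)
  have hn1 : (Icc a b ∩ f ⁻¹' (Ici r)).Nonempty := ⟨b, ⟨hab, le_rfl⟩, hb⟩
  obtain ⟨b', ⟨⟨hb'1, hb'2⟩, hb'3⟩, hb'4⟩ := hc1.exists_isLeast hn1
  have hlt : ∀ z, a ≤ z → z < b' → f z < r := by
    intro z h1 h2
    by_contra h
    exact absurd (hb'4 ⟨⟨h1, h2.le.trans hb'2⟩, not_lt.1 h⟩) (not_le.2 h2)
  have hfb' : f b' = r := by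
    refine le_antisymm ?_ hb'3
    by_contra h
    push Not at h
    -- intermediate value between `a` and `b'`
    have hivt := intermediate_value_Icc hb'1 hf.continuousOn
    obtain ⟨z, hz1, hz2⟩ := hivt ⟨ha.trans hlr, h.le⟩
    have hzb : z = b' := by
      by_contra hne
      exact absurd (hlt z hz1.1 (lt_of_le_of_ne hz1.2 hne)) (by rw [hz2]; exact lt_irrefl _)
    rw [hzb] at hz2
    linarith
  have hc2 : IsCompact (Icc a b' ∩ f ⁻¹' (Iic l)) :=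
    isCompact_Icc.inter_right (isClosed_Iic.preimage hf)
  have hn2 : (Icc a b' ∩ f ⁻¹' (Iic l)).Nonempty := ⟨a, ⟨le_rfl, hb'1⟩, ha⟩
  obtain ⟨a', ⟨⟨ha'1, ha'2⟩, ha'3⟩, ha'4⟩ := hc2.exists_isGreatest hn2
  have hgt : ∀ z, a' < z → z ≤ b' → l < f z := by
    intro z h1 h2
    by_contra h
    exact absurd (ha'4 ⟨⟨ha'1.trans h1.le, h2⟩, not_lt.1 h⟩) (not_le.2 h1)
  have hfa' : f a' = l := by
    refine le_antisymm ha'3 ?_
    by_contra h
    push Not at h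
    have hivt := intermediate_value_Icc ha'2 hf.continuousOn
    obtain ⟨z, hz1, hz2⟩ := hivt ⟨h.le, by rw [hfb']; exact hlr⟩
    have hza : z = a' := by
      by_contra hne
      exact absurd (hgt z (lt_of_le_of_ne hz1.1 (Ne.symm hne)) hz1.2) (by rw [hz2]; exact lt_irrefl _)
    rw [hza] at hz2
    linarith
  refine ⟨a', b', ha'1, ha'2, hb'2, hfa', hfb', fun z h1 h2 => ⟨?_, ?_⟩⟩
  · rcases eq_or_lt_of_le h1 with h | h
    · rw [← h, hfa']
    · exact (hgt z h h2).le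
  · rcases eq_or_lt_of_le h2 with h | h
    · rw [h, hfb']
    · exact (hlt z (ha'1.trans h1) h).le

theorem ext_any {f : ℝ → ℝ} (hf : Continuous f) {a b l r : ℝ} (hab : a ≤ b) (hlr : l ≤ r)
    (h : (f a ≤ l ∧ r ≤ f b) ∨ (f b ≤ l ∧ r ≤ f a)) :
    ∃ a' b', a ≤ a' ∧ a' ≤ b' ∧ b' ≤ b ∧ ((f a' = l ∧ f b' = r) ∨ (f a' = r ∧ f b' = l)) ∧
      ∀ z, a' ≤ z → z ≤ b' → l ≤ f z ∧ f z ≤ r := by
  rcases h with ⟨h1, h2⟩ | ⟨h1, h2⟩
  · obtain ⟨a', b', q1, q2, q3, q4, q5, q6⟩ := ext_up hf hab hlr h1 h2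
    exact ⟨a', b', q1, q2, q3, Or.inl ⟨q4, q5⟩, q6⟩
  · have hf' : Continuous fun z => - f z := hf.neg
    obtain ⟨a', b', q1, q2, q3, q4, q5, q6⟩ := ext_up hf' hab (neg_le_neg hlr)
      (neg_le_neg h2) (neg_le_neg h1)
    refine ⟨a', b', q1, q2, q3, Or.inr ⟨by linarith, by linarith⟩, fun z z1 z2 => ?_⟩
    have := q6 z z1 z2
    constructor <;> linarith [this.1, this.2]

/-- one-dimensional horseshoe lemma: every itinerary is realized -/
theorem horseshoe {Y : ℕ → ℝ → ℝ} {Q : ℕ → Set ℝ} {l r : Bool → ℝ} {lo hi : ℝ}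
    (hlr : ∀ s, l s ≤ r s) (hY : ∀ j, Continuous (Y j)) (hQ : ∀ j, IsClosed (Q j))
    (h0 : ∀ z, Y 0 z = z) (hQ0 : ∀ z, z ∈ Q 0)
    (step : ∀ j z s, z ∈ Q j → l s ≤ Y j z → Y j z ≤ r s → z ∈ Q (j + 1))
    (hlo : ∀ s, lo ≤ l s) (hhi : ∀ s, r s ≤ hi)
    (cov : ∀ s, (∀ j z, z ∈ Q j → (Y j z = l s → Y (j + 1) z ≤ lo) ∧
        (Y j z = r s → hi ≤ Y (j + 1) z)) ∨
      (∀ j z, z ∈ Q j → (Y j z = l s → hi ≤ Y (j + 1) z) ∧
        (Y j z = r s → Y (j + 1) z ≤ lo))) (σ : ℕ → Bool) :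
    ∃ z, ∀ j, z ∈ Q j ∧ l (σ j) ≤ Y j z ∧ Y j z ≤ r (σ j) := by
  have key : ∀ N : ℕ, ∃ a b, l (σ 0) ≤ a ∧ a ≤ b ∧ b ≤ r (σ 0) ∧
      ((Y N a = l (σ N) ∧ Y N b = r (σ N)) ∨ (Y N a = r (σ N) ∧ Y N b = l (σ N))) ∧
      ∀ z, a ≤ z → z ≤ b → ∀ j, j ≤ N → z ∈ Q j ∧ l (σ j) ≤ Y j z ∧ Y j z ≤ r (σ j) := by
    intro N
    induction N with
    | zero =>
      refine ⟨l (σ 0), r (σ 0), le_rfl, hlr _, le_rfl, Or.inl ⟨h0 _, h0 _⟩, ?_⟩
      intro z h1 h2 j hj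
      obtain rfl : j = 0 := by omega
      rw [h0]
      exact ⟨hQ0 z, h1, h2⟩
    | succ N ih =>
      obtain ⟨a, b, ha, hab, hb, hend, hall⟩ := ih
      have hQa := (hall a le_rfl hab N le_rfl).1
      have hQb := (hall b hab le_rfl N le_rfl).1
      have hcase : (Y (N + 1) a ≤ l (σ (N + 1)) ∧ r (σ (N + 1)) ≤ Y (N + 1) b) ∨
          (Y (N + 1) b ≤ l (σ (N + 1)) ∧ r (σ (N + 1)) ≤ Y (N + 1) a) := by
        have L := hlo (σ (N + 1))
        have R := hhi (σ (N + 1))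
        rcases cov (σ N) with c | c <;> rcases hend with ⟨e1, e2⟩ | ⟨e1, e2⟩
        · exact Or.inl ⟨((c N a hQa).1 e1).trans L, R.trans ((c N b hQb).2 e2)⟩
        · exact Or.inr ⟨((c N b hQb).1 e2).trans L, R.trans ((c N a hQa).2 e1)⟩
        · exact Or.inr ⟨((c N b hQb).2 e2).trans L, R.trans ((c N a hQa).1 e1)⟩
        · exact Or.inl ⟨((c N a hQa).2 e1).trans L, R.trans ((c N b hQb).1 e2)⟩
      obtain ⟨a', b', q1, q2, q3, q4, q5⟩ := ext_any (hY (N + 1)) hab (hlr (σ (N + 1))) hcase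
      refine ⟨a', b', ha.trans q1, q2, q3.trans hb, q4, ?_⟩
      intro z z1 z2 j hj
      rcases Nat.lt_or_ge j (N + 1) with hj' | hj'
      · exact hall z (q1.trans z1) (z2.trans q3) j (by omega)
      · obtain rfl : j = N + 1 := by omega
        have hN := hall z (q1.trans z1) (z2.trans q3) N le_rfl
        exact ⟨step N z (σ N) hN.1 hN.2.1 hN.2.2, q5 z z1 z2⟩
  let K : ℕ → Set ℝ := fun N => Icc (l (σ 0)) (r (σ 0)) ∩
    ⋂ j ∈ Set.Iic N, (Q j ∩ (Y j) ⁻¹' (Icc (l (σ j)) (r (σ j))))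
  have hKc : ∀ N, IsClosed (K N) := by
    intro N
    refine isClosed_Icc.inter (isClosed_biInter fun j _ => ?_)
    exact (hQ j).inter (isClosed_Icc.preimage (hY j))
  have hKn : ∀ N, (K N).Nonempty := by
    intro N
    obtain ⟨a, b, ha, hab, hb, _, hall⟩ := key N
    refine ⟨a, ⟨ha, hab.trans hb⟩, ?_⟩
    simp only [mem_iInter]
    intro j hj
    have := hall a le_rfl hab j hj
    exact ⟨this.1, this.2.1, this.2.2⟩
  have hKd : ∀ N, K (N + 1) ⊆ K N := by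
    intro N z hz
    refine ⟨hz.1, ?_⟩
    have h2 := hz.2
    simp only [mem_iInter] at h2 ⊢
    intro j hj
    exact h2 j (le_trans (Set.mem_Iic.1 hj) (Nat.le_succ N))
  have hK0 : IsCompact (K 0) := isCompact_Icc.of_isClosed_subset (hKc 0) inter_subset_left
  obtain ⟨z, hz⟩ := IsCompact.nonempty_iInter_of_sequence_nonempty_isCompact_isClosed K hKd hKn hK0 hKc
  refine ⟨z, fun j => ?_⟩
  have h1 := mem_iInter.1 hz j
  have h2 := h1.2
  simp only [mem_iInter] at h2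
  have h3 := h2 j (Set.mem_Iic.2 le_rfl)
  exact ⟨h3.1, h3.2.1, h3.2.2⟩

/-- the itinerary: indicator of the squares -/
noncomputable def sq (j : ℕ) : Bool := by
  classical exact decide (∃ m, j = m ^ 2)

theorem sq_true {j : ℕ} : sq j = true ↔ ∃ m, j = m ^ 2 := by
  unfold sq; simp

/-- a sequence with a separated nonperiodic itinerary does not converge to a periodic sequence -/
theorem not_tendsto_periodic {x : ℕ → ℝ} {T c : ℕ} {u v : ℝ} (huv : u < v)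
    (h1 : ∀ j, sq j = true → v ≤ x (T * j + c)) (h2 : ∀ j, sq j = false → x (T * j + c) ≤ u)
    (p : ℕ → ℝ) (k : ℕ) (hk : 0 < k) (hp : ∀ n, p (n + k) = p n) :
    ¬ Tendsto (fun n => x n - p n) atTop (𝓝 0) := by
  intro ht
  have hT : 0 < T := by
    rcases Nat.eq_zero_or_pos T with h | h
    · exfalso
      have a := h1 1 (sq_true.2 ⟨1, rfl⟩)
      have b : sq 2 = false := by
        rw [Bool.eq_false_iff]
        intro h
        obtain ⟨m, hm⟩ := sq_true.1 h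
        have : m < 2 := by nlinarith
        interval_cases m <;> omega
      have c' := h2 2 b
      rw [h] at a c'
      simp only [zero_mul] at a c'
      linarith
    · exact h
  have hpk : ∀ i n, p (n + k * i) = p n := by
    intro i
    induction i with
    | zero => intro n; simp
    | succ i ih =>
      intro n
      have : n + k * (i + 1) = (n + k * i) + k := by ring
      rw [this, hp, ih]
  have hev : ∀ᶠ n in atTop, |x n - p n| < (v - u) / 2 := by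
    have := (tendsto_order.1 (tendsto_zero_iff_abs_tendsto_zero _ |>.1 ht)).2 ((v - u) / 2) (by linarith)
    simpa using this
  obtain ⟨n0, hn0⟩ := eventually_atTop.1 hev
  -- a large square
  let m := n0 + k + 1
  have hm1 : n0 ≤ T * m ^ 2 + c := by
    have : m ≤ m ^ 2 := by nlinarith [Nat.zero_le m, show 1 ≤ m by omega]
    have h3 : m ^ 2 ≤ T * m ^ 2 := Nat.le_mul_of_pos_left _ hT
    omega
  have hm2 : n0 ≤ T * (m ^ 2 + k) + c := by
    have : T * m ^ 2 ≤ T * (m ^ 2 + k) := Nat.mul_le_mul_left _ (by omega)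
    omega
  have a := h1 (m ^ 2) (sq_true.2 ⟨m, rfl⟩)
  have hns : sq (m ^ 2 + k) = false := by
    rw [Bool.eq_false_iff]
    intro h
    obtain ⟨q, hq⟩ := sq_true.1 h
    have hq1 : m < q := by
      by_contra hh
      push Not at hh
      have : q ^ 2 ≤ m ^ 2 := Nat.pow_le_pow_left hh 2
      omega
    have hq2 : (m + 1) ^ 2 ≤ q ^ 2 := Nat.pow_le_pow_left hq1 2
    have hk' : k ≤ m := by omega
    nlinarith
  have b := h2 _ hns
  have c1 := hn0 _ hm1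
  have c2 := hn0 _ hm2
  have e : p (T * (m ^ 2 + k) + c) = p (T * m ^ 2 + c) := by
    have : T * (m ^ 2 + k) + c = (T * m ^ 2 + c) + k * T := by ring
    rw [this, hpk]
  rw [e] at c2
  rw [abs_lt] at c1 c2
  linarith [c1.1, c1.2, c2.1, c2.2]

/-! ### sums of exponentials in logarithmic scale -/

/-- logarithm in the scale `Λ` -/
noncomputable def lg (Λ x : ℝ) : ℝ := Real.log x / Λ

theorem lg_exp {Λ : ℝ} (hΛ : 0 < Λ) (t : ℝ) : lg Λ (Real.exp (Λ * t)) = t := by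
  unfold lg; rw [Real.log_exp]; field_simp

theorem le_lg {Λ t S : ℝ} (hΛ : 0 < Λ) (h : Real.exp (Λ * t) ≤ S) : t ≤ lg Λ S := by
  unfold lg
  rw [le_div_iff₀ hΛ]
  have h1 : 0 < S := (Real.exp_pos _).trans_le h
  have := Real.log_le_log (Real.exp_pos _) h
  rw [Real.log_exp] at this
  linarith

theorem lg_le {Λ t S ε : ℝ} (hΛ : 0 < Λ) (hS : 0 < S) (hε : Real.log 4 ≤ Λ * ε)
    (h : S ≤ 4 * Real.exp (Λ * t)) : lg Λ S ≤ t + ε := by
  unfold lg
  rw [div_le_iff₀ hΛ]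
  have := Real.log_le_log hS h
  rw [Real.log_mul (by norm_num) (Real.exp_pos _).ne', Real.log_exp] at this
  linarith

theorem lse4 {Λ ε a b c d : ℝ} (hΛ : 0 < Λ) (hε : Real.log 4 ≤ Λ * ε) :
    (a ≤ lg Λ (Real.exp (Λ * a) + Real.exp (Λ * b) + Real.exp (Λ * c) + Real.exp (Λ * d)) ∧
     b ≤ lg Λ (Real.exp (Λ * a) + Real.exp (Λ * b) + Real.exp (Λ * c) + Real.exp (Λ * d)) ∧
     c ≤ lg Λ (Real.exp (Λ * a) + Real.exp (Λ * b) + Real.exp (Λ * c) + Real.exp (Λ * d)) ∧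
     d ≤ lg Λ (Real.exp (Λ * a) + Real.exp (Λ * b) + Real.exp (Λ * c) + Real.exp (Λ * d))) ∧
    (lg Λ (Real.exp (Λ * a) + Real.exp (Λ * b) + Real.exp (Λ * c) + Real.exp (Λ * d)) ≤ a + ε ∨
     lg Λ (Real.exp (Λ * a) + Real.exp (Λ * b) + Real.exp (Λ * c) + Real.exp (Λ * d)) ≤ b + ε ∨
     lg Λ (Real.exp (Λ * a) + Real.exp (Λ * b) + Real.exp (Λ * c) + Real.exp (Λ * d)) ≤ c + ε ∨
     lg Λ (Real.exp (Λ * a) + Real.exp (Λ * b) + Real.exp (Λ * c) + Real.exp (Λ * d)) ≤ d + ε) := by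
  have pa := Real.exp_pos (Λ * a)
  have pb := Real.exp_pos (Λ * b)
  have pc := Real.exp_pos (Λ * c)
  have pd := Real.exp_pos (Λ * d)
  refine ⟨⟨le_lg hΛ (by linarith), le_lg hΛ (by linarith), le_lg hΛ (by linarith),
    le_lg hΛ (by linarith)⟩, ?_⟩
  have hS : 0 < Real.exp (Λ * a) + Real.exp (Λ * b) + Real.exp (Λ * c) + Real.exp (Λ * d) := by
    positivity
  rcases le_total (Real.exp (Λ * a)) (Real.exp (Λ * b)) with h1 | h1 <;>
  rcases le_total (Real.exp (Λ * c)) (Real.exp (Λ * d)) with h2 | h2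
  · rcases le_total (Real.exp (Λ * b)) (Real.exp (Λ * d)) with h3 | h3
    · exact Or.inr (Or.inr (Or.inr (lg_le hΛ hS hε (by linarith))))
    · exact Or.inr (Or.inl (lg_le hΛ hS hε (by linarith)))
  · rcases le_total (Real.exp (Λ * b)) (Real.exp (Λ * c)) with h3 | h3
    · exact Or.inr (Or.inr (Or.inl (lg_le hΛ hS hε (by linarith))))
    · exact Or.inr (Or.inl (lg_le hΛ hS hε (by linarith)))
  · rcases le_total (Real.exp (Λ * a)) (Real.exp (Λ * d)) with h3 | h3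
    · exact Or.inr (Or.inr (Or.inr (lg_le hΛ hS hε (by linarith))))
    · exact Or.inl (lg_le hΛ hS hε (by linarith))
  · rcases le_total (Real.exp (Λ * a)) (Real.exp (Λ * c)) with h3 | h3
    · exact Or.inr (Or.inr (Or.inl (lg_le hΛ hS hε (by linarith))))
    · exact Or.inl (lg_le hΛ hS hε (by linarith))

theorem lse3 {Λ ε a b c : ℝ} (hΛ : 0 < Λ) (hε : Real.log 4 ≤ Λ * ε) :
    (a ≤ lg Λ (Real.exp (Λ * a) + Real.exp (Λ * b) + Real.exp (Λ * c)) ∧
     b ≤ lg Λ (Real.exp (Λ * a) + Real.exp (Λ * b) + Real.exp (Λ * c)) ∧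
     c ≤ lg Λ (Real.exp (Λ * a) + Real.exp (Λ * b) + Real.exp (Λ * c))) ∧
    (lg Λ (Real.exp (Λ * a) + Real.exp (Λ * b) + Real.exp (Λ * c)) ≤ a + ε ∨
     lg Λ (Real.exp (Λ * a) + Real.exp (Λ * b) + Real.exp (Λ * c)) ≤ b + ε ∨
     lg Λ (Real.exp (Λ * a) + Real.exp (Λ * b) + Real.exp (Λ * c)) ≤ c + ε) := by
  have pa := Real.exp_pos (Λ * a)
  have pb := Real.exp_pos (Λ * b)
  have pc := Real.exp_pos (Λ * c)
  refine ⟨⟨le_lg hΛ (by linarith), le_lg hΛ (by linarith), le_lg hΛ (by linarith)⟩, ?_⟩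
  have hS : 0 < Real.exp (Λ * a) + Real.exp (Λ * b) + Real.exp (Λ * c) := by positivity
  rcases le_total (Real.exp (Λ * a)) (Real.exp (Λ * b)) with h1 | h1
  · rcases le_total (Real.exp (Λ * b)) (Real.exp (Λ * c)) with h3 | h3
    · exact Or.inr (Or.inr (lg_le hΛ hS hε (by linarith)))
    · exact Or.inr (Or.inl (lg_le hΛ hS hε (by linarith)))
  · rcases le_total (Real.exp (Λ * a)) (Real.exp (Λ * c)) with h3 | h3
    · exact Or.inr (Or.inr (lg_le hΛ hS hε (by linarith)))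
    · exact Or.inl (lg_le hΛ hS hε (by linarith))

theorem lse2 {Λ ε a b : ℝ} (hΛ : 0 < Λ) (hε : Real.log 4 ≤ Λ * ε) :
    (a ≤ lg Λ (Real.exp (Λ * a) + Real.exp (Λ * b)) ∧
     b ≤ lg Λ (Real.exp (Λ * a) + Real.exp (Λ * b))) ∧
    (lg Λ (Real.exp (Λ * a) + Real.exp (Λ * b)) ≤ a + ε ∨
     lg Λ (Real.exp (Λ * a) + Real.exp (Λ * b)) ≤ b + ε) := by
  have pa := Real.exp_pos (Λ * a)
  have pb := Real.exp_pos (Λ * b)
  refine ⟨⟨le_lg hΛ (by linarith), le_lg hΛ (by linarith)⟩, ?_⟩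
  have hS : 0 < Real.exp (Λ * a) + Real.exp (Λ * b) := by positivity
  rcases le_total (Real.exp (Λ * a)) (Real.exp (Λ * b)) with h1 | h1
  · exact Or.inr (lg_le hΛ hS hε (by linarith))
  · exact Or.inl (lg_le hΛ hS hε (by linarith))

end Pool.Agent.X322.Hs
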