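import Mathlib

/-! Branches of the return map for `x_{n+1} = (α + x_n + γ x_{n-1} + δ x_{n-2})/(x_n + C x_{n-1} + D x_{n-2})` -/

set_option autoImplicit false

namespace Pool.Agent.X322.Hs28

/-- one step in logarithmic scale, with error `1/1000` -/
def St (u v w y : ℝ) : Prop :=
  ∃ N M : ℝ, y = N - M ∧
    ((0 ≤ N ∧ u ≤ N ∧ v ≤ N ∧ 4 + w ≤ N) ∧ (N ≤ 0 + (1 / 1000) ∨ N ≤ u + (1 / 1000) ∨ N ≤ v + (1 / 1000) ∨ N ≤ 4 + w + (1 / 1000))) ∧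
    ((u ≤ M ∧ (-5) + v ≤ M ∧ (-10) + w ≤ M) ∧ (M ≤ u + (1 / 1000) ∨ M ≤ (-5) + v + (1 / 1000) ∨ M ≤ (-10) + w + (1 / 1000)))

theorem branchA {x0 x1 x2 x3 x4 x5 x6 x7 x8 x9 x10 : ℝ}
    (s3 : St x2 x1 x0 x3)
    (s4 : St x3 x2 x1 x4)
    (s5 : St x4 x3 x2 x5)
    (s6 : St x5 x4 x3 x6)
    (s7 : St x6 x5 x4 x7)
    (s8 : St x7 x6 x5 x8)
    (s9 : St x8 x7 x6 x9)
    (s10 : St x9 x8 x7 x10)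
    (h1 : (2499 / 500) ≤ x0) (h2 : x0 ≤ (2501 / 500)) (h3 : (-1 / 500) ≤ x2) (h4 : x2 ≤ (1 / 500))
    (h5 : (697 / 100) ≤ x1) (h6 : x1 ≤ (77 / 10)) :
    ((2499 / 500) ≤ x8 ∧ x8 ≤ (2501 / 500)) ∧
    ((-1 / 500) ≤ x10 ∧ x10 ≤ (1 / 500)) ∧
    ((-3507 / 500) + 2 * x1 ≤ x9 ∧ x9 ≤ (-3493 / 500) + 2 * x1) ∧
    x3 ≤ 10 ∧
    x4 ≤ 10 ∧
    x5 ≤ 10 ∧
    x6 ≤ 10 ∧
    x7 ≤ 10 ∧
    x8 ≤ 10 ∧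
    x9 ≤ 10 ∧
    x10 ≤ 10 := by
  obtain ⟨N3, M3, e3, ⟨⟨p3_0,p3_1,p3_2,p3_3⟩, a3⟩, ⟨⟨m3_0,m3_1,m3_2⟩, b3⟩⟩ := s3
  have l3_0 : (13997 / 1000) + (-1) * x1 ≤ x3 := by rcases b3 with h|h|h <;> linarith
  have u3_0 : x3 ≤ (14003 / 1000) + (-1) * x1 := by rcases a3 with h|h|h|h <;> linarith
  have r3 : x3 ≤ 10 := by linarith
  clear a3 b3 p3_0 p3_1 p3_2 p3_3 m3_0 m3_1 m3_2 e3
  obtain ⟨N4, M4, e4, ⟨⟨p4_0,p4_1,p4_2,p4_3⟩, a4⟩, ⟨⟨m4_0,m4_1,m4_2⟩, b4⟩⟩ := s4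
  have l4_0 : (-2501 / 250) + 2 * x1 ≤ x4 := by rcases b4 with h|h|h <;> linarith
  have u4_0 : x4 ≤ (-2499 / 250) + 2 * x1 := by rcases a4 with h|h|h|h <;> linarith
  have r4 : x4 ≤ 10 := by linarith
  clear a4 b4 p4_0 p4_1 p4_2 p4_3 m4_0 m4_1 m4_2 e4
  obtain ⟨N5, M5, e5, ⟨⟨p5_0,p5_1,p5_2,p5_3⟩, a5⟩, ⟨⟨m5_0,m5_1,m5_2⟩, b5⟩⟩ := s5
  have l5_0 : (2999 / 125) + (-3) * x1 ≤ x5 := by rcases b5 with h|h|h <;> linarith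
  have u5_0 : x5 ≤ (3001 / 125) + (-3) * x1 := by rcases a5 with h|h|h|h <;> linarith
  have r5 : x5 ≤ 10 := by linarith
  clear a5 b5 p5_0 p5_1 p5_2 p5_3 m5_0 m5_1 m5_2 e5
  obtain ⟨N6, M6, e6, ⟨⟨p6_0,p6_1,p6_2,p6_3⟩, a6⟩, ⟨⟨m6_0,m6_1,m6_2⟩, b6⟩⟩ := s6
  have l6_0 : (-1503 / 250) + 2 * x1 ≤ x6 := by rcases b6 with h|h|h <;> linarith
  have u6_0 : x6 ≤ (-1497 / 250) + 2 * x1 := by rcases a6 with h|h|h|h <;> linarith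
  have r6 : x6 ≤ 10 := by linarith
  clear a6 b6 p6_0 p6_1 p6_2 p6_3 m6_0 m6_1 m6_2 e6
  clear l3_0 u3_0
  obtain ⟨N7, M7, e7, ⟨⟨p7_0,p7_1,p7_2,p7_3⟩, a7⟩, ⟨⟨m7_0,m7_1,m7_2⟩, b7⟩⟩ := s7
  have l7_0 : (-1 / 1000) ≤ x7 := by rcases b7 with h|h|h <;> linarith
  have u7_0 : x7 ≤ (17 / 1000) := by rcases a7 with h|h|h|h <;> linarith
  have r7 : x7 ≤ 10 := by linarith
  clear a7 b7 p7_0 p7_1 p7_2 p7_3 m7_0 m7_1 m7_2 e7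
  clear l4_0 u4_0
  obtain ⟨N8, M8, e8, ⟨⟨p8_0,p8_1,p8_2,p8_3⟩, a8⟩, ⟨⟨m8_0,m8_1,m8_2⟩, b8⟩⟩ := s8
  have l8_0 : (4999 / 1000) ≤ x8 := by rcases b8 with h|h|h <;> linarith
  have u8_0 : x8 ≤ (5001 / 1000) := by rcases a8 with h|h|h|h <;> linarith
  have r8 : x8 ≤ 10 := by linarith
  clear a8 b8 p8_0 p8_1 p8_2 p8_3 m8_0 m8_1 m8_2 e8
  clear l5_0 u5_0
  obtain ⟨N9, M9, e9, ⟨⟨p9_0,p9_1,p9_2,p9_3⟩, a9⟩, ⟨⟨m9_0,m9_1,m9_2⟩, b9⟩⟩ := s9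
  have l9_0 : (-3507 / 500) + 2 * x1 ≤ x9 := by rcases b9 with h|h|h <;> linarith
  have u9_0 : x9 ≤ (-3493 / 500) + 2 * x1 := by rcases a9 with h|h|h|h <;> linarith
  have r9 : x9 ≤ 10 := by linarith
  clear a9 b9 p9_0 p9_1 p9_2 p9_3 m9_0 m9_1 m9_2 e9
  clear l6_0 u6_0
  obtain ⟨N10, M10, e10, ⟨⟨p10_0,p10_1,p10_2,p10_3⟩, a10⟩, ⟨⟨m10_0,m10_1,m10_2⟩, b10⟩⟩ := s10
  have l10_0 : (-1 / 1000) ≤ x10 := by rcases b10 with h|h|h <;> linarith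
  have u10_0 : x10 ≤ (1 / 1000) := by rcases a10 with h|h|h|h <;> linarith
  have r10 : x10 ≤ 10 := by linarith
  clear a10 b10 p10_0 p10_1 p10_2 p10_3 m10_0 m10_1 m10_2 e10
  clear l7_0 u7_0
  exact ⟨⟨by linarith, by linarith⟩, ⟨by linarith, by linarith⟩, ⟨by linarith, by linarith⟩, r3, r4, r5, r6, r7, r8, r9, r10⟩

theorem branchB {x0 x1 x2 x3 x4 x5 x6 x7 x8 x9 x10 : ℝ}
    (s3 : St x2 x1 x0 x3)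
    (s4 : St x3 x2 x1 x4)
    (s5 : St x4 x3 x2 x5)
    (s6 : St x5 x4 x3 x6)
    (s7 : St x6 x5 x4 x7)
    (s8 : St x7 x6 x5 x8)
    (s9 : St x8 x7 x6 x9)
    (s10 : St x9 x8 x7 x10)
    (h1 : (2499 / 500) ≤ x0) (h2 : x0 ≤ (2501 / 500)) (h3 : (-1 / 500) ≤ x2) (h4 : x2 ≤ (1 / 500))
    (h5 : (393 / 50) ≤ x1) (h6 : x1 ≤ (1671 / 200)) :
    ((2499 / 500) ≤ x8 ∧ x8 ≤ (2501 / 500)) ∧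
    ((-1 / 500) ≤ x10 ∧ x10 ≤ (1 / 500)) ∧
    ((3199 / 100) + (-3) * x1 ≤ x9 ∧ x9 ≤ (3201 / 100) + (-3) * x1) ∧
    x3 ≤ 10 ∧
    x4 ≤ 10 ∧
    x5 ≤ 10 ∧
    x6 ≤ 10 ∧
    x7 ≤ 10 ∧
    x8 ≤ 10 ∧
    x9 ≤ 10 ∧
    x10 ≤ 10 := by
  obtain ⟨N3, M3, e3, ⟨⟨p3_0,p3_1,p3_2,p3_3⟩, a3⟩, ⟨⟨m3_0,m3_1,m3_2⟩, b3⟩⟩ := s3
  have l3_0 : (13997 / 1000) + (-1) * x1 ≤ x3 := by rcases b3 with h|h|h <;> linarith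
  have u3_0 : x3 ≤ (14003 / 1000) + (-1) * x1 := by rcases a3 with h|h|h|h <;> linarith
  have r3 : x3 ≤ 10 := by linarith
  clear a3 b3 p3_0 p3_1 p3_2 p3_3 m3_0 m3_1 m3_2 e3
  obtain ⟨N4, M4, e4, ⟨⟨p4_0,p4_1,p4_2,p4_3⟩, a4⟩, ⟨⟨m4_0,m4_1,m4_2⟩, b4⟩⟩ := s4
  have l4_0 : (-2501 / 250) + 2 * x1 ≤ x4 := by rcases b4 with h|h|h <;> linarith
  have u4_0 : x4 ≤ (-2499 / 250) + 2 * x1 := by rcases a4 with h|h|h|h <;> linarith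
  have r4 : x4 ≤ 10 := by linarith
  clear a4 b4 p4_0 p4_1 p4_2 p4_3 m4_0 m4_1 m4_2 e4
  obtain ⟨N5, M5, e5, ⟨⟨p5_0,p5_1,p5_2,p5_3⟩, a5⟩, ⟨⟨m5_0,m5_1,m5_2⟩, b5⟩⟩ := s5
  have l5_0 : (2999 / 125) + (-3) * x1 ≤ x5 := by rcases b5 with h|h|h <;> linarith
  have l5_1 : (-1 / 1000) ≤ x5 := by rcases b5 with h|h|h <;> linarith
  have u5_0 : x5 ≤ (72081 / 10000) + (-4313 / 5000) * x1 := by rcases a5 with h|h|h|h <;> linarith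
  have r5 : x5 ≤ 10 := by linarith
  clear a5 b5 p5_0 p5_1 p5_2 p5_3 m5_0 m5_1 m5_2 e5
  obtain ⟨N6, M6, e6, ⟨⟨p6_0,p6_1,p6_2,p6_3⟩, a6⟩, ⟨⟨m6_0,m6_1,m6_2⟩, b6⟩⟩ := s6
  have l6_0 : (4124 / 125) + (-3) * x1 ≤ x6 := by rcases b6 with h|h|h <;> linarith
  have u6_0 : x6 ≤ (4126 / 125) + (-3) * x1 := by rcases a6 with h|h|h|h <;> linarith
  have r6 : x6 ≤ 10 := by linarith
  clear a6 b6 p6_0 p6_1 p6_2 p6_3 m6_0 m6_1 m6_2 e6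
  clear l3_0 u3_0
  obtain ⟨N7, M7, e7, ⟨⟨p7_0,p7_1,p7_2,p7_3⟩, a7⟩, ⟨⟨m7_0,m7_1,m7_2⟩, b7⟩⟩ := s7
  have l7_0 : (-39013 / 1000) + 5 * x1 ≤ x7 := by rcases b7 with h|h|h <;> linarith
  have u7_0 : x7 ≤ (-38987 / 1000) + 5 * x1 := by rcases a7 with h|h|h|h <;> linarith
  have r7 : x7 ≤ 10 := by linarith
  clear a7 b7 p7_0 p7_1 p7_2 p7_3 m7_0 m7_1 m7_2 e7
  clear l4_0 u4_0
  obtain ⟨N8, M8, e8, ⟨⟨p8_0,p8_1,p8_2,p8_3⟩, a8⟩, ⟨⟨m8_0,m8_1,m8_2⟩, b8⟩⟩ := s8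
  have l8_0 : (4999 / 1000) ≤ x8 := by rcases b8 with h|h|h <;> linarith
  have u8_0 : x8 ≤ (5001 / 1000) := by rcases a8 with h|h|h|h <;> linarith
  have r8 : x8 ≤ 10 := by linarith
  clear a8 b8 p8_0 p8_1 p8_2 p8_3 m8_0 m8_1 m8_2 e8
  clear l5_0 l5_1 u5_0
  obtain ⟨N9, M9, e9, ⟨⟨p9_0,p9_1,p9_2,p9_3⟩, a9⟩, ⟨⟨m9_0,m9_1,m9_2⟩, b9⟩⟩ := s9
  have l9_0 : (3199 / 100) + (-3) * x1 ≤ x9 := by rcases b9 with h|h|h <;> linarith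
  have u9_0 : x9 ≤ (3201 / 100) + (-3) * x1 := by rcases a9 with h|h|h|h <;> linarith
  have r9 : x9 ≤ 10 := by linarith
  clear a9 b9 p9_0 p9_1 p9_2 p9_3 m9_0 m9_1 m9_2 e9
  clear l6_0 u6_0
  obtain ⟨N10, M10, e10, ⟨⟨p10_0,p10_1,p10_2,p10_3⟩, a10⟩, ⟨⟨m10_0,m10_1,m10_2⟩, b10⟩⟩ := s10
  have l10_0 : (-1 / 1000) ≤ x10 := by rcases b10 with h|h|h <;> linarith
  have u10_0 : x10 ≤ (1 / 1000) := by rcases a10 with h|h|h|h <;> linarith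
  have r10 : x10 ≤ 10 := by linarith
  clear a10 b10 p10_0 p10_1 p10_2 p10_3 m10_0 m10_1 m10_2 e10
  clear l7_0 u7_0
  exact ⟨⟨by linarith, by linarith⟩, ⟨by linarith, by linarith⟩, ⟨by linarith, by linarith⟩, r3, r4, r5, r6, r7, r8, r9, r10⟩

end Pool.Agent.X322.Hs28
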