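import Mathlib
import Pool.Agent.X322.Hs1

/-!
# Assembling a horseshoe for a third order recurrence
-/

set_option autoImplicit false

open Set Filter Topology

namespace Pool.Agent.X322.Hs

/-- the solution of `x_{n+3} = G x_{n+2} x_{n+1} x_n` with given initial values -/
noncomputable def orb (G : ℝ → ℝ → ℝ → ℝ) (a b c : ℝ) : ℕ → ℝ
  | 0 => a
  | 1 => b
  | 2 => c
  | (n + 3) => G (orb G a b c (n + 2)) (orb G a b c (n + 1)) (orb G a b c n)

theorem orb_pos {G : ℝ → ℝ → ℝ → ℝ} (hpos : ∀ u v w, 0 < u → 0 < v → 0 < w → 0 < G u v w)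
    {a b c : ℝ} (ha : 0 < a) (hb : 0 < b) (hc : 0 < c) (n : ℕ) :
    0 < orb G a b c n := by
  induction n using Nat.strong_induction_on with
  | _ n ih =>
    match n with
    | 0 => exact ha
    | 1 => exact hb
    | 2 => exact hc
    | (m + 3) =>
      rw [orb]
      exact hpos _ _ _ (ih (m + 2) (by omega)) (ih (m + 1) (by omega)) (ih m (by omega))

theorem orb_cont {G : ℝ → ℝ → ℝ → ℝ} (hpos : ∀ u v w, 0 < u → 0 < v → 0 < w → 0 < G u v w)
    (hcont : ∀ u v w : ℝ → ℝ, Continuous u → Continuous v → Continuous w → (∀ z, 0 < u z) →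
      (∀ z, 0 < v z) → (∀ z, 0 < w z) → Continuous fun z => G (u z) (v z) (w z))
    {a c : ℝ} {b : ℝ → ℝ} (ha : 0 < a) (hb : ∀ z, 0 < b z) (hbc : Continuous b) (hc : 0 < c) (n : ℕ) :
    Continuous fun z => orb G a (b z) c n := by
  induction n using Nat.strong_induction_on with
  | _ n ih =>
    match n with
    | 0 => simpa [orb] using continuous_const
    | 1 => simpa [orb] using hbc
    | 2 => simpa [orb] using continuous_const
    | (m + 3) =>
      simp only [orb]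
      exact hcont _ _ _ (ih (m + 2) (by omega)) (ih (m + 1) (by omega)) (ih m (by omega))
        (fun z => orb_pos hpos ha (hb z) hc _) (fun z => orb_pos hpos ha (hb z) hc _)
        (fun z => orb_pos hpos ha (hb z) hc _)

/-- horseshoe for a third order recurrence in logarithmic scale -/
theorem assemble {Λ : ℝ} (hΛ : 0 < Λ) (G : ℝ → ℝ → ℝ → ℝ)
    (hpos : ∀ u v w, 0 < u → 0 < v → 0 < w → 0 < G u v w)
    (hcont : ∀ u v w : ℝ → ℝ, Continuous u → Continuous v → Continuous w → (∀ z, 0 < u z) →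
      (∀ z, 0 < v z) → (∀ z, 0 < w z) → Continuous fun z => G (u z) (v z) (w z))
    (St : ℝ → ℝ → ℝ → ℝ → Prop)
    (hSt : ∀ u v w, 0 < u → 0 < v → 0 < w → St (lg Λ u) (lg Λ v) (lg Λ w) (lg Λ (G u v w)))
    {T : ℕ} (hT : 0 < T) {c1 c2 w0 R lo hi : ℝ} (hw0 : 0 ≤ w0) {l r : Bool → ℝ}
    (hlr : ∀ s, l s ≤ r s) (hlo : ∀ s, lo ≤ l s) (hhi : ∀ s, r s ≤ hi) (hsep : r false < l true)
    (step : ∀ X : ℕ → ℝ, (∀ n, St (X (n + 2)) (X (n + 1)) (X n) (X (n + 3))) → ∀ t s,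
      c1 - w0 ≤ X t → X t ≤ c1 + w0 → c2 - w0 ≤ X (t + 2) → X (t + 2) ≤ c2 + w0 →
      l s ≤ X (t + 1) → X (t + 1) ≤ r s →
      (c1 - w0 ≤ X (t + T) ∧ X (t + T) ≤ c1 + w0 ∧ c2 - w0 ≤ X (t + T + 2) ∧
        X (t + T + 2) ≤ c2 + w0) ∧ (∀ i, i < T → X (t + i) ≤ R))
    (cov : ∀ s, (∀ X : ℕ → ℝ, (∀ n, St (X (n + 2)) (X (n + 1)) (X n) (X (n + 3))) → ∀ t,
        c1 - w0 ≤ X t → X t ≤ c1 + w0 → c2 - w0 ≤ X (t + 2) → X (t + 2) ≤ c2 + w0 →
        (X (t + 1) = l s → X (t + T + 1) ≤ lo) ∧ (X (t + 1) = r s → hi ≤ X (t + T + 1))) ∨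
      (∀ X : ℕ → ℝ, (∀ n, St (X (n + 2)) (X (n + 1)) (X n) (X (n + 3))) → ∀ t,
        c1 - w0 ≤ X t → X t ≤ c1 + w0 → c2 - w0 ≤ X (t + 2) → X (t + 2) ≤ c2 + w0 →
        (X (t + 1) = l s → hi ≤ X (t + T + 1)) ∧ (X (t + 1) = r s → X (t + T + 1) ≤ lo))) :
    ∃ a b c : ℝ, 0 < a ∧ 0 < b ∧ 0 < c ∧
      (∀ p : ℕ → ℝ, (∃ k, 0 < k ∧ ∀ n, p (n + k) = p n) →
        ¬ Tendsto (fun n => orb G a b c n - p n) atTop (𝓝 0)) ∧
      ∀ n, orb G a b c n ≤ Real.exp (Λ * R) := by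
  let x : ℝ → ℕ → ℝ := fun z => orb G (Real.exp (Λ * c1)) (Real.exp (Λ * z)) (Real.exp (Λ * c2))
  have hxp : ∀ z n, 0 < x z n := fun z n =>
    orb_pos hpos (Real.exp_pos _) (Real.exp_pos _) (Real.exp_pos _) n
  have hxc : ∀ n, Continuous fun z => x z n := fun n =>
    orb_cont hpos hcont (b := fun z => Real.exp (Λ * z)) (Real.exp_pos _) (fun z => Real.exp_pos _)
      (by fun_prop) (Real.exp_pos _) n
  let X : ℝ → ℕ → ℝ := fun z n => lg Λ (x z n)
  have hXc : ∀ n, Continuous fun z => X z n := by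
    intro n
    show Continuous fun z => Real.log (x z n) / Λ
    exact ((hxc n).log fun z => (hxp z n).ne').div_const _
  have hXs : ∀ z n, St (X z (n + 2)) (X z (n + 1)) (X z n) (X z (n + 3)) := by
    intro z n
    have : x z (n + 3) = G (x z (n + 2)) (x z (n + 1)) (x z n) := by
      simp only [x]; rw [orb]
    show St _ _ _ (lg Λ (x z (n + 3)))
    rw [this]
    exact hSt _ _ _ (hxp _ _) (hxp _ _) (hxp _ _)
  have X0 : ∀ z, X z 0 = c1 := by
    intro z; simp only [X, x, orb]; exact lg_exp hΛ _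
  have X1 : ∀ z, X z 1 = z := by
    intro z; simp only [X, x, orb]; exact lg_exp hΛ _
  have X2 : ∀ z, X z 2 = c2 := by
    intro z; simp only [X, x, orb]; exact lg_exp hΛ _
  let Q : ℕ → Set ℝ := fun j => {z | c1 - w0 ≤ X z (T * j) ∧ X z (T * j) ≤ c1 + w0 ∧
    c2 - w0 ≤ X z (T * j + 2) ∧ X z (T * j + 2) ≤ c2 + w0}
  have hQ : ∀ j, IsClosed (Q j) := by
    intro j
    have e : Q j = ({z | c1 - w0 ≤ X z (T * j)} ∩ {z | X z (T * j) ≤ c1 + w0}) ∩
        ({z | c2 - w0 ≤ X z (T * j + 2)} ∩ {z | X z (T * j + 2) ≤ c2 + w0}) := by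
      ext z; simp only [Q, mem_ofPred_eq, mem_inter_iff]; tauto
    rw [e]
    exact ((isClosed_le continuous_const (hXc _)).inter (isClosed_le (hXc _) continuous_const)).inter
      ((isClosed_le continuous_const (hXc _)).inter (isClosed_le (hXc _) continuous_const))
  have idx : ∀ j, T * (j + 1) = T * j + T := fun j => by ring
  obtain ⟨z, hz⟩ := horseshoe (Y := fun j z => X z (T * j + 1)) (Q := Q) (lo := lo) (hi := hi) hlr
    (fun j => hXc _) hQ (fun z => X1 z)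
    (fun z => by
      show c1 - w0 ≤ X z (T * 0) ∧ X z (T * 0) ≤ c1 + w0 ∧
        c2 - w0 ≤ X z (T * 0 + 2) ∧ X z (T * 0 + 2) ≤ c2 + w0
      simp only [Nat.mul_zero, Nat.zero_add, X0, X2]
      refine ⟨by linarith, by linarith, by linarith, by linarith⟩)
    (fun j z s hq h1 h2 => by
      have := (step (X z) (hXs z) (T * j) s hq.1 hq.2.1 hq.2.2.1 hq.2.2.2 h1 h2).1
      show c1 - w0 ≤ X z (T * (j + 1)) ∧ X z (T * (j + 1)) ≤ c1 + w0 ∧
        c2 - w0 ≤ X z (T * (j + 1) + 2) ∧ X z (T * (j + 1) + 2) ≤ c2 + w0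
      rw [idx]
      exact this)
    hlo hhi
    (fun s => by
      rcases cov s with c | c
      · left
        intro j z hq
        have := c (X z) (hXs z) (T * j) hq.1 hq.2.1 hq.2.2.1 hq.2.2.2
        simp only [idx]
        exact this
      · right
        intro j z hq
        have := c (X z) (hXs z) (T * j) hq.1 hq.2.1 hq.2.2.1 hq.2.2.2
        simp only [idx]
        exact this) sq
  have hxe : ∀ n, x z n = Real.exp (Λ * X z n) := by
    intro n
    show x z n = Real.exp (Λ * (Real.log (x z n) / Λ))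
    rw [mul_div_cancel₀ _ hΛ.ne', Real.exp_log (hxp z n)]
  refine ⟨_, _, _, Real.exp_pos (Λ * c1), Real.exp_pos (Λ * z), Real.exp_pos (Λ * c2), ?_, ?_⟩
  · rintro p ⟨k, hk, hp⟩
    refine not_tendsto_periodic (x := x z) (T := T) (c := 1) (u := Real.exp (Λ * r false))
      (v := Real.exp (Λ * l true)) (Real.exp_lt_exp.2 (mul_lt_mul_of_pos_left hsep hΛ)) ?_ ?_ p k hk hp
    · intro j hj
      have := (hz j).2.1
      rw [hj] at this
      rw [hxe]
      exact Real.exp_le_exp.2 (mul_le_mul_of_nonneg_left this hΛ.le)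
    · intro j hj
      have := (hz j).2.2
      rw [hj] at this
      rw [hxe]
      exact Real.exp_le_exp.2 (mul_le_mul_of_nonneg_left this hΛ.le)
  · intro n
    have hn : n = T * (n / T) + n % T := (Nat.div_add_mod n T).symm
    have hq := hz (n / T)
    have := (step (X z) (hXs z) (T * (n / T)) _ hq.1.1 hq.1.2.1 hq.1.2.2.1 hq.1.2.2.2 hq.2.1 hq.2.2).2
      (n % T) (Nat.mod_lt _ hT)
    rw [← hn] at this
    show x z n ≤ _
    rw [hxe]
    exact Real.exp_le_exp.2 (mul_le_mul_of_nonneg_left this hΛ.le)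

end Pool.Agent.X322.Hs
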