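import Mathlib
import Pool.Agent.X322.Hs1
import Pool.Agent.X322.Hs2
import Pool.Agent.X322.Hs3

/-!
# Nonconvergent solutions of
`x_{n+1} = (α + x_n + γ x_{n-1} + δ x_{n-2})/(x_n + C x_{n-1} + D x_{n-2})`
-/

set_option autoImplicit false

open Set Filter Topology
open Pool.Agent.X322.Hs

namespace Pool.Agent.X322.Hs28

/-- the right-hand side -/
noncomputable def G (u v w : ℝ) : ℝ :=
  (1 + u + 1 * v + Real.exp 8000 * w) / (u + Real.exp (-10000) * v + Real.exp (-20000) * w)

theorem G_pos (u v w : ℝ) (hu : 0 < u) (hv : 0 < v) (hw : 0 < w) : 0 < G u v w := by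
  unfold G
  have := Real.exp_pos 8000
  have := Real.exp_pos (-10000)
  have := Real.exp_pos (-20000)
  positivity

theorem log4 : Real.log 4 ≤ 2000 * (1 / 1000) := by
  have h : (4 : ℝ) = 2 ^ (2 : ℕ) := by norm_num
  rw [h, Real.log_pow]
  have := Real.log_two_lt_d9
  push_cast
  linarith

theorem G_St (u v w : ℝ) (hu : 0 < u) (hv : 0 < v) (hw : 0 < w) :
    St (lg 2000 u) (lg 2000 v) (lg 2000 w) (lg 2000 (G u v w)) := by
  have e0 : ∀ x : ℝ, 0 < x → Real.exp (2000 * lg 2000 x) = x := by
    intro x hx
    unfold lg
    rw [mul_div_cancel₀ _ (by norm_num : (2000 : ℝ) ≠ 0), Real.exp_log hx]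
  have hN : 1 + u + 1 * v + Real.exp 8000 * w =
      Real.exp (2000 * 0) + Real.exp (2000 * lg 2000 u) + Real.exp (2000 * lg 2000 v) +
        Real.exp (2000 * (4 + lg 2000 w)) := by
    rw [mul_add, Real.exp_add, e0 u hu, e0 v hv, e0 w hw]
    norm_num
  have hM : u + Real.exp (-10000) * v + Real.exp (-20000) * w =
      Real.exp (2000 * lg 2000 u) + Real.exp (2000 * (-5 + lg 2000 v)) +
        Real.exp (2000 * (-10 + lg 2000 w)) := by
    rw [mul_add, mul_add, Real.exp_add, Real.exp_add, e0 u hu, e0 v hv, e0 w hw]
    norm_num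
  refine ⟨lg 2000 (1 + u + 1 * v + Real.exp 8000 * w),
    lg 2000 (u + Real.exp (-10000) * v + Real.exp (-20000) * w), ?_, ?_, ?_⟩
  · unfold G lg
    rw [Real.log_div, sub_div]
    · have := Real.exp_pos 8000
      positivity
    · have := Real.exp_pos (-10000)
      have := Real.exp_pos (-20000)
      positivity
  · rw [hN]
    exact lse4 (by norm_num) log4
  · rw [hM]
    exact lse3 (by norm_num) log4

/-- left end points of the two intervals -/
noncomputable def l (s : Bool) : ℝ := if s then 786 / 100 else 697 / 100
/-- right end points of the two intervals -/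
noncomputable def r (s : Bool) : ℝ := if s then 1671 / 200 else 77 / 10

theorem main :
    ∃ α γ δ C D : ℝ, 0 < α ∧ 0 < γ ∧ 0 < δ ∧ 0 < C ∧ 0 < D ∧
      ∃ x : ℕ → ℝ, 0 < x 0 ∧ 0 < x 1 ∧ 0 < x 2 ∧
        (∀ n, x (n + 3) = (α + x (n + 2) + γ * x (n + 1) + δ * x n) /
          (x (n + 2) + C * x (n + 1) + D * x n)) ∧
        ∀ p : ℕ → ℝ, (∃ k, 0 < k ∧ ∀ n, p (n + k) = p n) →
          ¬ Tendsto (fun n => x n - p n) atTop (𝓝 0) := by
  have hcont : ∀ u v w : ℝ → ℝ, Continuous u → Continuous v → Continuous w → (∀ z, 0 < u z) →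
      (∀ z, 0 < v z) → (∀ z, 0 < w z) → Continuous fun z => G (u z) (v z) (w z) := by
    intro u v w cu cv cw pu pv pw
    unfold G
    refine Continuous.div (by fun_prop) (by fun_prop) fun z => ?_
    have := Real.exp_pos (-10000)
    have := Real.exp_pos (-20000)
    have := pu z
    have := pv z
    have := pw z
    positivity
  obtain ⟨a, b, c, ha, hb, hc, h1, _⟩ := assemble (Λ := 2000) (by norm_num) G G_pos hcont St G_St
    (T := 8) (by norm_num) (c1 := 5) (c2 := 0) (w0 := 1 / 500) (R := 10) (lo := 697 / 100)
    (hi := 1671 / 200) (by norm_num) (l := l) (r := r)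
    (by intro s; cases s <;> norm_num [l, r]) (by intro s; cases s <;> norm_num [l])
    (by intro s; cases s <;> norm_num [r]) (by norm_num [l, r])
    (by
      intro X hX t s q1 q2 q3 q4 q5 q6
      cases s
      · have q5' : (697 / 100 : ℝ) ≤ X (t + 1) := by simpa [l] using q5
        have q6' : X (t + 1) ≤ 77 / 10 := by simpa [r] using q6
        obtain ⟨⟨a1, a2⟩, ⟨a3, a4⟩, _, b3, b4, b5, b6, b7, _⟩ := branchA (hX t) (hX (t + 1)) (hX (t + 2))
          (hX (t + 3)) (hX (t + 4)) (hX (t + 5)) (hX (t + 6)) (hX (t + 7))
          (by linarith) (by linarith) (by linarith) (by linarith) q5' q6'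
        refine ⟨⟨by linarith [show (5 : ℝ) - 1 / 500 = 2499 / 500 by norm_num],
          by linarith [show (5 : ℝ) + 1 / 500 = 2501 / 500 by norm_num], ?_, ?_⟩, ?_⟩
        · have : X (t + 8 + 2) = X (t + 7 + 3) := rfl
          linarith
        · have : X (t + 8 + 2) = X (t + 7 + 3) := rfl
          linarith
        · intro i hi
          interval_cases i
          · simp only [Nat.add_zero]; linarith
          · linarith
          · linarith
          · exact b3
          · exact b4
          · exact b5
          · exact b6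
          · exact b7
      · have q5' : (393 / 50 : ℝ) ≤ X (t + 1) := by
          have : (786 / 100 : ℝ) ≤ X (t + 1) := by simpa [l] using q5
          linarith
        have q6' : X (t + 1) ≤ 1671 / 200 := by simpa [r] using q6
        obtain ⟨⟨a1, a2⟩, ⟨a3, a4⟩, _, b3, b4, b5, b6, b7, _⟩ := branchB (hX t) (hX (t + 1)) (hX (t + 2))
          (hX (t + 3)) (hX (t + 4)) (hX (t + 5)) (hX (t + 6)) (hX (t + 7))
          (by linarith) (by linarith) (by linarith) (by linarith) q5' q6'
        refine ⟨⟨by linarith [show (5 : ℝ) - 1 / 500 = 2499 / 500 by norm_num],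
          by linarith [show (5 : ℝ) + 1 / 500 = 2501 / 500 by norm_num], ?_, ?_⟩, ?_⟩
        · have : X (t + 8 + 2) = X (t + 7 + 3) := rfl
          linarith
        · have : X (t + 8 + 2) = X (t + 7 + 3) := rfl
          linarith
        · intro i hi
          interval_cases i
          · simp only [Nat.add_zero]; linarith
          · linarith
          · linarith
          · exact b3
          · exact b4
          · exact b5
          · exact b6
          · exact b7)
    (by
      intro s
      cases s
      · left
        intro X hX t q1 q2 q3 q4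
        have key : ∀ h5 : (697 / 100 : ℝ) ≤ X (t + 1), ∀ h6 : X (t + 1) ≤ 77 / 10,
            (-3507 / 500 : ℝ) + 2 * X (t + 1) ≤ X (t + 8 + 1) ∧
              X (t + 8 + 1) ≤ -3493 / 500 + 2 * X (t + 1) := fun h5 h6 =>
          (branchA (hX t) (hX (t + 1)) (hX (t + 2))
          (hX (t + 3)) (hX (t + 4)) (hX (t + 5)) (hX (t + 6)) (hX (t + 7))
          (by linarith) (by linarith) (by linarith) (by linarith) h5 h6).2.2.1
        constructor
        · intro he
          have he' : X (t + 1) = 697 / 100 := by simpa [l] using he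
          have := key (by linarith) (by linarith)
          linarith [this.2]
        · intro he
          have he' : X (t + 1) = 77 / 10 := by simpa [r] using he
          have := key (by linarith) (by linarith)
          linarith [this.1]
      · right
        intro X hX t q1 q2 q3 q4
        have key : ∀ h5 : (393 / 50 : ℝ) ≤ X (t + 1), ∀ h6 : X (t + 1) ≤ 1671 / 200,
            (3199 / 100 : ℝ) + (-3) * X (t + 1) ≤ X (t + 8 + 1) ∧
              X (t + 8 + 1) ≤ 3201 / 100 + (-3) * X (t + 1) := fun h5 h6 =>
          (branchB (hX t) (hX (t + 1)) (hX (t + 2))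
          (hX (t + 3)) (hX (t + 4)) (hX (t + 5)) (hX (t + 6)) (hX (t + 7))
          (by linarith) (by linarith) (by linarith) (by linarith) h5 h6).2.2.1
        constructor
        · intro he
          have he' : X (t + 1) = 786 / 100 := by simpa [l] using he
          have := key (by linarith) (by linarith)
          linarith [this.1]
        · intro he
          have he' : X (t + 1) = 1671 / 200 := by simpa [r] using he
          have := key (by linarith) (by linarith)
          linarith [this.2])
  refine ⟨1, 1, Real.exp 8000, Real.exp (-10000), Real.exp (-20000), one_pos, one_pos,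
    Real.exp_pos _, Real.exp_pos _, Real.exp_pos _, orb G a b c, ha, hb, hc, fun n => ?_, h1⟩
  rw [orb]
  rfl

end Pool.Agent.X322.Hs28
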