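import Mathlib

/-!
# A non-affine continuous monotone solution of the sliding-window Golomb equation for `r = 4`
-/

set_option autoImplicit false

namespace Pool.Agent.X322.Go

open Set Function Filter Topology

/-- distance to `4ℤ` -/
noncomputable def dd (z : ℝ) : ℝ := ‖(z : AddCircle (4 : ℝ))‖

theorem dd_nonneg (z : ℝ) : 0 ≤ dd z := norm_nonneg _

theorem dd_le (z : ℝ) : dd z ≤ 2 := by
  have h := AddCircle.norm_le_half_period (4 : ℝ) (x := (z : AddCircle (4 : ℝ))) (by norm_num)
  unfold dd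
  rw [abs_of_pos (by norm_num : (0 : ℝ) < 4)] at h
  linarith

theorem dd_eq {z : ℝ} (hz : |z| ≤ 2) : dd z = |z| := by
  unfold dd
  rw [AddCircle.norm_coe_eq_abs_iff (4 : ℝ) (by norm_num)]
  rw [abs_of_pos (by norm_num : (0 : ℝ) < 4)]
  linarith

theorem dd_add (z : ℝ) (m : ℤ) : dd (z + 4 * m) = dd z := by
  unfold dd
  congr 1
  rw [AddCircle.coe_add]
  have : ((4 * (m : ℝ) : ℝ) : AddCircle (4 : ℝ)) = 0 := by
    rw [AddCircle.coe_eq_zero_iff]
    exact ⟨m, by rw [zsmul_eq_mul]; ring⟩
  rw [this, add_zero]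

theorem dd_lip (z w : ℝ) : |dd z - dd w| ≤ |z - w| := by
  unfold dd
  refine (abs_norm_sub_norm_le _ _).trans ?_
  rw [← AddCircle.coe_sub, ← Real.norm_eq_abs]
  exact QuotientAddGroup.norm_mk_le_norm

/-- the contraction -/
noncomputable def LL (z : ℝ) : ℝ := z / 4 + dd z / 8

theorem LL_add (z : ℝ) (m : ℤ) : LL (z + 4 * m) = LL z + m := by
  unfold LL
  rw [dd_add]
  ring

theorem LL_mono : Monotone LL := by
  intro z w h
  have h1 := abs_le.1 (dd_lip z w)
  rw [abs_sub_comm, abs_of_nonneg (sub_nonneg.2 h)] at h1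
  unfold LL
  linarith [h1.2]

theorem LL_lip (z w : ℝ) : |LL z - LL w| ≤ 3 / 8 * |z - w| := by
  have h1 := dd_lip z w
  unfold LL
  have : z / 4 + dd z / 8 - (w / 4 + dd w / 8) = (z - w) / 4 + (dd z - dd w) / 8 := by ring
  rw [this]
  calc |(z - w) / 4 + (dd z - dd w) / 8| ≤ |(z - w) / 4| + |(dd z - dd w) / 8| := abs_add_le _ _
    _ = |z - w| / 4 + |dd z - dd w| / 8 := by
        rw [abs_div, abs_div, abs_of_pos (by norm_num : (0 : ℝ) < 4),
          abs_of_pos (by norm_num : (0 : ℝ) < 8)]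
    _ ≤ 3 / 8 * |z - w| := by linarith

theorem LL_iter_lip (n : ℕ) (z w : ℝ) : |LL^[n] z - LL^[n] w| ≤ (3 / 8) ^ n * |z - w| := by
  induction n with
  | zero => simp
  | succ n ih =>
    rw [iterate_succ_apply', iterate_succ_apply']
    refine (LL_lip _ _).trans ?_
    rw [pow_succ]
    calc 3 / 8 * |LL^[n] z - LL^[n] w| ≤ 3 / 8 * ((3 / 8) ^ n * |z - w|) := by
          apply mul_le_mul_of_nonneg_left ih (by norm_num)
      _ = (3 / 8) ^ n * (3 / 8) * |z - w| := by ring

theorem LL_cont : Continuous LL := by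
  rw [Metric.continuous_iff]
  intro b ε hε
  refine ⟨ε, hε, fun a ha => ?_⟩
  rw [Real.dist_eq] at ha ⊢
  have := LL_lip a b
  have h2 := abs_nonneg (a - b)
  linarith

theorem LL_iter_add (n : ℕ) (z : ℝ) (m : ℤ) : LL^[n] (z + 4 ^ n * m) = LL^[n] z + m := by
  induction n generalizing z with
  | zero => simp
  | succ n ih =>
    rw [iterate_succ_apply, iterate_succ_apply]
    have : z + 4 ^ (n + 1) * (m : ℝ) = z + 4 * ((4 ^ n * m : ℤ) : ℝ) := by
      push_cast
      ring
    rw [this, LL_add]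
    push_cast
    exact ih _

/-- approximations -/
noncomputable def gg (n : ℕ) (y : ℝ) : ℝ := LL^[n] (4 ^ n * y)

theorem gg_cont (n : ℕ) : Continuous (gg n) :=
  (LL_cont.iterate n).comp (continuous_const.mul continuous_id)

theorem gg_step (n : ℕ) (y : ℝ) : |gg (n + 1) y - gg n y| ≤ (3 / 8) ^ n / 4 := by
  unfold gg
  rw [iterate_succ_apply]
  refine (LL_iter_lip n _ _).trans ?_
  have h1 : LL (4 ^ (n + 1) * y) - 4 ^ n * y = dd (4 ^ (n + 1) * y) / 8 := by
    unfold LL
    ring
  rw [h1, abs_of_nonneg (div_nonneg (dd_nonneg _) (by norm_num))]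
  have h2 := dd_le (4 ^ (n + 1) * y)
  have h3 : (0 : ℝ) < (3 / 8) ^ n := by positivity
  nlinarith

theorem summ : Summable fun n : ℕ => ((3 : ℝ) / 8) ^ n / 4 :=
  (summable_geometric_of_lt_one (by norm_num) (by norm_num)).div_const 4

/-- the conjugacy -/
noncomputable def GG (y : ℝ) : ℝ := y + ∑' n, (gg (n + 1) y - gg n y)

theorem GG_cont : Continuous GG := by
  refine continuous_id.add (continuous_tsum (fun n => (gg_cont (n + 1)).sub (gg_cont n)) summ ?_)
  intro n y
  rw [Real.norm_eq_abs]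
  exact gg_step n y

theorem summ_y (y : ℝ) : Summable fun n => gg (n + 1) y - gg n y :=
  Summable.of_norm_bounded summ fun n => by
    rw [Real.norm_eq_abs]
    exact gg_step n y

theorem GG_lim (y : ℝ) : Tendsto (fun n => gg n y) atTop (𝓝 (GG y)) := by
  have h1 := (summ_y y).hasSum.tendsto_sum_nat
  have h2 : ∀ n, ∑ i ∈ Finset.range n, (gg (i + 1) y - gg i y) = gg n y - y := by
    intro n
    rw [Finset.sum_range_sub (fun i => gg i y)]
    congr 1
    unfold gg
    simp
  simp only [h2] at h1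
  have h3 := h1.const_add y
  have h4 : (fun n => y + (gg n y - y)) = fun n => gg n y := by
    ext n
    ring
  rw [h4] at h3
  exact h3

theorem GG_bound (y : ℝ) : |GG y - y| ≤ 2 / 5 := by
  unfold GG
  rw [add_sub_cancel_left]
  have h1 : ‖∑' n, (gg (n + 1) y - gg n y)‖ ≤ ∑' n : ℕ, ((3 : ℝ) / 8) ^ n / 4 :=
    tsum_of_norm_bounded summ.hasSum fun n => by
      rw [Real.norm_eq_abs]
      exact gg_step n y
  rw [tsum_div_const, tsum_geometric_of_lt_one (by norm_num) (by norm_num)] at h1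
  rw [Real.norm_eq_abs] at h1
  norm_num at h1
  exact h1

theorem GG_mono : Monotone GG := by
  intro y z h
  refine le_of_tendsto_of_tendsto' (GG_lim y) (GG_lim z) fun n => ?_
  unfold gg
  apply LL_mono.iterate n
  have : (0 : ℝ) < 4 ^ n := by positivity
  nlinarith

theorem GG_add (y : ℝ) (m : ℤ) : GG (y + m) = GG y + m := by
  have h1 := GG_lim (y + m)
  have h2 := (GG_lim y).add_const (m : ℝ)
  refine tendsto_nhds_unique h1 ?_
  have h3 : (fun n => gg n (y + m)) = fun n => gg n y + m := by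
    ext n
    unfold gg
    rw [mul_add, LL_iter_add]
  rw [h3]
  exact h2

theorem GG_quarter (y : ℝ) : GG y = LL (GG (4 * y)) := by
  have h1 := (GG_lim y).comp (tendsto_add_atTop_nat 1)
  have h2 := (LL_cont.tendsto _).comp (GG_lim (4 * y))
  refine tendsto_nhds_unique h1 ?_
  have h3 : (fun n => gg n y) ∘ (fun n => n + 1) = LL ∘ fun n => gg n (4 * y) := by
    ext n
    show LL^[n + 1] (4 ^ (n + 1) * y) = LL (LL^[n] (4 ^ n * (4 * y)))
    rw [iterate_succ_apply']
    congr 2
    ring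
  rw [h3]
  exact h2

theorem GG_zero : GG 0 = 0 := by
  have h1 := GG_quarter 0
  rw [mul_zero] at h1
  have h2 := GG_bound 0
  rw [sub_zero] at h2
  have h3 : dd (GG 0) = |GG 0| := dd_eq (by linarith)
  unfold LL at h1
  rw [h3] at h1
  rcases le_total 0 (GG 0) with h4 | h4
  · rw [abs_of_nonneg h4] at h1
    linarith
  · rw [abs_of_nonpos h4] at h1
    linarith

theorem GG_int (m : ℤ) : GG m = m := by
  have := GG_add 0 m
  rw [zero_add, GG_zero, zero_add] at this
  exact this

theorem GG_one_two : GG 1 = 1 ∧ GG 2 = 2 ∧ GG (-2) = -2 := by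
  have h1 := GG_int 1
  have h2 := GG_int 2
  have h3 := GG_int (-2)
  push_cast at h1 h2 h3
  exact ⟨h1, h2, h3⟩

theorem LL_strict : StrictMono LL := by
  intro z w h
  have h1 := abs_le.1 (dd_lip z w)
  rw [abs_sub_comm, abs_of_pos (sub_pos.2 h)] at h1
  unfold LL
  linarith [h1.2]

theorem GG_strict : StrictMono GG := by
  refine GG_mono.strictMono_of_injective ?_
  -- a flat interval would be blown up
  have main : ∀ y z, y < z → GG y ≠ GG z := by
    intro y z hyz heq
    have hpow : ∀ n : ℕ, GG (4 ^ n * y) = GG (4 ^ n * z) := by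
      intro n
      induction n with
      | zero => simpa using heq
      | succ n ih =>
        rw [GG_quarter (4 ^ n * y), GG_quarter (4 ^ n * z)] at ih
        have h1 := LL_strict.injective ih
        rw [pow_succ]
        have e1 : 4 ^ n * 4 * y = 4 * (4 ^ n * y) := by ring
        have e2 : 4 ^ n * 4 * z = 4 * (4 ^ n * z) := by ring
        rw [e1, e2]
        exact h1
    obtain ⟨n, hn⟩ := pow_unbounded_of_one_lt (1 / (z - y)) (by norm_num : (1 : ℝ) < 4)
    rw [div_lt_iff₀ (sub_pos.2 hyz)] at hn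
    have h1 : GG (4 ^ n * y + 1) ≤ GG (4 ^ n * z) := GG_mono (by linarith)
    have h2 := GG_add (4 ^ n * y) 1
    push_cast at h2
    rw [h2, ← hpow n] at h1
    linarith
  intro y z h
  by_contra hne
  rcases lt_or_gt_of_ne hne with h1 | h1
  · exact main y z h1 h
  · exact main z y h1 h.symm

theorem GG_surj : Surjective GG := by
  refine GG_cont.surjective ?_ ?_
  · refine tendsto_atTop_mono (f := fun y => y - 2 / 5) (fun y => ?_) ?_
    · have := (abs_le.1 (GG_bound y)).1
      show y - 2 / 5 ≤ GG y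
      linarith
    · exact tendsto_atTop_add_const_right _ _ tendsto_id
  · have hle : ∀ y, GG y ≤ y + 2 / 5 := fun y => by
      have := (abs_le.1 (GG_bound y)).2
      linarith
    have ht : Tendsto (fun y : ℝ => y + 2 / 5) atBot atBot :=
      tendsto_atBot_add_const_right _ _ tendsto_id
    exact tendsto_atBot_mono hle ht

/-- functional equation on the unit interval -/
theorem GG_fe_unit {y : ℝ} (h0 : 0 ≤ y) (h1 : y ≤ 1) :
    GG (2 * y) = 2 * GG (y / 2) + 2 * GG ((y - 1) / 2) + 1 / 2 := by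
  have e1 := GG_quarter (y / 2)
  have e2 := GG_quarter ((y - 1) / 2)
  have a1 : 4 * (y / 2) = 2 * y := by ring
  have a2 : 4 * ((y - 1) / 2) = 2 * y + ((-2 : ℤ) : ℝ) := by
    push_cast
    ring
  rw [a1] at e1
  rw [a2, GG_add] at e2
  push_cast at e2
  have hz0 : 0 ≤ GG (2 * y) := by
    rw [← GG_zero]
    exact GG_mono (by linarith)
  have hz2 : GG (2 * y) ≤ 2 := by
    have := GG_mono (by linarith : 2 * y ≤ 2)
    rwa [GG_one_two.2.1] at this
  have d1 : dd (GG (2 * y)) = GG (2 * y) := by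
    rw [dd_eq (by rw [abs_of_nonneg hz0]; exact hz2), abs_of_nonneg hz0]
  have hneg : GG (2 * y) + -2 ≤ 0 := by linarith
  have d2 : dd (GG (2 * y) + -2) = -(GG (2 * y) + -2) := by
    rw [dd_eq (by rw [abs_of_nonpos hneg]; linarith), abs_of_nonpos hneg]
  unfold LL at e1 e2
  rw [d1] at e1
  rw [d2] at e2
  linarith

theorem GG_fe (y : ℝ) : GG (2 * y) = 2 * GG (y / 2) + 2 * GG ((y - 1) / 2) + 1 / 2 := by
  set D : ℝ → ℝ := fun y => GG (2 * y) - (2 * GG (y / 2) + 2 * GG ((y - 1) / 2)) with hD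
  have hper : Function.Periodic D 1 := by
    intro y
    simp only [hD]
    have e1 : 2 * (y + 1) = 2 * y + ((2 : ℤ) : ℝ) := by
      push_cast
      ring
    have e2 : (y + 1) / 2 = (y - 1) / 2 + ((1 : ℤ) : ℝ) := by
      push_cast
      ring
    have e3 : (y + 1 - 1) / 2 = y / 2 := by ring
    rw [e1, e2, e3, GG_add, GG_add]
    push_cast
    ring
  have h1 := hper.sub_int_mul_eq (x := y) ⌊y⌋
  rw [mul_one] at h1
  have h2 : y - ⌊y⌋ = Int.fract y := rfl
  rw [h2] at h1
  have h3 := GG_fe_unit (Int.fract_nonneg y) (Int.fract_lt_one y).le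
  have h4 : D (Int.fract y) = 1 / 2 := by
    simp only [hD]
    linarith
  rw [h4] at h1
  simp only [hD] at h1
  linarith

/-- the order isomorphism -/
noncomputable def GI : ℝ ≃o ℝ := GG_strict.orderIsoOfSurjective GG GG_surj

theorem GI_apply (y : ℝ) : GI y = GG y := rfl

theorem GI_symm_sub (x : ℝ) (m : ℤ) : GI.symm (x - m) = GI.symm x - m := by
  rw [OrderIso.symm_apply_eq, GI_apply]
  have h := GG_add (GI.symm x) (-m)
  push_cast at h
  have h2 : GG (GI.symm x) = x := GI.apply_symm_apply x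
  rw [sub_eq_add_neg (GI.symm x), h, h2]
  ring

/-- the conjugated halving map -/
noncomputable def ph0 (x : ℝ) : ℝ := GI (GI.symm x / 2)

theorem ph0_cont : Continuous ph0 :=
  GI.continuous.comp (GI.symm.continuous.div_const 2)

theorem ph0_strict : StrictMono ph0 := by
  intro x y h
  apply GI.strictMono
  have := GI.symm.strictMono h
  linarith

/-- the sum over the window inverts the map up to a translation -/
theorem ph0_sum (x : ℝ) :
    ph0 (2 * ph0 x + 2 * ph0 (x - 1) + 1 / 2) = x := by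
  have h1 : GI.symm (x - 1) = GI.symm x - 1 := by
    have := GI_symm_sub x 1
    push_cast at this
    exact this
  have h2 := GG_fe (GI.symm x)
  have h3 : 2 * ph0 x + 2 * ph0 (x - 1) + 1 / 2 = GI (2 * GI.symm x) := by
    unfold ph0
    rw [h1, GI_apply, GI_apply, GI_apply]
    linarith
  rw [h3]
  unfold ph0
  rw [OrderIso.symm_apply_apply]
  have : 2 * GI.symm x / 2 = GI.symm x := by ring
  rw [this, OrderIso.apply_symm_apply]

theorem ph0_sub_two (x : ℝ) : ph0 (x - 2) = ph0 x - 1 := by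
  have h1 : GI.symm (x - 2) = GI.symm x - 2 := by
    have := GI_symm_sub x 2
    push_cast at this
    exact this
  unfold ph0
  rw [h1, GI_apply, GI_apply]
  have h2 := GG_add (GI.symm x / 2) (-1)
  push_cast at h2
  have : (GI.symm x - 2) / 2 = GI.symm x / 2 + -1 := by ring
  rw [this, h2]
  ring

/-- the solution -/
noncomputable def ph (x : ℝ) : ℝ := ph0 (x - 5 / 6) + 5 / 6

theorem ph_cont : Continuous ph :=
  (ph0_cont.comp (continuous_id.sub continuous_const)).add continuous_const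

theorem ph_strict : StrictMono ph := by
  intro x y h
  unfold ph
  have := ph0_strict (by linarith : x - 5 / 6 < y - 5 / 6)
  linarith

theorem ph_sum (x : ℝ) : ph (∑ j ∈ Finset.range 4, ph (x - j)) = x := by
  have h1 : ∑ j ∈ Finset.range 4, ph (x - j) =
      2 * ph0 (x - 5 / 6) + 2 * ph0 (x - 5 / 6 - 1) + 1 / 2 + 5 / 6 := by
    simp only [Finset.sum_range_succ, Finset.sum_range_zero]
    push_cast
    unfold ph
    have e0 : x - 0 - 5 / 6 = x - 5 / 6 := by ring
    have e1 : x - 1 - 5 / 6 = x - 5 / 6 - 1 := by ring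
    have e2 : x - 2 - 5 / 6 = x - 5 / 6 - 2 := by ring
    have e3 : x - 3 - 5 / 6 = x - 5 / 6 - 1 - 2 := by ring
    rw [e0, e1, e2, e3, ph0_sub_two, ph0_sub_two]
    ring
  rw [h1]
  unfold ph
  rw [add_sub_cancel_right, ph0_sum]
  ring

theorem ph_ne : ph (5 / 6) = 5 / 6 ∧ ph (5 / 6 + 1) = 5 / 6 + 3 / 4 := by
  have hs0 : GI.symm 0 = 0 := by
    rw [OrderIso.symm_apply_eq, GI_apply, GG_zero]
  have hs1 : GI.symm 1 = 1 := by
    rw [OrderIso.symm_apply_eq, GI_apply, GG_one_two.1]
  constructor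
  · unfold ph ph0
    rw [sub_self, hs0, zero_div, GI_apply, GG_zero, zero_add]
  · unfold ph ph0
    rw [add_sub_cancel_left, hs1, GI_apply, GG_quarter]
    have : (4 : ℝ) * (1 / 2) = 2 := by norm_num
    rw [this, GG_one_two.2.1]
    unfold LL
    rw [dd_eq (by norm_num)]
    norm_num

end Pool.Agent.X322.Go
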