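import Mathlib

/-! Branches of the return map for `x_{n+1} = (α + x_{n-2})/(A + B x_n + x_{n-1})` in logarithmic scale -/

set_option autoImplicit false

namespace Pool.Agent.X322.Hs41

/-- one step in logarithmic scale, with error `1/100000` -/
def St (u v w y : ℝ) : Prop :=
  ∃ N M : ℝ, y = N - M ∧
    ((2 ≤ N ∧ w ≤ N) ∧ (N ≤ 2 + (1 / 100000) ∨ N ≤ w + (1 / 100000))) ∧
    (((-8) ≤ M ∧ (-6) + u ≤ M ∧ v ≤ M) ∧ (M ≤ (-8) + (1 / 100000) ∨ M ≤ (-6) + u + (1 / 100000) ∨ M ≤ v + (1 / 100000)))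

theorem branchA {x0 x1 x2 x3 x4 x5 x6 x7 x8 x9 x10 x11 x12 x13 x14 x15 x16 x17 x18 x19 : ℝ}
    (s3 : St x2 x1 x0 x3)
    (s4 : St x3 x2 x1 x4)
    (s5 : St x4 x3 x2 x5)
    (s6 : St x5 x4 x3 x6)
    (s7 : St x6 x5 x4 x7)
    (s8 : St x7 x6 x5 x8)
    (s9 : St x8 x7 x6 x9)
    (s10 : St x9 x8 x7 x10)
    (s11 : St x10 x9 x8 x11)
    (s12 : St x11 x10 x9 x12)
    (s13 : St x12 x11 x10 x13)
    (s14 : St x13 x12 x11 x14)
    (s15 : St x14 x13 x12 x15)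
    (s16 : St x15 x14 x13 x16)
    (s17 : St x16 x15 x14 x17)
    (s18 : St x17 x16 x15 x18)
    (s19 : St x18 x17 x16 x19)
    (h1 : (5999 / 1000) ≤ x0) (h2 : x0 ≤ (6001 / 1000)) (h3 : (-4001 / 1000) ≤ x2) (h4 : x2 ≤ (-3999 / 1000))
    (h5 : (6 / 25) ≤ x1) (h6 : x1 ≤ (47 / 100)) :
    ((5999 / 1000) ≤ x17 ∧ x17 ≤ (6001 / 1000)) ∧
    ((-4001 / 1000) ≤ x19 ∧ x19 ≤ (-3999 / 1000)) ∧
    ((-2200059 / 100000) + 4 * x0 + (-4) * x1 ≤ x18 ∧ x18 ≤ (-2199941 / 100000) + 4 * x0 + (-4) * x1) ∧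
    x3 ≤ 7 ∧
    x4 ≤ 7 ∧
    x5 ≤ 7 ∧
    x6 ≤ 7 ∧
    x7 ≤ 7 ∧
    x8 ≤ 7 ∧
    x9 ≤ 7 ∧
    x10 ≤ 7 ∧
    x11 ≤ 7 ∧
    x12 ≤ 7 ∧
    x13 ≤ 7 ∧
    x14 ≤ 7 ∧
    x15 ≤ 7 ∧
    x16 ≤ 7 ∧
    x17 ≤ 7 ∧
    x18 ≤ 7 ∧
    x19 ≤ 7 := by
  obtain ⟨l3, u3⟩ : (-1 / 100000) + 1 * x0 + (-1) * x1 ≤ x3 ∧ x3 ≤ (1 / 100000) + 1 * x0 + (-1) * x1 := by
    obtain ⟨N, M, e, ⟨⟨p0,p1⟩, a⟩, ⟨⟨m0,m1,m2⟩, b⟩⟩ := s3
    constructor
    · clear a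
      rcases b with h|h|h <;> linarith
    · clear b
      rcases a with h|h <;> linarith
  clear s3
  have r3 : x3 ≤ 7 := by linarith
  obtain ⟨l4, u4⟩ : (399999 / 50000) + (-1) * x0 + 1 * x1 ≤ x4 ∧ x4 ≤ (400001 / 50000) + (-1) * x0 + 1 * x1 := by
    obtain ⟨N, M, e, ⟨⟨p0,p1⟩, a⟩, ⟨⟨m0,m1,m2⟩, b⟩⟩ := s4
    constructor
    · clear a
      rcases b with h|h|h <;> linarith
    · clear b
      rcases a with h|h <;> linarith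
  clear s4
  have r4 : x4 ≤ 7 := by linarith
  obtain ⟨l5, u5⟩ : (99999 / 50000) + (-1) * x0 + 1 * x1 ≤ x5 ∧ x5 ≤ (100001 / 50000) + (-1) * x0 + 1 * x1 := by
    obtain ⟨N, M, e, ⟨⟨p0,p1⟩, a⟩, ⟨⟨m0,m1,m2⟩, b⟩⟩ := s5
    constructor
    · clear a
      rcases b with h|h|h <;> linarith
    · clear b
      rcases a with h|h <;> linarith
  clear s5
  have r5 : x5 ≤ 7 := by linarith
  obtain ⟨l6, u6⟩ : (-200001 / 25000) + 2 * x0 + (-2) * x1 ≤ x6 ∧ x6 ≤ (-199999 / 25000) + 2 * x0 + (-2) * x1 := by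
    obtain ⟨N, M, e, ⟨⟨p0,p1⟩, a⟩, ⟨⟨m0,m1,m2⟩, b⟩⟩ := s6
    constructor
    · clear a
      rcases b with h|h|h <;> linarith
    · clear b
      rcases a with h|h <;> linarith
  clear s6
  have r6 : x6 ≤ 7 := by linarith
  clear l3 u3
  obtain ⟨l7, u7⟩ : (2199993 / 100000) + (-3) * x0 + 3 * x1 ≤ x7 ∧ x7 ≤ (2200007 / 100000) + (-3) * x0 + 3 * x1 := by
    obtain ⟨N, M, e, ⟨⟨p0,p1⟩, a⟩, ⟨⟨m0,m1,m2⟩, b⟩⟩ := s7
    constructor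
    · clear a
      rcases b with h|h|h <;> linarith
    · clear b
      rcases a with h|h <;> linarith
  clear s7
  have r7 : x7 ≤ 7 := by linarith
  clear l4 u4
  obtain ⟨l8, u8⟩ : (199999 / 20000) + (-2) * x0 + 2 * x1 ≤ x8 ∧ x8 ≤ (200001 / 20000) + (-2) * x0 + 2 * x1 := by
    obtain ⟨N, M, e, ⟨⟨p0,p1⟩, a⟩, ⟨⟨m0,m1,m2⟩, b⟩⟩ := s8
    constructor
    · clear a
      rcases b with h|h|h <;> linarith
    · clear b
      rcases a with h|h <;> linarith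
  clear s8
  have r8 : x8 ≤ 7 := by linarith
  clear l5 u5
  obtain ⟨l9, u9⟩ : (-750003 / 25000) + 5 * x0 + (-5) * x1 ≤ x9 ∧ x9 ≤ (-749997 / 25000) + 5 * x0 + (-5) * x1 := by
    obtain ⟨N, M, e, ⟨⟨p0,p1⟩, a⟩, ⟨⟨m0,m1,m2⟩, b⟩⟩ := s9
    constructor
    · clear a
      rcases b with h|h|h <;> linarith
    · clear b
      rcases a with h|h <;> linarith
  clear s9
  have r9 : x9 ≤ 7 := by linarith
  clear l6 u6
  obtain ⟨l10, u10⟩ : (1199987 / 100000) + (-1) * x0 + 1 * x1 ≤ x10 ∧ x10 ≤ (1200013 / 100000) + (-1) * x0 + 1 * x1 := by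
    obtain ⟨N, M, e, ⟨⟨p0,p1⟩, a⟩, ⟨⟨m0,m1,m2⟩, b⟩⟩ := s10
    constructor
    · clear a
      rcases b with h|h|h <;> linarith
    · clear b
      rcases a with h|h <;> linarith
  clear s10
  have r10 : x10 ≤ 7 := by linarith
  clear l7 u7
  obtain ⟨l11, u11⟩ : (-200007 / 50000) + 1 * x0 + (-1) * x1 ≤ x11 ∧ x11 ≤ (-199993 / 50000) + 1 * x0 + (-1) * x1 := by
    obtain ⟨N, M, e, ⟨⟨p0,p1⟩, a⟩, ⟨⟨m0,m1,m2⟩, b⟩⟩ := s11
    constructor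
    · clear a
      rcases b with h|h|h <;> linarith
    · clear b
      rcases a with h|h <;> linarith
  clear s11
  have r11 : x11 ≤ 7 := by linarith
  clear l8 u8
  obtain ⟨l12, u12⟩ : (-500007 / 50000) + 1 * x0 + (-1) * x1 ≤ x12 ∧ x12 ≤ (-499993 / 50000) + 1 * x0 + (-1) * x1 := by
    obtain ⟨N, M, e, ⟨⟨p0,p1⟩, a⟩, ⟨⟨m0,m1,m2⟩, b⟩⟩ := s12
    constructor
    · clear a
      rcases b with h|h|h <;> linarith
    · clear b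
      rcases a with h|h <;> linarith
  clear s12
  have r12 : x12 ≤ 7 := by linarith
  clear l9 u9
  obtain ⟨l13, u13⟩ : (399993 / 25000) + (-2) * x0 + 2 * x1 ≤ x13 ∧ x13 ≤ (400007 / 25000) + (-2) * x0 + 2 * x1 := by
    obtain ⟨N, M, e, ⟨⟨p0,p1⟩, a⟩, ⟨⟨m0,m1,m2⟩, b⟩⟩ := s13
    constructor
    · clear a
      rcases b with h|h|h <;> linarith
    · clear b
      rcases a with h|h <;> linarith
  clear s13
  have r13 : x13 ≤ 7 := by linarith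
  clear l10 u10
  obtain ⟨l14, u14⟩ : (-800029 / 100000) + 2 * x0 + (-2) * x1 ≤ x14 ∧ x14 ≤ (-799971 / 100000) + 2 * x0 + (-2) * x1 := by
    obtain ⟨N, M, e, ⟨⟨p0,p1⟩, a⟩, ⟨⟨m0,m1,m2⟩, b⟩⟩ := s14
    constructor
    · clear a
      rcases b with h|h|h <;> linarith
    · clear b
      rcases a with h|h <;> linarith
  clear s14
  have r14 : x14 ≤ 7 := by linarith
  clear l11 u11
  obtain ⟨l15, u15⟩ : (-1400029 / 100000) + 2 * x0 + (-2) * x1 ≤ x15 ∧ x15 ≤ (-1399971 / 100000) + 2 * x0 + (-2) * x1 := by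
    obtain ⟨N, M, e, ⟨⟨p0,p1⟩, a⟩, ⟨⟨m0,m1,m2⟩, b⟩⟩ := s15
    constructor
    · clear a
      rcases b with h|h|h <;> linarith
    · clear b
      rcases a with h|h <;> linarith
  clear s15
  have r15 : x15 ≤ 7 := by linarith
  clear l12 u12
  obtain ⟨l16, u16⟩ : (1199971 / 50000) + (-4) * x0 + 4 * x1 ≤ x16 ∧ x16 ≤ (1200029 / 50000) + (-4) * x0 + 4 * x1 := by
    obtain ⟨N, M, e, ⟨⟨p0,p1⟩, a⟩, ⟨⟨m0,m1,m2⟩, b⟩⟩ := s16
    constructor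
    · clear a
      rcases b with h|h|h <;> linarith
    · clear b
      rcases a with h|h <;> linarith
  clear s16
  have r16 : x16 ≤ 7 := by linarith
  clear l13 u13
  obtain ⟨l17, u17⟩ : (599941 / 100000) ≤ x17 ∧ x17 ≤ (600059 / 100000) := by
    obtain ⟨N, M, e, ⟨⟨p0,p1⟩, a⟩, ⟨⟨m0,m1,m2⟩, b⟩⟩ := s17
    constructor
    · clear a
      rcases b with h|h|h <;> linarith
    · clear b
      rcases a with h|h <;> linarith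
  clear s17
  have r17 : x17 ≤ 7 := by linarith
  clear l14 u14
  obtain ⟨l18, u18⟩ : (-2200059 / 100000) + 4 * x0 + (-4) * x1 ≤ x18 ∧ x18 ≤ (-2199941 / 100000) + 4 * x0 + (-4) * x1 := by
    obtain ⟨N, M, e, ⟨⟨p0,p1⟩, a⟩, ⟨⟨m0,m1,m2⟩, b⟩⟩ := s18
    constructor
    · clear a
      rcases b with h|h|h <;> linarith
    · clear b
      rcases a with h|h <;> linarith
  clear s18
  have r18 : x18 ≤ 7 := by linarith
  clear l15 u15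
  obtain ⟨l19, u19⟩ : (-20003 / 5000) ≤ x19 ∧ x19 ≤ (-19997 / 5000) := by
    obtain ⟨N, M, e, ⟨⟨p0,p1⟩, a⟩, ⟨⟨m0,m1,m2⟩, b⟩⟩ := s19
    constructor
    · clear a
      rcases b with h|h|h <;> linarith
    · clear b
      rcases a with h|h <;> linarith
  clear s19
  have r19 : x19 ≤ 7 := by linarith
  clear l16 u16
  exact ⟨⟨by linarith, by linarith⟩, ⟨by linarith, by linarith⟩, ⟨by linarith, by linarith⟩, r3, r4, r5, r6, r7, r8, r9, r10, r11, r12, r13, r14, r15, r16, r17, r18, r19⟩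

theorem branchB {x0 x1 x2 x3 x4 x5 x6 x7 x8 x9 x10 x11 x12 x13 x14 x15 x16 x17 x18 x19 : ℝ}
    (s3 : St x2 x1 x0 x3)
    (s4 : St x3 x2 x1 x4)
    (s5 : St x4 x3 x2 x5)
    (s6 : St x5 x4 x3 x6)
    (s7 : St x6 x5 x4 x7)
    (s8 : St x7 x6 x5 x8)
    (s9 : St x8 x7 x6 x9)
    (s10 : St x9 x8 x7 x10)
    (s11 : St x10 x9 x8 x11)
    (s12 : St x11 x10 x9 x12)
    (s13 : St x12 x11 x10 x13)
    (s14 : St x13 x12 x11 x14)
    (s15 : St x14 x13 x12 x15)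
    (s16 : St x15 x14 x13 x16)
    (s17 : St x16 x15 x14 x17)
    (s18 : St x17 x16 x15 x18)
    (s19 : St x18 x17 x16 x19)
    (h1 : (5999 / 1000) ≤ x0) (h2 : x0 ≤ (6001 / 1000)) (h3 : (-4001 / 1000) ≤ x2) (h4 : x2 ≤ (-3999 / 1000))
    (h5 : (153 / 200) ≤ x1) (h6 : x1 ≤ (22 / 25)) :
    ((5999 / 1000) ≤ x17 ∧ x17 ≤ (6001 / 1000)) ∧
    ((-4001 / 1000) ≤ x19 ∧ x19 ≤ (-3999 / 1000)) ∧
    ((4199949 / 100000) + (-8) * x0 + 8 * x1 ≤ x18 ∧ x18 ≤ (4200051 / 100000) + (-8) * x0 + 8 * x1) ∧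
    x3 ≤ 7 ∧
    x4 ≤ 7 ∧
    x5 ≤ 7 ∧
    x6 ≤ 7 ∧
    x7 ≤ 7 ∧
    x8 ≤ 7 ∧
    x9 ≤ 7 ∧
    x10 ≤ 7 ∧
    x11 ≤ 7 ∧
    x12 ≤ 7 ∧
    x13 ≤ 7 ∧
    x14 ≤ 7 ∧
    x15 ≤ 7 ∧
    x16 ≤ 7 ∧
    x17 ≤ 7 ∧
    x18 ≤ 7 ∧
    x19 ≤ 7 := by
  obtain ⟨l3, u3⟩ : (-1 / 100000) + 1 * x0 + (-1) * x1 ≤ x3 ∧ x3 ≤ (1 / 100000) + 1 * x0 + (-1) * x1 := by
    obtain ⟨N, M, e, ⟨⟨p0,p1⟩, a⟩, ⟨⟨m0,m1,m2⟩, b⟩⟩ := s3
    constructor
    · clear a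
      rcases b with h|h|h <;> linarith
    · clear b
      rcases a with h|h <;> linarith
  clear s3
  have r3 : x3 ≤ 7 := by linarith
  obtain ⟨l4, u4⟩ : (399999 / 50000) + (-1) * x0 + 1 * x1 ≤ x4 ∧ x4 ≤ (400001 / 50000) + (-1) * x0 + 1 * x1 := by
    obtain ⟨N, M, e, ⟨⟨p0,p1⟩, a⟩, ⟨⟨m0,m1,m2⟩, b⟩⟩ := s4
    constructor
    · clear a
      rcases b with h|h|h <;> linarith
    · clear b
      rcases a with h|h <;> linarith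
  clear s4
  have r4 : x4 ≤ 7 := by linarith
  obtain ⟨l5, u5⟩ : (99999 / 50000) + (-1) * x0 + 1 * x1 ≤ x5 ∧ x5 ≤ (100001 / 50000) + (-1) * x0 + 1 * x1 := by
    obtain ⟨N, M, e, ⟨⟨p0,p1⟩, a⟩, ⟨⟨m0,m1,m2⟩, b⟩⟩ := s5
    constructor
    · clear a
      rcases b with h|h|h <;> linarith
    · clear b
      rcases a with h|h <;> linarith
  clear s5
  have r5 : x5 ≤ 7 := by linarith
  obtain ⟨l6, u6⟩ : (-200001 / 25000) + 2 * x0 + (-2) * x1 ≤ x6 ∧ x6 ≤ (-199999 / 25000) + 2 * x0 + (-2) * x1 := by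
    obtain ⟨N, M, e, ⟨⟨p0,p1⟩, a⟩, ⟨⟨m0,m1,m2⟩, b⟩⟩ := s6
    constructor
    · clear a
      rcases b with h|h|h <;> linarith
    · clear b
      rcases a with h|h <;> linarith
  clear s6
  have r6 : x6 ≤ 7 := by linarith
  clear l3 u3
  obtain ⟨l7, u7⟩ : (119999 / 20000) ≤ x7 ∧ x7 ≤ (120001 / 20000) := by
    obtain ⟨N, M, e, ⟨⟨p0,p1⟩, a⟩, ⟨⟨m0,m1,m2⟩, b⟩⟩ := s7
    constructor
    · clear a
      rcases b with h|h|h <;> linarith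
    · clear b
      rcases a with h|h <;> linarith
  clear s7
  have r7 : x7 ≤ 7 := by linarith
  clear l4 u4
  obtain ⟨l8, u8⟩ : (199999 / 20000) + (-2) * x0 + 2 * x1 ≤ x8 ∧ x8 ≤ (200001 / 20000) + (-2) * x0 + 2 * x1 := by
    obtain ⟨N, M, e, ⟨⟨p0,p1⟩, a⟩, ⟨⟨m0,m1,m2⟩, b⟩⟩ := s8
    constructor
    · clear a
      rcases b with h|h|h <;> linarith
    · clear b
      rcases a with h|h <;> linarith
  clear s8
  have r8 : x8 ≤ 7 := by linarith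
  clear l5 u5
  obtain ⟨l9, u9⟩ : (-140001 / 10000) + 2 * x0 + (-2) * x1 ≤ x9 ∧ x9 ≤ (-139999 / 10000) + 2 * x0 + (-2) * x1 := by
    obtain ⟨N, M, e, ⟨⟨p0,p1⟩, a⟩, ⟨⟨m0,m1,m2⟩, b⟩⟩ := s9
    constructor
    · clear a
      rcases b with h|h|h <;> linarith
    · clear b
      rcases a with h|h <;> linarith
  clear s9
  have r9 : x9 ≤ 7 := by linarith
  clear l6 u6
  obtain ⟨l10, u10⟩ : (-400011 / 100000) + 2 * x0 + (-2) * x1 ≤ x10 ∧ x10 ≤ (-399989 / 100000) + 2 * x0 + (-2) * x1 := by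
    obtain ⟨N, M, e, ⟨⟨p0,p1⟩, a⟩, ⟨⟨m0,m1,m2⟩, b⟩⟩ := s10
    constructor
    · clear a
      rcases b with h|h|h <;> linarith
    · clear b
      rcases a with h|h <;> linarith
  clear s10
  have r10 : x10 ≤ 7 := by linarith
  clear l7 u7
  obtain ⟨l11, u11⟩ : (299997 / 25000) + (-2) * x0 + 2 * x1 ≤ x11 ∧ x11 ≤ (300003 / 25000) + (-2) * x0 + 2 * x1 := by
    obtain ⟨N, M, e, ⟨⟨p0,p1⟩, a⟩, ⟨⟨m0,m1,m2⟩, b⟩⟩ := s11
    constructor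
    · clear a
      rcases b with h|h|h <;> linarith
    · clear b
      rcases a with h|h <;> linarith
  clear s11
  have r11 : x11 ≤ 7 := by linarith
  clear l8 u8
  obtain ⟨l12, u12⟩ : (149997 / 25000) + (-2) * x0 + 2 * x1 ≤ x12 ∧ x12 ≤ (150003 / 25000) + (-2) * x0 + 2 * x1 := by
    obtain ⟨N, M, e, ⟨⟨p0,p1⟩, a⟩, ⟨⟨m0,m1,m2⟩, b⟩⟩ := s12
    constructor
    · clear a
      rcases b with h|h|h <;> linarith
    · clear b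
      rcases a with h|h <;> linarith
  clear s12
  have r12 : x12 ≤ 7 := by linarith
  clear l9 u9
  obtain ⟨l13, u13⟩ : (-200003 / 12500) + 4 * x0 + (-4) * x1 ≤ x13 ∧ x13 ≤ (-199997 / 12500) + 4 * x0 + (-4) * x1 := by
    obtain ⟨N, M, e, ⟨⟨p0,p1⟩, a⟩, ⟨⟨m0,m1,m2⟩, b⟩⟩ := s13
    constructor
    · clear a
      rcases b with h|h|h <;> linarith
    · clear b
      rcases a with h|h <;> linarith
  clear s13
  have r13 : x13 ≤ 7 := by linarith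
  clear l10 u10
  obtain ⟨l14, u14⟩ : (95999 / 4000) + (-4) * x0 + 4 * x1 ≤ x14 ∧ x14 ≤ (96001 / 4000) + (-4) * x0 + 4 * x1 := by
    obtain ⟨N, M, e, ⟨⟨p0,p1⟩, a⟩, ⟨⟨m0,m1,m2⟩, b⟩⟩ := s14
    constructor
    · clear a
      rcases b with h|h|h <;> linarith
    · clear b
      rcases a with h|h <;> linarith
  clear s14
  have r14 : x14 ≤ 7 := by linarith
  clear l11 u11
  obtain ⟨l15, u15⟩ : (71999 / 4000) + (-4) * x0 + 4 * x1 ≤ x15 ∧ x15 ≤ (72001 / 4000) + (-4) * x0 + 4 * x1 := by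
    obtain ⟨N, M, e, ⟨⟨p0,p1⟩, a⟩, ⟨⟨m0,m1,m2⟩, b⟩⟩ := s15
    constructor
    · clear a
      rcases b with h|h|h <;> linarith
    · clear b
      rcases a with h|h <;> linarith
  clear s15
  have r15 : x15 ≤ 7 := by linarith
  clear l12 u12
  obtain ⟨l16, u16⟩ : (-80001 / 2000) + 8 * x0 + (-8) * x1 ≤ x16 ∧ x16 ≤ (-79999 / 2000) + 8 * x0 + (-8) * x1 := by
    obtain ⟨N, M, e, ⟨⟨p0,p1⟩, a⟩, ⟨⟨m0,m1,m2⟩, b⟩⟩ := s16
    constructor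
    · clear a
      rcases b with h|h|h <;> linarith
    · clear b
      rcases a with h|h <;> linarith
  clear s16
  have r16 : x16 ≤ 7 := by linarith
  clear l13 u13
  obtain ⟨l17, u17⟩ : (599949 / 100000) ≤ x17 ∧ x17 ≤ (600051 / 100000) := by
    obtain ⟨N, M, e, ⟨⟨p0,p1⟩, a⟩, ⟨⟨m0,m1,m2⟩, b⟩⟩ := s17
    constructor
    · clear a
      rcases b with h|h|h <;> linarith
    · clear b
      rcases a with h|h <;> linarith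
  clear s17
  have r17 : x17 ≤ 7 := by linarith
  clear l14 u14
  obtain ⟨l18, u18⟩ : (4199949 / 100000) + (-8) * x0 + 8 * x1 ≤ x18 ∧ x18 ≤ (4200051 / 100000) + (-8) * x0 + 8 * x1 := by
    obtain ⟨N, M, e, ⟨⟨p0,p1⟩, a⟩, ⟨⟨m0,m1,m2⟩, b⟩⟩ := s18
    constructor
    · clear a
      rcases b with h|h|h <;> linarith
    · clear b
      rcases a with h|h <;> linarith
  clear s18
  have r18 : x18 ≤ 7 := by linarith
  clear l15 u15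
  obtain ⟨l19, u19⟩ : (-100013 / 25000) ≤ x19 ∧ x19 ≤ (-99987 / 25000) := by
    obtain ⟨N, M, e, ⟨⟨p0,p1⟩, a⟩, ⟨⟨m0,m1,m2⟩, b⟩⟩ := s19
    constructor
    · clear a
      rcases b with h|h|h <;> linarith
    · clear b
      rcases a with h|h <;> linarith
  clear s19
  have r19 : x19 ≤ 7 := by linarith
  clear l16 u16
  exact ⟨⟨by linarith, by linarith⟩, ⟨by linarith, by linarith⟩, ⟨by linarith, by linarith⟩, r3, r4, r5, r6, r7, r8, r9, r10, r11, r12, r13, r14, r15, r16, r17, r18, r19⟩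

end Pool.Agent.X322.Hs41
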