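import Mathlib

/-!
# Beta maps, part 1: open images
-/

set_option autoImplicit false

namespace Pool.Agent.X322.Be

open Set Function

/-- parameters -/
structure Par (α β : ℝ) : Prop where
  hb : 1 < β
  ha : 0 ≤ α
  hab : α + β ≤ 2

/-- the discontinuity -/
noncomputable def cc (α β : ℝ) : ℝ := (1 - α) / β

/-- the map on the line with two affine branches -/
noncomputable def ff (α β x : ℝ) : ℝ := if x < cc α β then β * x + α else β * x + α - 1

/-- the point avoids the discontinuity up to time `n` -/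
def Clean (α β : ℝ) (n : ℕ) (x : ℝ) : Prop := ∀ i < n, (ff α β)^[i] x ≠ cc α β

/-- open image of order `n` -/
def Im (α β : ℝ) (n : ℕ) (U : Set ℝ) : Set ℝ := {y | ∃ x ∈ U, Clean α β n x ∧ (ff α β)^[n] x = y}

variable {α β : ℝ}

theorem Par.bpos (h : Par α β) : 0 < β := by linarith [h.hb]

theorem Par.mul_cc (h : Par α β) : β * cc α β = 1 - α := by
  unfold cc
  field_simp [h.bpos.ne']

theorem Par.alt (h : Par α β) : α < 1 := by linarith [h.hb, h.hab]

theorem Par.cpos (h : Par α β) : 0 < cc α β := div_pos (by linarith [h.alt]) h.bpos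

theorem Par.clt (h : Par α β) : cc α β < 1 := by
  unfold cc
  rw [div_lt_one h.bpos]
  linarith [h.hb, h.ha]

theorem ff_lt {x : ℝ} (hx : x < cc α β) : ff α β x = β * x + α := if_pos hx

theorem ff_ge {x : ℝ} (hx : cc α β ≤ x) : ff α β x = β * x + α - 1 := if_neg (not_lt.2 hx)

theorem Par.left_lt (h : Par α β) {x : ℝ} (hx : x < cc α β) : β * x + α < 1 := by
  have := mul_lt_mul_of_pos_left hx h.bpos
  rw [h.mul_cc] at this
  linarith

theorem Par.right_gt (h : Par α β) {x : ℝ} (hx : cc α β < x) : 0 < β * x + α - 1 := by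
  have := mul_lt_mul_of_pos_left hx h.bpos
  rw [h.mul_cc] at this
  linarith

theorem Par.ff_mem (h : Par α β) {x : ℝ} (hx : x ∈ Ioo (0 : ℝ) 1) (hc : x ≠ cc α β) :
    ff α β x ∈ Ioo (0 : ℝ) 1 := by
  have hb := h.bpos
  rcases lt_or_gt_of_ne hc with h1 | h1
  · rw [ff_lt h1]
    exact ⟨by nlinarith [hx.1, h.ha, mul_pos hb hx.1], h.left_lt h1⟩
  · rw [ff_ge h1.le]
    refine ⟨h.right_gt h1, ?_⟩
    have := mul_lt_mul_of_pos_left hx.2 hb
    linarith [h.hab]

theorem Par.ff_mem_Ico (h : Par α β) {x : ℝ} (hx : x ∈ Ico (0 : ℝ) 1) :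
    ff α β x ∈ Ico (0 : ℝ) 1 := by
  have hb := h.bpos
  rcases lt_or_ge x (cc α β) with h1 | h1
  · rw [ff_lt h1]
    exact ⟨by nlinarith [hx.1, h.ha, mul_nonneg hb.le hx.1], h.left_lt h1⟩
  · rw [ff_ge h1]
    refine ⟨?_, ?_⟩
    · have := mul_le_mul_of_nonneg_left h1 hb.le
      rw [h.mul_cc] at this
      linarith
    · have := mul_lt_mul_of_pos_left hx.2 hb
      linarith [h.hab]

theorem Par.fract_eq (h : Par α β) {x : ℝ} (hx : x ∈ Ico (0 : ℝ) 1) :
    Int.fract (β * x + α) = ff α β x := by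
  have hm := h.ff_mem_Ico hx
  rcases lt_or_ge x (cc α β) with h1 | h1
  · rw [ff_lt h1] at hm ⊢
    exact Int.fract_eq_self.2 hm
  · rw [ff_ge h1] at hm ⊢
    rw [← Int.fract_sub_one]
    exact Int.fract_eq_self.2 hm

theorem Im_zero (U : Set ℝ) : Im α β 0 U = U := by
  ext y
  constructor
  · rintro ⟨x, hx, _, h⟩
    have : x = y := h
    exact this ▸ hx
  · intro hy
    exact ⟨y, hy, fun i hi => absurd hi (by omega), rfl⟩

theorem Im_mono {U V : Set ℝ} (h : U ⊆ V) (n : ℕ) : Im α β n U ⊆ Im α β n V := by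
  rintro y ⟨x, hx, h1, h2⟩
  exact ⟨x, h hx, h1, h2⟩

theorem clean_add {m n : ℕ} {x : ℝ} :
    Clean α β (m + n) x ↔ Clean α β n x ∧ Clean α β m ((ff α β)^[n] x) := by
  constructor
  · intro h
    refine ⟨fun i hi => h i (by omega), fun i hi => ?_⟩
    rw [← iterate_add_apply]
    exact h (i + n) (by omega)
  · rintro ⟨h1, h2⟩ i hi
    rcases Nat.lt_or_ge i n with h3 | h3
    · exact h1 i h3
    · have h4 := h2 (i - n) (by omega)
      rwa [← iterate_add_apply, Nat.sub_add_cancel h3] at h4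

theorem Im_add (m n : ℕ) (U : Set ℝ) : Im α β (m + n) U = Im α β m (Im α β n U) := by
  ext y
  constructor
  · rintro ⟨x, hx, h1, h2⟩
    obtain ⟨h3, h4⟩ := clean_add.1 h1
    exact ⟨(ff α β)^[n] x, ⟨x, hx, h3, rfl⟩, h4, by rw [← iterate_add_apply]; exact h2⟩
  · rintro ⟨z, ⟨x, hx, h1, h2⟩, h3, h4⟩
    refine ⟨x, hx, clean_add.2 ⟨h1, by rwa [h2]⟩, ?_⟩
    rw [iterate_add_apply, h2, h4]

theorem Im_succ (n : ℕ) (U : Set ℝ) : Im α β (n + 1) U = Im α β 1 (Im α β n U) := by
  rw [add_comm, Im_add]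

theorem mem_Im_one {U : Set ℝ} {y : ℝ} :
    y ∈ Im α β 1 U ↔ ∃ x ∈ U, x ≠ cc α β ∧ ff α β x = y := by
  constructor
  · rintro ⟨x, hx, h1, h2⟩
    exact ⟨x, hx, h1 0 (by omega), h2⟩
  · rintro ⟨x, hx, h1, h2⟩
    refine ⟨x, hx, fun i hi => ?_, h2⟩
    obtain rfl : i = 0 := by omega
    exact h1

theorem Par.Im_one_sub (h : Par α β) {U : Set ℝ} (hU : U ⊆ Ioo 0 1) :
    Im α β 1 U ⊆ Ioo 0 1 := by
  intro y hy
  obtain ⟨x, hx, h1, rfl⟩ := mem_Im_one.1 hy
  exact h.ff_mem (hU hx) h1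

theorem Par.Im_sub (h : Par α β) {U : Set ℝ} (hU : U ⊆ Ioo 0 1) (n : ℕ) :
    Im α β n U ⊆ Ioo 0 1 := by
  induction n with
  | zero => rwa [Im_zero]
  | succ n ih =>
    rw [Im_succ]
    exact h.Im_one_sub ih

theorem Par.Im_one_open (h : Par α β) {U : Set ℝ} (hU : IsOpen U) : IsOpen (Im α β 1 U) := by
  have hb := h.bpos
  have he : Im α β 1 U = (fun y => (y - α) / β) ⁻¹' (U ∩ Iio (cc α β)) ∪
      (fun y => (y + 1 - α) / β) ⁻¹' (U ∩ Ioi (cc α β)) := by
    ext y
    rw [mem_Im_one]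
    constructor
    · rintro ⟨x, hx, h1, h2⟩
      rcases lt_or_gt_of_ne h1 with h3 | h3
      · left
        rw [ff_lt h3] at h2
        have : (y - α) / β = x := by
          rw [← h2]
          field_simp
          ring
        have hm : (y - α) / β ∈ U ∩ Iio (cc α β) := by
          rw [this]
          exact ⟨hx, h3⟩
        exact hm
      · right
        rw [ff_ge h3.le] at h2
        have : (y + 1 - α) / β = x := by
          rw [← h2]
          field_simp
          ring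
        have hm : (y + 1 - α) / β ∈ U ∩ Ioi (cc α β) := by
          rw [this]
          exact ⟨hx, h3⟩
        exact hm
    · rintro (⟨h1, h2⟩ | ⟨h1, h2⟩)
      · refine ⟨(y - α) / β, h1, ne_of_lt h2, ?_⟩
        rw [ff_lt h2]
        field_simp
        ring
      · refine ⟨(y + 1 - α) / β, h1, (ne_of_lt h2).symm, ?_⟩
        rw [ff_ge (le_of_lt h2)]
        field_simp
        ring
  rw [he]
  refine IsOpen.union ?_ ?_
  · exact (hU.inter isOpen_Iio).preimage (by fun_prop)
  · exact (hU.inter isOpen_Ioi).preimage (by fun_prop)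

theorem Par.Im_open (h : Par α β) {U : Set ℝ} (hU : IsOpen U) (n : ℕ) : IsOpen (Im α β n U) := by
  induction n with
  | zero => rwa [Im_zero]
  | succ n ih =>
    rw [Im_succ]
    exact h.Im_one_open ih

theorem Im_empty (n : ℕ) : Im α β n ∅ = ∅ := by
  ext y
  constructor
  · rintro ⟨x, hx, _⟩
    exact hx
  · intro h
    exact absurd h (notMem_empty y)

/-- image of an interval on the left -/
theorem Par.Im_left (h : Par α β) {a b : ℝ} (hb : b ≤ cc α β) :
    Im α β 1 (Ioo a b) = Ioo (β * a + α) (β * b + α) := by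
  have hβ := h.bpos
  ext y
  rw [mem_Im_one]
  constructor
  · rintro ⟨x, hx, h1, h2⟩
    rw [ff_lt (hx.2.trans_le hb)] at h2
    rw [← h2]
    exact ⟨by nlinarith [mul_lt_mul_of_pos_left hx.1 hβ], by
      nlinarith [mul_lt_mul_of_pos_left hx.2 hβ]⟩
  · rintro ⟨h1, h2⟩
    have h3 : a < (y - α) / β := by
      rw [lt_div_iff₀ hβ]
      linarith
    have h4 : (y - α) / β < b := by
      rw [div_lt_iff₀ hβ]
      linarith
    refine ⟨(y - α) / β, ⟨h3, h4⟩, ne_of_lt (h4.trans_le hb), ?_⟩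
    rw [ff_lt (h4.trans_le hb)]
    field_simp
    ring

/-- image of an interval on the right -/
theorem Par.Im_right (h : Par α β) {a b : ℝ} (ha : cc α β ≤ a) :
    Im α β 1 (Ioo a b) = Ioo (β * a + α - 1) (β * b + α - 1) := by
  have hβ := h.bpos
  ext y
  rw [mem_Im_one]
  constructor
  · rintro ⟨x, hx, h1, h2⟩
    rw [ff_ge (ha.trans hx.1.le)] at h2
    rw [← h2]
    exact ⟨by nlinarith [mul_lt_mul_of_pos_left hx.1 hβ], by
      nlinarith [mul_lt_mul_of_pos_left hx.2 hβ]⟩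
  · rintro ⟨h1, h2⟩
    have h3 : a < (y + 1 - α) / β := by
      rw [lt_div_iff₀ hβ]
      linarith
    have h4 : (y + 1 - α) / β < b := by
      rw [div_lt_iff₀ hβ]
      linarith
    refine ⟨(y + 1 - α) / β, ⟨h3, h4⟩, (ne_of_lt (ha.trans_lt h3)).symm, ?_⟩
    rw [ff_ge (ha.trans h3.le)]
    field_simp
    ring

theorem Par.Im_left_c (h : Par α β) (a : ℝ) :
    Im α β 1 (Ioo a (cc α β)) = Ioo (β * a + α) 1 := by
  rw [h.Im_left le_rfl, h.mul_cc]
  congr 1
  ring

theorem Par.Im_right_c (h : Par α β) (b : ℝ) :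
    Im α β 1 (Ioo (cc α β) b) = Ioo 0 (β * b + α - 1) := by
  rw [h.Im_right le_rfl, h.mul_cc]
  congr 1
  ring

/-- image of an interval around the discontinuity -/
theorem Par.Im_mid (h : Par α β) {a b : ℝ} (ha : a < cc α β) (hb : cc α β < b) :
    Im α β 1 (Ioo a b) = Ioo (β * a + α) 1 ∪ Ioo 0 (β * b + α - 1) := by
  rw [← h.Im_left_c, ← h.Im_right_c]
  ext y
  constructor
  · intro hy
    obtain ⟨x, hx, h1, h2⟩ := mem_Im_one.1 hy
    rcases lt_or_gt_of_ne h1 with h3 | h3
    · exact Or.inl (mem_Im_one.2 ⟨x, ⟨hx.1, h3⟩, h1, h2⟩)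
    · exact Or.inr (mem_Im_one.2 ⟨x, ⟨h3, hx.2⟩, h1, h2⟩)
  · rintro (hy | hy)
    · exact Im_mono (Ioo_subset_Ioo le_rfl hb.le) 1 hy
    · exact Im_mono (Ioo_subset_Ioo ha.le le_rfl) 1 hy

theorem Par.Im_one_full (h : Par α β) : Im α β 1 (Ioo 0 1) = Ioo 0 1 := by
  apply Subset.antisymm (h.Im_one_sub Subset.rfl)
  rw [h.Im_mid h.cpos h.clt]
  intro y hy
  rcases lt_or_ge y (β * 1 + α - 1) with h1 | h1
  · exact Or.inr ⟨hy.1, h1⟩
  · exact Or.inl ⟨by linarith [h.hb], hy.2⟩

theorem Par.Im_full (h : Par α β) (n : ℕ) : Im α β n (Ioo 0 1) = Ioo 0 1 := by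
  induction n with
  | zero => exact Im_zero _
  | succ n ih => rw [Im_succ, ih, h.Im_one_full]

/-- affine behaviour as long as the discontinuity is not met -/
theorem Par.chain (h : Par α β) {a b : ℝ} (n : ℕ)
    (hc : ∀ i < n, cc α β ∉ Im α β i (Ioo a b)) :
    ∃ a', ∀ x ∈ Ioo a b, Clean α β n x ∧ (ff α β)^[n] x = a' + β ^ n * (x - a) := by
  induction n with
  | zero => exact ⟨a, fun x _ => ⟨fun i hi => absurd hi (by omega), by simp⟩⟩
  | succ n ih =>
    obtain ⟨a', ha'⟩ := ih fun i hi => hc i (by omega)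
    have hβ := h.bpos
    have hpow : 0 < β ^ n := pow_pos hβ n
    have hcl : ∀ x ∈ Ioo a b, Clean α β (n + 1) x := by
      intro x hx i hi
      rcases Nat.lt_or_ge i n with h3 | h3
      · exact (ha' x hx).1 i h3
      · obtain rfl : i = n := by omega
        intro h4
        exact hc i (by omega) ⟨x, hx, (ha' x hx).1, h4⟩
    by_cases hside : ∀ x ∈ Ioo a b, (ff α β)^[n] x < cc α β
    · refine ⟨β * a' + α, fun x hx => ⟨hcl x hx, ?_⟩⟩
      rw [iterate_succ_apply', ff_lt (hside x hx), (ha' x hx).2]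
      ring
    · push Not at hside
      obtain ⟨x0, hx0, h0⟩ := hside
      have hside' : ∀ x ∈ Ioo a b, cc α β ≤ (ff α β)^[n] x := by
        intro x hx
        by_contra hlt
        push Not at hlt
        rw [(ha' x hx).2] at hlt
        rw [(ha' x0 hx0).2] at h0
        have hxx : x < x0 := by
          by_contra hge
          push Not at hge
          nlinarith
        set x1 := a + (cc α β - a') / β ^ n with hx1
        have hx1m : x < x1 ∧ x1 ≤ x0 := by
          constructor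
          · have : x - a < (cc α β - a') / β ^ n := by
              rw [lt_div_iff₀ hpow]
              linarith
            linarith
          · have : (cc α β - a') / β ^ n ≤ x0 - a := by
              rw [div_le_iff₀ hpow]
              linarith
            linarith
        have hx1' : x1 ∈ Ioo a b := ⟨hx.1.trans hx1m.1, hx1m.2.trans_lt hx0.2⟩
        apply hcl x1 hx1' n (by omega)
        rw [(ha' x1 hx1').2, hx1]
        field_simp
        ring
      refine ⟨β * a' + α - 1, fun x hx => ⟨hcl x hx, ?_⟩⟩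
      rw [iterate_succ_apply', ff_ge (hside' x hx), (ha' x hx).2]
      ring

theorem Im_of_affine {a b a' : ℝ} {n : ℕ} (hβ : 0 < β)
    (ha : ∀ x ∈ Ioo a b, Clean α β n x ∧ (ff α β)^[n] x = a' + β ^ n * (x - a)) :
    Im α β n (Ioo a b) = Ioo a' (a' + β ^ n * (b - a)) := by
  have hpow : 0 < β ^ n := pow_pos hβ n
  ext y
  constructor
  · rintro ⟨x, hx, h1, h2⟩
    rw [← h2, (ha x hx).2]
    exact ⟨by nlinarith [hx.1, mul_pos hpow (sub_pos.2 hx.1)],
      by nlinarith [mul_lt_mul_of_pos_left hx.2 hpow]⟩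
  · rintro ⟨h1, h2⟩
    have hx : a + (y - a') / β ^ n ∈ Ioo a b := by
      constructor
      · have : 0 < (y - a') / β ^ n := div_pos (by linarith) hpow
        linarith
      · have : (y - a') / β ^ n < b - a := by
          rw [div_lt_iff₀ hpow]
          linarith
        linarith
    refine ⟨_, hx, (ha _ hx).1, ?_⟩
    rw [(ha _ hx).2]
    field_simp
    ring

/-- every interval eventually meets the discontinuity -/
theorem Par.growth (h : Par α β) {a b : ℝ} (hab : a < b) (h01 : Ioo a b ⊆ Ioo 0 1) :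
    ∃ n a', (∀ i < n, cc α β ∉ Im α β i (Ioo a b)) ∧
      (∀ x ∈ Ioo a b, Clean α β n x ∧ (ff α β)^[n] x = a' + β ^ n * (x - a)) ∧
      a' < cc α β ∧ cc α β < a' + β ^ n * (b - a) := by
  have hex : ∃ n, cc α β ∈ Im α β n (Ioo a b) := by
    by_contra hcon
    push Not at hcon
    obtain ⟨n, hn⟩ := pow_unbounded_of_one_lt (1 / (b - a)) h.hb
    obtain ⟨a', ha'⟩ := h.chain (a := a) (b := b) n fun i _ => hcon i
    have h1 := Im_of_affine h.bpos ha'
    have h2 := h.Im_sub h01 n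
    rw [h1] at h2
    have h3 : 0 < β ^ n * (b - a) := mul_pos (pow_pos h.bpos n) (sub_pos.2 hab)
    have h4 := (Ioo_subset_Ioo_iff (by linarith : a' < a' + β ^ n * (b - a))).1 h2
    rw [div_lt_iff₀ (sub_pos.2 hab)] at hn
    linarith [h4.1, h4.2]
  classical
  have hmin := fun i (hi : i < Nat.find hex) => Nat.find_min hex hi
  obtain ⟨a', ha'⟩ := h.chain (a := a) (b := b) (Nat.find hex) hmin
  refine ⟨Nat.find hex, a', hmin, ha', ?_⟩
  have h1 := Nat.find_spec hex
  rw [Im_of_affine h.bpos ha'] at h1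
  exact h1

theorem Par.growth' (h : Par α β) {U : Set ℝ} (hU : IsOpen U) (hne : U.Nonempty)
    (h01 : U ⊆ Ioo 0 1) : ∃ n, cc α β ∈ Im α β n U := by
  obtain ⟨x, hx⟩ := hne
  obtain ⟨ε, hε, hball⟩ := Metric.isOpen_iff.1 hU x hx
  have hsub : Ioo (x - ε) (x + ε) ⊆ U := by
    rw [← Real.ball_eq_Ioo]
    exact hball
  obtain ⟨n, a', _, h2, h3, h4⟩ := h.growth (by linarith : x - ε < x + ε) (hsub.trans h01)
  refine ⟨n, Im_mono hsub n ?_⟩
  rw [Im_of_affine h.bpos h2]
  exact ⟨h3, h4⟩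

/-- behaviour to the right of a point -/
theorem Par.right_local (h : Par α β) (n : ℕ) (x : ℝ) :
    ∃ ε > 0, ∀ x' ∈ Ioo x (x + ε), Clean α β n x' ∧
      (ff α β)^[n] x' = (ff α β)^[n] x + β ^ n * (x' - x) := by
  have hβ := h.bpos
  induction n generalizing x with
  | zero => exact ⟨1, one_pos, fun x' _ => ⟨fun i hi => absurd hi (by omega), by simp⟩⟩
  | succ n ih =>
    obtain ⟨ε, hε, hih⟩ := ih (ff α β x)
    have hstep : ∃ ε1 > 0, ∀ x' ∈ Ioo x (x + ε1), x' ≠ cc α β ∧
        ff α β x' = ff α β x + β * (x' - x) := by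
      rcases lt_or_ge x (cc α β) with h1 | h1
      · refine ⟨cc α β - x, by linarith, fun x' hx' => ?_⟩
        have h2 : x' < cc α β := by linarith [hx'.2]
        refine ⟨h2.ne, ?_⟩
        rw [ff_lt h1, ff_lt h2]
        ring
      · refine ⟨1, one_pos, fun x' hx' => ?_⟩
        have h2 : cc α β < x' := h1.trans_lt hx'.1
        refine ⟨h2.ne', ?_⟩
        rw [ff_ge h1, ff_ge h2.le]
        ring
    obtain ⟨ε1, hε1, h1⟩ := hstep
    refine ⟨min ε1 (ε / β), lt_min hε1 (div_pos hε hβ), fun x' hx' => ?_⟩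
    have h2 := h1 x' ⟨hx'.1, hx'.2.trans_le (by linarith [min_le_left ε1 (ε / β)])⟩
    have h3 : x' - x < ε / β := by linarith [hx'.2, min_le_right ε1 (ε / β)]
    rw [lt_div_iff₀ hβ] at h3
    have h4 := hih (ff α β x') ⟨by
      rw [h2.2]
      nlinarith [mul_pos hβ (sub_pos.2 hx'.1)], by
      rw [h2.2]
      nlinarith⟩
    refine ⟨?_, ?_⟩
    · rw [clean_add (m := n) (n := 1)]
      refine ⟨fun i hi => ?_, h4.1⟩
      obtain rfl : i = 0 := by omega
      exact h2.1
    · rw [iterate_succ_apply, iterate_succ_apply, h4.2, h2.2]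
      ring

end Pool.Agent.X322.Be
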