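import Mathlib
import Pool.Agent.X322.Be1

/-!
# Beta maps, part 2: the case in which all unions of images are full
-/

set_option autoImplicit false

namespace Pool.Agent.X322.Be

open Set Function

variable {α β : ℝ}

/-- every nonempty open set reaches every point -/
def Full (α β : ℝ) : Prop :=
  ∀ U : Set ℝ, IsOpen U → U.Nonempty → U ⊆ Ioo 0 1 → ∀ z ∈ Ioo (0 : ℝ) 1, ∃ n, z ∈ Im α β n U

/-- images at times in a residue class -/
def Gc (α β : ℝ) (q : ℕ) (U : Set ℝ) (i : ZMod q) : Set ℝ :=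
  {z | ∃ n : ℕ, (n : ZMod q) = i ∧ z ∈ Im α β n U}

theorem Par.Gc_open (h : Par α β) {U : Set ℝ} (hU : IsOpen U) (q : ℕ) (i : ZMod q) :
    IsOpen (Gc α β q U i) := by
  have : Gc α β q U i = ⋃ n ∈ {n : ℕ | (n : ZMod q) = i}, Im α β n U := by
    ext z
    simp [Gc]
  rw [this]
  exact isOpen_biUnion fun n _ => h.Im_open hU n

theorem Gc_step {q : ℕ} {U : Set ℝ} {i : ZMod q} {z : ℝ} {m : ℕ} (hz : z ∈ Gc α β q U i)
    (hm : Clean α β m z) : (ff α β)^[m] z ∈ Gc α β q U (i + m) := by
  obtain ⟨n, hn, hz⟩ := hz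
  refine ⟨m + n, by push_cast; rw [hn, add_comm], ?_⟩
  rw [Im_add]
  exact ⟨z, hz, hm, rfl⟩

theorem Par.conn (h : Par α β) (hF : Full α β) {U : Set ℝ} (hU : IsOpen U) (hne : U.Nonempty)
    (h01 : U ⊆ Ioo 0 1) {q : ℕ} (hq : 1 ≤ q) {z : ℝ} (hz : z ∈ Ioo (0 : ℝ) 1) :
    ∃ k, z ∈ Im α β (q * k) U := by
  classical
  have : NeZero q := ⟨by omega⟩
  set S : ℝ → Finset (ZMod q) := fun z => Finset.univ.filter fun i => z ∈ Gc α β q U i with hS
  have hSmem : ∀ z i, i ∈ S z ↔ z ∈ Gc α β q U i := by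
    intro z i
    simp [hS]
  -- a point with the maximal number of classes
  obtain ⟨z0, hz0, hmax⟩ : ∃ z0 ∈ Ioo (0 : ℝ) 1, ∀ z ∈ Ioo (0 : ℝ) 1,
      (S z).card ≤ (S z0).card := by
    have hbd : ∀ z, (S z).card ≤ Fintype.card (ZMod q) := fun z => Finset.card_le_univ _
    have hne' : ((fun z => (S z).card) '' Ioo (0 : ℝ) 1).Nonempty :=
      ⟨_, 1 / 2, by norm_num, rfl⟩
    have hba : BddAbove ((fun z => (S z).card) '' Ioo (0 : ℝ) 1) :=
      ⟨Fintype.card (ZMod q), by rintro _ ⟨z, _, rfl⟩; exact hbd z⟩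
    obtain ⟨z0, hz0, h0⟩ := Nat.sSup_mem hne' hba
    refine ⟨z0, hz0, fun z hz => ?_⟩
    have : (S z).card ≤ sSup ((fun z => (S z).card) '' Ioo (0 : ℝ) 1) :=
      le_csSup hba ⟨z, hz, rfl⟩
    rw [← h0] at this
    exact this
  -- neighbourhoods on which the classes can only grow
  have hnb : ∀ x ∈ Ioo (0 : ℝ) 1, ∃ O : Set ℝ, IsOpen O ∧ x ∈ O ∧ O ⊆ Ioo 0 1 ∧
      ∀ y ∈ O, S x ⊆ S y := by
    intro x hx
    refine ⟨Ioo 0 1 ∩ ⋂ i ∈ S x, Gc α β q U i, ?_, ?_, inter_subset_left, ?_⟩
    · exact isOpen_Ioo.inter (isOpen_biInter_finset fun i _ => h.Gc_open hU q i)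
    · exact ⟨hx, mem_iInter₂.2 fun i hi => (hSmem x i).1 hi⟩
    · intro y hy i hi
      exact (hSmem y i).2 (mem_iInter₂.1 hy.2 i hi)
  have hcard : ∀ x ∈ Ioo (0 : ℝ) 1, (S x).card = (S z0).card := by
    intro x hx
    apply le_antisymm (hmax x hx)
    obtain ⟨O, hO, hzO, hO1, hOS⟩ := hnb z0 hz0
    obtain ⟨n, y, hy, hcl, hyx⟩ := hF O hO ⟨z0, hzO⟩ hO1 x hx
    have hsub : (S z0).image (fun i => i + (n : ZMod q)) ⊆ S x := by
      intro j hj
      obtain ⟨i, hi, rfl⟩ := Finset.mem_image.1 hj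
      rw [hSmem, ← hyx]
      exact Gc_step ((hSmem y i).1 (hOS y hy hi)) hcl
    calc (S z0).card = ((S z0).image (fun i => i + (n : ZMod q))).card :=
          (Finset.card_image_of_injective _ (add_left_injective _)).symm
      _ ≤ (S x).card := Finset.card_le_card hsub
  have hloc : ∀ x ∈ Ioo (0 : ℝ) 1, ∃ O : Set ℝ, IsOpen O ∧ x ∈ O ∧ O ⊆ Ioo 0 1 ∧
      ∀ y ∈ O, S y = S x := by
    intro x hx
    obtain ⟨O, hO, hxO, hO1, hOS⟩ := hnb x hx
    refine ⟨O, hO, hxO, hO1, fun y hy => ?_⟩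
    refine (Finset.eq_of_subset_of_card_le (hOS y hy) ?_).symm
    rw [hcard y (hO1 hy), hcard x hx]
  -- connectedness
  have hopen1 : IsOpen (Gc α β q U 0) := h.Gc_open hU q 0
  have hopen2 : IsOpen (Ioo (0 : ℝ) 1 \ Gc α β q U 0) := by
    rw [isOpen_iff_mem_nhds]
    intro x hx
    obtain ⟨O, hO, hxO, hO1, hOS⟩ := hloc x hx.1
    refine Filter.mem_of_superset (hO.mem_nhds hxO) fun y hy => ⟨hO1 hy, fun hy0 => ?_⟩
    have h1 : (0 : ZMod q) ∈ S y := (hSmem y 0).2 hy0
    rw [hOS y hy] at h1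
    exact hx.2 ((hSmem x 0).1 h1)
  have hdis : Disjoint (Gc α β q U 0) (Ioo (0 : ℝ) 1 \ Gc α β q U 0) := disjoint_sdiff_right
  have hcov : Ioo (0 : ℝ) 1 ⊆ Gc α β q U 0 ∪ (Ioo (0 : ℝ) 1 \ Gc α β q U 0) := by
    intro x hx
    by_cases h1 : x ∈ Gc α β q U 0
    · exact Or.inl h1
    · exact Or.inr ⟨hx, h1⟩
  have hall : z ∈ Gc α β q U 0 := by
    rcases isPreconnected_Ioo.subset_or_subset hopen1 hopen2 hdis hcov with h1 | h1
    · exact h1 hz
    · exfalso
      obtain ⟨x, hx⟩ := hne
      exact (h1 (h01 hx)).2 ⟨0, by simp, by rwa [Im_zero]⟩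
  obtain ⟨n, hn, hzn⟩ := hall
  obtain ⟨k, rfl⟩ := (ZMod.natCast_eq_zero_iff n q).1 hn
  exact ⟨k, hzn⟩

theorem Par.fill (h : Par α β) (hF : Full α β) {W : Set ℝ} (hW : IsOpen W) (hne : W.Nonempty)
    (h01 : W ⊆ Ioo 0 1) {q : ℕ} (hq : 1 ≤ q) (hWq : W ⊆ Im α β q W) :
    ∃ N, Im α β N W = Ioo 0 1 := by
  have hmono1 : ∀ k, Im α β (q * k) W ⊆ Im α β (q * (k + 1)) W := by
    intro k
    rw [mul_add, mul_one, Im_add]
    exact Im_mono hWq _
  have hmono : ∀ k l, k ≤ l → Im α β (q * k) W ⊆ Im α β (q * l) W := by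
    intro k l hkl
    induction l, hkl using Nat.le_induction with
    | base => exact Subset.rfl
    | succ l _ ih => exact ih.trans (hmono1 l)
  set O : ℕ → Set ℝ := fun k => Im α β (q * k + 1) W with hO
  have hOmono : ∀ k l, k ≤ l → O k ⊆ O l := by
    intro k l hkl
    simp only [hO]
    rw [Im_succ (q * k), Im_succ (q * l)]
    exact Im_mono (hmono k l hkl) 1
  have hOopen : ∀ k, IsOpen (O k) := fun k => h.Im_open hW _
  have hOcov : ∀ z ∈ Ioo (0 : ℝ) 1, ∃ k, z ∈ O k := by
    intro z hz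
    rw [← h.Im_one_full] at hz
    obtain ⟨x, hx, h1, h2⟩ := mem_Im_one.1 hz
    obtain ⟨k, hk⟩ := h.conn hF hW hne h01 hq hx
    refine ⟨k, ?_⟩
    simp only [hO]
    rw [Im_succ (q * k)]
    exact mem_Im_one.2 ⟨x, hk, h1, h2⟩
  obtain ⟨k1, hk1⟩ := h.conn hF hW hne h01 hq ⟨h.cpos, h.clt⟩
  obtain ⟨ε, hε, hball⟩ := Metric.isOpen_iff.1 (h.Im_open hW (q * k1)) _ hk1
  rw [Real.ball_eq_Ioo] at hball
  have hβ := h.bpos
  have hends : Ioo (β * (cc α β - ε) + α) 1 ∪ Ioo 0 (β * (cc α β + ε) + α - 1) ⊆ O k1 := by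
    rw [← h.Im_mid (by linarith) (by linarith)]
    simp only [hO]
    rw [Im_succ (q * k1)]
    exact Im_mono hball 1
  have e1 : β * (cc α β - ε) + α = 1 - β * ε := by
    rw [mul_sub, h.mul_cc]
    ring
  have e2 : β * (cc α β + ε) + α - 1 = β * ε := by
    rw [mul_add, h.mul_cc]
    ring
  rw [e1, e2] at hends
  have hβε : 0 < β * ε := mul_pos hβ hε
  set δ := min (β * ε / 2) (1 / 4) with hδ
  have hδ1 : 0 < δ := lt_min (by linarith) (by norm_num)
  have hδ2 : δ < β * ε := (min_le_left _ _).trans_lt (by linarith)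
  have hδ3 : δ ≤ 1 / 4 := min_le_right _ _
  have hcpt : IsCompact (Icc δ (1 - δ)) := isCompact_Icc
  obtain ⟨k2, hk2⟩ := hcpt.elim_directed_cover O hOopen (by
    intro z hz
    obtain ⟨k, hk⟩ := hOcov z ⟨by linarith [hz.1], by linarith [hz.2]⟩
    exact mem_iUnion.2 ⟨k, hk⟩) (by
    intro k l
    exact ⟨max k l, hOmono _ _ (le_max_left _ _), hOmono _ _ (le_max_right _ _)⟩)
  refine ⟨q * (max k1 k2) + 1, Subset.antisymm (h.Im_sub h01 _) ?_⟩
  intro z hz
  show z ∈ O (max k1 k2)
  rcases lt_or_ge z δ with h1 | h1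
  · exact hOmono _ _ (le_max_left _ _) (hends (Or.inr ⟨hz.1, by linarith⟩))
  · rcases lt_or_ge (1 - δ) z with h2 | h2
    · exact hOmono _ _ (le_max_left _ _) (hends (Or.inl ⟨by linarith, hz.2⟩))
    · exact hOmono _ _ (le_max_right _ _) (hk2 ⟨h1, h2⟩)

/-- a periodic point inside an affine branch gives fullness of single images -/
theorem Par.leo_of_per (h : Par α β) (hF : Full α β) {a b p : ℝ} {q : ℕ} (hq : 1 ≤ q)
    (h01 : Ioo a b ⊆ Ioo 0 1) (hp : p ∈ Ioo a b)
    (haff : ∀ x ∈ Ioo a b, Clean α β q x ∧ (ff α β)^[q] x = p + β ^ q * (x - p))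
    {U : Set ℝ} (hU : IsOpen U) (hne : U.Nonempty) (hU01 : U ⊆ Ioo 0 1) :
    ∃ N, Im α β N U = Ioo 0 1 := by
  obtain ⟨n, hn⟩ := hF U hU hne hU01 p (h01 hp)
  obtain ⟨ε, hε, hball⟩ := Metric.isOpen_iff.1 ((h.Im_open hU n).inter isOpen_Ioo) p ⟨hn, hp⟩
  rw [Real.ball_eq_Ioo] at hball
  have hβ := h.bpos
  have hpow1 : 1 ≤ β ^ q := one_le_pow₀ h.hb.le
  have hpow : 0 < β ^ q := pow_pos hβ q
  have hWq : Ioo (p - ε) (p + ε) ⊆ Im α β q (Ioo (p - ε) (p + ε)) := by
    intro y hy
    have h1 : |(y - p) / β ^ q| < ε := by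
      rw [abs_div, abs_of_pos hpow, div_lt_iff₀ hpow]
      have : |y - p| < ε := abs_lt.2 ⟨by linarith [hy.1], by linarith [hy.2]⟩
      nlinarith
    have h2 := abs_lt.1 h1
    have hx : p + (y - p) / β ^ q ∈ Ioo (p - ε) (p + ε) := ⟨by linarith, by linarith⟩
    obtain ⟨h3, h4⟩ := haff _ (hball hx).2
    refine ⟨_, hx, h3, ?_⟩
    rw [h4]
    field_simp
    ring
  have hsub1 : Ioo (p - ε) (p + ε) ⊆ Ioo 0 1 := fun x hx => h01 (hball hx).2
  obtain ⟨N, hN⟩ := h.fill hF isOpen_Ioo ⟨p, by linarith, by linarith⟩ hsub1 hq hWq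
  refine ⟨N + n, Subset.antisymm (h.Im_sub hU01 _) ?_⟩
  rw [Im_add, ← hN]
  exact Im_mono (fun x hx => (hball hx).1) N

theorem Im_iter_sub {q : ℕ} {Y : Set ℝ} (hY : Im α β q Y ⊆ Y) (k : ℕ) :
    Im α β (q * k) Y ⊆ Y := by
  induction k with
  | zero =>
    rw [mul_zero, Im_zero]
  | succ k ih =>
    rw [mul_add, mul_one, Im_add]
    exact (Im_mono hY _).trans ih

/-- the full case -/
theorem Par.case_full (h : Par α β) (hF : Full α β) :
    (α = 0 ∧ β = 2) ∨ ∀ U : Set ℝ, IsOpen U → U.Nonempty → U ⊆ Ioo 0 1 →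
      ∃ N, Im α β N U = Ioo 0 1 := by
  have hβ := h.bpos
  have hb1 := h.hb
  have ha0 := h.ha
  have hab := h.hab
  have hY01 : Ioo α (α + β - 1) ⊆ Ioo 0 1 := Ioo_subset_Ioo ha0 (by linarith)
  obtain ⟨n, s, _, haff, hs1, hs2⟩ := h.growth (by linarith : α < α + β - 1) hY01
  have hpn : 0 < β ^ n := pow_pos hβ n
  have hpn1 : 0 < β ^ (n + 1) := pow_pos hβ _
  have hpq : 1 < β ^ (n + 2) := one_lt_pow₀ h.hb (by omega)
  have hmc := h.mul_cc
  -- the cut point
  set e := α + (cc α β - s) / β ^ n with he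
  have hes : s + β ^ n * (e - α) = cc α β := by
    rw [he]
    field_simp
    ring
  have he1 : α < e := by
    have : 0 < (cc α β - s) / β ^ n := div_pos (by linarith) hpn
    linarith
  have he2 : e < α + β - 1 := by
    have : (cc α β - s) / β ^ n < β - 1 := by
      rw [div_lt_iff₀ hpn]
      have : α + β - 1 - α = β - 1 := by ring
      rw [this] at hs2
      linarith
    linarith
  -- behaviour on the right of the cut
  have hR : ∀ x ∈ Ioo α (α + β - 1), e < x → Clean α β (n + 1) x ∧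
      (ff α β)^[n + 1] x = β ^ (n + 1) * (x - e) := by
    intro x hx hex
    obtain ⟨h1, h2⟩ := haff x hx
    have h3 : cc α β < (ff α β)^[n] x := by
      rw [h2]
      nlinarith [mul_lt_mul_of_pos_left hex hpn]
    refine ⟨?_, ?_⟩
    · intro i hi
      rcases Nat.lt_or_ge i n with h4 | h4
      · exact h1 i h4
      · obtain rfl : i = n := by omega
        exact h3.ne'
    · rw [iterate_succ_apply', ff_ge h3.le, h2, pow_succ]
      have : s = cc α β - β ^ n * (e - α) := by linarith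
      rw [this]
      linear_combination hmc
  have hL : ∀ x ∈ Ioo α (α + β - 1), x < e → Clean α β (n + 1) x ∧
      (ff α β)^[n + 1] x = 1 - β ^ (n + 1) * (e - x) := by
    intro x hx hex
    obtain ⟨h1, h2⟩ := haff x hx
    have h3 : (ff α β)^[n] x < cc α β := by
      rw [h2]
      nlinarith [mul_lt_mul_of_pos_left hex hpn]
    refine ⟨?_, ?_⟩
    · intro i hi
      rcases Nat.lt_or_ge i n with h4 | h4
      · exact h1 i h4
      · obtain rfl : i = n := by omega
        exact h3.ne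
    · rw [iterate_succ_apply', ff_lt h3, h2, pow_succ]
      have : s = cc α β - β ^ n * (e - α) := by linarith
      rw [this]
      linear_combination hmc
  have hR2 : ∀ x ∈ Ioo α (α + β - 1), e < x → β ^ (n + 1) * (x - e) < cc α β →
      Clean α β (n + 2) x ∧ (ff α β)^[n + 2] x = α + β ^ (n + 2) * (x - e) := by
    intro x hx hex hlt
    obtain ⟨h1, h2⟩ := hR x hx hex
    refine ⟨?_, ?_⟩
    · intro i hi
      rcases Nat.lt_or_ge i (n + 1) with h4 | h4
      · exact h1 i h4
      · obtain rfl : i = n + 1 := by omega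
        rw [h2]
        exact hlt.ne
    · rw [iterate_succ_apply', h2, ff_lt hlt]
      ring
  have hL2 : ∀ x ∈ Ioo α (α + β - 1), x < e → cc α β < 1 - β ^ (n + 1) * (e - x) →
      Clean α β (n + 2) x ∧ (ff α β)^[n + 2] x = α + β - 1 - β ^ (n + 2) * (e - x) := by
    intro x hx hex hlt
    obtain ⟨h1, h2⟩ := hL x hx hex
    refine ⟨?_, ?_⟩
    · intro i hi
      rcases Nat.lt_or_ge i (n + 1) with h4 | h4
      · exact h1 i h4
      · obtain rfl : i = n + 1 := by omega
        rw [h2]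
        exact hlt.ne'
    · rw [iterate_succ_apply', h2, ff_ge hlt.le]
      ring
  have hq1 : 0 < β ^ (n + 2) - 1 := by linarith
  -- candidate periodic points
  set pR := (β ^ (n + 2) * e - α) / (β ^ (n + 2) - 1) with hpR
  set pL := (β ^ (n + 2) * e - (α + β - 1)) / (β ^ (n + 2) - 1) with hpL
  have hpR1 : e < pR := by
    rw [hpR, lt_div_iff₀ hq1]
    nlinarith
  have hpL1 : pL < e := by
    rw [hpL, div_lt_iff₀ hq1]
    nlinarith
  have hpReq : α + β ^ (n + 2) * (pR - e) = pR := by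
    rw [hpR]
    field_simp
    ring
  have hpLeq : α + β - 1 - β ^ (n + 2) * (e - pL) = pL := by
    rw [hpL]
    field_simp
    ring
  by_cases hcR : pR < α + β - 1 ∧ β ^ (n + 1) * (pR - e) < cc α β
  · -- periodic point on the right branch
    right
    intro U hU hne hU01
    set b := min (α + β - 1) (e + cc α β / β ^ (n + 1)) with hb
    have hbp : pR < b := by
      refine lt_min hcR.1 ?_
      have : pR - e < cc α β / β ^ (n + 1) := by
        rw [lt_div_iff₀ hpn1]
        linarith [hcR.2]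
      linarith
    refine h.leo_of_per hF (q := n + 2) (a := e) (b := b) (p := pR) (by omega) ?_
      ⟨hpR1, hbp⟩ ?_ hU hne hU01
    · exact (Ioo_subset_Ioo he1.le (min_le_left _ _)).trans hY01
    · intro x hx
      have h1 : x < α + β - 1 := hx.2.trans_le (min_le_left _ _)
      have h2 : x < e + cc α β / β ^ (n + 1) := hx.2.trans_le (min_le_right _ _)
      have h3 : β ^ (n + 1) * (x - e) < cc α β := by
        have : x - e < cc α β / β ^ (n + 1) := by linarith
        rw [lt_div_iff₀ hpn1] at this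
        linarith
      obtain ⟨h4, h5⟩ := hR2 x ⟨he1.trans hx.1, h1⟩ hx.1 h3
      refine ⟨h4, ?_⟩
      rw [h5]
      linear_combination hpReq
  by_cases hcL : α < pL ∧ cc α β < 1 - β ^ (n + 1) * (e - pL)
  · right
    intro U hU hne hU01
    set b := max α (e - (1 - cc α β) / β ^ (n + 1)) with hb
    have hbp : b < pL := by
      refine max_lt hcL.1 ?_
      have : e - pL < (1 - cc α β) / β ^ (n + 1) := by
        rw [lt_div_iff₀ hpn1]
        linarith [hcL.2]
      linarith
    refine h.leo_of_per hF (q := n + 2) (a := b) (b := e) (p := pL) (by omega) ?_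
      ⟨hbp, hpL1⟩ ?_ hU hne hU01
    · exact (Ioo_subset_Ioo (le_max_left _ _) he2.le).trans hY01
    · intro x hx
      have h1 : α < x := (le_max_left _ _).trans_lt hx.1
      have h2 : e - (1 - cc α β) / β ^ (n + 1) < x := (le_max_right _ _).trans_lt hx.1
      have h3 : cc α β < 1 - β ^ (n + 1) * (e - x) := by
        have : e - x < (1 - cc α β) / β ^ (n + 1) := by linarith
        rw [lt_div_iff₀ hpn1] at this
        linarith
      obtain ⟨h4, h5⟩ := hL2 x ⟨h1, hx.2.trans he2⟩ hx.2 h3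
      refine ⟨h4, ?_⟩
      rw [h5]
      linear_combination hpLeq
  -- the trapping case
  left
  have hpow2 : β ^ (n + 2) = β * β ^ (n + 1) := by ring
  have hRb : β ^ (n + 1) * (α + β - 1 - e) ≤ cc α β ∧
      α + β ^ (n + 2) * (α + β - 1 - e) ≤ α + β - 1 := by
    have hA : β ^ (n + 1) * (α + β - 1 - e) ≤ cc α β := by
      by_contra hlt
      push Not at hlt
      apply hcR
      have h1 : β ^ (n + 1) * (pR - e) < cc α β := by
        by_contra hge
        push Not at hge
        -- at the point where the image reaches the cut, the branch takes the value 1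
        have h2 : 1 ≤ pR := by
          have h3 : β * cc α β ≤ β * (β ^ (n + 1) * (pR - e)) :=
            mul_le_mul_of_nonneg_left hge hβ.le
          rw [hmc] at h3
          have h4 : β * (β ^ (n + 1) * (pR - e)) = β ^ (n + 2) * (pR - e) := by ring
          rw [h4] at h3
          linarith
        set d := e + cc α β / β ^ (n + 1) with hd
        have hd1 : d < α + β - 1 := by
          have : cc α β / β ^ (n + 1) < α + β - 1 - e := by
            rw [div_lt_iff₀ hpn1]
            linarith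
          linarith
        have hd2 : α + β ^ (n + 2) * (d - e) = 1 := by
          rw [hd, hpow2]
          have : β * β ^ (n + 1) * (e + cc α β / β ^ (n + 1) - e) = β * cc α β := by
            field_simp
            ring
          rw [this, hmc]
          ring
        have hd3 : d ≤ pR := by
          have : cc α β / β ^ (n + 1) ≤ pR - e := by
            rw [div_le_iff₀ hpn1]
            linarith
          linarith
        nlinarith
      refine ⟨?_, h1⟩
      have : pR - e < α + β - 1 - e := by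
        by_contra hge
        push Not at hge
        have := mul_le_mul_of_nonneg_left hge hpn1.le
        linarith
      linarith
    refine ⟨hA, ?_⟩
    by_contra hlt
    push Not at hlt
    apply hcR
    have h1 : pR < α + β - 1 := by
      by_contra hge
      push Not at hge
      nlinarith
    refine ⟨h1, ?_⟩
    have : β ^ (n + 1) * (pR - e) < β ^ (n + 1) * (α + β - 1 - e) :=
      mul_lt_mul_of_pos_left (by linarith) hpn1
    linarith
  have hLb : cc α β ≤ 1 - β ^ (n + 1) * (e - α) ∧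
      α ≤ α + β - 1 - β ^ (n + 2) * (e - α) := by
    have hA : cc α β ≤ 1 - β ^ (n + 1) * (e - α) := by
      by_contra hlt
      push Not at hlt
      apply hcL
      have h1 : cc α β < 1 - β ^ (n + 1) * (e - pL) := by
        by_contra hge
        push Not at hge
        have h2 : pL ≤ 0 := by
          have h3 : β * (1 - β ^ (n + 1) * (e - pL)) ≤ β * cc α β :=
            mul_le_mul_of_nonneg_left hge hβ.le
          rw [hmc] at h3
          have h4 : β * (1 - β ^ (n + 1) * (e - pL)) = β - β ^ (n + 2) * (e - pL) := by ring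
          rw [h4] at h3
          linarith
        set d := e - (1 - cc α β) / β ^ (n + 1) with hd
        have hd1 : α < d := by
          have : (1 - cc α β) / β ^ (n + 1) < e - α := by
            rw [div_lt_iff₀ hpn1]
            linarith
          linarith
        have hd2 : α + β - 1 - β ^ (n + 2) * (e - d) = 0 := by
          rw [hd, hpow2]
          have : β * β ^ (n + 1) * (e - (e - (1 - cc α β) / β ^ (n + 1))) = β - β * cc α β := by
            field_simp
            ring
          rw [this, hmc]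
          ring
        have hd3 : pL ≤ d := by
          have : (1 - cc α β) / β ^ (n + 1) ≤ e - pL := by
            rw [div_le_iff₀ hpn1]
            linarith
          linarith
        nlinarith
      refine ⟨?_, h1⟩
      have : e - pL < e - α := by
        by_contra hge
        push Not at hge
        have := mul_le_mul_of_nonneg_left hge hpn1.le
        linarith
      linarith
    refine ⟨hA, ?_⟩
    by_contra hlt
    push Not at hlt
    apply hcL
    have h1 : α < pL := by
      by_contra hge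
      push Not at hge
      nlinarith
    refine ⟨h1, ?_⟩
    have : β ^ (n + 1) * (e - pL) < β ^ (n + 1) * (e - α) :=
      mul_lt_mul_of_pos_left (by linarith) hpn1
    linarith
  have htrap : Im α β (n + 2) (Ioo α (α + β - 1)) ⊆ Ioo α (α + β - 1) := by
    rintro y ⟨x, hx, hcl, hxy⟩
    have hxe : x ≠ e := by
      intro h1
      apply hcl n (by omega)
      rw [(haff x hx).2, h1, hes]
    rw [← hxy]
    rcases lt_or_gt_of_ne hxe with h1 | h1
    · have h2 : cc α β < 1 - β ^ (n + 1) * (e - x) := by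
        have : β ^ (n + 1) * (e - x) < β ^ (n + 1) * (e - α) :=
          mul_lt_mul_of_pos_left (by linarith [hx.1]) hpn1
        linarith [hLb.1]
      rw [(hL2 x hx h1 h2).2]
      have h3 : β ^ (n + 2) * (e - x) < β ^ (n + 2) * (e - α) :=
        mul_lt_mul_of_pos_left (by linarith [hx.1]) (by linarith)
      have h4 : 0 < β ^ (n + 2) * (e - x) := mul_pos (by linarith) (by linarith)
      exact ⟨by linarith [hLb.2], by linarith⟩
    · have h2 : β ^ (n + 1) * (x - e) < cc α β := by
        have : β ^ (n + 1) * (x - e) < β ^ (n + 1) * (α + β - 1 - e) :=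
          mul_lt_mul_of_pos_left (by linarith [hx.2]) hpn1
        linarith [hRb.1]
      rw [(hR2 x hx h1 h2).2]
      have h3 : β ^ (n + 2) * (x - e) < β ^ (n + 2) * (α + β - 1 - e) :=
        mul_lt_mul_of_pos_left (by linarith [hx.2]) (by linarith)
      have h4 : 0 < β ^ (n + 2) * (x - e) := mul_pos (by linarith) (by linarith)
      exact ⟨by linarith, by linarith [hRb.2]⟩
  have hfull : Ioo (0 : ℝ) 1 ⊆ Ioo α (α + β - 1) := by
    intro z hz
    obtain ⟨k, hk⟩ := h.conn hF isOpen_Ioo ⟨e, he1, he2⟩ hY01 (q := n + 2) (by omega) hz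
    exact Im_iter_sub htrap k hk
  have := (Ioo_subset_Ioo_iff (by norm_num : (0 : ℝ) < 1)).1 hfull
  constructor <;> linarith [this.1, this.2]

end Pool.Agent.X322.Be
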