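import Mathlib
import Pool.Agent.X322.Be2

/-!
# Beta maps, part 3: the case of a proper invariant dense open set
-/

set_option autoImplicit false

namespace Pool.Agent.X322.Be

open Set Function

variable {α β : ℝ}

/-- transitivity, in the form used below -/
def Tr (α β : ℝ) : Prop :=
  ∀ U : Set ℝ, IsOpen U → U.Nonempty → U ⊆ Ioo 0 1 → Im α β 1 U ⊆ U →
    ∀ W : Set ℝ, IsOpen W → W.Nonempty → W ⊆ Ioo 0 1 → (U ∩ W).Nonempty

/-- two-sided affine behaviour at a point avoiding the discontinuity -/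
theorem Par.clean_local (h : Par α β) (n : ℕ) (x : ℝ) (hx : Clean α β n x) :
    ∃ ε > 0, ∀ x' ∈ Ioo (x - ε) (x + ε), Clean α β n x' ∧
      (ff α β)^[n] x' = (ff α β)^[n] x + β ^ n * (x' - x) := by
  have hβ := h.bpos
  induction n generalizing x with
  | zero => exact ⟨1, one_pos, fun x' _ => ⟨fun i hi => absurd hi (by omega), by simp⟩⟩
  | succ n ih =>
    obtain ⟨hx1, hx2⟩ := (clean_add (m := n) (n := 1)).1 hx
    have hxc : x ≠ cc α β := hx1 0 (by omega)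
    obtain ⟨ε, hε, hih⟩ := ih (ff α β x) hx2
    have hstep : ∃ ε1 > 0, ∀ x' ∈ Ioo (x - ε1) (x + ε1), x' ≠ cc α β ∧
        ff α β x' = ff α β x + β * (x' - x) := by
      rcases lt_or_gt_of_ne hxc with h1 | h1
      · refine ⟨cc α β - x, by linarith, fun x' hx' => ?_⟩
        have h2 : x' < cc α β := by linarith [hx'.2]
        refine ⟨h2.ne, ?_⟩
        rw [ff_lt h1, ff_lt h2]
        ring
      · refine ⟨x - cc α β, by linarith, fun x' hx' => ?_⟩
        have h2 : cc α β < x' := by linarith [hx'.1]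
        refine ⟨h2.ne', ?_⟩
        rw [ff_ge h1.le, ff_ge h2.le]
        ring
    obtain ⟨ε1, hε1, h1⟩ := hstep
    refine ⟨min ε1 (ε / β), lt_min hε1 (div_pos hε hβ), fun x' hx' => ?_⟩
    have h2 := h1 x' ⟨by linarith [hx'.1, min_le_left ε1 (ε / β)],
      by linarith [hx'.2, min_le_left ε1 (ε / β)]⟩
    have h3 : x' - x < ε / β := by linarith [hx'.2, min_le_right ε1 (ε / β)]
    have h3' : x - x' < ε / β := by linarith [hx'.1, min_le_right ε1 (ε / β)]
    rw [lt_div_iff₀ hβ] at h3 h3'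
    have h4 := hih (ff α β x') ⟨by
      rw [h2.2]
      nlinarith, by
      rw [h2.2]
      nlinarith⟩
    refine ⟨?_, ?_⟩
    · rw [clean_add (m := n) (n := 1)]
      refine ⟨fun i hi => ?_, h4.1⟩
      obtain rfl : i = 0 := by omega
      exact h2.1
    · rw [iterate_succ_apply, iterate_succ_apply, h4.2, h2.2]
      ring

/-- the component of a point -/
theorem exists_comp {V : Set ℝ} (hV : IsOpen V) (h01 : V ⊆ Ioo 0 1) {c : ℝ} (hc : c ∈ V) :
    ∃ u v, u < c ∧ c < v ∧ Ioo u v ⊆ V ∧ u ∉ V ∧ v ∉ V ∧ 0 ≤ u ∧ v ≤ 1 := by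
  have h0 : (0 : ℝ) ∉ V := fun h => absurd (h01 h).1 (lt_irrefl _)
  have h1 : (1 : ℝ) ∉ V := fun h => absurd (h01 h).2 (lt_irrefl _)
  have hA : IsClosed (Iic c ∩ Vᶜ) := isClosed_Iic.inter hV.isClosed_compl
  have hB : IsClosed (Ici c ∩ Vᶜ) := isClosed_Ici.inter hV.isClosed_compl
  have hA0 : (0 : ℝ) ∈ Iic c ∩ Vᶜ := ⟨(h01 hc).1.le, h0⟩
  have hB1 : (1 : ℝ) ∈ Ici c ∩ Vᶜ := ⟨(h01 hc).2.le, h1⟩
  have hAb : BddAbove (Iic c ∩ Vᶜ) := ⟨c, fun x hx => hx.1⟩
  have hBb : BddBelow (Ici c ∩ Vᶜ) := ⟨c, fun x hx => hx.1⟩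
  have hu := hA.csSup_mem ⟨0, hA0⟩ hAb
  have hv := hB.csInf_mem ⟨1, hB1⟩ hBb
  refine ⟨sSup (Iic c ∩ Vᶜ), sInf (Ici c ∩ Vᶜ), ?_, ?_, ?_, hu.2, hv.2, le_csSup hAb hA0,
    csInf_le hBb hB1⟩
  · exact lt_of_le_of_ne hu.1 fun he => hu.2 (by rw [he]; exact hc)
  · exact lt_of_le_of_ne hv.1 fun he => hv.2 (by rw [← he]; exact hc)
  · intro x hx
    by_contra hxV
    rcases le_total x c with h2 | h2
    · exact absurd (le_csSup hAb ⟨h2, hxV⟩) (not_le.2 hx.1)
    · exact absurd (csInf_le hBb ⟨h2, hxV⟩) (not_le.2 hx.2)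

/-- finite unions of open intervals -/
def FinInt (V : Set ℝ) : Prop := ∃ s : Finset (ℝ × ℝ), V = ⋃ p ∈ s, Ioo p.1 p.2

theorem finInt_Ioo (a b : ℝ) : FinInt (Ioo a b) := ⟨{(a, b)}, by simp⟩

theorem finInt_empty : FinInt ∅ := ⟨∅, by simp⟩

theorem FinInt.union {U V : Set ℝ} (hU : FinInt U) (hV : FinInt V) : FinInt (U ∪ V) := by
  classical
  obtain ⟨s, rfl⟩ := hU
  obtain ⟨t, rfl⟩ := hV
  refine ⟨s ∪ t, ?_⟩
  ext x
  simp only [mem_union, mem_iUnion, Finset.mem_union]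
  constructor
  · rintro (⟨p, hp, hx⟩ | ⟨p, hp, hx⟩)
    · exact ⟨p, Or.inl hp, hx⟩
    · exact ⟨p, Or.inr hp, hx⟩
  · rintro ⟨p, hp | hp, hx⟩
    · exact Or.inl ⟨p, hp, hx⟩
    · exact Or.inr ⟨p, hp, hx⟩

theorem finInt_upto (A : ℕ → Set ℝ) (n : ℕ) (hA : ∀ i < n, FinInt (A i)) :
    FinInt {z | ∃ i < n, z ∈ A i} := by
  induction n with
  | zero =>
    have : {z | ∃ i < 0, z ∈ A i} = (∅ : Set ℝ) := by
      ext z
      constructor
      · rintro ⟨i, hi, _⟩
        omega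
      · intro hz
        exact absurd hz (notMem_empty z)
    rw [this]
    exact finInt_empty
  | succ n ih =>
    have : {z | ∃ i < n + 1, z ∈ A i} = {z | ∃ i < n, z ∈ A i} ∪ A n := by
      ext z
      constructor
      · rintro ⟨i, hi, hz⟩
        rcases Nat.lt_or_ge i n with h1 | h1
        · exact Or.inl ⟨i, h1, hz⟩
        · obtain rfl : i = n := by omega
          exact Or.inr hz
      · rintro (⟨i, hi, hz⟩ | hz)
        · exact ⟨i, by omega, hz⟩
        · exact ⟨n, by omega, hz⟩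
    rw [this]
    exact (ih fun i hi => hA i (by omega)).union (hA n (by omega))

theorem FinInt.finite_compl {V : Set ℝ} (hV : FinInt V)
    (hd : ∀ W : Set ℝ, IsOpen W → W.Nonempty → W ⊆ Ioo 0 1 → (V ∩ W).Nonempty) :
    {x | x ∈ Ioo (0 : ℝ) 1 ∧ x ∉ V}.Finite := by
  classical
  obtain ⟨s, rfl⟩ := hV
  refine Set.Finite.subset ((s.image Prod.fst ∪ s.image Prod.snd).finite_toSet) ?_
  rintro z ⟨hz, hzV⟩
  by_contra hne
  have h1 : ∀ p ∈ s, z ∉ Icc p.1 p.2 := by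
    intro p hp hzp
    apply hzV
    refine mem_iUnion₂.2 ⟨p, hp, lt_of_le_of_ne hzp.1 ?_, lt_of_le_of_ne hzp.2 ?_⟩
    · intro he
      apply hne
      rw [Finset.mem_coe, Finset.mem_union]
      exact Or.inl (Finset.mem_image.2 ⟨p, hp, he⟩)
    · intro he
      apply hne
      rw [Finset.mem_coe, Finset.mem_union]
      exact Or.inr (Finset.mem_image.2 ⟨p, hp, he.symm⟩)
  have hcl : IsClosed (⋃ p ∈ s, Icc p.1 p.2) :=
    isClosed_biUnion_finset fun p _ => isClosed_Icc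
  obtain ⟨w, hw1, hw2⟩ := hd (Ioo 0 1 ∩ (⋃ p ∈ s, Icc p.1 p.2)ᶜ) (isOpen_Ioo.inter hcl.isOpen_compl)
    ⟨z, hz, fun hz' => by
      obtain ⟨p, hp, hzp⟩ := mem_iUnion₂.1 hz'
      exact h1 p hp hzp⟩ inter_subset_left
  obtain ⟨p, hp, hwp⟩ := mem_iUnion₂.1 hw1
  exact hw2.2 (mem_iUnion₂.2 ⟨p, hp, Ioo_subset_Icc_self hwp⟩)

/-- a finite backward invariant set is permuted and avoids the doubly covered interval -/
theorem Par.permute (h : Par α β) {B : Set ℝ} (hB : B.Finite) (hB01 : B ⊆ Ioo 0 1)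
    (hback : ∀ x ∈ Ioo (0 : ℝ) 1, x ≠ cc α β → ff α β x ∈ B → x ∈ B) :
    (∀ x ∈ B, ff α β x ∈ B) ∧ ∀ x ∈ B, ¬ (α < x ∧ x < α + β - 1) := by
  have hβ := h.bpos
  have hmc := h.mul_cc
  have hL : ∀ y ∈ B, α < y → (y - α) / β ∈ B ∧ (y - α) / β < cc α β ∧
      ff α β ((y - α) / β) = y := by
    intro y hy hay
    have h1 : (y - α) / β < cc α β := by
      unfold cc
      rw [div_lt_div_iff_of_pos_right hβ]
      linarith [(hB01 hy).2]
    have h2 : 0 < (y - α) / β := div_pos (by linarith) hβ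
    have h3 : ff α β ((y - α) / β) = y := by
      rw [ff_lt h1]
      field_simp
      ring
    exact ⟨hback _ ⟨h2, h1.trans h.clt⟩ h1.ne (by rwa [h3]), h1, h3⟩
  have hR : ∀ y ∈ B, y < α + β - 1 → (y + 1 - α) / β ∈ B ∧ cc α β < (y + 1 - α) / β ∧
      ff α β ((y + 1 - α) / β) = y := by
    intro y hy hay
    have h1 : cc α β < (y + 1 - α) / β := by
      unfold cc
      rw [div_lt_div_iff_of_pos_right hβ]
      linarith [(hB01 hy).1]
    have h2 : (y + 1 - α) / β < 1 := by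
      rw [div_lt_one hβ]
      linarith
    have h3 : ff α β ((y + 1 - α) / β) = y := by
      rw [ff_ge h1.le]
      field_simp
      ring
    exact ⟨hback _ ⟨h.cpos.trans h1, h2⟩ h1.ne' (by rwa [h3]), h1, h3⟩
  classical
  set g : ℝ → ℝ := fun y => if α < y then (y - α) / β else (y + 1 - α) / β with hg
  have hgB : ∀ y ∈ B, g y ∈ B ∧ ff α β (g y) = y := by
    intro y hy
    by_cases h1 : α < y
    · have : g y = (y - α) / β := if_pos h1
      rw [this]
      exact ⟨(hL y hy h1).1, (hL y hy h1).2.2⟩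
    · have : g y = (y + 1 - α) / β := if_neg h1
      rw [this]
      have h2 := hR y hy (by linarith [h.hb, not_lt.1 h1])
      exact ⟨h2.1, h2.2.2⟩
  have hfin : Finite B := hB
  let G : B → B := fun y => ⟨g y, (hgB y y.2).1⟩
  have hGinj : Injective G := by
    intro y z hyz
    have h1 : g y = g z := congrArg Subtype.val hyz
    apply Subtype.ext
    rw [← (hgB y y.2).2, ← (hgB z z.2).2, h1]
  have hGsurj : Surjective G := Finite.injective_iff_surjective.1 hGinj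
  have hpre : ∀ x ∈ B, ∃ y ∈ B, x = g y := by
    intro x hx
    obtain ⟨y, hy⟩ := hGsurj ⟨x, hx⟩
    exact ⟨y, y.2, (congrArg Subtype.val hy).symm⟩
  refine ⟨fun x hx => ?_, fun y hy hcon => ?_⟩
  · obtain ⟨y, hy, rfl⟩ := hpre x hx
    rw [(hgB y hy).2]
    exact hy
  · obtain ⟨h1, h2⟩ := hcon
    obtain ⟨h3, h4, h5⟩ := hR y hy h2
    obtain ⟨y', hy', he⟩ := hpre _ h3
    have h6 : y' = y := by
      rw [← (hgB y' hy').2, ← he, h5]
    rw [h6] at he
    have h7 : g y = (y - α) / β := if_pos h1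
    rw [he, h7] at h4
    exact absurd (hL y hy h1).2.1 (not_lt.2 h4.le)

end Pool.Agent.X322.Be
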