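import Mathlib
import Pool.Agent.X322.Be3

/-!
# Beta maps, part 4: the parameters of the non-full case are algebraic
-/

set_option autoImplicit false

namespace Pool.Agent.X322.Be

open Set Function

variable {α β : ℝ}

theorem comp_eq {V : Set ℝ} {a b a' b' z : ℝ} (h1 : Ioo a b ⊆ V) (ha : a ∉ V) (hb : b ∉ V)
    (h2 : Ioo a' b' ⊆ V) (ha' : a' ∉ V) (hb' : b' ∉ V) (hz : z ∈ Ioo a b) (hz' : z ∈ Ioo a' b') :
    a = a' ∧ b = b' := by
  constructor
  · apply le_antisymm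
    · by_contra hlt
      push Not at hlt
      exact ha (h2 ⟨hlt, hz.1.trans hz'.2⟩)
    · by_contra hlt
      push Not at hlt
      exact ha' (h1 ⟨hlt, hz'.1.trans hz.2⟩)
  · apply le_antisymm
    · by_contra hlt
      push Not at hlt
      exact hb' (h1 ⟨hz.1.trans hz'.2, hlt⟩)
    · by_contra hlt
      push Not at hlt
      exact hb (h2 ⟨hz'.1.trans hz.2, hlt⟩)

/-- passage to a finite union of intervals -/
theorem Par.reduce (h : Par α β) (hT : Tr α β) {V : Set ℝ} (hV : IsOpen V) (h01 : V ⊆ Ioo 0 1)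
    (hinv : Im α β 1 V ⊆ V) (hne : V.Nonempty) {z0 : ℝ} (hz0V : z0 ∉ V) :
    ∃ V' : Set ℝ, IsOpen V' ∧ V' ⊆ Ioo 0 1 ∧ Im α β 1 V' ⊆ V' ∧ cc α β ∈ V' ∧
      {x | x ∈ Ioo (0 : ℝ) 1 ∧ x ∉ V'}.Finite ∧ z0 ∉ V' := by
  have hβ := h.bpos
  have hImV : ∀ n, Im α β n V ⊆ V := by
    intro n
    induction n with
    | zero => rw [Im_zero]
    | succ n ih =>
      rw [Im_succ]
      exact (Im_mono ih 1).trans hinv
  have hcV : cc α β ∈ V := by
    obtain ⟨n, hn⟩ := h.growth' hV hne h01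
    exact hImV n hn
  obtain ⟨u, v, huc, hcv, huvV, huV, hvV, hu0, hv1⟩ := exists_comp hV h01 hcV
  have huv01 : Ioo u v ⊆ Ioo 0 1 := huvV.trans h01
  have h1 : Ioo (cc α β) v ⊆ Ioo u v := Ioo_subset_Ioo huc.le le_rfl
  have h2 : Ioo u (cc α β) ⊆ Ioo u v := Ioo_subset_Ioo le_rfl hcv.le
  obtain ⟨nA, aA, hA1, hA2, hA3, hA4⟩ := h.growth hcv (h1.trans huv01)
  obtain ⟨nB, aB, hB1, hB2, hB3, hB4⟩ := h.growth huc (h2.trans huv01)
  have hIA := Im_of_affine hβ hA2
  have hIB := Im_of_affine hβ hB2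
  have hlastA : Im α β nA (Ioo (cc α β) v) ⊆ Ioo u v := by
    have h3 : Im α β nA (Ioo (cc α β) v) ⊆ V :=
      (Im_mono (h1.trans huvV) nA).trans (hImV nA)
    rw [hIA] at h3 ⊢
    apply Ioo_subset_Ioo
    · by_contra hlt
      push Not at hlt
      exact huV (h3 ⟨hlt, huc.trans hA4⟩)
    · by_contra hlt
      push Not at hlt
      exact hvV (h3 ⟨hA3.trans hcv, hlt⟩)
  have hlastB : Im α β nB (Ioo u (cc α β)) ⊆ Ioo u v := by
    have h3 : Im α β nB (Ioo u (cc α β)) ⊆ V :=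
      (Im_mono (h2.trans huvV) nB).trans (hImV nB)
    rw [hIB] at h3 ⊢
    apply Ioo_subset_Ioo
    · by_contra hlt
      push Not at hlt
      exact huV (h3 ⟨hlt, huc.trans hB4⟩)
    · by_contra hlt
      push Not at hlt
      exact hvV (h3 ⟨hB3.trans hcv, hlt⟩)
  set A : Set ℝ := {z | ∃ i < nA, z ∈ Im α β i (Ioo (cc α β) v)} with hA
  set B : Set ℝ := {z | ∃ i < nB, z ∈ Im α β i (Ioo u (cc α β))} with hB
  have hV'V : Ioo u v ∪ A ∪ B ⊆ V := by
    rintro z ((hz | ⟨i, _, hz⟩) | ⟨i, _, hz⟩)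
    · exact huvV hz
    · exact hImV i (Im_mono (h1.trans huvV) i hz)
    · exact hImV i (Im_mono (h2.trans huvV) i hz)
  have hAo : IsOpen A := by
    have : A = ⋃ i ∈ {i | i < nA}, Im α β i (Ioo (cc α β) v) := by
      ext z
      simp [hA]
    rw [this]
    exact isOpen_biUnion fun i _ => h.Im_open isOpen_Ioo i
  have hBo : IsOpen B := by
    have : B = ⋃ i ∈ {i | i < nB}, Im α β i (Ioo u (cc α β)) := by
      ext z
      simp [hB]
    rw [this]
    exact isOpen_biUnion fun i _ => h.Im_open isOpen_Ioo i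
  have hV'o : IsOpen (Ioo u v ∪ A ∪ B) := (isOpen_Ioo.union hAo).union hBo
  have hstepA : ∀ i, i ≤ nA → Im α β i (Ioo (cc α β) v) ⊆ Ioo u v ∪ A ∪ B := by
    intro i hi z hz
    rcases Nat.lt_or_ge i nA with h3 | h3
    · exact Or.inl (Or.inr ⟨i, h3, hz⟩)
    · obtain rfl : i = nA := by omega
      exact Or.inl (Or.inl (hlastA hz))
  have hstepB : ∀ i, i ≤ nB → Im α β i (Ioo u (cc α β)) ⊆ Ioo u v ∪ A ∪ B := by
    intro i hi z hz
    rcases Nat.lt_or_ge i nB with h3 | h3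
    · exact Or.inr ⟨i, h3, hz⟩
    · obtain rfl : i = nB := by omega
      exact Or.inl (Or.inl (hlastB hz))
  have hnA : 1 ≤ nA := by
    by_contra h3
    obtain rfl : nA = 0 := by omega
    rw [Im_zero] at hIA
    have h4 : cc α β ∈ Ioo (cc α β) v := by
      rw [hIA]
      exact ⟨hA3, hA4⟩
    exact absurd h4.1 (lt_irrefl _)
  have hnB : 1 ≤ nB := by
    by_contra h3
    obtain rfl : nB = 0 := by omega
    rw [Im_zero] at hIB
    have h4 : cc α β ∈ Ioo u (cc α β) := by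
      rw [hIB]
      exact ⟨hB3, hB4⟩
    exact absurd h4.2 (lt_irrefl _)
  have hV'inv : Im α β 1 (Ioo u v ∪ A ∪ B) ⊆ Ioo u v ∪ A ∪ B := by
    intro y hy
    obtain ⟨x, hx, hxc, hxy⟩ := mem_Im_one.1 hy
    rcases hx with (hx | ⟨i, hi, hx⟩) | ⟨i, hi, hx⟩
    · rcases lt_or_gt_of_ne hxc with h3 | h3
      · exact hstepB 1 hnB (mem_Im_one.2 ⟨x, ⟨hx.1, h3⟩, hxc, hxy⟩)
      · exact hstepA 1 hnA (mem_Im_one.2 ⟨x, ⟨h3, hx.2⟩, hxc, hxy⟩)
    · apply hstepA (i + 1) (by omega)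
      rw [Im_succ]
      exact mem_Im_one.2 ⟨x, hx, hxc, hxy⟩
    · apply hstepB (i + 1) (by omega)
      rw [Im_succ]
      exact mem_Im_one.2 ⟨x, hx, hxc, hxy⟩
  have hcV' : cc α β ∈ Ioo u v ∪ A ∪ B := Or.inl (Or.inl ⟨huc, hcv⟩)
  refine ⟨Ioo u v ∪ A ∪ B, hV'o, hV'V.trans h01, hV'inv, hcV', ?_, fun hz => hz0V (hV'V hz)⟩
  refine FinInt.finite_compl ?_ (hT _ hV'o ⟨_, hcV'⟩ (hV'V.trans h01) hV'inv)
  refine ((finInt_Ioo u v).union (finInt_upto _ nA fun i hi => ?_)).union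
    (finInt_upto _ nB fun i hi => ?_)
  · obtain ⟨a', ha'⟩ := h.chain i fun j hj => hA1 j (by omega)
    rw [Im_of_affine hβ ha']
    exact finInt_Ioo _ _
  · obtain ⟨a', ha'⟩ := h.chain i fun j hj => hB1 j (by omega)
    rw [Im_of_affine hβ ha']
    exact finInt_Ioo _ _

/-- structure in the finite case -/
theorem Par.finite_case (h : Par α β) (hT : Tr α β) {V : Set ℝ} (h01 : V ⊆ Ioo 0 1)
    (hV : IsOpen V) (hinv : Im α β 1 V ⊆ V) (hcV : cc α β ∈ V)
    (hfin : {x | x ∈ Ioo (0 : ℝ) 1 ∧ x ∉ V}.Finite) {z0 : ℝ} (hz0 : z0 ∈ Ioo (0 : ℝ) 1)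
    (hz0V : z0 ∉ V) :
    ∃ N : ℕ, ∃ u v : ℝ, (ff α β)^[N] α = u ∧ v - u = β ^ N * (β - 1) ∧
      β * (β * u + α) + α - 1 = α ∧ β * (β * v + α - 1) + α = α + β - 1 := by
  have hβ := h.bpos
  have hb1 := h.hb
  have ha0 := h.ha
  have hab := h.hab
  have hImV : ∀ n, Im α β n V ⊆ V := by
    intro n
    induction n with
    | zero => rw [Im_zero]
    | succ n ih =>
      rw [Im_succ]
      exact (Im_mono ih 1).trans hinv
  set B : Set ℝ := {x | x ∈ Ioo (0 : ℝ) 1 ∧ x ∉ V} with hB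
  have hBne : B.Nonempty := ⟨z0, hz0, hz0V⟩
  have hB01 : B ⊆ Ioo 0 1 := fun x hx => hx.1
  obtain ⟨hper, hgap⟩ := h.permute hfin hB01 fun x hx hxc hfx => by
    refine ⟨hx, fun hxV => hfx.2 (hinv (mem_Im_one.2 ⟨x, hxV, hxc, rfl⟩))⟩
  have hBc : ∀ x ∈ B, x ≠ cc α β := fun x hx he => hx.2 (he ▸ hcV)
  have hiter : ∀ n, ∀ x ∈ B, (ff α β)^[n] x ∈ B := by
    intro n
    induction n with
    | zero => exact fun x hx => hx
    | succ n ih =>
      intro x hx
      rw [iterate_succ_apply']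
      exact hper _ (ih x hx)
  have hclean : ∀ n, ∀ x ∈ B, Clean α β n x := fun n x hx i _ => hBc _ (hiter i x hx)
  obtain ⟨b1, hb1B, hb1min⟩ := hfin.isCompact.exists_isLeast hBne
  obtain ⟨bm, hbmB, hbmmax⟩ := hfin.isCompact.exists_isGreatest hBne
  obtain ⟨u, v, huc, hcv, huvV, huV, hvV, hu0, hv1⟩ := exists_comp hV h01 hcV
  have hu0' : 0 < u := by
    by_contra hle
    have hu : u = 0 := le_antisymm (not_lt.1 hle) hu0
    have h1 : cc α β < b1 := by
      by_contra h2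
      push Not at h2
      exact hb1B.2 (huvV ⟨by rw [hu]; exact hb1B.1.1, h2.trans_lt hcv⟩)
    have h2 := hb1min (hper b1 hb1B)
    rw [ff_ge h1.le] at h2
    nlinarith [hb1B.1.2]
  have hv1' : v < 1 := by
    by_contra hle
    have hv : v = 1 := le_antisymm hv1 (not_lt.1 hle)
    have h1 : bm < cc α β := by
      by_contra h2
      push Not at h2
      exact hbmB.2 (huvV ⟨huc.trans_le h2, by rw [hv]; exact hbmB.1.2⟩)
    have h2 := hbmmax (hper bm hbmB)
    rw [ff_lt h1] at h2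
    nlinarith [hbmB.1.1]
  have huB : u ∈ B := ⟨⟨hu0', huc.trans h.clt⟩, huV⟩
  have hvB : v ∈ B := ⟨⟨h.cpos.trans hcv, hv1'⟩, hvV⟩
  have hb1c : b1 < cc α β := (hb1min huB).trans_lt huc
  have hbmc : cc α β < bm := hcv.trans_le (hbmmax hvB)
  -- the extreme gaps and their images
  have hgap1 : Ioo 0 b1 ⊆ V := by
    intro x hx
    by_contra hxV
    exact absurd (hb1min ⟨⟨hx.1, hx.2.trans hb1B.1.2⟩, hxV⟩) (not_le.2 hx.2)
  have hgapm : Ioo bm 1 ⊆ V := by
    intro x hx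
    by_contra hxV
    exact absurd (hbmmax ⟨⟨hbmB.1.1.trans hx.1, hx.2⟩, hxV⟩) (not_le.2 hx.1)
  set yp := β * b1 + α with hyp
  set ym := β * bm + α - 1 with hym
  have hypB : yp ∈ B := by
    have := hper b1 hb1B
    rwa [ff_lt hb1c] at this
  have hymB : ym ∈ B := by
    have := hper bm hbmB
    rwa [ff_ge hbmc.le] at this
  have hyp1 : α + β - 1 ≤ yp := by
    by_contra hlt
    push Not at hlt
    exact hgap yp hypB ⟨by rw [hyp]; nlinarith [mul_pos hβ hb1B.1.1], hlt⟩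
  have hym1 : ym ≤ α := by
    by_contra hlt
    push Not at hlt
    refine hgap ym hymB ⟨hlt, ?_⟩
    rw [hym]
    nlinarith [mul_lt_mul_of_pos_left hbmB.1.2 hβ]
  have hI1 : Ioo α yp ⊆ V := by
    have h1 := h.Im_left (a := 0) hb1c.le
    rw [mul_zero, zero_add] at h1
    rw [hyp, ← h1]
    exact (Im_mono hgap1 1).trans hinv
  have hI2 : Ioo ym (α + β - 1) ⊆ V := by
    have h1 := h.Im_right (b := 1) hbmc.le
    have h2 : β * 1 + α - 1 = α + β - 1 := by ring
    rw [h2] at h1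
    rw [hym, ← h1]
    exact (Im_mono hgapm 1).trans hinv
  have hC : Ioo ym yp ⊆ V := by
    intro x hx
    rcases lt_or_ge x (α + β - 1) with h1 | h1
    · exact hI2 ⟨hx.1, h1⟩
    · exact hI1 ⟨by linarith, hx.2⟩
  have hCC : ym < yp := by linarith
  have hC01 : Ioo ym yp ⊆ Ioo 0 1 := hC.trans h01
  -- the chain of the doubly covered gap
  obtain ⟨N, aN, hN1, hN2, hN3, hN4⟩ := h.growth hCC hC01
  have hch : ∀ i, i ≤ N → (∀ x ∈ Ioo ym yp, (ff α β)^[i] x = (ff α β)^[i] ym + β ^ i * (x - ym)) ∧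
      (ff α β)^[i] yp = (ff α β)^[i] ym + β ^ i * (yp - ym) ∧
      Im α β i (Ioo ym yp) = Ioo ((ff α β)^[i] ym) ((ff α β)^[i] yp) := by
    intro i hi
    obtain ⟨a', ha'⟩ := h.chain i fun j hj => hN1 j (by omega)
    obtain ⟨ε, hε, hε'⟩ := h.clean_local i ym (hclean i ym hymB)
    obtain ⟨δ, hδ, hδ'⟩ := h.clean_local i yp (hclean i yp hypB)
    have e1 : a' = (ff α β)^[i] ym := by
      have hm1 : 0 < min ε (yp - ym) := lt_min hε (by linarith)
      have hm2 := min_le_left ε (yp - ym)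
      have hm3 := min_le_right ε (yp - ym)
      have h3 := (ha' (ym + min ε (yp - ym) / 2) ⟨by linarith, by linarith⟩).2
      have h4 := (hε' (ym + min ε (yp - ym) / 2) ⟨by linarith, by linarith⟩).2
      rw [h4] at h3
      linarith
    have e2 : (ff α β)^[i] yp = (ff α β)^[i] ym + β ^ i * (yp - ym) := by
      have hm1 : 0 < min δ (yp - ym) := lt_min hδ (by linarith)
      have hm2 := min_le_left δ (yp - ym)
      have hm3 := min_le_right δ (yp - ym)
      have h3 := (ha' (yp - min δ (yp - ym) / 2) ⟨by linarith, by linarith⟩).2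
      have h4 := (hδ' (yp - min δ (yp - ym) / 2) ⟨by linarith, by linarith⟩).2
      rw [h4, e1] at h3
      linear_combination h3
    refine ⟨fun x hx => by rw [(ha' x hx).2, e1], e2, ?_⟩
    rw [Im_of_affine hβ ha', e1, e2]
  have hsubV : ∀ i, i ≤ N → Ioo ((ff α β)^[i] ym) ((ff α β)^[i] yp) ⊆ V := by
    intro i hi
    rw [← (hch i hi).2.2]
    exact (Im_mono hC i).trans (hImV i)
  have hImN := Im_of_affine hβ hN2
  have hcN : cc α β ∈ Ioo ((ff α β)^[N] ym) ((ff α β)^[N] yp) := by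
    rw [← (hch N le_rfl).2.2, hImN]
    exact ⟨hN3, hN4⟩
  obtain ⟨eu, ev⟩ := comp_eq (hsubV N le_rfl) (hiter N ym hymB).2 (hiter N yp hypB).2 huvV huV hvV
    hcN ⟨huc, hcv⟩
  -- images of the central gap
  have hfu : Ioo (β * u + α) 1 ⊆ V := by
    rw [← h.Im_left_c]
    exact (Im_mono ((Ioo_subset_Ioo le_rfl hcv.le).trans huvV) 1).trans hinv
  have hfv : Ioo 0 (β * v + α - 1) ⊆ V := by
    rw [← h.Im_right_c]
    exact (Im_mono ((Ioo_subset_Ioo huc.le le_rfl).trans huvV) 1).trans hinv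
  have hfuB : β * u + α ∈ B := by
    have := hper u huB
    rwa [ff_lt huc] at this
  have hfvB : β * v + α - 1 ∈ B := by
    have := hper v hvB
    rwa [ff_ge hcv.le] at this
  have hfuc : cc α β < β * u + α := by
    by_contra hle
    push Not at hle
    exact hvB.2 (hfu ⟨hle.trans_lt hcv, hv1'⟩)
  have hfvc : β * v + α - 1 < cc α β := by
    by_contra hle
    push Not at hle
    exact huB.2 (hfv ⟨hu0', huc.trans_le hle⟩)
  have hffu : Ioo (β * (β * u + α) + α - 1) (α + β - 1) ⊆ V := by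
    have h1 := h.Im_right (b := 1) hfuc.le
    have h2 : β * 1 + α - 1 = α + β - 1 := by ring
    rw [h2] at h1
    rw [← h1]
    exact (Im_mono hfu 1).trans hinv
  have hffv : Ioo α (β * (β * v + α - 1) + α) ⊆ V := by
    have h1 := h.Im_left (a := 0) hfvc.le
    rw [mul_zero, zero_add] at h1
    rw [← h1]
    exact (Im_mono hfv 1).trans hinv
  have hffuB : β * (β * u + α) + α - 1 ∈ B := by
    have := hper _ hfuB
    rwa [ff_ge hfuc.le] at this
  have hffvB : β * (β * v + α - 1) + α ∈ B := by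
    have := hper _ hfvB
    rwa [ff_lt hfvc] at this
  have hffu1 : β * (β * u + α) + α - 1 < α + β - 1 := by
    nlinarith [mul_lt_mul_of_pos_left hfuB.1.2 hβ]
  have hffv1 : α < β * (β * v + α - 1) + α := by
    nlinarith [mul_pos hβ hfvB.1.1]
  have eym : β * (β * u + α) + α - 1 = ym := by
    apply le_antisymm
    · by_contra hlt
      push Not at hlt
      exact hffuB.2 (hC ⟨hlt, by linarith⟩)
    · by_contra hlt
      push Not at hlt
      exact hymB.2 (hffu ⟨hlt, by linarith⟩)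
  have eyp : β * (β * v + α - 1) + α = yp := by
    apply le_antisymm
    · by_contra hlt
      push Not at hlt
      exact hypB.2 (hffv ⟨by linarith, hlt⟩)
    · by_contra hlt
      push Not at hlt
      exact hffvB.2 (hC ⟨by linarith, hlt⟩)
  -- the trapping region
  have hpowN : 1 < β ^ (N + 2) := one_lt_pow₀ hb1 (by omega)
  have hYC : Ioo α (α + β - 1) ⊆ Ioo ym yp := Ioo_subset_Ioo hym1 hyp1
  have htrap : Im α β (N + 2) (Ioo α (α + β - 1)) ⊆ Ioo α (α + β - 1) := by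
    rintro y ⟨x, hx, hcl, hxy⟩
    have hxC := hYC hx
    have h1 := (hch N le_rfl).1 x hxC
    have h2 := (hch N le_rfl).2.1
    rw [eu] at h1 h2
    rw [ev] at h2
    have hwc : (ff α β)^[N] x ≠ cc α β := hcl N (by omega)
    have hpow2 : β ^ (N + 2) = β * (β * β ^ N) := by ring
    rw [← hxy, iterate_succ_apply', iterate_succ_apply']
    rcases lt_or_gt_of_ne hwc with h3 | h3
    · rw [ff_lt h3]
      have h4 : β * u + α < β * (ff α β)^[N] x + α := by
        rw [h1]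
        nlinarith [mul_pos hβ (mul_pos (pow_pos hβ N) (sub_pos.2 hxC.1))]
      have h5 := h.left_lt h3
      rw [ff_ge (hfuc.trans h4).le]
      have h6 : β * (β * (ff α β)^[N] x + α) + α - 1 = ym + β ^ (N + 2) * (x - ym) := by
        rw [h1, ← eym, hpow2]
        ring
      refine ⟨?_, ?_⟩
      · rw [h6]
        have : 1 * (x - ym) < β ^ (N + 2) * (x - ym) :=
          mul_lt_mul_of_pos_right hpowN (sub_pos.2 hxC.1)
        linarith [hx.1]
      · nlinarith [mul_lt_mul_of_pos_left h5 hβ]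
    · rw [ff_ge h3.le]
      have h4 : β * (ff α β)^[N] x + α - 1 < β * v + α - 1 := by
        rw [h1, h2]
        nlinarith [mul_lt_mul_of_pos_left hxC.2 (mul_pos hβ (pow_pos hβ N))]
      have h5 := h.right_gt h3
      rw [ff_lt (h4.trans hfvc)]
      have h6 : β * (β * (ff α β)^[N] x + α - 1) + α = yp - β ^ (N + 2) * (yp - x) := by
        linear_combination β ^ 2 * h1 + eyp - β ^ 2 * h2
      refine ⟨?_, ?_⟩
      · nlinarith [mul_pos hβ h5]
      · rw [h6]
        have : 1 * (yp - x) < β ^ (N + 2) * (yp - x) :=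
          mul_lt_mul_of_pos_right hpowN (sub_pos.2 hxC.2)
        linarith [hx.2]
  set V2 : Set ℝ := {z | ∃ i < N + 2, z ∈ Im α β i (Ioo α (α + β - 1))} with hV2
  have hY01 : Ioo α (α + β - 1) ⊆ Ioo 0 1 := hYC.trans hC01
  have hV2o : IsOpen V2 := by
    have : V2 = ⋃ i ∈ {i | i < N + 2}, Im α β i (Ioo α (α + β - 1)) := by
      ext z
      simp [hV2]
    rw [this]
    exact isOpen_biUnion fun i _ => h.Im_open isOpen_Ioo i
  have hV201 : V2 ⊆ Ioo 0 1 := by
    rintro z ⟨i, _, hz⟩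
    exact h.Im_sub hY01 i hz
  have hV2inv : Im α β 1 V2 ⊆ V2 := by
    intro y hy
    obtain ⟨x, ⟨i, hi, hx⟩, hxc, hxy⟩ := mem_Im_one.1 hy
    have h1 : y ∈ Im α β (i + 1) (Ioo α (α + β - 1)) := by
      rw [Im_succ]
      exact mem_Im_one.2 ⟨x, hx, hxc, hxy⟩
    rcases Nat.lt_or_ge (i + 1) (N + 2) with h2 | h2
    · exact ⟨i + 1, h2, h1⟩
    · obtain rfl : i = N + 1 := by omega
      refine ⟨0, by omega, ?_⟩
      rw [Im_zero]
      exact htrap h1
  have hV2ne : V2.Nonempty := by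
    refine ⟨α + (β - 1) / 2, 0, by omega, ?_⟩
    rw [Im_zero]
    constructor <;> linarith
  have hmeet : ∀ z ∈ V2, z ∈ Ioo ym yp → z ∈ Ioo α (α + β - 1) := by
    rintro z ⟨i, hi, hz⟩ hzC
    rcases Nat.eq_zero_or_pos i with h1 | h1
    · rw [h1, Im_zero] at hz
      exact hz
    · exfalso
      rcases Nat.lt_or_ge i (N + 1) with h2 | h2
      · have h3 := Im_mono hYC i hz
        rw [(hch i (by omega)).2.2] at h3
        obtain ⟨e1, e2⟩ := comp_eq (hsubV i (by omega)) (hiter i ym hymB).2 (hiter i yp hypB).2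
          hC hymB.2 hypB.2 h3 hzC
        have h4 := (hch i (by omega)).2.1
        rw [e1, e2] at h4
        have h5 : 1 < β ^ i := one_lt_pow₀ hb1 (by omega)
        nlinarith
      · obtain rfl : i = N + 1 := by omega
        have h3 := Im_mono hYC (N + 1) hz
        rw [Im_succ, (hch N le_rfl).2.2, eu, ev, h.Im_mid huc hcv] at h3
        rcases h3 with h3 | h3
        · exact hypB.2 (hfu ⟨h3.1.trans hzC.2, hypB.1.2⟩)
        · exact hymB.2 (hfv ⟨hymB.1.1, hzC.1.trans h3.2⟩)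
  have e1 : ym = α := by
    by_contra hne
    have hlt : ym < α := lt_of_le_of_ne hym1 hne
    obtain ⟨z, hz1, hz2⟩ := hT V2 hV2o hV2ne hV201 hV2inv (Ioo ym α) isOpen_Ioo
      (nonempty_Ioo.2 hlt) (fun x hx => hC01 ⟨hx.1, by linarith [hx.2]⟩)
    have := hmeet z hz1 ⟨hz2.1, by linarith [hz2.2]⟩
    linarith [this.1, hz2.2]
  have e2 : yp = α + β - 1 := by
    by_contra hne
    have hlt : α + β - 1 < yp := lt_of_le_of_ne hyp1 (Ne.symm hne)
    obtain ⟨z, hz1, hz2⟩ := hT V2 hV2o hV2ne hV201 hV2inv (Ioo (α + β - 1) yp) isOpen_Ioo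
      (nonempty_Ioo.2 hlt) (fun x hx => hC01 ⟨by linarith [hx.1], hx.2⟩)
    have := hmeet z hz1 ⟨by linarith [hz2.1], hz2.2⟩
    linarith [this.2, hz2.1]
  refine ⟨N, u, v, ?_, ?_, ?_, ?_⟩
  · rw [e1] at eu
    exact eu
  · have h2 := (hch N le_rfl).2.1
    rw [eu, ev, e1, e2] at h2
    linear_combination h2
  · rw [eym, e1]
  · rw [eyp, e2]

end Pool.Agent.X322.Be
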