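import Mathlib
import Pool.Agent.X322.Be4

/-!
# Beta maps, part 5: conclusion
-/

set_option autoImplicit false

namespace Pool.Agent.X322.Be

open Set Function

variable {α β : ℝ}

theorem affine_orbit (hβ : IsAlgebraic ℚ β) (hβ0 : 0 < β) (n : ℕ) :
    ∃ A C : ℝ, A ∈ algebraicClosure ℚ ℝ ∧ C ∈ algebraicClosure ℚ ℝ ∧ 0 ≤ A ∧
      (ff α β)^[n] α = A * α + C := by
  have hβK : β ∈ algebraicClosure ℚ ℝ := mem_algebraicClosure_iff.2 hβ
  induction n with
  | zero => exact ⟨1, 0, one_mem _, zero_mem _, zero_le_one, by simp⟩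
  | succ n ih =>
    obtain ⟨A, C, hA, hC, hA0, h⟩ := ih
    rw [iterate_succ_apply', h]
    rcases lt_or_ge (A * α + C) (cc α β) with h1 | h1
    · rw [ff_lt h1]
      refine ⟨β * A + 1, β * C, add_mem (mul_mem hβK hA) (one_mem _), mul_mem hβK hC,
        by positivity, by ring⟩
    · rw [ff_ge h1]
      refine ⟨β * A + 1, β * C - 1, add_mem (mul_mem hβK hA) (one_mem _),
        sub_mem (mul_mem hβK hC) (one_mem _), by positivity, by ring⟩

/-- the main dichotomy -/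
theorem Par.main (h : Par α β) (hT : Tr α β) :
    ((∃ d, 1 ≤ d ∧ β ^ d = 2) ∧ IsAlgebraic ℚ α ∧ IsAlgebraic ℚ β) ∨
      ∀ U : Set ℝ, IsOpen U → U.Nonempty → U ⊆ Ioo 0 1 → ∃ N, Im α β N U = Ioo 0 1 := by
  have hβ := h.bpos
  have h2 : IsAlgebraic ℚ (2 : ℝ) := by
    have := isAlgebraic_natCast (R := ℚ) (A := ℝ) 2
    simpa using this
  by_cases hF : Full α β
  · rcases h.case_full hF with ⟨h0, h1⟩ | h1
    · left
      refine ⟨⟨1, le_rfl, by rw [h1, pow_one]⟩, ?_, ?_⟩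
      · rw [h0]
        exact isAlgebraic_zero
      · rw [h1]
        exact h2
    · exact Or.inr h1
  · left
    unfold Full at hF
    push Not at hF
    obtain ⟨U, hU, hne, h01, z0, hz0, hz⟩ := hF
    set V : Set ℝ := {z | ∃ n, z ∈ Im α β n U} with hV
    have hVo : IsOpen V := by
      have : V = ⋃ n, Im α β n U := by
        ext z
        simp [hV]
      rw [this]
      exact isOpen_iUnion fun n => h.Im_open hU n
    have hV01 : V ⊆ Ioo 0 1 := by
      rintro z ⟨n, hn⟩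
      exact h.Im_sub h01 n hn
    have hVinv : Im α β 1 V ⊆ V := by
      intro y hy
      obtain ⟨x, ⟨n, hn⟩, hxc, hxy⟩ := mem_Im_one.1 hy
      refine ⟨n + 1, ?_⟩
      rw [Im_succ]
      exact mem_Im_one.2 ⟨x, hn, hxc, hxy⟩
    have hVne : V.Nonempty := by
      obtain ⟨x, hx⟩ := hne
      exact ⟨x, 0, by rwa [Im_zero]⟩
    have hz0V : z0 ∉ V := by
      rintro ⟨n, hn⟩
      exact hz n hn
    obtain ⟨V', h1, h3, h4, h5, h6, h7⟩ := h.reduce hT hVo hV01 hVinv hVne hz0V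
    obtain ⟨N, u, v, e1, e2, e3, e4⟩ := h.finite_case hT h3 h1 h4 h5 h6 hz0 h7
    have hb1 := h.hb
    have hpow : β ^ (N + 2) = 2 := by
      have e5 : β ^ 2 * (v - u) = 2 * (β - 1) := by linear_combination e4 - e3
      rw [e2] at e5
      have e6 : (β ^ (N + 2) - 2) * (β - 1) = 0 := by linear_combination e5
      rcases mul_eq_zero.1 e6 with h8 | h8
      · linarith
      · linarith
    have hβalg : IsAlgebraic ℚ β := IsAlgebraic.of_pow (n := N + 2) (by omega) (by rw [hpow]; exact h2)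
    refine ⟨⟨N + 2, by omega, hpow⟩, ?_, hβalg⟩
    obtain ⟨A, C, hA, hC, hA0, hAC⟩ := affine_orbit (α := α) hβalg hβ N
    rw [e1] at hAC
    have hβK : β ∈ algebraicClosure ℚ ℝ := mem_algebraicClosure_iff.2 hβalg
    have hpos : 0 < β ^ 2 * A + β := by positivity
    have e7 : α * (β ^ 2 * A + β) = 1 - β ^ 2 * C := by
      rw [hAC] at e3
      linear_combination e3
    have e8 : α = (1 - β ^ 2 * C) / (β ^ 2 * A + β) := by
      rw [eq_div_iff hpos.ne']
      exact e7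
    rw [← mem_algebraicClosure_iff, e8]
    exact div_mem (sub_mem (one_mem _) (mul_mem (pow_mem hβK 2) hC))
      (add_mem (mul_mem (pow_mem hβK 2) hA) hβK)

/-- images of open sets under the map reach every open set -/
theorem Par.tr_of (h : Par α β)
    (hT : ∀ U W : Set ℝ, IsOpen U → IsOpen W → U.Nonempty → W.Nonempty → U ⊆ Ioo 0 1 →
      W ⊆ Ioo 0 1 → ∃ n, ∃ x ∈ U, (ff α β)^[n] x ∈ W) : Tr α β := by
  intro U hU hne h01 hinv W hW hWne hW01
  have hβ := h.bpos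
  obtain ⟨n, x, hx, hy⟩ := hT U W hU hW hne hWne h01 hW01
  have hImU : ∀ n, Im α β n U ⊆ U := by
    intro n
    induction n with
    | zero => rw [Im_zero]
    | succ n ih =>
      rw [Im_succ]
      exact (Im_mono ih 1).trans hinv
  obtain ⟨ε, hε, h1⟩ := h.right_local n x
  obtain ⟨ε2, hε2, h2⟩ := Metric.isOpen_iff.1 hU x hx
  obtain ⟨ε3, hε3, h3⟩ := Metric.isOpen_iff.1 hW _ hy
  rw [Real.ball_eq_Ioo] at h2 h3
  have hpow : 0 < β ^ n := pow_pos hβ n
  set δ := min ε (min ε2 (ε3 / β ^ n)) / 2 with hδ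
  have hm : 0 < min ε (min ε2 (ε3 / β ^ n)) := lt_min hε (lt_min hε2 (div_pos hε3 hpow))
  have hm1 : min ε (min ε2 (ε3 / β ^ n)) ≤ ε := min_le_left _ _
  have hm2 : min ε (min ε2 (ε3 / β ^ n)) ≤ ε2 := (min_le_right _ _).trans (min_le_left _ _)
  have hm3 : min ε (min ε2 (ε3 / β ^ n)) ≤ ε3 / β ^ n :=
    (min_le_right _ _).trans (min_le_right _ _)
  have hδ0 : 0 < δ := by linarith
  have hδ3 : δ * β ^ n < ε3 := by
    rw [← lt_div_iff₀ hpow]
    linarith
  obtain ⟨h4, h5⟩ := h1 (x + δ) ⟨by linarith, by linarith⟩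
  refine ⟨(ff α β)^[n] (x + δ), hImU n ⟨x + δ, h2 ⟨by linarith, by linarith⟩, h4, rfl⟩, h3 ?_⟩
  rw [h5]
  have : β ^ n * (x + δ - x) = δ * β ^ n := by ring
  rw [this]
  have : 0 < δ * β ^ n := mul_pos hδ0 hpow
  constructor <;> linarith

end Pool.Agent.X322.Be
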