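import Mathlib

/-!
# Greedy planar walk, part 1: the rotation with `cos φ = -2/3`
-/

set_option autoImplicit false

open Complex

namespace Pool.Agent.X322.Gw

/-- the angle -/
noncomputable def phi : ℝ := Real.arccos (-2 / 3)

theorem cos_phi : Real.cos phi = -2 / 3 := Real.cos_arccos (by norm_num) (by norm_num)

theorem sin_phi : Real.sin phi = √5 / 3 := by
  unfold phi
  rw [Real.sin_arccos]
  have h : (1 - (-2 / 3 : ℝ) ^ 2) = 5 / 3 ^ 2 := by norm_num
  rw [h, Real.sqrt_div (by norm_num), Real.sqrt_sq (by norm_num)]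

theorem phi_pos : 0 < phi := by
  unfold phi
  exact Real.arccos_pos.2 (by norm_num)

/-- the rotation number -/
noncomputable def alpha : ℝ := phi / (2 * Real.pi)

theorem alpha_pos : 0 < alpha := by
  unfold alpha
  have := phi_pos
  have := Real.pi_pos
  positivity

theorem two_pi_alpha : 2 * Real.pi * alpha = phi := by
  unfold alpha
  have := Real.pi_pos
  field_simp

theorem alpha_irr : Irrational alpha := by
  rintro ⟨q, hq⟩
  have h1 : ∃ r : ℚ, phi = r * Real.pi := by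
    refine ⟨2 * q, ?_⟩
    rw [← two_pi_alpha, ← hq]
    push_cast
    ring
  have h2 := niven h1 ⟨-2 / 3, by rw [cos_phi]; push_cast; ring⟩
  rw [cos_phi] at h2
  simp only [Set.mem_insert_iff, Set.mem_singleton_iff] at h2
  rcases h2 with h | h | h | h | h <;> norm_num at h

/-- inverse rotation -/
noncomputable def ri : ℂ := exp (phi * I)
/-- rotation -/
noncomputable def rho : ℂ := exp (-(phi * I))

theorem rho_mul_ri : rho * ri = 1 := by
  unfold rho ri
  rw [← exp_add]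
  simp

theorem ri_mul_rho : ri * rho = 1 := by rw [mul_comm]; exact rho_mul_ri

theorem rho_ne : rho ≠ 0 := exp_ne_zero _
theorem ri_ne : ri ≠ 0 := exp_ne_zero _

theorem norm_ri : ‖ri‖ = 1 := by
  unfold ri
  exact Complex.norm_exp_ofReal_mul_I phi

theorem norm_rho : ‖rho‖ = 1 := by
  have h := congrArg norm rho_mul_ri
  rw [norm_mul, norm_ri, mul_one, norm_one] at h
  exact h

theorem ri_eq : ri = ((-2 / 3 : ℝ) : ℂ) + ((√5 / 3 : ℝ) : ℂ) * I := by
  unfold ri
  rw [Complex.exp_mul_I, ← Complex.ofReal_cos, ← Complex.ofReal_sin, cos_phi, sin_phi]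

theorem rho_eq : rho = ((-2 / 3 : ℝ) : ℂ) - ((√5 / 3 : ℝ) : ℂ) * I := by
  unfold rho
  have : -((phi : ℂ) * I) = ((-phi : ℝ) : ℂ) * I := by push_cast; ring
  rw [this, Complex.exp_mul_I, ← Complex.ofReal_cos, ← Complex.ofReal_sin, Real.cos_neg,
    Real.sin_neg, cos_phi, sin_phi]
  push_cast
  ring

theorem rho_re : rho.re = -2 / 3 := by
  rw [rho_eq]; simp
theorem rho_im : rho.im = -(√5 / 3) := by
  rw [rho_eq]; simp
theorem ri_re : ri.re = -2 / 3 := by
  rw [ri_eq]; simp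
theorem ri_im : ri.im = √5 / 3 := by
  rw [ri_eq]; simp

theorem key : (3 / 2 : ℂ) * rho ^ 2 + 2 * rho + 2 = 1 / 2 := by
  have h5 : (√5 : ℝ) * √5 = 5 := Real.mul_self_sqrt (by norm_num)
  apply Complex.ext
  · have : ((3 / 2 : ℂ) * rho ^ 2 + 2 * rho + 2).re =
        3 / 2 * (rho.re * rho.re - rho.im * rho.im) + 2 * rho.re + 2 := by
      simp [pow_two, Complex.mul_re]
    rw [this, rho_re, rho_im]
    norm_num
    nlinarith
  · have : ((3 / 2 : ℂ) * rho ^ 2 + 2 * rho + 2).im =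
        3 / 2 * (rho.re * rho.im + rho.im * rho.re) + 2 * rho.im := by
      simp [pow_two, Complex.mul_im]
    rw [this, rho_re, rho_im]
    norm_num
    ring

theorem ri_pow (n : ℕ) : ri ^ n = exp ((n * phi : ℝ) * I) := by
  unfold ri
  rw [← Complex.exp_nat_mul]
  congr 1
  push_cast
  ring

theorem ri_pow_ne_one (n : ℕ) (hn : 0 < n) : ri ^ n ≠ 1 := by
  rw [ri_pow]
  intro h
  rw [Complex.exp_eq_one_iff] at h
  obtain ⟨m, hm⟩ := h
  have h1 : ((n * phi : ℝ) : ℂ) * I = ((m * (2 * Real.pi) : ℝ) : ℂ) * I := by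
    rw [hm]; push_cast; ring
  have h2 : ((n * phi : ℝ) : ℂ) = ((m * (2 * Real.pi) : ℝ) : ℂ) := mul_right_cancel₀ I_ne_zero h1
  have h3 : (n * phi : ℝ) = m * (2 * Real.pi) := by exact_mod_cast h2
  apply alpha_irr
  refine ⟨(m : ℚ) / n, ?_⟩
  have hn' : (n : ℝ) ≠ 0 := by positivity
  have hpi := Real.pi_pos
  rw [← two_pi_alpha] at h3
  push_cast
  rw [div_eq_iff hn']
  have : 2 * Real.pi * (alpha * n) = 2 * Real.pi * m := by linarith
  exact (mul_left_cancel₀ (by positivity) this).symm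

/-- small nonzero rotations -/
theorem small_rot (ε : ℝ) (hε : 0 < ε) :
    ∃ k : ℕ, 0 < k ∧ ∃ θ : ℝ, θ ≠ 0 ∧ |θ| < ε ∧ ri ^ k = exp (θ * I) := by
  have hpi := Real.pi_pos
  obtain ⟨n, hn⟩ := exists_nat_gt (2 * Real.pi / ε)
  have hn0 : 0 < n := by
    rcases Nat.eq_zero_or_pos n with h | h
    · rw [h] at hn
      have : 0 < 2 * Real.pi / ε := by positivity
      simp at hn
      linarith
    · exact h
  obtain ⟨j, k, hk, hkn, hjk⟩ := Real.exists_int_int_abs_mul_sub_le alpha hn0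
  refine ⟨k.toNat, by omega, 2 * Real.pi * (alpha * k - j), ?_, ?_, ?_⟩
  · intro h
    have h1 : alpha * k - j = 0 := by
      rcases mul_eq_zero.1 h with h | h
      · linarith
      · exact h
    apply alpha_irr
    refine ⟨(j : ℚ) / k, ?_⟩
    have hk' : (k : ℝ) ≠ 0 := by exact_mod_cast hk.ne'
    push_cast
    rw [div_eq_iff hk']
    linarith
  · have h1 : |alpha * k - j| ≤ 1 / (n + 1) := by rw [mul_comm alpha]; exact hjk
    rw [abs_mul, abs_of_pos (by positivity : (0 : ℝ) < 2 * Real.pi)]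
    have h2 : 2 * Real.pi * |alpha * k - j| ≤ 2 * Real.pi * (1 / (n + 1)) := by gcongr
    have h3 : 2 * Real.pi * (1 / ((n : ℝ) + 1)) < ε := by
      rw [mul_one_div, div_lt_iff₀ (by positivity)]
      rw [div_lt_iff₀ hε] at hn
      nlinarith
    linarith
  · rw [ri_pow, Complex.exp_eq_exp_iff_exists_int]
    refine ⟨j, ?_⟩
    have h1 : ((k.toNat : ℕ) : ℝ) = (k : ℝ) := by
      have : ((k.toNat : ℕ) : ℤ) = k := Int.toNat_of_nonneg hk.le
      exact_mod_cast congrArg (fun z : ℤ => (z : ℝ)) this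
    rw [h1, ← two_pi_alpha]
    push_cast
    ring

/-- powers approaching `-1` from the negative side -/
theorem left_rot (ε : ℝ) (hε : 0 < ε) :
    ∃ n : ℕ, 0 < n ∧ ∃ τ : ℝ, τ < 0 ∧ -ε < τ ∧ ri ^ n = -exp (τ * I) := by
  have hpi := Real.pi_pos
  have hpi3 := Real.pi_gt_three
  obtain ⟨k, hk, θ, hθ0, hθ, hk2⟩ := small_rot (min ε 1) (by positivity)
  have hθε : |θ| < ε := lt_of_lt_of_le hθ (min_le_left _ _)
  have hθ1 : |θ| < 1 := lt_of_lt_of_le hθ (min_le_right _ _)
  have hpos : 0 < |θ| := abs_pos.2 hθ0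
  have hfl : (⌊Real.pi / |θ|⌋₊ : ℝ) ≤ Real.pi / |θ| := Nat.floor_le (by positivity)
  have hfl2 : Real.pi / |θ| < ⌊Real.pi / |θ|⌋₊ + 1 := Nat.lt_floor_add_one _
  rw [le_div_iff₀ hpos] at hfl
  rw [div_lt_iff₀ hpos] at hfl2
  have hfl1 : 1 ≤ ⌊Real.pi / |θ|⌋₊ := by
    apply Nat.le_floor
    rw [le_div_iff₀ hpos]
    push_cast
    linarith
  set t : ℕ := ⌊Real.pi / |θ|⌋₊ with ht
  rcases lt_or_gt_of_ne hθ0 with hneg | hp
  · -- θ < 0
    rw [abs_of_neg hneg] at *
    refine ⟨k * (t + 1), by positivity, (t + 1) * θ + Real.pi, by linarith, by linarith, ?_⟩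
    rw [pow_mul, hk2, ← Complex.exp_nat_mul]
    have : ((((t : ℝ) + 1) * θ + Real.pi : ℝ) : ℂ) * I = ((t + 1 : ℕ) : ℂ) * (θ * I) + Real.pi * I := by
      push_cast
      ring
    rw [this, Complex.exp_add, Complex.exp_pi_mul_I]
    ring
  · rw [abs_of_pos hp] at *
    have hne : (t : ℝ) * θ ≠ Real.pi := by
      intro h
      have h1 : ri ^ (k * t) = -1 := by
        rw [pow_mul, hk2, ← Complex.exp_nat_mul, ← Complex.exp_pi_mul_I]
        congr 1
        rw [← h]
        push_cast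
        ring
      apply ri_pow_ne_one (k * t * 2) (by positivity)
      rw [pow_mul, h1]
      norm_num
    refine ⟨k * t, by positivity, t * θ - Real.pi, ?_, by linarith, ?_⟩
    · rcases lt_or_eq_of_le hfl with h | h
      · linarith
      · exact absurd h hne
    · rw [pow_mul, hk2, ← Complex.exp_nat_mul]
      have : (((t : ℝ) * θ - Real.pi : ℝ) : ℂ) * I = (t : ℂ) * (θ * I) - Real.pi * I := by
        push_cast
        ring
      rw [this, Complex.exp_sub, Complex.exp_pi_mul_I]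
      ring

end Pool.Agent.X322.Gw
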