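import Mathlib
import Pool.Agent.X322.Gw1

/-!
# Greedy planar walk, part 2: the piecewise rotation and preimages of the tangency point
-/

set_option autoImplicit false

open Complex

namespace Pool.Agent.X322.Gw

/-- the piecewise rotation -/
noncomputable def F (d : ℂ) : ℂ := if -1 / 2 < d.re then rho * d else rho * (d + 2)

/-- the coding of a point -/
noncomputable def cod (d : ℂ) (n : ℕ) : Bool := decide (-1 / 2 < (F^[n] d).re)

/-- affine branches along a symbol sequence -/
noncomputable def A (s : ℕ → Bool) : ℕ → ℂ → ℂ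
  | 0, d => d
  | n + 1, d => if s n then rho * A s n d else rho * (A s n d + 2)

theorem A_add (s : ℕ → Bool) (n : ℕ) (d w : ℂ) : A s n (d + w) = A s n d + rho ^ n * w := by
  induction n with
  | zero => simp [A]
  | succ n ih =>
    simp only [A, ih]
    split_ifs <;> ring

theorem A_congr {s t : ℕ → Bool} {n : ℕ} (h : ∀ i < n, s i = t i) (d : ℂ) : A s n d = A t n d := by
  induction n with
  | zero => rfl
  | succ n ih =>
    simp only [A, ih (fun i hi => h i (by omega)), h n (by omega)]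

theorem A_cont (s : ℕ → Bool) (n : ℕ) : Continuous (A s n) := by
  have : A s n = fun d => A s n 0 + rho ^ n * d := by
    funext d
    rw [← A_add, zero_add]
  rw [this]
  fun_prop

theorem A_cod (d : ℂ) (n : ℕ) : A (cod d) n d = F^[n] d := by
  induction n with
  | zero => rfl
  | succ n ih =>
    simp only [A, ih]
    rw [Function.iterate_succ_apply']
    simp only [cod, F, decide_eq_true_eq]

/-- following a point whose orbit avoids the line: isometric neighbourhood -/
theorem local_iso (x : ℂ) (k : ℕ) (h : ∀ i < k, (F^[i] x).re ≠ -1 / 2) :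
    ∃ δ : ℝ, 0 < δ ∧ ∀ w : ℂ, ‖w‖ < δ → (∀ i ≤ k, F^[i] (x + w) = F^[i] x + rho ^ i * w) ∧
      ∀ i < k, (F^[i] (x + w)).re ≠ -1 / 2 := by
  induction k with
  | zero =>
    refine ⟨1, one_pos, fun w _ => ⟨fun i hi => ?_, fun i hi => absurd hi (by omega)⟩⟩
    have : i = 0 := by omega
    subst this
    simp
  | succ k ih =>
    obtain ⟨δ, hδ, hk⟩ := ih fun i hi => h i (by omega)
    have hg : 0 < |(F^[k] x).re + 1 / 2| := by
      apply abs_pos.2
      intro h0
      exact h k (by omega) (by linarith)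
    refine ⟨min δ |(F^[k] x).re + 1 / 2|, lt_min hδ hg, fun w hw => ?_⟩
    obtain ⟨h1, h2⟩ := hk w (lt_of_lt_of_le hw (min_le_left _ _))
    have hw2 : ‖w‖ < |(F^[k] x).re + 1 / 2| := lt_of_lt_of_le hw (min_le_right _ _)
    have hk1 := h1 k le_rfl
    have hre : |(rho ^ k * w).re| < |(F^[k] x).re + 1 / 2| := by
      refine lt_of_le_of_lt (Complex.abs_re_le_norm _) ?_
      rw [norm_mul, norm_pow, norm_rho, one_pow, one_mul]
      exact hw2
    have hre2 : (F^[k] (x + w)).re = (F^[k] x).re + (rho ^ k * w).re := by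
      rw [hk1, Complex.add_re]
    have hside : (-1 / 2 < (F^[k] (x + w)).re ↔ -1 / 2 < (F^[k] x).re) ∧
        (F^[k] (x + w)).re ≠ -1 / 2 := by
      rw [hre2]
      rcases lt_or_gt_of_ne (h k (by omega)) with hlt | hgt
      · rw [abs_of_neg (by linarith : (F^[k] x).re + 1 / 2 < 0)] at hre
        have := (abs_lt.1 hre).2
        constructor
        · constructor <;> intro <;> linarith
        · intro; linarith
      · rw [abs_of_pos (by linarith : 0 < (F^[k] x).re + 1 / 2)] at hre
        have := (abs_lt.1 hre).1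
        constructor
        · constructor <;> intro <;> linarith
        · intro; linarith
    refine ⟨fun i hi => ?_, fun i hi => ?_⟩
    · rcases Nat.lt_or_ge i (k + 1) with hi' | hi'
      · exact h1 i (by omega)
      · have : i = k + 1 := by omega
        subst this
        rw [Function.iterate_succ_apply', Function.iterate_succ_apply']
        simp only [F]
        by_cases hc : -1 / 2 < (F^[k] x).re
        · rw [if_pos (hside.1.2 hc), if_pos hc, hk1]
          ring
        · rw [if_neg (fun h => hc (hside.1.1 h)), if_neg hc, hk1]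
          ring
    · rcases Nat.lt_or_ge i k with hi' | hi'
      · exact h2 i hi'
      · have : i = k := by omega
        subst this
        exact hside.2

/-- preimages of the tangency point `-1/2` along orbits avoiding the line -/
def P : Set ℂ := {x | ∃ k : ℕ, F^[k] x = -1 / 2 ∧ ∀ i < k, (F^[i] x).re ≠ -1 / 2}

theorem half_mem : (-1 / 2 : ℂ) ∈ P := ⟨0, rfl, fun i hi => absurd hi (by omega)⟩

theorem mem_P_of_iter {x : ℂ} {k : ℕ} (h1 : F^[k] x ∈ P) (h2 : ∀ i < k, (F^[i] x).re ≠ -1 / 2) :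
    x ∈ P := by
  obtain ⟨m, hm, hm2⟩ := h1
  refine ⟨m + k, by rw [Function.iterate_add_apply]; exact hm, fun i hi => ?_⟩
  rcases Nat.lt_or_ge i k with h | h
  · exact h2 i h
  · have : i = (i - k) + k := by omega
    rw [this, Function.iterate_add_apply]
    exact hm2 _ (by omega)

theorem ri_pow_re (n : ℕ) (hn : 0 < n) : (ri ^ n).re < 1 := by
  have h1 : ‖ri ^ n‖ = 1 := by rw [norm_pow, norm_ri, one_pow]
  have h2 : (ri ^ n).re ≤ 1 := by
    calc (ri ^ n).re ≤ ‖ri ^ n‖ := Complex.re_le_norm _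
      _ = 1 := h1
  rcases lt_or_eq_of_le h2 with h | h
  · exact h
  · exfalso
    apply ri_pow_ne_one n hn
    have h3 : (ri ^ n).re * (ri ^ n).re + (ri ^ n).im * (ri ^ n).im = 1 := by
      rw [← Complex.normSq_apply, Complex.normSq_eq_norm_sq, h1, one_pow]
    have h4 : (ri ^ n).im = 0 := by
      rw [h] at h3
      have : (ri ^ n).im * (ri ^ n).im = 0 := by linarith
      exact mul_self_eq_zero.1 this
    exact Complex.ext (by simpa using h) (by simpa using h4)

/-- the points `-ρ^{-n}/2` -/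
noncomputable def e (n : ℕ) : ℂ := -(ri ^ n) / 2

theorem e_re (n : ℕ) (hn : 0 < n) : -1 / 2 < (e n).re := by
  have h := ri_pow_re n hn
  have h2 : (e n).re = -(ri ^ n).re / 2 := by
    unfold e
    rw [Complex.div_ofNat_re, Complex.neg_re]
  rw [h2]
  linarith

theorem F_e (n : ℕ) : F (e (n + 1)) = e n := by
  rw [F, if_pos (e_re (n + 1) (by omega))]
  unfold e
  rw [pow_succ]
  have := rho_mul_ri
  calc rho * (-(ri ^ n * ri) / 2) = -(ri ^ n * (rho * ri)) / 2 := by ring
    _ = -(ri ^ n) / 2 := by rw [this, mul_one]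

theorem e_mem (n : ℕ) : e n ∈ P := by
  induction n with
  | zero =>
    have : e 0 = -1 / 2 := by simp [e]
    rw [this]
    exact half_mem
  | succ n ih =>
    apply mem_P_of_iter (k := 1)
    · simpa [F_e] using ih
    · intro i hi
      have : i = 0 := by omega
      subst this
      have := e_re (n + 1) (by omega)
      simp only [Function.iterate_zero, id_eq]
      exact this.ne'

/-- points of `P` just left of the tangency point -/
theorem left_mem (ε : ℝ) (hε : 0 < ε) :
    ∃ w : ℂ, ‖w‖ < ε ∧ w.re < 0 ∧ (-1 / 2 + w) ∈ P := by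
  obtain ⟨n, hn, τ, hτ0, hτ, hn2⟩ := left_rot (min ε (1 / 2)) (by positivity)
  have hτε : -ε < τ := by
    have := min_le_left ε (1 / 2)
    linarith
  have hτ1 : -(1 / 2) < τ := by
    have := min_le_right ε (1 / 2)
    linarith
  set w : ℂ := -(1 / 2) * ri ^ 2 * (1 + ri ^ n) with hw
  have hwn : ‖w‖ ≤ |τ| / 2 := by
    rw [hw, norm_mul, norm_mul, norm_pow, norm_ri, one_pow, mul_one, hn2]
    have h1 : ‖(1 : ℂ) + -exp (τ * I)‖ ≤ |τ| := by
      have h := Real.norm_exp_I_mul_ofReal_sub_one_le (x := τ)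
      have h2 : (1 : ℂ) + -exp (τ * I) = -(exp (I * τ) - 1) := by
        rw [mul_comm I]
        ring
      rw [h2, norm_neg]
      simpa using h
    have h2 : ‖(-(1 / 2) : ℂ)‖ = 1 / 2 := by simp
    rw [h2]
    linarith
  have habs : |τ| = -τ := abs_of_neg hτ0
  have hwre : w.re < 0 := by
    have h5 : (√5 : ℝ) * √5 = 5 := Real.mul_self_sqrt (by norm_num)
    have h50 : 0 ≤ (√5 : ℝ) := Real.sqrt_nonneg 5
    have h52 : 2 < (√5 : ℝ) := by nlinarith
    have e1 : (ri ^ 2).re = -1 / 9 := by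
      have : (ri ^ 2).re = ri.re * ri.re - ri.im * ri.im := by simp [pow_two, Complex.mul_re]
      rw [this, ri_re, ri_im]
      nlinarith
    have e2 : (ri ^ 2).im = -(4 / 9) * √5 := by
      have : (ri ^ 2).im = ri.re * ri.im + ri.im * ri.re := by simp [pow_two, Complex.mul_im]
      rw [this, ri_re, ri_im]
      ring
    have e3 : (1 + ri ^ n).re = 1 - Real.cos τ := by
      rw [hn2, Complex.add_re, Complex.neg_re, Complex.exp_ofReal_mul_I_re]
      simp [sub_eq_add_neg]
    have e4 : (1 + ri ^ n).im = -Real.sin τ := by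
      rw [hn2, Complex.add_im, Complex.neg_im, Complex.exp_ofReal_mul_I_im]
      simp
    have e5 : w.re = -(1 / 2) * ((-1 / 9) * (1 - Real.cos τ) - (-(4 / 9) * √5) * (-Real.sin τ)) := by
      have : w = ((-(1 / 2) : ℝ) : ℂ) * (ri ^ 2 * (1 + ri ^ n)) := by
        rw [hw]; push_cast; ring
      rw [this, Complex.re_ofReal_mul, Complex.mul_re, e1, e2, e3, e4]
    rw [e5]
    have hs : (-τ) - (-τ) ^ 3 / 6 < Real.sin (-τ) := Real.sin_gt_sub_cube (by linarith)
    rw [Real.sin_neg] at hs
    have hc : 1 - τ ^ 2 / 2 ≤ Real.cos τ := Real.one_sub_sq_div_two_le_cos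
    have hq : (-τ) ^ 3 / 6 ≤ (-τ) / 6 := by
      have : (-τ) ^ 3 ≤ (-τ) := by
        have h1 : 0 < -τ := by linarith
        have h2 : -τ ≤ 1 := by linarith
        nlinarith [sq_nonneg τ]
      linarith
    have hsl : (3 / 4) * (-τ) < -Real.sin τ := by linarith
    nlinarith [mul_pos (show (0 : ℝ) < -Real.sin τ by linarith) (show (0 : ℝ) < √5 - 2 by linarith)]
  have hrp : rho ^ 2 * ri ^ 2 = 1 := by
    rw [← mul_pow, rho_mul_ri, one_pow]
  refine ⟨w, by linarith, hwre, ?_⟩
  have hwn2 : ‖w‖ < 1 / 4 := by linarith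
  -- first step
  have s0 : ¬ (-1 / 2 : ℝ) < (-1 / 2 + w : ℂ).re := by
    have : (-1 / 2 + w : ℂ).re = -1 / 2 + w.re := by simp
    rw [this]; linarith
  have f1 : F (-1 / 2 + w) = 3 / 2 * rho + rho * w := by
    rw [F, if_neg s0]; ring
  have b1 : |(rho * w).re| < 1 / 4 := by
    refine lt_of_le_of_lt (Complex.abs_re_le_norm _) ?_
    rw [norm_mul, norm_rho, one_mul]; exact hwn2
  have r1 : (3 / 2 * rho + rho * w : ℂ).re = -1 + (rho * w).re := by
    rw [Complex.add_re]
    have : (3 / 2 * rho : ℂ) = ((3 / 2 : ℝ) : ℂ) * rho := by push_cast; ring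
    rw [this, Complex.re_ofReal_mul, rho_re]
    ring
  have s1 : ¬ (-1 / 2 : ℝ) < (3 / 2 * rho + rho * w : ℂ).re := by
    rw [r1]
    have := (abs_lt.1 b1).2
    linarith
  have f2 : F (3 / 2 * rho + rho * w) = -3 / 2 + rho ^ 2 * w := by
    rw [F, if_neg s1]
    linear_combination key
  have b2 : |(rho ^ 2 * w).re| < 1 / 4 := by
    refine lt_of_le_of_lt (Complex.abs_re_le_norm _) ?_
    rw [norm_mul, norm_pow, norm_rho, one_pow, one_mul]; exact hwn2
  have r2 : (-3 / 2 + rho ^ 2 * w : ℂ).re = -3 / 2 + (rho ^ 2 * w).re := by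
    simp
  have s2 : ¬ (-1 / 2 : ℝ) < (-3 / 2 + rho ^ 2 * w : ℂ).re := by
    rw [r2]
    have := (abs_lt.1 b2).2
    linarith
  obtain ⟨m, rfl⟩ : ∃ m, n = m + 1 := ⟨n - 1, by omega⟩
  have f3 : F (-3 / 2 + rho ^ 2 * w) = e m := by
    rw [F, if_neg s2, hw]
    unfold e
    have h1 : rho * (-3 / 2 + rho ^ 2 * (-(1 / 2) * ri ^ 2 * (1 + ri ^ (m + 1))) + 2) =
        rho * (1 / 2) - (1 / 2) * (rho ^ 2 * ri ^ 2) * (rho + (rho * ri) * ri ^ m) := by
      ring
    rw [h1, hrp, rho_mul_ri]
    ring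
  apply mem_P_of_iter (k := 3)
  · have : F^[3] (-1 / 2 + w) = e m := by
      simp only [Function.iterate_succ_apply', Function.iterate_zero, id_eq]
      rw [f1, f2, f3]
    rw [this]
    exact e_mem m
  · intro i hi
    interval_cases i
    · simp only [Function.iterate_zero, id_eq]
      have : (-1 / 2 + w : ℂ).re = -1 / 2 + w.re := by simp
      rw [this]
      intro h; linarith
    · simp only [Function.iterate_succ_apply', Function.iterate_zero, id_eq]
      rw [f1, r1]
      have := (abs_lt.1 b1).2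
      intro h; linarith
    · simp only [Function.iterate_succ_apply', Function.iterate_zero, id_eq]
      rw [f1, f2, r2]
      have := (abs_lt.1 b2).2
      intro h; linarith

/-- points of `P` just right of the tangency point -/
theorem right_mem (ε : ℝ) (hε : 0 < ε) :
    ∃ θ : ℝ, ∃ j : ℕ, 0 < j ∧ θ ≠ 0 ∧ |θ| < 1 ∧ ri ^ j = exp (θ * I) ∧
      ‖(1 - ri ^ j) / 2‖ < ε ∧ ‖(1 - ri ^ (2 * j)) / 2‖ < ε ∧
      (-1 / 2 + (1 - ri ^ j) / 2) ∈ P ∧ (-1 / 2 + (1 - ri ^ (2 * j)) / 2) ∈ P ∧
      0 < ((1 - ri ^ j) / 2).re := by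
  obtain ⟨j, hj, θ, hθ0, hθ, hj2⟩ := small_rot (min (ε / 2) 1) (by positivity)
  have h1 : |θ| < ε / 2 := lt_of_lt_of_le hθ (min_le_left _ _)
  have h2 : |θ| < 1 := lt_of_lt_of_le hθ (min_le_right _ _)
  have hn : ∀ t : ℝ, ‖(1 - exp (t * I)) / 2‖ ≤ |t| / 2 := by
    intro t
    have h := Real.norm_exp_I_mul_ofReal_sub_one_le (x := t)
    have h2 : ((1 : ℂ) - exp (t * I)) / 2 = -(exp (I * t) - 1) / 2 := by
      rw [mul_comm I]
      ring
    rw [h2, norm_div, norm_neg]
    have h3 : ‖(2 : ℂ)‖ = 2 := by simp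
    rw [h3]
    have h4 : ‖exp (I * t) - 1‖ ≤ |t| := by simpa using h
    linarith
  have hj3 : ri ^ (2 * j) = exp ((2 * θ : ℝ) * I) := by
    rw [mul_comm 2 j, pow_mul, hj2, ← Complex.exp_nat_mul]
    congr 1
    push_cast
    ring
  have hm : ∀ m : ℕ, (-1 / 2 + (1 - ri ^ m) / 2 : ℂ) = e m := by
    intro m; unfold e; ring
  refine ⟨θ, j, hj, hθ0, h2, hj2, ?_, ?_, ?_, ?_, ?_⟩
  · rw [hj2]
    have := hn θ
    have := abs_nonneg θ
    linarith
  · rw [hj3]
    have := hn (2 * θ)
    rw [abs_mul, abs_of_pos (by norm_num : (0 : ℝ) < 2)] at this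
    linarith
  · rw [hm]; exact e_mem j
  · rw [hm]; exact e_mem (2 * j)
  · have h := e_re j hj
    have h3 : (e j).re = -1 / 2 + ((1 - ri ^ j) / 2).re := by
      rw [← hm]; simp
    linarith

end Pool.Agent.X322.Gw
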