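import Mathlib
import Pool.Agent.X322.Gw2

/-!
# Greedy planar walk, part 3: Baire category argument
-/

set_option autoImplicit false

open Complex Set Filter Topology

namespace Pool.Agent.X322.Gw

/-- eventually periodic symbol sequence from two words -/
def ep (u v : List Bool) (n : ℕ) : Bool :=
  if n < u.length then u.getD n true else v.getD ((n - u.length) % v.length) true

theorem ep_of_periodic (s : ℕ → Bool) (N p : ℕ) (hp : 0 < p)
    (h : ∀ n ≥ N, s (n + p) = s n) :
    ep (List.ofFn fun i : Fin N => s i) (List.ofFn fun i : Fin p => s (N + i)) = s := by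
  have h2 : ∀ k r : ℕ, s (N + r + p * k) = s (N + r) := by
    intro k r
    induction k with
    | zero => simp
    | succ k ih =>
      have := h (N + r + p * k) (by omega)
      rw [← ih, ← this]
      congr 1
      ring
  funext n
  unfold ep
  rw [List.length_ofFn, List.length_ofFn]
  split_ifs with hn
  · rw [List.getD_eq_getElem _ _ (by simpa using hn)]
    simp
  · have hm : (n - N) % p < p := Nat.mod_lt _ hp
    rw [List.getD_eq_getElem _ _ (by simpa using hm)]
    simp only [List.getElem_ofFn]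
    have h3 := h2 ((n - N) / p) ((n - N) % p)
    rw [← h3]
    congr 1
    have := Nat.mod_add_div (n - N) p
    omega

theorem ep_prefix (s : ℕ → Bool) (n : ℕ) :
    ∀ i < n, ep (List.ofFn fun i : Fin n => s i) [] i = s i := by
  intro i hi
  unfold ep
  rw [List.length_ofFn, if_pos hi, List.getD_eq_getElem _ _ (by simpa using hi)]
  simp

/-- the closed set of points compatible with a symbol sequence -/
def Cs (s : ℕ → Bool) : Set ℂ :=
  {d | ∀ n, (s n = true → -1 / 2 ≤ (A s n d).re) ∧ (s n = false → (A s n d).re ≤ -1 / 2)}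

/-- the closed set of points reaching the line at time `n` along a symbol sequence -/
def Bs (s : ℕ → Bool) (n : ℕ) : Set ℂ := {d | (A s n d).re = -1 / 2}

theorem Cs_closed (s : ℕ → Bool) : IsClosed (Cs s) := by
  have : Cs s = ⋂ n, {d | (s n = true → -1 / 2 ≤ (A s n d).re) ∧
      (s n = false → (A s n d).re ≤ -1 / 2)} := by
    ext d; simp [Cs]
  rw [this]
  refine isClosed_iInter fun n => ?_
  have hc : Continuous fun d => (A s n d).re := Complex.continuous_re.comp (A_cont s n)
  cases hs : s n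
  · have : {d | (false = true → -1 / 2 ≤ (A s n d).re) ∧ (false = false → (A s n d).re ≤ -1 / 2)} =
        {d | (A s n d).re ≤ -1 / 2} := by ext d; simp
    rw [this]
    exact isClosed_le hc continuous_const
  · have : {d | (true = true → -1 / 2 ≤ (A s n d).re) ∧ (true = false → (A s n d).re ≤ -1 / 2)} =
        {d | -1 / 2 ≤ (A s n d).re} := by ext d; simp
    rw [this]
    exact isClosed_le continuous_const hc

theorem Bs_closed (s : ℕ → Bool) (n : ℕ) : IsClosed (Bs s n) := by
  have hc : Continuous fun d => (A s n d).re := Complex.continuous_re.comp (A_cont s n)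
  exact isClosed_eq hc continuous_const

theorem pull_mem {x : ℂ} {k : ℕ} (hx : F^[k] x = -1 / 2) {v : ℂ}
    (h1 : ∀ i ≤ k, F^[i] (x + v) = F^[i] x + rho ^ i * v)
    (h2 : ∀ i < k, (F^[i] (x + v)).re ≠ -1 / 2) (hv : (-1 / 2 + rho ^ k * v) ∈ P) :
    x + v ∈ P := by
  apply mem_P_of_iter (k := k) _ h2
  rw [h1 k le_rfl, hx]
  exact hv

/-- the covering sets have empty interior relative to `closure P` -/
theorem not_B (s : ℕ → Bool) (n : ℕ) (U : Set ℂ) (hU : IsOpen U) (x : ℂ) (hxU : x ∈ U) (hxP : x ∈ P)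
    (hsub : ∀ y ∈ U, y ∈ P → y ∈ Bs s n) : False := by
  obtain ⟨k, hk, hk2⟩ := hxP
  obtain ⟨δ, hδ, hloc⟩ := local_iso x k hk2
  obtain ⟨r, hr, hball⟩ := Metric.isOpen_iff.1 hU x hxU
  obtain ⟨θ, j, hj, hθ0, hθ1, hjθ, hn1, hn2, hP1, hP2, _⟩ := right_mem (min δ r) (by positivity)
  have hpull : ∀ w : ℂ, ‖w‖ < min δ r → (-1 / 2 + w) ∈ P → x + ri ^ k * w ∈ Bs s n := by
    intro w hw hwP
    have hnorm : ‖ri ^ k * w‖ = ‖w‖ := by rw [norm_mul, norm_pow, norm_ri, one_pow, one_mul]
    obtain ⟨a1, a2⟩ := hloc (ri ^ k * w) (by rw [hnorm]; exact lt_of_lt_of_le hw (min_le_left _ _))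
    apply hsub
    · apply hball
      rw [Metric.mem_ball, dist_eq_norm, add_sub_cancel_left, hnorm]
      exact lt_of_lt_of_le hw (min_le_right _ _)
    · apply pull_mem hk a1 a2
      rw [← mul_assoc, ← mul_pow, rho_mul_ri, one_pow, one_mul]
      exact hwP
  have b0 := hpull 0 (by simp [hδ, hr]) (by simpa using half_mem)
  have b1 := hpull _ hn1 hP1
  have b2 := hpull _ hn2 hP2
  simp only [Bs, Set.mem_ofPred_eq, mul_zero, add_zero] at b0 b1 b2
  rw [A_add, Complex.add_re, b0] at b1 b2
  -- β = ρ^n ρ^{-k}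
  set β : ℂ := rho ^ n * ri ^ k with hβ
  have hβ0 : β ≠ 0 := mul_ne_zero (pow_ne_zero _ rho_ne) (pow_ne_zero _ ri_ne)
  have c1 : (β * (1 - ri ^ j)).re = 0 := by
    have : rho ^ n * (ri ^ k * ((1 - ri ^ j) / 2)) = ((1 / 2 : ℝ) : ℂ) * (β * (1 - ri ^ j)) := by
      rw [hβ]; push_cast; ring
    rw [this, Complex.re_ofReal_mul] at b1
    linarith
  have c2 : (β * (1 - ri ^ j) * (1 + ri ^ j)).re = 0 := by
    have : rho ^ n * (ri ^ k * ((1 - ri ^ (2 * j)) / 2)) =
        ((1 / 2 : ℝ) : ℂ) * (β * (1 - ri ^ j) * (1 + ri ^ j)) := by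
      rw [hβ]; push_cast; ring
    rw [this, Complex.re_ofReal_mul] at b2
    linarith
  rw [Complex.mul_re, c1, zero_mul, zero_sub, neg_eq_zero] at c2
  have him : (1 + ri ^ j : ℂ).im = Real.sin θ := by
    rw [hjθ, Complex.add_im, Complex.exp_ofReal_mul_I_im]
    simp
  rw [him] at c2
  rcases mul_eq_zero.1 c2 with h | h
  · have : β * (1 - ri ^ j) = 0 := Complex.ext c1 h
    rcases mul_eq_zero.1 this with h | h
    · exact hβ0 h
    · exact ri_pow_ne_one j hj (sub_eq_zero.1 h).symm
  · obtain ⟨hl, hu⟩ := abs_lt.1 hθ1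
    have hpi := Real.pi_gt_three
    rw [Real.sin_eq_zero_iff_of_lt_of_lt (by linarith) (by linarith)] at h
    exact hθ0 h

theorem not_C (s : ℕ → Bool) (U : Set ℂ) (hU : IsOpen U) (x : ℂ) (hxU : x ∈ U) (hxP : x ∈ P)
    (hsub : ∀ y ∈ U, y ∈ P → y ∈ Cs s) : False := by
  have hxC := hsub x hxU hxP
  obtain ⟨k, hk, hk2⟩ := hxP
  obtain ⟨δ, hδ, hloc⟩ := local_iso x k hk2
  obtain ⟨r, hr, hball⟩ := Metric.isOpen_iff.1 hU x hxU
  have hpull : ∀ w : ℂ, ‖w‖ < min δ r → (-1 / 2 + w) ∈ P → x + ri ^ k * w ∈ Cs s := by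
    intro w hw hwP
    have hnorm : ‖ri ^ k * w‖ = ‖w‖ := by rw [norm_mul, norm_pow, norm_ri, one_pow, one_mul]
    obtain ⟨a1, a2⟩ := hloc (ri ^ k * w) (by rw [hnorm]; exact lt_of_lt_of_le hw (min_le_left _ _))
    apply hsub
    · apply hball
      rw [Metric.mem_ball, dist_eq_norm, add_sub_cancel_left, hnorm]
      exact lt_of_lt_of_le hw (min_le_right _ _)
    · apply pull_mem hk a1 a2
      rw [← mul_assoc, ← mul_pow, rho_mul_ri, one_pow, one_mul]
      exact hwP
  -- the branches agree with the orbit of x up to time k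
  have hA : ∀ i ≤ k, A s i x = F^[i] x := by
    intro i
    induction i with
    | zero => intro _; rfl
    | succ i ih =>
      intro hi
      have hi2 := ih (by omega)
      have hne := hk2 i (by omega)
      have hc := hxC i
      rw [hi2] at hc
      rw [Function.iterate_succ_apply']
      simp only [A, F, hi2]
      cases hs : s i
      · have := hc.2 hs
        rw [if_neg (by simp), if_neg (by linarith)]
      · have := hc.1 hs
        rw [if_pos rfl, if_pos (lt_of_le_of_ne this (Ne.symm hne))]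
  have hAk : A s k x = -1 / 2 := by rw [hA k le_rfl, hk]
  have hval : ∀ w : ℂ, (A s k (x + ri ^ k * w)).re = -1 / 2 + w.re := by
    intro w
    rw [A_add, hAk, ← mul_assoc, ← mul_pow, rho_mul_ri, one_pow, one_mul, Complex.add_re]
    simp
  cases hs : s k
  · obtain ⟨_, j, _, _, _, _, hn1, _, hP1, _, hre⟩ := right_mem (min δ r) (by positivity)
    have := (hpull _ hn1 hP1 k).2 hs
    rw [hval] at this
    linarith
  · obtain ⟨w, hw1, hw2, hw3⟩ := left_mem (min δ r) (by positivity)
    have := (hpull w hw1 hw3 k).1 hs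
    rw [hval] at this
    linarith

/-- a point avoiding the line forever whose coding is not eventually periodic -/
theorem exists_aperiodic :
    ∃ d : ℂ, (∀ n, (F^[n] d).re ≠ -1 / 2) ∧
      ¬ ∃ N p : ℕ, 0 < p ∧ ∀ n ≥ N, cod d (n + p) = cod d n := by
  by_contra hcon
  push Not at hcon
  let Z : Set ℂ := closure P
  have hZc : IsClosed Z := isClosed_closure
  have : CompleteSpace Z := hZc.completeSpace_coe
  have : Nonempty Z := ⟨⟨-1 / 2, subset_closure half_mem⟩⟩
  let f : (List Bool × List Bool) × Option ℕ → Set Z := fun i =>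
    Subtype.val ⁻¹' (match i.2 with
      | none => Cs (ep i.1.1 i.1.2)
      | some n => Bs (ep i.1.1 i.1.2) n)
  have hfc : ∀ i, IsClosed (f i) := by
    rintro ⟨⟨u, v⟩, o⟩
    cases o with
    | none => exact (Cs_closed _).preimage continuous_subtype_val
    | some n => exact (Bs_closed _ n).preimage continuous_subtype_val
  have hfU : ⋃ i, f i = univ := by
    refine eq_univ_of_forall fun z => ?_
    obtain ⟨d, hd⟩ := z
    rw [mem_iUnion]
    by_cases hadm : ∀ n, (F^[n] d).re ≠ -1 / 2
    · obtain ⟨N, p, hp, hper⟩ := hcon d hadm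
      refine ⟨((List.ofFn fun i : Fin N => cod d i, List.ofFn fun i : Fin p => cod d (N + i)),
        none), ?_⟩
      show d ∈ Cs _
      rw [ep_of_periodic (cod d) N p hp hper]
      intro n
      rw [A_cod]
      constructor
      · intro h
        have : -1 / 2 < (F^[n] d).re := by simpa [cod] using h
        exact this.le
      · intro h
        have : (F^[n] d).re ≤ -1 / 2 := by simpa [cod] using h
        exact this
    · push Not at hadm
      obtain ⟨n, hn⟩ := hadm
      refine ⟨((List.ofFn fun i : Fin n => cod d i, []), some n), ?_⟩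
      show d ∈ Bs _ n
      show (A _ n d).re = -1 / 2
      rw [A_congr (ep_prefix (cod d) n) d, A_cod]
      exact hn
  obtain ⟨i, hi⟩ := nonempty_interior_of_iUnion_of_closed hfc hfU
  obtain ⟨z, hz⟩ := hi
  obtain ⟨t, htf, hto, hzt⟩ := mem_interior.1 hz
  obtain ⟨U, hU, hUt⟩ := isOpen_induced_iff.1 hto
  have hzU : (z : ℂ) ∈ U := by
    have : z ∈ Subtype.val ⁻¹' U := by rw [hUt]; exact hzt
    exact this
  obtain ⟨x, hxU, hxP⟩ := mem_closure_iff.1 z.2 U hU hzU
  have hsub : ∀ y ∈ U, ∀ hy : y ∈ P, (⟨y, subset_closure hy⟩ : Z) ∈ f i := by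
    intro y hyU hyP
    apply htf
    rw [← hUt]
    exact hyU
  obtain ⟨⟨u, v⟩, o⟩ := i
  cases o with
  | none => exact not_C (ep u v) U hU x hxU hxP fun y hy hyP => hsub y hy hyP
  | some n => exact not_B (ep u v) n U hU x hxU hxP fun y hy hyP => hsub y hy hyP

end Pool.Agent.X322.Gw
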