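import Mathlib
import Pool.Agent.X322.Gw3

/-!
# Greedy planar walk, part 4: from the piecewise rotation to the walk
-/

set_option autoImplicit false

open Complex

namespace Pool.Agent.X322.Gw

/-- centre of the constant-sign disc -/
noncomputable def c : ℂ := ((1 / 2 : ℝ) : ℂ) + ((√5 / 10 : ℝ) : ℂ) * I

theorem c_fix : c = rho * (c - 1) := by
  have h5 : (√5 : ℝ) * √5 = 5 := Real.mul_self_sqrt (by norm_num)
  have c1 : c.re = 1 / 2 := by simp [c]
  have c2 : c.im = √5 / 10 := by simp [c]
  apply Complex.ext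
  · rw [Complex.mul_re, Complex.sub_re, Complex.sub_im, rho_re, rho_im, c1, c2]
    simp only [Complex.one_re, Complex.one_im]
    nlinarith
  · rw [Complex.mul_im, Complex.sub_re, Complex.sub_im, rho_re, rho_im, c1, c2]
    simp only [Complex.one_re, Complex.one_im]
    ring

theorem norm_lt_aux {y : ℂ} (h : 0 < y.re) : ‖y - 1‖ < ‖y + 1‖ := by
  rw [← abs_of_nonneg (norm_nonneg (y - 1)), ← abs_of_nonneg (norm_nonneg (y + 1)), ← sq_lt_sq,
    ← Complex.normSq_eq_norm_sq, ← Complex.normSq_eq_norm_sq, Complex.normSq_apply,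
    Complex.normSq_apply]
  simp only [Complex.sub_re, Complex.sub_im, Complex.add_re, Complex.add_im, Complex.one_re,
    Complex.one_im]
  nlinarith

theorem norm_lt_aux2 {y : ℂ} (h : y.re < 0) : ‖y + 1‖ < ‖y - 1‖ := by
  have := norm_lt_aux (y := -y) (by simpa using h)
  have h1 : ‖-y - 1‖ = ‖y + 1‖ := by rw [← norm_neg]; congr 1; ring
  have h2 : ‖-y + 1‖ = ‖y - 1‖ := by rw [← norm_neg]; congr 1; ring
  rwa [h1, h2] at this

theorem main :
    ∃ α : ℝ, 0 < α ∧ Irrational α ∧ Real.cos (2 * Real.pi * α) = -2 / 3 ∧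
      ∃ (z : ℕ → ℂ) (ε : ℕ → ℝ), (∀ n, ε n = 1 ∨ ε n = -1) ∧
        (∀ n, z (n + 1) = z n + ε n * exp (2 * Real.pi * I * α * n)) ∧
        (∀ n, ‖z n + ε n * exp (2 * Real.pi * I * α * n)‖ <
          ‖z n - ε n * exp (2 * Real.pi * I * α * n)‖) ∧
        ¬ ∃ N p : ℕ, 0 < p ∧ ∀ n ≥ N, ε (n + p) = ε n := by
  obtain ⟨d, hd, hper⟩ := exists_aperiodic
  refine ⟨alpha, alpha_pos, alpha_irr, by rw [two_pi_alpha, cos_phi],
    fun n => (F^[n] d + c) * ri ^ n, fun n => if cod d n then -1 else 1, ?_, ?_, ?_, ?_⟩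
  · intro n
    by_cases h : cod d n = true
    · right; simp [h]
    · left; simp [h]
  · intro n
    have he : exp (2 * Real.pi * I * alpha * n) = ri ^ n := by
      rw [ri_pow, ← two_pi_alpha]
      congr 1
      push_cast
      ring
    simp only [he]
    rw [Function.iterate_succ_apply']
    have hc := c_fix
    by_cases h : -1 / 2 < (F^[n] d).re
    · have h1 : cod d n = true := by simp [cod, h]
      rw [F, if_pos h, h1, if_pos rfl]
      have : rho * F^[n] d + c = rho * (F^[n] d + c - 1) := by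
        linear_combination hc
      rw [this, pow_succ]
      push_cast
      linear_combination ((F^[n] d + c - 1) * ri ^ n) * rho_mul_ri
    · have h1 : cod d n = false := by simp [cod, h]
      rw [F, if_neg h, h1, if_neg (by simp)]
      have : rho * (F^[n] d + 2) + c = rho * (F^[n] d + c + 1) := by
        linear_combination hc
      rw [this, pow_succ]
      push_cast
      linear_combination ((F^[n] d + c + 1) * ri ^ n) * rho_mul_ri
  · intro n
    have he : exp (2 * Real.pi * I * alpha * n) = ri ^ n := by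
      rw [ri_pow, ← two_pi_alpha]
      congr 1
      push_cast
      ring
    simp only [he]
    have hnr : ‖ri ^ n‖ = 1 := by rw [norm_pow, norm_ri, one_pow]
    have hyre : (F^[n] d + c).re = (F^[n] d).re + 1 / 2 := by
      rw [Complex.add_re]; simp [c]
    by_cases h : -1 / 2 < (F^[n] d).re
    · have h1 : cod d n = true := by simp [cod, h]
      rw [h1, if_pos rfl]
      have e1 : (F^[n] d + c) * ri ^ n + ((-1 : ℝ) : ℂ) * ri ^ n = (F^[n] d + c - 1) * ri ^ n := by
        push_cast; ring
      have e2 : (F^[n] d + c) * ri ^ n - ((-1 : ℝ) : ℂ) * ri ^ n = (F^[n] d + c + 1) * ri ^ n := by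
        push_cast; ring
      rw [e1, e2, norm_mul, norm_mul, hnr, mul_one, mul_one]
      exact norm_lt_aux (by rw [hyre]; linarith)
    · have h1 : cod d n = false := by simp [cod, h]
      rw [h1, if_neg (by simp)]
      have e1 : (F^[n] d + c) * ri ^ n + ((1 : ℝ) : ℂ) * ri ^ n = (F^[n] d + c + 1) * ri ^ n := by
        push_cast; ring
      have e2 : (F^[n] d + c) * ri ^ n - ((1 : ℝ) : ℂ) * ri ^ n = (F^[n] d + c - 1) * ri ^ n := by
        push_cast; ring
      rw [e1, e2, norm_mul, norm_mul, hnr, mul_one, mul_one]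
      have hlt : (F^[n] d).re < -1 / 2 := lt_of_le_of_ne (not_lt.1 h) (hd n)
      exact norm_lt_aux2 (by rw [hyre]; linarith)
  · rintro ⟨N, p, hp, h⟩
    apply hper
    refine ⟨N, p, hp, fun n hn => ?_⟩
    have := h n hn
    simp only at this
    cases h1 : cod d (n + p) <;> cases h2 : cod d n <;> simp [h1, h2] at this ⊢ <;> norm_num at this

end Pool.Agent.X322.Gw
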