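import Mathlib
import Pool.Agent.X322.Hs1
import Pool.Agent.X322.Hs3
import Pool.Agent.X322.Hs96

set_option autoImplicit false

open Set Filter Topology
open Pool.Agent.X322.Hs

namespace Pool.Agent.X322.Hs96

/-- the right-hand side -/
noncomputable def G (u v w : ℝ) : ℝ :=
  (Real.exp 1200000 + u + Real.exp 1000000 * w) /
    (u + Real.exp 1200000 * v)

theorem G_pos (u v w : ℝ) (hu : 0 < u) (hv : 0 < v) (hw : 0 < w) : 0 < G u v w := by
  unfold G
  have := Real.exp_pos 1200000
  have := Real.exp_pos 1000000
  positivity

theorem log4 : Real.log 4 ≤ 200000 * (1 / 100000) := by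
  have h : (4 : ℝ) = 2 ^ (2 : ℕ) := by norm_num
  rw [h, Real.log_pow]
  have := Real.log_two_lt_d9
  push_cast
  linarith

theorem G_St (u v w : ℝ) (hu : 0 < u) (hv : 0 < v) (hw : 0 < w) :
    St (lg 200000 u) (lg 200000 v) (lg 200000 w) (lg 200000 (G u v w)) := by
  have e0 : ∀ x : ℝ, 0 < x → Real.exp (200000 * lg 200000 x) = x := by
    intro x hx
    unfold lg
    rw [mul_div_cancel₀ _ (by norm_num : (200000 : ℝ) ≠ 0), Real.exp_log hx]
  have hN : Real.exp 1200000 + u + Real.exp 1000000 * w =
      Real.exp (200000 * 6) + Real.exp (200000 * lg 200000 u) + Real.exp (200000 * (5 + lg 200000 w)) := by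
    simp only [mul_add, Real.exp_add, e0 u hu, e0 v hv, e0 w hw] <;> norm_num
  have hM : u + Real.exp 1200000 * v =
      Real.exp (200000 * lg 200000 u) + Real.exp (200000 * (6 + lg 200000 v)) := by
    simp only [mul_add, Real.exp_add, e0 u hu, e0 v hv, e0 w hw] <;> norm_num
  refine ⟨lg 200000 (Real.exp 1200000 + u + Real.exp 1000000 * w),
    lg 200000 (u + Real.exp 1200000 * v), ?_, ?_, ?_⟩
  · unfold G lg
    rw [Real.log_div, sub_div]
    · apply ne_of_gt
      have := Real.exp_pos 1200000
      have := Real.exp_pos 1000000
      positivity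
    · apply ne_of_gt
      have := Real.exp_pos 1200000
      have := Real.exp_pos 1000000
      positivity
  · rw [hN]
    exact lse3 (by norm_num) log4
  · rw [hM]
    exact lse2 (by norm_num) log4

/-- left end points of the two intervals -/
noncomputable def l (s : Bool) : ℝ := if s then (-47 / 200) else (-3 / 4)
/-- right end points of the two intervals -/
noncomputable def r (s : Bool) : ℝ := if s then (-3 / 25) else (-53 / 100)

theorem main :
    ∃ α δ C : ℝ, 0 < α ∧ 0 < δ ∧ 0 < C ∧
      ∃ x : ℕ → ℝ, 0 < x 0 ∧ 0 < x 1 ∧ 0 < x 2 ∧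
        (∀ n, x (n + 3) = (α + x (n + 2) + δ * x n) / (x (n + 2) + C * x (n + 1))) ∧
        (∃ K, ∀ n, x n ≤ K) ∧
        ∀ p : ℕ → ℝ, (∃ k, 0 < k ∧ ∀ n, p (n + k) = p n) →
          ¬ Tendsto (fun n => x n - p n) atTop (𝓝 0) := by
  have hcont : ∀ u v w : ℝ → ℝ, Continuous u → Continuous v → Continuous w → (∀ z, 0 < u z) →
      (∀ z, 0 < v z) → (∀ z, 0 < w z) → Continuous fun z => G (u z) (v z) (w z) := by
    intro u v w cu cv cw pu pv pw
    unfold G
    refine Continuous.div (by fun_prop) (by fun_prop) fun z => ?_
    apply ne_of_gt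
    have := Real.exp_pos 1200000
    have := Real.exp_pos 1000000
    have := pu z
    have := pv z
    have := pw z
    positivity
  obtain ⟨a, b, c, ha, hb, hc, h1, hbd⟩ := assemble (Λ := 200000) (by norm_num) G G_pos hcont St G_St
    (T := 17) (by norm_num) (c1 := 5) (c2 := (-5)) (w0 := (1 / 1000)) (R := 6) (lo := (-39 / 50))
    (hi := (-1 / 10)) (by norm_num) (l := l) (r := r)
    (by intro s; cases s <;> norm_num [l, r]) (by intro s; cases s <;> norm_num [l])
    (by intro s; cases s <;> norm_num [r]) (by norm_num [l, r])
    (by
      intro X hX t s q1 q2 q3 q4 q5 q6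
      cases s
      · have q5' : ((-3 / 4) : ℝ) ≤ X (t + 1) := by
          have := q5
          simp only [l] at this
          norm_num at this ⊢
          linarith
        have q6' : X (t + 1) ≤ ((-53 / 100) : ℝ) := by
          have := q6
          simp only [r] at this
          norm_num at this ⊢
          linarith
        obtain ⟨⟨a1, a2⟩, ⟨a3, a4⟩, _, b3, b4, b5, b6, b7, b8, b9, b10, b11, b12, b13, b14, b15, b16, b17, b18, b19⟩ := branchA (hX t) (hX (t + 1)) (hX (t + 2)) (hX (t + 3)) (hX (t + 4)) (hX (t + 5)) (hX (t + 6)) (hX (t + 7)) (hX (t + 8)) (hX (t + 9)) (hX (t + 10)) (hX (t + 11)) (hX (t + 12)) (hX (t + 13)) (hX (t + 14)) (hX (t + 15)) (hX (t + 16))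
          (by linarith) (by linarith) (by linarith) (by linarith) q5' q6'
        refine ⟨⟨by linarith [show (5 : ℝ) - (1 / 1000) = (4999 / 1000) by norm_num],
          by linarith [show (5 : ℝ) + (1 / 1000) = (5001 / 1000) by norm_num], ?_, ?_⟩, ?_⟩
        · have : X (t + 17 + 2) = X (t + 16 + 3) := rfl
          linarith
        · have : X (t + 17 + 2) = X (t + 16 + 3) := rfl
          linarith
        · intro i hi
          interval_cases i
          · simp only [Nat.add_zero]; linarith
          · linarith
          · linarith
          · exact b3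
          · exact b4
          · exact b5
          · exact b6
          · exact b7
          · exact b8
          · exact b9
          · exact b10
          · exact b11
          · exact b12
          · exact b13
          · exact b14
          · exact b15
          · exact b16
      · have q5' : ((-47 / 200) : ℝ) ≤ X (t + 1) := by
          have := q5
          simp only [l] at this
          norm_num at this ⊢
          linarith
        have q6' : X (t + 1) ≤ ((-3 / 25) : ℝ) := by
          have := q6
          simp only [r] at this
          norm_num at this ⊢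
          linarith
        obtain ⟨⟨a1, a2⟩, ⟨a3, a4⟩, _, b3, b4, b5, b6, b7, b8, b9, b10, b11, b12, b13, b14, b15, b16, b17, b18, b19⟩ := branchB (hX t) (hX (t + 1)) (hX (t + 2)) (hX (t + 3)) (hX (t + 4)) (hX (t + 5)) (hX (t + 6)) (hX (t + 7)) (hX (t + 8)) (hX (t + 9)) (hX (t + 10)) (hX (t + 11)) (hX (t + 12)) (hX (t + 13)) (hX (t + 14)) (hX (t + 15)) (hX (t + 16))
          (by linarith) (by linarith) (by linarith) (by linarith) q5' q6'
        refine ⟨⟨by linarith [show (5 : ℝ) - (1 / 1000) = (4999 / 1000) by norm_num],
          by linarith [show (5 : ℝ) + (1 / 1000) = (5001 / 1000) by norm_num], ?_, ?_⟩, ?_⟩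
        · have : X (t + 17 + 2) = X (t + 16 + 3) := rfl
          linarith
        · have : X (t + 17 + 2) = X (t + 16 + 3) := rfl
          linarith
        · intro i hi
          interval_cases i
          · simp only [Nat.add_zero]; linarith
          · linarith
          · linarith
          · exact b3
          · exact b4
          · exact b5
          · exact b6
          · exact b7
          · exact b8
          · exact b9
          · exact b10
          · exact b11
          · exact b12
          · exact b13
          · exact b14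
          · exact b15
          · exact b16)
    (by
      intro s
      cases s
      · right
        intro X hX t q1 q2 q3 q4
        have key : ∀ h5 : ((-3 / 4) : ℝ) ≤ X (t + 1), ∀ h6 : X (t + 1) ≤ (-53 / 100),
            ((-2300059 / 100000) : ℝ) + 4 * X t + (-4) * X (t + 1) ≤ X (t + 17 + 1) ∧
              X (t + 17 + 1) ≤ ((-2299941 / 100000) : ℝ) + 4 * X t + (-4) * X (t + 1) := fun h5 h6 =>
          (branchA (hX t) (hX (t + 1)) (hX (t + 2)) (hX (t + 3)) (hX (t + 4)) (hX (t + 5)) (hX (t + 6)) (hX (t + 7)) (hX (t + 8)) (hX (t + 9)) (hX (t + 10)) (hX (t + 11)) (hX (t + 12)) (hX (t + 13)) (hX (t + 14)) (hX (t + 15)) (hX (t + 16))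
          (by linarith) (by linarith) (by linarith) (by linarith) h5 h6).2.2.1
        constructor
        · intro he
          have he' : X (t + 1) = (-3 / 4) := by
            rw [he]; simp only [l]; norm_num
          have := key (by linarith) (by linarith)
          linarith [this.1, this.2]
        · intro he
          have he' : X (t + 1) = (-53 / 100) := by
            rw [he]; simp only [r]; norm_num
          have := key (by linarith) (by linarith)
          linarith [this.1, this.2]
      · left
        intro X hX t q1 q2 q3 q4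
        have key : ∀ h5 : ((-47 / 200) : ℝ) ≤ X (t + 1), ∀ h6 : X (t + 1) ≤ (-3 / 25),
            ((4099949 / 100000) : ℝ) + (-8) * X t + 8 * X (t + 1) ≤ X (t + 17 + 1) ∧
              X (t + 17 + 1) ≤ ((4100051 / 100000) : ℝ) + (-8) * X t + 8 * X (t + 1) := fun h5 h6 =>
          (branchB (hX t) (hX (t + 1)) (hX (t + 2)) (hX (t + 3)) (hX (t + 4)) (hX (t + 5)) (hX (t + 6)) (hX (t + 7)) (hX (t + 8)) (hX (t + 9)) (hX (t + 10)) (hX (t + 11)) (hX (t + 12)) (hX (t + 13)) (hX (t + 14)) (hX (t + 15)) (hX (t + 16))
          (by linarith) (by linarith) (by linarith) (by linarith) h5 h6).2.2.1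
        constructor
        · intro he
          have he' : X (t + 1) = (-47 / 200) := by
            rw [he]; simp only [l]; norm_num
          have := key (by linarith) (by linarith)
          linarith [this.1, this.2]
        · intro he
          have he' : X (t + 1) = (-3 / 25) := by
            rw [he]; simp only [r]; norm_num
          have := key (by linarith) (by linarith)
          linarith [this.1, this.2])
  refine ⟨Real.exp 1200000, Real.exp 1000000, Real.exp 1200000, Real.exp_pos _,
    Real.exp_pos _, Real.exp_pos _, orb G a b c, ha, hb, hc, fun n => ?_, ⟨_, hbd⟩, h1⟩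
  rw [orb]
  rfl

end Pool.Agent.X322.Hs96
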