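import Mathlib

namespace Pool.Agent.X322.Bt
open Filter Topology Set

structure Par (α A B e m M : ℝ) : Prop where
  hα : 0 < α
  hB : 1 < B
  hA0 : 0 ≤ A
  hA1 : A < 1
  he : 0 < e
  hee : (1+B)*e^2 = (1-A)*e + α
  he2 : 2*e < 1 - A
  hm : 0 < m
  hme : m < e
  heM : e < M
  hs : m + M = 1 - A
  hp : (B-1)*(m*M) = α

structure IsSol (α A B : ℝ) (x : ℕ → ℝ) : Prop where
  h0 : 0 ≤ x 0
  h1 : 0 ≤ x 1
  hd : 0 < A + B * x 1 + x 0
  hr : ∀ n, x (n+2) = (α + x n)/(A + B * x (n+1) + x n)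

variable {α A B e m M : ℝ}

lemma Par.e1 (P : Par α A B e m M) : e < 1 := by
  have := P.he2; have := P.hA0; linarith

lemma Par.M1 (P : Par α A B e m M) : M < 1 := by
  have := P.hs; have := P.hA0; have := P.hm; linarith

lemma Par.ev (P : Par α A B e m M) : α < A + B*e := by
  have h1 := P.e1
  have h2 := P.hee
  have h3 : A + B*e - α = (1-e)*(A+(1+B)*e) := by nlinarith
  have h4 : 0 < (1-e)*(A+(1+B)*e) := by
    have := P.he; have := P.hB; have := P.hA0
    apply mul_pos (by linarith)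
    have : 0 < (1+B)*e := by positivity
    linarith
  linarith

lemma Par.mv (P : Par α A B e m M) : α < A + B*m := by
  have h1 := P.M1
  have h2 := P.hp
  have h3 := P.hs
  have h4 : A + B*m - α = (1-M)*(A+B*m+M) := by
    have hA : A = 1 - m - M := by linarith
    rw [← h2, hA]; ring
  have h5 : 0 < (1-M)*(A+B*m+M) := by
    have := P.hm; have := P.hB; have := P.hA0; have := P.he; have := P.heM
    apply mul_pos (by linarith)
    have : 0 < B*m := by positivity
    linarith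
  linarith

lemma Par.AB (P : Par α A B e m M) : α < A + B := by
  have h := P.ev
  have := P.e1; have := P.hB; nlinarith

lemma IsSol.nn (P : Par α A B e m M) {x : ℕ → ℝ} (hx : IsSol α A B x) (n : ℕ) :
    0 ≤ x n ∧ 0 ≤ x (n+1) ∧ 0 < A + B * x (n+1) + x n := by
  have hα := P.hα; have hB := P.hB; have hA := P.hA0
  induction n with
  | zero => exact ⟨hx.h0, hx.h1, hx.hd⟩
  | succ n ih =>
    obtain ⟨a, b, c⟩ := ih
    have h2 : 0 < x (n+2) := by
      rw [hx.hr n]; exact div_pos (by linarith) c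
    refine ⟨b, h2.le, ?_⟩
    have : 0 < B * x (n+2) := by positivity
    have e2 : x (n+1+1) = x (n+2) := rfl
    rw [e2]; linarith

lemma IsSol.pos (P : Par α A B e m M) {x : ℕ → ℝ} (hx : IsSol α A B x) (n : ℕ) :
    0 < x (n+2) := by
  have hα := P.hα
  obtain ⟨a, b, c⟩ := hx.nn P n
  rw [hx.hr n]; exact div_pos (by linarith) c

lemma IsSol.shift (P : Par α A B e m M) {x : ℕ → ℝ} (hx : IsSol α A B x) (k : ℕ) :
    IsSol α A B (fun n => x (n+k)) := by
  obtain ⟨a, b, c⟩ := hx.nn P k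
  refine ⟨by simpa using a, by simpa [add_comm] using b, by simpa [add_comm] using c, ?_⟩
  intro n
  have := hx.hr (n+k)
  have e1 : n + 2 + k = n + k + 2 := by ring
  have e2 : n + 1 + k = n + k + 1 := by ring
  simp only [e1, e2]; exact this

lemma IsSol.diff (P : Par α A B e m M) {x : ℕ → ℝ} (hx : IsSol α A B x) (n : ℕ) :
    x (n+2) - e = ((1-e)*(x n - e) - e*B*(x (n+1) - e))/(A+B*x (n+1)+x n) := by
  obtain ⟨a, b, c⟩ := hx.nn P n
  rw [hx.hr n, eq_div_iff c.ne', sub_mul, div_mul_cancel₀ _ c.ne']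
  have := P.hee
  nlinarith

lemma IsSol.nwstep (P : Par α A B e m M) {x : ℕ → ℝ} (hx : IsSol α A B x) (n : ℕ)
    (h1 : x n ≤ e) (h2 : e ≤ x (n+1)) (h3 : x n < e ∨ e < x (n+1)) : x (n+2) < e := by
  obtain ⟨a, b, c⟩ := hx.nn P n
  have h := hx.diff P n
  have he := P.he; have he1 := P.e1; have hB := P.hB
  have h4 : ((1-e)*(x n - e) - e*B*(x (n+1) - e)) < 0 := by
    have k1 : 0 ≤ (1-e)*(e - x n) := mul_nonneg (by linarith) (by linarith)
    have k2 : 0 ≤ e*B*(x (n+1) - e) := mul_nonneg (by positivity) (by linarith)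
    rcases h3 with h3 | h3
    · have : 0 < (1-e)*(e - x n) := mul_pos (by linarith) (by linarith)
      nlinarith
    · have : 0 < e*B*(x (n+1) - e) := mul_pos (by positivity) (by linarith)
      nlinarith
  have h5 : x (n+2) - e < 0 := by rw [h]; exact div_neg_of_neg_of_pos h4 c
  linarith

lemma IsSol.sestep (P : Par α A B e m M) {x : ℕ → ℝ} (hx : IsSol α A B x) (n : ℕ)
    (h1 : e ≤ x n) (h2 : x (n+1) ≤ e) (h3 : e < x n ∨ x (n+1) < e) : e < x (n+2) := by
  obtain ⟨a, b, c⟩ := hx.nn P n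
  have h := hx.diff P n
  have he := P.he; have he1 := P.e1; have hB := P.hB
  have h4 : 0 < ((1-e)*(x n - e) - e*B*(x (n+1) - e)) := by
    have k1 : 0 ≤ (1-e)*(x n - e) := mul_nonneg (by linarith) (by linarith)
    have k2 : 0 ≤ e*B*(e - x (n+1)) := mul_nonneg (by positivity) (by linarith)
    rcases h3 with h3 | h3
    · have : 0 < (1-e)*(x n - e) := mul_pos (by linarith) (by linarith)
      nlinarith
    · have : 0 < e*B*(e - x (n+1)) := mul_pos (by positivity) (by linarith)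
      nlinarith
  have h5 : 0 < x (n+2) - e := by rw [h]; exact div_pos h4 c
  linarith

lemma IsSol.nwall (P : Par α A B e m M) {x : ℕ → ℝ} (hx : IsSol α A B x) (n : ℕ)
    (h1 : x n ≤ e) (h2 : e ≤ x (n+1)) (h3 : x n < e ∨ e < x (n+1)) (i : ℕ) :
    x (n+2*i+2) < e ∧ e < x (n+2*i+3) := by
  induction i with
  | zero =>
    have k1 := hx.nwstep P n h1 h2 h3
    have k2 := hx.sestep P (n+1) h2 k1.le (Or.inr k1)
    exact ⟨k1, k2⟩
  | succ i ih =>
    obtain ⟨a, b⟩ := ih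
    have k1 := hx.nwstep P (n+2*i+2) a.le b.le (Or.inr b)
    have k2 := hx.sestep P (n+2*i+2+1) b.le k1.le (Or.inr k1)
    have e1 : n + 2*(i+1) + 2 = n+2*i+2+2 := by ring
    have e2 : n + 2*(i+1) + 3 = n+2*i+2+1+2 := by ring
    rw [e1, e2]; exact ⟨k1, k2⟩

lemma IsSol.seall (P : Par α A B e m M) {x : ℕ → ℝ} (hx : IsSol α A B x) (n : ℕ)
    (h1 : e ≤ x n) (h2 : x (n+1) ≤ e) (h3 : e < x n ∨ x (n+1) < e) (i : ℕ) :
    e < x (n+2*i+2) ∧ x (n+2*i+3) < e := by
  induction i with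
  | zero =>
    have k1 := hx.sestep P n h1 h2 h3
    have k2 := hx.nwstep P (n+1) h2 k1.le (Or.inr k1)
    exact ⟨k1, k2⟩
  | succ i ih =>
    obtain ⟨a, b⟩ := ih
    have k1 := hx.sestep P (n+2*i+2) a.le b.le (Or.inr b)
    have k2 := hx.nwstep P (n+2*i+2+1) b.le k1.le (Or.inr k1)
    have e1 : n + 2*(i+1) + 2 = n+2*i+2+2 := by ring
    have e2 : n + 2*(i+1) + 3 = n+2*i+2+1+2 := by ring
    rw [e1, e2]; exact ⟨k1, k2⟩

def Ab (e : ℝ) (x : ℕ → ℝ) : Prop := ∃ k, x (2*k) < e ∧ e < x (2*k+1)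
def Be (e : ℝ) (x : ℕ → ℝ) : Prop := ∃ k, x (2*k+1) < e ∧ e < x (2*k+2)
def WW (e : ℝ) (x : ℕ → ℝ) : Prop := (x 0 = e ∧ x 1 = e) ∨ (∀ n, e < x n) ∨ (∀ n, x n < e)

lemma IsSol.nwAny (P : Par α A B e m M) {x : ℕ → ℝ} (hx : IsSol α A B x) (n : ℕ)
    (h1 : x n ≤ e) (h2 : e ≤ x (n+1)) (h3 : x n < e ∨ e < x (n+1)) :
    (Even n → Ab e x) ∧ (Odd n → Be e x) := by
  obtain ⟨a, b⟩ := hx.nwall P n h1 h2 h3 0
  constructor
  · rintro ⟨k, hk⟩
    refine ⟨k+1, ?_⟩
    have e1 : 2*(k+1) = n + 2*0+2 := by omega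
    have e2 : 2*(k+1)+1 = n + 2*0+3 := by omega
    rw [e2, e1]; exact ⟨a, b⟩
  · rintro ⟨k, hk⟩
    refine ⟨k+1, ?_⟩
    have e1 : 2*(k+1)+1 = n + 2*0+2 := by omega
    have e2 : 2*(k+1)+2 = n + 2*0+3 := by omega
    rw [e2, e1]; exact ⟨a, b⟩

lemma IsSol.seAny (P : Par α A B e m M) {x : ℕ → ℝ} (hx : IsSol α A B x) (n : ℕ)
    (h1 : e ≤ x n) (h2 : x (n+1) ≤ e) (h3 : e < x n ∨ x (n+1) < e) :
    (Odd n → Ab e x) ∧ (Even n → Be e x) := by
  have k1 := hx.sestep P n h1 h2 h3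
  have := hx.nwAny P (n+1) h2 k1.le (Or.inr k1)
  refine ⟨fun h => this.1 ?_, fun h => this.2 ?_⟩
  · exact h.add_one
  · exact h.add_one

lemma IsSol.tri (P : Par α A B e m M) {x : ℕ → ℝ} (hx : IsSol α A B x) :
    WW e x ∨ Ab e x ∨ Be e x := by
  have nw : ∀ n, x n ≤ e → e ≤ x (n+1) → (x n < e ∨ e < x (n+1)) →
      WW e x ∨ Ab e x ∨ Be e x := by
    intro n h1 h2 h3
    obtain ⟨a, b⟩ := hx.nwAny P n h1 h2 h3
    rcases Nat.even_or_odd n with h | h
    · exact Or.inr (Or.inl (a h))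
    · exact Or.inr (Or.inr (b h))
  have se : ∀ n, e ≤ x n → x (n+1) ≤ e → (e < x n ∨ x (n+1) < e) →
      WW e x ∨ Ab e x ∨ Be e x := by
    intro n h1 h2 h3
    obtain ⟨a, b⟩ := hx.seAny P n h1 h2 h3
    rcases Nat.even_or_odd n with h | h
    · exact Or.inr (Or.inr (b h))
    · exact Or.inr (Or.inl (a h))
  rcases lt_trichotomy (x 0) e with h0 | h0 | h0
  · by_cases hall : ∀ n, x n < e
    · exact Or.inl (Or.inr (Or.inr hall))
    · push Not at hall
      classical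
      have hmin := fun (j : ℕ) (h : j < Nat.find hall) => Nat.find_min hall h
      have hsp := Nat.find_spec hall
      obtain ⟨j, hj⟩ : ∃ j, Nat.find hall = j + 1 := by
        refine Nat.exists_eq_succ_of_ne_zero ?_
        intro h; rw [h] at hsp; linarith
      have hj1 : x j < e := by
        have := hmin j (by omega)
        linarith [not_le.mp this]
      rw [hj] at hsp
      exact nw j hj1.le hsp (Or.inl hj1)
  · rcases lt_trichotomy (x 1) e with h1 | h1 | h1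
    · exact se 0 h0.ge h1.le (Or.inr h1)
    · exact Or.inl (Or.inl ⟨h0, h1⟩)
    · exact nw 0 h0.le h1.le (Or.inr h1)
  · by_cases hall : ∀ n, e < x n
    · exact Or.inl (Or.inr (Or.inl hall))
    · push Not at hall
      classical
      have hmin := fun (j : ℕ) (h : j < Nat.find hall) => Nat.find_min hall h
      have hsp := Nat.find_spec hall
      obtain ⟨j, hj⟩ : ∃ j, Nat.find hall = j + 1 := by
        refine Nat.exists_eq_succ_of_ne_zero ?_
        intro h; rw [h] at hsp; linarith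
      have hj1 : e < x j := by
        have := hmin j (by omega)
        linarith [not_le.mp this]
      rw [hj] at hsp
      exact se j hj1.le hsp (Or.inl hj1)

/-- comparison of two solutions in the south-east order -/
lemma cmp (P : Par α A B e m M) {x y : ℕ → ℝ} (hx : IsSol α A B x) (hy : IsSol α A B y)
    (h0 : x 0 ≤ y 0) (h1 : y 1 ≤ x 1)
    (hv : ∀ n, α ≤ A + B * x (n+1) ∨ α ≤ A + B * y (n+1)) :
    ∀ k, x (2*k) ≤ y (2*k) ∧ y (2*k+1) ≤ x (2*k+1) := by
  have hα := P.hα; have hB := P.hB; have hA := P.hA0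
  -- one step
  have step : ∀ a b a' b' : ℝ, 0 ≤ a → 0 ≤ b → 0 ≤ a' → 0 ≤ b' →
      0 < A + B*b + a → 0 < A + B*b'+a' → a ≤ a' → b' ≤ b →
      (α ≤ A + B*b ∨ α ≤ A+B*b') → (α+a)/(A+B*b+a) ≤ (α+a')/(A+B*b'+a') := by
    intro a b a' b' ha hb ha' hb' hd hd' h1 h2 h3
    rw [div_le_div_iff₀ hd hd']
    rcases h3 with h3 | h3
    · have : (α+a')*(A+B*b+a) - (α+a)*(A+B*b'+a') = B*(α+a)*(b-b') + (A+B*b-α)*(a'-a) := by
        ring
      have k1 : 0 ≤ B*(α+a)*(b-b') := mul_nonneg (by positivity) (by linarith)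
      have k2 : 0 ≤ (A+B*b-α)*(a'-a) := mul_nonneg (by linarith) (by linarith)
      linarith
    · have : (α+a')*(A+B*b+a) - (α+a)*(A+B*b'+a') = B*(α+a')*(b-b') + (A+B*b'-α)*(a'-a) := by
        ring
      have k1 : 0 ≤ B*(α+a')*(b-b') := mul_nonneg (by positivity) (by linarith)
      have k2 : 0 ≤ (A+B*b'-α)*(a'-a) := mul_nonneg (by linarith) (by linarith)
      linarith
  intro k
  induction k with
  | zero => exact ⟨h0, h1⟩
  | succ k ih =>
    obtain ⟨i1, i2⟩ := ih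
    obtain ⟨a1, a2, a3⟩ := hx.nn P (2*k)
    obtain ⟨b1, b2, b3⟩ := hy.nn P (2*k)
    obtain ⟨a4, a5, a6⟩ := hx.nn P (2*k+1)
    obtain ⟨b4, b5, b6⟩ := hy.nn P (2*k+1)
    have k1 : x (2*k+2) ≤ y (2*k+2) := by
      rw [hx.hr (2*k), hy.hr (2*k)]
      exact step _ _ _ _ a1 a2 b1 b2 a3 b3 i1 i2 (hv (2*k))
    have k2 : y (2*k+1+2) ≤ x (2*k+1+2) := by
      rw [hx.hr (2*k+1), hy.hr (2*k+1)]
      exact step _ _ _ _ b4 b5 a4 a5 b6 a6 i2 k1 (hv (2*k+1)).symm
    have e1 : 2*(k+1) = 2*k+2 := by ring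
    have e2 : 2*(k+1)+1 = 2*k+1+2 := by ring
    rw [e2, e1]; exact ⟨k1, k2⟩

/-- fixed points of the second iterate -/
lemma fix (P : Par α A B e m M) {a b : ℝ} (ha : α + a*(1-A-a-B*b) = 0)
    (hb : α + b*(1-A-b-B*a) = 0) : a = b ∨ (a = m ∧ b = M) ∨ (a = M ∧ b = m) := by
  have hs := P.hs; have hp := P.hp; have hB := P.hB
  have h1 : (a-b)*(1-A-(a+b)) = 0 := by linear_combination ha - hb
  rcases mul_eq_zero.mp h1 with h | h
  · left; linarith
  · right
    have h2 : b = 1 - A - a := by linarith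
    have h3 : (B-1)*((a-m)*(a-M)) = 0 := by
      rw [h2] at ha
      have hM : M = 1 - A - m := by linarith
      rw [hM] at hp ⊢
      linear_combination ha + hp
    rcases mul_eq_zero.mp h3 with h4 | h4
    · linarith
    · rcases mul_eq_zero.mp h4 with h5 | h5
      · left; constructor <;> linarith
      · right; constructor <;> linarith

/-- equation satisfied by a limit point -/
lemma limeq (P : Par α A B e m M) {x : ℕ → ℝ} (hx : IsSol α A B x) {a b : ℝ}
    (ha : Tendsto (fun k => x (2*k)) atTop (𝓝 a))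
    (hb : Tendsto (fun k => x (2*k+1)) atTop (𝓝 b)) :
    α + a*(1-A-a-B*b) = 0 ∧ α + b*(1-A-b-B*a) = 0 := by
  have ha' : Tendsto (fun k => x (2*k+2)) atTop (𝓝 a) := by
    have := ha.comp (tendsto_add_atTop_nat 1)
    refine this.congr (fun k => ?_)
    simp only [Function.comp]; congr 1
  have hb' : Tendsto (fun k => x (2*k+1+2)) atTop (𝓝 b) := by
    have := hb.comp (tendsto_add_atTop_nat 1)
    refine this.congr (fun k => ?_)
    simp only [Function.comp]; congr 1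
  have key : ∀ n, x (n+2) * (A + B*x (n+1) + x n) = α + x n := by
    intro n
    rw [hx.hr n, div_mul_cancel₀ _ (hx.nn P n).2.2.ne']
  constructor
  · have t1 : Tendsto (fun k => x (2*k+2) * (A + B*x (2*k+1) + x (2*k))) atTop
        (𝓝 (a * (A + B*b + a))) :=
      ha'.mul ((tendsto_const_nhds.add (hb.const_mul B)).add ha)
    have t2 : Tendsto (fun k => α + x (2*k)) atTop (𝓝 (α + a)) := tendsto_const_nhds.add ha
    have t3 := tendsto_nhds_unique (t1.congr (fun k => key (2*k))) t2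
    linarith
  · have t1 : Tendsto (fun k => x (2*k+1+2) * (A + B*x (2*k+1+1) + x (2*k+1))) atTop
        (𝓝 (b * (A + B*a + b))) :=
      hb'.mul ((tendsto_const_nhds.add (ha'.const_mul B)).add hb)
    have t2 : Tendsto (fun k => α + x (2*k+1)) atTop (𝓝 (α + b)) := tendsto_const_nhds.add hb
    have t3 := tendsto_nhds_unique (t1.congr (fun k => key (2*k+1))) t2
    linarith

end Pool.Agent.X322.Bt
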