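import Pool.Agent.X322.Bt1

namespace Pool.Agent.X322.Bt
open Filter Topology Set

variable {α A B e m M : ℝ}

noncomputable def sol (α A B u v : ℝ) : ℕ → ℝ
  | 0 => u
  | 1 => v
  | (n+2) => (α + sol α A B u v n)/(A + B * sol α A B u v (n+1) + sol α A B u v n)

lemma sol_is {u v : ℝ} (hu : 0 ≤ u) (hv : 0 ≤ v) (hd : 0 < A + B*v + u) :
    IsSol α A B (sol α A B u v) :=
  ⟨by simpa [sol] using hu, by simpa [sol] using hv, by simpa [sol] using hd,
    fun n => by simp only [sol]⟩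

lemma inv1 (P : Par α A B e m M) {x : ℕ → ℝ} (hx : IsSol α A B x) (n : ℕ) (h : x (n+1) ≤ 1) :
    α ≤ A + B * x (n+2) ∧ x (n+1+2) ≤ 1 := by
  have hα := P.hα; have hB := P.hB; have hA := P.hA0; have hAB := P.AB
  obtain ⟨a, b, c⟩ := hx.nn P n
  obtain ⟨a', b', c'⟩ := hx.nn P (n+1)
  have h1 : α ≤ A + B * x (n+2) := by
    rcases le_or_gt α A with h2 | h2
    · have : 0 ≤ B * x (n+2) := mul_nonneg (by linarith) b'
      linarith
    · have h3 : x (n+2) * (A + B*x (n+1) + x n) = α + x n := by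
        rw [hx.hr n, div_mul_cancel₀ _ c.ne']
      have h4 : 0 ≤ (A + B*x (n+2) - α) * (A + B*x (n+1) + x n) := by
        have e1 : (A + B*x (n+2) - α) * (A + B*x (n+1) + x n)
            = B*(α + x n) - (α - A)*(A + B*x (n+1) + x n) := by
          linear_combination B*h3
        rw [e1]
        have k1 : (α-A)*(A+B*x (n+1) + x n) ≤ (α-A)*(A+B+x n) := by
          apply mul_le_mul_of_nonneg_left _ (by linarith)
          nlinarith
        have k2 : 0 ≤ A*(A+B-α) := mul_nonneg hA (by linarith)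
        have k3 : 0 ≤ (B - (α - A)) * x n := mul_nonneg (by linarith) a
        nlinarith
      have h5 := nonneg_of_mul_nonneg_left h4 c
      linarith
  refine ⟨h1, ?_⟩
  rw [hx.hr (n+1), div_le_one c']
  have e2 : x (n+1+1) = x (n+2) := rfl
  rw [e2]; linarith

lemma drop (P : Par α A B e m M) {a b a' b' : ℝ} (ha : 0 ≤ a) (hb : 1 ≤ b)
    (hD : 0 < A + B*b + a) (hD' : 0 < A + B*a' + b)
    (h1 : a' = (α+a)/(A+B*b+a)) (h2 : b' = (α+b)/(A+B*a'+b)) :
    (A+a)*(A+B-α) ≤ (b-b')*((A+B*b+a)*(A+B*a'+b)) := by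
  have hα := P.hα; have hB := P.hB; have hA := P.hA0; have hAB := P.AB
  have k1 : a'*(A+B*b+a) = α + a := by rw [h1, div_mul_cancel₀ _ hD.ne']
  have k2 : b'*(A+B*a'+b) = α + b := by rw [h2, div_mul_cancel₀ _ hD'.ne']
  have k3 : (b-b')*((A+B*b+a)*(A+B*a'+b)) = (A+B*b+a)*(b*(A+B*a'+b) - (α+b)) := by
    linear_combination -(A+B*b+a)*k2
  have k4 : (A+B*b+a)*(b*(A+B*a'+b) - (α+b)) =
      (A+B*b+a)*(b*(A+b) - (α+b)) + B*b*(α+a) := by
    linear_combination B*b*k1
  rw [k3, k4]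
  have k5 : (A+B*b+a)*(b*(A+b) - (α+b)) + B*b*(α+a) - (A+a)*(A+B-α) =
      b*(b-1)*(A+B*b+a) + A^2*(b-1) + A*B*(b^2-1) + A*a*(b-1) + B*a*(b-1) := by ring
  have k6 : 0 ≤ b*(b-1)*(A+B*b+a) + A^2*(b-1) + A*B*(b^2-1) + A*a*(b-1) + B*a*(b-1) := by
    have q1 : 0 ≤ b-1 := by linarith
    have q2 : 0 ≤ b^2-1 := by nlinarith
    have q0 : 0 ≤ b := by linarith
    have qB : 0 ≤ B := by linarith
    positivity
  linarith

lemma evb (P : Par α A B e m M) {x : ℕ → ℝ} (hx : IsSol α A B x)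
    (hn : ∀ k, x (2*k) ≤ e) : ∃ k, x (2*k+1) ≤ 1 := by
  have hα := P.hα; have hB := P.hB; have hA := P.hA0; have hAB := P.AB; have he := P.he
  by_contra hcon
  push Not at hcon
  have hr1 : ∀ k, (A+x (2*k))*(A+B-α) ≤
      (x (2*k+1) - x (2*k+1+2))*((A+B*x (2*k+1) + x (2*k))*(A+B*x (2*k+2)+x (2*k+1))) := by
    intro k
    obtain ⟨a, b, c⟩ := hx.nn P (2*k)
    obtain ⟨a', b', c'⟩ := hx.nn P (2*k+1)
    exact drop P a (hcon k).le c c' (hx.hr (2*k)) (hx.hr (2*k+1))
  have hdec : ∀ k, x (2*k+1+2) ≤ x (2*k+1) := by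
    intro k
    obtain ⟨a, b, c⟩ := hx.nn P (2*k)
    obtain ⟨a', b', c'⟩ := hx.nn P (2*k+1)
    have h1 := hr1 k
    have h2 : 0 ≤ (A+x (2*k))*(A+B-α) := mul_nonneg (by linarith) (by linarith)
    have h3 : 0 < (A+B*x (2*k+1) + x (2*k))*(A+B*x (2*k+2)+x (2*k+1)) := mul_pos c c'
    have h4 := nonneg_of_mul_nonneg_left (h2.trans h1) h3
    linarith
  have hb0 : ∀ k, x (2*k+1) ≤ x 1 := by
    intro k
    induction k with
    | zero => exact le_refl _
    | succ k ih =>
      have e1 : 2*(k+1)+1 = 2*k+1+2 := by ring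
      rw [e1]; exact (hdec k).trans ih
  have hx1 : 1 < x 1 := hcon 0
  set K1 := A + B*x 1 + e with hK1
  set K2 := A + B*e + x 1 with hK2
  have hK1p : 0 < K1 := by positivity
  have hK2p : 0 < K2 := by positivity
  set c := (α/K1)*(A+B-α)/(K1*K2) with hc
  have hcp : 0 < c := by
    apply div_pos (mul_pos (div_pos hα hK1p) (by linarith)) (mul_pos hK1p hK2p)
  have hstep : ∀ k, x (2*(k+1)+1+2) ≤ x (2*(k+1)+1) - c := by
    intro k
    obtain ⟨a0, b0, c0⟩ := hx.nn P (2*k)
    obtain ⟨a, b, c1⟩ := hx.nn P (2*(k+1))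
    obtain ⟨a', b', c1'⟩ := hx.nn P (2*(k+1)+1)
    have h1 := hr1 (k+1)
    have ea : 2*(k+1) = 2*k+2 := by ring
    have h2 : α/K1 ≤ x (2*(k+1)) := by
      rw [ea, hx.hr (2*k)]
      apply div_le_div₀ (by linarith) (by linarith) c0
      have := hb0 k; have := hn k
      have : B*x (2*k+1) ≤ B*x 1 := mul_le_mul_of_nonneg_left (hb0 k) (by linarith)
      rw [hK1]; linarith [hn k]
    have h3 : (A+B*x (2*(k+1)+1) + x (2*(k+1))) ≤ K1 := by
      have : B*x (2*(k+1)+1) ≤ B*x 1 := mul_le_mul_of_nonneg_left (hb0 (k+1)) (by linarith)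
      rw [hK1]; linarith [hn (k+1)]
    have h4 : (A+B*x (2*(k+1)+2)+x (2*(k+1)+1)) ≤ K2 := by
      have e3 : 2*(k+1)+2 = 2*(k+2) := by ring
      have : B*x (2*(k+1)+2) ≤ B*e := by
        rw [e3]; exact mul_le_mul_of_nonneg_left (hn (k+2)) (by linarith)
      rw [hK2]; linarith [hb0 (k+1)]
    have h5 : (A+B*x (2*(k+1)+1) + x (2*(k+1)))*(A+B*x (2*(k+1)+2)+x (2*(k+1)+1)) ≤ K1*K2 :=
      mul_le_mul h3 h4 c1'.le hK1p.le
    have h6 := hdec (k+1)
    have h7 : (α/K1)*(A+B-α) ≤ (x (2*(k+1)+1) - x (2*(k+1)+1+2))*(K1*K2) := by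
      calc (α/K1)*(A+B-α) ≤ (A+x (2*(k+1)))*(A+B-α) := by
            apply mul_le_mul_of_nonneg_right _ (by linarith)
            linarith
        _ ≤ _ := h1
        _ ≤ _ := mul_le_mul_of_nonneg_left h5 (by linarith)
    have h8 : c ≤ x (2*(k+1)+1) - x (2*(k+1)+1+2) := by
      rw [hc, div_le_iff₀ (mul_pos hK1p hK2p)]; exact h7
    linarith
  have hlin : ∀ k : ℕ, x (2*(k+1)+1) ≤ x 1 - k*c := by
    intro k
    induction k with
    | zero => simpa using hb0 1
    | succ k ih =>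
      have e1 : 2*(k+1+1)+1 = 2*(k+1)+1+2 := by ring
      rw [e1]
      have := hstep k
      push_cast
      linarith
  obtain ⟨k, hk⟩ := exists_nat_gt (x 1 / c)
  rw [div_lt_iff₀ hcp] at hk
  have h1 := hlin k
  have h2 := hcon (k+1)
  linarith

lemma evod {x : ℕ → ℝ} {l : ℝ} (h0 : Tendsto (fun k => x (2*k)) atTop (𝓝 l))
    (h1 : Tendsto (fun k => x (2*k+1)) atTop (𝓝 l)) : Tendsto x atTop (𝓝 l) := by
  rw [Metric.tendsto_atTop] at *
  intro ε hε
  obtain ⟨N0, hN0⟩ := h0 ε hε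
  obtain ⟨N1, hN1⟩ := h1 ε hε
  refine ⟨2*(N0+N1)+1, fun n hn => ?_⟩
  obtain ⟨k, hk | hk⟩ := Nat.even_or_odd' n
  · rw [hk]; exact hN0 k (by omega)
  · rw [hk]; exact hN1 k (by omega)

lemma cyc (P : Par α A B e m M) (k : ℕ) :
    sol α A B m M (2*k) = m ∧ sol α A B m M (2*k+1) = M := by
  have hα := P.hα; have hB := P.hB; have hA := P.hA0; have hs := P.hs; have hp := P.hp
  have hm := P.hm; have hM : 0 < M := by linarith [P.hme, P.heM]
  have f1 : (α + m)/(A+B*M+m) = m := by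
    rw [div_eq_iff (by positivity)]
    have hA' : A = 1 - m - M := by linarith
    rw [← hp, hA']; ring
  have f2 : (α + M)/(A+B*m+M) = M := by
    rw [div_eq_iff (by positivity)]
    have hA' : A = 1 - m - M := by linarith
    rw [← hp, hA']; ring
  induction k with
  | zero => exact ⟨rfl, rfl⟩
  | succ k ih =>
    obtain ⟨i1, i2⟩ := ih
    have hw : IsSol α A B (sol α A B m M) := sol_is hm.le hM.le (by positivity)
    have k1 : sol α A B m M (2*k+2) = m := by
      rw [hw.hr (2*k), i1, i2]; exact f1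
    have k2 : sol α A B m M (2*k+1+2) = M := by
      have h3 : sol α A B m M (2*k+1+1) = m := k1
      rw [hw.hr (2*k+1), h3, i2]; exact f2
    have e1 : 2*(k+1) = 2*k+2 := by ring
    have e2 : 2*(k+1)+1 = 2*k+1+2 := by ring
    rw [e2, e1]; exact ⟨k1, k2⟩

lemma cycm (P : Par α A B e m M) (n : ℕ) : m ≤ sol α A B m M n := by
  have h := P.hme; have h2 := P.heM
  obtain ⟨k, hk | hk⟩ := Nat.even_or_odd' n
  · rw [hk, (cyc P k).1]
  · rw [hk, (cyc P k).2]; linarith

lemma mulv (P : Par α A B e m M) {t : ℝ} (h : m ≤ t) : α ≤ A + B*t := by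
  have := P.mv; have hB := P.hB
  nlinarith

lemma posfac (P : Par α A B e m M) : 1 - A < (1+B)*e := by
  have h := P.hee; have he := P.he; have hα := P.hα
  by_contra hc
  push Not at hc
  have : ((1+B)*e)*e ≤ (1-A)*e := mul_le_mul_of_nonneg_right hc he.le
  nlinarith

/-- convergence in the north-west quadrant below height one -/
lemma convA' (P : Par α A B e m M) {x : ℕ → ℝ} (hx : IsSol α A B x)
    (h0 : x 0 < e) (h1 : e < x 1) (h1' : x 1 ≤ 1) :
    Tendsto (fun k => x (2*k)) atTop (𝓝 m) ∧ Tendsto (fun k => x (2*k+1)) atTop (𝓝 M) := by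
  have hα := P.hα; have hB := P.hB; have hA := P.hA0; have hs := P.hs; have hp := P.hp
  have he := P.he; have hee := P.hee; have he1 := P.e1; have hM1 := P.M1
  have hm := P.hm; have hme := P.hme; have heM := P.heM
  have hM : 0 < M := by linarith
  have hw : IsSol α A B (sol α A B m M) := sol_is hm.le hM.le (by positivity)
  have hwc := cyc P
  have hwm := cycm P
  -- the lower solution
  set y := sol α A B 0 1 with hy
  have hyS : IsSol α A B y := sol_is le_rfl (by norm_num) (by linarith)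
  have hy0 : y 0 = 0 := rfl
  have hy1 : y 1 = 1 := rfl
  have hyb : ∀ k, y (2*k+1) ≤ 1 ∧ α ≤ A + B * y (2*k+2) := by
    intro k
    induction k with
    | zero => exact ⟨hy1.le, (inv1 P hyS 0 hy1.le).1⟩
    | succ k ih =>
      have q := (inv1 P hyS (2*k) ih.1).2
      have e1 : 2*(k+1)+1 = 2*k+1+2 := by ring
      have e2 : 2*(k+1)+2 = 2*k+2+2 := by ring
      refine ⟨by rw [e1]; exact q, ?_⟩
      have := (inv1 P hyS (2*k+2) (by simpa using q)).1
      rw [e2]; exact this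
  have hyo : ∀ k, e < y (2*k+1) := by
    intro k
    cases k with
    | zero => simpa [hy1] using he1
    | succ k =>
      have := (hyS.nwall P 0 (by rw [hy0]; exact he.le) (by rw [hy1]; exact he1.le)
        (Or.inl (by rw [hy0]; exact he)) k).2
      have e1 : 2*(k+1)+1 = 0 + 2*k+3 := by ring
      rw [e1]; exact this
  have hyv : ∀ n, α ≤ A + B*y (n+1) := by
    intro n
    obtain ⟨k, hk | hk⟩ := Nat.even_or_odd' n
    · rw [hk]; exact mulv P (hme.le.trans (hyo k).le)
    · rw [hk]; exact (hyb k).2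
  have cyx := cmp P hyS hx (by rw [hy0]; exact hx.h0) (by rw [hy1]; exact h1')
    (fun n => Or.inl (hyv n))
  have cyy := cmp P hyS (hyS.shift P 2) (by rw [hy0]; exact (hyS.nn P 2).1)
    (by rw [hy1]; exact (inv1 P hyS 0 hy1.le).2) (fun n => Or.inl (hyv n))
  have cyw := cmp P hyS hw (by rw [hy0]; exact hm.le) (by rw [hy1]; exact hM1.le)
    (fun n => Or.inl (hyv n))
  have hyt : Tendsto (fun k => y (2*k)) atTop (𝓝 m) ∧ Tendsto (fun k => y (2*k+1)) atTop (𝓝 M) := by
    have mon : Monotone (fun k => y (2*k)) := monotone_nat_of_le_succ (fun k => by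
      have := (cyy k).1
      have e1 : 2*(k+1) = 2*k+2 := by ring
      simp only [e1]; exact this)
    have ant : Antitone (fun k => y (2*k+1)) := antitone_nat_of_succ_le (fun k => by
      have := (cyy k).2
      have e1 : 2*(k+1)+1 = 2*k+1+2 := by ring
      simp only [e1]; exact this)
    have bda : BddAbove (range (fun k => y (2*k))) := ⟨m, by
      rintro _ ⟨k, rfl⟩; have := (cyw k).1; rw [(hwc k).1] at this; exact this⟩
    have bdb : BddBelow (range (fun k => y (2*k+1))) := ⟨M, by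
      rintro _ ⟨k, rfl⟩; have := (cyw k).2; rw [(hwc k).2] at this; exact this⟩
    have ta := tendsto_atTop_ciSup mon bda
    have tb := tendsto_atTop_ciInf ant bdb
    obtain ⟨f1, f2⟩ := limeq P hyS ta tb
    have la : (⨆ k, y (2*k)) ≤ m := le_of_tendsto' ta (fun k => by
      have := (cyw k).1; rw [(hwc k).1] at this; exact this)
    have lb : M ≤ ⨅ k, y (2*k+1) := ge_of_tendsto' tb (fun k => by
      have := (cyw k).2; rw [(hwc k).2] at this; exact this)
    rcases fix P f1 f2 with h | ⟨h, h'⟩ | ⟨h, h'⟩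
    · exfalso; linarith
    · rw [h] at ta; rw [h'] at tb; exact ⟨ta, tb⟩
    · exfalso; linarith
  -- the upper solution
  obtain ⟨p, hpa, hpm, hpe, hpF⟩ : ∃ p, x 0 ≤ p ∧ m < p ∧ p < e ∧
      0 < p^2 + (B*x 1 - (1-A))*p - α := by
    have c1 : ∀ᶠ p in 𝓝[<] e, p ∈ Ioo (max (x 0) m) e :=
      Ioo_mem_nhdsLT (max_lt h0 hme)
    have c2 : ∀ᶠ p in 𝓝[<] e, 0 < p^2 + (B*x 1 - (1-A))*p - α := by
      have hc : Continuous (fun p : ℝ => p^2 + (B*x 1 - (1-A))*p - α) := by fun_prop
      have hv : 0 < e^2 + (B*x 1 - (1-A))*e - α := by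
        have : e^2 + (B*x 1 - (1-A))*e - α = B*e*(x 1 - e) := by linear_combination hee
        rw [this]; exact mul_pos (by positivity) (by linarith)
      have := hc.continuousAt (x := e)
      exact (this.eventually (lt_mem_nhds hv)).filter_mono nhdsWithin_le_nhds
    obtain ⟨p, hp1, hp2⟩ := (c1.and c2).exists
    exact ⟨p, (le_max_left _ _).trans hp1.1.le, (le_max_right _ _).trans_lt hp1.1, hp1.2, hp2⟩
  have hp0 : 0 < p := by linarith
  set q := (α/p + 1 - A - p)/B with hq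
  have hqe : α + p*(1-A-p-B*q) = 0 := by
    rw [hq]; field_simp; ring
  have hqx : q ≤ x 1 := by
    by_contra hc
    push Not at hc
    have : 0 < B*p*(q - x 1) := mul_pos (by positivity) (by linarith)
    nlinarith
  have hq2 : e < q := by
    by_contra hc
    push Not at hc
    have k1 : 0 ≤ B*p*(e-q) := mul_nonneg (by positivity) (by linarith)
    have k2 : 0 < (e-p)*((1+B)*e + p - (1-A)) :=
      mul_pos (by linarith) (by have := posfac P; linarith)
    nlinarith
  have hpq : p + q ≤ 1 - A := by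
    have k1 : 0 < (B-1)*((p-m)*(M-p)) :=
      mul_pos (by linarith) (mul_pos (by linarith) (by linarith))
    have k2 : B*p*(1-A-p-q) = (B-1)*((p-m)*(M-p)) := by
      have hM' : M = 1 - A - m := by linarith
      rw [hM'] at hp ⊢
      linear_combination hqe + hp
    have k3 : 0 < B*p*(1-A-p-q) := by rw [k2]; exact k1
    have k4 := (mul_pos_iff_of_pos_left (by positivity : 0 < B*p)).mp k3
    linarith
  set z := sol α A B p q with hz
  have hq0 : 0 < q := by linarith
  have hzS : IsSol α A B z := sol_is hp0.le hq0.le (by positivity)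
  have hz0 : z 0 = p := rfl
  have hz1 : z 1 = q := rfl
  have czw := cmp P hw hzS (by rw [hz0]; exact hpm.le) (by rw [hz1]; show q ≤ M; linarith)
    (fun n => Or.inl (mulv P (hwm (n+1))))
  have hzo : ∀ k, e < z (2*k+1) := by
    intro k
    cases k with
    | zero => simpa [hz1] using hq2
    | succ k =>
      have := (hzS.nwall P 0 (by rw [hz0]; exact hpe.le) (by rw [hz1]; exact hq2.le)
        (Or.inl (by rw [hz0]; exact hpe)) k).2
      have e1 : 2*(k+1)+1 = 0 + 2*k+3 := by ring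
      rw [e1]; exact this
  have hzm : ∀ n, m ≤ z n := by
    intro n
    obtain ⟨k, hk | hk⟩ := Nat.even_or_odd' n
    · rw [hk]; have := (czw k).1; rw [(hwc k).1] at this; exact this
    · rw [hk]; exact (hme.trans (hzo k)).le
  have hzv : ∀ n, α ≤ A + B*z (n+1) := fun n => mulv P (hzm (n+1))
  have cxz := cmp P hx hzS (by rw [hz0]; exact hpa) (by rw [hz1]; exact hqx)
    (fun n => Or.inr (hzv n))
  have hz2 : z 2 = p := by
    rw [hzS.hr 0, hz0]
    show (α+p)/(A+B*q+p) = p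
    rw [div_eq_iff (by positivity)]; linarith
  have hz3 : q ≤ z 3 := by
    rw [hzS.hr 1]
    show z 1 ≤ (α + z 1)/(A + B*z 2 + z 1)
    rw [hz1, hz2, le_div_iff₀ (by positivity)]
    have : 0 ≤ (q-p)*((1-A)-(p+q)) := mul_nonneg (by linarith) (by linarith)
    nlinarith
  have czz := cmp P (hzS.shift P 2) hzS (by show z 2 ≤ z 0; rw [hz2, hz0])
    (by show z 1 ≤ z 3; rw [hz1]; exact hz3) (fun n => Or.inr (hzv n))
  have hzt : Tendsto (fun k => z (2*k)) atTop (𝓝 m) ∧ Tendsto (fun k => z (2*k+1)) atTop (𝓝 M) := by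
    have ant : Antitone (fun k => z (2*k)) := antitone_nat_of_succ_le (fun k => by
      have := (czz k).1
      have e1 : 2*(k+1) = 2*k+2 := by ring
      simp only [e1]; exact this)
    have mon : Monotone (fun k => z (2*k+1)) := monotone_nat_of_le_succ (fun k => by
      have := (czz k).2
      have e1 : 2*(k+1)+1 = 2*k+1+2 := by ring
      simp only [e1]; exact this)
    have bdb : BddBelow (range (fun k => z (2*k))) := ⟨m, by
      rintro _ ⟨k, rfl⟩; exact hzm _⟩
    have bda : BddAbove (range (fun k => z (2*k+1))) := ⟨M, by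
      rintro _ ⟨k, rfl⟩; have := (czw k).2; rw [(hwc k).2] at this; exact this⟩
    have ta := tendsto_atTop_ciInf ant bdb
    have tb := tendsto_atTop_ciSup mon bda
    obtain ⟨f1, f2⟩ := limeq P hzS ta tb
    have la : (⨅ k, z (2*k)) ≤ p := le_of_tendsto' ta (fun k => ant (Nat.zero_le k))
    have lb : q ≤ ⨆ k, z (2*k+1) := ge_of_tendsto' tb (fun k => mon (Nat.zero_le k))
    rcases fix P f1 f2 with h | ⟨h, h'⟩ | ⟨h, h'⟩
    · exfalso; linarith
    · rw [h] at ta; rw [h'] at tb; exact ⟨ta, tb⟩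
    · exfalso; linarith
  exact ⟨tendsto_of_tendsto_of_tendsto_of_le_of_le hyt.1 hzt.1 (fun k => (cyx k).1)
      (fun k => (cxz k).1),
    tendsto_of_tendsto_of_tendsto_of_le_of_le hzt.2 hyt.2 (fun k => (cxz k).2)
      (fun k => (cyx k).2)⟩

end Pool.Agent.X322.Bt
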