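import Pool.Agent.X322.Bt2

namespace Pool.Agent.X322.Bt
open Filter Topology Set

variable {α A B e m M : ℝ}

lemma convA (P : Par α A B e m M) {x : ℕ → ℝ} (hx : IsSol α A B x) (h : Ab e x) :
    Tendsto (fun k => x (2*k)) atTop (𝓝 m) ∧ Tendsto (fun k => x (2*k+1)) atTop (𝓝 M) := by
  obtain ⟨k0, h0, h1⟩ := h
  have hall : ∀ k, x (2*(k0+k)) < e ∧ e < x (2*(k0+k)+1) := by
    intro k
    cases k with
    | zero => exact ⟨h0, h1⟩
    | succ k =>
      have := hx.nwall P (2*k0) h0.le h1.le (Or.inl h0) k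
      have e1 : 2*(k0+(k+1)) = 2*k0+2*k+2 := by ring
      have e2 : 2*(k0+(k+1))+1 = 2*k0+2*k+3 := by ring
      rw [e2, e1]; exact this
  obtain ⟨j, hj⟩ := evb P (hx.shift P (2*k0)) (fun k => by
    have := (hall k).1
    have e1 : 2*k + 2*k0 = 2*(k0+k) := by ring
    simp only [e1]; exact this.le)
  have hj' : x (2*(k0+j)+1) ≤ 1 := by
    have e1 : 2*(k0+j)+1 = 2*j+1+2*k0 := by ring
    rw [e1]; exact hj
  have hc := convA' P (hx.shift P (2*(k0+j))) (by simpa using (hall j).1)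
    (by simpa [add_comm] using (hall j).2) (by simpa [add_comm] using hj')
  constructor
  · rw [← tendsto_add_atTop_iff_nat (k0+j)]
    refine hc.1.congr (fun k => ?_)
    congr 1; ring
  · rw [← tendsto_add_atTop_iff_nat (k0+j)]
    refine hc.2.congr (fun k => ?_)
    congr 1; ring

lemma convB (P : Par α A B e m M) {x : ℕ → ℝ} (hx : IsSol α A B x) (h : Be e x) :
    Tendsto (fun k => x (2*k)) atTop (𝓝 M) ∧ Tendsto (fun k => x (2*k+1)) atTop (𝓝 m) := by
  obtain ⟨k, h1, h2⟩ := h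
  have := convA P (hx.shift P 1) ⟨k, h1, h2⟩
  refine ⟨?_, this.1⟩
  rw [← tendsto_add_atTop_iff_nat 1]
  refine this.2.congr (fun k => ?_)
  congr 1

lemma wconst (P : Par α A B e m M) {x : ℕ → ℝ} (hx : IsSol α A B x) (h0 : x 0 = e)
    (h1 : x 1 = e) : ∀ n, x n = e ∧ x (n+1) = e := by
  intro n
  induction n with
  | zero => exact ⟨h0, h1⟩
  | succ n ih =>
    refine ⟨ih.2, ?_⟩
    have := hx.diff P n
    rw [ih.1, ih.2] at this
    simp at this
    have e1 : n + 1 + 1 = n + 2 := rfl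
    rw [e1]; linarith

lemma stepd (P : Par α A B e m M) {x : ℕ → ℝ} (hx : IsSol α A B x) (n : ℕ) :
    (x (n+2) - x n)*(A+B*x (n+1)+x n) = (x n - e)*(1-A-x n-(1+B)*e) - B*x n*(x (n+1) - e) := by
  have h1 : x (n+2) * (A + B*x (n+1) + x n) = α + x n := by
    rw [hx.hr n, div_mul_cancel₀ _ (hx.nn P n).2.2.ne']
  have := P.hee
  linear_combination h1 - this

lemma convW (P : Par α A B e m M) {x : ℕ → ℝ} (hx : IsSol α A B x) (h : WW e x) :
    Tendsto x atTop (𝓝 e) := by
  have he := P.he; have hB := P.hB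
  have hpf := posfac P
  have fin : ∀ a b : ℝ, 0 ≤ a → 0 ≤ b → α + a*(1-A-a-B*b) = 0 → α + b*(1-A-b-B*a) = 0 →
      ((e ≤ a ∧ e ≤ b) ∨ (a ≤ e ∧ b ≤ e)) → a = e ∧ b = e := by
    intro a b ha hb f1 f2 h
    have h3 : a = b := by
      have := P.hme; have := P.heM
      rcases fix P f1 f2 with h4 | ⟨h4, h5⟩ | ⟨h4, h5⟩
      · exact h4
      · exfalso; rcases h with ⟨q1, q2⟩ | ⟨q1, q2⟩ <;> linarith
      · exfalso; rcases h with ⟨q1, q2⟩ | ⟨q1, q2⟩ <;> linarith
    subst h3
    have h4 : (a - e)*((1+B)*(a+e) - (1-A)) = 0 := by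
      have := P.hee
      linear_combination -f1 - this
    rcases mul_eq_zero.mp h4 with h5 | h5
    · have : a = e := by linarith
      exact ⟨this, this⟩
    · exfalso
      have : 0 ≤ (1+B)*a := mul_nonneg (by linarith) ha
      nlinarith
  rcases h with ⟨h0, h1⟩ | h | h
  · have := wconst P hx h0 h1
    have h2 : x = fun _ => e := funext (fun n => (this n).1)
    rw [h2]; exact tendsto_const_nhds
  · have hd : ∀ n, x (n+2) ≤ x n := by
      intro n
      obtain ⟨a, b, c⟩ := hx.nn P n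
      have h1 := stepd P hx n
      have h2 : 0 < (x n - e)*((1+B)*e + x n - (1-A)) :=
        mul_pos (by linarith [h n]) (by linarith [h n])
      have h3 : 0 ≤ B*x n*(x (n+1) - e) :=
        mul_nonneg (mul_nonneg (by linarith) a) (by linarith [h (n+1)])
      by_contra hc
      push Not at hc
      have : 0 < (x (n+2) - x n)*(A+B*x (n+1)+x n) := mul_pos (by linarith) c
      nlinarith
    have ant1 : Antitone (fun k => x (2*k)) := antitone_nat_of_succ_le (fun k => by
      have := hd (2*k)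
      have e1 : 2*(k+1) = 2*k+2 := by ring
      simp only [e1]; exact this)
    have ant2 : Antitone (fun k => x (2*k+1)) := antitone_nat_of_succ_le (fun k => by
      have := hd (2*k+1)
      have e1 : 2*(k+1)+1 = 2*k+1+2 := by ring
      simp only [e1]; exact this)
    have b1 : BddBelow (range (fun k => x (2*k))) := ⟨e, by rintro _ ⟨k, rfl⟩; exact (h _).le⟩
    have b2 : BddBelow (range (fun k => x (2*k+1))) := ⟨e, by rintro _ ⟨k, rfl⟩; exact (h _).le⟩
    have ta := tendsto_atTop_ciInf ant1 b1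
    have tb := tendsto_atTop_ciInf ant2 b2
    obtain ⟨f1, f2⟩ := limeq P hx ta tb
    have la : e ≤ (⨅ k, x (2*k)) := ge_of_tendsto' ta (fun k => (h _).le)
    have lb : e ≤ ⨅ k, x (2*k+1) := ge_of_tendsto' tb (fun k => (h _).le)
    obtain ⟨q1, q2⟩ := fin _ _ (he.le.trans la) (he.le.trans lb) f1 f2 (Or.inl ⟨la, lb⟩)
    rw [q1] at ta; rw [q2] at tb
    exact evod ta tb
  · have hd : ∀ n, x n ≤ x (n+2) := by
      intro n
      obtain ⟨a, b, c⟩ := hx.nn P n
      have h1 := stepd P hx n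
      have h2 : 0 < (e - x n)*((1+B)*e + x n - (1-A)) :=
        mul_pos (by linarith [h n]) (by linarith [h n])
      have h3 : 0 ≤ B*x n*(e - x (n+1)) :=
        mul_nonneg (mul_nonneg (by linarith) a) (by linarith [h (n+1)])
      by_contra hc
      push Not at hc
      have : 0 < (x n - x (n+2))*(A+B*x (n+1)+x n) := mul_pos (by linarith) c
      nlinarith
    have ant1 : Monotone (fun k => x (2*k)) := monotone_nat_of_le_succ (fun k => by
      have := hd (2*k)
      have e1 : 2*(k+1) = 2*k+2 := by ring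
      simp only [e1]; exact this)
    have ant2 : Monotone (fun k => x (2*k+1)) := monotone_nat_of_le_succ (fun k => by
      have := hd (2*k+1)
      have e1 : 2*(k+1)+1 = 2*k+1+2 := by ring
      simp only [e1]; exact this)
    have b1 : BddAbove (range (fun k => x (2*k))) := ⟨e, by rintro _ ⟨k, rfl⟩; exact (h _).le⟩
    have b2 : BddAbove (range (fun k => x (2*k+1))) := ⟨e, by rintro _ ⟨k, rfl⟩; exact (h _).le⟩
    have ta := tendsto_atTop_ciSup ant1 b1
    have tb := tendsto_atTop_ciSup ant2 b2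
    obtain ⟨f1, f2⟩ := limeq P hx ta tb
    have la : (⨆ k, x (2*k)) ≤ e := le_of_tendsto' ta (fun k => (h _).le)
    have lb : (⨆ k, x (2*k+1)) ≤ e := le_of_tendsto' tb (fun k => (h _).le)
    have la0 : 0 ≤ (⨆ k, x (2*k)) := ge_of_tendsto' ta (fun k => (hx.nn P _).1)
    have lb0 : 0 ≤ (⨆ k, x (2*k+1)) := ge_of_tendsto' tb (fun k => (hx.nn P _).1)
    obtain ⟨q1, q2⟩ := fin _ _ la0 lb0 f1 f2 (Or.inr ⟨la, lb⟩)
    rw [q1] at ta; rw [q2] at tb
    exact evod ta tb

lemma wv (P : Par α A B e m M) {x : ℕ → ℝ} (hx : IsSol α A B x) (h : WW e x) (n : ℕ) :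
    α < A + B * x (n+1) := by
  have hB := P.hB; have hev := P.ev
  rcases h with ⟨h0, h1⟩ | h | h
  · rw [(wconst P hx h0 h1 n).2]; exact hev
  · have := h (n+1); nlinarith
  · by_contra hc
    push Not at hc
    obtain ⟨a, b, c⟩ := hx.nn P n
    have h2 : 1 ≤ x (n+2) := by
      rw [hx.hr n, le_div_iff₀ c]; linarith
    have := h (n+2); have := P.e1
    linarith

lemma anti (P : Par α A B e m M) {x y : ℕ → ℝ} (hx : IsSol α A B x) (hy : IsSol α A B y)
    (wx : WW e x) (wy : WW e y) (h0 : x 0 ≤ y 0) (h1 : y 1 ≤ x 1) :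
    x 0 = y 0 ∧ x 1 = y 1 := by
  have hα := P.hα; have hB := P.hB; have hA := P.hA0; have he := P.he; have he2 := P.he2
  have tx := convW P hx wx
  have ty := convW P hy wy
  set D : ℕ → ℝ := fun n => (A+B*x (n+1)+x n)*(A+B*y (n+1)+y n) with hD
  have hDp : ∀ n, 0 < D n := fun n => mul_pos (hx.nn P n).2.2 (hy.nn P n).2.2
  set c1 : ℕ → ℝ := fun n => B*(α+y n)/D n with hc1
  set c2 : ℕ → ℝ := fun n => (A+B*y (n+1) - α)/D n with hc2
  have c1p : ∀ n, 0 < c1 n := fun n => by
    have := (hy.nn P n).1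
    exact div_pos (by positivity) (hDp n)
  have c2p : ∀ n, 0 < c2 n := fun n => div_pos (by linarith [wv P hy wy n]) (hDp n)
  set d : ℕ → ℝ := fun n => (-1)^n*(y n - x n) with hd
  have hrec : ∀ n, d (n+2) = c1 n * d (n+1) + c2 n * d n := by
    intro n
    have k1 := (hx.nn P n).2.2.ne'
    have k2 := (hy.nn P n).2.2.ne'
    have key : y (n+2) - x (n+2) = c1 n * (x (n+1) - y (n+1)) + c2 n * (y n - x n) := by
      simp only [hc1, hc2, hD]
      rw [hx.hr n, hy.hr n]
      field_simp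
      ring
    simp only [hd]
    rw [key]; ring
  have hd0 : 0 ≤ d 0 := by simp only [hd]; simp; exact h0
  have hd1 : 0 ≤ d 1 := by simp only [hd]; simp; exact h1
  by_contra hne
  have hpos : 0 < d 0 ∨ 0 < d 1 := by
    by_contra hcon
    push Not at hcon
    obtain ⟨q1, q2⟩ := hcon
    simp only [hd] at q1 q2
    simp at q1 q2
    exact hne ⟨le_antisymm h0 q1, le_antisymm q2 h1⟩
  have hd2 : 0 < d 2 := by
    rw [hrec 0]
    have := c1p 0; have := c2p 0
    rcases hpos with h | h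
    · have : 0 < c2 0 * d 0 := by positivity
      have : 0 ≤ c1 0 * d (0+1) := mul_nonneg (by linarith) hd1
      linarith
    · have : 0 < c1 0 * d (0+1) := mul_pos (by linarith) h
      have : 0 ≤ c2 0 * d 0 := by positivity
      linarith
  have hd3 : 0 < d 3 := by
    rw [hrec 1]
    have := c1p 1; have := c2p 1
    have : 0 < c1 1 * d (1+1) := mul_pos (by linarith) hd2
    have : 0 ≤ c2 1 * d 1 := by positivity
    linarith
  have hdp : ∀ n, 0 < d (n+2) ∧ 0 < d (n+3) := by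
    intro n
    induction n with
    | zero => exact ⟨hd2, hd3⟩
    | succ n ih =>
      refine ⟨ih.2, ?_⟩
      have e1 : n + 1 + 3 = (n+2)+2 := by ring
      rw [e1, hrec (n+2)]
      have q1 := mul_pos (c1p (n+2)) ih.2
      have q2 := mul_pos (c2p (n+2)) ih.1
      exact add_pos q1 q2
  -- limit of c1 + c2
  have tx1 : Tendsto (fun n => x (n+1)) atTop (𝓝 e) := tx.comp (tendsto_add_atTop_nat 1)
  have ty1 : Tendsto (fun n => y (n+1)) atTop (𝓝 e) := ty.comp (tendsto_add_atTop_nat 1)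
  have hE : 0 < A+B*e+e := by positivity
  have tD : Tendsto D atTop (𝓝 ((A+B*e+e)*(A+B*e+e))) :=
    ((tendsto_const_nhds.add (tx1.const_mul B)).add tx).mul
      ((tendsto_const_nhds.add (ty1.const_mul B)).add ty)
  have t1 : Tendsto c1 atTop (𝓝 (B*(α+e)/((A+B*e+e)*(A+B*e+e)))) :=
    ((tendsto_const_nhds.add ty).const_mul B).div tD (mul_pos hE hE).ne'
  have t2 : Tendsto c2 atTop (𝓝 ((A+B*e-α)/((A+B*e+e)*(A+B*e+e)))) :=
    ((tendsto_const_nhds.add (ty1.const_mul B)).sub tendsto_const_nhds).div tD (mul_pos hE hE).ne'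
  have t3 := t1.add t2
  have hL : 1 < B*(α+e)/((A+B*e+e)*(A+B*e+e)) + (A+B*e-α)/((A+B*e+e)*(A+B*e+e)) := by
    rw [← add_div, one_lt_div (mul_pos hE hE)]
    have hee := P.hee
    have q1 : α + e = e*(A+B*e+e) := by linear_combination -hee
    have q2 : A+B*e-α = (1-e)*(A+B*e+e) := by linear_combination hee
    rw [q1, q2]
    have q3 : B*(e*(A+B*e+e)) + (1-e)*(A+B*e+e) = (B*e+1-e)*(A+B*e+e) := by ring
    rw [q3]
    apply mul_lt_mul_of_pos_right _ hE
    linarith
  have ev := t3.eventually (lt_mem_nhds hL)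
  rw [eventually_atTop] at ev
  obtain ⟨N, hN⟩ := ev
  set s := min (d (N+2)) (d (N+3)) with hs
  have hsp : 0 < s := lt_min (hdp N).1 (hdp N).2
  have hinf : ∀ k, s ≤ d (N+k+2) ∧ s ≤ d (N+k+3) := by
    intro k
    induction k with
    | zero => exact ⟨min_le_left _ _, min_le_right _ _⟩
    | succ k ih =>
      refine ⟨ih.2, ?_⟩
      have e1 : N + (k + 1) + 3 = (N+k+2)+2 := by ring
      rw [e1, hrec (N+k+2)]
      have q1 := hN (N+k+2) (by omega)
      have q2 := c1p (N+k+2)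
      have q3 := c2p (N+k+2)
      have q4 : c1 (N+k+2) * s ≤ c1 (N+k+2) * d (N+k+3) := mul_le_mul_of_nonneg_left ih.2 q2.le
      have q5 : c2 (N+k+2) * s ≤ c2 (N+k+2) * d (N+k+2) := mul_le_mul_of_nonneg_left ih.1 q3.le
      have q6 : s ≤ (c1 (N+k+2) + c2 (N+k+2))*s := by nlinarith
      have e2 : N + k + 2 + 1 = N+k+3 := rfl
      rw [e2]; linarith
  have tyx : Tendsto (fun n => |y n - x n|) atTop (𝓝 0) := by
    have := (ty.sub tx).abs
    simpa using this
  have ev2 := tyx.eventually (gt_mem_nhds hsp)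
  rw [eventually_atTop] at ev2
  obtain ⟨N2, hN2⟩ := ev2
  have r1 := hN2 (N+N2+2) (by omega)
  have r2 := (hinf N2).1
  have r3 : d (N+N2+2) ≤ |y (N+N2+2) - x (N+N2+2)| := by
    simp only [hd]
    calc (-1)^(N+N2+2)*(y (N+N2+2) - x (N+N2+2)) ≤ |(-1)^(N+N2+2)*(y (N+N2+2) - x (N+N2+2))| :=
          le_abs_self _
      _ = _ := by rw [abs_mul]; simp
  linarith

end Pool.Agent.X322.Bt
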