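import Pool.Agent.X322.Bt3

namespace Pool.Agent.X322.Bt
open Filter Topology Set

variable {α A B e m M : ℝ}

lemma solcont (P : Par α A B e m M) {X : Type} [TopologicalSpace X] {g h : X → ℝ}
    (hg : Continuous g) (hh : Continuous h) (h1 : ∀ t, 0 ≤ g t) (h2 : ∀ t, 0 ≤ h t)
    (h3 : ∀ t, 0 < A + B * h t + g t) (n : ℕ) :
    Continuous (fun t => sol α A B (g t) (h t) n) ∧
      Continuous (fun t => sol α A B (g t) (h t) (n+1)) := by
  induction n with
  | zero => exact ⟨hg, hh⟩
  | succ n ih =>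
    refine ⟨ih.2, ?_⟩
    have e1 : (fun t => sol α A B (g t) (h t) (n+1+1)) = fun t =>
        (α + sol α A B (g t) (h t) n)/(A + B * sol α A B (g t) (h t) (n+1)
          + sol α A B (g t) (h t) n) := by
      funext t
      exact (sol_is (h1 t) (h2 t) (h3 t)).hr n
    rw [e1]
    refine Continuous.div (continuous_const.add ih.1)
      ((continuous_const.add (continuous_const.mul ih.2)).add ih.1) (fun t => ?_)
    exact ((sol_is (h1 t) (h2 t) (h3 t)).nn P n).2.2.ne'

lemma openAb (P : Par α A B e m M) {X : Type} [TopologicalSpace X] {g h : X → ℝ}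
    (hg : Continuous g) (hh : Continuous h) (h1 : ∀ t, 0 ≤ g t) (h2 : ∀ t, 0 ≤ h t)
    (h3 : ∀ t, 0 < A + B * h t + g t) :
    IsOpen {t : X | Ab e (sol α A B (g t) (h t))} := by
  have : {t : X | Ab e (sol α A B (g t) (h t))} =
      ⋃ k, ({t | sol α A B (g t) (h t) (2*k) < e} ∩ {t | e < sol α A B (g t) (h t) (2*k+1)}) := by
    ext t; simp [Ab]
  rw [this]
  refine isOpen_iUnion (fun k => IsOpen.inter ?_ ?_)
  · exact isOpen_lt (solcont P hg hh h1 h2 h3 (2*k)).1 continuous_const
  · exact isOpen_lt continuous_const (solcont P hg hh h1 h2 h3 (2*k)).2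

lemma openBe (P : Par α A B e m M) {X : Type} [TopologicalSpace X] {g h : X → ℝ}
    (hg : Continuous g) (hh : Continuous h) (h1 : ∀ t, 0 ≤ g t) (h2 : ∀ t, 0 ≤ h t)
    (h3 : ∀ t, 0 < A + B * h t + g t) :
    IsOpen {t : X | Be e (sol α A B (g t) (h t))} := by
  have : {t : X | Be e (sol α A B (g t) (h t))} =
      ⋃ k, ({t | sol α A B (g t) (h t) (2*k+1) < e} ∩ {t | e < sol α A B (g t) (h t) (2*k+1+1)}) := by
    ext t; simp [Be]
  rw [this]
  refine isOpen_iUnion (fun k => IsOpen.inter ?_ ?_)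
  · exact isOpen_lt (solcont P hg hh h1 h2 h3 (2*k+1)).1 continuous_const
  · exact isOpen_lt continuous_const (solcont P hg hh h1 h2 h3 (2*k+1)).2

lemma nAB (P : Par α A B e m M) {x : ℕ → ℝ} (hx : IsSol α A B x) (h1 : Ab e x) (h2 : Be e x) :
    False := by
  have := tendsto_nhds_unique (convA P hx h1).1 (convB P hx h2).1
  have := P.hme; have := P.heM; linarith

lemma nWA {x : ℕ → ℝ} (P : Par α A B e m M) (hx : IsSol α A B x) (h1 : WW e x) (h2 : Ab e x) :
    False := by
  obtain ⟨k, a, b⟩ := h2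
  rcases h1 with ⟨h, h'⟩ | h | h
  · have := (wconst P hx h h' (2*k)).1; linarith
  · have := h (2*k); linarith
  · have := h (2*k+1); linarith

lemma nWB {x : ℕ → ℝ} (P : Par α A B e m M) (hx : IsSol α A B x) (h1 : WW e x) (h2 : Be e x) :
    False := by
  obtain ⟨k, a, b⟩ := h2
  rcases h1 with ⟨h, h'⟩ | h | h
  · have := (wconst P hx h h' (2*k+1)).1; linarith
  · have := h (2*k+1); linarith
  · have := h (2*k+2); linarith

lemma conn (P : Par α A B e m M) {u v v' : ℝ} (hu : 0 ≤ u) (hv : 0 ≤ v) (hd : 0 < A+B*v+u)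
    (hv' : 0 ≤ v') (hd' : 0 < A+B*v'+u) (ha : Ab e (sol α A B u v))
    (hb : Be e (sol α A B u v')) :
    ∃ w, min v v' ≤ w ∧ w ≤ max v v' ∧ WW e (sol α A B u w) := by
  have hB := P.hB
  by_contra hcon
  push Not at hcon
  have g0 : ∀ t : Icc (min v v') (max v v'), 0 ≤ t.1 := fun t => (le_min hv hv').trans t.2.1
  have g1 : ∀ t : Icc (min v v') (max v v'), 0 < A + B*t.1 + u := by
    rintro ⟨t, ht1, ht2⟩
    show 0 < A + B*t + u
    rcases min_choice v v' with h | h
    · rw [h] at ht1; nlinarith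
    · rw [h] at ht1; nlinarith
  have hS : ∀ t : Icc (min v v') (max v v'), IsSol α A B (sol α A B u t.1) :=
    fun t => sol_is hu (g0 t) (g1 t)
  have o1 := openAb P (X := Icc (min v v') (max v v')) (g := fun _ => u) (h := fun t => t.1)
    continuous_const continuous_subtype_val (fun _ => hu) g0 g1
  have o2 := openBe P (X := Icc (min v v') (max v v')) (g := fun _ => u) (h := fun t => t.1)
    continuous_const continuous_subtype_val (fun _ => hu) g0 g1
  have hc : IsClopen {t : Icc (min v v') (max v v') | Ab e (sol α A B u t.1)} := by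
    refine ⟨⟨?_⟩, o1⟩
    have : {t : Icc (min v v') (max v v') | Ab e (sol α A B u t.1)}ᶜ =
        {t : Icc (min v v') (max v v') | Be e (sol α A B u t.1)} := by
      ext t
      constructor
      · intro ht
        rcases (hS t).tri P with h | h | h
        · exact absurd h (hcon t.1 t.2.1 t.2.2)
        · exact absurd h ht
        · exact h
      · intro ht hh
        exact nAB P (hS t) hh ht
    rw [this]; exact o2
  have : PreconnectedSpace (Icc (min v v') (max v v')) :=
    Subtype.preconnectedSpace isPreconnected_Icc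
  rcases isClopen_iff.mp hc with h | h
  · have : (⟨v, min_le_left _ _, le_max_left _ _⟩ : Icc (min v v') (max v v')) ∈
        {t : Icc (min v v') (max v v') | Ab e (sol α A B u t.1)} := ha
    rw [h] at this; exact this
  · have : (⟨v', min_le_right _ _, le_max_right _ _⟩ : Icc (min v v') (max v v')) ∈
        {t : Icc (min v v') (max v v') | Ab e (sol α A B u t.1)} := by
      rw [h]; exact mem_univ _
    exact nAB P (sol_is hu hv' hd') this hb

lemma exAb (P : Par α A B e m M) {u : ℝ} (hu : 0 ≤ u) (c : ℝ) :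
    ∃ v, c ≤ v ∧ 0 ≤ v ∧ 0 < A+B*v+u ∧ Ab e (sol α A B u v) := by
  have hα := P.hα; have hB := P.hB; have hA := P.hA0; have he := P.he
  set v := max (max c (e+1)) ((α+u)/(B*e)) with hv
  have h1 : c ≤ v := (le_max_left _ _).trans (le_max_left _ _)
  have h2 : e + 1 ≤ v := (le_max_right c (e+1)).trans (le_max_left _ _)
  have h3 : (α+u)/(B*e) ≤ v := le_max_right _ _
  have hv0 : 0 < v := by linarith
  have hd : 0 < A+B*v+u := by positivity
  have hS := sol_is (α := α) hu hv0.le hd
  refine ⟨v, h1, hv0.le, hd, ?_⟩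
  have k2 : sol α A B u v 2 ≤ e := by
    have : sol α A B u v 2 = (α+u)/(A+B*v+u) := rfl
    rw [this, div_le_iff₀ hd]
    rw [div_le_iff₀ (by positivity)] at h3
    nlinarith [mul_nonneg he.le hA, mul_nonneg he.le hu]
  have k1 : e < sol α A B u v 1 := by show e < v; linarith
  exact (hS.seAny P 1 k1.le k2 (Or.inl k1)).1 odd_one

lemma exBe (P : Par α A B e m M) {u : ℝ} (hu : 0 ≤ u) :
    ∃ v, 0 ≤ v ∧ 0 < A+B*v+u ∧ Be e (sol α A B u v) := by
  have hα := P.hα; have hB := P.hB; have hA := P.hA0; have he := P.he; have he1 := P.e1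
  rcases lt_or_ge A α with h | h
  · set v := min ((α-A)/B) (e/2) with hv
    have hv0 : 0 < v := lt_min (div_pos (by linarith) (by linarith)) (by linarith)
    have hd : 0 < A+B*v+u := by positivity
    refine ⟨v, hv0.le, hd, 0, ?_, ?_⟩
    · show v < e
      have : v ≤ e/2 := min_le_right _ _
      linarith
    · show e < (α+u)/(A+B*v+u)
      have h1 : v ≤ (α-A)/B := min_le_left _ _
      rw [le_div_iff₀ (by linarith)] at h1
      have : 1 ≤ (α+u)/(A+B*v+u) := by
        rw [le_div_iff₀ hd]; linarith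
      linarith
  · have hd : 0 < A+B*0+u := by simp; linarith
    refine ⟨0, le_rfl, hd, ?_⟩
    have hS := sol_is (α := α) hu le_rfl hd
    set x := sol α A B u 0 with hx
    have x0 : x 0 = u := rfl
    have x1 : x 1 = 0 := rfl
    have hS1 := hS.shift P 1
    have hvv : ∀ n, α ≤ A + B * x (n+1) := by
      intro n
      have := (hS.nn P (n+1)).1
      have : 0 ≤ B * x (n+1) := mul_nonneg (by linarith) this
      linarith
    have hcmp := cmp P hS1 hS (by show x 1 ≤ x 0; rw [x1, x0]; exact hu)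
      (by show x 1 ≤ x 2; rw [x1]; exact (hS.pos P 0).le) (fun n => Or.inr (hvv n))
    rcases hS.tri P with hw | hw | hw
    · exfalso
      have hw1 : WW e (fun n => x (n+1)) := by
        rcases hw with ⟨_, q⟩ | q | q
        · rw [x1] at q; linarith
        · have := q 1; rw [x1] at this; linarith
        · exact Or.inr (Or.inr (fun n => q (n+1)))
      have := (anti P hS1 hS hw1 hw (by show x 1 ≤ x 0; rw [x1, x0]; exact hu)
        (by show x 1 ≤ x 2; rw [x1]; exact (hS.pos P 0).le)).2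
      have h2 : x 2 = x 1 := this
      have h3 := hS.pos P 0
      rw [x1] at h2
      have h4 : 0 < x 2 := h3
      linarith
    · exfalso
      obtain ⟨k, a, b⟩ := hw
      have : x (2*k+1) ≤ x (2*k) := (hcmp k).1
      linarith
    · exact hw

lemma wuniq (P : Par α A B e m M) {x y : ℕ → ℝ} (hx : IsSol α A B x) (hy : IsSol α A B y)
    (wx : WW e x) (wy : WW e y) (h : x 0 = y 0) : x 1 = y 1 := by
  rcases le_total (x 1) (y 1) with h1 | h1
  · exact ((anti P hy hx wy wx h.ge h1).2).symm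
  · exact (anti P hx hy wx wy h.le h1).2

lemma exW (P : Par α A B e m M) {u : ℝ} (hu : 0 ≤ u) :
    ∃ w, 0 < w ∧ 0 < A+B*w+u ∧ WW e (sol α A B u w) ∧
      ∀ v, 0 ≤ v → 0 < A+B*v+u → (v < w → Be e (sol α A B u v)) ∧
        (w < v → Ab e (sol α A B u v)) := by
  have hα := P.hα; have hB := P.hB; have hA := P.hA0; have he := P.he
  obtain ⟨v1, p1, p2, p3⟩ := exBe P hu
  obtain ⟨v2, q0, q1, q2, q3⟩ := exAb P hu v1
  obtain ⟨w, w1, w2, w3⟩ := conn P hu q1 q2 p1 p2 q3 p3
  rw [min_eq_right q0] at w1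
  rw [max_eq_left q0] at w2
  have hwd : 0 < A+B*w+u := by nlinarith
  have hw0 : 0 ≤ w := p1.trans w1
  have hwS := sol_is (α := α) hu hw0 hwd
  have hne1 : v1 < w := by
    refine lt_of_le_of_ne w1 (fun h => ?_)
    rw [h] at p3
    exact nWB P hwS w3 p3
  have hne2 : w < v2 := by
    refine lt_of_le_of_ne w2 (fun h => ?_)
    rw [← h] at q3
    exact nWA P hwS w3 q3
  refine ⟨w, lt_of_le_of_lt p1 hne1, hwd, w3, ?_⟩
  have hun : ∀ v, 0 ≤ v → 0 < A+B*v+u → WW e (sol α A B u v) → v = w := by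
    intro v hv hvd hvw
    exact wuniq P (sol_is hu hv hvd) hwS hvw w3 rfl
  intro v hv hvd
  have hvS := sol_is (α := α) hu hv hvd
  constructor
  · intro hvw
    rcases hvS.tri P with h | h | h
    · exact absurd (hun v hv hvd h) hvw.ne
    · exfalso
      obtain ⟨t, t1, t2, t3⟩ := conn P hu hv hvd p1 p2 h p3
      have ht0 : 0 ≤ t := (le_min hv p1).trans t1
      have htd : 0 < A+B*t+u := by
        rcases min_choice v v1 with h | h
        · rw [h] at t1; nlinarith
        · rw [h] at t1; nlinarith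
      have := hun t ht0 htd t3
      have : max v v1 < w := max_lt hvw hne1
      linarith
    · exact h
  · intro hvw
    rcases hvS.tri P with h | h | h
    · exact absurd (hun v hv hvd h) hvw.ne'
    · exact h
    · exfalso
      obtain ⟨t, t1, t2, t3⟩ := conn P hu q1 q2 hv hvd q3 h
      have ht0 : 0 ≤ t := (le_min q1 hv).trans t1
      have htd : 0 < A+B*t+u := by
        rcases min_choice v2 v with h | h
        · rw [h] at t1; nlinarith
        · rw [h] at t1; nlinarith
      have := hun t ht0 htd t3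
      have : w < min v2 v := lt_min hne2 hvw
      linarith

lemma wshift (P : Par α A B e m M) {x : ℕ → ℝ} (hx : IsSol α A B x) (h : WW e x) :
    WW e (fun n => x (n+1)) := by
  rcases h with ⟨h0, h1⟩ | h | h
  · exact Or.inl ⟨h1, (wconst P hx h0 h1 1).2⟩
  · exact Or.inr (Or.inl (fun n => h (n+1)))
  · exact Or.inr (Or.inr (fun n => h (n+1)))

theorem main (P : Par α A B e m M) :
    ∃ φ : ℝ → ℝ, StrictMonoOn φ (Ici 0) ∧ ContinuousOn φ (Ici 0) ∧ (∀ u, 0 ≤ u → 0 < φ u) ∧
      φ e = e ∧
      (∀ u, 0 ≤ u → φ (φ u) = (α+u)/(A+B*φ u+u)) ∧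
      (∀ ψ : ℝ → ℝ, MonotoneOn ψ (Ici 0) →
        (∀ u, 0 ≤ u → 0 ≤ ψ u ∧ 0 < A+B*ψ u+u ∧ ψ (ψ u) = (α+u)/(A+B*ψ u+u)) →
        ∀ u, 0 ≤ u → ψ u = φ u) ∧
      (∀ u v, 0 ≤ u → 0 ≤ v → 0 < A+B*v+u →
        (v = φ u ↔ WW e (sol α A B u v)) ∧
        (v < φ u → Be e (sol α A B u v)) ∧
        (φ u < v → Ab e (sol α A B u v))) := by
  have hα := P.hα; have hB := P.hB; have hA := P.hA0; have he := P.he
  have hex := fun (u : ℝ) (hu : 0 ≤ u) => exW P hu
  choose! φ hφ using hex
  have hφS : ∀ u, 0 ≤ u → IsSol α A B (sol α A B u (φ u)) :=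
    fun u hu => sol_is hu (hφ u hu).1.le (hφ u hu).2.1
  have huniq : ∀ u v, 0 ≤ u → 0 ≤ v → 0 < A+B*v+u → WW e (sol α A B u v) → v = φ u := by
    intro u v hu hv hd hw
    exact wuniq P (sol_is hu hv hd) (hφS u hu) hw (hφ u hu).2.2.1 rfl
  refine ⟨φ, ?_, ?_, fun u hu => (hφ u hu).1, ?_, ?_, ?_, ?_⟩
  · intro u hu u' hu' huu
    by_contra hc
    push Not at hc
    have := (anti P (hφS u hu) (hφS u' hu') (hφ u hu).2.2.1 (hφ u' hu').2.2.1 huu.le hc).1
    have h2 : u = u' := this
    linarith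
  · rw [continuousOn_iff_continuous_domRestrict, continuous_iff_continuousAt]
    intro t0
    have ht0 : 0 ≤ t0.1 := t0.2
    have hφ0 := (hφ t0.1 ht0).1
    refine tendsto_order.2 ⟨fun a ha => ?_, fun a ha => ?_⟩
    · rcases le_or_gt a 0 with h | h
      · exact Eventually.of_forall (fun t => lt_of_le_of_lt h (hφ t.1 t.2).1)
      · have ha' : a < φ t0.1 := ha
        have hd : ∀ t : Ici (0:ℝ), 0 < A + B*a + t.1 := by
          intro t; have : 0 ≤ t.1 := t.2; positivity
        have o := openBe P (X := Ici (0:ℝ)) (g := fun t => t.1) (h := fun _ => a)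
          continuous_subtype_val continuous_const (fun t => t.2) (fun _ => h.le) hd
        have hmem : t0 ∈ {t : Ici (0:ℝ) | Be e (sol α A B t.1 a)} :=
          ((hφ t0.1 ht0).2.2.2 a h.le (hd t0)).1 ha'
        filter_upwards [o.mem_nhds hmem] with t ht
        show a < φ t.1
        by_contra hc
        push Not at hc
        have htS := sol_is (α := α) (u := t.1) (v := a) t.2 h.le (hd t)
        rcases hc.eq_or_lt with h1 | h1
        · have := (hφ t.1 t.2).2.2.1
          rw [h1] at this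
          exact nWB P htS this ht
        · exact nAB P htS (((hφ t.1 t.2).2.2.2 a h.le (hd t)).2 h1) ht
    · have ha' : φ t0.1 < a := ha
      have h : 0 < a := hφ0.trans ha'
      have hd : ∀ t : Ici (0:ℝ), 0 < A + B*a + t.1 := by
        intro t; have : 0 ≤ t.1 := t.2; positivity
      have o := openAb P (X := Ici (0:ℝ)) (g := fun t => t.1) (h := fun _ => a)
        continuous_subtype_val continuous_const (fun t => t.2) (fun _ => h.le) hd
      have hmem : t0 ∈ {t : Ici (0:ℝ) | Ab e (sol α A B t.1 a)} :=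
        ((hφ t0.1 ht0).2.2.2 a h.le (hd t0)).2 ha'
      filter_upwards [o.mem_nhds hmem] with t ht
      show φ t.1 < a
      by_contra hc
      push Not at hc
      have htS := sol_is (α := α) (u := t.1) (v := a) t.2 h.le (hd t)
      rcases hc.eq_or_lt with h1 | h1
      · have := (hφ t.1 t.2).2.2.1
        rw [← h1] at this
        exact nWA P htS this ht
      · exact nAB P htS ht (((hφ t.1 t.2).2.2.2 a h.le (hd t)).1 h1)
  · have hd : 0 < A+B*e+e := by positivity
    exact (huniq e e he.le he.le hd (Or.inl ⟨rfl, rfl⟩)).symm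
  · intro u hu
    have h1 := (hφS u hu).shift P 1
    have h2 := wshift P (hφS u hu) (hφ u hu).2.2.1
    have hp := (hφ u hu).1
    have := wuniq P (hφS (φ u) hp.le) h1 (hφ (φ u) hp.le).2.2.1 h2 rfl
    exact this
  · intro ψ hmon hψ u hu
    obtain ⟨a, b, c⟩ := hψ u hu
    have hS := sol_is (α := α) hu a b
    apply huniq u (ψ u) hu a b
    set x := sol α A B u (ψ u) with hx
    have hiter : ∀ n, x (n+1) = ψ (x n) := by
      intro n
      induction n with
      | zero => rfl
      | succ n ih =>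
        have hn := (hS.nn P n).1
        have e1 : x (n+1+1) = (α + x n)/(A+B*x (n+1)+x n) := hS.hr n
        rw [e1, ih]
        exact ((hψ (x n) hn).2.2).symm
    rcases hS.tri P with h | h | h
    · exact h
    · exfalso
      obtain ⟨k, k1, k2⟩ := h
      have h1 := hmon (hS.nn P (2*k)).1 (hS.nn P (2*k)).2.1 (k1.trans k2).le
      rw [← hiter, ← hiter] at h1
      have h2 := hS.nwstep P (2*k) k1.le k2.le (Or.inl k1)
      have h3 : x (2*k+1+1) = x (2*k+2) := rfl
      rw [h3] at h1
      linarith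
    · exfalso
      obtain ⟨k, k1, k2⟩ := h
      have h1 := hmon (hS.nn P (2*k+1)).1 (hS.nn P (2*k+1)).2.1 (k1.trans k2).le
      rw [← hiter, ← hiter] at h1
      have h2 := hS.nwstep P (2*k+1) k1.le k2.le (Or.inl k1)
      have h3 : x (2*k+1+1) = x (2*k+2) := rfl
      have h4 : x (2*k+1+1+1) = x (2*k+1+2) := rfl
      rw [h3] at h1
      have h5 : x (2*k+2+1) = x (2*k+1+2) := rfl
      linarith
  · intro u v hu hv hd
    refine ⟨⟨fun h => ?_, huniq u v hu hv hd⟩, ((hφ u hu).2.2.2 v hv hd).1,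
      ((hφ u hu).2.2.2 v hv hd).2⟩
    rw [h]; exact (hφ u hu).2.2.1

end Pool.Agent.X322.Bt
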