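import Mathlib

set_option autoImplicit false

/-! Harary polynomials: definitions and elementary facts. -/

namespace Pool.Agent.X322.Har

open Finset

/-- an isomorphism-closed class of finite graphs -/
structure GraphProperty where
  mem : ∀ n : ℕ, SimpleGraph (Fin n) → Prop
  iso_closed : ∀ (n : ℕ) (G H : SimpleGraph (Fin n)), Nonempty (G ≃g H) → mem n G → mem n H

/-- the induced subgraph `G[B]`, relabelled increasingly -/
def sub {n : ℕ} (G : SimpleGraph (Fin n)) (B : Finset (Fin n)) : SimpleGraph (Fin B.card) :=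
  G.comap (B.orderEmbOfFin rfl)

def InBlock (P : GraphProperty) {n : ℕ} (G : SimpleGraph (Fin n)) (B : Finset (Fin n)) : Prop :=
  P.mem B.card (sub G B)

def IsPart {n : ℕ} (π : Finset (Finset (Fin n))) : Prop :=
  (∀ B ∈ π, B.Nonempty) ∧ ∀ v, ∃! B, B ∈ π ∧ v ∈ B

open Classical in
noncomputable def har (P : GraphProperty) {n : ℕ} (G : SimpleGraph (Fin n)) (i : ℕ) : ℕ :=
  ((univ : Finset (Finset (Finset (Fin n)))).filter fun π =>
    IsPart π ∧ (∀ B ∈ π, InBlock P G B) ∧ π.card = i).card

noncomputable def chi (P : GraphProperty) {n : ℕ} (G : SimpleGraph (Fin n)) : Polynomial ℤ :=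
  ∑ i ∈ range (n + 1), (har P G i : Polynomial ℤ) * descPochhammer ℤ i

theorem inBlock_iff (P : GraphProperty) {n : ℕ} (G : SimpleGraph (Fin n)) (B : Finset (Fin n))
    (m : ℕ) (h : B.card = m) : InBlock P G B ↔ P.mem m (G.comap (B.orderEmbOfFin h)) := by
  subst h
  rfl

section part

variable {n : ℕ}

theorem IsPart.disj {π : Finset (Finset (Fin n))} (h : IsPart π) {B C : Finset (Fin n)}
    (hB : B ∈ π) (hC : C ∈ π) (hne : B ≠ C) : Disjoint B C := by
  rw [Finset.disjoint_left]
  intro v hv hv'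
  obtain ⟨D, _, hD⟩ := h.2 v
  exact hne ((hD B ⟨hB, hv⟩).trans (hD C ⟨hC, hv'⟩).symm)

theorem IsPart.sum {π : Finset (Finset (Fin n))} (h : IsPart π) : ∑ B ∈ π, B.card = n := by
  classical
  have h1 : π.biUnion id = univ := by
    ext v
    simp only [mem_biUnion, id, mem_univ, iff_true]
    obtain ⟨D, hD, _⟩ := h.2 v
    exact ⟨D, hD.1, hD.2⟩
  have h2 := Finset.card_biUnion (s := π) (t := id) (fun B hB C hC hne => h.disj hB hC hne)
  rw [h1] at h2
  simpa using h2.symm

theorem IsPart.card_le {π : Finset (Finset (Fin n))} (h : IsPart π) : π.card ≤ n := by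
  calc π.card = ∑ B ∈ π, 1 := by simp
    _ ≤ ∑ B ∈ π, B.card := Finset.sum_le_sum fun B hB => (h.1 B hB).card_pos
    _ = n := h.sum

theorem IsPart.block {π : Finset (Finset (Fin n))} (h : IsPart π) {m : ℕ} (_hm : 1 ≤ m)
    (hmn : m ≤ n) (hc : π.card = n - m + 1) {B : Finset (Fin n)} (hB : B ∈ π) :
    B.card ≤ m ∧ (B.card = m → ∀ C ∈ π, C ≠ B → C.card = 1) := by
  classical
  have h1 : B.card + ∑ C ∈ π.erase B, C.card = n := by
    rw [Finset.add_sum_erase π (fun C => C.card) hB]
    exact h.sum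
  have h2 : (π.erase B).card = n - m := by
    rw [Finset.card_erase_of_mem hB, hc]; omega
  have h3 : ∑ C ∈ π.erase B, 1 ≤ ∑ C ∈ π.erase B, C.card :=
    Finset.sum_le_sum fun C hC => (h.1 C (mem_of_mem_erase hC)).card_pos
  have h3' : (π.erase B).card ≤ ∑ C ∈ π.erase B, C.card := by simpa using h3
  refine ⟨by omega, fun hBm C hC hCB => ?_⟩
  have h4 : ∑ C ∈ π.erase B, 1 = ∑ C ∈ π.erase B, C.card := by
    rw [← Finset.card_eq_sum_ones]
    omega
  have h5 := (Finset.sum_eq_sum_iff_of_le (s := π.erase B) (f := fun _ => 1)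
    (g := fun C => C.card) (fun C hC => (h.1 C (mem_of_mem_erase hC)).card_pos)).1 h4
  exact (h5 C (mem_erase.2 ⟨hCB, hC⟩)).symm

/-- the partition with one big block `B` and singletons -/
def big [DecidableEq (Finset (Fin n))] (B : Finset (Fin n)) : Finset (Finset (Fin n)) :=
  insert B ((univ \ B).image fun v => {v})

variable [DecidableEq (Finset (Fin n))]

theorem mem_big {B C : Finset (Fin n)} : C ∈ big B ↔ C = B ∨ ∃ v, v ∉ B ∧ C = {v} := by
  simp only [big, mem_insert, mem_image, mem_sdiff, mem_univ, true_and]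
  constructor
  · rintro (h | ⟨v, hv, rfl⟩)
    · exact Or.inl h
    · exact Or.inr ⟨v, hv, rfl⟩
  · rintro (h | ⟨v, hv, rfl⟩)
    · exact Or.inl h
    · exact Or.inr ⟨v, hv, rfl⟩

theorem big_isPart {B : Finset (Fin n)} (hB : B.Nonempty) : IsPart (big B) := by
  refine ⟨?_, ?_⟩
  · intro C hC
    rcases mem_big.1 hC with rfl | ⟨v, _, rfl⟩
    · exact hB
    · exact singleton_nonempty v
  · intro v
    by_cases hv : v ∈ B
    · refine ⟨B, ⟨mem_big.2 (Or.inl rfl), hv⟩, ?_⟩
      rintro C ⟨hC, hvC⟩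
      rcases mem_big.1 hC with rfl | ⟨w, hw, rfl⟩
      · rfl
      · rw [mem_singleton] at hvC
        exact absurd (hvC ▸ hv) hw
    · refine ⟨{v}, ⟨mem_big.2 (Or.inr ⟨v, hv, rfl⟩), mem_singleton_self v⟩, ?_⟩
      rintro C ⟨hC, hvC⟩
      rcases mem_big.1 hC with rfl | ⟨w, hw, rfl⟩
      · exact absurd hvC hv
      · rw [mem_singleton] at hvC
        rw [hvC]

theorem big_card {B : Finset (Fin n)} (hB : 2 ≤ B.card) : (big B).card = n - B.card + 1 := by
  rw [big, card_insert_of_notMem, card_image_of_injective _ (fun a b h => singleton_injective h),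
    card_sdiff_of_subset (subset_univ _), card_univ, Fintype.card_fin]
  simp only [mem_image, not_exists, not_and]
  intro v _ h
  rw [← h, card_singleton] at hB
  omega

theorem eq_big {π : Finset (Finset (Fin n))} (h : IsPart π) {m : ℕ} (hm : 1 ≤ m)
    (hmn : m ≤ n) (hc : π.card = n - m + 1) {B : Finset (Fin n)} (hB : B ∈ π) (hBm : B.card = m) :
    π = big B := by
  have hs := (h.block hm hmn hc hB).2 hBm
  ext C
  rw [mem_big]
  constructor
  · intro hC
    by_cases hCB : C = B
    · exact Or.inl hCB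
    · right
      obtain ⟨v, hv⟩ := Finset.card_eq_one.1 (hs C hC hCB)
      refine ⟨v, ?_, hv⟩
      intro hvB
      have := h.disj hC hB hCB
      rw [hv, disjoint_singleton_left] at this
      exact this hvB
  · rintro (rfl | ⟨v, hv, rfl⟩)
    · exact hB
    · obtain ⟨D, ⟨hD, hvD⟩, _⟩ := h.2 v
      have hDB : D ≠ B := by rintro rfl; exact hv hvD
      obtain ⟨w, hw⟩ := Finset.card_eq_one.1 (hs D hD hDB)
      rw [hw, mem_singleton] at hvD
      rw [hvD, ← hw]
      exact hD

end part

open Classical in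
/-- number of `m`-sets inducing a member of `P` -/
noncomputable def cnt (P : GraphProperty) {n : ℕ} (G : SimpleGraph (Fin n)) (m : ℕ) : ℕ :=
  ((univ : Finset (Finset (Fin n))).filter fun B => B.card = m ∧ InBlock P G B).card

open Classical in
noncomputable def rest (P : GraphProperty) {n : ℕ} (G : SimpleGraph (Fin n)) (m : ℕ) : ℕ :=
  ((univ : Finset (Finset (Finset (Fin n)))).filter fun π =>
    (IsPart π ∧ (∀ B ∈ π, InBlock P G B) ∧ π.card = n - m + 1) ∧ ¬ ∃ B ∈ π, B.card = m).card

theorem har_split (P : GraphProperty) (h1 : ∀ F : SimpleGraph (Fin 1), P.mem 1 F) {n : ℕ}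
    (G : SimpleGraph (Fin n)) (m : ℕ) (hm : 2 ≤ m) (hmn : m ≤ n) :
    har P G (n - m + 1) = cnt P G m + rest P G m := by
  classical
  have hs := Finset.card_filter_add_card_filter_not
    (s := (univ : Finset (Finset (Finset (Fin n)))).filter fun π =>
      IsPart π ∧ (∀ B ∈ π, InBlock P G B) ∧ π.card = n - m + 1) (fun π => ∃ B ∈ π, B.card = m)
  unfold har rest
  rw [← hs, filter_filter, filter_filter]
  congr 1
  unfold cnt
  symm
  apply Finset.card_bij (fun B _ => big B)
  · intro B hB
    simp only [mem_filter, mem_univ, true_and] at hB ⊢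
    obtain ⟨hBm, hBP⟩ := hB
    refine ⟨⟨big_isPart (card_pos.1 (by omega)), ?_, ?_⟩, B, mem_big.2 (Or.inl rfl), hBm⟩
    · intro C hC
      rcases mem_big.1 hC with rfl | ⟨v, _, rfl⟩
      · exact hBP
      · rw [inBlock_iff P G {v} 1 (card_singleton v)]
        exact h1 _
    · rw [big_card (by omega), hBm]
  · intro B hB C hC hBC
    simp only [mem_filter, mem_univ, true_and] at hB hC
    have : B ∈ big C := by
      have h' : B ∈ big B := mem_big.2 (Or.inl rfl)
      rwa [hBC] at h'
    rcases mem_big.1 this with h | ⟨v, _, h⟩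
    · exact h
    · rw [h, card_singleton] at hB
      omega
  · intro π hπ
    simp only [mem_filter, mem_univ, true_and] at hπ
    obtain ⟨⟨hp, hP, hc⟩, B, hB, hBm⟩ := hπ
    refine ⟨B, ?_, (eq_big hp (by omega) hmn hc hB hBm).symm⟩
    simp only [mem_filter, mem_univ, true_and]
    exact ⟨hBm, hP B hB⟩

theorem rest_congr (P Q : GraphProperty) {n : ℕ} (G : SimpleGraph (Fin n)) (m : ℕ) (hm : 2 ≤ m)
    (hmn : m ≤ n) (hPQ : ∀ j < m, ∀ F : SimpleGraph (Fin j), P.mem j F ↔ Q.mem j F) :
    rest P G m = rest Q G m := by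
  classical
  unfold rest
  congr 1
  apply Finset.filter_congr
  intro π _
  constructor
  · rintro ⟨⟨hp, hP, hc⟩, hno⟩
    refine ⟨⟨hp, fun B hB => ?_, hc⟩, hno⟩
    have hb := (hp.block (by omega) hmn hc hB).1
    have : B.card ≠ m := fun h => hno ⟨B, hB, h⟩
    exact (hPQ B.card (by omega) _).1 (hP B hB)
  · rintro ⟨⟨hp, hP, hc⟩, hno⟩
    refine ⟨⟨hp, fun B hB => ?_, hc⟩, hno⟩
    have hb := (hp.block (by omega) hmn hc hB).1
    have : B.card ≠ m := fun h => hno ⟨B, hB, h⟩
    exact (hPQ B.card (by omega) _).2 (hP B hB)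

/-- the triangular structure -/
theorem tri (P Q : GraphProperty) (h1 : ∀ F : SimpleGraph (Fin 1), P.mem 1 F)
    (h1' : ∀ F : SimpleGraph (Fin 1), Q.mem 1 F) {n : ℕ}
    (G : SimpleGraph (Fin n)) (m : ℕ) (hm : 2 ≤ m) (hmn : m ≤ n)
    (hPQ : ∀ j < m, ∀ F : SimpleGraph (Fin j), P.mem j F ↔ Q.mem j F) :
    har P G (n - m + 1) + cnt Q G m = har Q G (n - m + 1) + cnt P G m := by
  rw [har_split P h1 G m hm hmn, har_split Q h1' G m hm hmn, rest_congr P Q G m hm hmn hPQ]
  ring

theorem har_zero_of_lt (P : GraphProperty) {n : ℕ} (G : SimpleGraph (Fin n)) (i : ℕ) (hi : n < i) :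
    har P G i = 0 := by
  classical
  unfold har
  rw [Finset.card_eq_zero, Finset.filter_eq_empty_iff]
  rintro π _ ⟨hp, _, hc⟩
  have := hp.card_le
  omega

theorem har_top_pos (P : GraphProperty) (h1 : ∀ F : SimpleGraph (Fin 1), P.mem 1 F) {n : ℕ}
    (G : SimpleGraph (Fin n)) : 0 < har P G n := by
  classical
  unfold har
  rw [Finset.card_pos]
  refine ⟨univ.image fun v => {v}, ?_⟩
  simp only [mem_filter, mem_univ, true_and]
  refine ⟨⟨?_, ?_⟩, ?_, ?_⟩
  · intro B hB
    simp only [mem_image, mem_univ, true_and] at hB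
    obtain ⟨v, rfl⟩ := hB
    exact singleton_nonempty v
  · intro v
    refine ⟨{v}, ⟨mem_image_of_mem _ (mem_univ v), mem_singleton_self v⟩, ?_⟩
    rintro C ⟨hC, hvC⟩
    simp only [mem_image, mem_univ, true_and] at hC
    obtain ⟨w, rfl⟩ := hC
    rw [mem_singleton] at hvC
    rw [hvC]
  · intro B hB
    simp only [mem_image, mem_univ, true_and] at hB
    obtain ⟨v, rfl⟩ := hB
    rw [inBlock_iff P G {v} 1 (card_singleton v)]
    exact h1 _
  · rw [card_image_of_injective _ (fun a b h => singleton_injective h), card_univ, Fintype.card_fin]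

theorem chi_eval (P : GraphProperty) {n : ℕ} (G : SimpleGraph (Fin n)) (M k : ℕ) (hM : n ≤ M) :
    (chi P G).eval (k : ℤ) = ∑ i ∈ range (M + 1), (har P G i : ℤ) * (k.descFactorial i : ℤ) := by
  unfold chi
  rw [Polynomial.eval_finsetSum]
  have h1 : ∀ i ∈ range (n + 1), ((har P G i : Polynomial ℤ) * descPochhammer ℤ i).eval (k : ℤ)
      = (har P G i : ℤ) * (k.descFactorial i : ℤ) := by
    intro i _
    rw [Polynomial.eval_mul, descPochhammer_eval_eq_descFactorial]
    simp
  rw [Finset.sum_congr rfl h1]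
  apply Finset.sum_subset
  · intro i hi
    simp only [mem_range] at hi ⊢
    omega
  · intro i _ hi
    simp only [mem_range] at hi
    rw [har_zero_of_lt P G i (by omega)]
    simp

theorem har_eq_of_chi_eq (P : GraphProperty) {n n' : ℕ} (G : SimpleGraph (Fin n))
    (H : SimpleGraph (Fin n')) (h : chi P G = chi P H) (i : ℕ) : har P G i = har P H i := by
  induction i using Nat.strong_induction_on with
  | _ i ih =>
    set M := max (max n n') i with hM
    have h1 := chi_eval P G M i (by omega)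
    have h2 := chi_eval P H M i (by omega)
    rw [h, h2] at h1
    have h3 : ∀ (f : ℕ → ℕ), ∑ j ∈ range (M + 1), (f j : ℤ) * (i.descFactorial j : ℤ)
        = ∑ j ∈ range i, (f j : ℤ) * (i.descFactorial j : ℤ) + (f i : ℤ) * (i.factorial : ℤ) := by
      intro f
      have : ∑ j ∈ range (M + 1), (f j : ℤ) * (i.descFactorial j : ℤ)
        = ∑ j ∈ range (i + 1), (f j : ℤ) * (i.descFactorial j : ℤ) := by
        symm
        apply Finset.sum_subset
        · intro j hj
          simp only [mem_range] at hj ⊢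
          omega
        · intro j _ hj
          simp only [mem_range] at hj
          rw [Nat.descFactorial_eq_zero_iff_lt.2 (by omega)]
          simp
      rw [this, Finset.sum_range_succ, Nat.descFactorial_self]
    rw [h3, h3] at h1
    have h4 : ∑ j ∈ range i, (har P G j : ℤ) * (i.descFactorial j : ℤ)
        = ∑ j ∈ range i, (har P H j : ℤ) * (i.descFactorial j : ℤ) := by
      apply Finset.sum_congr rfl
      intro j hj
      rw [ih j (mem_range.1 hj)]
    rw [h4] at h1
    have h5 : (har P H i : ℤ) * (i.factorial : ℤ) = (har P G i : ℤ) * (i.factorial : ℤ) := by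
      linarith
    have h6 : (i.factorial : ℤ) ≠ 0 := by exact_mod_cast i.factorial_ne_zero
    exact_mod_cast (mul_right_cancel₀ h6 h5).symm

theorem order_eq_of_chi_eq (P : GraphProperty) (h1 : ∀ F : SimpleGraph (Fin 1), P.mem 1 F)
    {n n' : ℕ} (G : SimpleGraph (Fin n))
    (H : SimpleGraph (Fin n')) (h : chi P G = chi P H) : n = n' := by
  have hh := har_eq_of_chi_eq P G H h
  rcases lt_trichotomy n n' with hlt | heq | hgt
  · have := har_top_pos P h1 H
    rw [← hh n', har_zero_of_lt P G n' hlt] at this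
    omega
  · exact heq
  · have := har_top_pos P h1 G
    rw [hh n, har_zero_of_lt P H n hgt] at this
    omega

end Pool.Agent.X322.Har
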