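import Pool.Agent.X322.Har9

set_option autoImplicit false

/-! Levels available at order `n` and size `m`. -/

namespace Pool.Agent.X322.Har

open Finset

/-- number of useful levels -/
noncomputable def Lmn (J n m : ℕ) : ℕ :=
  ⌊Real.logb (5 / 2) (((n - (kk m + 2)).choose (m - (kk m + 2)) : ℝ) /
    (Fintype.card (KT m) * S0 m J))⌋₊

theorem S0_pos (J m : ℕ) (hm : 1 ≤ m) : 1 ≤ S0 m J := by
  unfold S0 MM
  have h1 : (1 : ℝ) ≤ m := by exact_mod_cast hm
  have h2 : (1 : ℝ) ≤ ((100 * m * m : ℕ) : ℝ) ^ J := by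
    apply one_le_pow₀
    have : 1 ≤ 100 * m * m := by nlinarith
    exact_mod_cast this
  nlinarith [mul_nonneg (sub_nonneg.2 h2) (sub_nonneg.2 (by nlinarith : (1 : ℝ) ≤ (m : ℝ) ^ 2))]

theorem Lmn_spec (J n m : ℕ) (hm : 1 ≤ m) (hL : 0 < Lmn J n m) :
    (5 / 2 : ℝ) ^ (Lmn J n m) * (Fintype.card (KT m) * S0 m J)
      ≤ ((n - (kk m + 2)).choose (m - (kk m + 2)) : ℝ) := by
  have hK : (0 : ℝ) < Fintype.card (KT m) := by
    have : 0 < Fintype.card (KT m) := Fintype.card_pos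
    exact_mod_cast this
  have hS := S0_pos J m hm
  have hden : (0 : ℝ) < Fintype.card (KT m) * S0 m J := by positivity
  set R : ℝ := ((n - (kk m + 2)).choose (m - (kk m + 2)) : ℝ) /
    (Fintype.card (KT m) * S0 m J) with hR
  have h1 : 1 ≤ Lmn J n m := hL
  have h2 : (Lmn J n m : ℝ) ≤ Real.logb (5 / 2) R := by
    unfold Lmn at h1 ⊢
    apply Nat.floor_le
    by_contra hneg
    push Not at hneg
    rw [Nat.floor_of_nonpos hneg.le] at h1
    omega
  have hRpos : 0 < R := by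
    by_contra hR0
    push Not at hR0
    have hR00 : R = 0 := le_antisymm hR0 (by rw [hR]; positivity)
    rw [hR00, Real.logb_zero] at h2
    have : (1 : ℝ) ≤ Lmn J n m := by exact_mod_cast h1
    linarith
  rw [Real.le_logb_iff_rpow_le (by norm_num) hRpos, Real.rpow_natCast] at h2
  rw [hR, le_div_iff₀ hden] at h2
  exact h2

theorem Lmn_le (J n m : ℕ) (hm : 1 ≤ m) (hn : n ≤ 100 * m) : Lmn J n m ≤ 100 * m := by
  rcases Nat.eq_zero_or_pos (Lmn J n m) with h | h
  · omega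
  have h1 := Lmn_spec J n m hm h
  have hK : (1 : ℝ) ≤ Fintype.card (KT m) := by
    have : 0 < Fintype.card (KT m) := Fintype.card_pos
    exact_mod_cast this
  have hS := S0_pos J m hm
  have hden : (1 : ℝ) ≤ Fintype.card (KT m) * S0 m J := by nlinarith
  have h2 : ((n - (kk m + 2)).choose (m - (kk m + 2)) : ℝ) ≤ 2 ^ (100 * m) := by
    have a1 : (n - (kk m + 2)).choose (m - (kk m + 2)) ≤ 2 ^ (n - (kk m + 2)) :=
      Nat.choose_le_two_pow _ _
    have a2 : 2 ^ (n - (kk m + 2)) ≤ 2 ^ (100 * m) :=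
      Nat.pow_le_pow_right (by norm_num) (by omega)
    exact_mod_cast a1.trans a2
  by_contra hcon
  push Not at hcon
  have h3 : (2 : ℝ) ^ (100 * m) < (5 / 2) ^ (Lmn J n m) := by
    calc (2 : ℝ) ^ (100 * m) < 2 ^ (Lmn J n m) := pow_lt_pow_right₀ (by norm_num) hcon
      _ ≤ (5 / 2) ^ (Lmn J n m) := pow_le_pow_left₀ (by norm_num) (by norm_num) _
  have h4 : (5 / 2 : ℝ) ^ (Lmn J n m) ≤
      (5 / 2 : ℝ) ^ (Lmn J n m) * (Fintype.card (KT m) * S0 m J) :=
    le_mul_of_one_le_right (by positivity) hden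
  linarith

theorem levels (J n m : ℕ) (hm : 1 ≤ m) (hn : n ≤ 100 * m) (hk : kk m + 2 ≤ m)
    (lam : SimpleGraph (Fin m) → Lab m) (hlam : GoodLab J m lam)
    (G : SimpleGraph (Fin n)) (hG : Typ2 m J G) (τ : KT m) (hτ : Nonempty (τ ↪g G)) :
    ∀ l < Lmn J n m, 2 * AA lam G τ (l + 1) < AA lam G τ l := by
  intro l hl
  have hL : 0 < Lmn J n m := by omega
  have hspec := Lmn_spec J n m hm hL
  have hLle := Lmn_le J n m hm hn
  have hK : (0 : ℝ) < Fintype.card (KT m) := by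
    have : 0 < Fintype.card (KT m) := Fintype.card_pos
    exact_mod_cast this
  have hS := S0_pos J m hm
  have hW : ((n - (kk m + 2)).choose (m - (kk m + 2)) : ℝ) ≤ WW G m τ := by
    exact_mod_cast WW_ge G τ hk hτ
  have hW0 : (0 : ℝ) ≤ WW G m τ := Nat.cast_nonneg _
  have key : ∀ j, j ≤ Lmn J n m → S0 m J ≤ pp m j * WW G m τ := by
    intro j hj
    unfold pp
    have h1 : (5 / 2 : ℝ) ^ (Lmn J n m) * (Fintype.card (KT m) * S0 m J) ≤ WW G m τ :=
      hspec.trans hW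
    have h2 : (2 / 5 : ℝ) ^ (Lmn J n m) ≤ (2 / 5) ^ j :=
      pow_le_pow_of_le_one (by norm_num) (by norm_num) hj
    have h3 : (2 / 5 : ℝ) ^ (Lmn J n m) * (5 / 2) ^ (Lmn J n m) = 1 := by
      rw [← mul_pow]; norm_num
    rw [div_mul_eq_mul_div, le_div_iff₀ hK]
    calc S0 m J * Fintype.card (KT m)
        = (2 / 5 : ℝ) ^ (Lmn J n m) * ((5 / 2 : ℝ) ^ (Lmn J n m) *
          (Fintype.card (KT m) * S0 m J)) := by
          rw [← mul_assoc, h3]; ring
      _ ≤ (2 / 5 : ℝ) ^ (Lmn J n m) * WW G m τ :=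
          mul_le_mul_of_nonneg_left h1 (by positivity)
      _ ≤ (2 / 5 : ℝ) ^ j * WW G m τ := mul_le_mul_of_nonneg_right h2 hW0
  have a1 := hlam n hn G hG τ l (by omega) (key l (by omega))
  have a2 := hlam n hn G hG τ (l + 1) (by omega) (key (l + 1) (by omega))
  have hp : pp m (l + 1) = 2 / 5 * pp m l := by
    unfold pp; rw [pow_succ]; ring
  rw [hp] at a2
  have k1 := key l (by omega)
  rw [abs_lt] at a1 a2
  have : (2 : ℝ) * AA lam G τ (l + 1) < AA lam G τ l := by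
    have b1 := a1.1
    have b2 := a2.2
    nlinarith
  exact_mod_cast this

end Pool.Agent.X322.Har
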