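import Pool.Agent.X322.Har10

set_option autoImplicit false

/-! The numerical estimate. -/

namespace Pool.Agent.X322.Har

open Finset Filter

theorem log_fact (n : ℕ) : Real.log (n.factorial : ℝ) ≤ (n + 1) * Real.log (n + 1) - n := by
  induction n with
  | zero => simp
  | succ n ih =>
    rw [Nat.factorial_succ]
    have h1 : (0 : ℝ) < n + 1 := by positivity
    have h2 : (0 : ℝ) < n + 2 := by positivity
    have hf : (0 : ℝ) < n.factorial := by exact_mod_cast n.factorial_pos
    push_cast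
    rw [Real.log_mul h1.ne' hf.ne']
    have h3 : Real.log ((n + 1 : ℝ) / (n + 2)) ≤ (n + 1 : ℝ) / (n + 2) - 1 :=
      Real.log_le_sub_one_of_pos (by positivity)
    rw [Real.log_div h1.ne' h2.ne'] at h3
    have h4 : (n + 1 : ℝ) / (n + 2) - 1 = -1 / (n + 2) := by
      field_simp; ring
    rw [h4] at h3
    have h5 : (n + 2 : ℝ) * (Real.log (n + 1) - Real.log (n + 2)) ≤ -1 := by
      calc (n + 2 : ℝ) * (Real.log (n + 1) - Real.log (n + 2)) ≤ (n + 2) * (-1 / (n + 2)) :=
            mul_le_mul_of_nonneg_left h3 h2.le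
        _ = -1 := by field_simp
    have e : ((n : ℝ) + 1 + 1) = n + 2 := by ring
    rw [e]
    nlinarith

noncomputable def aa (n : ℕ) : ℝ := ∑ m ∈ range (n + 1), Real.log (n.choose m)

theorem aa_succ (n : ℕ) :
    aa (n + 1) = aa n + (n + 1) * Real.log (n + 1) - Real.log ((n + 1).factorial) := by
  have h1 : ∀ m ∈ range (n + 1), Real.log ((n + 1).choose m)
      = Real.log (n.choose m) + Real.log (n + 1) - Real.log (((n + 1 - 1 - m : ℕ) : ℝ) + 1) := by
    intro m hm
    rw [mem_range] at hm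
    have h := Nat.choose_mul_succ_eq n m
    have c1 : (0 : ℝ) < n.choose m := by exact_mod_cast Nat.choose_pos (by omega)
    have c2 : (0 : ℝ) < (n + 1).choose m := by exact_mod_cast Nat.choose_pos (by omega)
    have c3 : (0 : ℝ) < ((n + 1 - 1 - m : ℕ) : ℝ) + 1 := by positivity
    have h' : (n.choose m : ℝ) * (n + 1) = (n + 1).choose m * (((n + 1 - 1 - m : ℕ) : ℝ) + 1) := by
      have : n + 1 - m = (n + 1 - 1 - m) + 1 := by omega
      rw [this] at h
      exact_mod_cast h
    have h'' := congrArg Real.log h'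
    rw [Real.log_mul c1.ne' (by positivity), Real.log_mul c2.ne' c3.ne'] at h''
    linarith
  have h2 : ∑ m ∈ range (n + 1), Real.log (((n + 1 - 1 - m : ℕ) : ℝ) + 1)
      = Real.log ((n + 1).factorial) := by
    rw [Finset.sum_range_reflect (fun j => Real.log ((j : ℝ) + 1)) (n + 1),
      ← Real.log_prod (fun j _ => by positivity), ← Finset.prod_range_add_one_eq_factorial]
    push_cast
    rfl
  unfold aa
  rw [Finset.sum_range_succ, Finset.sum_congr rfl h1, Finset.sum_sub_distrib,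
    Finset.sum_add_distrib, h2, Finset.sum_const, card_range, nsmul_eq_mul, Nat.choose_self]
  push_cast
  rw [Real.log_one]
  ring

theorem aa_ge (n : ℕ) : (n : ℝ) * (n - 1) / 2 - n * Real.log (n + 1) ≤ aa n := by
  induction n with
  | zero => simp [aa]
  | succ n ih =>
    rw [aa_succ, Nat.factorial_succ]
    have h1 : (0 : ℝ) < n + 1 := by positivity
    have hf : (0 : ℝ) < n.factorial := by exact_mod_cast n.factorial_pos
    push_cast
    rw [Real.log_mul h1.ne' hf.ne']
    have h2 := log_fact n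
    have h3 : Real.log ((n : ℝ) + 1) ≤ Real.log (n + 1 + 1) :=
      Real.log_le_log h1 (by linarith)
    have h4 : (0 : ℝ) ≤ n := Nat.cast_nonneg n
    nlinarith

theorem log_52 : Real.log (5 / 2) ≤ 0.9432 := by
  have h1 : Real.log (5 / 2) = Real.log (5 / 4) + Real.log 2 := by
    rw [← Real.log_mul (by norm_num) (by norm_num)]; norm_num
  have h2 : Real.log (5 / 4) ≤ 5 / 4 - 1 := Real.log_le_sub_one_of_pos (by norm_num)
  have h3 := Real.log_two_lt_d9
  rw [h1]
  linarith

theorem log_52_pos : 0 < Real.log (5 / 2) := Real.log_pos (by norm_num)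

/-- lower bound for one size -/
theorem one_size (J n m : ℕ) (hn : 100 ≤ n) (hmn : m ≤ n) (hm : n ≤ 100 * m) (hk : kk m + 2 ≤ m) :
    Real.log (n.choose m) - (Real.sqrt n / 10 + 2) * Real.log (n + 1) - (0.007 * n + 2.8)
      - (6 + 3 * J) * Real.log (n + 1) ≤ 0.9432 * ((Lmn J n m : ℝ) + 1) := by
  set k := kk m + 2 with hkdef
  have hm1 : 1 ≤ m := by omega
  have hK : (0 : ℝ) < Fintype.card (KT m) := by
    have : 0 < Fintype.card (KT m) := Fintype.card_pos
    exact_mod_cast this
  have hS := S0_pos J m hm1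
  have hnR : (100 : ℝ) ≤ n := by exact_mod_cast hn
  have hlogn : 0 ≤ Real.log (n + 1) := Real.log_nonneg (by linarith)
  have hlog' : Real.log n ≤ Real.log (n + 1) := Real.log_le_log (by linarith) (by linarith)
  have hC : (0 : ℝ) < ((n - k).choose (m - k) : ℝ) := by
    exact_mod_cast Nat.choose_pos (by omega)
  set R : ℝ := ((n - k).choose (m - k) : ℝ) / (Fintype.card (KT m) * S0 m J) with hR
  have hRpos : 0 < R := by positivity
  -- floor
  have h1 : Real.logb (5 / 2) R < (Lmn J n m : ℝ) + 1 := by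
    have := Nat.lt_floor_add_one (Real.logb (5 / 2) R)
    exact this
  have h2 : Real.log R ≤ 0.9432 * ((Lmn J n m : ℝ) + 1) := by
    have h3 : Real.log R = Real.logb (5 / 2) R * Real.log (5 / 2) := by
      unfold Real.logb
      field_simp [log_52_pos.ne']
    have hL0 : (0 : ℝ) ≤ (Lmn J n m : ℝ) + 1 := by positivity
    rw [h3]
    calc Real.logb (5 / 2) R * Real.log (5 / 2)
        ≤ ((Lmn J n m : ℝ) + 1) * Real.log (5 / 2) :=
          mul_le_mul_of_nonneg_right h1.le log_52_pos.le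
      _ ≤ ((Lmn J n m : ℝ) + 1) * 0.9432 := mul_le_mul_of_nonneg_left log_52 hL0
      _ = _ := by ring
  refine le_trans ?_ h2
  rw [hR, Real.log_div hC.ne' (by positivity), Real.log_mul hK.ne' (by linarith)]
  -- binomial
  have hkm2 : (kk m : ℝ) ^ 2 ≤ n / 100 := by
    have a1 : kk m * kk m ≤ m / 100 := Nat.sqrt_le _
    have a2 : (kk m : ℝ) * kk m ≤ (m : ℝ) / 100 := by
      have : ((kk m * kk m : ℕ) : ℝ) ≤ ((m / 100 : ℕ) : ℝ) := by exact_mod_cast a1
      have h' : ((m / 100 : ℕ) : ℝ) ≤ (m : ℝ) / 100 := Nat.cast_div_le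
      push_cast at this
      linarith
    have a3 : (m : ℝ) ≤ n := by exact_mod_cast hmn
    rw [pow_two]
    linarith
  have hkm : (kk m : ℝ) ≤ Real.sqrt n / 10 := by
    have : Real.sqrt n / 10 = Real.sqrt (n / 100) := by
      rw [Real.sqrt_div (Nat.cast_nonneg n)]
      congr 1
      rw [show (100 : ℝ) = 10 ^ 2 by norm_num, Real.sqrt_sq (by norm_num)]
    rw [this]
    exact Real.le_sqrt_of_sq_le hkm2
  have hbin : Real.log (n.choose m) - (Real.sqrt n / 10 + 2) * Real.log (n + 1)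
      ≤ Real.log ((n - k).choose (m - k)) := by
    have b1 : n.choose m ≤ n ^ k * (n - k).choose (m - k) := by
      have b2 := Nat.choose_mul (n := n) hk
      have b3 : 1 ≤ m.choose k := Nat.choose_pos hk
      have b4 : n.choose k ≤ n ^ k := Nat.choose_le_pow _ _
      calc n.choose m = n.choose m * 1 := (mul_one _).symm
        _ ≤ n.choose m * m.choose k := Nat.mul_le_mul_left _ b3
        _ = n.choose k * (n - k).choose (m - k) := b2
        _ ≤ n ^ k * (n - k).choose (m - k) := Nat.mul_le_mul_right _ b4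
    have b1' : (n.choose m : ℝ) ≤ (n : ℝ) ^ k * (n - k).choose (m - k) := by exact_mod_cast b1
    have b5 : (0 : ℝ) < n.choose m := by exact_mod_cast Nat.choose_pos hmn
    have b6 := Real.log_le_log b5 b1'
    rw [Real.log_mul (by positivity) hC.ne', Real.log_pow] at b6
    have b7 : (k : ℝ) * Real.log n ≤ (Real.sqrt n / 10 + 2) * Real.log (n + 1) := by
      have : (k : ℝ) ≤ Real.sqrt n / 10 + 2 := by
        rw [hkdef]; push_cast; linarith
      have hl0 : 0 ≤ Real.log (n : ℝ) := Real.log_nonneg (by linarith)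
      calc (k : ℝ) * Real.log n ≤ (Real.sqrt n / 10 + 2) * Real.log n :=
            mul_le_mul_of_nonneg_right this hl0
        _ ≤ _ := mul_le_mul_of_nonneg_left hlog' (by positivity)
    linarith
  -- number of cores
  have hcores : Real.log (Fintype.card (KT m)) ≤ 0.007 * n + 2.8 := by
    have e1 : Fintype.card (KT m) = 2 ^ k.choose 2 := by
      rw [← card_graphs]
    rw [e1]
    push_cast
    rw [Real.log_pow]
    have e2 : ((k.choose 2 : ℕ) : ℝ) ≤ (n : ℝ) / 100 + 4 := by
      have e3 : (k.choose 2 : ℝ) ≤ (k : ℝ) * k / 2 := by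
        have := choose_two_le k
        have h' : ((k.choose 2 : ℕ) : ℝ) ≤ ((k * k / 2 : ℕ) : ℝ) := by exact_mod_cast this
        have h'' : ((k * k / 2 : ℕ) : ℝ) ≤ ((k * k : ℕ) : ℝ) / ((2 : ℕ) : ℝ) := Nat.cast_div_le
        push_cast at h''
        linarith
      have e4 : (k : ℝ) = kk m + 2 := by rw [hkdef]; push_cast; ring
      rw [e4] at e3
      nlinarith [sq_nonneg ((kk m : ℝ) - 2)]
    have e5 := Real.log_two_lt_d9
    have e6 : (0 : ℝ) < Real.log 2 := Real.log_pos (by norm_num)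
    have hn0 : (0 : ℝ) ≤ n := by linarith
    calc ((k.choose 2 : ℕ) : ℝ) * Real.log 2 ≤ ((n : ℝ) / 100 + 4) * Real.log 2 :=
          mul_le_mul_of_nonneg_right e2 e6.le
      _ ≤ ((n : ℝ) / 100 + 4) * 0.7 := mul_le_mul_of_nonneg_left (by linarith) (by positivity)
      _ = _ := by ring
  -- threshold
  have hthr : Real.log (S0 m J) ≤ (6 + 3 * J) * Real.log (n + 1) := by
    have f1 : S0 m J ≤ (n : ℝ) ^ (6 + 3 * J) := by
      unfold S0 MM
      have g1 : (m : ℝ) ≤ n := by exact_mod_cast hmn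
      have g0 : (0 : ℝ) ≤ m := Nat.cast_nonneg m
      have g2 : ((100 * m * m : ℕ) : ℝ) ≤ (n : ℝ) ^ 3 := by
        push_cast
        calc (100 : ℝ) * m * m ≤ n * n * n := by
              apply mul_le_mul (mul_le_mul hnR g1 g0 (by linarith)) g1 g0 (by positivity)
          _ = (n : ℝ) ^ 3 := by ring
      have g3 : ((100 * m * m : ℕ) : ℝ) ^ J ≤ (n : ℝ) ^ (3 * J) := by
        rw [pow_mul]
        exact pow_le_pow_left₀ (Nat.cast_nonneg _) g2 J
      have g4 : (m : ℝ) ^ 2 ≤ (n : ℝ) ^ 2 := pow_le_pow_left₀ g0 g1 2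
      have g5 : (40000000 : ℝ) ≤ (n : ℝ) ^ 4 := by
        calc (40000000 : ℝ) ≤ 100 ^ 4 := by norm_num
          _ ≤ (n : ℝ) ^ 4 := pow_le_pow_left₀ (by norm_num) hnR 4
      calc 400 * ((100 * m * m : ℕ) : ℝ) ^ J * (100000 * (m : ℝ) ^ 2)
          = 40000000 * (((100 * m * m : ℕ) : ℝ) ^ J * (m : ℝ) ^ 2) := by ring
        _ ≤ (n : ℝ) ^ 4 * ((n : ℝ) ^ (3 * J) * (n : ℝ) ^ 2) := by
            apply mul_le_mul g5 (mul_le_mul g3 g4 (by positivity) (by positivity))
              (by positivity) (by positivity)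
        _ = (n : ℝ) ^ (6 + 3 * J) := by rw [← pow_add, ← pow_add]; congr 1; ring
    have f2 := Real.log_le_log (by linarith) f1
    rw [Real.log_pow] at f2
    refine f2.trans ?_
    push_cast
    exact mul_le_mul_of_nonneg_left hlog' (by positivity)
  linarith

theorem log_small (c : ℝ) (hc : 0 < c) : ∀ᶠ n : ℕ in atTop,
    Real.sqrt n * Real.log (n + 1) ≤ c * (n + 1) ∧ Real.log (n + 1) ≤ c * (n + 1) := by
  have h := isLittleO_log_rpow_atTop (r := 1 / 2) (by norm_num)
  have h1 := h.def hc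
  have ht : Tendsto (fun n : ℕ => (n : ℝ) + 1) atTop atTop :=
    tendsto_atTop_add_const_right _ _ tendsto_natCast_atTop_atTop
  have h2 := ht.eventually h1
  filter_upwards [h2] with n hn
  have hn0 : (0 : ℝ) ≤ n := Nat.cast_nonneg n
  have hl : 0 ≤ Real.log ((n : ℝ) + 1) := Real.log_nonneg (by linarith)
  rw [Real.norm_of_nonneg hl, Real.norm_of_nonneg (by positivity), ← Real.sqrt_eq_rpow] at hn
  have hs : Real.sqrt n ≤ Real.sqrt ((n : ℝ) + 1) := Real.sqrt_le_sqrt (by linarith)
  have hss : Real.sqrt ((n : ℝ) + 1) * Real.sqrt ((n : ℝ) + 1) = n + 1 :=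
    Real.mul_self_sqrt (by linarith)
  have hs1 : (1 : ℝ) ≤ Real.sqrt ((n : ℝ) + 1) := Real.one_le_sqrt.2 (by linarith)
  have hs0 := Real.sqrt_nonneg (n : ℝ)
  constructor
  · calc Real.sqrt n * Real.log (n + 1)
        ≤ Real.sqrt ((n : ℝ) + 1) * (c * Real.sqrt ((n : ℝ) + 1)) :=
          mul_le_mul hs hn hl (by positivity)
      _ = c * (Real.sqrt ((n : ℝ) + 1) * Real.sqrt ((n : ℝ) + 1)) := by ring
      _ = _ := by rw [hss]
  · refine hn.trans ?_
    apply mul_le_mul_of_nonneg_left _ hc.le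
    nlinarith

/-- the relevant sizes at order `n` -/
def MS (n : ℕ) : Finset ℕ := (range (n + 1)).filter fun m => n ≤ 100 * m

theorem kk_add_le {n m : ℕ} (hn : 300 ≤ n) (hm : n ≤ 100 * m) : kk m + 2 ≤ m := by
  have h1 : kk m ≤ m / 100 := Nat.sqrt_le_self _
  omega

theorem numeric (J : ℕ) : ∀ᶠ n : ℕ in atTop,
    n.choose 2 + 2 * n ≤ ∑ m ∈ MS n, Lmn J n m := by
  have hc : (0 : ℝ) < 1 / (1000 * (8 + 3 * J)) := by positivity
  filter_upwards [log_small _ hc, eventually_ge_atTop 10000] with n ⟨hl1, hl2⟩ hn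
  have hnR : (10000 : ℝ) ≤ n := by exact_mod_cast hn
  have hJ0 : (0 : ℝ) ≤ J := Nat.cast_nonneg J
  have hlogn : 0 ≤ Real.log ((n : ℝ) + 1) := Real.log_nonneg (by linarith)
  set ℓ := Real.log ((n : ℝ) + 1) with hℓ
  set q : ℝ := (Real.sqrt n / 10 + 2) * ℓ + (0.007 * n + 2.8) + (6 + 3 * J) * ℓ with hq
  have hq_le : q ≤ 0.0011 * (n + 1) + 0.007 * n + 2.8 := by
    have e1 : (8 + 3 * (J : ℝ)) * ℓ ≤ 0.001 * (n + 1) := by
      calc (8 + 3 * (J : ℝ)) * ℓ ≤ (8 + 3 * J) * (1 / (1000 * (8 + 3 * J)) * (n + 1)) :=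
            mul_le_mul_of_nonneg_left hl2 (by positivity)
        _ = 0.001 * (n + 1) := by field_simp; norm_num
    have e2 : Real.sqrt n * ℓ ≤ 0.001 * (n + 1) := by
      refine hl1.trans ?_
      apply mul_le_mul_of_nonneg_right _ (by linarith)
      rw [div_le_iff₀ (by positivity)]
      nlinarith
    have e3 : q = (8 + 3 * (J : ℝ)) * ℓ + (Real.sqrt n * ℓ) / 10 + (0.007 * n + 2.8) := by
      rw [hq]; ring
    rw [e3]
    linarith
  have hq0 : 0 ≤ q := by rw [hq]; positivity
  -- sum over relevant sizes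
  have h1 : ∑ m ∈ MS n, (Real.log (n.choose m) - q)
      ≤ 0.9432 * ∑ m ∈ MS n, ((Lmn J n m : ℝ) + 1) := by
    rw [Finset.mul_sum]
    apply Finset.sum_le_sum
    intro m hm
    rw [MS, mem_filter, mem_range] at hm
    have := one_size J n m (by omega) (by omega) hm.2 (kk_add_le (by omega) hm.2)
    rw [hq]
    linarith
  have hcard : ((MS n).card : ℝ) ≤ n + 1 := by
    have : (MS n).card ≤ n + 1 := by
      have := Finset.card_filter_le (range (n + 1)) (fun m => n ≤ 100 * m)
      rwa [card_range] at this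
    exact_mod_cast this
  have h2 : aa n - (n / 100 + 1) * (n * Real.log 2) ≤ ∑ m ∈ MS n, Real.log (n.choose m) := by
    have hs := Finset.sum_filter_add_sum_filter_not (range (n + 1)) (fun m => n ≤ 100 * m)
      (fun m => Real.log (n.choose m : ℝ))
    have hrest : ∑ m ∈ (range (n + 1)).filter (fun m => ¬ n ≤ 100 * m), Real.log (n.choose m : ℝ)
        ≤ (n / 100 + 1) * (n * Real.log 2) := by
      have hl20 : 0 ≤ Real.log 2 := Real.log_nonneg (by norm_num)
      have hterm : ∀ m ∈ (range (n + 1)).filter (fun m => ¬ n ≤ 100 * m),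
          Real.log (n.choose m : ℝ) ≤ n * Real.log 2 := by
        intro m hm
        rw [mem_filter, mem_range] at hm
        have c1 : (0 : ℝ) < n.choose m := by exact_mod_cast Nat.choose_pos (by omega)
        have c2 : (n.choose m : ℝ) ≤ 2 ^ n := by exact_mod_cast Nat.choose_le_two_pow n m
        have := Real.log_le_log c1 c2
        rwa [Real.log_pow] at this
      refine (Finset.sum_le_sum hterm).trans ?_
      rw [Finset.sum_const, nsmul_eq_mul]
      apply mul_le_mul_of_nonneg_right _ (by positivity)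
      have hsub : (range (n + 1)).filter (fun m => ¬ n ≤ 100 * m) ⊆ range (n / 100 + 1) := by
        intro m hm
        rw [mem_filter, mem_range] at hm
        rw [mem_range]
        omega
      have := Finset.card_le_card hsub
      rw [card_range] at this
      have h' : (((range (n + 1)).filter (fun m => ¬ n ≤ 100 * m)).card : ℝ)
          ≤ ((n / 100 + 1 : ℕ) : ℝ) := by exact_mod_cast this
      have h'' : ((n / 100 : ℕ) : ℝ) ≤ (n : ℝ) / 100 := Nat.cast_div_le
      push_cast at h'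
      linarith
    unfold aa MS
    linarith
  have h3 := aa_ge n
  have h4 := Real.log_two_lt_d9
  have h40 : 0 ≤ Real.log 2 := Real.log_nonneg (by norm_num)
  rw [Finset.sum_sub_distrib, Finset.sum_const, nsmul_eq_mul, Finset.sum_add_distrib,
    Finset.sum_const, nsmul_eq_mul, mul_one] at h1
  have h5 : ((MS n).card : ℝ) * q ≤ (n + 1) * q := mul_le_mul_of_nonneg_right hcard hq0
  have h6 : (n : ℝ) * ℓ ≤ 0.001 * n * (n + 1) := by
    have : ℓ ≤ 0.001 * (n + 1) := by
      refine hl2.trans ?_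
      apply mul_le_mul_of_nonneg_right _ (by linarith)
      rw [div_le_iff₀ (by positivity)]
      nlinarith
    nlinarith
  have h7 : (n / 100 + 1 : ℝ) * (n * Real.log 2) ≤ (n / 100 + 1) * (n * 0.6932) := by
    apply mul_le_mul_of_nonneg_left _ (by positivity)
    apply mul_le_mul_of_nonneg_left _ (by linarith)
    linarith
  have h8 : (n + 1 : ℝ) * q ≤ (n + 1) * (0.0011 * (n + 1) + 0.007 * n + 2.8) :=
    mul_le_mul_of_nonneg_left hq_le (by linarith)
  have h9 : (n : ℝ) * (n - 1) / 2 - 0.001 * n * (n + 1) - (n / 100 + 1) * (n * 0.6932)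
      - (n + 1) * (0.0011 * (n + 1) + 0.007 * n + 2.8)
      ≤ 0.9432 * (∑ m ∈ MS n, (Lmn J n m : ℝ) + (n + 1)) := by
    have : 0.9432 * (∑ m ∈ MS n, (Lmn J n m : ℝ) + ((MS n).card : ℝ))
        ≤ 0.9432 * (∑ m ∈ MS n, (Lmn J n m : ℝ) + (n + 1)) := by linarith
    linarith
  have h10 : ((n.choose 2 + 2 * n : ℕ) : ℝ) ≤ ((∑ m ∈ MS n, Lmn J n m : ℕ) : ℝ) := by
    push_cast
    have h11 : (n.choose 2 : ℝ) = n * (n - 1) / 2 := Nat.cast_choose_two ℝ n
    rw [h11]
    nlinarith
  exact_mod_cast h10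

end Pool.Agent.X322.Har
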