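import Pool.Agent.X322.Har11

set_option autoImplicit false

/-! Typical graphs. -/

namespace Pool.Agent.X322.Har

open Finset Filter Topology

noncomputable def xx (n : ℕ) : ℝ := (1 / 2 : ℝ) ^ (Real.sqrt n / 900)

theorem xx_pos (n : ℕ) : 0 < xx n := by unfold xx; positivity

theorem xx_tendsto (k : ℕ) : Tendsto (fun n : ℕ => (n : ℝ) ^ k * xx n) atTop (𝓝 0) := by
  have hl : 0 < Real.log 2 := Real.log_pos (by norm_num)
  have h1 := Real.tendsto_pow_mul_exp_neg_atTop_nhds_zero (2 * k)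
  have h2 : Tendsto (fun n : ℕ => Real.log 2 / 900 * Real.sqrt n) atTop atTop := by
    apply Tendsto.const_mul_atTop (by positivity)
    exact (Real.tendsto_sqrt_atTop).comp tendsto_natCast_atTop_atTop
  have h3 := h1.comp h2
  have h4 := h3.const_mul ((900 / Real.log 2) ^ (2 * k))
  rw [mul_zero] at h4
  refine h4.congr fun n => ?_
  simp only [Function.comp]
  have hs : (Real.sqrt n) ^ (2 * k) = (n : ℝ) ^ k := by
    rw [pow_mul, Real.sq_sqrt (Nat.cast_nonneg n)]
  have hx : xx n = Real.exp (-(Real.log 2 / 900 * Real.sqrt n)) := by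
    unfold xx
    rw [Real.rpow_def_of_pos (by norm_num), show (1 / 2 : ℝ) = 2⁻¹ by norm_num, Real.log_inv]
    congr 1
    ring
  rw [hx, ← hs, ← mul_assoc, ← mul_pow]
  congr 2
  field_simp

theorem kk_ge {n m : ℕ} (hm : n ≤ 100 * m) : Real.sqrt n / 100 - 1 ≤ kk m := by
  have h1 : m / 100 < (kk m + 1) ^ 2 := Nat.lt_succ_sqrt' _
  have h2 : (m : ℝ) / 100 ≤ ((kk m : ℝ) + 1) ^ 2 := by
    have h3 : m / 100 + 1 ≤ (kk m + 1) ^ 2 := h1
    have h4 : ((m / 100 + 1 : ℕ) : ℝ) ≤ (((kk m + 1) ^ 2 : ℕ) : ℝ) := by exact_mod_cast h3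
    have h5 : m < 100 * (m / 100 + 1) := by omega
    have h6 : (m : ℝ) < ((100 * (m / 100 + 1) : ℕ) : ℝ) := by exact_mod_cast h5
    push_cast at h4 h6
    linarith
  have h7 : (n : ℝ) ≤ 100 * m := by exact_mod_cast hm
  have h8 : Real.sqrt n ≤ 100 * (kk m + 1) := by
    apply Real.sqrt_le_iff.2
    refine ⟨by positivity, ?_⟩
    nlinarith
  linarith

theorem th_le {n m : ℕ} (hm : n ≤ 100 * m) : th (kk m) ≤ 2 * xx n := by
  have h := kk_ge hm
  unfold th xx
  have e : (2 : ℝ) * (1 / 2) ^ (Real.sqrt n / 900) = (1 / 2 : ℝ) ^ (Real.sqrt n / 900 - 1) := by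
    rw [Real.rpow_sub (by norm_num), Real.rpow_one]
    field_simp
  rw [e]
  apply Real.rpow_le_rpow_of_exponent_ge (by norm_num) (by norm_num)
  linarith

theorem half_le {n m : ℕ} (hm : n ≤ 100 * m) : (1 / 2 : ℝ) ^ kk m ≤ 2 * xx n := by
  have h := kk_ge hm
  unfold xx
  have e : (2 : ℝ) * (1 / 2) ^ (Real.sqrt n / 900) = (1 / 2 : ℝ) ^ (Real.sqrt n / 900 - 1) := by
    rw [Real.rpow_sub (by norm_num), Real.rpow_one]
    field_simp
  rw [e, ← Real.rpow_natCast]
  apply Real.rpow_le_rpow_of_exponent_ge (by norm_num) (by norm_num)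
  have := Real.sqrt_nonneg (n : ℝ)
  linarith

theorem th_mono {s m : ℕ} (h : s ≤ m) : th m ≤ th s := by
  unfold th
  apply Real.rpow_le_rpow_of_exponent_ge (by norm_num) (by norm_num)
  have : (s : ℝ) ≤ m := by exact_mod_cast h
  linarith

theorem th_pow {n m : ℕ} (hm : n ≤ 100 * m) (hn : 1 ≤ n) :
    (2 : ℝ) ^ n * th m ^ 2000 ≤ 2 ^ 889 * xx n := by
  have hmr : (n : ℝ) ≤ 100 * m := by exact_mod_cast hm
  have hnr : (1 : ℝ) ≤ n := by exact_mod_cast hn
  have e1 : th m ^ 2000 = (1 / 2 : ℝ) ^ (((m : ℝ) - 4) / 9 * 2000) := by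
    unfold th
    rw [← Real.rpow_natCast, ← Real.rpow_mul (by norm_num)]
    norm_num
  have e2 : (2 : ℝ) ^ n = (1 / 2 : ℝ) ^ (-(n : ℝ)) := by
    rw [Real.rpow_neg (by norm_num), Real.rpow_natCast]
    rw [← inv_pow]
    norm_num
  have e3 : (2 : ℝ) ^ 889 = (1 / 2 : ℝ) ^ (-(889 : ℝ)) := by
    rw [Real.rpow_neg (by norm_num), show (889 : ℝ) = ((889 : ℕ) : ℝ) by norm_num,
      Real.rpow_natCast, ← inv_pow]
    norm_num
  unfold xx
  rw [e1, e2, e3, ← Real.rpow_add (by norm_num), ← Real.rpow_add (by norm_num)]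
  apply Real.rpow_le_rpow_of_exponent_ge (by norm_num) (by norm_num)
  have hs : Real.sqrt n ≤ n := by
    rw [Real.sqrt_le_left (by linarith)]
    nlinarith
  nlinarith

def TypG (J n : ℕ) (G : SimpleGraph (Fin n)) : Prop :=
  ∀ m ∈ MS n, Typ1 (kk m) G ∧ Typ2 m J G

open Classical in
theorem typG_bound : ∃ f : ℕ → ℝ, Tendsto f atTop (𝓝 0) ∧ ∀ᶠ n : ℕ in atTop,
    ((univ.filter fun G : SimpleGraph (Fin n) => ¬ TypG 2000 n G).card : ℝ)
      ≤ 2 ^ n.choose 2 * f n := by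
  refine ⟨fun n => 32 * ((n : ℝ) ^ 4 * xx n) + 2 ^ 891 * ((n : ℝ) ^ 4002 * xx n), ?_, ?_⟩
  · have h1 := (xx_tendsto 4).const_mul 32
    have h2 := (xx_tendsto 4002).const_mul ((2 : ℝ) ^ 891)
    have h3 := h1.add h2
    simpa using h3
  have hx := (xx_tendsto 2).eventually (gt_mem_nhds (show (0 : ℝ) < 1 / 2 by norm_num))
  filter_upwards [hx, eventually_ge_atTop 250000] with n hx hn
  have hnr : (250000 : ℝ) ≤ n := by exact_mod_cast hn
  have hn0 : (0 : ℝ) ≤ n := by linarith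
  have hn1 : (1 : ℝ) ≤ n := by linarith
  have hxp := xx_pos n
  set N : ℝ := 2 ^ n.choose 2 with hN
  -- each size
  have hsize : ∀ m ∈ MS n,
      (((univ.filter fun G : SimpleGraph (Fin n) => ¬ Typ1 (kk m) G) ∪
        (univ.filter fun G : SimpleGraph (Fin n) => ¬ Typ2 m 2000 G)).card : ℝ)
        ≤ N * (16 * (n : ℝ) ^ 3 * xx n + 2 * n * ((n : ℝ) ^ 4000 * (2 ^ 889 * xx n))) := by
    intro m hm
    rw [MS, mem_filter, mem_range] at hm
    obtain ⟨hmn, hm100⟩ := hm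
    have hkm := kk_add_le (show 300 ≤ n by omega) hm100
    have hkn : kk m ≤ n := by omega
    have hk4 : 4 ≤ kk m := by
      have h1 := kk_ge hm100
      have h2 : (500 : ℝ) ≤ Real.sqrt n := by
        rw [show (500 : ℝ) = Real.sqrt (500 ^ 2) by rw [Real.sqrt_sq (by norm_num)]]
        apply Real.sqrt_le_sqrt
        linarith
      have h3 : (4 : ℝ) ≤ kk m := by linarith
      exact_mod_cast h3
    have hkr : (kk m : ℝ) ≤ n := by exact_mod_cast hkn
    have hkr1 : (kk m : ℝ) + 1 ≤ n := by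
      have : kk m + 1 ≤ n := by omega
      exact_mod_cast this
    have hmr : (m : ℝ) ≤ n := by exact_mod_cast (show m ≤ n by omega)
    have hk0 : (0 : ℝ) ≤ kk m := Nat.cast_nonneg _
    have hm0 : (0 : ℝ) ≤ m := Nat.cast_nonneg _
    have ht := th_le hm100
    have htp := th_pos (kk m)
    have hh := half_le hm100
    have q1 : (kk m * n : ℝ) * th (kk m) ≤ (n : ℝ) ^ 2 * (2 * xx n) := by
      apply mul_le_mul _ ht htp.le (by positivity)
      rw [pow_two]
      exact mul_le_mul_of_nonneg_right hkr hn0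
    have q2 : (n : ℝ) ^ 2 * (2 * xx n) ≤ 1 := by linarith
    have q3 : (m * n : ℝ) * th m ≤ (n : ℝ) ^ 2 * (2 * xx n) := by
      apply mul_le_mul _ ((th_mono (show kk m ≤ m by omega)).trans ht) (th_pos m).le (by positivity)
      rw [pow_two]
      exact mul_le_mul_of_nonneg_right hmr hn0
    have b1 := typ1_bound hk4 hkn (q1.trans q2)
    have b2 := typ2_bound (n := n) 2000 (show 4 ≤ m by omega) (q3.trans q2)
    rw [← hN] at b1 b2
    have hu := Finset.card_union_le (univ.filter fun G : SimpleGraph (Fin n) => ¬ Typ1 (kk m) G)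
      (univ.filter fun G : SimpleGraph (Fin n) => ¬ Typ2 m 2000 G)
    have hu' : (((univ.filter fun G : SimpleGraph (Fin n) => ¬ Typ1 (kk m) G) ∪
        (univ.filter fun G : SimpleGraph (Fin n) => ¬ Typ2 m 2000 G)).card : ℝ)
        ≤ (univ.filter fun G : SimpleGraph (Fin n) => ¬ Typ1 (kk m) G).card +
        (univ.filter fun G : SimpleGraph (Fin n) => ¬ Typ2 m 2000 G).card := by exact_mod_cast hu
    have c1 : 2 * (((kk m : ℝ) + 1) * ((kk m * n : ℝ) * th (kk m)) + n ^ 2 * (1 / 2) ^ kk m)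
        ≤ 16 * (n : ℝ) ^ 3 * xx n := by
      have d1 : ((kk m : ℝ) + 1) * ((kk m * n : ℝ) * th (kk m))
          ≤ n * ((n : ℝ) ^ 2 * (2 * xx n)) :=
        mul_le_mul hkr1 q1 (by positivity) hn0
      have d2 : (n : ℝ) ^ 2 * (1 / 2) ^ kk m ≤ n ^ 2 * (2 * xx n) :=
        mul_le_mul_of_nonneg_left hh (by positivity)
      have d3 : (n : ℝ) ^ 2 * (2 * xx n) ≤ n * ((n : ℝ) ^ 2 * (2 * xx n)) :=
        le_mul_of_one_le_left (by positivity) hn1
      have d4 : n * ((n : ℝ) ^ 2 * (2 * xx n)) = 2 * (n : ℝ) ^ 3 * xx n := by ring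
      have d5 : (0 : ℝ) ≤ (n : ℝ) ^ 3 * xx n := by positivity
      linarith
    have c2 : (2 : ℝ) ^ n * (((m : ℝ) + 1) * ((m * n : ℝ) * th m) ^ 2000)
        ≤ 2 * n * ((n : ℝ) ^ 4000 * (2 ^ 889 * xx n)) := by
      have d1 : ((m * n : ℝ) * th m) ^ 2000 ≤ (n : ℝ) ^ 4000 * th m ^ 2000 := by
        rw [mul_pow]
        apply mul_le_mul_of_nonneg_right _ (by have := (th_pos m).le; positivity)
        rw [show (4000 : ℕ) = 2 * 2000 by norm_num, pow_mul]
        apply pow_le_pow_left₀ (by positivity)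
        rw [pow_two]
        exact mul_le_mul_of_nonneg_right hmr hn0
      have d2 : ((m : ℝ) + 1) ≤ 2 * n := by linarith
      have hthm := (th_pos m).le
      calc (2 : ℝ) ^ n * (((m : ℝ) + 1) * ((m * n : ℝ) * th m) ^ 2000)
          ≤ 2 ^ n * ((2 * n) * ((n : ℝ) ^ 4000 * th m ^ 2000)) := by
            apply mul_le_mul_of_nonneg_left _ (by positivity)
            exact mul_le_mul d2 d1
              (pow_nonneg (mul_nonneg (mul_nonneg hm0 hn0) hthm) _) (by linarith)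
        _ = 2 * n * ((n : ℝ) ^ 4000 * (2 ^ n * th m ^ 2000)) := by ring
        _ ≤ 2 * n * ((n : ℝ) ^ 4000 * (2 ^ 889 * xx n)) := by
            apply mul_le_mul_of_nonneg_left _ (by positivity)
            apply mul_le_mul_of_nonneg_left _ (by positivity)
            exact th_pow hm100 (by omega)
    have hNp : 0 ≤ N := by positivity
    have f1 := mul_le_mul_of_nonneg_left c1 hNp
    have f2 := mul_le_mul_of_nonneg_left c2 hNp
    rw [mul_add]
    linarith
  have hsub : (univ.filter fun G : SimpleGraph (Fin n) => ¬ TypG 2000 n G) ⊆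
      (MS n).biUnion fun m => (univ.filter fun G : SimpleGraph (Fin n) => ¬ Typ1 (kk m) G) ∪
        (univ.filter fun G : SimpleGraph (Fin n) => ¬ Typ2 m 2000 G) := by
    intro G hG
    have hG' := (mem_filter.1 hG).2
    unfold TypG at hG'
    push Not at hG'
    obtain ⟨m, hm, h⟩ := hG'
    rw [mem_biUnion]
    refine ⟨m, hm, ?_⟩
    rw [mem_union]
    by_cases h1 : Typ1 (kk m) G
    · exact Or.inr (mem_filter.2 ⟨mem_univ _, h h1⟩)
    · exact Or.inl (mem_filter.2 ⟨mem_univ _, h1⟩)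
  have h1 := (Finset.card_le_card hsub).trans Finset.card_biUnion_le
  have h2 : ((univ.filter fun G : SimpleGraph (Fin n) => ¬ TypG 2000 n G).card : ℝ)
      ≤ ∑ m ∈ MS n, N * (16 * (n : ℝ) ^ 3 * xx n + 2 * n * ((n : ℝ) ^ 4000 * (2 ^ 889 * xx n))) := by
    refine le_trans (Nat.cast_le.2 h1) ?_
    rw [Nat.cast_sum]
    exact Finset.sum_le_sum hsize
  rw [Finset.sum_const, nsmul_eq_mul] at h2
  have hcard : ((MS n).card : ℝ) ≤ 2 * n := by
    have : (MS n).card ≤ n + 1 := by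
      have := Finset.card_filter_le (range (n + 1)) (fun m => n ≤ 100 * m)
      rwa [card_range] at this
    have h' : ((MS n).card : ℝ) ≤ n + 1 := by exact_mod_cast this
    linarith
  refine h2.trans ?_
  have hpos : 0 ≤ N * (16 * (n : ℝ) ^ 3 * xx n + 2 * n * ((n : ℝ) ^ 4000 * (2 ^ 889 * xx n))) := by
    positivity
  calc _ ≤ (2 * n : ℝ) *
        (N * (16 * (n : ℝ) ^ 3 * xx n + 2 * n * ((n : ℝ) ^ 4000 * (2 ^ 889 * xx n)))) :=
        mul_le_mul_of_nonneg_right hcard hpos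
    _ = N * (32 * ((n : ℝ) ^ 4 * xx n) + 2 ^ 891 * ((n : ℝ) ^ 4002 * xx n)) := by
        have e : (n : ℝ) ^ 4002 = n ^ 4000 * n ^ 2 := by rw [← pow_add]
        have e' : (2 : ℝ) ^ 891 = 2 ^ 889 * 2 ^ 2 := by rw [← pow_add]
        rw [e, e']
        ring

end Pool.Agent.X322.Har
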