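import Pool.Agent.X322.Har12

set_option autoImplicit false

/-! Counting, compactness and the final statement. -/

namespace Pool.Agent.X322.Har

open Finset Filter Topology

theorem card_lt_filter (L l : ℕ) (hl : l ≤ L) :
    (univ.filter fun i : Fin L => i.val < l).card = l := by
  have : (univ.filter fun i : Fin L => i.val < l) = (univ : Finset (Fin l)).map
      (Fin.castLEEmb hl) := by
    ext i
    simp only [mem_filter, mem_univ, true_and, Finset.mem_map]
    constructor
    · intro hi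
      exact ⟨⟨i.val, hi⟩, Fin.ext rfl⟩
    · rintro ⟨j, rfl⟩
      exact j.isLt
  rw [this, card_map, card_univ, Fintype.card_fin]

abbrev IN (N : ℕ) := (m : Fin (N + 1)) × (KT m.val × Fin (100 * m.val + 1))

def ext (N : ℕ) (y : IN N → Bool) : YT := fun c =>
  if h : c.1 < N + 1 ∧ c.2.2 < 100 * c.1 + 1 then
    y ⟨⟨c.1, h.1⟩, (c.2.1, ⟨c.2.2, h.2⟩)⟩ else false

def restr (N : ℕ) (Y : YT) : IN N → Bool := fun c => Y ⟨c.1.val, (c.2.1, c.2.2.val)⟩

theorem ext_apply (N : ℕ) (y : IN N → Bool) (c : IN N) :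
    ext N y ⟨c.1.val, (c.2.1, c.2.2.val)⟩ = y c := by
  unfold ext
  rw [dif_pos ⟨c.1.isLt, c.2.2.isLt⟩]

def Clash (lam : LamT) (Y : YT) {n : ℕ} (G H : SimpleGraph (Fin n)) : Prop :=
  ∀ i, har (PP lam Y) G i = har (PP lam Y) H i

open Classical in
theorem pair_bound {n : ℕ} (hn : 300 ≤ n) (hnum : n.choose 2 + 2 * n ≤ ∑ m ∈ MS n, Lmn 2000 n m)
    (lam : LamT) (hlam : ∀ m, 1 ≤ m → GoodLab 2000 m (lam m))
    (G H : SimpleGraph (Fin n)) (hG : TypG 2000 n G) (hGH : ¬ Nonempty (G ≃g H)) (N : ℕ)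
    (hnN : n ≤ N) :
    (univ.filter fun y : IN N → Bool => Clash lam (ext N y) G H).card *
      2 ^ (n.choose 2 + 2 * n) ≤ 2 ^ Fintype.card (IN N) := by
  have hcore : ∀ m, ∃ τ : KT m, m ∈ MS n → Nonempty (τ ↪g G) ∧ ¬ Nonempty (τ ↪g H) := by
    intro m
    by_cases hm : m ∈ MS n
    · have hm' := hm
      rw [MS, mem_filter, mem_range] at hm'
      have hk := kk_add_le hn hm'.2
      have hex : ∃ z : Fin (kk m + 2) ↪ Fin n, ∀ z' : Fin (kk m + 2) ↪ Fin n,
          H.comap z' ≠ G.comap z := by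
        by_contra hcon
        push Not at hcon
        exact hGH (priv (by omega) G H (hG m hm).1 hcon)
      obtain ⟨z, hz⟩ := hex
      refine ⟨G.comap z, fun _ => ⟨⟨SimpleGraph.Embedding.comap z G⟩, ?_⟩⟩
      rintro ⟨f⟩
      apply hz f.toEmbedding
      ext a b
      exact f.map_adj_iff
    · exact ⟨⊥, fun h => absurd h hm⟩
  choose core hcore using hcore
  set Lv : ℕ → ℕ := fun m => if m ∈ MS n then Lmn 2000 n m else 0 with hLvdef
  have hLvpos : ∀ m, 0 < Lv m → m ∈ MS n ∧ Lv m = Lmn 2000 n m := by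
    intro m h
    simp only [hLvdef] at h ⊢
    split_ifs at h ⊢ with hm
    · exact ⟨hm, rfl⟩
    · omega
  have hLvle : ∀ m, Lv m ≤ 100 * m := by
    intro m
    rcases Nat.eq_zero_or_pos (Lv m) with h | h
    · omega
    obtain ⟨hm, he⟩ := hLvpos m h
    rw [MS, mem_filter, mem_range] at hm
    rw [he]
    exact Lmn_le 2000 n m (by omega) hm.2
  have hLv : ∀ m, 0 < Lv m → 2 ≤ m ∧ m ≤ n ∧ Lv m ≤ 100 * m ∧ ¬ Nonempty (core m ↪g H) ∧
      ∀ l < Lv m, 2 * AA (lam m) G (core m) (l + 1) < AA (lam m) G (core m) l := by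
    intro m h
    obtain ⟨hm, he⟩ := hLvpos m h
    have hm' := hm
    rw [MS, mem_filter, mem_range] at hm'
    refine ⟨by omega, by omega, hLvle m, (hcore m hm).2, ?_⟩
    rw [he]
    exact levels 2000 n m (by omega) hm'.2 (kk_add_le hn hm'.2) (lam m) (hlam m (by omega)) G
      (hG m hm).2 (core m) (hcore m hm).1
  set E : Finset (IN N) := (univ : Finset (Fin (N + 1))).sigma fun m =>
    ({core m.val} : Finset (KT m.val)) ×ˢ
      (univ.filter fun l : Fin (100 * m.val + 1) => l.val < Lv m.val) with hE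
  have hEc : n.choose 2 + 2 * n ≤ E.card := by
    rw [hE, Finset.card_sigma]
    have h1 : ∀ m : Fin (N + 1), (({core m.val} : Finset (KT m.val)) ×ˢ
      (univ.filter fun l : Fin (100 * m.val + 1) => l.val < Lv m.val)).card = Lv m.val := by
      intro m
      rw [card_product, card_singleton, one_mul, card_lt_filter]
      have := hLvle m.val
      omega
    rw [Finset.sum_congr rfl fun m _ => h1 m, Fin.sum_univ_eq_sum_range (fun m => Lv m) (N + 1)]
    refine hnum.trans ?_
    have h2 : ∑ m ∈ MS n, Lmn 2000 n m = ∑ m ∈ MS n, Lv m := by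
      apply Finset.sum_congr rfl
      intro m hm
      simp only [hLvdef, if_pos hm]
    rw [h2]
    apply Finset.sum_le_sum_of_subset
    intro m hm
    rw [MS, mem_filter, mem_range] at hm
    rw [mem_range]
    omega
  refine le_trans (Nat.mul_le_mul_left _ (Nat.pow_le_pow_right (by norm_num) hEc)) ?_
  apply card_det
  intro y hy y' hy' hoff
  have hy1 := (mem_filter.1 hy).2
  have hy2 := (mem_filter.1 hy').2
  have hdec := decode lam G H core Lv hLv (ext N y) (ext N y') hy1 hy2 (by
    intro m τ l h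
    unfold ext
    split_ifs with hc
    · apply hoff
      rw [hE, mem_sigma, mem_product, mem_singleton, mem_filter]
      rintro ⟨_, h1, _, h2⟩
      rcases h with h | h
      · exact h h1
      · simp only at h2
        omega
    · rfl)
  funext c
  rw [← ext_apply N y c, ← ext_apply N y' c]
  exact hdec _ _ _

open Classical in
noncomputable def bad (lam : LamT) (Y : YT) (n : ℕ) : Finset (SimpleGraph (Fin n)) :=
  univ.filter fun G => TypG 2000 n G ∧ ∃ H, ¬ Nonempty (G ≃g H) ∧ Clash lam Y G H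

def viol (lam : LamT) (n : ℕ) (Y : YT) : Prop := 2 ^ n.choose 2 < (bad lam Y n).card * 2 ^ n

open Classical in
theorem viol_bound {n : ℕ} (hn : 300 ≤ n) (hnum : n.choose 2 + 2 * n ≤ ∑ m ∈ MS n, Lmn 2000 n m)
    (lam : LamT) (hlam : ∀ m, 1 ≤ m → GoodLab 2000 m (lam m)) (N : ℕ) (hnN : n ≤ N) :
    (univ.filter fun y : IN N → Bool => viol lam n (ext N y)).card * 2 ^ n
      ≤ 2 ^ Fintype.card (IN N) := by
  set C := n.choose 2 with hC
  set V := univ.filter fun y : IN N → Bool => viol lam n (ext N y) with hV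
  have h1 : ∑ y : IN N → Bool, (bad lam (ext N y) n).card
      ≤ ∑ p ∈ univ.filter (fun p : SimpleGraph (Fin n) × SimpleGraph (Fin n) =>
        TypG 2000 n p.1 ∧ ¬ Nonempty (p.1 ≃g p.2)),
        (univ.filter fun y : IN N → Bool => Clash lam (ext N y) p.1 p.2).card := by
    have h2 : ∀ y : IN N → Bool, (bad lam (ext N y) n).card ≤
        ((univ.filter (fun p : SimpleGraph (Fin n) × SimpleGraph (Fin n) =>
        TypG 2000 n p.1 ∧ ¬ Nonempty (p.1 ≃g p.2))).filter
          fun p => Clash lam (ext N y) p.1 p.2).card := by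
      intro y
      have h3 : bad lam (ext N y) n ⊆ ((univ.filter
        (fun p : SimpleGraph (Fin n) × SimpleGraph (Fin n) =>
        TypG 2000 n p.1 ∧ ¬ Nonempty (p.1 ≃g p.2))).filter
          fun p => Clash lam (ext N y) p.1 p.2).image Prod.fst := by
        intro G hG
        obtain ⟨hT, H, hGH, hc⟩ := (mem_filter.1 hG).2
        rw [mem_image]
        exact ⟨(G, H), mem_filter.2 ⟨mem_filter.2 ⟨mem_univ _, hT, hGH⟩, hc⟩, rfl⟩
      exact (Finset.card_le_card h3).trans Finset.card_image_le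
    refine (Finset.sum_le_sum fun y _ => h2 y).trans (le_of_eq ?_)
    simp_rw [Finset.card_filter _ (Finset.filter _ _)]
    rw [Finset.sum_comm]
    apply Finset.sum_congr rfl
    intro p _
    rw [← Finset.card_filter]
  have h2 : (∑ y : IN N → Bool, (bad lam (ext N y) n).card) * 2 ^ (C + 2 * n)
      ≤ 2 ^ (2 * C) * 2 ^ Fintype.card (IN N) := by
    refine (Nat.mul_le_mul_right _ h1).trans ?_
    rw [Finset.sum_mul]
    refine (Finset.sum_le_sum fun p hp => ?_).trans (b := ∑ p ∈ univ.filter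
      (fun p : SimpleGraph (Fin n) × SimpleGraph (Fin n) =>
        TypG 2000 n p.1 ∧ ¬ Nonempty (p.1 ≃g p.2)), 2 ^ Fintype.card (IN N)) ?_
    · have hp' := (mem_filter.1 hp).2
      exact pair_bound hn hnum lam hlam p.1 p.2 hp'.1 hp'.2 N hnN
    · rw [Finset.sum_const, smul_eq_mul]
      apply Nat.mul_le_mul_right
      refine (Finset.card_le_univ _).trans ?_
      rw [Fintype.card_prod, card_graphs, ← hC, ← pow_add]
      apply le_of_eq
      congr 1
      ring
  have h3 : V.card * 2 ^ C ≤ (∑ y : IN N → Bool, (bad lam (ext N y) n).card) * 2 ^ n := by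
    rw [Finset.sum_mul]
    calc V.card * 2 ^ C = ∑ y ∈ V, 2 ^ C := by rw [Finset.sum_const, smul_eq_mul]
      _ ≤ ∑ y ∈ V, (bad lam (ext N y) n).card * 2 ^ n := by
          apply Finset.sum_le_sum
          intro y hy
          exact (mem_filter.1 hy).2.le
      _ ≤ _ := Finset.sum_le_sum_of_subset (subset_univ _)
  have h4 : (V.card * 2 ^ n) * 2 ^ (2 * C + n) ≤ 2 ^ Fintype.card (IN N) * 2 ^ (2 * C + n) := by
    calc (V.card * 2 ^ n) * 2 ^ (2 * C + n) = (V.card * 2 ^ C) * 2 ^ (C + 2 * n) := by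
          rw [mul_assoc, mul_assoc, ← pow_add, ← pow_add]
          congr 2
          ring
      _ ≤ ((∑ y : IN N → Bool, (bad lam (ext N y) n).card) * 2 ^ n) * 2 ^ (C + 2 * n) :=
          Nat.mul_le_mul_right _ h3
      _ = ((∑ y : IN N → Bool, (bad lam (ext N y) n).card) * 2 ^ (C + 2 * n)) * 2 ^ n := by ring
      _ ≤ (2 ^ (2 * C) * 2 ^ Fintype.card (IN N)) * 2 ^ n := Nat.mul_le_mul_right _ h2
      _ = _ := by rw [pow_add]; ring
  exact Nat.le_of_mul_le_mul_right h4 (by positivity)

theorem exists_level (n1 : ℕ) (hn1 : 300 ≤ n1)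
    (hnum : ∀ n, n1 ≤ n → n.choose 2 + 2 * n ≤ ∑ m ∈ MS n, Lmn 2000 n m)
    (lam : LamT) (hlam : ∀ m, 1 ≤ m → GoodLab 2000 m (lam m)) (N : ℕ) :
    ∃ y : IN N → Bool, ∀ n, n1 ≤ n → n ≤ N → ¬ viol lam n (ext N y) := by
  classical
  by_contra hcon
  push Not at hcon
  have hcov : (univ : Finset (IN N → Bool)) ⊆ (Icc n1 N).biUnion fun n =>
      univ.filter fun y : IN N → Bool => viol lam n (ext N y) := by
    intro y _
    obtain ⟨n, h1, h2, h3⟩ := hcon y
    rw [mem_biUnion]
    exact ⟨n, mem_Icc.2 ⟨h1, h2⟩, mem_filter.2 ⟨mem_univ _, h3⟩⟩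
  have h1 := (Finset.card_le_card hcov).trans Finset.card_biUnion_le
  rw [card_univ, Fintype.card_fun, Fintype.card_bool] at h1
  have h2 : ((2 : ℝ) ^ Fintype.card (IN N)) ≤ ∑ n ∈ Icc n1 N,
      ((univ.filter fun y : IN N → Bool => viol lam n (ext N y)).card : ℝ) := by
    exact_mod_cast h1
  have h3 : ∀ n ∈ Icc n1 N, ((univ.filter fun y : IN N → Bool => viol lam n (ext N y)).card : ℝ)
      ≤ 2 ^ Fintype.card (IN N) * (1 / 2) ^ n := by
    intro n hn
    rw [mem_Icc] at hn
    have := viol_bound (by omega) (hnum n hn.1) lam hlam N hn.2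
    have h' : ((univ.filter fun y : IN N → Bool => viol lam n (ext N y)).card : ℝ) * 2 ^ n
        ≤ 2 ^ Fintype.card (IN N) := by exact_mod_cast this
    have e : ((univ.filter fun y : IN N → Bool => viol lam n (ext N y)).card : ℝ)
        = (((univ.filter fun y : IN N → Bool => viol lam n (ext N y)).card : ℝ) * 2 ^ n)
          * (1 / 2) ^ n := by
      rw [mul_assoc, ← mul_pow]; norm_num
    rw [e]
    exact mul_le_mul_of_nonneg_right h' (by positivity)
  have h4 := h2.trans (Finset.sum_le_sum h3)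
  rw [← Finset.mul_sum] at h4
  have h5 : ∑ n ∈ Icc n1 N, (1 / 2 : ℝ) ^ n ≤ 1 / 2 := by
    have h6 : ∑ n ∈ Icc n1 N, (1 / 2 : ℝ) ^ n + ∑ n ∈ range 2, (1 / 2 : ℝ) ^ n
        ≤ ∑ n ∈ range (N + 3), (1 / 2 : ℝ) ^ n := by
      rw [← Finset.sum_union]
      · apply Finset.sum_le_sum_of_subset_of_nonneg
        · intro a ha
          rw [mem_union, mem_Icc, mem_range] at ha
          rw [mem_range]
          omega
        · intro _ _ _
          positivity
      · rw [Finset.disjoint_left]
        intro a ha hb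
        rw [mem_Icc] at ha
        rw [mem_range] at hb
        omega
    have h7 := sum_geometric_two_le (N + 3)
    have h8 : ∑ n ∈ range 2, (1 / 2 : ℝ) ^ n = 3 / 2 := by
      rw [Finset.sum_range_succ, Finset.sum_range_succ, Finset.sum_range_zero]
      norm_num
    linarith
  have h9 : (0 : ℝ) < 2 ^ Fintype.card (IN N) := by positivity
  nlinarith

theorem har_congr (P Q : GraphProperty) {n : ℕ} (G : SimpleGraph (Fin n)) (i : ℕ)
    (hPQ : ∀ j ≤ n, ∀ F : SimpleGraph (Fin j), P.mem j F ↔ Q.mem j F) :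
    har P G i = har Q G i := by
  classical
  unfold har
  congr 1
  apply Finset.filter_congr
  intro π _
  have hB : ∀ B : Finset (Fin n), InBlock P G B ↔ InBlock Q G B := by
    intro B
    apply hPQ
    have := Finset.card_le_univ B
    rwa [Fintype.card_fin] at this
  simp only [hB]

theorem viol_congr (lam : LamT) (n : ℕ) (Y Y' : YT)
    (h : ∀ m ≤ n, ∀ (τ : KT m) (l : ℕ), l ≤ 100 * m → Y ⟨m, (τ, l)⟩ = Y' ⟨m, (τ, l)⟩) :
    viol lam n Y ↔ viol lam n Y' := by
  classical
  have h1 : ∀ j ≤ n, ∀ F : SimpleGraph (Fin j), (PP lam Y).mem j F ↔ (PP lam Y').mem j F := by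
    intro j hj F
    change memP lam Y j F ↔ memP lam Y' j F
    unfold memP
    rw [h j hj _ _ (lev_le _)]
  have h2 : bad lam Y n = bad lam Y' n := by
    unfold bad
    apply Finset.filter_congr
    intro G _
    apply and_congr_right
    intro _
    apply exists_congr
    intro H
    apply and_congr_right
    intro _
    unfold Clash
    apply forall_congr'
    intro i
    rw [har_congr _ _ G i h1, har_congr _ _ H i h1]
  unfold viol
  rw [h2]

theorem closed_viol (lam : LamT) (n : ℕ) : IsClosed {Y : YT | ¬ viol lam n Y} := by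
  have h1 : {Y : YT | ¬ viol lam n Y} = restr n ⁻¹' {y | ¬ viol lam n (ext n y)} := by
    ext Y
    simp only [Set.mem_ofPred_eq, Set.mem_preimage]
    rw [viol_congr lam n Y (ext n (restr n Y))]
    intro m hm τ l hl
    have := ext_apply n (restr n Y) ⟨⟨m, by omega⟩, (τ, ⟨l, by show l < 100 * m + 1; omega⟩)⟩
    rw [this]
    rfl
  rw [h1]
  apply IsClosed.preimage
  · unfold restr
    apply continuous_pi
    intro c
    exact continuous_apply _
  · exact Set.Finite.isClosed (Set.toFinite _)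

theorem exists_Y (n1 : ℕ) (hn1 : 300 ≤ n1)
    (hnum : ∀ n, n1 ≤ n → n.choose 2 + 2 * n ≤ ∑ m ∈ MS n, Lmn 2000 n m)
    (lam : LamT) (hlam : ∀ m, 1 ≤ m → GoodLab 2000 m (lam m)) :
    ∃ Y : YT, ∀ n, n1 ≤ n → ¬ viol lam n Y := by
  have h := IsCompact.nonempty_iInter_of_sequence_nonempty_isCompact_isClosed
    (fun N : ℕ => {Y : YT | ∀ n, n1 ≤ n → n ≤ N → ¬ viol lam n Y}) ?_ ?_ ?_ ?_
  · obtain ⟨Y, hY⟩ := h
    rw [Set.mem_iInter] at hY
    exact ⟨Y, fun n hn => hY n n hn le_rfl⟩
  · intro N Y hY n h1 h2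
    exact hY n h1 (by omega)
  · intro N
    obtain ⟨y, hy⟩ := exists_level n1 hn1 hnum lam hlam N
    exact ⟨ext N y, hy⟩
  · apply IsClosed.isCompact
    have : {Y : YT | ∀ n, n1 ≤ n → n ≤ 0 → ¬ viol lam n Y} = Set.univ := by
      ext Y
      simp only [Set.mem_ofPred_eq, Set.mem_univ, iff_true]
      intro n h1 h2
      omega
    rw [this]
    exact isClosed_univ
  · intro N
    have : {Y : YT | ∀ n, n1 ≤ n → n ≤ N → ¬ viol lam n Y}
        = ⋂ n, ⋂ (_ : n1 ≤ n), ⋂ (_ : n ≤ N), {Y : YT | ¬ viol lam n Y} := by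
      ext Y
      simp only [Set.mem_ofPred_eq, Set.mem_iInter]
    rw [this]
    exact isClosed_iInter fun n => isClosed_iInter fun _ => isClosed_iInter fun _ =>
      closed_viol lam n

/-- determined up to isomorphism by its Harary polynomial -/
def IsUnique (P : GraphProperty) {n : ℕ} (G : SimpleGraph (Fin n)) : Prop :=
  ∀ (n' : ℕ) (H : SimpleGraph (Fin n')), chi P H = chi P G → Nonempty (H ≃g G)

open Classical in
noncomputable def uniqueCount (P : GraphProperty) (n : ℕ) : ℕ :=
  (univ.filter fun G : SimpleGraph (Fin n) => IsUnique P G).card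

theorem main : ∃ P : GraphProperty,
    Tendsto (fun n : ℕ => (uniqueCount P n : ℝ) / 2 ^ n.choose 2) atTop (𝓝 1) := by
  classical
  obtain ⟨n1', hn1'⟩ := eventually_atTop.1 (numeric 2000)
  set n1 := max n1' 300 with hn1
  have hlam : ∀ m, ∃ lam : SimpleGraph (Fin m) → Lab m, 1 ≤ m → GoodLab 2000 m lam := by
    intro m
    by_cases hm : 1 ≤ m
    · obtain ⟨lam, h⟩ := exists_goodLab 2000 m hm
      exact ⟨lam, fun _ => h⟩
    · exact ⟨fun _ => (⊥, fun _ => 0), fun h => absurd h hm⟩
  choose lam hlam using hlam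
  obtain ⟨Y, hY⟩ := exists_Y n1 (le_max_right _ _)
    (fun n hn => hn1' n (le_trans (le_max_left _ _) hn)) lam hlam
  obtain ⟨f, hf, hfb⟩ := typG_bound
  refine ⟨PP lam Y, ?_⟩
  have hlow : ∀ᶠ n : ℕ in atTop, 1 - f n - (1 / 2 : ℝ) ^ n
      ≤ (uniqueCount (PP lam Y) n : ℝ) / 2 ^ n.choose 2 := by
    filter_upwards [hfb, eventually_ge_atTop n1] with n hfn hn
    have h2 : (0 : ℝ) < 2 ^ n.choose 2 := by positivity
    rw [le_div_iff₀ h2]
    have hsub : (univ : Finset (SimpleGraph (Fin n))) ⊆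
        (univ.filter fun G : SimpleGraph (Fin n) => IsUnique (PP lam Y) G) ∪
        ((univ.filter fun G : SimpleGraph (Fin n) => ¬ TypG 2000 n G) ∪ bad lam Y n) := by
      intro G _
      rw [mem_union, mem_union]
      by_cases hT : TypG 2000 n G
      · by_cases hb : G ∈ bad lam Y n
        · exact Or.inr (Or.inr hb)
        · left
          rw [mem_filter]
          refine ⟨mem_univ _, ?_⟩
          intro n' H hH
          have hnn := order_eq_of_chi_eq (PP lam Y) (PP_one lam Y) H G hH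
          subst hnn
          by_contra hiso
          apply hb
          unfold bad
          rw [mem_filter]
          refine ⟨mem_univ _, hT, H, ?_, ?_⟩
          · rintro ⟨e⟩
            exact hiso ⟨e.symm⟩
          · intro i
            exact (har_eq_of_chi_eq (PP lam Y) H G hH i).symm
      · right; left
        exact mem_filter.2 ⟨mem_univ _, hT⟩
    have hc := (Finset.card_le_card hsub).trans ((Finset.card_union_le _ _).trans
      (Nat.add_le_add_left (Finset.card_union_le _ _) _))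
    rw [card_univ, card_graphs] at hc
    have hc' : (2 : ℝ) ^ n.choose 2 ≤ (uniqueCount (PP lam Y) n : ℝ) +
        (((univ.filter fun G : SimpleGraph (Fin n) => ¬ TypG 2000 n G).card : ℝ)
          + ((bad lam Y n).card : ℝ)) := by
      unfold uniqueCount
      exact_mod_cast hc
    have hv := hY n hn
    unfold viol at hv
    push Not at hv
    have hv' : ((bad lam Y n).card : ℝ) * 2 ^ n ≤ 2 ^ n.choose 2 := by exact_mod_cast hv
    have hv'' : ((bad lam Y n).card : ℝ) ≤ 2 ^ n.choose 2 * (1 / 2) ^ n := by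
      have e : ((bad lam Y n).card : ℝ) = (((bad lam Y n).card : ℝ) * 2 ^ n) * (1 / 2) ^ n := by
        rw [mul_assoc, ← mul_pow]; norm_num
      rw [e]
      exact mul_le_mul_of_nonneg_right hv' (by positivity)
    nlinarith
  have hup : ∀ᶠ n : ℕ in atTop,
      (uniqueCount (PP lam Y) n : ℝ) / 2 ^ n.choose 2 ≤ 1 := by
    filter_upwards with n
    have h2 : (0 : ℝ) < 2 ^ n.choose 2 := by positivity
    rw [div_le_one h2]
    have : uniqueCount (PP lam Y) n ≤ 2 ^ n.choose 2 := by
      unfold uniqueCount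
      refine (Finset.card_le_univ _).trans ?_
      rw [card_graphs]
    exact_mod_cast this
  have hlim : Tendsto (fun n : ℕ => 1 - f n - (1 / 2 : ℝ) ^ n) atTop (𝓝 1) := by
    have h1 := tendsto_pow_atTop_nhds_zero_of_lt_one (show (0 : ℝ) ≤ 1 / 2 by norm_num)
      (by norm_num)
    have h2 := (tendsto_const_nhds (x := (1 : ℝ))).sub hf
    have h3 := h2.sub h1
    simpa using h3
  exact tendsto_of_tendsto_of_tendsto_of_le_of_le' hlim tendsto_const_nhds hlow hup

end Pool.Agent.X322.Har
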