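import Mathlib

set_option autoImplicit false

/-! A Chernoff bound in counting form. -/

namespace Pool.Agent.X322.Har

open Finset

theorem mgf_bound {ι Ω : Type*} [Fintype ι] [DecidableEq ι] [Fintype Ω] [DecidableEq Ω] (S : Finset Ω)
    (a : ι → ℝ) (h0 : ∀ i, 0 ≤ a i) (h1 : ∀ i, a i ≤ 1) (p t : ℝ) (hp0 : 0 ≤ p)
    (ht : |t| ≤ 1) (hp : (S.card : ℝ) = p * Fintype.card Ω) :
    ∑ f : ι → Ω, Real.exp (t * ∑ i, (if f i ∈ S then a i else 0))
      ≤ (Fintype.card Ω : ℝ) ^ Fintype.card ι * Real.exp ((t + t ^ 2) * (p * ∑ i, a i)) := by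
  have e1 : ∀ f : ι → Ω, Real.exp (t * ∑ i, (if f i ∈ S then a i else 0))
      = ∏ i, Real.exp (if f i ∈ S then t * a i else 0) := by
    intro f
    rw [← Real.exp_sum]
    congr 1
    rw [Finset.mul_sum]
    apply Finset.sum_congr rfl
    intro i _
    split_ifs <;> simp
  have e2 : ∑ f : ι → Ω, ∏ i, Real.exp (if f i ∈ S then t * a i else 0)
      = ∏ i : ι, ∑ ω : Ω, Real.exp (if ω ∈ S then t * a i else 0) := by
    rw [Finset.prod_univ_sum (fun _ => univ) (fun i ω => Real.exp (if ω ∈ S then t * a i else 0)),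
      Fintype.piFinset_univ]
  have e3 : ∀ i : ι, ∑ ω : Ω, Real.exp (if ω ∈ S then t * a i else 0)
      = (Fintype.card Ω : ℝ) * (1 + p * (Real.exp (t * a i) - 1)) := by
    intro i
    have : ∀ ω : Ω, Real.exp (if ω ∈ S then t * a i else 0)
        = 1 + (if ω ∈ S then (Real.exp (t * a i) - 1) else 0) := by
      intro ω
      split_ifs <;> simp
    simp_rw [this]
    rw [Finset.sum_add_distrib, Finset.sum_ite_mem, univ_inter]
    simp only [sum_const, card_univ, nsmul_eq_mul, mul_one]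
    rw [hp]
    ring
  have e4 : ∀ i : ι, (Fintype.card Ω : ℝ) * (1 + p * (Real.exp (t * a i) - 1))
      ≤ (Fintype.card Ω : ℝ) * Real.exp ((t + t ^ 2) * (p * a i)) := by
    intro i
    apply mul_le_mul_of_nonneg_left _ (Nat.cast_nonneg _)
    have hta : |t * a i| ≤ 1 := by
      rw [abs_mul, abs_of_nonneg (h0 i)]
      exact mul_le_one₀ ht (h0 i) (h1 i)
    have hq := Real.abs_exp_sub_one_sub_id_le hta
    have hq' := (abs_le.1 hq).2
    have hsq : (t * a i) ^ 2 ≤ t ^ 2 * a i := by
      have : a i ^ 2 ≤ a i := by nlinarith [h0 i, h1 i]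
      nlinarith [sq_nonneg t]
    have h5 : p * (Real.exp (t * a i) - 1) ≤ (t + t ^ 2) * (p * a i) := by
      nlinarith [h0 i]
    have h6 := Real.add_one_le_exp ((t + t ^ 2) * (p * a i))
    linarith
  simp_rw [e1]
  rw [e2]
  calc ∏ i : ι, ∑ ω : Ω, Real.exp (if ω ∈ S then t * a i else 0)
      ≤ ∏ i : ι, (Fintype.card Ω : ℝ) * Real.exp ((t + t ^ 2) * (p * a i)) := by
        apply Finset.prod_le_prod
        · intro i _
          exact Finset.sum_nonneg fun ω _ => (Real.exp_pos _).le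
        · intro i _
          rw [e3 i]
          exact e4 i
    _ = _ := by
        rw [Finset.prod_mul_distrib, ← Real.exp_sum, Finset.prod_const, card_univ]
        congr 2
        rw [Finset.mul_sum, Finset.mul_sum]

theorem chernoff {ι Ω : Type*} [Fintype ι] [DecidableEq ι] [Fintype Ω] [DecidableEq Ω] (S : Finset Ω)
    (c : ι → ℝ) (M p : ℝ) (hM : 0 < M) (h0 : ∀ i, 0 ≤ c i) (h1 : ∀ i, c i ≤ M)
    (hp0 : 0 ≤ p) (hp : (S.card : ℝ) = p * Fintype.card Ω) :
    ((univ.filter fun f : ι → Ω =>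
      ¬ |∑ i, (if f i ∈ S then c i else 0) - p * ∑ i, c i| < p * (∑ i, c i) / 10).card : ℝ)
      ≤ 2 * ((Fintype.card Ω : ℝ) ^ Fintype.card ι * Real.exp (-(p * (∑ i, c i) / (400 * M)))) := by
  set a : ι → ℝ := fun i => c i / M with ha
  set μ : ℝ := p * ∑ i, a i with hμ
  have ha0 : ∀ i, 0 ≤ a i := fun i => div_nonneg (h0 i) hM.le
  have ha1 : ∀ i, a i ≤ 1 := fun i => (div_le_one hM).2 (h1 i)
  have hsum : ∑ i, c i = M * ∑ i, a i := by
    rw [Finset.mul_sum]
    apply Finset.sum_congr rfl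
    intro i _
    simp only [ha]
    field_simp
  have hμ' : p * ∑ i, c i = M * μ := by rw [hsum, hμ]; ring
  have hfa : ∀ f : ι → Ω, ∑ i, (if f i ∈ S then c i else 0)
      = M * ∑ i, (if f i ∈ S then a i else 0) := by
    intro f
    rw [Finset.mul_sum]
    apply Finset.sum_congr rfl
    intro i _
    simp only [ha]
    split_ifs
    · field_simp
    · simp
  set X : (ι → Ω) → ℝ := fun f => ∑ i, (if f i ∈ S then a i else 0) with hX
  have hE : Real.exp (-(p * (∑ i, c i) / (400 * M))) = Real.exp (-(μ / 400)) := by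
    rw [hμ']
    congr 2
    field_simp
  rw [hE]
  have hup := mgf_bound S a ha0 ha1 p (1 / 20) hp0 (by norm_num [abs_le]) hp
  have hlo := mgf_bound S a ha0 ha1 p (-1 / 20) hp0 (by norm_num [abs_le]) hp
  rw [← hμ] at hup hlo
  set U : Finset (ι → Ω) := univ.filter fun f => 11 / 10 * μ ≤ X f with hU
  set L : Finset (ι → Ω) := univ.filter fun f => X f ≤ 9 / 10 * μ with hL
  set N : ℝ := (Fintype.card Ω : ℝ) ^ Fintype.card ι with hN
  have hUb : (U.card : ℝ) ≤ N * Real.exp (-(μ / 400)) := by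
    have h1 : (U.card : ℝ) * Real.exp (1 / 20 * (11 / 10 * μ)) ≤
        ∑ f : ι → Ω, Real.exp (1 / 20 * X f) := by
      calc (U.card : ℝ) * Real.exp (1 / 20 * (11 / 10 * μ))
          = ∑ f ∈ U, Real.exp (1 / 20 * (11 / 10 * μ)) := by rw [sum_const, nsmul_eq_mul]
        _ ≤ ∑ f ∈ U, Real.exp (1 / 20 * X f) := by
            apply Finset.sum_le_sum
            intro f hf
            have := (mem_filter.1 hf).2
            apply Real.exp_le_exp.2
            linarith
        _ ≤ ∑ f : ι → Ω, Real.exp (1 / 20 * X f) :=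
            Finset.sum_le_sum_of_subset_of_nonneg (subset_univ _)
              (fun _ _ _ => (Real.exp_pos _).le)
    have h2 := h1.trans hup
    have h3 : N * Real.exp ((1 / 20 + (1 / 20 : ℝ) ^ 2) * μ)
        = (N * Real.exp (-(μ / 400))) * Real.exp (1 / 20 * (11 / 10 * μ)) := by
      rw [mul_assoc, ← Real.exp_add]
      congr 2
      ring
    rw [h3] at h2
    exact le_of_mul_le_mul_right h2 (Real.exp_pos _)
  have hLb : (L.card : ℝ) ≤ N * Real.exp (-(μ / 400)) := by
    have h1 : (L.card : ℝ) * Real.exp (-1 / 20 * (9 / 10 * μ)) ≤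
        ∑ f : ι → Ω, Real.exp (-1 / 20 * X f) := by
      calc (L.card : ℝ) * Real.exp (-1 / 20 * (9 / 10 * μ))
          = ∑ f ∈ L, Real.exp (-1 / 20 * (9 / 10 * μ)) := by rw [sum_const, nsmul_eq_mul]
        _ ≤ ∑ f ∈ L, Real.exp (-1 / 20 * X f) := by
            apply Finset.sum_le_sum
            intro f hf
            have := (mem_filter.1 hf).2
            apply Real.exp_le_exp.2
            linarith
        _ ≤ ∑ f : ι → Ω, Real.exp (-1 / 20 * X f) :=
            Finset.sum_le_sum_of_subset_of_nonneg (subset_univ _)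
              (fun _ _ _ => (Real.exp_pos _).le)
    have h2 := h1.trans hlo
    have h3 : N * Real.exp ((-1 / 20 + (-1 / 20 : ℝ) ^ 2) * μ)
        = (N * Real.exp (-(μ / 400))) * Real.exp (-1 / 20 * (9 / 10 * μ)) := by
      rw [mul_assoc, ← Real.exp_add]
      congr 2
      ring
    rw [h3] at h2
    exact le_of_mul_le_mul_right h2 (Real.exp_pos _)
  have hsub : (univ.filter fun f : ι → Ω =>
      ¬ |∑ i, (if f i ∈ S then c i else 0) - p * ∑ i, c i| < p * (∑ i, c i) / 10) ⊆ U ∪ L := by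
    intro f hf
    have hf' := (mem_filter.1 hf).2
    rw [hfa f, hμ'] at hf'
    rw [mem_union, hU, hL, mem_filter, mem_filter]
    by_contra hcon
    push Not at hcon
    obtain ⟨h1, h2⟩ := hcon
    have h1' := h1 (mem_univ _)
    have h2' := h2 (mem_univ _)
    apply hf'
    rw [abs_lt]
    have e1 : ∑ i, (if f i ∈ S then a i else 0) = X f := rfl
    rw [e1]
    constructor <;> nlinarith
  have hcard := (Finset.card_le_card hsub).trans (Finset.card_union_le U L)
  have hcard' : ((univ.filter fun f : ι → Ω =>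
      ¬ |∑ i, (if f i ∈ S then c i else 0) - p * ∑ i, c i| < p * (∑ i, c i) / 10).card : ℝ)
      ≤ U.card + L.card := by exact_mod_cast hcard
  linarith

end Pool.Agent.X322.Har
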