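import Mathlib

set_option autoImplicit false

/-! Counting graphs with a forced coincidence. -/

namespace Pool.Agent.X322.Har

open Finset

theorem card_det {I : Type*} [Fintype I] [DecidableEq I] (E : Finset I) (A : Finset (I → Bool))
    (h : ∀ v ∈ A, ∀ w ∈ A, (∀ e, e ∉ E → v e = w e) → v = w) :
    A.card * 2 ^ E.card ≤ 2 ^ Fintype.card I := by
  have h1 : A.card ≤ (univ : Finset ({e // e ∉ E} → Bool)).card := by
    refine Finset.card_le_card_of_injOn (fun v => fun e => v e.1) (fun _ _ => by simp) ?_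
    intro v hv w hw hvw
    exact h v hv w hw fun e he => congrFun hvw ⟨e, he⟩
  rw [card_univ, Fintype.card_fun, Fintype.card_bool] at h1
  have h2 : Fintype.card {e // e ∉ E} = Fintype.card I - E.card := by
    rw [Fintype.card_subtype_compl, Fintype.card_coe]
  rw [h2] at h1
  calc A.card * 2 ^ E.card ≤ 2 ^ (Fintype.card I - E.card) * 2 ^ E.card :=
        Nat.mul_le_mul_right _ h1
    _ = 2 ^ Fintype.card I := by
        rw [← pow_add, Nat.sub_add_cancel (Finset.card_le_univ E)]

abbrev II (n : ℕ) := {e : Sym2 (Fin n) // ¬ e.IsDiag}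

def toG {n : ℕ} (x : II n → Bool) : SimpleGraph (Fin n) where
  Adj u v := ∃ h : ¬ (s(u, v)).IsDiag, x ⟨s(u, v), h⟩ = true
  symm := ⟨by
    rintro u v ⟨h, hx⟩
    have e : s(v, u) = s(u, v) := Sym2.eq_swap
    refine ⟨by rw [e]; exact h, ?_⟩
    convert hx using 2
    exact Subtype.ext e⟩
  loopless := ⟨fun u h => h.1 rfl⟩

open Classical in
noncomputable def equivG (n : ℕ) : (II n → Bool) ≃ SimpleGraph (Fin n) where
  toFun := toG
  invFun G := fun e => decide (e.1 ∈ G.edgeSet)
  left_inv x := by
    funext e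
    obtain ⟨e, he⟩ := e
    induction e using Sym2.ind with
    | _ u v =>
      have : s(u, v) ∈ (toG x).edgeSet ↔ x ⟨s(u, v), he⟩ = true := by
        rw [SimpleGraph.mem_edgeSet]
        exact ⟨fun h => h.2, fun h => ⟨he, h⟩⟩
      rw [Bool.eq_iff_iff, decide_eq_true_iff, this]
  right_inv G := by
    ext u v
    constructor
    · rintro ⟨h, hx⟩
      simpa using hx
    · intro h
      refine ⟨fun hd => h.ne ?_, by simpa using h⟩
      simpa using hd

theorem card_II (n : ℕ) : Fintype.card (II n) = n.choose 2 := by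
  have := Sym2.card_subtype_not_diag (α := Fin n)
  rw [Fintype.card_fin] at this
  rw [← this]

open Classical in
theorem card_graphs (n : ℕ) : Fintype.card (SimpleGraph (Fin n)) = 2 ^ n.choose 2 := by
  rw [← Fintype.card_congr (equivG n), Fintype.card_fun, Fintype.card_bool, card_II]

open Classical in
theorem graph_det {n : ℕ} (E : Finset (Sym2 (Fin n))) (hE : ∀ e ∈ E, ¬ e.IsDiag)
    (q : SimpleGraph (Fin n) → Prop)
    (h : ∀ G G', q G → q G' → (∀ a b, s(a, b) ∉ E → (G.Adj a b ↔ G'.Adj a b)) → G = G') :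
    (univ.filter q).card * 2 ^ E.card ≤ 2 ^ n.choose 2 := by
  have h1 : (univ.filter q).card = (univ.filter fun v : II n → Bool => q (toG v)).card := by
    symm
    apply Finset.card_bij (fun v _ => toG v)
    · intro v hv
      simpa using hv
    · intro v _ w _ hvw
      exact (equivG n).injective hvw
    · intro G hG
      refine ⟨(equivG n).symm G, ?_, (equivG n).apply_symm_apply G⟩
      simp only [mem_filter, mem_univ, true_and] at hG ⊢
      have : toG ((equivG n).symm G) = G := (equivG n).apply_symm_apply G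
      rw [this]
      exact hG
  have h2 : E.card = (univ.filter fun e : II n => e.1 ∈ E).card := by
    symm
    apply Finset.card_bij (fun e _ => e.1)
    · intro e he
      simpa using he
    · intro e _ f _ hef
      exact Subtype.ext hef
    · intro e he
      exact ⟨⟨e, hE e he⟩, by simpa using he, rfl⟩
  rw [h1, h2, ← card_II]
  apply card_det
  intro v hv w hw hvw
  simp only [mem_filter, mem_univ, true_and] at hv hw hvw
  apply (equivG n).injective
  refine h _ _ hv hw ?_
  intro a b hab
  constructor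
  · rintro ⟨hd, hx⟩
    exact ⟨hd, by rw [← hvw ⟨s(a, b), hd⟩ hab]; exact hx⟩
  · rintro ⟨hd, hx⟩
    exact ⟨hd, by rw [hvw ⟨s(a, b), hd⟩ hab]; exact hx⟩

/-- moved indices -/
def moved {n m : ℕ} (x y : Fin m ↪ Fin n) : Finset (Fin m) := univ.filter fun i => x i ≠ y i

theorem exists_indep {n m : ℕ} (x y : Fin m ↪ Fin n) :
    ∃ J ⊆ moved x y, (∀ i ∈ J, ∀ k ∈ J, x i ≠ y k) ∧ (moved x y).card ≤ 3 * J.card := by
  classical
  set T : Finset (Finset (Fin m)) :=
    (moved x y).powerset.filter fun J => ∀ i ∈ J, ∀ k ∈ J, x i ≠ y k with hT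
  have hne : T.Nonempty := ⟨∅, by simp [hT]⟩
  obtain ⟨J, hJ, hmax⟩ := Finset.exists_max_image T Finset.card hne
  simp only [hT, mem_filter, mem_powerset] at hJ
  refine ⟨J, hJ.1, hJ.2, ?_⟩
  set A : Finset (Fin m) := univ.filter fun i => ∃ k ∈ J, x i = y k with hA
  set B : Finset (Fin m) := univ.filter fun i => ∃ k ∈ J, y i = x k with hB
  have hAc : A.card ≤ J.card := by
    have h1 : A.map x ⊆ J.map y := by
      intro v hv
      rw [mem_map] at hv ⊢
      obtain ⟨i, hi, rfl⟩ := hv
      obtain ⟨k, hk, hik⟩ := (mem_filter.1 hi).2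
      exact ⟨k, hk, hik.symm⟩
    have := Finset.card_le_card h1
    rwa [card_map, card_map] at this
  have hBc : B.card ≤ J.card := by
    have h1 : B.map y ⊆ J.map x := by
      intro v hv
      rw [mem_map] at hv ⊢
      obtain ⟨i, hi, rfl⟩ := hv
      obtain ⟨k, hk, hik⟩ := (mem_filter.1 hi).2
      exact ⟨k, hk, hik.symm⟩
    have := Finset.card_le_card h1
    rwa [card_map, card_map] at this
  have hsub : moved x y ⊆ J ∪ (A ∪ B) := by
    intro i hi
    by_contra hcon
    simp only [mem_union, not_or, hA, hB, mem_filter, mem_univ, true_and, not_exists, not_and] at hcon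
    obtain ⟨h1, h2, h3⟩ := hcon
    have hins : insert i J ∈ T := by
      simp only [hT, mem_filter, mem_powerset]
      refine ⟨insert_subset hi hJ.1, ?_⟩
      intro a ha b hb
      rw [mem_insert] at ha hb
      rcases ha with rfl | ha <;> rcases hb with rfl | hb
      · exact (mem_filter.1 hi).2
      · exact h2 b hb
      · exact fun h => h3 a ha h.symm
      · exact hJ.2 a ha b hb
    have := hmax _ hins
    rw [card_insert_of_notMem h1] at this
    omega
  have h1 := (Finset.card_le_card hsub).trans (Finset.card_union_le _ _)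
  have h2 := Finset.card_union_le A B
  omega

open Classical in
theorem comap_count {n m : ℕ} (x y : Fin m ↪ Fin n) (t : ℕ)
    (ht : 3 * t ≤ (moved x y).card + 2) :
    (univ.filter fun G : SimpleGraph (Fin n) => G.comap x = G.comap y).card * 2 ^ (t * (m - 2 * t))
      ≤ 2 ^ n.choose 2 := by
  obtain ⟨J, hJm, hJ, hJc⟩ := exists_indep x y
  obtain ⟨J0, hJ0, hJ0c⟩ := Finset.exists_subset_card_eq (show t ≤ J.card by omega)
  set J1 : Finset (Fin m) := univ.filter fun k => k ∉ J0 ∧ ∀ i ∈ J0, y k ≠ x i with hJ1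
  have hJ1c : m - 2 * t ≤ J1.card := by
    set B : Finset (Fin m) := univ.filter fun i => ∃ k ∈ J0, y i = x k with hB
    have hBc : B.card ≤ J0.card := by
      have h1 : B.map y ⊆ J0.map x := by
        intro v hv
        rw [mem_map] at hv ⊢
        obtain ⟨i, hi, rfl⟩ := hv
        obtain ⟨k, hk, hik⟩ := (mem_filter.1 hi).2
        exact ⟨k, hk, hik.symm⟩
      have := Finset.card_le_card h1
      rwa [card_map, card_map] at this
    have hcov : (univ : Finset (Fin m)) ⊆ J1 ∪ (J0 ∪ B) := by
      intro k _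
      by_contra hcon
      simp only [mem_union, not_or, hJ1, hB, mem_filter, mem_univ, true_and, not_exists, not_and]
        at hcon
      obtain ⟨h1, h2, h3⟩ := hcon
      exact h1 h2 h3
    have h1 := (Finset.card_le_card hcov).trans (Finset.card_union_le _ _)
    have h2 := Finset.card_union_le J0 B
    rw [card_univ, Fintype.card_fin] at h1
    omega
  set E : Finset (Sym2 (Fin n)) := (J0 ×ˢ J1).image fun p => s(x p.1, x p.2) with hE
  have hEc : t * (m - 2 * t) ≤ E.card := by
    rw [hE, Finset.card_image_of_injOn, card_product, hJ0c]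
    · exact Nat.mul_le_mul_left _ hJ1c
    · rintro ⟨a, b⟩ hab ⟨c, d⟩ hcd h
      simp only [coe_product, Set.mem_prod, mem_coe] at hab hcd
      simp only [Sym2.eq_iff] at h
      rcases h with ⟨h1, h2⟩ | ⟨h1, h2⟩
      · rw [x.injective h1, x.injective h2]
      · exfalso
        have : a = d := x.injective h1
        rw [this] at hab
        exact (mem_filter.1 hcd.2).2.1 hab.1
  refine le_trans (Nat.mul_le_mul_left _ (Nat.pow_le_pow_right (by norm_num) hEc)) ?_
  apply graph_det
  · intro e he
    rw [hE, mem_image] at he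
    obtain ⟨⟨a, b⟩, hab, rfl⟩ := he
    rw [mem_product] at hab
    rw [Sym2.mk_isDiag_iff]
    intro h
    have : a = b := x.injective h
    rw [this] at hab
    exact (mem_filter.1 hab.2).2.1 hab.1
  · intro G G' hG hG' hoff
    have key : ∀ a b, s(a, b) ∈ E → (G.Adj a b ↔ G'.Adj a b) := by
      intro a b hab
      rw [hE, mem_image] at hab
      obtain ⟨⟨i, k⟩, hik, h⟩ := hab
      rw [mem_product] at hik
      simp only at hik h
      have hk := (mem_filter.1 hik.2).2
      have hyi : ∀ c ∈ J0, y i ≠ x c := fun c hc h' => hJ c (hJ0 hc) i (hJ0 hik.1) h'.symm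
      have hnot : s(y i, y k) ∉ E := by
        rw [hE, mem_image]
        rintro ⟨⟨c, d⟩, hcd, h'⟩
        rw [mem_product] at hcd
        simp only [Sym2.eq_iff] at h'
        rcases h' with ⟨h1, _⟩ | ⟨h1, _⟩
        · exact hyi c hcd.1 h1.symm
        · exact hk.2 c hcd.1 h1.symm
      have e1 : G.Adj (x i) (x k) ↔ G.Adj (y i) (y k) := by
        have := congrArg (fun F : SimpleGraph (Fin m) => F.Adj i k) hG
        simpa using this
      have e2 : G'.Adj (x i) (x k) ↔ G'.Adj (y i) (y k) := by
        have := congrArg (fun F : SimpleGraph (Fin m) => F.Adj i k) hG'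
        simpa using this
      have e3 := hoff _ _ hnot
      have e4 : G.Adj (x i) (x k) ↔ G'.Adj (x i) (x k) := by rw [e1, e2, e3]
      rw [Sym2.eq_iff] at h
      rcases h with ⟨h1, h2⟩ | ⟨h1, h2⟩
      · rw [← h1, ← h2]; exact e4
      · rw [← h1, ← h2, G.adj_comm, G'.adj_comm]; exact e4
    ext a b
    by_cases h : s(a, b) ∈ E
    · exact key a b h
    · exact hoff a b h

def Twin {n m : ℕ} (x : Fin m ↪ Fin n) (u v : Fin n) (G : SimpleGraph (Fin n)) : Prop :=
  ∀ i, G.Adj u (x i) ↔ G.Adj v (x i)

open Classical in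
theorem twin_count {n m : ℕ} (x : Fin m ↪ Fin n) (u v : Fin n) (huv : u ≠ v)
    (hu : ∀ i, x i ≠ u) (hv : ∀ i, x i ≠ v) :
    (univ.filter fun G : SimpleGraph (Fin n) => Twin x u v G).card * 2 ^ m
      ≤ 2 ^ n.choose 2 := by
  set E : Finset (Sym2 (Fin n)) := univ.image fun i : Fin m => s(u, x i) with hE
  have hEc : m = E.card := by
    rw [hE, Finset.card_image_of_injective, card_univ, Fintype.card_fin]
    intro a b h
    simp only [Sym2.eq_iff] at h
    rcases h with ⟨_, h2⟩ | ⟨h1, h2⟩
    · exact x.injective h2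
    · exact absurd h2 (hu a)
  refine le_trans (Nat.mul_le_mul_left _ (Nat.pow_le_pow_right (by norm_num) hEc.le)) ?_
  apply graph_det
  · intro e he
    rw [hE, mem_image] at he
    obtain ⟨i, _, rfl⟩ := he
    rw [Sym2.mk_isDiag_iff]
    exact fun h => hu i h.symm
  · intro G G' hG hG' hoff
    have key : ∀ a b, s(a, b) ∈ E → (G.Adj a b ↔ G'.Adj a b) := by
      intro a b hab
      rw [hE, mem_image] at hab
      obtain ⟨i, _, h⟩ := hab
      have hnot : s(v, x i) ∉ E := by
        rw [hE, mem_image]
        rintro ⟨k, _, h'⟩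
        simp only [Sym2.eq_iff] at h'
        rcases h' with ⟨h1, _⟩ | ⟨h1, h2⟩
        · exact huv h1
        · exact hu i h1.symm
      have e3 := hoff _ _ hnot
      have e4 : G.Adj u (x i) ↔ G'.Adj u (x i) := by rw [hG i, hG' i, e3]
      rw [Sym2.eq_iff] at h
      rcases h with ⟨h1, h2⟩ | ⟨h1, h2⟩
      · rw [← h1, ← h2]; exact e4
      · rw [← h1, ← h2, G.adj_comm, G'.adj_comm]; exact e4
    ext a b
    by_cases h : s(a, b) ∈ E
    · exact key a b h
    · exact hoff a b h

end Pool.Agent.X322.Har
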