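import Pool.Agent.X322.Har6

set_option autoImplicit false

/-! First moment bounds for the typical properties. -/

namespace Pool.Agent.X322.Har

open Finset

theorem moved_card_le {n m : ℕ} (x y : Fin m ↪ Fin n) : (moved x y).card ≤ m := by
  have := Finset.card_le_univ (moved x y)
  rwa [Fintype.card_fin] at this

theorem exists_cover {m : ℕ} (hm : 1 ≤ m) (J : ℕ) (A : Finset (Fin m)) (hA : A.card ≤ J) :
    ∃ g : Fin J → Fin m, ∀ i ∈ A, ∃ a, g a = i := by
  refine ⟨fun a => A.toList.getD a.val ⟨0, hm⟩, ?_⟩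
  intro i hi
  obtain ⟨k, hk, hki⟩ := List.mem_iff_getElem.1 (Finset.mem_toList.2 hi)
  have hk' : k < J := by
    rw [Finset.length_toList] at hk
    omega
  refine ⟨⟨k, hk'⟩, ?_⟩
  simp only [List.getD_eq_getElem?_getD, List.getElem?_eq_getElem hk, Option.getD_some]
  exact hki

open Classical in
theorem count_moved {n m : ℕ} (hm : 1 ≤ m) (x : Fin m ↪ Fin n) (J : ℕ) :
    (univ.filter fun y : Fin m ↪ Fin n => (moved x y).card ≤ J).card ≤ (m * n) ^ J := by
  have hg : ∀ y : Fin m ↪ Fin n, ∃ g : Fin J → Fin m, (moved x y).card ≤ J →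
      ∀ i ∈ moved x y, ∃ a, g a = i := by
    intro y
    by_cases h : (moved x y).card ≤ J
    · obtain ⟨g, hg⟩ := exists_cover hm J _ h
      exact ⟨g, fun _ => hg⟩
    · exact ⟨fun _ => ⟨0, hm⟩, fun h' => absurd h' h⟩
  choose g hg using hg
  have h1 : (univ.filter fun y : Fin m ↪ Fin n => (moved x y).card ≤ J).card
      ≤ (univ : Finset (Fin J → Fin m × Fin n)).card := by
    refine Finset.card_le_card_of_injOn (fun y => fun a => (g y a, y (g y a)))
      (fun _ _ => by simp) ?_
    intro y hy z hz hyz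
    have hy' := (mem_filter.1 (mem_coe.1 hy)).2
    have hz' := (mem_filter.1 (mem_coe.1 hz)).2
    have hk : ∀ a, g y a = g z a ∧ y (g y a) = z (g z a) := by
      intro a
      have := congrFun hyz a
      simpa only [Prod.mk.injEq] using this
    apply DFunLike.ext
    intro i
    by_cases h1 : i ∈ moved x y
    · obtain ⟨a, ha⟩ := hg y hy' i h1
      have := hk a
      rw [← this.1, ha] at this
      exact this.2
    · by_cases h2 : i ∈ moved x z
      · obtain ⟨a, ha⟩ := hg z hz' i h2
        have := hk a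
        rw [this.1, ha] at this
        exact this.2
      · have e1 : x i = y i := by
          by_contra h; exact h1 (mem_filter.2 ⟨mem_univ _, h⟩)
        have e2 : x i = z i := by
          by_contra h; exact h2 (mem_filter.2 ⟨mem_univ _, h⟩)
        rw [← e1, ← e2]
  refine h1.trans (le_of_eq ?_)
  rw [card_univ, Fintype.card_fun, Fintype.card_prod, Fintype.card_fin, Fintype.card_fin,
    Fintype.card_fin]

/-- the decay factor -/
noncomputable def th (m : ℕ) : ℝ := (1 / 2 : ℝ) ^ (((m : ℝ) - 4) / 9)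

theorem th_pos (m : ℕ) : 0 < th m := by unfold th; positivity

open Classical in
noncomputable def coin {n m : ℕ} (x y : Fin m ↪ Fin n) : ℝ :=
  ((univ.filter fun G : SimpleGraph (Fin n) => G.comap x = G.comap y).card : ℝ)

theorem coin_le {n m : ℕ} (hm : 4 ≤ m) (x y : Fin m ↪ Fin n) :
    coin x y ≤ 2 ^ n.choose 2 * th m ^ (moved x y).card := by
  classical
  set j := (moved x y).card with hj
  set t := (j + 2) / 3 with ht
  have hjm : j ≤ m := moved_card_le x y
  have h1 := comap_count x y t (by omega)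
  have h2t : 2 * t ≤ m := by omega
  have h3 : (coin x y) * 2 ^ (t * (m - 2 * t)) ≤ 2 ^ n.choose 2 := by
    unfold coin
    exact_mod_cast h1
  have h4 : (1 / 2 : ℝ) ^ (t * (m - 2 * t)) ≤ th m ^ j := by
    unfold th
    rw [← Real.rpow_natCast, ← Real.rpow_natCast, ← Real.rpow_mul (by norm_num)]
    apply Real.rpow_le_rpow_of_exponent_ge (by norm_num) (by norm_num)
    push_cast [Nat.cast_sub h2t]
    have a1 : (j : ℝ) ≤ 3 * t := by
      have : j ≤ 3 * t := by omega
      exact_mod_cast this
    have a2 : 3 * (t : ℝ) ≤ j + 2 := by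
      have : 3 * t ≤ j + 2 := by omega
      exact_mod_cast this
    have a3 : (j : ℝ) ≤ m := by exact_mod_cast hjm
    have a4 : (4 : ℝ) ≤ m := by exact_mod_cast hm
    have a5 : (0 : ℝ) ≤ j := Nat.cast_nonneg _
    have a6 : (m : ℝ) - 4 ≤ 3 * (m - 2 * t) := by linarith
    have a7 : (0 : ℝ) ≤ m - 2 * t := by linarith
    nlinarith
  have h5 : coin x y = (coin x y * 2 ^ (t * (m - 2 * t))) * (1 / 2 : ℝ) ^ (t * (m - 2 * t)) := by
    rw [mul_assoc, ← mul_pow]
    norm_num
  rw [h5]
  apply mul_le_mul h3 h4 (by positivity) (by positivity)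

open Classical in
theorem sum_coin {n m : ℕ} (hm : 4 ≤ m) (x : Fin m ↪ Fin n) (J : ℕ)
    (hθ : (m * n : ℝ) * th m ≤ 1) :
    ∑ y ∈ univ.filter (fun y : Fin m ↪ Fin n => J ≤ (moved x y).card), coin x y
      ≤ 2 ^ n.choose 2 * ((m + 1) * ((m * n : ℝ) * th m) ^ J) := by
  set ρ : ℝ := (m * n : ℝ) * th m with hρ
  have hρ0 : 0 ≤ ρ := by rw [hρ]; have := (th_pos m).le; positivity
  set S := univ.filter (fun y : Fin m ↪ Fin n => J ≤ (moved x y).card) with hS
  have h0 : ∑ y ∈ S, coin x y ≤ ∑ y ∈ S, 2 ^ n.choose 2 * th m ^ (moved x y).card :=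
    Finset.sum_le_sum fun y _ => coin_le hm x y
  refine h0.trans ?_
  have h1 : ∑ y ∈ S, (2 : ℝ) ^ n.choose 2 * th m ^ (moved x y).card
      = ∑ j ∈ range (m + 1), ∑ y ∈ S.filter (fun y => (moved x y).card = j),
        2 ^ n.choose 2 * th m ^ (moved x y).card := by
    rw [Finset.sum_fiberwise_of_maps_to]
    intro y _
    rw [mem_range]
    have := moved_card_le x y
    omega
  rw [h1]
  have h2 : ∀ j ∈ range (m + 1), ∑ y ∈ S.filter (fun y => (moved x y).card = j),
        (2 : ℝ) ^ n.choose 2 * th m ^ (moved x y).card ≤ 2 ^ n.choose 2 * ρ ^ J := by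
    intro j _
    by_cases hjJ : J ≤ j
    · have h3 : ∑ y ∈ S.filter (fun y => (moved x y).card = j),
          (2 : ℝ) ^ n.choose 2 * th m ^ (moved x y).card
          = (S.filter (fun y => (moved x y).card = j)).card * (2 ^ n.choose 2 * th m ^ j) := by
        rw [← nsmul_eq_mul, ← Finset.sum_const]
        apply Finset.sum_congr rfl
        intro y hy
        rw [(mem_filter.1 hy).2]
      rw [h3]
      have h4 : (S.filter (fun y => (moved x y).card = j)).card ≤ (m * n) ^ j := by
        refine le_trans (Finset.card_le_card ?_) (count_moved (by omega) x j)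
        intro y hy
        rw [mem_filter]
        exact ⟨mem_univ _, (mem_filter.1 hy).2.le⟩
      have h4' : ((S.filter (fun y => (moved x y).card = j)).card : ℝ) ≤ (m * n : ℝ) ^ j := by
        exact_mod_cast h4
      have hθ0 := (th_pos m).le
      calc ((S.filter (fun y => (moved x y).card = j)).card : ℝ) * (2 ^ n.choose 2 * th m ^ j)
          ≤ (m * n : ℝ) ^ j * (2 ^ n.choose 2 * th m ^ j) :=
            mul_le_mul_of_nonneg_right h4' (by positivity)
        _ = 2 ^ n.choose 2 * ρ ^ j := by rw [hρ, mul_pow]; ring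
        _ ≤ 2 ^ n.choose 2 * ρ ^ J :=
            mul_le_mul_of_nonneg_left (pow_le_pow_of_le_one hρ0 hθ hjJ) (by positivity)
    · have : S.filter (fun y => (moved x y).card = j) = ∅ := by
        rw [Finset.filter_eq_empty_iff]
        intro y hy h
        have := (mem_filter.1 hy).2
        omega
      rw [this, Finset.sum_empty]
      positivity
  refine (Finset.sum_le_sum h2).trans (le_of_eq ?_)
  rw [Finset.sum_const, card_range, nsmul_eq_mul]
  push_cast
  ring

open Classical in
theorem typ1_bound {n s : ℕ} (hs : 4 ≤ s) (hsn : s ≤ n) (hθ : (s * n : ℝ) * th s ≤ 1) :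
    ((univ.filter fun G : SimpleGraph (Fin n) => ¬ Typ1 s G).card : ℝ)
      ≤ 2 ^ n.choose 2 * (2 * ((s + 1) * ((s * n : ℝ) * th s) + n ^ 2 * (1 / 2) ^ s)) := by
  set K := Fintype.card (Fin s ↪ Fin n) with hK
  have hKpos : 0 < K := by
    rw [hK, Fintype.card_pos_iff]
    exact ⟨Fin.castLEEmb hsn⟩
  set N : ℝ := 2 ^ n.choose 2 with hN
  -- each x
  have hx : ∀ x : Fin s ↪ Fin n,
      ((univ.filter fun G : SimpleGraph (Fin n) => ¬ GoodInj G x).card : ℝ)
        ≤ N * ((s + 1) * ((s * n : ℝ) * th s) + n ^ 2 * (1 / 2) ^ s) := by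
    intro x
    have hsub : (univ.filter fun G : SimpleGraph (Fin n) => ¬ GoodInj G x) ⊆
        ((univ.filter (fun y : Fin s ↪ Fin n => 1 ≤ (moved x y).card)).biUnion fun y =>
          univ.filter fun G : SimpleGraph (Fin n) => G.comap x = G.comap y) ∪
        ((univ.filter (fun p : Fin n × Fin n => p.1 ≠ p.2 ∧ (∀ i, x i ≠ p.1) ∧
          (∀ i, x i ≠ p.2))).biUnion fun p =>
            univ.filter fun G : SimpleGraph (Fin n) => Twin x p.1 p.2 G) := by
      intro G hG
      have hG' := (mem_filter.1 hG).2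
      unfold GoodInj at hG'
      rw [not_and_or] at hG'
      rw [mem_union, mem_biUnion, mem_biUnion]
      rcases hG' with h | h
      · left
        push Not at h
        obtain ⟨y, hy, hne⟩ := h
        refine ⟨y, ?_, ?_⟩
        · rw [mem_filter]
          refine ⟨mem_univ _, ?_⟩
          by_contra hc
          have h0 : moved x y = ∅ := by
            rw [← Finset.card_eq_zero]; omega
          apply hne
          apply DFunLike.ext
          intro i
          by_contra hi
          have : i ∈ moved x y := mem_filter.2 ⟨mem_univ _, fun h => hi h.symm⟩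
          rw [h0] at this
          simp at this
        · rw [mem_filter]
          exact ⟨mem_univ _, hy.symm⟩
      · right
        push Not at h
        obtain ⟨u, v, huv, hu, hv, ht⟩ := h
        refine ⟨(u, v), ?_, ?_⟩
        · rw [mem_filter]
          exact ⟨mem_univ _, huv, hu, hv⟩
        · rw [mem_filter]
          exact ⟨mem_univ _, ht⟩
    have hc := (Finset.card_le_card hsub).trans (Finset.card_union_le _ _)
    have hc1 := Finset.card_biUnion_le
      (s := univ.filter (fun y : Fin s ↪ Fin n => 1 ≤ (moved x y).card))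
      (t := fun y => univ.filter fun G : SimpleGraph (Fin n) => G.comap x = G.comap y)
    have hc2 := Finset.card_biUnion_le
      (s := univ.filter (fun p : Fin n × Fin n => p.1 ≠ p.2 ∧ (∀ i, x i ≠ p.1) ∧
          (∀ i, x i ≠ p.2)))
      (t := fun p => univ.filter fun G : SimpleGraph (Fin n) => Twin x p.1 p.2 G)
    have hc' := hc.trans (Nat.add_le_add hc1 hc2)
    have hcr : ((univ.filter fun G : SimpleGraph (Fin n) => ¬ GoodInj G x).card : ℝ)
        ≤ (∑ y ∈ univ.filter (fun y : Fin s ↪ Fin n => 1 ≤ (moved x y).card), coin x y)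
          + ∑ p ∈ univ.filter (fun p : Fin n × Fin n => p.1 ≠ p.2 ∧ (∀ i, x i ≠ p.1) ∧
          (∀ i, x i ≠ p.2)),
            ((univ.filter fun G : SimpleGraph (Fin n) => Twin x p.1 p.2 G).card : ℝ) := by
      unfold coin
      exact_mod_cast hc'
    refine hcr.trans ?_
    have s1 := sum_coin hs x 1 hθ
    rw [pow_one] at s1
    have s2 : ∑ p ∈ univ.filter (fun p : Fin n × Fin n => p.1 ≠ p.2 ∧ (∀ i, x i ≠ p.1) ∧
          (∀ i, x i ≠ p.2)),
            ((univ.filter fun G : SimpleGraph (Fin n) => Twin x p.1 p.2 G).card : ℝ)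
        ≤ N * (n ^ 2 * (1 / 2) ^ s) := by
      have s3 : ∀ p ∈ univ.filter (fun p : Fin n × Fin n => p.1 ≠ p.2 ∧ (∀ i, x i ≠ p.1) ∧
          (∀ i, x i ≠ p.2)),
            ((univ.filter fun G : SimpleGraph (Fin n) => Twin x p.1 p.2 G).card : ℝ)
            ≤ N * (1 / 2) ^ s := by
        intro p hp
        have hp' := (mem_filter.1 hp).2
        have := twin_count x p.1 p.2 hp'.1 hp'.2.1 hp'.2.2
        have h' : ((univ.filter fun G : SimpleGraph (Fin n) => Twin x p.1 p.2 G).card : ℝ)
          * 2 ^ s ≤ N := by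
          rw [hN]
          exact_mod_cast this
        have e : ((univ.filter fun G : SimpleGraph (Fin n) => Twin x p.1 p.2 G).card : ℝ)
          = (((univ.filter fun G : SimpleGraph (Fin n) => Twin x p.1 p.2 G).card : ℝ)
          * 2 ^ s) * (1 / 2) ^ s := by
          rw [mul_assoc, ← mul_pow]; norm_num
        rw [e]
        exact mul_le_mul_of_nonneg_right h' (by positivity)
      refine (Finset.sum_le_sum s3).trans ?_
      rw [Finset.sum_const, nsmul_eq_mul]
      have hcard : ((univ.filter (fun p : Fin n × Fin n => p.1 ≠ p.2 ∧ (∀ i, x i ≠ p.1) ∧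
          (∀ i, x i ≠ p.2))).card : ℝ) ≤ n ^ 2 := by
        have := Finset.card_le_univ (univ.filter (fun p : Fin n × Fin n => p.1 ≠ p.2 ∧
          (∀ i, x i ≠ p.1) ∧ (∀ i, x i ≠ p.2)))
        rw [Fintype.card_prod, Fintype.card_fin] at this
        have h' : ((univ.filter (fun p : Fin n × Fin n => p.1 ≠ p.2 ∧ (∀ i, x i ≠ p.1) ∧
          (∀ i, x i ≠ p.2))).card : ℝ) ≤ (n * n : ℝ) := by exact_mod_cast this
        rw [pow_two]; exact h'
      have hNp : 0 ≤ N * (1 / 2) ^ s := by positivity
      calc _ ≤ (n : ℝ) ^ 2 * (N * (1 / 2) ^ s) := mul_le_mul_of_nonneg_right hcard hNp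
        _ = _ := by ring
    calc _ ≤ N * ((s + 1) * ((s * n : ℝ) * th s)) + N * (n ^ 2 * (1 / 2) ^ s) := add_le_add s1 s2
      _ = _ := by ring
  -- double counting
  have hdc : ∑ G : SimpleGraph (Fin n), (univ.filter fun x : Fin s ↪ Fin n => ¬ GoodInj G x).card
      = ∑ x : Fin s ↪ Fin n, (univ.filter fun G : SimpleGraph (Fin n) => ¬ GoodInj G x).card := by
    simp_rw [Finset.card_filter]
    exact Finset.sum_comm
  have hbad : ∀ G : SimpleGraph (Fin n), ¬ Typ1 s G →
      K ≤ 2 * (univ.filter fun x : Fin s ↪ Fin n => ¬ GoodInj G x).card := by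
    intro G hG
    unfold Typ1 at hG
    have := Finset.card_filter_add_card_filter_not
      (s := (univ : Finset (Fin s ↪ Fin n))) (fun x => GoodInj G x)
    rw [card_univ] at this
    omega
  have h1 : (univ.filter fun G : SimpleGraph (Fin n) => ¬ Typ1 s G).card * K
      ≤ 2 * ∑ G : SimpleGraph (Fin n),
        (univ.filter fun x : Fin s ↪ Fin n => ¬ GoodInj G x).card := by
    calc (univ.filter fun G : SimpleGraph (Fin n) => ¬ Typ1 s G).card * K
        = ∑ G ∈ univ.filter (fun G : SimpleGraph (Fin n) => ¬ Typ1 s G), K := by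
          rw [Finset.sum_const, smul_eq_mul]
      _ ≤ ∑ G ∈ univ.filter (fun G : SimpleGraph (Fin n) => ¬ Typ1 s G),
          2 * (univ.filter fun x : Fin s ↪ Fin n => ¬ GoodInj G x).card :=
          Finset.sum_le_sum fun G hG => hbad G (mem_filter.1 hG).2
      _ ≤ ∑ G : SimpleGraph (Fin n),
          2 * (univ.filter fun x : Fin s ↪ Fin n => ¬ GoodInj G x).card :=
          Finset.sum_le_sum_of_subset (subset_univ _)
      _ = _ := by rw [Finset.mul_sum]
  rw [hdc] at h1
  have h2 : ((univ.filter fun G : SimpleGraph (Fin n) => ¬ Typ1 s G).card : ℝ) * K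
      ≤ 2 * ∑ x : Fin s ↪ Fin n,
        ((univ.filter fun G : SimpleGraph (Fin n) => ¬ GoodInj G x).card : ℝ) := by
    exact_mod_cast h1
  have h3 : ∑ x : Fin s ↪ Fin n,
        ((univ.filter fun G : SimpleGraph (Fin n) => ¬ GoodInj G x).card : ℝ)
        ≤ K * (N * ((s + 1) * ((s * n : ℝ) * th s) + n ^ 2 * (1 / 2) ^ s)) := by
    refine (Finset.sum_le_sum fun x _ => hx x).trans ?_
    rw [Finset.sum_const, card_univ, nsmul_eq_mul]
  have hKr : (0 : ℝ) < K := by exact_mod_cast hKpos
  have h4 : ((univ.filter fun G : SimpleGraph (Fin n) => ¬ Typ1 s G).card : ℝ) * K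
      ≤ (N * (2 * ((s + 1) * ((s * n : ℝ) * th s) + n ^ 2 * (1 / 2) ^ s))) * K := by
    refine h2.trans ?_
    calc _ ≤ 2 * (K * (N * ((s + 1) * ((s * n : ℝ) * th s) + n ^ 2 * (1 / 2) ^ s))) := by
          linarith
      _ = _ := by ring
  exact le_of_mul_le_mul_right h4 hKr

/-- increasing enumeration -/
def emb {n m : ℕ} (B : Finset (Fin n)) (h : B.card = m) : Fin m ↪ Fin n :=
  (B.orderEmbOfFin h).toEmbedding

def Typ2 {n : ℕ} (m J : ℕ) (G : SimpleGraph (Fin n)) : Prop :=
  ∀ (B : Finset (Fin n)) (h : B.card = m) (y : Fin m ↪ Fin n),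
    G.comap (emb B h) = G.comap y → (moved (emb B h) y).card < J

open Classical in
theorem typ2_bound {n m : ℕ} (J : ℕ) (hm : 4 ≤ m) (hθ : (m * n : ℝ) * th m ≤ 1) :
    ((univ.filter fun G : SimpleGraph (Fin n) => ¬ Typ2 m J G).card : ℝ)
      ≤ 2 ^ n.choose 2 * (2 ^ n * ((m + 1) * ((m * n : ℝ) * th m) ^ J)) := by
  set N : ℝ := 2 ^ n.choose 2 with hN
  have hsub : (univ.filter fun G : SimpleGraph (Fin n) => ¬ Typ2 m J G) ⊆
      ((univ.filter fun B : Finset (Fin n) => B.card = m).attach).biUnion fun B =>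
        (univ.filter (fun y : Fin m ↪ Fin n =>
          J ≤ (moved (emb B.1 (mem_filter.1 B.2).2) y).card)).biUnion fun y =>
          univ.filter fun G : SimpleGraph (Fin n) =>
            G.comap (emb B.1 (mem_filter.1 B.2).2) = G.comap y := by
    intro G hG
    have hG' := (mem_filter.1 hG).2
    unfold Typ2 at hG'
    push Not at hG'
    obtain ⟨B, h, y, h1, h2⟩ := hG'
    rw [mem_biUnion]
    refine ⟨⟨B, mem_filter.2 ⟨mem_univ _, h⟩⟩, mem_attach _ _, ?_⟩
    rw [mem_biUnion]
    exact ⟨y, mem_filter.2 ⟨mem_univ _, h2⟩, mem_filter.2 ⟨mem_univ _, h1⟩⟩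
  have hB : ∀ B : {B // B ∈ univ.filter fun B : Finset (Fin n) => B.card = m},
      ((((univ.filter (fun y : Fin m ↪ Fin n =>
          J ≤ (moved (emb B.1 (mem_filter.1 B.2).2) y).card)).biUnion fun y =>
          univ.filter fun G : SimpleGraph (Fin n) =>
            G.comap (emb B.1 (mem_filter.1 B.2).2) = G.comap y)).card : ℝ)
        ≤ N * ((m + 1) * ((m * n : ℝ) * th m) ^ J) := by
    intro B
    refine le_trans ?_ (sum_coin hm (emb B.1 (mem_filter.1 B.2).2) J hθ)
    have := Finset.card_biUnion_le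
      (s := univ.filter (fun y : Fin m ↪ Fin n =>
          J ≤ (moved (emb B.1 (mem_filter.1 B.2).2) y).card))
      (t := fun y => univ.filter fun G : SimpleGraph (Fin n) =>
            G.comap (emb B.1 (mem_filter.1 B.2).2) = G.comap y)
    unfold coin
    exact_mod_cast this
  have h1 := (Finset.card_le_card hsub).trans Finset.card_biUnion_le
  have h2 : ((univ.filter fun G : SimpleGraph (Fin n) => ¬ Typ2 m J G).card : ℝ)
      ≤ ∑ B ∈ (univ.filter fun B : Finset (Fin n) => B.card = m).attach,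
        N * ((m + 1) * ((m * n : ℝ) * th m) ^ J) := by
    refine le_trans (Nat.cast_le.2 h1) ?_
    rw [Nat.cast_sum]
    exact Finset.sum_le_sum fun B _ => hB B
  refine h2.trans ?_
  rw [Finset.sum_const, card_attach, nsmul_eq_mul]
  have h3 : ((univ.filter fun B : Finset (Fin n) => B.card = m).card : ℝ) ≤ 2 ^ n := by
    have := Finset.card_le_univ (univ.filter fun B : Finset (Fin n) => B.card = m)
    rw [Fintype.card_finset, Fintype.card_fin] at this
    exact_mod_cast this
  have hθ0 := (th_pos m).le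
  have h4 : 0 ≤ N * ((m + 1) * ((m * n : ℝ) * th m) ^ J) := by positivity
  calc _ ≤ (2 : ℝ) ^ n * (N * ((m + 1) * ((m * n : ℝ) * th m) ^ J)) :=
        mul_le_mul_of_nonneg_right h3 h4
    _ = _ := by ring

end Pool.Agent.X322.Har
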