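import Pool.Agent.X322.Har4

set_option autoImplicit false

/-! A typical graph is determined by the types of its small subgraphs among graphs of its order. -/

namespace Pool.Agent.X322.Har

open Finset

def GoodInj {n s : ℕ} (G : SimpleGraph (Fin n)) (x : Fin s ↪ Fin n) : Prop :=
  (∀ y : Fin s ↪ Fin n, G.comap y = G.comap x → y = x) ∧
  ∀ u v, u ≠ v → (∀ i, x i ≠ u) → (∀ i, x i ≠ v) → ¬ Twin x u v G

open Classical in
def Typ1 {n : ℕ} (s : ℕ) (G : SimpleGraph (Fin n)) : Prop :=
  Fintype.card (Fin s ↪ Fin n) < 2 * (univ.filter fun x : Fin s ↪ Fin n => GoodInj G x).card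

/-- append two points -/
def app {n s : ℕ} (x : Fin s ↪ Fin n) (u v : Fin n) (huv : u ≠ v)
    (hu : ∀ i, x i ≠ u) (hv : ∀ i, x i ≠ v) : Fin (s + 2) ↪ Fin n where
  toFun := Fin.append x ![u, v]
  inj' := by
    intro a b
    refine Fin.addCases (fun i => ?_) (fun i => ?_) a <;>
      refine Fin.addCases (fun k => ?_) (fun k => ?_) b
    · intro h
      rw [Fin.append_left, Fin.append_left] at h
      rw [x.injective h]
    · intro h
      rw [Fin.append_left, Fin.append_right] at h
      fin_cases k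
      · exact absurd h (hu i)
      · exact absurd h (hv i)
    · intro h
      rw [Fin.append_left, Fin.append_right] at h
      fin_cases i
      · exact absurd h.symm (hu k)
      · exact absurd h.symm (hv k)
    · intro h
      rw [Fin.append_right, Fin.append_right] at h
      fin_cases i <;> fin_cases k
      · rfl
      · exact absurd h huv
      · exact absurd h.symm huv
      · rfl

theorem app_left {n s : ℕ} (x : Fin s ↪ Fin n) (u v : Fin n) (huv : u ≠ v)
    (hu : ∀ i, x i ≠ u) (hv : ∀ i, x i ≠ v) (i : Fin s) :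
    app x u v huv hu hv (Fin.castAdd 2 i) = x i := Fin.append_left _ _ _

theorem app_u {n s : ℕ} (x : Fin s ↪ Fin n) (u v : Fin n) (huv : u ≠ v)
    (hu : ∀ i, x i ≠ u) (hv : ∀ i, x i ≠ v) :
    app x u v huv hu hv (Fin.natAdd s 0) = u := by
  change Fin.append x ![u, v] (Fin.natAdd s 0) = u
  rw [Fin.append_right]
  rfl

theorem app_v {n s : ℕ} (x : Fin s ↪ Fin n) (u v : Fin n) (huv : u ≠ v)
    (hu : ∀ i, x i ≠ u) (hv : ∀ i, x i ≠ v) :
    app x u v huv hu hv (Fin.natAdd s 1) = v := by
  change Fin.append x ![u, v] (Fin.natAdd s 1) = v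
  rw [Fin.append_right]
  rfl

/-- restriction to the first `s` coordinates -/
def res {n s : ℕ} (z : Fin (s + 2) ↪ Fin n) : Fin s ↪ Fin n :=
  ⟨fun i => z (Fin.castAdd 2 i), fun a b h => by
    have := z.injective h
    exact Fin.castAdd_injective _ _ this⟩

theorem card_compl {n s : ℕ} (x : Fin s ↪ Fin n) : Fintype.card {u // ∀ i, x i ≠ u} = n - s := by
  classical
  have h : Fintype.card {u // ∀ i, x i ≠ u} = (univ \ (univ.map x)).card := by
    rw [Fintype.card_subtype]
    congr 1
    ext u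
    simp
  rw [h, card_sdiff_of_subset (subset_univ _), card_map, card_univ, card_univ, Fintype.card_fin,
    Fintype.card_fin]

theorem exists_two {n s : ℕ} (hn : s + 2 ≤ n) (x : Fin s ↪ Fin n) :
    ∃ u v, u ≠ v ∧ (∀ i, x i ≠ u) ∧ (∀ i, x i ≠ v) := by
  have h : 1 < Fintype.card {u // ∀ i, x i ≠ u} := by
    rw [card_compl]; omega
  obtain ⟨a, b, hab⟩ := Fintype.one_lt_card_iff.1 h
  exact ⟨a.1, b.1, fun h => hab (Subtype.ext h), a.2, b.2⟩

theorem exists_other {n s : ℕ} (hn : s + 2 ≤ n) (x : Fin s ↪ Fin n) (u : Fin n) :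
    ∃ v, u ≠ v ∧ (∀ i, x i ≠ v) := by
  obtain ⟨a, b, hab, ha, hb⟩ := exists_two hn x
  by_cases h : u = a
  · exact ⟨b, by rw [h]; exact hab, hb⟩
  · exact ⟨a, h, ha⟩

theorem comap_adj {n m : ℕ} {G H : SimpleGraph (Fin n)} {x y : Fin m ↪ Fin n}
    (h : G.comap x = H.comap y) (i k : Fin m) : G.Adj (x i) (x k) ↔ H.Adj (y i) (y k) := by
  have := congrArg (fun F : SimpleGraph (Fin m) => F.Adj i k) h
  simpa using this

theorem priv {n s : ℕ} (hn : s + 2 ≤ n) (G H : SimpleGraph (Fin n)) (hG : Typ1 s G)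
    (hH : ∀ z : Fin (s + 2) ↪ Fin n, ∃ z' : Fin (s + 2) ↪ Fin n, H.comap z' = G.comap z) :
    Nonempty (G ≃g H) := by
  classical
  -- step 1
  have hex : ∀ x : Fin s ↪ Fin n, ∃ y : Fin s ↪ Fin n, H.comap y = G.comap x := by
    intro x
    obtain ⟨u, v, huv, hu, hv⟩ := exists_two hn x
    obtain ⟨z', hz'⟩ := hH (app x u v huv hu hv)
    refine ⟨res z', ?_⟩
    ext i k
    have := comap_adj hz' (Fin.castAdd 2 i) (Fin.castAdd 2 k)
    rw [app_left, app_left] at this
    exact this
  have h1 : ∃ x : Fin s ↪ Fin n, GoodInj G x ∧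
      ∀ y y' : Fin s ↪ Fin n, H.comap y = G.comap x → H.comap y' = G.comap x → y = y' := by
    by_contra hcon
    push Not at hcon
    set A : Finset (Fin s ↪ Fin n) := univ.filter fun x => GoodInj G x with hA
    have hb : (A.biUnion fun x => univ.filter fun y : Fin s ↪ Fin n => H.comap y = G.comap x).card
        = ∑ x ∈ A, (univ.filter fun y : Fin s ↪ Fin n => H.comap y = G.comap x).card := by
      apply Finset.card_biUnion
      intro x hx x' hx' hne
      rw [Function.onFun, Finset.disjoint_left]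
      intro y hy hy'
      have e1 := (mem_filter.1 hy).2
      have e2 := (mem_filter.1 hy').2
      exact hne ((mem_filter.1 hx').2.1 x (e1.symm.trans e2))
    have hge : ∑ x ∈ A, 2
        ≤ ∑ x ∈ A, (univ.filter fun y : Fin s ↪ Fin n => H.comap y = G.comap x).card := by
      apply Finset.sum_le_sum
      intro x hx
      obtain ⟨y, y', h1, h2, h3⟩ := hcon x (mem_filter.1 hx).2
      have : ({y, y'} : Finset (Fin s ↪ Fin n)) ⊆
          univ.filter fun y : Fin s ↪ Fin n => H.comap y = G.comap x := by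
        intro w hw
        rw [mem_insert, mem_singleton] at hw
        rcases hw with rfl | rfl
        · simpa using h1
        · simpa using h2
      have := Finset.card_le_card this
      rwa [Finset.card_pair h3] at this
    rw [← hb] at hge
    have hle := hge.trans (Finset.card_le_univ _)
    rw [Finset.sum_const, smul_eq_mul] at hle
    unfold Typ1 at hG
    have : (univ.filter fun x : Fin s ↪ Fin n => GoodInj G x).card = A.card := rfl
    omega
  obtain ⟨x, hx, huniq⟩ := h1
  obtain ⟨y, hy⟩ := hex x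
  -- step 2
  have step : ∀ u v, u ≠ v → (∀ i, x i ≠ u) → (∀ i, x i ≠ v) → ∃ u' v', u' ≠ v' ∧
      (∀ i, y i ≠ u') ∧ (∀ i, y i ≠ v') ∧ (∀ i, H.Adj u' (y i) ↔ G.Adj u (x i)) ∧
      (∀ i, H.Adj v' (y i) ↔ G.Adj v (x i)) ∧ (H.Adj u' v' ↔ G.Adj u v) := by
    intro u v huv hu hv
    obtain ⟨z', hz'⟩ := hH (app x u v huv hu hv)
    have hres : res z' = y := by
      apply huniq _ _ _ hy
      ext i k
      have := comap_adj hz' (Fin.castAdd 2 i) (Fin.castAdd 2 k)
      rw [app_left, app_left] at this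
      exact this
    have hzy : ∀ i, z' (Fin.castAdd 2 i) = y i := fun i => by rw [← hres]; rfl
    refine ⟨z' (Fin.natAdd s 0), z' (Fin.natAdd s 1), ?_, ?_, ?_, ?_, ?_, ?_⟩
    · intro h
      have := z'.injective h
      have := Fin.natAdd_injective _ _ this
      exact absurd this (by decide)
    · intro i h
      rw [← hzy] at h
      have := congrArg Fin.val (z'.injective h)
      simp only [Fin.val_castAdd, Fin.val_natAdd] at this
      have := i.isLt
      omega
    · intro i h
      rw [← hzy] at h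
      have := congrArg Fin.val (z'.injective h)
      simp only [Fin.val_castAdd, Fin.val_natAdd] at this
      have := i.isLt
      omega
    · intro i
      have := comap_adj hz' (Fin.natAdd s 0) (Fin.castAdd 2 i)
      rw [app_left, app_u, hzy] at this
      exact this
    · intro i
      have := comap_adj hz' (Fin.natAdd s 1) (Fin.castAdd 2 i)
      rw [app_left, app_v, hzy] at this
      exact this
    · have := comap_adj hz' (Fin.natAdd s 0) (Fin.natAdd s 1)
      rw [app_u, app_v] at this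
      exact this
  have hf : ∀ u : {u // ∀ i, x i ≠ u}, ∃ w : {w // ∀ i, y i ≠ w},
      ∀ i, H.Adj w.1 (y i) ↔ G.Adj u.1 (x i) := by
    rintro ⟨u, hu⟩
    obtain ⟨v, huv, hv⟩ := exists_other hn x u
    obtain ⟨u', v', _, h1, _, h3, _, _⟩ := step u v huv hu hv
    exact ⟨⟨u', h1⟩, h3⟩
  choose f hf using hf
  have hfinj : Function.Injective f := by
    intro u v h
    by_contra hne
    refine hx.2 u.1 v.1 (fun h => hne (Subtype.ext h)) u.2 v.2 ?_
    intro i
    rw [← hf u i, ← hf v i, h]
  have hfbij : Function.Bijective f :=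
    (Fintype.bijective_iff_injective_and_card f).2 ⟨hfinj, by rw [card_compl, card_compl]⟩
  have hfu : ∀ (u : {u // ∀ i, x i ≠ u}) (w : Fin n), (∀ i, y i ≠ w) →
      (∀ i, H.Adj w (y i) ↔ G.Adj u.1 (x i)) → w = (f u).1 := by
    intro u w hw hpat
    obtain ⟨v, hv⟩ := hfbij.2 ⟨w, hw⟩
    have : u = v := by
      by_contra hne
      refine hx.2 u.1 v.1 (fun h => hne (Subtype.ext h)) u.2 v.2 ?_
      intro i
      rw [← hpat i, ← hf v i, hv]
    rw [this, hv]
  -- the map
  set φ : Fin n → Fin n := fun v => if h : ∃ i, x i = v then y h.choose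
    else (f ⟨v, fun i hi => h ⟨i, hi⟩⟩).1 with hφ
  have φx : ∀ i, φ (x i) = y i := by
    intro i
    have h : ∃ k, x k = x i := ⟨i, rfl⟩
    simp only [hφ, dif_pos h]
    rw [x.injective h.choose_spec]
  have φo : ∀ u (hu : ∀ i, x i ≠ u), φ u = (f ⟨u, hu⟩).1 := by
    intro u hu
    have h : ¬ ∃ k, x k = u := fun ⟨k, hk⟩ => hu k hk
    simp only [hφ, dif_neg h]
  have φinj : Function.Injective φ := by
    intro a b hab
    by_cases ha : ∃ i, x i = a
    · obtain ⟨i, rfl⟩ := ha
      by_cases hb : ∃ k, x k = b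
      · obtain ⟨k, rfl⟩ := hb
        rw [φx, φx] at hab
        rw [y.injective hab]
      · have hb' : ∀ k, x k ≠ b := fun k hk => hb ⟨k, hk⟩
        rw [φx, φo b hb'] at hab
        exact absurd hab ((f ⟨b, hb'⟩).2 i)
    · have ha' : ∀ k, x k ≠ a := fun k hk => ha ⟨k, hk⟩
      by_cases hb : ∃ k, x k = b
      · obtain ⟨k, rfl⟩ := hb
        rw [φx, φo a ha'] at hab
        exact absurd hab.symm ((f ⟨a, ha'⟩).2 k)
      · have hb' : ∀ k, x k ≠ b := fun k hk => hb ⟨k, hk⟩
        rw [φo a ha', φo b hb'] at hab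
        exact congrArg Subtype.val (hfinj (Subtype.ext hab))
  have φadj : ∀ a b, H.Adj (φ a) (φ b) ↔ G.Adj a b := by
    intro a b
    by_cases ha : ∃ i, x i = a
    · obtain ⟨i, rfl⟩ := ha
      by_cases hb : ∃ k, x k = b
      · obtain ⟨k, rfl⟩ := hb
        rw [φx, φx]
        exact comap_adj hy i k
      · have hb' : ∀ k, x k ≠ b := fun k hk => hb ⟨k, hk⟩
        rw [φx, φo b hb', H.adj_comm, G.adj_comm]
        exact hf ⟨b, hb'⟩ i
    · have ha' : ∀ k, x k ≠ a := fun k hk => ha ⟨k, hk⟩
      by_cases hb : ∃ k, x k = b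
      · obtain ⟨k, rfl⟩ := hb
        rw [φx, φo a ha']
        exact hf ⟨a, ha'⟩ k
      · have hb' : ∀ k, x k ≠ b := fun k hk => hb ⟨k, hk⟩
        by_cases hab : a = b
        · subst hab
          exact ⟨fun h => absurd h (H.loopless.irrefl _), fun h => absurd h (G.loopless.irrefl _)⟩
        · obtain ⟨u', v', _, h1, h2, h3, h4, h5⟩ := step a b hab ha' hb'
          rw [φo a ha', φo b hb', ← hfu ⟨a, ha'⟩ u' h1 h3, ← hfu ⟨b, hb'⟩ v' h2 h4]
          exact h5
  have φbij : Function.Bijective φ := Finite.injective_iff_bijective.1 φinj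
  exact ⟨⟨Equiv.ofBijective φ φbij, fun {a b} => φadj a b⟩⟩

end Pool.Agent.X322.Har
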