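import Pool.Agent.X322.Har1
import Pool.Agent.X322.Har3
import Pool.Agent.X322.Har5

set_option autoImplicit false

/-! Types, multiplicities, counts. -/

namespace Pool.Agent.X322.Har

open Finset

def isoSetoid (m : ℕ) : Setoid (SimpleGraph (Fin m)) where
  r F F' := Nonempty (F ≃g F')
  iseqv := ⟨fun _ => ⟨SimpleGraph.Iso.refl⟩, fun ⟨e⟩ => ⟨e.symm⟩, fun ⟨e⟩ ⟨f⟩ => ⟨e.trans f⟩⟩

noncomputable def rep {m : ℕ} (F : SimpleGraph (Fin m)) : SimpleGraph (Fin m) :=
  Quotient.out (Quotient.mk (isoSetoid m) F)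

theorem rep_iso {m : ℕ} (F : SimpleGraph (Fin m)) : Nonempty (rep F ≃g F) :=
  Quotient.mk_out (s := isoSetoid m) F

theorem rep_eq {m : ℕ} {F F' : SimpleGraph (Fin m)} (h : Nonempty (F ≃g F')) : rep F = rep F' := by
  unfold rep
  rw [Quotient.sound (s := isoSetoid m) h]

theorem iso_of_rep_eq {m : ℕ} {F F' : SimpleGraph (Fin m)} (h : rep F = rep F') :
    Nonempty (F ≃g F') := by
  obtain ⟨e⟩ := rep_iso F
  obtain ⟨f⟩ := rep_iso F'
  rw [h] at e
  exact ⟨e.symm.trans f⟩

open Classical in
/-- the graph induced on `B`, as a graph on `Fin m` -/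
noncomputable def FB {n : ℕ} (G : SimpleGraph (Fin n)) (m : ℕ) (B : Finset (Fin n)) :
    SimpleGraph (Fin m) :=
  if h : B.card = m then G.comap (emb B h) else ⊥

theorem FB_eq {n : ℕ} (G : SimpleGraph (Fin n)) {m : ℕ} {B : Finset (Fin n)} (h : B.card = m) :
    FB G m B = G.comap (emb B h) := by
  unfold FB
  rw [dif_pos h]

theorem inBlock_FB (P : GraphProperty) {n : ℕ} (G : SimpleGraph (Fin n)) (B : Finset (Fin n))
    (m : ℕ) (h : B.card = m) : InBlock P G B ↔ P.mem m (FB G m B) := by
  rw [inBlock_iff P G B m h, FB_eq G h]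
  rfl

theorem map_emb {n m : ℕ} (B : Finset (Fin n)) (h : B.card = m) :
    (univ : Finset (Fin m)).map (emb B h) = B := by
  ext v
  rw [mem_map]
  have h1 := Finset.range_orderEmbOfFin B h
  constructor
  · rintro ⟨i, _, rfl⟩
    exact Finset.orderEmbOfFin_mem B h i
  · intro hv
    have : v ∈ Set.range (B.orderEmbOfFin h) := by rw [h1]; exact hv
    obtain ⟨i, hi⟩ := this
    exact ⟨i, mem_univ _, hi⟩

open Classical in
theorem mult_le {n m : ℕ} (hm : 1 ≤ m) (J : ℕ) (G : SimpleGraph (Fin n)) (hG : Typ2 m J G)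
    (F : SimpleGraph (Fin m)) :
    (univ.filter fun B : Finset (Fin n) => B.card = m ∧ rep (FB G m B) = F).card
      ≤ (m * n) ^ J := by
  set A := univ.filter fun B : Finset (Fin n) => B.card = m ∧ rep (FB G m B) = F with hA
  rcases A.eq_empty_or_nonempty with h | ⟨B0, hB0⟩
  · rw [h, card_empty]; exact Nat.zero_le _
  obtain ⟨hc0, hr0⟩ := (mem_filter.1 hB0).2
  have hy : ∀ B : Finset (Fin n), ∃ y : Fin m ↪ Fin n, B ∈ A →
      G.comap (emb B0 hc0) = G.comap y ∧ univ.map y = B := by
    intro B
    by_cases hB : B ∈ A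
    · obtain ⟨hc, hr⟩ := (mem_filter.1 hB).2
      obtain ⟨ψ⟩ := iso_of_rep_eq (hr0.trans hr.symm)
      rw [FB_eq G hc0, FB_eq G hc] at ψ
      refine ⟨ψ.toEquiv.toEmbedding.trans (emb B hc), fun _ => ⟨?_, ?_⟩⟩
      · ext i k
        have := ψ.map_adj_iff (v := i) (w := k)
        simp only [SimpleGraph.comap_adj, Function.Embedding.trans_apply,
          Equiv.coe_toEmbedding] at this ⊢
        exact this.symm
      · rw [← Finset.map_map, Finset.map_univ_equiv, map_emb]
    · exact ⟨emb B0 hc0, fun h => absurd h hB⟩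
  choose y hy using hy
  have h1 : A.card ≤ (univ.filter fun y : Fin m ↪ Fin n => (moved (emb B0 hc0) y).card ≤ J).card := by
    refine Finset.card_le_card_of_injOn y ?_ ?_
    · intro B hB
      rw [mem_coe, mem_filter]
      exact ⟨mem_univ _, (hG B0 hc0 (y B) (hy B (mem_coe.1 hB)).1).le⟩
    · intro B hB C hC hBC
      rw [← (hy B (mem_coe.1 hB)).2, ← (hy C (mem_coe.1 hC)).2, hBC]
  exact h1.trans (count_moved hm _ J)

open Classical in
/-- number of `m`-sets containing a copy of `τ` -/
noncomputable def WW {n k : ℕ} (G : SimpleGraph (Fin n)) (m : ℕ) (τ : SimpleGraph (Fin k)) : ℕ :=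
  (univ.filter fun B : Finset (Fin n) => B.card = m ∧ Nonempty (τ ↪g FB G m B)).card

theorem WW_ge {n k m : ℕ} (G : SimpleGraph (Fin n)) (τ : SimpleGraph (Fin k)) (hkm : k ≤ m)
    (h : Nonempty (τ ↪g G)) : (n - k).choose (m - k) ≤ WW G m τ := by
  classical
  obtain ⟨f⟩ := h
  set C : Finset (Fin n) := univ.map f.toEmbedding with hC
  have hCc : C.card = k := by rw [hC, card_map, card_univ, Fintype.card_fin]
  have h1 : (n - k).choose (m - k) = ((univ \ C).powersetCard (m - k)).card := by
    rw [card_powersetCard, card_sdiff_of_subset (subset_univ _), hCc, card_univ, Fintype.card_fin]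
  rw [h1]
  unfold WW
  refine Finset.card_le_card_of_injOn (fun B' => C ∪ B') ?_ ?_
  · intro B' hB'
    rw [mem_coe, mem_powersetCard] at hB'
    rw [mem_coe, mem_filter]
    have hdis : Disjoint C B' := by
      rw [Finset.disjoint_left]
      intro a ha hb
      exact (mem_sdiff.1 (hB'.1 hb)).2 ha
    have hcard : (C ∪ B').card = m := by
      rw [card_union_of_disjoint hdis, hCc, hB'.2]; omega
    refine ⟨mem_univ _, hcard, ?_⟩
    rw [FB_eq G hcard]
    have hg : ∀ i : Fin k, ∃ j : Fin m, emb (C ∪ B') hcard j = f i := by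
      intro i
      have : f i ∈ (univ : Finset (Fin m)).map (emb (C ∪ B') hcard) := by
        rw [map_emb, mem_union]
        left
        rw [hC, mem_map]
        exact ⟨i, mem_univ _, rfl⟩
      rw [mem_map] at this
      obtain ⟨j, _, hj⟩ := this
      exact ⟨j, hj⟩
    choose g hg using hg
    refine ⟨⟨⟨g, ?_⟩, ?_⟩⟩
    · intro a b hab
      apply f.injective
      rw [← hg a, ← hg b, hab]
    · intro a b
      change G.Adj (emb (C ∪ B') hcard (g a)) (emb (C ∪ B') hcard (g b)) ↔ τ.Adj a b
      rw [hg a, hg b]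
      exact f.map_adj_iff
  · intro B hB B' hB' h
    rw [mem_coe, mem_powersetCard] at hB hB'
    simp only at h
    ext v
    constructor
    · intro hv
      have : v ∈ C ∪ B' := by rw [← h]; exact mem_union_right _ hv
      rcases mem_union.1 this with hc | hc
      · exact absurd hc (mem_sdiff.1 (hB.1 hv)).2
      · exact hc
    · intro hv
      have : v ∈ C ∪ B := by rw [h]; exact mem_union_right _ hv
      rcases mem_union.1 this with hc | hc
      · exact absurd hc (mem_sdiff.1 (hB'.1 hv)).2
      · exact hc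

/-- size of the cores -/
def kk (m : ℕ) : ℕ := Nat.sqrt (m / 100)

abbrev KT (m : ℕ) := SimpleGraph (Fin (kk m + 2))
abbrev DD (m : ℕ) := Fin (100 * m) → Fin 5
abbrev Lab (m : ℕ) := KT m × DD m

theorem kk_le (m : ℕ) : kk m ≤ m := by
  unfold kk
  exact (Nat.sqrt_le_self _).trans (Nat.div_le_self _ _)

/-- level at least `l` -/
def Deep {L : ℕ} (l : ℕ) (d : Fin L → Fin 5) : Prop := ∀ i : Fin L, i.val < l → (d i).val < 2

open Classical in
noncomputable def AA {n m : ℕ} (lam : SimpleGraph (Fin m) → Lab m) (G : SimpleGraph (Fin n))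
    (τ : KT m) (l : ℕ) : ℕ :=
  (univ.filter fun B : Finset (Fin n) => (B.card = m ∧ Nonempty (τ ↪g FB G m B)) ∧
    ((lam (rep (FB G m B))).1 = τ ∧ Deep l (lam (rep (FB G m B))).2)).card

open Classical in
theorem card_deep (L l : ℕ) (hl : l ≤ L) :
    ((univ.filter fun d : Fin L → Fin 5 => Deep l d).card : ℝ) = (2 / 5) ^ l * 5 ^ L := by
  have h1 : (univ.filter fun d : Fin L → Fin 5 => Deep l d)
      = Fintype.piFinset (fun i : Fin L => if i.val < l then ({0, 1} : Finset (Fin 5)) else univ) := by
    ext d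
    simp only [mem_filter, mem_univ, true_and, Fintype.mem_piFinset]
    constructor
    · intro h i
      split_ifs with hi
      · have := h i hi
        have hd : d i = 0 ∨ d i = 1 := by
          have h2 : (d i).val = 0 ∨ (d i).val = 1 := by omega
          rcases h2 with h2 | h2
          · left; exact Fin.ext h2
          · right; exact Fin.ext h2
        simpa using hd
      · exact mem_univ _
    · intro h i hi
      have := h i
      rw [if_pos hi] at this
      simp only [mem_insert, mem_singleton] at this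
      rcases this with h2 | h2 <;> rw [h2] <;> decide
  rw [h1, Fintype.card_piFinset]
  push_cast
  have h2 : ∀ i : Fin L, ((if i.val < l then ({0, 1} : Finset (Fin 5)) else univ).card : ℝ)
      = (if i.val < l then (2 / 5 : ℝ) else 1) * 5 := by
    intro i
    split_ifs
    · rw [Finset.card_pair (by decide)]; norm_num
    · rw [card_univ, Fintype.card_fin]; norm_num
  rw [Finset.prod_congr rfl fun i _ => h2 i, Finset.prod_mul_distrib, Finset.prod_const, card_univ,
    Fintype.card_fin, Finset.prod_ite, Finset.prod_const_one, mul_one, Finset.prod_const]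
  have h3 : (univ.filter fun i : Fin L => i.val < l).card = l := by
    have : (univ.filter fun i : Fin L => i.val < l) = (univ : Finset (Fin l)).map
        (Fin.castLEEmb hl) := by
      ext i
      simp only [mem_filter, mem_univ, true_and, mem_map]
      constructor
      · intro hi
        exact ⟨⟨i.val, hi⟩, Fin.ext rfl⟩
      · rintro ⟨j, rfl⟩
        exact j.isLt
    rw [this, card_map, card_univ, Fintype.card_fin]
  rw [h3]

/-- scales -/
noncomputable def MM (m J : ℕ) : ℝ := ((100 * m * m : ℕ) : ℝ) ^ J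
noncomputable def S0 (m J : ℕ) : ℝ := 400 * MM m J * (100000 * (m : ℝ) ^ 2)
noncomputable def pp (m l : ℕ) : ℝ := (2 / 5) ^ l / Fintype.card (KT m)

def GoodLab (J m : ℕ) (lam : SimpleGraph (Fin m) → Lab m) : Prop :=
  ∀ n, n ≤ 100 * m → ∀ G : SimpleGraph (Fin n), Typ2 m J G → ∀ (τ : KT m) (l : ℕ), l ≤ 100 * m →
    S0 m J ≤ pp m l * WW G m τ → |(AA lam G τ l : ℝ) - pp m l * WW G m τ| < pp m l * WW G m τ / 10

theorem pp_pos (m l : ℕ) : 0 < pp m l := by
  unfold pp
  have : 0 < Fintype.card (KT m) := Fintype.card_pos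
  positivity

open Classical in
theorem lab_fail (J m : ℕ) (hm : 1 ≤ m) (n : ℕ) (hn : n ≤ 100 * m) (G : SimpleGraph (Fin n))
    (hG : Typ2 m J G) (τ : KT m) (l : ℕ) (hl : l ≤ 100 * m) (hS : S0 m J ≤ pp m l * WW G m τ) :
    ∃ T : Finset (SimpleGraph (Fin m) → Lab m),
      (∀ lam, lam ∉ T → |(AA lam G τ l : ℝ) - pp m l * WW G m τ| < pp m l * WW G m τ / 10) ∧
      (T.card : ℝ) ≤ 2 * (Fintype.card (SimpleGraph (Fin m) → Lab m) *
        Real.exp (-(100000 * (m : ℝ) ^ 2))) := by
  set S : Finset (Lab m) := univ.filter fun ω => ω.1 = τ ∧ Deep l ω.2 with hSdef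
  set c : SimpleGraph (Fin m) → ℝ := fun F =>
    ((univ.filter fun B : Finset (Fin n) => (B.card = m ∧ Nonempty (τ ↪g FB G m B)) ∧
      rep (FB G m B) = F).card : ℝ) with hc
  have hMMpos : 0 < MM m J := by
    unfold MM
    have : 0 < 100 * m * m := by positivity
    positivity
  have hc0 : ∀ F, 0 ≤ c F := fun F => Nat.cast_nonneg _
  have hcM : ∀ F, c F ≤ MM m J := by
    intro F
    have h1 := mult_le hm J G hG F
    have h2 : (univ.filter fun B : Finset (Fin n) => (B.card = m ∧ Nonempty (τ ↪g FB G m B)) ∧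
      rep (FB G m B) = F).card ≤ (univ.filter fun B : Finset (Fin n) => B.card = m ∧
        rep (FB G m B) = F).card := by
      apply Finset.card_le_card
      intro B hB
      have := (mem_filter.1 hB).2
      exact mem_filter.2 ⟨mem_univ _, this.1.1, this.2⟩
    have h3 : (m * n) ^ J ≤ (100 * m * m) ^ J := by
      apply Nat.pow_le_pow_left
      calc m * n ≤ m * (100 * m) := Nat.mul_le_mul_left _ hn
        _ = _ := by ring
    have h4 := h2.trans (h1.trans h3)
    simp only [hc]
    unfold MM
    exact_mod_cast h4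
  have hsum : ∑ F, c F = WW G m τ := by
    simp only [hc]
    unfold WW
    rw [← Nat.cast_sum]
    congr 1
    rw [Finset.card_eq_sum_card_fiberwise (f := fun B => rep (FB G m B))
      (t := (univ : Finset (SimpleGraph (Fin m)))) (fun _ _ => by simp)]
    apply Finset.sum_congr rfl
    intro F _
    rw [Finset.filter_filter]
  have hsumS : ∀ lam : SimpleGraph (Fin m) → Lab m,
      ∑ F, (if lam F ∈ S then c F else 0) = (AA lam G τ l : ℝ) := by
    intro lam
    unfold AA
    rw [Finset.card_eq_sum_card_fiberwise (f := fun B => rep (FB G m B))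
      (t := (univ : Finset (SimpleGraph (Fin m)))) (fun _ _ => by simp), Nat.cast_sum]
    apply Finset.sum_congr rfl
    intro F _
    rw [Finset.filter_filter]
    by_cases hF : lam F ∈ S
    · rw [if_pos hF]
      simp only [hc]
      congr 2
      apply Finset.filter_congr
      intro B _
      have hF' := (mem_filter.1 hF).2
      constructor
      · rintro ⟨h1, h2⟩
        refine ⟨⟨h1, ?_⟩, h2⟩
        rw [h2]
        exact hF'
      · rintro ⟨⟨h1, _⟩, h2⟩
        exact ⟨h1, h2⟩
    · rw [if_neg hF]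
      symm
      rw [Nat.cast_eq_zero, Finset.card_eq_zero, Finset.filter_eq_empty_iff]
      rintro B _ ⟨⟨_, h3⟩, h2⟩
      rw [h2] at h3
      exact hF (mem_filter.2 ⟨mem_univ _, h3⟩)
  have hScard : (S.card : ℝ) = pp m l * Fintype.card (Lab m) := by
    have h1 : S = ({τ} : Finset (KT m)) ×ˢ (univ.filter fun d : DD m => Deep l d) := by
      ext ⟨a, d⟩
      rw [hSdef, mem_filter, mem_product, mem_singleton, mem_filter]
      simp only [mem_univ, true_and]
    rw [h1, card_product, card_singleton, one_mul, card_deep _ l hl, Fintype.card_prod]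
    unfold pp
    have hK : (Fintype.card (KT m) : ℝ) ≠ 0 := by
      have : 0 < Fintype.card (KT m) := Fintype.card_pos
      exact_mod_cast this.ne'
    rw [Fintype.card_fun, Fintype.card_fin, Fintype.card_fin]
    push_cast
    field_simp
  have hch := chernoff S c (MM m J) (pp m l) hMMpos hc0 hcM (pp_pos m l).le hScard
  rw [hsum] at hch
  refine ⟨univ.filter fun f : SimpleGraph (Fin m) → Lab m =>
      ¬ |∑ i, (if f i ∈ S then c i else 0) - pp m l * WW G m τ| < pp m l * WW G m τ / 10, ?_, ?_⟩
  · intro lam hlam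
    rw [mem_filter, not_and, not_not] at hlam
    have := hlam (mem_univ _)
    rwa [hsumS] at this
  · refine hch.trans ?_
    rw [Fintype.card_fun]
    push_cast
    apply mul_le_mul_of_nonneg_left _ (by norm_num)
    apply mul_le_mul_of_nonneg_left _ (by positivity)
    apply Real.exp_le_exp.2
    apply neg_le_neg
    rw [le_div_iff₀ (by positivity)]
    unfold S0 at hS
    linarith

end Pool.Agent.X322.Har
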