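import Pool.Agent.X322.Har7

set_option autoImplicit false

/-! Existence of good labellings. -/

namespace Pool.Agent.X322.Har

open Finset

theorem choose_two_le (N : ℕ) : N.choose 2 ≤ N * N / 2 := by
  rw [Nat.choose_two_right]
  exact Nat.div_le_div_right (Nat.mul_le_mul_left _ (Nat.sub_le _ _))

theorem tuples_bound (m : ℕ) (hm : 1 ≤ m) :
    2 * ((100 * m + 1) * (2 ^ (100 * m).choose 2 * (2 ^ (kk m + 2).choose 2 * (100 * m + 1))))
      ≤ 2 ^ (5210 * m ^ 2) := by
  have h1 : 100 * m + 1 ≤ 2 ^ (100 * m) := Nat.lt_two_pow_self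
  have h2 : (100 * m).choose 2 ≤ 5000 * m ^ 2 := by
    refine (choose_two_le _).trans ?_
    apply Nat.div_le_of_le_mul
    nlinarith
  have h3 : (kk m + 2).choose 2 ≤ 9 * m ^ 2 := by
    refine (choose_two_le _).trans ?_
    apply Nat.div_le_of_le_mul
    have := kk_le m
    have h4 : kk m + 2 ≤ 3 * m := by omega
    calc (kk m + 2) * (kk m + 2) ≤ (3 * m) * (3 * m) := Nat.mul_le_mul h4 h4
      _ = 9 * m ^ 2 := by ring
      _ ≤ 2 * (9 * m ^ 2) := by omega
  have hmm : m ≤ m ^ 2 := by nlinarith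
  calc 2 * ((100 * m + 1) * (2 ^ (100 * m).choose 2 * (2 ^ (kk m + 2).choose 2 * (100 * m + 1))))
      ≤ 2 ^ 1 * (2 ^ (100 * m) * (2 ^ (5000 * m ^ 2) * (2 ^ (9 * m ^ 2) * 2 ^ (100 * m)))) := by
        rw [pow_one]
        gcongr <;> norm_num
    _ = 2 ^ (1 + (100 * m + (5000 * m ^ 2 + (9 * m ^ 2 + 100 * m)))) := by
        rw [← pow_add, ← pow_add, ← pow_add, ← pow_add]
    _ ≤ 2 ^ (5210 * m ^ 2) := by
        apply Nat.pow_le_pow_right (by norm_num)
        nlinarith

open Classical in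
theorem exists_goodLab (J m : ℕ) (hm : 1 ≤ m) : ∃ lam : SimpleGraph (Fin m) → Lab m,
    GoodLab J m lam := by
  by_contra hcon
  push Not at hcon
  set N : ℝ := (Fintype.card (SimpleGraph (Fin m) → Lab m) : ℝ) with hN
  have hNpos : 0 < N := by
    rw [hN]
    have : 0 < Fintype.card (SimpleGraph (Fin m) → Lab m) := Fintype.card_pos
    exact_mod_cast this
  set e : ℝ := Real.exp (-(100000 * (m : ℝ) ^ 2)) with he
  -- tuples
  let TT := (Σ n : Fin (100 * m + 1), SimpleGraph (Fin n.val) × (KT m × Fin (100 * m + 1)))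
  have hT : ∀ t : TT, ∃ T : Finset (SimpleGraph (Fin m) → Lab m),
      (∀ lam, lam ∉ T → (Typ2 m J t.2.1 → S0 m J ≤ pp m t.2.2.2.val * WW t.2.1 m t.2.2.1 →
        |(AA lam t.2.1 t.2.2.1 t.2.2.2.val : ℝ) - pp m t.2.2.2.val * WW t.2.1 m t.2.2.1|
          < pp m t.2.2.2.val * WW t.2.1 m t.2.2.1 / 10)) ∧
      (T.card : ℝ) ≤ 2 * (N * e) := by
    intro t
    by_cases h : Typ2 m J t.2.1 ∧ S0 m J ≤ pp m t.2.2.2.val * WW t.2.1 m t.2.2.1
    · obtain ⟨T, h1, h2⟩ := lab_fail J m hm t.1.val (by have := t.1.isLt; omega) t.2.1 h.1 t.2.2.1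
        t.2.2.2.val (by have := t.2.2.2.isLt; omega) h.2
      exact ⟨T, fun lam hlam _ _ => h1 lam hlam, h2⟩
    · refine ⟨∅, fun lam _ h1 h2 => absurd ⟨h1, h2⟩ h, ?_⟩
      rw [card_empty, Nat.cast_zero]
      positivity
  choose T hT1 hT2 using hT
  have hcov : (univ : Finset (SimpleGraph (Fin m) → Lab m)) ⊆ (univ : Finset TT).biUnion T := by
    intro lam _
    rw [mem_biUnion]
    by_contra hno
    push Not at hno
    apply hcon lam
    intro n hn G hG τ l hl hS
    exact hT1 ⟨⟨n, by omega⟩, (G, (τ, ⟨l, by omega⟩))⟩ lam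
      (hno ⟨⟨n, by omega⟩, (G, (τ, ⟨l, by omega⟩))⟩ (mem_univ _)) hG hS
  have h1 := (Finset.card_le_card hcov).trans Finset.card_biUnion_le
  rw [card_univ] at h1
  have h2 : N ≤ ∑ t : TT, ((T t).card : ℝ) := by
    rw [hN, ← Nat.cast_sum]
    exact Nat.cast_le.2 h1
  have h3 : N ≤ Fintype.card TT * (2 * (N * e)) := by
    refine h2.trans ((Finset.sum_le_sum fun t _ => hT2 t).trans (le_of_eq ?_))
    rw [Finset.sum_const, card_univ, nsmul_eq_mul]
  have hcard : Fintype.card TT ≤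
      (100 * m + 1) * (2 ^ (100 * m).choose 2 * (2 ^ (kk m + 2).choose 2 * (100 * m + 1))) := by
    rw [Fintype.card_sigma]
    have : ∀ n : Fin (100 * m + 1),
        Fintype.card (SimpleGraph (Fin n.val) × (KT m × Fin (100 * m + 1)))
          ≤ 2 ^ (100 * m).choose 2 * (2 ^ (kk m + 2).choose 2 * (100 * m + 1)) := by
      intro n
      rw [Fintype.card_prod, Fintype.card_prod, Fintype.card_fin]
      have e1 : Fintype.card (SimpleGraph (Fin n.val)) = 2 ^ n.val.choose 2 := by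
        rw [← card_graphs]
      have e2 : Fintype.card (KT m) = 2 ^ (kk m + 2).choose 2 := by
        rw [← card_graphs]
      rw [e1, e2]
      apply Nat.mul_le_mul_right
      apply Nat.pow_le_pow_right (by norm_num)
      apply Nat.choose_le_choose
      have := n.isLt
      omega
    refine (Finset.sum_le_sum fun n _ => this n).trans (le_of_eq ?_)
    rw [Finset.sum_const, card_univ, Fintype.card_fin, smul_eq_mul]
  have h4 : (2 : ℝ) * Fintype.card TT ≤ 2 ^ (5210 * m ^ 2) := by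
    have := (Nat.mul_le_mul_left 2 hcard).trans (tuples_bound m hm)
    exact_mod_cast this
  have h5 : (2 : ℝ) ^ (5210 * m ^ 2) ≤ Real.exp (5210 * (m : ℝ) ^ 2) := by
    have h2e : (2 : ℝ) ≤ Real.exp 1 := by
      have := Real.add_one_le_exp (1 : ℝ)
      linarith
    calc (2 : ℝ) ^ (5210 * m ^ 2) ≤ (Real.exp 1) ^ (5210 * m ^ 2) :=
          pow_le_pow_left₀ (by norm_num) h2e _
      _ = Real.exp (5210 * (m : ℝ) ^ 2) := by
          rw [← Real.exp_nat_mul]
          push_cast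
          congr 1
          ring
  have h6 : N ≤ N * ((2 * Fintype.card TT) * e) := by
    calc N ≤ Fintype.card TT * (2 * (N * e)) := h3
      _ = _ := by ring
  have h7 : 1 ≤ (2 * (Fintype.card TT : ℝ)) * e := by
    by_contra hlt
    push Not at hlt
    have := mul_lt_mul_of_pos_left hlt hNpos
    linarith
  have h8 : (2 * (Fintype.card TT : ℝ)) * e ≤ Real.exp (5210 * (m : ℝ) ^ 2) * e :=
    mul_le_mul_of_nonneg_right (h4.trans h5) (Real.exp_pos _).le
  have h9 : Real.exp (5210 * (m : ℝ) ^ 2) * e < 1 := by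
    rw [he, ← Real.exp_add]
    rw [← Real.exp_zero]
    apply Real.exp_lt_exp.2
    have : (1 : ℝ) ≤ m := by exact_mod_cast hm
    nlinarith
  linarith

end Pool.Agent.X322.Har
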