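import Pool.Agent.X322.Har8

set_option autoImplicit false

/-! The graph property and the decoding argument. -/

namespace Pool.Agent.X322.Har

open Finset

theorem Deep.mono {L l l' : ℕ} {d : Fin L → Fin 5} (h : Deep l d) (hl : l' ≤ l) : Deep l' d :=
  fun i hi => h i (by omega)

theorem deep_zero {L : ℕ} (d : Fin L → Fin 5) : Deep 0 d := fun i hi => absurd hi (by omega)

open Classical in
noncomputable def lev {L : ℕ} (d : Fin L → Fin 5) : ℕ := Nat.findGreatest (fun l => Deep l d) L

theorem lev_le {L : ℕ} (d : Fin L → Fin 5) : lev d ≤ L := by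
  classical
  unfold lev
  exact Nat.findGreatest_le _

theorem deep_iff {L l : ℕ} (d : Fin L → Fin 5) (hl : l ≤ L) : Deep l d ↔ l ≤ lev d := by
  classical
  constructor
  · intro h
    unfold lev
    exact Nat.le_findGreatest hl h
  · intro h
    refine Deep.mono ?_ h
    unfold lev
    exact Nat.findGreatest_spec (P := fun l => Deep l d) (Nat.zero_le L) (deep_zero d)

abbrev LamT := ∀ m : ℕ, SimpleGraph (Fin m) → Lab m
abbrev YT := ((m : ℕ) × (KT m × ℕ)) → Bool

def memP (lam : LamT) (Y : YT) (m : ℕ) (F : SimpleGraph (Fin m)) : Prop :=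
  m < 2 ∨ (Nonempty ((lam m (rep F)).1 ↪g F) ∧
    Y ⟨m, ((lam m (rep F)).1, lev (lam m (rep F)).2)⟩ = true)

def PP (lam : LamT) (Y : YT) : GraphProperty where
  mem := memP lam Y
  iso_closed := by
    rintro n G H ⟨e⟩ h
    rcases h with h | ⟨⟨f⟩, h2⟩
    · exact Or.inl h
    · right
      have hr : rep H = rep G := rep_eq ⟨e.symm⟩
      rw [hr]
      exact ⟨⟨e.toEmbedding.comp f⟩, h2⟩

theorem PP_one (lam : LamT) (Y : YT) (F : SimpleGraph (Fin 1)) : (PP lam Y).mem 1 F :=
  Or.inl (by norm_num)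

/-- the sets carrying the label `τ` at the level `l` -/
noncomputable def lt {n : ℕ} (lam : LamT) (G : SimpleGraph (Fin n)) (m : ℕ) (B : Finset (Fin n)) : KT m :=
  (lam m (rep (FB G m B))).1

noncomputable def lv {n : ℕ} (lam : LamT) (G : SimpleGraph (Fin n)) (m : ℕ) (B : Finset (Fin n)) :
    ℕ := lev (lam m (rep (FB G m B))).2

def good {n : ℕ} (lam : LamT) (G : SimpleGraph (Fin n)) (m : ℕ) (B : Finset (Fin n)) : Prop :=
  B.card = m ∧ Nonempty (lt lam G m B ↪g FB G m B)

open Classical in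
noncomputable def ww {n : ℕ} (lam : LamT) (G : SimpleGraph (Fin n)) (m : ℕ) (τ : KT m) (l : ℕ) :
    ℕ := (univ.filter fun B : Finset (Fin n) => (good lam G m B ∧ lt lam G m B = τ) ∧
      lv lam G m B = l).card

open Classical in
noncomputable def c0 {n : ℕ} (lam : LamT) (Y : YT) (G : SimpleGraph (Fin n)) (m : ℕ) (τ : KT m)
    (L : ℕ) : ℕ := (univ.filter fun B : Finset (Fin n) => (good lam G m B ∧
      Y ⟨m, (lt lam G m B, lv lam G m B)⟩ = true) ∧
      ¬ (lt lam G m B = τ ∧ lv lam G m B < L)).card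

theorem cnt_eq {n : ℕ} (lam : LamT) (Y : YT) (G : SimpleGraph (Fin n)) (m : ℕ) (hm : 2 ≤ m)
    (τ : KT m) (L : ℕ) :
    cnt (PP lam Y) G m = c0 lam Y G m τ L +
      ∑ l ∈ range L, (if Y ⟨m, (τ, l)⟩ = true then ww lam G m τ l else 0) := by
  classical
  have h1 : cnt (PP lam Y) G m = (univ.filter fun B : Finset (Fin n) => good lam G m B ∧
      Y ⟨m, (lt lam G m B, lv lam G m B)⟩ = true).card := by
    unfold cnt
    congr 1
    apply Finset.filter_congr
    intro B _
    constructor
    · rintro ⟨h, hP⟩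
      rw [inBlock_FB _ G B m h] at hP
      rcases hP with h' | ⟨h2, h3⟩
      · omega
      · exact ⟨⟨h, h2⟩, h3⟩
    · rintro ⟨⟨h, h2⟩, h3⟩
      refine ⟨h, ?_⟩
      rw [inBlock_FB _ G B m h]
      exact Or.inr ⟨h2, h3⟩
  have hs := Finset.card_filter_add_card_filter_not
    (s := univ.filter fun B : Finset (Fin n) => good lam G m B ∧
      Y ⟨m, (lt lam G m B, lv lam G m B)⟩ = true) (fun B => lt lam G m B = τ ∧ lv lam G m B < L)
  rw [h1, ← hs, filter_filter, filter_filter]
  unfold c0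
  rw [add_comm]
  congr 1
  rw [Finset.card_eq_sum_card_fiberwise (f := fun B => lv lam G m B) (t := range L)]
  · apply Finset.sum_congr rfl
    intro l hl
    rw [filter_filter]
    split_ifs with hY
    · unfold ww
      congr 1
      apply Finset.filter_congr
      intro B _
      constructor
      · rintro ⟨⟨⟨h1, h2⟩, h3, h4⟩, h5⟩
        exact ⟨⟨h1, h3⟩, h5⟩
      · rintro ⟨⟨h1, h3⟩, h5⟩
        refine ⟨⟨⟨h1, ?_⟩, h3, ?_⟩, h5⟩
        · rw [h3, h5]; exact hY
        · rw [h5]; exact mem_range.1 hl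
    · rw [Finset.card_eq_zero, Finset.filter_eq_empty_iff]
      rintro B _ ⟨⟨⟨h1, h2⟩, h3, h4⟩, h5⟩
      rw [h3, h5] at h2
      exact hY h2
  · intro B hB
    rw [mem_coe, mem_filter] at hB
    rw [mem_coe, mem_range]
    exact hB.2.2.2

theorem c0_congr {n : ℕ} (lam : LamT) (Y Y' : YT) (G : SimpleGraph (Fin n)) (m : ℕ)
    (τ : KT m) (L : ℕ)
    (h : ∀ (τ' : KT m) (l : ℕ), (τ' ≠ τ ∨ L ≤ l) → Y ⟨m, (τ', l)⟩ = Y' ⟨m, (τ', l)⟩) :
    c0 lam Y G m τ L = c0 lam Y' G m τ L := by
  classical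
  unfold c0
  congr 1
  apply Finset.filter_congr
  intro B _
  apply and_congr_left
  intro hB
  rw [not_and_or, not_lt] at hB
  rw [h _ _ hB]

theorem ww_zero {n : ℕ} (lam : LamT) (G : SimpleGraph (Fin n)) (m : ℕ) (τ : KT m) (l : ℕ)
    (h : ¬ Nonempty (τ ↪g G)) : ww lam G m τ l = 0 := by
  classical
  unfold ww
  rw [Finset.card_eq_zero, Finset.filter_eq_empty_iff]
  rintro B _ ⟨⟨⟨hc, ⟨f⟩⟩, ht⟩, _⟩
  apply h
  rw [ht, FB_eq G hc] at f
  exact ⟨(SimpleGraph.Embedding.comap (emb B hc) G).comp f⟩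

theorem AA_eq {n : ℕ} (lam : LamT) (G : SimpleGraph (Fin n)) (m : ℕ) (τ : KT m) (l : ℕ)
    (hl : l + 1 ≤ 100 * m) :
    AA (lam m) G τ l = ww lam G m τ l + AA (lam m) G τ (l + 1) := by
  classical
  have hs := Finset.card_filter_add_card_filter_not
    (s := univ.filter fun B : Finset (Fin n) => (B.card = m ∧ Nonempty (τ ↪g FB G m B)) ∧
    ((lam m (rep (FB G m B))).1 = τ ∧ Deep l (lam m (rep (FB G m B))).2))
    (fun B => lv lam G m B = l)
  unfold AA
  rw [← hs, filter_filter, filter_filter]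
  congr 1
  · unfold ww
    congr 1
    apply Finset.filter_congr
    intro B _
    constructor
    · rintro ⟨⟨⟨h1, h2⟩, h3, h4⟩, h5⟩
      refine ⟨⟨⟨h1, ?_⟩, h3⟩, h5⟩
      have : lt lam G m B = τ := h3
      rw [this]
      exact h2
    · rintro ⟨⟨⟨h1, h2⟩, h3⟩, h5⟩
      rw [h3] at h2
      refine ⟨⟨⟨h1, h2⟩, h3, ?_⟩, h5⟩
      rw [deep_iff _ (by omega)]
      exact h5.ge
  · congr 1
    apply Finset.filter_congr
    intro B _
    constructor
    · rintro ⟨⟨⟨h1, h2⟩, h3, h4⟩, h5⟩
      refine ⟨⟨h1, h2⟩, h3, ?_⟩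
      rw [deep_iff _ (by omega)] at h4 ⊢
      unfold lv at h5
      omega
    · rintro ⟨⟨h1, h2⟩, h3, h4⟩
      refine ⟨⟨⟨h1, h2⟩, h3, h4.mono (by omega)⟩, ?_⟩
      rw [deep_iff _ (by omega)] at h4
      unfold lv
      omega

theorem superdec (L : ℕ) : ∀ (w A : ℕ → ℕ) (e e' : ℕ → Bool), (∀ l < L, A l = w l + A (l + 1)) →
    (∀ l < L, 2 * A (l + 1) < A l) →
    ∑ l ∈ range L, (if e l = true then w l else 0) = ∑ l ∈ range L, (if e' l = true then w l else 0) →
    ∀ l < L, e l = e' l := by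
  induction L with
  | zero => intro _ _ _ _ _ _ _ l hl; omega
  | succ L ih =>
    intro w A e e' hA h2 hsum
    have htail : ∀ (f : ℕ → Bool), ∑ l ∈ range L, (if f (l + 1) = true then w (l + 1) else 0)
        ≤ A 1 := by
      intro f
      have : ∀ K, K ≤ L → ∑ l ∈ range K, w (l + 1) + A (K + 1) = A 1 := by
        intro K hK
        induction K with
        | zero => simp
        | succ K ihK =>
          rw [Finset.sum_range_succ]
          have h1 := ihK (by omega)
          have h3 := hA (K + 1) (by omega)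
          omega
      have h3 := this L le_rfl
      calc ∑ l ∈ range L, (if f (l + 1) = true then w (l + 1) else 0)
          ≤ ∑ l ∈ range L, w (l + 1) := by
            apply Finset.sum_le_sum
            intro l _
            split_ifs <;> omega
        _ ≤ A 1 := by omega
    rw [Finset.sum_range_succ', Finset.sum_range_succ'] at hsum
    have hw0 : A 1 < w 0 := by
      have h3 := hA 0 (by omega)
      have h4 := h2 0 (by omega)
      simp only [zero_add] at h3 h4
      omega
    have e1 := htail e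
    have e2 := htail e'
    have h0 : e 0 = e' 0 := by
      by_contra hne
      cases h : e 0 <;> cases h' : e' 0 <;> simp only [h, h'] at hsum hne
      · exact hne trivial
      · simp only [Bool.false_eq_true, if_false, if_true, add_zero] at hsum
        omega
      · simp only [Bool.false_eq_true, if_false, if_true, add_zero] at hsum
        omega
      · exact hne trivial
    rw [h0] at hsum
    have hsum' := Nat.add_right_cancel hsum
    have := ih (fun l => w (l + 1)) (fun l => A (l + 1)) (fun l => e (l + 1)) (fun l => e' (l + 1))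
      (fun l hl => hA (l + 1) (by omega)) (fun l hl => h2 (l + 1) (by omega)) hsum'
    intro l hl
    rcases l with _ | l
    · exact h0
    · exact this l (by omega)

/-- the decoding lemma -/
theorem decode {n : ℕ} (lam : LamT) (G H : SimpleGraph (Fin n)) (core : ∀ m, KT m) (Lv : ℕ → ℕ)
    (hLv : ∀ m, 0 < Lv m → 2 ≤ m ∧ m ≤ n ∧ Lv m ≤ 100 * m ∧ ¬ Nonempty (core m ↪g H) ∧
      ∀ l < Lv m, 2 * AA (lam m) G (core m) (l + 1) < AA (lam m) G (core m) l)
    (Y Y' : YT) (hY : ∀ i, har (PP lam Y) G i = har (PP lam Y) H i)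
    (hY' : ∀ i, har (PP lam Y') G i = har (PP lam Y') H i)
    (hoff : ∀ m (τ : KT m) l, (τ ≠ core m ∨ Lv m ≤ l) → Y ⟨m, (τ, l)⟩ = Y' ⟨m, (τ, l)⟩) :
    ∀ m (τ : KT m) l, Y ⟨m, (τ, l)⟩ = Y' ⟨m, (τ, l)⟩ := by
  intro m
  induction m using Nat.strong_induction_on with
  | _ m ih =>
    rcases Nat.eq_zero_or_pos (Lv m) with h0 | hpos
    · intro τ l
      exact hoff m τ l (Or.inr (by omega))
    · obtain ⟨hm2, hmn, hL, hH, hA⟩ := hLv m hpos
      have hPQ : ∀ j < m, ∀ F : SimpleGraph (Fin j),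
          (PP lam Y).mem j F ↔ (PP lam Y').mem j F := by
        intro j hj F
        change memP lam Y j F ↔ memP lam Y' j F
        unfold memP
        rw [ih j hj]
      have t1 := tri (PP lam Y) (PP lam Y') (PP_one lam Y) (PP_one lam Y') G m hm2 hmn hPQ
      have t2 := tri (PP lam Y) (PP lam Y') (PP_one lam Y) (PP_one lam Y') H m hm2 hmn hPQ
      rw [hY, hY'] at t1
      have hoffm : ∀ (τ' : KT m) (l : ℕ), (τ' ≠ core m ∨ Lv m ≤ l) →
          Y ⟨m, (τ', l)⟩ = Y' ⟨m, (τ', l)⟩ := fun τ' l h => hoff m τ' l h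
      have hH' : cnt (PP lam Y) H m = cnt (PP lam Y') H m := by
        rw [cnt_eq lam Y H m hm2 (core m) (Lv m), cnt_eq lam Y' H m hm2 (core m) (Lv m),
          c0_congr lam Y Y' H m (core m) (Lv m) hoffm]
        congr 1
        apply Finset.sum_congr rfl
        intro l _
        rw [ww_zero lam H m (core m) l hH]
        simp
      have hG' : cnt (PP lam Y) G m = cnt (PP lam Y') G m := by omega
      rw [cnt_eq lam Y G m hm2 (core m) (Lv m), cnt_eq lam Y' G m hm2 (core m) (Lv m),
          c0_congr lam Y Y' G m (core m) (Lv m) hoffm] at hG'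
      have hG'' := Nat.add_left_cancel hG'
      have hdec := superdec (Lv m) (fun l => ww lam G m (core m) l)
        (fun l => AA (lam m) G (core m) l) (fun l => Y ⟨m, (core m, l)⟩)
        (fun l => Y' ⟨m, (core m, l)⟩)
        (fun l hl => AA_eq lam G m (core m) l (by omega)) hA hG''
      intro τ l
      by_cases hτ : τ = core m
      · rw [hτ]
        by_cases hl : l < Lv m
        · exact hdec l hl
        · exact hoffm _ _ (Or.inr (by omega))
      · exact hoffm _ _ (Or.inl hτ)

end Pool.Agent.X322.Har
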