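import Mathlib

open Matrix Finset
open scoped BigOperators

namespace Pool.Agent.X322.Iso

/-- Floquet matrix with diagonal `v`, corner entries `z'` at `(0,q-1)` and `z` at `(q-1,0)`. -/
def flo {R : Type*} [CommRing R] (q : ℕ) (v : Fin q → R) (z z' : R) :
    Matrix (Fin q) (Fin q) R :=
  Matrix.of fun i j => (if i = j then v i else 0) + (if j.val = i.val + 1 then 1 else 0)
    + (if i.val = j.val + 1 then 1 else 0)
    + (if i.val = 0 ∧ j.val + 1 = q then z' else 0)
    + (if i.val + 1 = q ∧ j.val = 0 then z else 0)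

variable {R : Type*} [CommRing R]

def gd (q : ℕ) (lam : R) (v : Fin q → R) (z z' : R) : R :=
  (Matrix.diagonal (fun _ => lam) - flo q v z z').det

lemma gd_map {S : Type*} [CommRing S] (φ : R →+* S) (q : ℕ) (lam : R) (v : Fin q → R) (z z' : R) :
    φ (gd q lam v z z') = gd q (φ lam) (fun i => φ (v i)) (φ z) (φ z') := by
  unfold gd
  rw [RingHom.map_det]
  congr 1
  ext i j
  simp only [RingHom.mapMatrix_apply, Matrix.map_apply, Matrix.sub_apply, map_sub, flo,
    Matrix.of_apply, map_add, Matrix.diagonal_apply]
  congr 1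
  · split_ifs <;> simp
  · congr 1
    · congr 1
      · congr 1
        · congr 1
          · split_ifs <;> simp
          · split_ifs <;> simp
        · split_ifs <;> simp
      · split_ifs <;> simp
    · split_ifs <;> simp

/-- transposition -/
lemma gd_transpose (q : ℕ) (lam : R) (v : Fin q → R) (z z' : R) :
    gd q lam v z z' = gd q lam v z' z := by
  unfold gd
  rw [← Matrix.det_transpose]
  congr 1
  ext i j
  simp only [Matrix.transpose_apply, Matrix.sub_apply, flo, Matrix.of_apply, Matrix.diagonal_apply]
  congr 1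
  · by_cases h : i = j
    · subst h; simp
    · have : j ≠ i := fun h' => h h'.symm
      simp [h, this]
  · have h1 : (if j = i then v j else 0) = (if i = j then v i else 0) := by
      by_cases h : i = j
      · subst h; simp
      · have : j ≠ i := fun h' => h h'.symm
        simp [h, this]
    rw [h1]
    have h2 : (if j.val = 0 ∧ i.val + 1 = q then z' else 0) =
        (if i.val + 1 = q ∧ j.val = 0 then z' else 0) := by
      simp only [and_comm]
    have h3 : (if j.val + 1 = q ∧ i.val = 0 then z else 0) =
        (if i.val = 0 ∧ j.val + 1 = q then z else 0) := by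
      simp only [and_comm]
    rw [h2, h3]
    ring

/-- reversal -/
lemma gd_rev (q : ℕ) (lam : R) (v : Fin q → R) (z z' : R) :
    gd q lam (fun i => v (Fin.rev i)) z z' = gd q lam v z' z := by
  unfold gd
  rw [← Matrix.det_submatrix_equiv_self Fin.revPerm (Matrix.diagonal (fun _ => lam) - flo q v z' z)]
  congr 1
  ext i j
  simp only [Matrix.submatrix_apply, Matrix.sub_apply, flo, Matrix.of_apply, Matrix.diagonal_apply,
    Fin.revPerm_apply]
  have h0 : (Fin.rev i = Fin.rev j) ↔ i = j := Fin.rev_inj
  have hi := i.2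
  have hj := j.2
  have e1 : ((Fin.rev j).val = (Fin.rev i).val + 1) ↔ (i.val = j.val + 1) := by
    rw [Fin.val_rev, Fin.val_rev]; omega
  have e2 : ((Fin.rev i).val = (Fin.rev j).val + 1) ↔ (j.val = i.val + 1) := by
    rw [Fin.val_rev, Fin.val_rev]; omega
  have e3 : ((Fin.rev i).val = 0 ∧ (Fin.rev j).val + 1 = q) ↔ (i.val + 1 = q ∧ j.val = 0) := by
    rw [Fin.val_rev, Fin.val_rev]; omega
  have e4 : ((Fin.rev i).val + 1 = q ∧ (Fin.rev j).val = 0) ↔ (i.val = 0 ∧ j.val + 1 = q) := by
    rw [Fin.val_rev, Fin.val_rev]; omega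
  simp only [h0, e1, e2, e3, e4]
  ring

/-- sign change -/
lemma gd_sign (q : ℕ) (hq : 3 ≤ q) (lam : R) (v : Fin q → R) (z z' : R) :
    gd q lam v z z' = (-1) ^ q * gd q (-lam) (fun i => - v i) ((-1) ^ q * z) ((-1) ^ q * z') := by
  unfold gd
  set D : Matrix (Fin q) (Fin q) R := Matrix.diagonal (fun i => (-1) ^ i.val) with hD
  have hDD : D * D = 1 := by
    rw [hD, Matrix.diagonal_mul_diagonal]
    have : (fun i : Fin q => ((-1 : R)) ^ i.val * (-1) ^ i.val) = fun _ => 1 := by
      funext i
      rw [← pow_add, ← two_mul, pow_mul]; simp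
    rw [this, Matrix.diagonal_one]
  have hdet : D.det * D.det = 1 := by rw [← Matrix.det_mul, hDD, Matrix.det_one]
  have key : D * (Matrix.diagonal (fun _ => lam) - flo q v z z') * D =
      -(Matrix.diagonal (fun _ => -lam) -
        flo q (fun i => - v i) ((-1) ^ q * z) ((-1) ^ q * z')) := by
    ext i j
    have hi := i.2
    have hj := j.2
    rw [hD, Matrix.mul_diagonal, Matrix.diagonal_mul, Matrix.neg_apply, Matrix.sub_apply,
      Matrix.sub_apply]
    simp only [flo, Matrix.of_apply, Matrix.diagonal_apply]
    by_cases h1 : i = j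
    · subst h1
      have c1 : ¬ (i.val = i.val + 1) := by omega
      have c2 : ¬ (i.val = 0 ∧ i.val + 1 = q) := by omega
      have c3 : ¬ (i.val + 1 = q ∧ i.val = 0) := by omega
      simp only [if_true, if_neg c1, if_neg c2, if_neg c3, add_zero]
      have e : ((-1 : R)) ^ i.val * (-1) ^ i.val = 1 := by
        rw [← pow_add, ← two_mul, pow_mul]; simp
      linear_combination (lam - v i) * e
    · by_cases h2 : j.val = i.val + 1
      · have c1 : ¬ (i.val = j.val + 1) := by omega
        have c2 : ¬ (i.val = 0 ∧ j.val + 1 = q) := by omega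
        have c3 : ¬ (i.val + 1 = q ∧ j.val = 0) := by omega
        simp only [if_neg h1, if_pos h2, if_neg c1, if_neg c2, if_neg c3, add_zero, zero_add]
        have e : ((-1 : R)) ^ i.val * (-1) ^ i.val = 1 := by
          rw [← pow_add, ← two_mul, pow_mul]; simp
        rw [h2, pow_succ]
        linear_combination e
      · by_cases h3 : i.val = j.val + 1
        · have c2 : ¬ (i.val = 0 ∧ j.val + 1 = q) := by omega
          have c3 : ¬ (i.val + 1 = q ∧ j.val = 0) := by omega
          simp only [if_neg h1, if_neg h2, if_pos h3, if_neg c2, if_neg c3, add_zero, zero_add]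
          have e : ((-1 : R)) ^ j.val * (-1) ^ j.val = 1 := by
            rw [← pow_add, ← two_mul, pow_mul]; simp
          rw [h3, pow_succ]
          linear_combination e
        · by_cases h4 : i.val = 0 ∧ j.val + 1 = q
          · have h5 : ¬ (i.val + 1 = q ∧ j.val = 0) := by omega
            simp only [if_neg h1, if_neg h2, if_neg h3, if_pos h4, if_neg h5, zero_add, add_zero]
            have e : ((-1 : R)) ^ q = (-1) ^ j.val * (-1) := by
              rw [← pow_succ, h4.2]
            rw [h4.1, e]
            ring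
          · by_cases h5 : i.val + 1 = q ∧ j.val = 0
            · simp only [if_neg h1, if_neg h2, if_neg h3, if_neg h4, if_pos h5, zero_add, add_zero]
              have e : ((-1 : R)) ^ q = (-1) ^ i.val * (-1) := by
                rw [← pow_succ, h5.1]
              rw [h5.2, e]
              ring
            · simp only [if_neg h1, if_neg h2, if_neg h3, if_neg h4, if_neg h5, add_zero]
              ring
  have h1 := congrArg Matrix.det key
  rw [Matrix.det_mul, Matrix.det_mul, Matrix.det_neg, Fintype.card_fin] at h1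
  rw [← h1]
  linear_combination (-(Matrix.diagonal (fun _ => lam) - flo q v z z').det) * hdet

/-! ### independence of the Floquet parameter -/

lemma single_row_last (n : ℕ) (Y : Matrix (Fin (n + 1)) (Fin (n + 1)) R)
    (h1 : ∀ i : Fin n, Y i.castSucc i.succ = -1)
    (h2 : ∀ i j : Fin n, i < j → Y i.castSucc j.succ = 0) :
    (Y.updateRow (Fin.last n) (Pi.single 0 1)).det = 1 := by
  rw [Matrix.det_succ_row _ (Fin.last n)]
  rw [Finset.sum_eq_single 0]
  · have h3 : ((Y.updateRow (Fin.last n) (Pi.single 0 1)).submatrix (Fin.last n).succAbove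
        (Fin.succAbove 0)) = Matrix.of fun i j : Fin n => Y i.castSucc j.succ := by
      ext i j
      simp [Matrix.submatrix_apply, Fin.succAbove_last, Matrix.updateRow_apply]
    rw [h3, Matrix.det_of_isLowerTriangular]
    · simp only [Matrix.of_apply, h1, Matrix.updateRow_self, Pi.single_eq_same, Fin.val_last,
        Finset.prod_const, Finset.card_univ, Fintype.card_fin]
      simp only [Fin.val_zero, add_zero, mul_one]
      rw [← mul_pow]; simp
    · intro i j hij
      exact h2 i j hij
  · intro j _ hj
    simp [hj]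
  · simp

lemma single_row_zero (n : ℕ) (Y : Matrix (Fin (n + 1)) (Fin (n + 1)) R)
    (h1 : ∀ i : Fin n, Y i.succ i.castSucc = -1)
    (h2 : ∀ i j : Fin n, j < i → Y i.succ j.castSucc = 0) :
    (Y.updateRow 0 (Pi.single (Fin.last n) 1)).det = 1 := by
  rw [Matrix.det_succ_row _ 0]
  rw [Finset.sum_eq_single (Fin.last n)]
  · have h3 : ((Y.updateRow 0 (Pi.single (Fin.last n) 1)).submatrix (Fin.succAbove 0)
        (Fin.last n).succAbove) = Matrix.of fun i j : Fin n => Y i.succ j.castSucc := by
      ext i j
      simp [Matrix.submatrix_apply, Fin.succAbove_last, Matrix.updateRow_apply]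
    rw [h3, Matrix.det_of_isUpperTriangular]
    · simp only [Matrix.of_apply, h1, Matrix.updateRow_self, Pi.single_eq_same, Fin.val_last,
        Finset.prod_const, Finset.card_univ, Fintype.card_fin]
      simp only [Fin.val_zero, zero_add, mul_one]
      rw [← mul_pow]; simp
    · intro i j hij
      exact h2 i j hij
  · intro j _ hj
    simp [hj]
  · simp

lemma gd_expand (n : ℕ) (hn : 2 ≤ n) (lam : R) (v : Fin (n + 1) → R) :
    ∃ δ : R, ∀ z z' : R, gd (n + 1) lam v z z' = gd (n + 1) lam v 0 0 - z' - z + z * z' * δ := by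
  set Y : Matrix (Fin (n + 1)) (Fin (n + 1)) R :=
    Matrix.diagonal (fun _ => lam) - flo (n + 1) v 0 0 with hY
  have hY1 : ∀ i : Fin n, Y i.castSucc i.succ = -1 := by
    intro i
    have hi := i.2
    rw [hY, Matrix.sub_apply]
    simp only [flo, Matrix.of_apply, Matrix.diagonal_apply]
    have c1 : ¬ (i.castSucc = i.succ) := by
      rw [Fin.ext_iff]; simp
    have c2 : (i.succ.val = i.castSucc.val + 1) := by simp
    have c3 : ¬ (i.castSucc.val = i.succ.val + 1) := by simp; omega
    simp only [if_neg c1, if_pos c2, if_neg c3, ite_self]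
    ring
  have hY2 : ∀ i j : Fin n, i < j → Y i.castSucc j.succ = 0 := by
    intro i j hij
    have hij' : i.val < j.val := hij
    rw [hY, Matrix.sub_apply]
    simp only [flo, Matrix.of_apply, Matrix.diagonal_apply]
    have c1 : ¬ (i.castSucc = j.succ) := by
      rw [Fin.ext_iff]; simp; omega
    have c2 : ¬ (j.succ.val = i.castSucc.val + 1) := by simp; omega
    have c3 : ¬ (i.castSucc.val = j.succ.val + 1) := by simp; omega
    simp only [if_neg c1, if_neg c2, if_neg c3, ite_self]
    ring
  have hY3 : ∀ i : Fin n, Y i.succ i.castSucc = -1 := by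
    intro i
    have hi := i.2
    rw [hY, Matrix.sub_apply]
    simp only [flo, Matrix.of_apply, Matrix.diagonal_apply]
    have c1 : ¬ (i.succ = i.castSucc) := by
      rw [Fin.ext_iff]; simp
    have c2 : (i.succ.val = i.castSucc.val + 1) := by simp
    have c3 : ¬ (i.castSucc.val = i.succ.val + 1) := by simp; omega
    simp only [if_neg c1, if_pos c2, if_neg c3, ite_self]
    ring
  have hY4 : ∀ i j : Fin n, j < i → Y i.succ j.castSucc = 0 := by
    intro i j hij
    have hij' : j.val < i.val := hij
    rw [hY, Matrix.sub_apply]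
    simp only [flo, Matrix.of_apply, Matrix.diagonal_apply]
    have c1 : ¬ (i.succ = j.castSucc) := by
      rw [Fin.ext_iff]; simp; omega
    have c2 : ¬ (i.succ.val = j.castSucc.val + 1) := by simp; omega
    have c3 : ¬ (j.castSucc.val = i.succ.val + 1) := by simp; omega
    simp only [if_neg c1, if_neg c2, if_neg c3, ite_self]
    ring
  have hl0 : (Fin.last n) ≠ (0 : Fin (n + 1)) := by
    rw [Ne, Fin.ext_iff]; simp; omega
  refine ⟨((Y.updateRow (Fin.last n) (Pi.single 0 1)).updateRow 0
    (Pi.single (Fin.last n) 1)).det, fun z z' => ?_⟩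
  have hX : Matrix.diagonal (fun _ => lam) - flo (n + 1) v z z' =
      (Y.updateRow 0 (Y 0 + (-z') • Pi.single (Fin.last n) 1)).updateRow (Fin.last n)
        (Y (Fin.last n) + (-z) • Pi.single 0 1) := by
    ext i j
    have hi := i.2
    have hj := j.2
    by_cases hil : i = Fin.last n
    · subst hil
      rw [Matrix.updateRow_self, hY]
      simp only [Matrix.sub_apply, flo, Matrix.of_apply, Matrix.diagonal_apply, Pi.add_apply,
        Pi.smul_apply, smul_eq_mul]
      have c1 : ¬ ((Fin.last n).val = 0 ∧ j.val + 1 = n + 1) := by simp; omega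
      simp only [if_neg c1, ite_self, add_zero]
      by_cases hj0 : j = 0
      · subst hj0
        have c2 : ((Fin.last n).val + 1 = n + 1 ∧ (0 : Fin (n + 1)).val = 0) := by simp
        rw [if_pos c2, Pi.single_eq_same]
        ring
      · have c2 : ¬ ((Fin.last n).val + 1 = n + 1 ∧ j.val = 0) := by
          intro h; exact hj0 (Fin.ext h.2)
        rw [if_neg c2, Pi.single_eq_of_ne hj0]
        ring
    · rw [Matrix.updateRow_ne hil]
      by_cases hi0 : i = 0
      · subst hi0
        rw [Matrix.updateRow_self, hY]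
        simp only [Matrix.sub_apply, flo, Matrix.of_apply, Matrix.diagonal_apply, Pi.add_apply,
          Pi.smul_apply, smul_eq_mul]
        have c1 : ¬ ((0 : Fin (n + 1)).val + 1 = n + 1 ∧ j.val = 0) := by simp; omega
        simp only [if_neg c1, ite_self, add_zero]
        by_cases hj0 : j = Fin.last n
        · subst hj0
          have c2 : ((0 : Fin (n + 1)).val = 0 ∧ (Fin.last n).val + 1 = n + 1) := by simp
          rw [if_pos c2, Pi.single_eq_same]
          ring
        · have c2 : ¬ ((0 : Fin (n + 1)).val = 0 ∧ j.val + 1 = n + 1) := by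
            intro h; exact hj0 (Fin.ext (by have := h.2; simp; omega))
          rw [if_neg c2, Pi.single_eq_of_ne hj0]
          ring
      · rw [Matrix.updateRow_ne hi0, hY]
        simp only [Matrix.sub_apply, flo, Matrix.of_apply, Matrix.diagonal_apply]
        have c1 : ¬ (i.val = 0 ∧ j.val + 1 = n + 1) := by
          intro h; exact hi0 (Fin.ext h.1)
        have c2 : ¬ (i.val + 1 = n + 1 ∧ j.val = 0) := by
          intro h; exact hil (Fin.ext (by have := h.1; simp; omega))
        simp only [if_neg c1, if_neg c2]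
  have hbase : gd (n + 1) lam v 0 0 = Y.det := rfl
  have hgd : gd (n + 1) lam v z z' = (Matrix.diagonal (fun _ => lam) - flo (n + 1) v z z').det := rfl
  rw [hgd, hX, hbase, Matrix.det_updateRow_add, Matrix.det_updateRow_smul]
  have e1 : (Y.updateRow 0 (Y 0 + (-z') • Pi.single (Fin.last n) 1)).updateRow (Fin.last n)
      (Y (Fin.last n)) = Y.updateRow 0 (Y 0 + (-z') • Pi.single (Fin.last n) 1) := by
    ext i j
    by_cases hil : i = Fin.last n
    · subst hil
      rw [Matrix.updateRow_self, Matrix.updateRow_ne hl0]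
    · rw [Matrix.updateRow_ne hil]
  rw [e1, Matrix.det_updateRow_add, Matrix.det_updateRow_smul, Matrix.updateRow_eq_self,
    single_row_zero n Y hY3 hY4]
  have e2 : (Y.updateRow 0 (Y 0 + (-z') • Pi.single (Fin.last n) 1)).updateRow (Fin.last n)
      (Pi.single 0 1) = (Y.updateRow (Fin.last n) (Pi.single 0 1)).updateRow 0
        (Y 0 + (-z') • Pi.single (Fin.last n) 1) := by
    ext i j
    by_cases hil : i = Fin.last n
    · subst hil
      rw [Matrix.updateRow_self, Matrix.updateRow_ne hl0, Matrix.updateRow_self]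
    · rw [Matrix.updateRow_ne hil]
      by_cases hi0 : i = 0
      · subst hi0
        rw [Matrix.updateRow_self, Matrix.updateRow_self]
      · rw [Matrix.updateRow_ne hi0, Matrix.updateRow_ne hi0, Matrix.updateRow_ne hil]
  rw [e2, Matrix.det_updateRow_add, Matrix.det_updateRow_smul]
  have e3 : (Y.updateRow (Fin.last n) (Pi.single 0 1)).updateRow 0 (Y 0) =
      Y.updateRow (Fin.last n) (Pi.single 0 1) := by
    ext i j
    by_cases hi0 : i = 0
    · subst hi0
      rw [Matrix.updateRow_self, Matrix.updateRow_ne hl0.symm]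
    · rw [Matrix.updateRow_ne hi0]
  rw [e3, single_row_last n Y hY1 hY2]
  ring

lemma gd_indep (q : ℕ) (hq : 3 ≤ q) (lam : R) (v v0 : Fin q → R) {z z' w w' : R}
    (hz : z * z' = 1) (hw : w * w' = 1) :
    gd q lam v z z' - gd q lam v0 z z' = gd q lam v w w' - gd q lam v0 w w' := by
  obtain ⟨n, rfl⟩ : ∃ n, q = n + 1 := ⟨q - 1, by omega⟩
  obtain ⟨δ, h⟩ := gd_expand n (by omega) lam v
  obtain ⟨δ0, h0⟩ := gd_expand n (by omega) lam v0
  rw [h z z', h w w', h0 z z', h0 w w', hz, hw]
  ring

/-- parity of the difference -/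
lemma gd_parity (q : ℕ) (hq : 3 ≤ q) (lam : R) (v : Fin q → R)
    (hv : ∀ j, v (Fin.rev j) = - v j) {z z' : R} (hz : z * z' = 1) :
    gd q lam v z z' - gd q lam 0 z z' =
      (-1) ^ q * (gd q (-lam) v z z' - gd q (-lam) 0 z z') := by
  have h1 := gd_sign q hq lam v z z'
  have h2 := gd_sign q hq lam 0 z z'
  have hv2 : (fun i => - v i) = fun i => v (Fin.rev i) := by
    funext i; rw [hv i]
  have h02 : (fun i : Fin q => - (0 : Fin q → R) i) = 0 := by
    funext i; simp
  rw [hv2, gd_rev] at h1
  rw [h02] at h2
  rw [gd_transpose q (-lam) v] at h1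
  have hz2 : ((-1) ^ q * z) * ((-1) ^ q * z') = 1 := by
    have : ((-1 : R)) ^ q * (-1) ^ q = 1 := by
      rw [← pow_add, ← two_mul, pow_mul]; simp
    linear_combination (z * z') * this + hz
  rw [h1, h2, ← mul_sub]
  congr 1
  exact gd_indep q hq (-lam) v 0 hz2 hz

end Pool.Agent.X322.Iso
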