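import Mathlib

open Finset
open scoped BigOperators

namespace Pool.Agent.X322.Iso

variable {σ : Type*} {k : Type*} [Field k]

open MvPolynomial

/-- all monomials have degree `< n` -/
def Low (n : ℕ) (f : MvPolynomial σ k) : Prop := ∀ c : σ →₀ ℕ, n ≤ c.degree → coeff c f = 0

lemma Low.mono {n n' : ℕ} (h : n ≤ n') {f : MvPolynomial σ k} (hf : Low n f) : Low n' f :=
  fun c hc => hf c (h.trans hc)

lemma Low.zero (n : ℕ) : Low n (0 : MvPolynomial σ k) := fun c _ => by simp

lemma Low.add {n : ℕ} {f g : MvPolynomial σ k} (hf : Low n f) (hg : Low n g) : Low n (f + g) :=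
  fun c hc => by rw [coeff_add, hf c hc, hg c hc, add_zero]

lemma Low.sub {n : ℕ} {f g : MvPolynomial σ k} (hf : Low n f) (hg : Low n g) : Low n (f - g) :=
  fun c hc => by rw [coeff_sub, hf c hc, hg c hc, sub_zero]

lemma Low.neg {n : ℕ} {f : MvPolynomial σ k} (hf : Low n f) : Low n (-f) :=
  fun c hc => by rw [coeff_neg, hf c hc, neg_zero]

lemma Low.sum {ι : Type*} {n : ℕ} (s : Finset ι) (f : ι → MvPolynomial σ k)
    (h : ∀ i ∈ s, Low n (f i)) : Low n (∑ i ∈ s, f i) := fun c hc => by
  rw [coeff_sum]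
  exact Finset.sum_eq_zero fun i hi => h i hi c hc

lemma Low.mul {a b : ℕ} {f g : MvPolynomial σ k} (hf : Low a f) (hg : Low (b + 1) g) :
    Low (a + b) (f * g) := by
  classical
  intro c hc
  rw [coeff_mul]
  refine Finset.sum_eq_zero fun x hx => ?_
  rw [Finset.HasAntidiagonal.mem_antidiagonal] at hx
  have hd : x.1.degree + x.2.degree = c.degree := by rw [← hx, map_add]
  by_cases h : a ≤ x.1.degree
  · rw [hf x.1 h, zero_mul]
  · rw [hg x.2 (by omega), mul_zero]

lemma wdeg (c : σ →₀ ℕ) : c.degree = Finsupp.weight 1 c := by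
  rw [Finsupp.degree_eq_weight_one]; rfl

lemma Low.of_homog {a : ℕ} {F : MvPolynomial σ k} (hF : F.IsHomogeneous a) : Low (a + 1) F := by
  intro c hc
  by_contra h
  have := hF h
  rw [← wdeg] at this
  omega

lemma low_iff_totalDegree {n : ℕ} {f : MvPolynomial σ k} (h : f.totalDegree < n) : Low n f := by
  intro c hc
  apply coeff_eq_zero_of_totalDegree_lt
  have : (∑ i ∈ c.support, c i) = c.degree := rfl
  rw [this]; omega

structure Top (a : ℕ) (f F : MvPolynomial σ k) : Prop where
  hom : F.IsHomogeneous a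
  low : Low a (f - F)

lemma Top.low' {a : ℕ} {f F : MvPolynomial σ k} (h : Top a f F) : Low (a + 1) f := by
  have := (h.low.mono (Nat.le_succ a)).add (Low.of_homog h.hom)
  simpa using this

lemma Top.mul {a b : ℕ} {f F g G : MvPolynomial σ k} (hf : Top a f F) (hg : Top b g G) :
    Top (a + b) (f * g) (F * G) where
  hom := hf.hom.mul hg.hom
  low := by
    have e : f * g - F * G = (f - F) * g + (g - G) * F := by ring
    rw [e]
    refine (hf.low.mul hg.low').add ?_
    rw [add_comm a b]
    exact hg.low.mul (Low.of_homog hf.hom)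

lemma Top.one : Top 0 (1 : MvPolynomial σ k) 1 where
  hom := isHomogeneous_one _ _
  low := by rw [sub_self]; exact Low.zero _

lemma Top.pow {a : ℕ} {f F : MvPolynomial σ k} (hf : Top a f F) (n : ℕ) :
    Top (n * a) (f ^ n) (F ^ n) := by
  induction n with
  | zero => simpa using Top.one
  | succ n ih =>
    rw [pow_succ, pow_succ, Nat.succ_mul]
    exact ih.mul hf

lemma Top.prod {ι : Type*} (s : Finset ι) (a : ι → ℕ) (f F : ι → MvPolynomial σ k)
    (h : ∀ i ∈ s, Top (a i) (f i) (F i)) : Top (∑ i ∈ s, a i) (∏ i ∈ s, f i) (∏ i ∈ s, F i) := by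
  classical
  induction s using Finset.induction_on with
  | empty => simpa using Top.one
  | insert i s hi ih =>
    rw [Finset.sum_insert hi, Finset.prod_insert hi, Finset.prod_insert hi]
    exact (h i (Finset.mem_insert_self i s)).mul
      (ih fun j hj => h j (Finset.mem_insert_of_mem hj))

lemma Top.X (i : σ) : Top 1 (X i : MvPolynomial σ k) (X i) where
  hom := isHomogeneous_X _ _
  low := by rw [sub_self]; exact Low.zero _

variable [Fintype σ]

noncomputable def BB (q : ℕ) (R : σ → MvPolynomial σ k) (α : σ →₀ ℕ) : MvPolynomial σ k :=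
  ∏ i, (X i ^ (α i % q) * R i ^ (α i / q))

lemma BB_top {q : ℕ} {R : σ → MvPolynomial σ k} (hR : ∀ i, Low q (R i - X i ^ q)) (α : σ →₀ ℕ) :
    Top α.degree (BB q R α) (monomial α 1) := by
  have hRt : ∀ i, Top q (R i) (X i ^ q) := fun i => ⟨by simpa using (isHomogeneous_X k i).pow q, hR i⟩
  have h := Top.prod (Finset.univ : Finset σ) (fun i => (α i % q) * 1 + (α i / q) * q)
    (fun i => X i ^ (α i % q) * R i ^ (α i / q))
    (fun i => X i ^ (α i % q) * (X i ^ q) ^ (α i / q))
    (fun i _ => ((Top.X i).pow _).mul ((hRt i).pow _))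
  have e1 : (∑ i, ((α i % q) * 1 + (α i / q) * q)) = α.degree := by
    rw [Finsupp.degree_eq_sum]
    refine Finset.sum_congr rfl fun i _ => ?_
    rw [mul_one]; exact Nat.mod_add_div' _ _
  have e2 : (∏ i, (X i ^ (α i % q) * (X i ^ q) ^ (α i / q)) : MvPolynomial σ k) = monomial α 1 := by
    rw [monomial_eq, C_1, one_mul, Finsupp.prod_fintype _ _ (by simp)]
    refine Finset.prod_congr rfl fun i _ => ?_
    rw [← pow_mul, ← pow_add, Nat.mod_add_div]
  rw [e1, e2] at h
  exact h

noncomputable def TT (q : ℕ) (R : σ → MvPolynomial σ k) : MvPolynomial σ k →ₗ[k] MvPolynomial σ k :=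
  (MvPolynomial.basisMonomials σ k).constr k (BB q R)

lemma TT_monomial (q : ℕ) (R : σ → MvPolynomial σ k) (α : σ →₀ ℕ) :
    TT q R (monomial α 1) = BB q R α := by
  have := (MvPolynomial.basisMonomials σ k).constr_basis k (BB q R) α
  rwa [MvPolynomial.coe_basisMonomials] at this

lemma TT_low {q : ℕ} {R : σ → MvPolynomial σ k} (hR : ∀ i, Low q (R i - X i ^ q))
    {n : ℕ} {f : MvPolynomial σ k} (hf : Low (n + 1) f) : Low n (TT q R f - f) := by
  have e : TT q R f - f = ∑ α ∈ f.support, coeff α f • (BB q R α - monomial α 1) := by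
    conv_lhs => rw [f.as_sum]
    rw [map_sum, ← Finset.sum_sub_distrib]
    refine Finset.sum_congr rfl fun α _ => ?_
    have : (monomial α (coeff α f) : MvPolynomial σ k) = coeff α f • monomial α 1 := by
      rw [smul_monomial, smul_eq_mul, mul_one]
    rw [this, map_smul, TT_monomial, smul_sub]
  rw [e]
  refine Low.sum _ _ fun α hα => ?_
  have h1 := (BB_top hR α).low
  have h2 : α.degree ≤ n := by
    by_contra h
    exact (mem_support_iff.mp hα) (hf α (by omega))
  intro c hc
  rw [coeff_smul, h1 c (h2.trans hc), smul_zero]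

lemma TT_surj {q : ℕ} {R : σ → MvPolynomial σ k} (hR : ∀ i, Low q (R i - X i ^ q)) (n : ℕ) :
    ∀ f : MvPolynomial σ k, Low n f → ∃ g, TT q R g = f := by
  induction n with
  | zero =>
    intro f hf
    refine ⟨0, ?_⟩
    rw [map_zero]
    ext c
    rw [hf c (Nat.zero_le _), coeff_zero]
  | succ n ih =>
    intro f hf
    obtain ⟨g, hg⟩ := ih _ (TT_low hR hf)
    refine ⟨f - g, ?_⟩
    rw [map_sub, hg]; ring

lemma TT_mul [DecidableEq σ] {q : ℕ} (hq : 0 < q) (R : σ → MvPolynomial σ k) (i : σ)
    (g : MvPolynomial σ k) : TT q R (X i ^ q * g) = R i * TT q R g := by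
  induction g using MvPolynomial.induction_on' with
  | monomial α a =>
    have e1 : (X i ^ q * monomial α a : MvPolynomial σ k) =
        a • monomial (Finsupp.single i q + α) 1 := by
      rw [X_pow_eq_monomial, monomial_mul, smul_monomial]
      simp
    have e2 : (monomial α a : MvPolynomial σ k) = a • monomial α 1 := by
      rw [smul_monomial, smul_eq_mul, mul_one]
    rw [e1, e2, map_smul, map_smul, TT_monomial, TT_monomial, mul_smul_comm]
    congr 1
    unfold BB
    rw [← Finset.mul_prod_erase _ _ (Finset.mem_univ i),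
      ← Finset.mul_prod_erase (Finset.univ) (fun i => X i ^ (α i % q) * R i ^ (α i / q))
        (Finset.mem_univ i)]
    have e3 : (Finsupp.single i q + α) i = α i + q := by simp [add_comm]
    rw [e3, Nat.add_mod_right, Nat.add_div_right _ hq, pow_succ]
    have e4 : (∏ x ∈ Finset.univ.erase i, (X x ^ ((Finsupp.single i q + α) x % q) *
        R x ^ ((Finsupp.single i q + α) x / q)) : MvPolynomial σ k) =
        ∏ x ∈ Finset.univ.erase i, (X x ^ (α x % q) * R x ^ (α x / q)) := by
      refine Finset.prod_congr rfl fun x hx => ?_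
      have : (Finsupp.single i q + α) x = α x := by
        have hne := Finset.ne_of_mem_erase hx
        simp [Finsupp.single_apply, hne.symm]
      rw [this]
    rw [e4]
    ring
  | add f g hf hg =>
    rw [mul_add, map_add, map_add, hf, hg, mul_add]

/-- main algebraic lemma -/
theorem normal_form [DecidableEq σ] {q : ℕ} (hq : 0 < q) {R : σ → MvPolynomial σ k}
    (hR : ∀ i, Low q (R i - X i ^ q)) {f : MvPolynomial σ k} {n : ℕ} (hf : f.IsHomogeneous n)
    (hmem : f ∈ Ideal.span (Set.range R)) : ∀ c ∈ f.support, ∃ i, q ≤ c i := by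
  rw [Ideal.mem_span_range_iff_exists_fun] at hmem
  obtain ⟨a, ha⟩ := hmem
  have hs : ∀ i, ∃ b, TT q R b = a i := fun i =>
    TT_surj hR ((a i).totalDegree + 1) (a i) (low_iff_totalDegree (Nat.lt_succ_self _))
  choose b hb using hs
  set g := ∑ i, X i ^ q * b i with hg
  have hTg : TT q R g = f := by
    rw [hg, map_sum, ← ha]
    refine Finset.sum_congr rfl fun i _ => ?_
    rw [TT_mul hq, hb, mul_comm]
  have hgs : ∀ c ∈ g.support, ∃ i, q ≤ c i := by
    intro c hc
    by_contra hcon
    push Not at hcon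
    apply mem_support_iff.mp hc
    rw [hg, coeff_sum]
    refine Finset.sum_eq_zero fun i _ => ?_
    rw [mul_comm, X_pow_eq_monomial, coeff_mul_monomial']
    rw [if_neg]
    intro h
    have := h i
    rw [Finsupp.single_eq_same] at this
    have := hcon i
    omega
  intro c hc
  -- degree of g
  set N := g.totalDegree with hN
  have hlowg : Low (N + 1) g := low_iff_totalDegree (Nat.lt_succ_self _)
  have hdiff := TT_low hR hlowg
  rw [hTg] at hdiff
  by_cases hg0 : g = 0
  · rw [hg0, map_zero] at hTg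
    rw [← hTg] at hc
    simp at hc
  -- a monomial of g of degree N
  obtain ⟨c0, hc0, hc0d⟩ : ∃ c0 ∈ g.support, c0.degree = N := by
    have hne : g.support.Nonempty := support_nonempty.mpr hg0
    obtain ⟨c0, h0, h1⟩ := Finset.exists_mem_eq_sup g.support hne (fun s => s.sum fun _ e => e)
    exact ⟨c0, h0, by rw [hN, totalDegree, h1]; rfl⟩
  have hcoef : coeff c0 f = coeff c0 g := by
    have := hdiff c0 hc0d.ge
    rw [coeff_sub] at this
    exact sub_eq_zero.mp this
  have hNn : N = n := by
    have h1 : coeff c0 f ≠ 0 := by rw [hcoef]; exact mem_support_iff.mp hc0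
    have := hf h1
    rw [← wdeg] at this
    omega
  have hcd : c.degree = n := by
    have := hf (mem_support_iff.mp hc)
    rwa [← wdeg] at this
  apply hgs c
  rw [mem_support_iff]
  have := hdiff c (by omega)
  rw [coeff_sub] at this
  rw [← sub_eq_zero.mp this]
  exact mem_support_iff.mp hc

end Pool.Agent.X322.Iso
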