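import Pool.Agent.X322.Iso1

open Matrix Finset
open scoped BigOperators

namespace Pool.Agent.X322.Iso

lemma prod_mem_cube {A ι : Type*} [CommRing A] [Fintype ι] [DecidableEq ι] (M : Ideal A)
    (f : ι → A) {a b c : ι} (hab : a ≠ b) (hac : a ≠ c) (hbc : b ≠ c) (ha : f a ∈ M) (hb : f b ∈ M)
    (hc : f c ∈ M) : ∏ i, f i ∈ M ^ 3 := by
  have hcard : ({a, b, c} : Finset ι).card = 3 := by
    rw [Finset.card_eq_three]; exact ⟨a, b, c, hab, hac, hbc, rfl⟩
  rw [← Finset.prod_mul_prod_compl ({a, b, c} : Finset ι)]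
  apply Ideal.mul_mem_right
  have h := Ideal.prod_mem_prod (s := ({a, b, c} : Finset ι)) (I := fun _ => M) (x := f) (by
    intro i hi
    simp only [Finset.mem_insert, Finset.mem_singleton] at hi
    rcases hi with rfl | rfl | rfl
    · exact ha
    · exact hb
    · exact hc)
  rwa [Finset.prod_const, hcard] at h

lemma det_mod_cube {A ι : Type*} [CommRing A] [Fintype ι] [DecidableEq ι] (M : Ideal A)
    (N : Matrix ι ι A) {a0 a1 : ι} (h01 : a0 ≠ a1) (hoff : ∀ i j, i ≠ j → N i j ∈ M)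
    (h0 : N a0 a0 = 0) (h1 : N a1 a1 = 0) :
    N.det + (∏ i ∈ Finset.univ \ {a0, a1}, N i i) * (N a0 a1 * N a1 a0) ∈ M ^ 3 := by
  rw [Matrix.det_apply]
  set τ := Equiv.swap a0 a1 with hτ
  rw [← Finset.add_sum_erase _ _ (Finset.mem_univ τ)]
  have hτterm : Equiv.Perm.sign τ • ∏ i, N (τ i) i =
      - ((∏ i ∈ Finset.univ \ {a0, a1}, N i i) * (N a0 a1 * N a1 a0)) := by
    rw [hτ, Equiv.Perm.sign_swap h01]
    rw [← Finset.prod_sdiff (Finset.subset_univ ({a0, a1} : Finset ι))]
    rw [Finset.prod_pair h01, Equiv.swap_apply_left, Equiv.swap_apply_right]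
    have e : (∏ x ∈ Finset.univ \ {a0, a1}, N ((Equiv.swap a0 a1) x) x) =
        ∏ i ∈ Finset.univ \ {a0, a1}, N i i := by
      refine Finset.prod_congr rfl fun i hi => ?_
      simp only [Finset.mem_sdiff, Finset.mem_univ, true_and, Finset.mem_insert,
        Finset.mem_singleton, not_or] at hi
      rw [Equiv.swap_apply_of_ne_of_ne hi.1 hi.2]
    rw [e]
    rw [Units.neg_smul, one_smul, mul_comm (N a1 a0)]
  rw [hτterm]
  have e2 : ∀ P S : A, -P + S + P = S := fun P S => by ring
  rw [e2]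
  refine Ideal.sum_mem _ fun σ hσ => ?_
  have hne : σ ≠ τ := Finset.ne_of_mem_erase hσ
  have key : ∏ i, N (σ i) i ∈ M ^ 3 := by
    by_cases hs0 : σ a0 = a0
    · rw [Finset.prod_eq_zero (Finset.mem_univ a0) (by rw [hs0, h0])]
      exact Ideal.zero_mem _
    by_cases hs1 : σ a1 = a1
    · rw [Finset.prod_eq_zero (Finset.mem_univ a1) (by rw [hs1, h1])]
      exact Ideal.zero_mem _
    have hex : ∃ i, i ≠ a0 ∧ i ≠ a1 ∧ σ i ≠ i := by
      by_contra hcon
      push Not at hcon
      apply hne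
      have hA : σ a0 = a1 := by
        by_contra h
        have h2 := hcon (σ a0) hs0 h
        exact hs0 (σ.injective h2)
      have hB : σ a1 = a0 := by
        by_contra h
        have h2 := hcon (σ a1) h hs1
        exact hs1 (σ.injective h2)
      ext i
      by_cases hi0 : i = a0
      · rw [hi0, hA, hτ, Equiv.swap_apply_left]
      by_cases hi1 : i = a1
      · rw [hi1, hB, hτ, Equiv.swap_apply_right]
      rw [hcon i hi0 hi1, hτ, Equiv.swap_apply_of_ne_of_ne hi0 hi1]
    obtain ⟨i, hi0, hi1, hi⟩ := hex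
    exact prod_mem_cube M (fun i => N (σ i) i) h01 (Ne.symm hi0) (Ne.symm hi1)
      (hoff _ _ hs0) (hoff _ _ hs1) (hoff _ _ hi)
  rcases Int.units_eq_one_or (Equiv.Perm.sign σ) with h | h
  · rw [h, one_smul]; exact key
  · rw [h, Units.neg_smul, one_smul]; exact (Ideal.neg_mem_iff _).mpr key

/-! ### Fourier analysis -/

section fourier

variable {q k : ℕ} {ζ : ℂ}

lemma zeta_pow_q (hq : 0 < q) (hζ : IsPrimitiveRoot ζ (2 * q)) : ζ ^ q = -1 := by
  have h1 : ζ ^ q * ζ ^ q = 1 := by rw [← pow_add, ← two_mul, hζ.pow_eq_one]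
  rcases mul_self_eq_one_iff.mp h1 with h | h
  · exfalso
    have := (hζ.pow_eq_one_iff_dvd q).mp h
    have := Nat.le_of_dvd hq this
    omega
  · exact h

noncomputable def ww (k : ℕ) (ζ : ℂ) (a : ℕ) : ℂ := ζ ^ (k + 2 * a)

lemma ww_ne (hζ0 : ζ ≠ 0) (a : ℕ) : ww k ζ a ≠ 0 := pow_ne_zero _ hζ0

lemma ww_pow (hq : 0 < q) (hζ : IsPrimitiveRoot ζ (2 * q)) (a : ℕ) : ww k ζ a ^ q = (-1) ^ k := by
  unfold ww
  rw [← pow_mul, mul_comm, pow_mul, zeta_pow_q hq hζ, pow_add, pow_mul]
  simp

lemma flo_zero_mul {w z z' : ℂ} (hq : 3 ≤ q) (hw : w ≠ 0) (hz : z = w ^ q) (hz' : z' * w ^ q = 1)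
    (j : Fin q) :
    ∑ l : Fin q, flo q 0 z z' j l * w ^ l.val = (w + w⁻¹) * w ^ j.val := by
  have hj := j.2
  have e0 : ∀ l : Fin q, flo q 0 z z' j l * w ^ l.val =
      (if l.val = j.val + 1 then w ^ (j.val + 1) else 0) +
      (if j.val = l.val + 1 then w ^ (j.val - 1) else 0) +
      (if j.val = 0 ∧ l.val + 1 = q then z' * w ^ (q - 1) else 0) +
      (if j.val + 1 = q ∧ l.val = 0 then z else 0) := by
    intro l
    simp only [flo, Matrix.of_apply, Pi.zero_apply, ite_self, zero_add]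
    rw [add_mul, add_mul, add_mul]
    congr 1
    · congr 1
      · congr 1
        · split_ifs with h
          · rw [h, one_mul]
          · rw [zero_mul]
        · split_ifs with h
          · rw [h, one_mul]; simp
          · rw [zero_mul]
      · split_ifs with h
        · have : l.val = q - 1 := by omega
          rw [this]
        · rw [zero_mul]
    · split_ifs with h
      · rw [h.2, pow_zero, mul_one]
      · rw [zero_mul]
  simp only [e0, Finset.sum_add_distrib]
  have s1 : (∑ l : Fin q, if l.val = j.val + 1 then w ^ (j.val + 1) else 0) =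
      if j.val + 1 < q then w ^ (j.val + 1) else 0 := by
    split_ifs with h
    · rw [Finset.sum_eq_single (⟨j.val + 1, h⟩ : Fin q)]
      · simp
      · intro b _ hb
        rw [if_neg]; intro hb2; exact hb (Fin.ext hb2)
      · simp
    · apply Finset.sum_eq_zero
      intro l _
      rw [if_neg]; have := l.2; omega
  have s2 : (∑ l : Fin q, if j.val = l.val + 1 then w ^ (j.val - 1) else 0) =
      if 1 ≤ j.val then w ^ (j.val - 1) else 0 := by
    split_ifs with h
    · rw [Finset.sum_eq_single (⟨j.val - 1, by omega⟩ : Fin q)]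
      · rw [if_pos]; simp; omega
      · intro b _ hb
        rw [if_neg]; intro hb2; exact hb (Fin.ext (by simp; omega))
      · simp
    · apply Finset.sum_eq_zero
      intro l _
      rw [if_neg]; omega
  have s3 : (∑ l : Fin q, if j.val = 0 ∧ l.val + 1 = q then z' * w ^ (q - 1) else 0) =
      if j.val = 0 then z' * w ^ (q - 1) else 0 := by
    split_ifs with h
    · rw [Finset.sum_eq_single (⟨q - 1, by omega⟩ : Fin q)]
      · rw [if_pos]; exact ⟨h, by simp; omega⟩
      · intro b _ hb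
        rw [if_neg]; intro hb2; exact hb (Fin.ext (by simp; omega))
      · simp
    · apply Finset.sum_eq_zero
      intro l _
      rw [if_neg]; tauto
  have s4 : (∑ l : Fin q, if j.val + 1 = q ∧ l.val = 0 then z else 0) =
      if j.val + 1 = q then z else 0 := by
    split_ifs with h
    · rw [Finset.sum_eq_single (⟨0, by omega⟩ : Fin q)]
      · rw [if_pos]; exact ⟨h, rfl⟩
      · intro b _ hb
        rw [if_neg]; intro hb2; exact hb (Fin.ext hb2.2)
      · simp
    · apply Finset.sum_eq_zero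
      intro l _
      rw [if_neg]; tauto
  rw [s1, s2, s3, s4]
  by_cases h0 : j.val = 0
  · have c1 : j.val + 1 < q := by omega
    have c2 : ¬ (1 ≤ j.val) := by omega
    have c3 : ¬ (j.val + 1 = q) := by omega
    rw [if_pos c1, if_neg c2, if_pos h0, if_neg c3, h0]
    have : z' * w ^ (q - 1) = w⁻¹ := by
      have h2 : w ^ q = w ^ (q - 1) * w := by rw [← pow_succ]; congr 1; omega
      rw [h2] at hz'
      field_simp
      rw [← hz']; ring
    rw [this]; ring
  · have c2 : 1 ≤ j.val := by omega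
    have e3 : w⁻¹ * w ^ j.val = w ^ (j.val - 1) := by
      have : w ^ j.val = w * w ^ (j.val - 1) := by rw [← pow_succ']; congr 1; omega
      rw [this, ← mul_assoc, inv_mul_cancel₀ hw, one_mul]
    by_cases h1 : j.val + 1 = q
    · have c1 : ¬ (j.val + 1 < q) := by omega
      rw [if_neg c1, if_pos c2, if_neg h0, if_pos h1, hz, add_mul, e3]
      have : w ^ q = w * w ^ j.val := by rw [← pow_succ', h1]
      rw [this]; ring
    · have c1 : j.val + 1 < q := by omega
      rw [if_pos c1, if_pos c2, if_neg h0, if_neg h1, add_mul, e3]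
      ring

noncomputable def FF (q k : ℕ) (ζ : ℂ) : Matrix (Fin q) (Fin q) ℂ :=
  Matrix.of fun j a => (ww k ζ a.val) ^ j.val

noncomputable def GG (q k : ℕ) (ζ : ℂ) : Matrix (Fin q) (Fin q) ℂ :=
  Matrix.of fun a j => (q : ℂ)⁻¹ * ((ww k ζ a.val)⁻¹) ^ j.val

lemma ww_ne_ww (hq : 0 < q) (hζ : IsPrimitiveRoot ζ (2 * q)) {a b : Fin q} (hab : a ≠ b) :
    ww k ζ a.val ≠ ww k ζ b.val := by
  intro h
  unfold ww at h
  have hζ0 : ζ ≠ 0 := hζ.ne_zero (by omega)
  rw [pow_add, pow_add] at h
  have h2 := mul_left_cancel₀ (pow_ne_zero k hζ0) h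
  have := hζ.pow_inj (by have := a.2; omega) (by have := b.2; omega) h2
  exact hab (Fin.ext (by omega))

lemma GF_one (hq : 0 < q) (hζ : IsPrimitiveRoot ζ (2 * q)) : GG q k ζ * FF q k ζ = 1 := by
  have hζ0 : ζ ≠ 0 := hζ.ne_zero (by omega)
  have hqc : (q : ℂ) ≠ 0 := by exact_mod_cast hq.ne'
  ext a b
  rw [Matrix.mul_apply]
  have e : ∀ j : Fin q, GG q k ζ a j * FF q k ζ j b =
      (q : ℂ)⁻¹ * ((ww k ζ a.val)⁻¹ * ww k ζ b.val) ^ j.val := by
    intro j
    simp only [GG, FF, Matrix.of_apply]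
    rw [mul_pow]; ring
  simp only [e]
  rw [← Finset.mul_sum, Fin.sum_univ_eq_sum_range (fun n => ((ww k ζ a.val)⁻¹ * ww k ζ b.val) ^ n)]
  by_cases hab : a = b
  · subst hab
    rw [inv_mul_cancel₀ (ww_ne hζ0 _)]
    simp [hqc]
  · rw [Matrix.one_apply_ne hab]
    set η := (ww k ζ a.val)⁻¹ * ww k ζ b.val with hη
    have hη1 : η ≠ 1 := by
      intro h
      rw [hη, inv_mul_eq_one₀ (ww_ne hζ0 _)] at h
      exact ww_ne_ww hq hζ hab h
    have hηq : η ^ q = 1 := by
      rw [hη, mul_pow, inv_pow, ww_pow hq hζ, ww_pow hq hζ]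
      rcases neg_one_pow_eq_or ℂ k with h | h <;> rw [h] <;> norm_num
    have := geom_sum_mul η q
    rw [hηq, sub_self] at this
    rcases mul_eq_zero.mp this with h | h
    · rw [h, mul_zero]
    · exact absurd (sub_eq_zero.mp h) hη1

theorem fourier_det {A : Type*} [CommRing A] [Algebra ℂ A] (M : Ideal A) (hq : 3 ≤ q)
    (hk1 : 1 ≤ k) (hk : k < q) (hζ : IsPrimitiveRoot ζ (2 * q)) (v : Fin q → A)
    (hv : ∀ j, v j ∈ M) (hsum : ∑ j, v j = 0) :
    ∃ lam κ s : ℂ, κ ≠ 0 ∧ s * s = 1 ∧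
      gd q (algebraMap ℂ A lam) v (algebraMap ℂ A s) (algebraMap ℂ A s) +
        algebraMap ℂ A κ * ((∑ j, v j * algebraMap ℂ A (ζ ^ (2 * k * j.val))) *
          (∑ j, v j * algebraMap ℂ A ((ζ ^ (2 * k * j.val))⁻¹))) ∈ M ^ 3 ∧
      gd q (algebraMap ℂ A lam) 0 (algebraMap ℂ A s) (algebraMap ℂ A s) = 0 := by
  have hq0 : 0 < q := by omega
  have hζ0 : ζ ≠ 0 := hζ.ne_zero (by omega)
  have hqc : (q : ℂ) ≠ 0 := by exact_mod_cast hq0.ne'
  set c := algebraMap ℂ A with hc
  set s : ℂ := (-1) ^ k with hs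
  have hss : s * s = 1 := by rw [hs, ← pow_add, ← two_mul, pow_mul]; simp
  set w : ℕ → ℂ := fun a => ww k ζ a with hw
  set lam : ℂ := w 0 + (w 0)⁻¹ with hlam
  set μ : Fin q → ℂ := fun a => w a.val + (w a.val)⁻¹ with hμ
  -- diagonalisation of the free matrix
  have hdiag : (Matrix.diagonal (fun _ => lam) - flo q 0 s s) * FF q k ζ =
      FF q k ζ * Matrix.diagonal (fun a => lam - μ a) := by
    ext j a
    rw [Matrix.sub_mul, Matrix.sub_apply, Matrix.diagonal_mul, Matrix.mul_diagonal,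
      Matrix.mul_apply]
    have := flo_zero_mul (z := s) (z' := s) hq (ww_ne (k := k) hζ0 a.val)
      (by rw [ww_pow hq0 hζ]) (by rw [ww_pow hq0 hζ]; exact hss) j
    simp only [FF, Matrix.of_apply]
    rw [this]
    simp only [hμ, hw]
    ring
  have hGF := GF_one (k := k) hq0 hζ
  have hconj : GG q k ζ * (Matrix.diagonal (fun _ => lam) - flo q 0 s s) * FF q k ζ =
      Matrix.diagonal (fun a => lam - μ a) := by
    rw [Matrix.mul_assoc, hdiag, ← Matrix.mul_assoc, hGF, Matrix.one_mul]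
  have hdetGF : (GG q k ζ).det * (FF q k ζ).det = 1 := by
    rw [← Matrix.det_mul, hGF, Matrix.det_one]
  -- map to A
  set X : Matrix (Fin q) (Fin q) A :=
    Matrix.diagonal (fun _ => c lam) - flo q v (c s) (c s) with hX
  have hXdec : X = (Matrix.diagonal (fun _ => lam) - flo q 0 s s).map c - Matrix.diagonal v := by
    ext i j
    rw [hX, Matrix.sub_apply, Matrix.sub_apply, Matrix.map_apply, Matrix.sub_apply, map_sub]
    simp only [flo, Matrix.of_apply, Matrix.diagonal_apply, map_add, Pi.zero_apply, ite_self,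
      zero_add]
    have t : ∀ (P : Prop) [Decidable P] (x : ℂ), c (if P then x else 0) = if P then c x else 0 := by
      intro P _ x; split_ifs <;> simp
    simp only [t, map_one]
    ring
  set N : Matrix (Fin q) (Fin q) A := (GG q k ζ).map c * X * (FF q k ζ).map c with hN
  have hdetN : N.det = X.det := by
    rw [hN, Matrix.det_mul, Matrix.det_mul]
    have e1 : ((GG q k ζ).map c).det = c (GG q k ζ).det := by
      rw [RingHom.map_det]; rfl
    have e2 : ((FF q k ζ).map c).det = c (FF q k ζ).det := by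
      rw [RingHom.map_det]; rfl
    rw [e1, e2]
    have : c (GG q k ζ).det * c (FF q k ζ).det = 1 := by rw [← map_mul, hdetGF, map_one]
    linear_combination X.det * this
  have hNentry : ∀ a b : Fin q, N a b = (if a = b then c (lam - μ a) else 0) -
      c ((q : ℂ)⁻¹) * ∑ j, v j * c (((w a.val)⁻¹ * w b.val) ^ j.val) := by
    intro a b
    have e1 : N = (Matrix.diagonal (fun a => lam - μ a)).map c -
        (GG q k ζ).map c * Matrix.diagonal v * (FF q k ζ).map c := by
      rw [hN, hXdec, Matrix.mul_sub, Matrix.sub_mul, ← hconj, Matrix.map_mul, Matrix.map_mul]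
    rw [e1, Matrix.sub_apply, Matrix.map_apply, Matrix.diagonal_apply]
    congr 1
    · split_ifs <;> simp
    · rw [Matrix.mul_apply, Finset.mul_sum]
      refine Finset.sum_congr rfl fun j _ => ?_
      rw [Matrix.mul_diagonal, Matrix.map_apply, Matrix.map_apply]
      simp only [GG, FF, Matrix.of_apply, hw]
      rw [mul_pow, map_mul, map_mul]
      ring
  have hWM : ∀ a b : Fin q, c ((q : ℂ)⁻¹) * ∑ j, v j * c (((w a.val)⁻¹ * w b.val) ^ j.val) ∈ M :=
    fun a b => Ideal.mul_mem_left _ _ (Ideal.sum_mem _ fun j _ => Ideal.mul_mem_right _ _ (hv j))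
  have hoff : ∀ i j, i ≠ j → N i j ∈ M := by
    intro i j hij
    rw [hNentry, if_neg hij, zero_sub]
    exact (Ideal.neg_mem_iff _).mpr (hWM i j)
  have hNdiag : ∀ a : Fin q, N a a = c (lam - μ a) := by
    intro a
    rw [hNentry, if_pos rfl, inv_mul_cancel₀ (ww_ne hζ0 _)]
    simp [hsum]
  set a0 : Fin q := ⟨0, hq0⟩ with ha0
  set a1 : Fin q := ⟨q - k, by omega⟩ with ha1
  have h01 : a0 ≠ a1 := by rw [ha0, ha1, Ne, Fin.ext_iff]; simp; omega
  have hw01 : w 0 * w (q - k) = 1 := by
    simp only [hw, ww]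
    rw [← pow_add]
    have : k + 2 * 0 + (k + 2 * (q - k)) = 2 * q := by omega
    rw [this, hζ.pow_eq_one]
  have hw0 : w 0 ≠ 0 := ww_ne hζ0 _
  have hwinv : (w 0)⁻¹ = w (q - k) := inv_eq_of_mul_eq_one_right hw01
  have hwinv2 : (w (q - k))⁻¹ = w 0 := by rw [← hwinv, inv_inv]
  have hμ1 : μ a1 = lam := by
    simp only [hμ, ha1, hlam]
    rw [hwinv2, hwinv, add_comm]
  have hN0 : N a0 a0 = 0 := by
    rw [hNdiag]; simp [hμ, ha0, hlam]
  have hN1 : N a1 a1 = 0 := by rw [hNdiag, hμ1, sub_self, map_zero]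
  have hmain := det_mod_cube M N h01 hoff hN0 hN1
  set κ0 : ℂ := ∏ i ∈ Finset.univ \ {a0, a1}, (lam - μ i) with hκ0
  have hκ0ne : κ0 ≠ 0 := by
    rw [hκ0, Finset.prod_ne_zero_iff]
    intro i hi
    simp only [Finset.mem_sdiff, Finset.mem_univ, true_and, Finset.mem_insert,
      Finset.mem_singleton, not_or] at hi
    have hwi : w i.val ≠ 0 := ww_ne hζ0 _
    have h1 : w 0 - w i.val ≠ 0 := by
      rw [sub_ne_zero]
      exact ww_ne_ww hq0 hζ (Ne.symm hi.1)
    have h2 : w 0 * w i.val - 1 ≠ 0 := by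
      rw [sub_ne_zero]
      intro h
      simp only [hw, ww] at h
      rw [← pow_add, hζ.pow_eq_one_iff_dvd] at h
      have h3 : k + 2 * 0 + (k + 2 * i.val) = 2 * (k + i.val) := by ring
      rw [h3] at h
      have h4 : q ∣ k + i.val := Nat.dvd_of_mul_dvd_mul_left (by norm_num) h
      have h5 := i.2
      have h6 : k + i.val = q := by
        obtain ⟨t, ht⟩ := h4
        have : t = 1 := by
          have h7 : t < 2 := by
            by_contra h8
            have : 2 ≤ t := by omega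
            nlinarith
          have h8 : 0 < t := by
            by_contra h9
            have : t = 0 := by omega
            rw [this] at ht
            omega
          omega
        rw [this] at ht; omega
      exact hi.2 (Fin.ext (by rw [ha1]; simp; omega))
    have e : lam - μ i = (w 0 - w i.val) * (w 0 * w i.val - 1) / (w 0 * w i.val) := by
      simp only [hlam, hμ]
      field_simp
      ring
    rw [e]
    exact div_ne_zero (mul_ne_zero h1 h2) (mul_ne_zero hw0 hwi)
  refine ⟨lam, κ0 * ((q : ℂ)⁻¹ * (q : ℂ)⁻¹), s, mul_ne_zero hκ0ne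
    (mul_ne_zero (inv_ne_zero hqc) (inv_ne_zero hqc)), hss, ?_, ?_⟩
  · have hprod : (∏ i ∈ Finset.univ \ {a0, a1}, N i i) = c κ0 := by
      rw [hκ0, map_prod]
      exact Finset.prod_congr rfl fun i _ => hNdiag i
    have hpow2 : ∀ j : ℕ, ((w 0)⁻¹ * w (q - k)) ^ j = (ζ ^ (2 * k * j))⁻¹ := by
      intro j
      rw [← hwinv]
      simp only [hw, ww]
      rw [← inv_pow, ← inv_pow, ← pow_add, ← pow_mul]
      congr 1; ring
    have hpow1 : ∀ j : ℕ, ((w (q - k))⁻¹ * w 0) ^ j = ζ ^ (2 * k * j) := by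
      intro j
      rw [hwinv2]
      simp only [hw, ww]
      rw [← pow_add, ← pow_mul]
      congr 1; ring
    have hN01 : N a0 a1 = - (c ((q : ℂ)⁻¹) * ∑ j, v j * c ((ζ ^ (2 * k * j.val))⁻¹)) := by
      rw [hNentry, if_neg h01, zero_sub]
      simp only [ha0, ha1, hpow2]
    have hN10 : N a1 a0 = - (c ((q : ℂ)⁻¹) * ∑ j, v j * c (ζ ^ (2 * k * j.val))) := by
      rw [hNentry, if_neg (Ne.symm h01), zero_sub]
      simp only [ha0, ha1, hpow1]
    rw [hprod, hN01, hN10, hdetN] at hmain
    have hgd : gd q (c lam) v (c s) (c s) = X.det := rfl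
    rw [hgd]
    convert hmain using 1
    rw [map_mul, map_mul]
    ring
  · have h1 := gd_map c q lam 0 s s
    have h2 : (fun i : Fin q => c ((0 : Fin q → ℂ) i)) = 0 := by
      funext i; simp
    rw [h2] at h1
    rw [← h1]
    have h3 : gd q lam 0 s s = 0 := by
      have h4 := congrArg Matrix.det hconj
      rw [Matrix.det_mul, Matrix.det_mul, Matrix.det_diagonal] at h4
      have h5 : ∏ i, (lam - μ i) = 0 :=
        Finset.prod_eq_zero (Finset.mem_univ a1) (by rw [hμ1, sub_self])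
      rw [h5] at h4
      have h6 : gd q lam 0 s s = (Matrix.diagonal (fun _ => lam) - flo q 0 s s).det := rfl
      rw [h6]
      linear_combination h4 - (Matrix.diagonal (fun _ => lam) - flo q 0 s s).det * hdetGF
    rw [h3, map_zero]

end fourier

end Pool.Agent.X322.Iso
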