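import Pool.Agent.X322.Iso2
import Pool.Agent.X322.Iso3

open Matrix Finset MvPolynomial
open scoped BigOperators

namespace Pool.Agent.X322.Iso

def asym {R : Type*} [CommRing R] (q m : ℕ) (u : Fin m → R) (j : Fin q) : R :=
  if h : j.val < m then u ⟨j.val, h⟩
  else if h : q - 1 - j.val < m then - u ⟨q - 1 - j.val, h⟩ else 0

lemma asym_rev {R : Type*} [CommRing R] {q m : ℕ} (hq : q = 2 * m ∨ q = 2 * m + 1) (u : Fin m → R)
    (j : Fin q) : asym q m u (Fin.rev j) = - asym q m u j := by
  have hj := j.2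
  have hr : (Fin.rev j).val = q - 1 - j.val := by rw [Fin.val_rev]; omega
  unfold asym
  by_cases h1 : j.val < m
  · have h2 : ¬ ((Fin.rev j).val < m) := by rw [hr]; omega
    have h3 : q - 1 - (Fin.rev j).val < m := by rw [hr]; omega
    rw [dif_pos h1, dif_neg h2, dif_pos h3]
    congr 2
    apply Fin.ext
    simp only [hr]; omega
  · by_cases h2 : q - 1 - j.val < m
    · have h3 : (Fin.rev j).val < m := by rw [hr]; omega
      rw [dif_neg h1, dif_pos h2, dif_pos h3, neg_neg]
      congr 1
      apply Fin.ext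
      exact hr
    · have h3 : ¬ ((Fin.rev j).val < m) := by rw [hr]; omega
      have h4 : ¬ (q - 1 - (Fin.rev j).val < m) := by rw [hr]; omega
      rw [dif_neg h1, dif_neg h2, dif_neg h3, dif_neg h4, neg_zero]

lemma asym_map {R S : Type*} [CommRing R] [CommRing S] (φ : R →+* S) (q m : ℕ) (u : Fin m → R)
    (j : Fin q) : φ (asym q m u j) = asym q m (fun i => φ (u i)) j := by
  unfold asym
  split_ifs <;> simp

/-- the difference of characteristic polynomials -/
noncomputable def FP {R : Type*} [CommRing R] (q : ℕ) (v : Fin q → R) : Polynomial R :=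
  gd q Polynomial.X (fun j => Polynomial.C (v j)) 1 1 - gd q Polynomial.X 0 1 1

lemma gd_charpoly {R : Type*} [CommRing R] (q : ℕ) (v : Fin q → R) (z z' : R) :
    gd q Polynomial.X (fun j => Polynomial.C (v j)) (Polynomial.C z) (Polynomial.C z') =
      (flo q v z z').charpoly := by
  unfold gd Matrix.charpoly
  congr 1
  ext1 i j
  rw [Matrix.charmatrix_apply, Matrix.sub_apply]
  congr 1
  simp only [flo, Matrix.of_apply, map_add]
  have t : ∀ (P : Prop) [Decidable P] (x : R),
      Polynomial.C (if P then x else 0) = if P then Polynomial.C x else 0 := by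
    intro P _ x; split_ifs <;> simp
  simp only [t, map_one]

lemma FP_eq {R : Type*} [CommRing R] (q : ℕ) (v : Fin q → R) :
    FP q v = (flo q v 1 1).charpoly - (flo q 0 1 1).charpoly := by
  unfold FP
  rw [← gd_charpoly, ← gd_charpoly, map_one]
  have : (fun j : Fin q => Polynomial.C ((0 : Fin q → R) j)) = 0 := by funext j; simp
  rw [this]

lemma FP_coeff_ge {R : Type*} [CommRing R] [Nontrivial R] (q : ℕ) (v : Fin q → R) (n : ℕ)
    (hn : q ≤ n) : (FP q v).coeff n = 0 := by
  rw [FP_eq]
  have h1 := Matrix.charpoly_monic (flo q v 1 1)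
  have h2 := Matrix.charpoly_monic (flo q (0 : Fin q → R) 1 1)
  have d1 : (flo q v 1 1).charpoly.degree = q := by
    rw [Matrix.charpoly_degree_eq_dim]; simp
  have d2 : (flo q (0 : Fin q → R) 1 1).charpoly.degree = q := by
    rw [Matrix.charpoly_degree_eq_dim]; simp
  have h3 := Polynomial.degree_sub_lt_left (d1.trans d2.symm) h1.ne_zero
    (by rw [h1.leadingCoeff, h2.leadingCoeff])
  rw [d1] at h3
  apply Polynomial.coeff_eq_zero_of_degree_lt
  exact lt_of_lt_of_le h3 (by exact_mod_cast hn)

lemma FP_coeff_odd {R : Type*} [CommRing R] [CharZero R] [IsDomain R] {q : ℕ} (hq : 3 ≤ q) (v : Fin q → R)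
    (hv : ∀ j, v (Fin.rev j) = - v j) (n : ℕ) (hn : Odd (q + n)) : (FP q v).coeff n = 0 := by
  have h1 := gd_parity (R := Polynomial R) q hq Polynomial.X (fun j => Polynomial.C (v j))
    (fun j => by rw [hv j]; simp) (z := 1) (z' := 1) (by simp)
  have h2 : (FP q v).comp (Polynomial.C (-1) * Polynomial.X) =
      gd q (-Polynomial.X) (fun j => Polynomial.C (v j)) 1 1 - gd q (-Polynomial.X) 0 1 1 := by
    have e1 := gd_map (Polynomial.compRingHom (Polynomial.C (-1 : R) * Polynomial.X)) q
      Polynomial.X (fun j => Polynomial.C (v j)) 1 1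
    have e2 := gd_map (Polynomial.compRingHom (Polynomial.C (-1 : R) * Polynomial.X)) q
      Polynomial.X 0 1 1
    simp only [Polynomial.coe_compRingHom_apply, Polynomial.X_comp, Polynomial.C_comp,
      Polynomial.one_comp, Pi.zero_apply, Polynomial.zero_comp] at e1 e2
    unfold FP
    rw [Polynomial.sub_comp, e1, e2]
    have e3 : (Polynomial.C (-1 : R) * Polynomial.X) = -Polynomial.X := by simp
    rw [e3]
    rfl
  have h3 : FP q v = (-1) ^ q * (FP q v).comp (Polynomial.C (-1) * Polynomial.X) := by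
    rw [h2]; exact h1
  have h4 : (FP q v).coeff n =
      ((-1) ^ q * (FP q v).comp (Polynomial.C (-1) * Polynomial.X)).coeff n := by
    rw [← h3]
  have e5 : ((-1 : Polynomial R)) ^ q = Polynomial.C ((-1) ^ q) := by simp
  rw [e5, Polynomial.coeff_C_mul, Polynomial.comp_C_mul_X_coeff] at h4
  have h6 : ((-1 : R)) ^ q * (-1) ^ n = -1 := by
    rw [← pow_add]; exact hn.neg_one_pow
  have h7 : (FP q v).coeff n = -(FP q v).coeff n := by
    linear_combination h4 + (FP q v).coeff n * h6
  have h8 : (2 : R) * (FP q v).coeff n = 0 := by linear_combination h7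
  rcases mul_eq_zero.mp h8 with h | h
  · exact absurd h two_ne_zero
  · exact h

lemma FP_eval {R : Type*} [CommRing R] (q : ℕ) (v : Fin q → R) (a : R) :
    (FP q v).eval a = gd q a v 1 1 - gd q a 0 1 1 := by
  have e1 := gd_map (Polynomial.evalRingHom a) q Polynomial.X (fun j => Polynomial.C (v j)) 1 1
  have e2 := gd_map (Polynomial.evalRingHom a) q Polynomial.X 0 1 1
  simp only [Polynomial.coe_evalRingHom, Polynomial.eval_X, Polynomial.eval_C,
      Polynomial.eval_one, Pi.zero_apply, Polynomial.eval_zero] at e1 e2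
  unfold FP
  rw [Polynomial.eval_sub, e1, e2]
  rfl

lemma FP_map {R S : Type*} [CommRing R] [CommRing S] (φ : R →+* S) (q : ℕ) (v : Fin q → R) :
    (FP q v).map φ = FP q (fun j => φ (v j)) := by
  have e1 := gd_map (Polynomial.mapRingHom φ) q Polynomial.X (fun j => Polynomial.C (v j)) 1 1
  have e2 := gd_map (Polynomial.mapRingHom φ) q Polynomial.X 0 1 1
  simp only [Polynomial.coe_mapRingHom, Polynomial.map_X, Polynomial.map_C,
      Polynomial.map_one, Pi.zero_apply, Polynomial.map_zero] at e1 e2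
  unfold FP
  rw [Polynomial.map_sub, e1, e2]
  rfl

/-! ### the low degree estimates -/

lemma Low.C {σ k : Type*} [Field k] (a : k) : Low 1 (C a : MvPolynomial σ k) :=
  Low.of_homog (isHomogeneous_C _ _)

lemma Low.prod {σ k ι : Type*} [Field k] (s : Finset ι) (f : ι → MvPolynomial σ k)
    (h : ∀ i ∈ s, Low 2 (f i)) : Low (s.card + 1) (∏ i ∈ s, f i) := by
  classical
  induction s using Finset.induction_on with
  | empty => simpa using Low.of_homog (isHomogeneous_one σ k)
  | insert i s hi ih =>
    rw [Finset.prod_insert hi, Finset.card_insert_of_notMem hi, mul_comm]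
    exact (ih fun j hj => h j (Finset.mem_insert_of_mem hj)).mul (b := 1)
      (h i (Finset.mem_insert_self i s))

lemma gd_low {σ k : Type*} [Field k] {q : ℕ} (hq : 3 ≤ q) (lam : MvPolynomial σ k)
    (v : Fin q → MvPolynomial σ k) (hlam : Low 2 lam) (hv : ∀ j, Low 2 (v j)) :
    Low q (gd q lam v 1 1 - ∏ j, (lam - v j)) := by
  unfold gd
  set N : Matrix (Fin q) (Fin q) (MvPolynomial σ k) :=
    Matrix.diagonal (fun _ => lam) - flo q v 1 1 with hN
  have hdiag : ∀ j, N j j = lam - v j := by
    intro j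
    rw [hN, Matrix.sub_apply, Matrix.diagonal_apply_eq]
    simp only [flo, Matrix.of_apply]
    rw [if_pos trivial, if_neg (by omega), if_neg (by omega), if_neg (by omega)]
    ring
  have hoff : ∀ i j, i ≠ j → Low 1 (N i j) := by
    intro i j hij
    rw [hN, Matrix.sub_apply, Matrix.diagonal_apply_ne _ hij, zero_sub]
    simp only [flo, Matrix.of_apply]
    rw [if_neg hij, zero_add]
    refine Low.neg ?_
    have h1 : Low 1 (1 : MvPolynomial σ k) := by simpa using (Low.C (σ := σ) (1 : k))
    refine Low.add (Low.add (Low.add ?_ ?_) ?_) ?_ <;> split_ifs <;>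
      first | exact h1 | exact Low.zero _
  have hall : ∀ i j, Low 2 (N i j) := by
    intro i j
    by_cases hij : i = j
    · subst hij; rw [hdiag]; exact hlam.sub (hv i)
    · exact (hoff i j hij).mono (by norm_num)
  rw [Matrix.det_apply, ← Finset.add_sum_erase _ _ (Finset.mem_univ (1 : Equiv.Perm (Fin q)))]
  have e1 : Equiv.Perm.sign (1 : Equiv.Perm (Fin q)) • ∏ i, N ((1 : Equiv.Perm (Fin q)) i) i =
      ∏ j, (lam - v j) := by
    rw [Equiv.Perm.sign_one, one_smul]
    exact Finset.prod_congr rfl fun j _ => by rw [Equiv.Perm.one_apply, hdiag]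
  rw [e1, add_sub_cancel_left]
  refine Low.sum _ _ fun σ' hσ' => ?_
  have hne : σ' ≠ 1 := Finset.ne_of_mem_erase hσ'
  have hex : ∃ i, σ' i ≠ i := by
    by_contra hcon
    push Not at hcon
    exact hne (Equiv.ext hcon)
  obtain ⟨i, hi⟩ := hex
  have key : Low q (∏ j, N (σ' j) j) := by
    rw [← Finset.mul_prod_erase _ _ (Finset.mem_univ i), mul_comm]
    have h1 := Low.prod (Finset.univ.erase i) (fun j => N (σ' j) j) (fun j _ => hall _ _)
    have h2 : (Finset.univ.erase i : Finset (Fin q)).card + 1 = q := by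
      rw [Finset.card_erase_of_mem (Finset.mem_univ i), Finset.card_univ, Fintype.card_fin]; omega
    rw [h2] at h1
    exact h1.mul (b := 0) (hoff _ _ hi)
  rcases Int.units_eq_one_or (Equiv.Perm.sign σ') with h | h
  · rw [h, one_smul]; exact key
  · rw [h, Units.neg_smul, one_smul]; exact key.neg

/-! ### the ideal -/

section ideal

variable {q m : ℕ}

noncomputable def vv (q m : ℕ) : Fin q → MvPolynomial (Fin m) ℂ := asym q m X

noncomputable def PP (q m : ℕ) (k : Fin m) : MvPolynomial (Fin m) ℂ :=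
  (FP q (vv q m)).coeff (q - 2 * (k.val + 1))

noncomputable def II (q m : ℕ) : Ideal (MvPolynomial (Fin m) ℂ) := Ideal.span (Set.range (PP q m))

noncomputable def RR (q m : ℕ) (i : Fin m) : MvPolynomial (Fin m) ℂ := - (FP q (vv q m)).eval (X i)

lemma vv_low (j : Fin q) : Low 2 (vv q m j) := by
  unfold vv asym
  split_ifs
  · exact Low.of_homog (isHomogeneous_X _ _)
  · exact (Low.of_homog (isHomogeneous_X _ _)).neg
  · exact Low.zero _

lemma RR_low (hq3 : 3 ≤ q) (hq : q = 2 * m ∨ q = 2 * m + 1) (i : Fin m) :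
    Low q (RR q m i - X i ^ q) := by
  unfold RR
  rw [FP_eval]
  have h1 := gd_low hq3 (X i) (vv q m) (Low.of_homog (isHomogeneous_X _ _)) vv_low
  have h2 := gd_low hq3 (X i) (0 : Fin q → MvPolynomial (Fin m) ℂ)
    (Low.of_homog (isHomogeneous_X _ _)) (fun j => Low.zero _)
  have e1 : ∏ j, ((X i : MvPolynomial (Fin m) ℂ) - vv q m j) = 0 := by
    have hi := i.2
    apply Finset.prod_eq_zero (Finset.mem_univ (⟨i.val, by omega⟩ : Fin q))
    unfold vv asym
    rw [dif_pos hi, sub_self]
  have e2 : ∏ j : Fin q, ((X i : MvPolynomial (Fin m) ℂ) - (0 : Fin q → _) j) = X i ^ q := by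
    simp
  rw [e1, sub_zero] at h1
  rw [e2] at h2
  have := h2.sub h1
  convert this using 1
  ring

lemma FP_eval_eq (hq3 : 3 ≤ q) (hq : q = 2 * m ∨ q = 2 * m + 1) (a : MvPolynomial (Fin m) ℂ) :
    (FP q (vv q m)).eval a = ∑ k : Fin m, PP q m k * a ^ (q - 2 * (k.val + 1)) := by
  rw [Polynomial.eval_eq_sum_range' (n := q)]
  · symm
    unfold PP
    refine Finset.sum_of_injOn (fun k : Fin m => q - 2 * (k.val + 1)) ?_ ?_ ?_ ?_
    · intro k _ l _ hkl
      have hk := k.2
      have hl := l.2
      simp only at hkl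
      exact Fin.ext (by omega)
    · intro k _
      have hk := k.2
      simp only [Finset.coe_range, Set.mem_Iio]
      omega
    · intro n hn hn2
      rw [Finset.mem_range] at hn
      by_cases hodd : Odd (q + n)
      · rw [FP_coeff_odd hq3 (vv q m) (asym_rev hq X) n hodd, zero_mul]
      · exfalso
        rw [Nat.not_odd_iff_even] at hodd
        obtain ⟨t, ht⟩ := hodd
        apply hn2
        refine ⟨⟨(q - n) / 2 - 1, by omega⟩, by simp, ?_⟩
        simp only
        omega
    · intro k _
      rfl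
  · by_cases h0 : FP q (vv q m) = 0
    · rw [h0]; simp; omega
    · rw [Polynomial.natDegree_lt_iff_degree_lt h0, Polynomial.degree_lt_iff_coeff_zero]
      intro n hn
      exact FP_coeff_ge q _ n hn

lemma FP_eval_mem (hq3 : 3 ≤ q) (hq : q = 2 * m ∨ q = 2 * m + 1) (a : MvPolynomial (Fin m) ℂ) :
    (FP q (vv q m)).eval a ∈ II q m := by
  rw [FP_eval_eq hq3 hq]
  exact Ideal.sum_mem _ fun k _ => Ideal.mul_mem_right _ _ (Ideal.subset_span ⟨k, rfl⟩)

end ideal

end Pool.Agent.X322.Iso
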