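import Pool.Agent.X322.Iso4

open Matrix Finset MvPolynomial
open scoped BigOperators Pointwise

namespace Pool.Agent.X322.Iso

variable {q m : ℕ}

noncomputable def MM (m : ℕ) : Ideal (MvPolynomial (Fin m) ℂ) := Ideal.span (Set.range X)

lemma vv_mem (j : Fin q) : vv q m j ∈ MM m := by
  unfold vv asym
  split_ifs
  · exact Ideal.subset_span ⟨_, rfl⟩
  · exact (Ideal.neg_mem_iff _).mpr (Ideal.subset_span ⟨_, rfl⟩)
  · exact Ideal.zero_mem _

lemma vv_sum (hq : q = 2 * m ∨ q = 2 * m + 1) : ∑ j, vv q m j = 0 := by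
  have h1 : ∑ j, vv q m j = ∑ j, vv q m (Fin.rev j) :=
    (Equiv.sum_comp Fin.revPerm (vv q m)).symm
  have h2 : ∀ j, vv q m (Fin.rev j) = - vv q m j := asym_rev hq X
  simp only [h2, Finset.sum_neg_distrib] at h1
  have h3 : (2 : MvPolynomial (Fin m) ℂ) * ∑ j, vv q m j = 0 := by linear_combination h1
  rcases mul_eq_zero.mp h3 with h | h
  · exact absurd h two_ne_zero
  · exact h

/-- Fourier coefficients -/
noncomputable def YY (q m : ℕ) (ζ : ℂ) (k : ℕ) : MvPolynomial (Fin m) ℂ :=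
  ∑ j : Fin q, vv q m j * algebraMap ℂ _ (ζ ^ (2 * k * j.val))

noncomputable def YY' (q m : ℕ) (ζ : ℂ) (k : ℕ) : MvPolynomial (Fin m) ℂ :=
  ∑ j : Fin q, vv q m j * algebraMap ℂ _ ((ζ ^ (2 * k * j.val))⁻¹)

lemma YY'_eq (hq : q = 2 * m ∨ q = 2 * m + 1) {ζ : ℂ} (hζ : ζ ≠ 0) (k : ℕ) :
    YY' q m ζ k = algebraMap ℂ _ (-(ζ ^ (2 * k * (q - 1)))⁻¹) * YY q m ζ k := by
  unfold YY' YY
  have h1 : (∑ j : Fin q, vv q m j * algebraMap ℂ (MvPolynomial (Fin m) ℂ)
      ((ζ ^ (2 * k * j.val))⁻¹)) = ∑ j : Fin q, vv q m (Fin.rev j) *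
      algebraMap ℂ (MvPolynomial (Fin m) ℂ) ((ζ ^ (2 * k * (Fin.rev j).val))⁻¹) :=
    (Equiv.sum_comp Fin.revPerm (fun j : Fin q => vv q m j *
      algebraMap ℂ (MvPolynomial (Fin m) ℂ) ((ζ ^ (2 * k * j.val))⁻¹))).symm
  rw [h1, Finset.mul_sum]
  refine Finset.sum_congr rfl fun j _ => ?_
  have hj := j.2
  have h2 : vv q m (Fin.rev j) = - vv q m j := asym_rev hq X j
  have h3 : (ζ ^ (2 * k * (Fin.rev j).val))⁻¹ = (ζ ^ (2 * k * (q - 1)))⁻¹ * ζ ^ (2 * k * j.val) := by
    have e : 2 * k * (q - 1) = 2 * k * (Fin.rev j).val + 2 * k * j.val := by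
      rw [← mul_add, Fin.val_rev]; congr 1; omega
    rw [e, pow_add, mul_inv, mul_assoc ((ζ ^ (2 * k * (Fin.rev j).val))⁻¹),
      inv_mul_cancel₀ (pow_ne_zero _ hζ), mul_one]
  rw [h2, h3, map_mul, map_neg]
  ring

lemma YY_sq_mem (hq3 : 3 ≤ q) (hq : q = 2 * m ∨ q = 2 * m + 1) {ζ : ℂ}
    (hζ : IsPrimitiveRoot ζ (2 * q)) {k : ℕ} (hk1 : 1 ≤ k) (hk : k < q) :
    YY q m ζ k * YY q m ζ k ∈ II q m ⊔ MM m ^ 3 := by
  have hζ0 : ζ ≠ 0 := hζ.ne_zero (by omega)
  obtain ⟨lam, κ, s, hκ, hs, h1, h2⟩ := fourier_det (MM m) hq3 hk1 hk hζ (vv q m) vv_mem (vv_sum hq)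
  set c := algebraMap ℂ (MvPolynomial (Fin m) ℂ) with hc
  have h3 : gd q (c lam) (vv q m) (c s) (c s) - gd q (c lam) 0 (c s) (c s) =
      gd q (c lam) (vv q m) 1 1 - gd q (c lam) 0 1 1 :=
    gd_indep q hq3 (c lam) (vv q m) 0 (by rw [← map_mul, hs, map_one]) (by simp)
  have h4 : gd q (c lam) (vv q m) (c s) (c s) ∈ II q m := by
    have := FP_eval_mem hq3 hq (c lam)
    rw [FP_eval, ← h3, h2, sub_zero] at this
    exact this
  have h5 : c κ * (YY q m ζ k * YY' q m ζ k) ∈ II q m ⊔ MM m ^ 3 := by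
    have e : c κ * (YY q m ζ k * YY' q m ζ k) =
        (gd q (c lam) (vv q m) (c s) (c s) + c κ * (YY q m ζ k * YY' q m ζ k)) -
        gd q (c lam) (vv q m) (c s) (c s) := by ring
    rw [e]
    exact Ideal.sub_mem _ (Ideal.mem_sup_right h1) (Ideal.mem_sup_left h4)
  rw [YY'_eq hq hζ0] at h5
  set η : ℂ := -(ζ ^ (2 * k * (q - 1)))⁻¹ with hη
  have hη0 : η ≠ 0 := neg_ne_zero.mpr (inv_ne_zero (pow_ne_zero _ hζ0))
  have e2 : YY q m ζ k * YY q m ζ k =
      c (κ⁻¹ * η⁻¹) * (c κ * (YY q m ζ k * (c η * YY q m ζ k))) := by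
    have : c (κ⁻¹ * η⁻¹) * c κ * c η = 1 := by
      rw [← map_mul, ← map_mul]
      have : κ⁻¹ * η⁻¹ * κ * η = 1 := by field_simp
      rw [this, map_one]
    linear_combination (-(YY q m ζ k * YY q m ζ k)) * this
  rw [e2]
  exact Ideal.mul_mem_left _ _ h5

/-- the maximal ideal is generated by the Fourier coefficients -/
lemma MM_eq (hq3 : 3 ≤ q) (hq : q = 2 * m ∨ q = 2 * m + 1) {ζ : ℂ}
    (hζ : IsPrimitiveRoot ζ (2 * q)) :
    MM m = Ideal.span (Set.range fun k : Fin m => YY q m ζ (k.val + 1)) := by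
  have hζ0 : ζ ≠ 0 := hζ.ne_zero (by omega)
  have hqc : (q : ℂ) ≠ 0 := by exact_mod_cast (by omega : q ≠ 0)
  set c := algebraMap ℂ (MvPolynomial (Fin m) ℂ) with hc
  apply le_antisymm
  · unfold MM
    rw [Ideal.span_le]
    rintro _ ⟨l, rfl⟩
    have hl := l.2
    set J := Ideal.span (Set.range fun k : Fin m => YY q m ζ (k.val + 1)) with hJ
    have hY : ∀ k : ℕ, k < q → YY q m ζ k ∈ J := by
      intro k hk
      by_cases h0 : k = 0
      · subst h0
        have : YY q m ζ 0 = 0 := by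
          unfold YY
          simp only [mul_zero, zero_mul, pow_zero, map_one, mul_one]
          exact vv_sum hq
        rw [this]; exact Ideal.zero_mem _
      by_cases h1 : k ≤ m
      · exact Ideal.subset_span ⟨⟨k - 1, by omega⟩, by simp only; congr 1; omega⟩
      · -- k > m
        have h2 : YY q m ζ k = YY' q m ζ (q - k) := by
          unfold YY YY'
          refine Finset.sum_congr rfl fun j _ => ?_
          congr 2
          apply eq_inv_of_mul_eq_one_left
          rw [← pow_add]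
          have : 2 * k * j.val + 2 * (q - k) * j.val = (2 * q) * j.val := by
            rw [← add_mul]; congr 1; omega
          rw [this, pow_mul, hζ.pow_eq_one, one_pow]
        rw [h2, YY'_eq hq hζ0]
        apply Ideal.mul_mem_left
        exact Ideal.subset_span ⟨⟨q - k - 1, by omega⟩, by simp only; congr 1; omega⟩
    -- inversion
    have hinv : ∀ i : Fin q, c (q : ℂ) * vv q m i =
        ∑ k ∈ Finset.range q, c ((ζ ^ (2 * k * i.val))⁻¹) * YY q m ζ k := by
      intro i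
      unfold YY
      simp only [Finset.mul_sum]
      rw [Finset.sum_comm]
      rw [Finset.sum_eq_single i]
      · have : ∀ k ∈ Finset.range q, c ((ζ ^ (2 * k * i.val))⁻¹) *
            (vv q m i * c (ζ ^ (2 * k * i.val))) = vv q m i := by
          intro k _
          have : c ((ζ ^ (2 * k * i.val))⁻¹) * c (ζ ^ (2 * k * i.val)) = 1 := by
            rw [← map_mul, inv_mul_cancel₀ (pow_ne_zero _ hζ0), map_one]
          linear_combination (vv q m i) * this
        rw [Finset.sum_congr rfl this, Finset.sum_const, Finset.card_range, nsmul_eq_mul]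
        simp
      · intro j _ hji
        have e : ∀ k ∈ Finset.range q, c ((ζ ^ (2 * k * i.val))⁻¹) *
            (vv q m j * c (ζ ^ (2 * k * j.val))) =
            vv q m j * c (((ζ ^ (2 * i.val))⁻¹ * ζ ^ (2 * j.val)) ^ k) := by
          intro k _
          have : (((ζ ^ (2 * i.val))⁻¹ * ζ ^ (2 * j.val)) ^ k) =
              (ζ ^ (2 * k * i.val))⁻¹ * ζ ^ (2 * k * j.val) := by
            rw [mul_pow, inv_pow, ← pow_mul, ← pow_mul]
            congr 2
            · congr 1; ring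
            · ring
          rw [this, map_mul]; ring
        rw [Finset.sum_congr rfl e, ← Finset.mul_sum, ← map_sum]
        set η : ℂ := (ζ ^ (2 * i.val))⁻¹ * ζ ^ (2 * j.val) with hη
        have hη1 : η ≠ 1 := by
          intro h
          rw [hη, inv_mul_eq_one₀ (pow_ne_zero _ hζ0)] at h
          have hi := i.2
          have hj := j.2
          have := hζ.pow_inj (by omega) (by omega) h
          exact hji (Fin.ext (by omega))
        have hηq : η ^ q = 1 := by
          rw [hη, mul_pow, inv_pow, ← pow_mul, ← pow_mul]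
          have e1 : 2 * i.val * q = 2 * q * i.val := by ring
          have e2 : 2 * j.val * q = 2 * q * j.val := by ring
          rw [e1, e2, pow_mul ζ (2 * q) i.val, pow_mul ζ (2 * q) j.val, hζ.pow_eq_one, one_pow,
            one_pow]; simp
        have := geom_sum_mul η q
        rw [hηq, sub_self] at this
        rcases mul_eq_zero.mp this with h | h
        · rw [h, map_zero, mul_zero]
        · exact absurd (sub_eq_zero.mp h) hη1
      · simp
    have hXl : (X l : MvPolynomial (Fin m) ℂ) = vv q m ⟨l.val, by omega⟩ := by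
      unfold vv asym
      rw [dif_pos hl]
    have hmem : c (q : ℂ) * vv q m ⟨l.val, by omega⟩ ∈ J := by
      rw [hinv]
      exact Ideal.sum_mem _ fun k hk => Ideal.mul_mem_left _ _ (hY k (Finset.mem_range.mp hk))
    have e3 : (X l : MvPolynomial (Fin m) ℂ) =
        c ((q : ℂ)⁻¹) * (c (q : ℂ) * vv q m ⟨l.val, by omega⟩) := by
      rw [hXl, ← mul_assoc, ← map_mul, inv_mul_cancel₀ hqc, map_one, one_mul]
    show (X l : MvPolynomial (Fin m) ℂ) ∈ J
    rw [e3]
    exact Ideal.mul_mem_left _ _ hmem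
  · rw [Ideal.span_le]
    rintro _ ⟨k, rfl⟩
    exact Ideal.sum_mem _ fun j _ => Ideal.mul_mem_right _ _ (vv_mem j)

end Pool.Agent.X322.Iso
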