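import Pool.Agent.X322.Iso5

open Matrix Finset MvPolynomial
open scoped BigOperators Pointwise

namespace Pool.Agent.X322.Iso

variable {q m : ℕ}

lemma pigeon {A : Type*} [CommRing A] {m : ℕ} (Y : Fin m → A) (M I : Ideal A)
    (hM : M = Ideal.span (Set.range Y)) (hY : ∀ k, Y k * Y k ∈ I ⊔ M ^ 3) (hm : 1 ≤ m) :
    M ^ (m + 1) ≤ I ⊔ M ^ (m + 2) := by
  have hYM : ∀ k, Y k ∈ M := fun k => by rw [hM]; exact Ideal.subset_span ⟨k, rfl⟩
  conv_lhs => rw [hM]
  have h0 : Ideal.span (Set.range Y) ^ (m + 1) = Ideal.span ((Set.range Y) ^ (m + 1)) :=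
    Submodule.span_pow (R := A) (Set.range Y) (m + 1)
  rw [h0, Ideal.span_le]
  intro x hx
  rw [Set.mem_pow] at hx
  obtain ⟨f, hf⟩ := hx
  rw [List.prod_ofFn] at hf
  choose g hg using fun i => (f i).2
  have hcard : Fintype.card (Fin m) < Fintype.card (Fin (m + 1)) := by simp
  obtain ⟨i, j, hij, hgij⟩ := Fintype.exists_ne_map_eq_of_card_lt g hcard
  have hcard2 : ({i, j} : Finset (Fin (m + 1))).card = 2 := Finset.card_pair hij
  have hsplit : x = (Y (g i) * Y (g i)) * ∏ l ∈ ({i, j} : Finset (Fin (m + 1)))ᶜ, (f l : A) := by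
    rw [← hf, ← Finset.prod_mul_prod_compl ({i, j} : Finset (Fin (m + 1))), Finset.prod_pair hij,
      ← hg i, ← hg j, hgij]
  have hrest : ∏ l ∈ ({i, j} : Finset (Fin (m + 1)))ᶜ, (f l : A) ∈ M ^ (m - 1) := by
    have h := Ideal.prod_mem_prod (s := ({i, j} : Finset (Fin (m + 1)))ᶜ) (I := fun _ => M)
      (x := fun l => (f l : A)) (fun l _ => by rw [← hg l]; exact hYM _)
    rw [Finset.prod_const, Finset.card_compl, hcard2, Fintype.card_fin] at h
    have : m + 1 - 2 = m - 1 := by omega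
    rwa [this] at h
  show x ∈ I ⊔ M ^ (m + 2)
  rw [hsplit]
  obtain ⟨a, ha, b, hb, hab⟩ := Submodule.mem_sup.mp (hY (g i))
  rw [← hab, add_mul]
  refine Ideal.add_mem _ (Ideal.mem_sup_left (Ideal.mul_mem_right _ _ ha)) (Ideal.mem_sup_right ?_)
  have : M ^ (m + 2) = M ^ 3 * M ^ (m - 1) := by rw [← pow_add]; congr 1; omega
  rw [this]
  exact Ideal.mul_mem_mul hb hrest

lemma pow_le_of_nil {A : Type*} [CommRing A] {n N : ℕ} (M I : Ideal A)
    (h : M ^ n ≤ I ⊔ M ^ (n + 1)) (hN : M ^ N ≤ I) : M ^ n ≤ I := by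
  have key : ∀ j, M ^ n ≤ I ⊔ M ^ (n + j) := by
    intro j
    induction j with
    | zero => exact le_sup_right
    | succ j ih =>
      refine ih.trans (sup_le le_sup_left ?_)
      have h2 : M ^ (n + j) = M ^ j * M ^ n := by rw [← pow_add, add_comm]
      rw [h2]
      refine (Ideal.mul_mono_right h).trans ?_
      rw [Ideal.mul_sup]
      refine sup_le_sup Ideal.mul_le_right (le_of_eq ?_)
      rw [← pow_add]; congr 1; omega
  refine (key N).trans (sup_le le_rfl ?_)
  rw [pow_add]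
  exact Ideal.mul_le_right.trans hN

/-- the Vandermonde-like matrix -/
noncomputable def VW (q m : ℕ) : Matrix (Fin m) (Fin m) (MvPolynomial (Fin m) ℂ) :=
  Matrix.of fun i k => X i ^ (q - 2 * (k.val + 1))

lemma det_mul_mem (hq3 : 3 ≤ q) (hq : q = 2 * m ∨ q = 2 * m + 1) {h : MvPolynomial (Fin m) ℂ}
    (hh : h ∈ II q m) : (VW q m).det * h ∈ Ideal.span (Set.range (RR q m)) := by
  set J := Ideal.span (Set.range (RR q m)) with hJ
  have hR : ∀ i, RR q m i = - ∑ k, VW q m i k * PP q m k := by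
    intro i
    unfold RR
    rw [FP_eval_eq hq3 hq]
    congr 1
    refine Finset.sum_congr rfl fun k _ => ?_
    simp only [VW, Matrix.of_apply]; ring
  have hR2 : (VW q m).mulVec (PP q m) = fun i => - RR q m i := by
    funext i
    rw [hR i, neg_neg]; rfl
  have hdet : ∀ k, (VW q m).det * PP q m k ∈ J := by
    intro k
    have e1 : (VW q m).adjugate.mulVec ((VW q m).mulVec (PP q m)) =
        (VW q m).det • PP q m := by
      rw [Matrix.mulVec_mulVec, Matrix.adjugate_mul, Matrix.smul_mulVec, Matrix.one_mulVec]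
    have e2 := congrFun e1 k
    rw [Pi.smul_apply, smul_eq_mul] at e2
    rw [← e2, hR2]
    unfold Matrix.mulVec dotProduct
    refine Ideal.sum_mem _ fun i _ => Ideal.mul_mem_left _ _ ?_
    exact (Ideal.neg_mem_iff _).mpr (Ideal.subset_span ⟨i, rfl⟩)
  unfold II at hh
  rw [Ideal.mem_span_range_iff_exists_fun] at hh
  obtain ⟨a, ha⟩ := hh
  rw [← ha, Finset.mul_sum]
  refine Ideal.sum_mem _ fun k _ => ?_
  have : (VW q m).det * (a k * PP q m k) = a k * ((VW q m).det * PP q m k) := by ring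
  rw [this]
  exact Ideal.mul_mem_left _ _ (hdet k)

/-- exponent vector attached to a permutation -/
noncomputable def ee (q m : ℕ) (σ : Equiv.Perm (Fin m)) : Fin m →₀ ℕ :=
  Finsupp.equivFunOnFinite.symm fun l => q - 2 * ((σ⁻¹ l).val + 1)

lemma VW_det : (VW q m).det = ∑ σ : Equiv.Perm (Fin m), Equiv.Perm.sign σ •
    (monomial (ee q m σ) (1 : ℂ)) := by
  rw [Matrix.det_apply]
  refine Finset.sum_congr rfl fun σ _ => ?_
  congr 1
  rw [monomial_eq, C_1, one_mul, Finsupp.prod_fintype _ _ (by simp)]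
  rw [← Equiv.prod_comp σ (fun l => (X l : MvPolynomial (Fin m) ℂ) ^ (ee q m σ) l)]
  refine Finset.prod_congr rfl fun k _ => ?_
  simp [VW, ee]

lemma ee_inj (hq : q = 2 * m ∨ q = 2 * m + 1) {σ τ : Equiv.Perm (Fin m)}
    (h : ee q m σ = ee q m τ) : σ = τ := by
  have h2 : ∀ l, (σ⁻¹ l) = (τ⁻¹ l) := by
    intro l
    have := DFunLike.congr_fun h l
    simp only [ee, Finsupp.equivFunOnFinite_symm_apply_apply] at this
    have h3 := (σ⁻¹ l).2
    have h4 := (τ⁻¹ l).2
    exact Fin.ext (by omega)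
  have : σ⁻¹ = τ⁻¹ := Equiv.ext h2
  exact inv_injective this

lemma ee_degree (σ : Equiv.Perm (Fin m)) :
    (ee q m σ).degree = ∑ k : Fin m, (q - 2 * (k.val + 1)) := by
  rw [Finsupp.degree_eq_sum]
  simp only [ee, Finsupp.equivFunOnFinite_symm_apply_apply]
  exact Equiv.sum_comp σ⁻¹ (fun k : Fin m => q - 2 * (k.val + 1))

theorem no_contain (hm : 2 ≤ m) (hq3 : 3 ≤ q) (hq : q = 2 * m ∨ q = 2 * m + 1) :
    ¬ (MM m ^ (m + 1) ≤ II q m) := by
  intro hle
  set i0 : Fin m := ⟨0, by omega⟩ with hi0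
  have h0 : (X i0 : MvPolynomial (Fin m) ℂ) ∈ MM m := by
    unfold MM
    exact Ideal.subset_span ⟨i0, rfl⟩
  have h1 : (X i0 : MvPolynomial (Fin m) ℂ) ^ (m + 1) ∈ II q m :=
    hle (Ideal.pow_mem_pow h0 _)
  have h2 := det_mul_mem hq3 hq h1
  set D := ∑ k : Fin m, (q - 2 * (k.val + 1)) with hD
  have hhom : ((VW q m).det * X i0 ^ (m + 1)).IsHomogeneous (D + (m + 1)) := by
    refine IsHomogeneous.mul ?_ (by simpa using (isHomogeneous_X ℂ i0).pow (m + 1))
    rw [VW_det]
    refine IsHomogeneous.sum _ _ _ fun σ _ => ?_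
    have h3 : (monomial (ee q m σ) (1 : ℂ)).IsHomogeneous D :=
      isHomogeneous_monomial _ (ee_degree (q := q) σ)
    rcases Int.units_eq_one_or (Equiv.Perm.sign σ) with h | h
    · rw [h, one_smul]; exact h3
    · rw [h, Units.neg_smul, one_smul]; exact h3.neg
  have hnf := normal_form (by omega : 0 < q) (RR_low hq3 hq) hhom h2
  set τ : Equiv.Perm (Fin m) := Fin.revPerm with hτ
  set c : Fin m →₀ ℕ := ee q m τ + Finsupp.single i0 (m + 1) with hc
  have hcoef : coeff c ((VW q m).det * X i0 ^ (m + 1)) ≠ 0 := by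
    rw [X_pow_eq_monomial, coeff_mul_monomial, mul_one, VW_det, coeff_sum]
    rw [Finset.sum_eq_single τ]
    · rcases Int.units_eq_one_or (Equiv.Perm.sign τ) with h | h
      · rw [h, one_smul, coeff_monomial, if_pos rfl]; exact one_ne_zero
      · rw [h, Units.neg_smul, one_smul, coeff_neg, coeff_monomial, if_pos rfl]
        exact neg_ne_zero.mpr one_ne_zero
    · intro σ _ hσ
      have hne : ee q m σ ≠ ee q m τ := fun h => hσ (ee_inj hq h)
      rcases Int.units_eq_one_or (Equiv.Perm.sign σ) with h | h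
      · rw [h, one_smul, coeff_monomial, if_neg hne]
      · rw [h, Units.neg_smul, one_smul, coeff_neg, coeff_monomial, if_neg hne, neg_zero]
    · simp
  obtain ⟨i, hi⟩ := hnf c (mem_support_iff.mpr hcoef)
  have hτinv : ∀ l : Fin m, ((τ⁻¹ l).val) = m - 1 - l.val := by
    intro l
    have : τ⁻¹ l = Fin.rev l := by
      rw [Equiv.Perm.inv_eq_iff_eq]; simp [hτ]
    rw [this, Fin.val_rev]; omega
  have hci : c i = (q - 2 * (m - 1 - i.val + 1)) + (if i = i0 then m + 1 else 0) := by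
    rw [hc, Finsupp.add_apply, Finsupp.single_apply]
    simp only [ee, Finsupp.equivFunOnFinite_symm_apply_apply, hτinv]
    congr 1
    by_cases h : i = i0
    · simp [h]
    · have : ¬ (i0 = i) := fun h' => h h'.symm
      simp [h, this]
  rw [hci] at hi
  have hi2 := i.2
  by_cases h : i = i0
  · rw [if_pos h] at hi
    have : i.val = 0 := by rw [h]
    omega
  · rw [if_neg h] at hi
    omega

/-- existence of a nonzero point -/
theorem exists_point (hm : 2 ≤ m) (hq : q = 2 * m ∨ q = 2 * m + 1) :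
    ∃ u : Fin m → ℂ, u ≠ 0 ∧ FP q (asym q m u) = 0 := by
  have hq3 : 3 ≤ q := by omega
  by_contra hcon
  push Not at hcon
  obtain ⟨ζ, hζ⟩ : ∃ ζ : ℂ, IsPrimitiveRoot ζ (2 * q) :=
    ⟨_, Complex.isPrimitiveRoot_exp (2 * q) (by omega)⟩
  have hrad : MM m ≤ (II q m).radical := by
    rw [← vanishingIdeal_zeroLocus_eq_radical (K := ℂ)]
    unfold MM
    rw [Ideal.span_le]
    rintro _ ⟨i, rfl⟩
    show (X i : MvPolynomial (Fin m) ℂ) ∈ vanishingIdeal ℂ (zeroLocus ℂ (II q m))
    rw [mem_vanishingIdeal_iff]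
    intro u hu
    have hu0 : u = 0 := by
      by_contra hne
      apply hcon u hne
      -- all coefficients vanish
      have hmap : (FP q (vv q m)).map (aeval u : MvPolynomial (Fin m) ℂ →ₐ[ℂ] ℂ).toRingHom =
          FP q (asym q m u) := by
        rw [FP_map]
        congr 1
        funext j
        unfold vv
        rw [asym_map]
        simp
      rw [← hmap]
      ext n
      rw [Polynomial.coeff_map, Polynomial.coeff_zero]
      have hmemn : (FP q (vv q m)).coeff n ∈ II q m := by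
        by_cases hn : q ≤ n
        · rw [FP_coeff_ge q _ n hn]; exact Ideal.zero_mem _
        by_cases hodd : Odd (q + n)
        · rw [FP_coeff_odd hq3 (vv q m) (asym_rev hq X) n hodd]; exact Ideal.zero_mem _
        · rw [Nat.not_odd_iff_even] at hodd
          obtain ⟨t, ht⟩ := hodd
          apply Ideal.subset_span
          refine ⟨⟨(q - n) / 2 - 1, by omega⟩, ?_⟩
          unfold PP
          congr 1
          simp only
          omega
      exact hu _ hmemn
    rw [hu0]
    simp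
  have hfg : (MM m).FG := (isNoetherianRing_iff_ideal_fg _).mp inferInstance _
  obtain ⟨N, hN⟩ := Ideal.exists_pow_le_of_le_radical_of_fg hrad hfg
  have h1 := pigeon (fun k : Fin m => YY q m ζ (k.val + 1)) (MM m) (II q m) (MM_eq hq3 hq hζ)
    (fun k => YY_sq_mem hq3 hq hζ (by omega) (by have := k.2; omega)) (by omega)
  exact no_contain hm hq3 hq (pow_le_of_nil (MM m) (II q m) h1 hN)

theorem main (q : ℕ) (hq : 3 < q) :
    ∃ V : Fin q → ℂ, V ≠ 0 ∧ (∀ j, V j = - V (Fin.rev j)) ∧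
      ∀ z : ℂ, z ≠ 0 → (flo q V z z⁻¹).charpoly = (flo q 0 z z⁻¹).charpoly := by
  obtain ⟨m, hm⟩ : ∃ m, q = 2 * m ∨ q = 2 * m + 1 := ⟨q / 2, by omega⟩
  have hm2 : 2 ≤ m := by omega
  obtain ⟨u, hu0, hu⟩ := exists_point hm2 hm
  refine ⟨asym q m u, ?_, ?_, ?_⟩
  · intro h
    apply hu0
    funext l
    have hl := l.2
    have := congrFun h ⟨l.val, by omega⟩
    unfold asym at this
    rw [dif_pos hl] at this
    exact this
  · intro j
    rw [asym_rev hm, neg_neg]
  · intro z hz
    rw [← gd_charpoly, ← gd_charpoly]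
    have h0 : (fun j : Fin q => Polynomial.C ((0 : Fin q → ℂ) j)) = 0 := by funext j; simp
    rw [h0]
    have h1 := gd_indep q (by omega) (Polynomial.X : Polynomial ℂ)
      (fun j => Polynomial.C (asym q m u j)) 0
      (z := Polynomial.C z) (z' := Polynomial.C z⁻¹) (w := 1) (w' := 1)
      (by rw [← Polynomial.C_mul, mul_inv_cancel₀ hz, Polynomial.C_1]) (by simp)
    have h2 : gd q Polynomial.X (fun j => Polynomial.C (asym q m u j)) 1 1 -
        gd q Polynomial.X 0 1 1 = 0 := hu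
    rw [h2] at h1
    exact sub_eq_zero.mp h1

end Pool.Agent.X322.Iso
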