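import Mathlib

/-! The Kalton-Peck map on all of `ℓ²`, with values in all sequences. -/

set_option autoImplicit false

namespace Pool.Agent.X322.KP

open scoped ENNReal

/-- The real Hilbert space `ℓ²`. -/
abbrev E := lp (fun _ : ℕ => ℝ) 2

/-- `t ↦ t log |t|` -/
noncomputable def eta (t : ℝ) : ℝ := t * Real.log t

lemma eta_zero : eta 0 = 0 := by simp [eta]

lemma eta_neg (t : ℝ) : eta (-t) = - eta t := by simp [eta]

lemma eta_mul (a t : ℝ) : eta (a * t) = a * eta t + t * eta a := by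
  rcases eq_or_ne a 0 with rfl | ha
  · simp [eta]
  rcases eq_or_ne t 0 with rfl | ht
  · simp [eta]
  unfold eta
  rw [Real.log_mul ha ht]
  ring

lemma eta_continuous : Continuous eta := Real.continuous_mul_log

lemma log_le_sqrt {s : ℝ} (hs : 0 ≤ s) : Real.log (1 + s) ≤ 2 * Real.sqrt s := by
  have h1 : Real.log (1 + s) = 2 * Real.log (Real.sqrt (1 + s)) := by
    rw [Real.log_sqrt (by linarith)]; ring
  rw [h1]
  have h2 : Real.log (Real.sqrt (1 + s)) ≤ Real.sqrt (1 + s) - 1 :=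
    Real.log_le_sub_one_of_pos (Real.sqrt_pos.2 (by linarith))
  have h3 : Real.sqrt (1 + s) ≤ 1 + Real.sqrt s := by
    rw [Real.sqrt_le_left (by positivity)]
    nlinarith [Real.sq_sqrt hs, Real.sqrt_nonneg s]
  linarith

lemma eta_pos {a b : ℝ} (ha : 0 ≤ a) (hb : 0 ≤ b) :
    0 ≤ eta (a + b) - eta a - eta b ∧ eta (a + b) - eta a - eta b ≤ 4 * Real.sqrt (a * b) := by
  rcases ha.eq_or_lt with rfl | ha
  · simp [eta_zero]
  rcases hb.eq_or_lt with rfl | hb
  · simp [eta_zero]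
  have key : ∀ a b : ℝ, 0 < a → 0 < b →
      0 ≤ a * (Real.log (a + b) - Real.log a) ∧
        a * (Real.log (a + b) - Real.log a) ≤ 2 * Real.sqrt (a * b) := by
    intro a b ha hb
    have h1 : Real.log (a + b) - Real.log a = Real.log (1 + b / a) := by
      rw [← Real.log_div (by positivity) (by positivity)]
      congr 1
      field_simp
    rw [h1]
    refine ⟨mul_nonneg ha.le (Real.log_nonneg ?_), ?_⟩
    · have : 0 ≤ b / a := by positivity
      linarith
    · have h2 := log_le_sqrt (show 0 ≤ b / a by positivity)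
      calc a * Real.log (1 + b / a) ≤ a * (2 * Real.sqrt (b / a)) := by gcongr
        _ = 2 * Real.sqrt (a * b) := by
          have : a * b = a ^ 2 * (b / a) := by field_simp
          rw [this, Real.sqrt_mul (by positivity), Real.sqrt_sq ha.le]; ring
  have h1 := key a b ha hb
  have h2 := key b a hb ha
  rw [add_comm b a, mul_comm b a] at h2
  have h3 : eta (a + b) - eta a - eta b = a * (Real.log (a + b) - Real.log a) +
      b * (Real.log (a + b) - Real.log b) := by
    unfold eta; ring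
  rw [h3]
  exact ⟨add_nonneg h1.1 h2.1, by linarith [h1.2, h2.2]⟩

lemma eta_quasi (a b : ℝ) : |eta (a + b) - eta a - eta b| ≤ 4 * Real.sqrt (|a| * |b|) := by
  have mixed : ∀ a b : ℝ, 0 ≤ a → b ≤ 0 →
      |eta (a + b) - eta a - eta b| ≤ 4 * Real.sqrt (|a| * |b|) := by
    intro a b ha hb
    rw [abs_of_nonneg ha, abs_of_nonpos hb]
    rcases le_total (-b) a with h | h
    · have h1 := eta_pos (a := a + b) (b := -b) (by linarith) (by linarith)
      have e : a + b + -b = a := by ring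
      rw [e, eta_neg] at h1
      have h2 : Real.sqrt ((a + b) * -b) ≤ Real.sqrt (a * -b) := by
        apply Real.sqrt_le_sqrt
        nlinarith
      rw [abs_le]
      constructor <;> nlinarith [h1.1, h1.2]
    · have h1 := eta_pos (a := -b - a) (b := a) (by linarith) (by linarith)
      have e : -b - a + a = -b := by ring
      have e2 : -b - a = -(a + b) := by ring
      rw [e, e2, eta_neg, eta_neg] at h1
      have h2 : Real.sqrt (-(a + b) * a) ≤ Real.sqrt (a * -b) := by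
        apply Real.sqrt_le_sqrt
        nlinarith
      rw [abs_le]
      constructor <;> nlinarith [h1.1, h1.2]
  rcases le_total 0 a with ha | ha <;> rcases le_total 0 b with hb | hb
  · have h := eta_pos ha hb
    rw [abs_of_nonneg h.1, abs_of_nonneg ha, abs_of_nonneg hb]
    exact h.2
  · exact mixed a b ha hb
  · have h := mixed b a hb ha
    have e : eta (b + a) - eta b - eta a = eta (a + b) - eta a - eta b := by
      rw [add_comm b a]; ring
    rw [e, mul_comm |b| |a|] at h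
    exact h
  · have h := eta_pos (a := -a) (b := -b) (by linarith) (by linarith)
    have e : -a + -b = -(a + b) := by ring
    rw [e, eta_neg, eta_neg, eta_neg] at h
    rw [abs_of_nonpos (by linarith [h.1]), abs_of_nonpos ha, abs_of_nonpos hb]
    linarith [h.2]

/-! ### sequences in `ℓ²` -/

lemma sum_sq_le (x : E) (s : Finset ℕ) : ∑ n ∈ s, (x n) ^ 2 ≤ ‖x‖ ^ 2 := by
  have h := lp.sum_rpow_le_norm_rpow (p := 2) (by norm_num) x s
  have e : (2 : ℝ≥0∞).toReal = 2 := by norm_num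
  simp only [e] at h
  have e2 : ∀ t : ℝ, ‖t‖ ^ (2 : ℝ) = t ^ 2 := fun t => by
    rw [Real.rpow_two, Real.norm_eq_abs, sq_abs]
  simp only [e2] at h
  have e3 : ‖x‖ ^ (2 : ℝ) = ‖x‖ ^ 2 := Real.rpow_two _
  rw [e3] at h
  exact h

lemma abs_le_norm (x : E) (n : ℕ) : |x n| ≤ ‖x‖ := by
  have h := sum_sq_le x {n}
  rw [Finset.sum_singleton] at h
  exact abs_le_of_sq_le_sq' h (norm_nonneg _) |> fun h => abs_le.2 h

/-- a sequence with bounded partial sums of squares is in `ℓ²` -/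
lemma mk (f : ℕ → ℝ) (C : ℝ) (hC : 0 ≤ C) (h : ∀ s : Finset ℕ, ∑ n ∈ s, (f n) ^ 2 ≤ C ^ 2) :
    ∃ x : E, (∀ n, x n = f n) ∧ ‖x‖ ≤ C := by
  have e : (2 : ℝ≥0∞).toReal = 2 := by norm_num
  have e2 : ∀ t : ℝ, ‖t‖ ^ (2 : ℝ) = t ^ 2 := fun t => by
    rw [Real.rpow_two, Real.norm_eq_abs, sq_abs]
  have hm : Memℓp (E := fun _ : ℕ => ℝ) f 2 := by
    apply memℓp_gen' (C := C ^ 2)
    intro s
    simp only [e, e2]
    exact h s
  refine ⟨⟨f, hm⟩, fun n => rfl, ?_⟩
  apply lp.norm_le_of_forall_sum_le (by norm_num) hC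
  intro s
  simp only [e]
  rw [Real.rpow_two]
  have := h s
  simpa only [e2] using this

lemma norm_le_of (x : E) (C : ℝ) (hC : 0 ≤ C) (h : ∀ s : Finset ℕ, ∑ n ∈ s, (x n) ^ 2 ≤ C ^ 2) :
    ‖x‖ ≤ C := by
  obtain ⟨y, hy, hn⟩ := mk (fun n => x n) C hC h
  have : x = y := by
    ext n; exact (hy n).symm
  rw [this]; exact hn

/-- the defect of `eta` on two sequences of `ℓ²` -/
lemma exists_G (x y : E) : ∃ g : E, (∀ n, g n = eta (x n + y n) - eta (x n) - eta (y n)) ∧
    ‖g‖ ≤ 4 * Real.sqrt (‖x‖ * ‖y‖) := by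
  apply mk _ _ (by positivity)
  intro s
  have h1 : ∀ n ∈ s, (eta (x n + y n) - eta (x n) - eta (y n)) ^ 2 ≤ 16 * (|x n| * |y n|) := by
    intro n _
    have h := eta_quasi (x n) (y n)
    have h0 := abs_nonneg (eta (x n + y n) - eta (x n) - eta (y n))
    rw [← sq_abs]
    calc |eta (x n + y n) - eta (x n) - eta (y n)| ^ 2
        ≤ (4 * Real.sqrt (|x n| * |y n|)) ^ 2 := by gcongr
      _ = 16 * (|x n| * |y n|) := by
        rw [mul_pow, Real.sq_sqrt (by positivity)]; ring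
  refine (Finset.sum_le_sum h1).trans ?_
  rw [← Finset.mul_sum, mul_pow, Real.sq_sqrt (by positivity)]
  have h2 : ∑ n ∈ s, |x n| * |y n| ≤ ‖x‖ * ‖y‖ := by
    have h3 := Finset.sum_mul_sq_le_sq_mul_sq s (fun n => |x n|) (fun n => |y n|)
    simp only [sq_abs] at h3
    have h4 := sum_sq_le x s
    have h5 := sum_sq_le y s
    have h6 : (∑ n ∈ s, |x n| * |y n|) ^ 2 ≤ (‖x‖ * ‖y‖) ^ 2 := by
      rw [mul_pow]
      exact h3.trans (mul_le_mul h4 h5 (Finset.sum_nonneg fun _ _ => sq_nonneg _) (by positivity))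
    exact abs_le_of_sq_le_sq' h6 (by positivity) |>.2
  nlinarith

/-! ### the Kalton-Peck map -/

/-- `x ↦ (x_n log (‖x‖ / |x_n|))_n` -/
noncomputable def F (x : E) (n : ℕ) : ℝ := x n * Real.log (‖x‖ / |x n|)

lemma F_eq (x : E) (n : ℕ) : F x n = x n * Real.log ‖x‖ - eta (x n) := by
  unfold F eta
  rcases eq_or_ne (x n) 0 with h | h
  · simp [h]
  · have hx : ‖x‖ ≠ 0 := by
      have := abs_le_norm x n
      have h1 : 0 < |x n| := abs_pos.2 h
      linarith
    rw [Real.log_div hx (by simpa using h), Real.log_abs]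
    ring

lemma F_smul (c : ℝ) (x : E) (n : ℕ) : F (c • x) n = c * F x n := by
  unfold F
  rcases eq_or_ne c 0 with rfl | hc
  · simp
  · have hc' : |c| ≠ 0 := by simpa using hc
    have e : (c • x) n = c * x n := rfl
    rw [e, norm_smul, abs_mul, Real.norm_eq_abs, mul_div_mul_left _ _ hc']
    ring

lemma F_neg (x : E) (n : ℕ) : F (-x) n = - F x n := by
  have := F_smul (-1) x n
  simpa using this

/-- the vector `x log ‖x‖` -/
lemma H_quasi (x y : E) :
    ‖Real.log ‖x + y‖ • (x + y) - Real.log ‖x‖ • x - Real.log ‖y‖ • y‖ ≤ 3 * (‖x‖ + ‖y‖) := by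
  have hN0 : 0 ≤ ‖x‖ + ‖y‖ := by positivity
  rcases hN0.eq_or_lt with h0 | hN
  · have hx : ‖x‖ = 0 := by linarith [norm_nonneg x, norm_nonneg y]
    have hy : ‖y‖ = 0 := by linarith [norm_nonneg x, norm_nonneg y]
    rw [norm_eq_zero] at hx hy
    subst hx hy
    simp
  set N := ‖x‖ + ‖y‖ with hNdef
  have key : ∀ z : E, ‖z‖ ≤ N → ‖(Real.log ‖z‖ - Real.log N) • z‖ ≤ N := by
    intro z hz
    rcases eq_or_ne z 0 with rfl | hz0
    · simpa using hN.le
    have hzp : 0 < ‖z‖ := norm_pos_iff.2 hz0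
    rw [norm_smul, ← Real.log_div hzp.ne' hN.ne', Real.norm_eq_abs]
    have h1 : |Real.log (‖z‖ / N) * (‖z‖ / N)| < 1 :=
      Real.abs_log_mul_self_lt _ (by positivity) ((div_le_one hN).2 hz)
    rw [abs_mul, abs_of_pos (show 0 < ‖z‖ / N by positivity)] at h1
    have h2 : |Real.log (‖z‖ / N)| * ‖z‖ = (|Real.log (‖z‖ / N)| * (‖z‖ / N)) * N := by
      field_simp
    rw [h2]
    nlinarith
  have e : Real.log ‖x + y‖ • (x + y) - Real.log ‖x‖ • x - Real.log ‖y‖ • y
      = (Real.log ‖x + y‖ - Real.log N) • (x + y) - (Real.log ‖x‖ - Real.log N) • x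
        - (Real.log ‖y‖ - Real.log N) • y := by
    module
  rw [e]
  have h1 := key (x + y) (norm_add_le x y)
  have h2 := key x (by rw [hNdef]; linarith [norm_nonneg y])
  have h3 := key y (by rw [hNdef]; linarith [norm_nonneg x])
  calc _ ≤ ‖(Real.log ‖x + y‖ - Real.log N) • (x + y) - (Real.log ‖x‖ - Real.log N) • x‖
        + ‖(Real.log ‖y‖ - Real.log N) • y‖ := norm_sub_le _ _
    _ ≤ ‖(Real.log ‖x + y‖ - Real.log N) • (x + y)‖ + ‖(Real.log ‖x‖ - Real.log N) • x‖
        + ‖(Real.log ‖y‖ - Real.log N) • y‖ := by gcongr; exact norm_sub_le _ _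
    _ ≤ 3 * N := by linarith

/-- quasi-linearity of the Kalton-Peck map -/
lemma F_quasi (x y : E) : ∃ d : E, (∀ n, d n = F (x + y) n - F x n - F y n) ∧
    ‖d‖ ≤ 5 * (‖x‖ + ‖y‖) := by
  obtain ⟨g, hg, hgn⟩ := exists_G x y
  refine ⟨(Real.log ‖x + y‖ • (x + y) - Real.log ‖x‖ • x - Real.log ‖y‖ • y) - g, ?_, ?_⟩
  · intro n
    have e : ((Real.log ‖x + y‖ • (x + y) - Real.log ‖x‖ • x - Real.log ‖y‖ • y) - g : E) n
        = (Real.log ‖x + y‖ * (x n + y n) - Real.log ‖x‖ * x n - Real.log ‖y‖ * y n) - g n := rfl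
    have e2 : (x + y : E) n = x n + y n := rfl
    rw [e, hg, F_eq, F_eq, F_eq, e2]
    ring
  · have h1 := H_quasi x y
    have h2 : 4 * Real.sqrt (‖x‖ * ‖y‖) ≤ 2 * (‖x‖ + ‖y‖) := by
      have : Real.sqrt (‖x‖ * ‖y‖) ≤ (‖x‖ + ‖y‖) / 2 := by
        rw [Real.sqrt_le_left (by positivity)]
        nlinarith [sq_nonneg (‖x‖ - ‖y‖)]
      linarith
    calc _ ≤ ‖Real.log ‖x + y‖ • (x + y) - Real.log ‖x‖ • x - Real.log ‖y‖ • y‖ + ‖g‖ :=
          norm_sub_le _ _
      _ ≤ 5 * (‖x‖ + ‖y‖) := by linarith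

/-! ### truncation -/

/-- the tail of a sequence -/
lemma exists_tail (x : E) (ε : ℝ) (hε : 0 < ε) : ∃ m : ℕ, ∀ s : Finset ℕ, (∀ n ∈ s, m ≤ n) →
    ∑ n ∈ s, (x n) ^ 2 ≤ ε ^ 2 := by
  have hs : Summable (fun n => (x n) ^ 2) :=
    summable_of_sum_le (fun n => sq_nonneg _) (fun s => sum_sq_le x s)
  have h := hs.tsum_vanishing (e := Set.Iio (ε ^ 2)) (Iio_mem_nhds (by positivity))
  obtain ⟨t, ht⟩ := h
  refine ⟨t.sup id + 1, fun s hs' => ?_⟩
  have hd : Disjoint (s : Set ℕ) (t : Set ℕ) := by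
    rw [Set.disjoint_left]
    intro n hn hn'
    have h1 := hs' n (by simpa using hn)
    have h2 : n ≤ t.sup id := Finset.le_sup (f := id) (by simpa using hn')
    omega
  have h3 := ht (s : Set ℕ) hd
  have h4 : ∑' b : ((s : Set ℕ) : Type), (x (b : ℕ)) ^ 2 = ∑ n ∈ s, (x n) ^ 2 :=
    Finset.tsum_subtype' s (fun n => (x n) ^ 2)
  rw [h4] at h3
  exact (Set.mem_Iio.1 h3).le

lemma G_small (x y : E) (m : ℕ) (ε : ℝ) (hε : 0 ≤ ε)
    (hx : ∀ s : Finset ℕ, (∀ n ∈ s, m ≤ n) → ∑ n ∈ s, (x n) ^ 2 ≤ ε ^ 2)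
    (hy : ∀ n < m, y n = 0) (hy1 : ‖y‖ ≤ 1) :
    ∃ g : E, (∀ n, g n = eta (x n + y n) - eta (x n) - eta (y n)) ∧
      ‖g‖ ≤ 4 * Real.sqrt ε := by
  obtain ⟨g, hg, -⟩ := exists_G x y
  refine ⟨g, hg, norm_le_of g _ (by positivity) ?_⟩
  intro s
  have h1 : ∀ n ∈ s, (g n) ^ 2 ≤ 16 * (|x n| * |y n|) := by
    intro n _
    rw [hg]
    have h := eta_quasi (x n) (y n)
    have h0 := abs_nonneg (eta (x n + y n) - eta (x n) - eta (y n))
    rw [← sq_abs]
    calc |eta (x n + y n) - eta (x n) - eta (y n)| ^ 2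
        ≤ (4 * Real.sqrt (|x n| * |y n|)) ^ 2 := by gcongr
      _ = 16 * (|x n| * |y n|) := by
        rw [mul_pow, Real.sq_sqrt (by positivity)]; ring
  refine (Finset.sum_le_sum h1).trans ?_
  rw [← Finset.mul_sum, mul_pow, Real.sq_sqrt hε]
  have h2 : ∑ n ∈ s, |x n| * |y n| = ∑ n ∈ s.filter (fun n => m ≤ n), |x n| * |y n| := by
    rw [Finset.sum_filter]
    refine Finset.sum_congr rfl fun n _ => ?_
    split_ifs with h
    · rfl
    · rw [hy n (not_le.1 h)]; simp
  have h3 := Finset.sum_mul_sq_le_sq_mul_sq (s.filter (fun n => m ≤ n))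
    (fun n => |x n|) (fun n => |y n|)
  simp only [sq_abs] at h3
  have h4 := hx (s.filter (fun n => m ≤ n)) (fun n hn => (Finset.mem_filter.1 hn).2)
  have h5 := sum_sq_le y (s.filter (fun n => m ≤ n))
  have h6 : (∑ n ∈ s.filter (fun n => m ≤ n), |x n| * |y n|) ^ 2 ≤ ε ^ 2 := by
    calc _ ≤ _ := h3
      _ ≤ ε ^ 2 * ‖y‖ ^ 2 := mul_le_mul h4 h5 (Finset.sum_nonneg fun _ _ => sq_nonneg _)
        (by positivity)
      _ ≤ ε ^ 2 * 1 ^ 2 := by gcongr
      _ = ε ^ 2 := by ring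
  have h7 := abs_le_of_sq_le_sq' h6 hε |>.2
  rw [h2]
  linarith

/-! ### the Kalton-Peck map modulo a linear map -/

/-- coordinates, as a linear map -/
def coeL : E →ₗ[ℝ] (ℕ → ℝ) where
  toFun x n := x n
  map_add' _ _ := rfl
  map_smul' _ _ := rfl

lemma exists_lift : ∃ L : E →ₗ[ℝ] (ℕ → ℝ), ∀ x : E, ∃ w : E, ∀ n, w n = F x n - L x n := by
  set R := LinearMap.range coeL with hR
  let Fbar : E →ₗ[ℝ] ((ℕ → ℝ) ⧸ R) :=
    { toFun := fun x => R.mkQ (F x)
      map_add' := by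
        intro x y
        rw [← map_add, ← sub_eq_zero, ← map_sub, Submodule.mkQ_apply,
          Submodule.Quotient.mk_eq_zero]
        obtain ⟨d, hd, -⟩ := F_quasi x y
        refine ⟨d, ?_⟩
        funext n
        show d n = F (x + y) n - (F x n + F y n)
        rw [hd]; ring
      map_smul' := by
        intro c x
        have : F (c • x) = c • F x := by
          funext n; exact F_smul c x n
        rw [this, map_smul]; rfl }
  obtain ⟨g, hg⟩ := R.mkQ.exists_rightInverse_of_surjective (Submodule.range_mkQ R)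
  refine ⟨g ∘ₗ Fbar, fun x => ?_⟩
  have h1 : R.mkQ (F x - (g ∘ₗ Fbar) x) = 0 := by
    rw [map_sub]
    have : R.mkQ ((g ∘ₗ Fbar) x) = (R.mkQ ∘ₗ g) (Fbar x) := rfl
    rw [this, hg]
    exact sub_self _
  rw [Submodule.mkQ_apply, Submodule.Quotient.mk_eq_zero] at h1
  obtain ⟨w, hw⟩ := h1
  exact ⟨w, fun n => congrFun hw n⟩

/-- the Kalton-Peck map is singular -/
lemma singular (W : Submodule ℝ E) (hW : ¬ FiniteDimensional ℝ W) (M : W →ₗ[ℝ] (ℕ → ℝ))
    (r : W → E) (C : ℝ) (hr : ∀ (x : W) (n : ℕ), r x n = F (x : E) n - M x n)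
    (hC : ∀ x : W, ‖r x‖ ≤ C * ‖x‖) : False := by
  have hrneg : ∀ x : W, r (-x) = - r x := by
    intro x
    ext n
    have e : (-r x : E) n = - (r x n) := rfl
    rw [e, hr, hr, map_neg]
    have e2 : (((-x : W)) : E) = -(x : E) := rfl
    rw [e2, F_neg]
    show -F (x : E) n - (- M x n) = _
    ring
  have step : ∀ (s : W) (R : E) (m : ℕ), ∃ w : W, ‖(w : E)‖ = 1 ∧ (∀ n < m, (w : E) n = 0) ∧
      inner ℝ (s : E) (w : E) = 0 ∧ inner ℝ R (r w) ≤ 0 := by
    intro s R m
    have h1 : ∃ w : W, w ≠ 0 ∧ (∀ n < m, (w : E) n = 0) ∧ inner ℝ (s : E) (w : E) = 0 := by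
      by_contra hcon
      push Not at hcon
      let Φ : W →ₗ[ℝ] ((Fin m → ℝ) × ℝ) :=
        LinearMap.prod
          { toFun := fun w i => (w : E) i
            map_add' := fun _ _ => rfl
            map_smul' := fun _ _ => rfl }
          ((innerSL ℝ (s : E)).toLinearMap ∘ₗ W.subtype)
      have hinj : Function.Injective Φ := by
        rw [injective_iff_map_eq_zero]
        intro w hw
        by_contra hw0
        rw [Prod.ext_iff] at hw
        refine hcon w hw0 ?_ hw.2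
        intro n hn
        exact congrFun hw.1 ⟨n, hn⟩
      exact hW (Module.Finite.of_injective Φ hinj)
    obtain ⟨w, hw0, hwm, hws⟩ := h1
    have hwn : ‖(w : E)‖ ≠ 0 := by
      rw [norm_ne_zero_iff]
      intro h
      exact hw0 (Subtype.ext h)
    set v : W := (‖(w : E)‖⁻¹ : ℝ) • w with hv
    have hv1 : ‖(v : E)‖ = 1 := by
      rw [hv]
      show ‖(‖(w : E)‖⁻¹ : ℝ) • (w : E)‖ = 1
      rw [norm_smul, norm_inv, norm_norm, inv_mul_cancel₀ hwn]
    have hvm : ∀ n < m, (v : E) n = 0 := by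
      intro n hn
      show (‖(w : E)‖⁻¹ : ℝ) * (w : E) n = 0
      rw [hwm n hn, mul_zero]
    have hvs : inner ℝ (s : E) (v : E) = 0 := by
      rw [hv]
      show inner ℝ (s : E) ((‖(w : E)‖⁻¹ : ℝ) • (w : E)) = 0
      rw [inner_smul_right, hws, mul_zero]
    rcases le_total (inner ℝ R (r v)) 0 with h | h
    · exact ⟨v, hv1, hvm, hvs, h⟩
    · refine ⟨-v, ?_, ?_, ?_, ?_⟩
      · show ‖-(v : E)‖ = 1
        rw [norm_neg, hv1]
      · intro n hn
        show -((v : E) n) = 0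
        rw [hvm n hn, neg_zero]
      · show inner ℝ (s : E) (-(v : E)) = 0
        rw [inner_neg_right, hvs, neg_zero]
      · rw [hrneg, inner_neg_right]
        linarith
  have main : ∀ N : ℕ, ∃ (s : W) (R e : E), ‖(s : E)‖ ^ 2 = N ∧ ‖R‖ ^ 2 ≤ C ^ 2 * N ∧
      ‖e‖ ≤ 1 - (1 / 2 : ℝ) ^ N ∧ ∀ n, - eta ((s : E) n) = R n + M s n - e n := by
    intro N
    induction N with
    | zero =>
      refine ⟨0, 0, 0, by simp, by simp, by simp, ?_⟩
      intro n
      have e1 : ((0 : W) : E) n = 0 := rfl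
      have e2 : (0 : E) n = 0 := rfl
      rw [e1, e2, eta_zero, map_zero]
      simp
    | succ N ih =>
      obtain ⟨s, R, e, hs, hR, he, hse⟩ := ih
      set δ : ℝ := (1 / 2 : ℝ) ^ (N + 1) with hδ
      have hδ0 : 0 < δ := by positivity
      obtain ⟨m, hm⟩ := exists_tail (s : E) ((δ / 4) ^ 2) (by positivity)
      obtain ⟨w, hw1, hwm, hws, hwR⟩ := step s R m
      obtain ⟨g, hg, hgn⟩ := G_small (s : E) (w : E) m ((δ / 4) ^ 2) (by positivity) hm hwm hw1.le
      rw [Real.sqrt_sq (by positivity)] at hgn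
      have hgn' : ‖g‖ ≤ δ := by linarith
      refine ⟨s + w, R + r w, e + g, ?_, ?_, ?_, ?_⟩
      · show ‖(s : E) + (w : E)‖ ^ 2 = _
        rw [norm_add_sq_real, hs, hws, hw1]
        push_cast; ring
      · rw [norm_add_sq_real]
        have h1 : ‖r w‖ ≤ C := by
          have := hC w
          have e3 : ‖w‖ = ‖(w : E)‖ := rfl
          rw [e3, hw1, mul_one] at this
          exact this
        have h2 : ‖r w‖ ^ 2 ≤ C ^ 2 := by
          have := norm_nonneg (r w)
          nlinarith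
        push_cast
        nlinarith
      · have h3 : (1 / 2 : ℝ) ^ N = 2 * δ := by
          rw [hδ, pow_succ]; ring
        calc ‖e + g‖ ≤ ‖e‖ + ‖g‖ := norm_add_le _ _
          _ ≤ (1 - (1 / 2 : ℝ) ^ N) + δ := by gcongr
          _ = 1 - δ := by rw [h3]; ring
      · intro n
        have h1 : r w n = F (w : E) n - M w n := hr w n
        rw [F_eq, hw1, Real.log_one, mul_zero, zero_sub] at h1
        have e4 : ((s + w : W) : E) n = (s : E) n + (w : E) n := rfl
        have e5 : (R + r w : E) n = R n + r w n := rfl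
        have e6 : (e + g : E) n = e n + g n := rfl
        have e7 : M (s + w) n = M s n + M w n := by rw [map_add]; rfl
        rw [e4, e5, e6, e7, h1, hg]
        have := hse n
        linarith
  have hC0 : 0 ≤ C := by
    obtain ⟨w, hw1, -⟩ := step 0 0 0
    have := hC w
    have e3 : ‖w‖ = ‖(w : E)‖ := rfl
    rw [e3, hw1, mul_one] at this
    exact (norm_nonneg _).trans this
  obtain ⟨N, hN⟩ := exists_nat_gt (Real.exp (2 * C + 1) ^ 2)
  obtain ⟨s, R, e, hs, hR, he, hse⟩ := main N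
  set t := ‖(s : E)‖ with ht
  have ht0 : 0 ≤ t := norm_nonneg _
  have hexp : Real.exp (2 * C + 1) < t := by
    have : Real.exp (2 * C + 1) ^ 2 < t ^ 2 := by rw [hs]; exact hN
    exact lt_of_pow_lt_pow_left₀ 2 ht0 this
  have ht1 : 1 < t := lt_of_le_of_lt (Real.one_le_exp (by linarith)) hexp
  have hlog : 2 * C + 1 < Real.log t := by
    rw [Real.lt_log_iff_exp_lt (by linarith)]
    exact hexp
  have hRt : ‖R‖ ≤ C * t := by
    have : ‖R‖ ^ 2 ≤ (C * t) ^ 2 := by rw [mul_pow, hs]; exact hR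
    exact (abs_le_of_sq_le_sq' this (by positivity)).2
  have hvec : Real.log t • (s : E) = r s - R + e := by
    ext n
    have e1 : (Real.log t • (s : E) : E) n = Real.log t * (s : E) n := rfl
    have e2 : (r s - R + e : E) n = r s n - R n + e n := rfl
    rw [e1, e2, hr, F_eq]
    have := hse n
    linarith
  have h1 : Real.log t * t ≤ C * t + C * t + 1 := by
    have h2 : ‖Real.log t • (s : E)‖ = Real.log t * t := by
      rw [norm_smul, Real.norm_eq_abs, abs_of_pos (by linarith)]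
    rw [← h2, hvec]
    have h3 : ‖r s‖ ≤ C * t := hC s
    have h4 : ‖e‖ ≤ 1 := by
      have : (0 : ℝ) ≤ (1 / 2 : ℝ) ^ N := by positivity
      linarith
    calc ‖r s - R + e‖ ≤ ‖r s - R‖ + ‖e‖ := norm_add_le _ _
      _ ≤ ‖r s‖ + ‖R‖ + ‖e‖ := by gcongr; exact norm_sub_le _ _
      _ ≤ _ := by linarith
  nlinarith

/-! ### some operators on `ℓ²` -/

lemma mkOp (f : E → ℕ → ℝ) (hadd : ∀ x y n, f (x + y) n = f x n + f y n)
    (hsmul : ∀ (c : ℝ) x n, f (c • x) n = c * f x n)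
    (hb : ∀ x (s : Finset ℕ), ∑ n ∈ s, (f x n) ^ 2 ≤ ‖x‖ ^ 2) :
    ∃ T : E →L[ℝ] E, (∀ x n, T x n = f x n) ∧ ∀ x, ‖T x‖ ≤ ‖x‖ := by
  have h : ∀ x : E, ∃ y : E, (∀ n, y n = f x n) ∧ ‖y‖ ≤ ‖x‖ := fun x =>
    mk _ _ (norm_nonneg _) (hb x)
  choose T hT hTn using h
  let T' : E →ₗ[ℝ] E :=
    { toFun := T
      map_add' := by
        intro x y
        ext n
        have e : (T x + T y : E) n = T x n + T y n := rfl
        rw [e, hT, hT, hT, hadd]
      map_smul' := by
        intro c x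
        ext n
        have e : ((RingHom.id ℝ) c • T x : E) n = c * T x n := rfl
        rw [e, hT, hT, hsmul] }
  refine ⟨T'.mkContinuous 1 (fun x => by rw [one_mul]; exact hTn x), fun x n => hT x n, hTn⟩

/-- exchange `2k` and `2k+1` -/
def sw (n : ℕ) : ℕ := if n % 2 = 0 then n + 1 else n - 1

lemma sw_sw (n : ℕ) : sw (sw n) = n := by
  unfold sw
  split_ifs <;> omega

/-- `(-1)^n` -/
noncomputable def sg (n : ℕ) : ℝ := if n % 2 = 0 then 1 else -1

lemma sg_sw (n : ℕ) : sg (sw n) = - sg n := by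
  unfold sg sw
  split_ifs <;> first | omega | norm_num

lemma sg_sq (n : ℕ) : sg n * sg n = 1 := by
  unfold sg
  split_ifs <;> norm_num

/-- the swap operator -/
lemma exists_P : ∃ P : E →L[ℝ] E, (∀ x n, P x n = x (sw n)) ∧ ∀ x, ‖P x‖ = ‖x‖ := by
  obtain ⟨P, hP, hPn⟩ := mkOp (fun x n => x (sw n)) (fun _ _ _ => rfl) (fun _ _ _ => rfl) (by
    intro x s
    have hinj : Function.Injective sw := fun a b h => by rw [← sw_sw a, h, sw_sw]
    have : ∑ n ∈ s, (x (sw n)) ^ 2 = ∑ n ∈ s.image sw, (x n) ^ 2 := by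
      rw [Finset.sum_image (fun a _ b _ h => hinj h)]
    rw [this]
    exact sum_sq_le x _)
  refine ⟨P, hP, fun x => le_antisymm (hPn x) ?_⟩
  have h : P (P x) = x := by
    ext n; rw [hP, hP, sw_sw]
  calc ‖x‖ = ‖P (P x)‖ := by rw [h]
    _ ≤ ‖P x‖ := hPn _

/-- the operator `x ↦ ((-1)^n x_n)` -/
lemma exists_V : ∃ V : E →L[ℝ] E, (∀ x n, V x n = sg n * x n) ∧ ∀ x, ‖V x‖ = ‖x‖ := by
  obtain ⟨V, hV, hVn⟩ := mkOp (fun x n => sg n * x n)
    (fun x y n => by
      have e : (x + y : E) n = x n + y n := rfl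
      rw [e]; ring)
    (fun c x n => by
      have e : (c • x : E) n = c * x n := rfl
      rw [e]; ring) (by
    intro x s
    refine le_trans (le_of_eq ?_) (sum_sq_le x s)
    refine Finset.sum_congr rfl fun n _ => ?_
    rw [mul_pow, pow_two (sg n), sg_sq, one_mul])
  refine ⟨V, hV, fun x => le_antisymm (hVn x) ?_⟩
  have h : V (V x) = x := by
    ext n; rw [hV, hV, ← mul_assoc, sg_sq, one_mul]
  calc ‖x‖ = ‖V (V x)‖ := by rw [h]
    _ ≤ ‖V x‖ := hVn _

lemma F_P (P : E →L[ℝ] E) (hP : ∀ x n, P x n = x (sw n)) (hPn : ∀ x, ‖P x‖ = ‖x‖) (x : E) (n : ℕ) :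
    F (P x) n = F x (sw n) := by
  unfold F
  rw [hP, hPn]

lemma infinite_dim : ¬ FiniteDimensional ℝ E := by
  intro h
  let N := Module.finrank ℝ E + 1
  let Φ : E →ₗ[ℝ] (Fin N → ℝ) :=
    { toFun := fun w i => w i
      map_add' := fun _ _ => rfl
      map_smul' := fun _ _ => rfl }
  have hs : Function.Surjective Φ := by
    intro v
    obtain ⟨x, hx, -⟩ := mk (fun n => if h : n < N then v ⟨n, h⟩ else 0)
      (∑ i, |v i|) (Finset.sum_nonneg fun _ _ => abs_nonneg _) (by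
        intro s
        have h1 : ∑ n ∈ s, (if h : n < N then v ⟨n, h⟩ else 0) ^ 2
            ≤ ∑ n ∈ Finset.range N, (if h : n < N then v ⟨n, h⟩ else 0) ^ 2 := by
          have : ∑ n ∈ s, (if h : n < N then v ⟨n, h⟩ else 0) ^ 2
              = ∑ n ∈ s.filter (fun n => n < N), (if h : n < N then v ⟨n, h⟩ else 0) ^ 2 := by
            rw [Finset.sum_filter]
            refine Finset.sum_congr rfl fun n _ => ?_
            split_ifs with h
            · rfl
            · simp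
          rw [this]
          apply Finset.sum_le_sum_of_subset_of_nonneg
          · intro n hn
            exact Finset.mem_range.2 (Finset.mem_filter.1 hn).2
          · intro _ _ _; positivity
        refine h1.trans ?_
        rw [← Fin.sum_univ_eq_sum_range
          (fun n => (if h : n < N then v ⟨n, h⟩ else 0) ^ 2) N]
        have h2 : ∀ i : Fin N, (if h : (i : ℕ) < N then v ⟨i, h⟩ else 0) ^ 2 = |v i| ^ 2 := by
          intro i
          rw [dif_pos i.2, sq_abs]
        simp only [h2]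
        exact Finset.sum_sq_le_sq_sum_of_nonneg (fun i _ => abs_nonneg (v i)))
    refine ⟨x, ?_⟩
    funext i
    show x i = v i
    rw [hx, dif_pos i.2]
  have h2 := LinearMap.finrank_le_finrank_of_surjective (f := Φ) hs
  rw [Module.finrank_fin_fun] at h2
  omega

/-- `-2 P` is not compact -/
lemma not_compact (P : E →L[ℝ] E) (hP : ∀ x n, P x n = x (sw n)) :
    ¬ IsCompactOperator ((-P) - P : E →L[ℝ] E) := by
  intro h
  have h1 : IsCompactOperator (((-P) - P : E →L[ℝ] E).comp (P : E →L[ℝ] E)) := h.comp_clm P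
  have h2 := h1.smul (-(1 / 2) : ℝ)
  have h3 : ((-(1 / 2) : ℝ) • (fun x => (((-P) - P : E →L[ℝ] E).comp (P : E →L[ℝ] E)) x) : E → E)
      = id := by
    funext x
    show (-(1 / 2) : ℝ) • (-(P (P x)) - P (P x)) = x
    have : P (P x) = x := by
      ext n; rw [hP, hP, sw_sw]
    rw [this]
    module
  have h4 : IsCompactOperator (id : E → E) := by
    rw [← h3]; exact h2
  exact infinite_dim ((isCompactOperator_id_iff_finiteDimensional (𝕜 := ℝ)).1 h4)

end Pool.Agent.X322.KP
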