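import Pool.Agent.X322.KP

/-! The Kalton-Peck space. -/

set_option autoImplicit false

namespace Pool.Agent.X322.KP

open scoped ENNReal
open Filter Topology

lemma F_zero (n : ℕ) : F 0 n = 0 := by
  unfold F
  have : (0 : E) n = 0 := rfl
  rw [this, zero_mul]

lemma F_bound (x : E) (n : ℕ) : |F x n| ≤ ‖x‖ := by
  rcases eq_or_ne (x n) 0 with h | h
  · unfold F; rw [h, zero_mul, abs_zero]; exact norm_nonneg _
  have h1 : 0 < |x n| := abs_pos.2 h
  have h2 := abs_le_norm x n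
  have h3 : 0 < ‖x‖ := lt_of_lt_of_le h1 h2
  have h4 := Real.abs_log_mul_self_lt (|x n| / ‖x‖) (by positivity) ((div_le_one h3).2 h2)
  unfold F
  have e : ‖x‖ / |x n| = (|x n| / ‖x‖)⁻¹ := by rw [inv_div]
  rw [e, Real.log_inv, abs_mul, abs_neg]
  rw [abs_mul, abs_of_pos (show 0 < |x n| / ‖x‖ by positivity)] at h4
  have e2 : |x n| * |Real.log (|x n| / ‖x‖)| = (|Real.log (|x n| / ‖x‖)| * (|x n| / ‖x‖)) * ‖x‖ := by
    field_simp
  rw [e2]
  nlinarith

lemma F_continuous (n : ℕ) : Continuous (fun x : E => F x n) := by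
  have hco : Continuous (fun x : E => x n) := by
    have : (fun x : E => x n) = fun x : E => (x : ℕ → ℝ) n := rfl
    have hl : ∀ x y : E, dist (x n) (y n) ≤ dist x y := by
      intro x y
      rw [Real.dist_eq, dist_eq_norm]
      have := abs_le_norm (x - y) n
      exact this
    exact (LipschitzWith.mk_one hl).continuous
  rw [continuous_iff_continuousAt]
  intro x
  rcases eq_or_ne x 0 with rfl | hx
  · have h1 : Tendsto (fun x : E => ‖x‖) (𝓝 0) (𝓝 0) := by
      have := (continuous_norm (E := E)).tendsto 0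
      rwa [norm_zero] at this
    show Tendsto (fun x : E => F x n) (𝓝 0) (𝓝 (F 0 n))
    rw [F_zero]
    exact squeeze_zero_norm (fun x => F_bound x n) h1
  · have e : (fun x : E => F x n) = fun x : E => x n * Real.log ‖x‖ - eta (x n) := by
      funext x; exact F_eq x n
    rw [e]
    have h2 : ‖x‖ ≠ 0 := norm_ne_zero_iff.2 hx
    apply ContinuousAt.sub
    · exact hco.continuousAt.mul ((continuous_norm.continuousAt).log h2)
    · exact (eta_continuous.comp hco).continuousAt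

lemma trunc (v : E) (ε : ℝ) (hε : 0 < ε) : ∃ (m : ℕ) (v' : E), (∀ n < m, v' n = v n) ∧
    (∀ n, m ≤ n → v' n = 0) ∧ ‖v - v'‖ ≤ ε := by
  obtain ⟨m, hm⟩ := exists_tail v ε hε
  obtain ⟨v', hv', -⟩ := mk (fun n => if n < m then v n else 0) ‖v‖ (norm_nonneg _) (by
    intro s
    refine le_trans ?_ (sum_sq_le v s)
    refine Finset.sum_le_sum fun n _ => ?_
    split_ifs with h
    · exact le_rfl
    · simpa using sq_nonneg (v n))
  refine ⟨m, v', fun n hn => by rw [hv', if_pos hn], fun n hn => by rw [hv', if_neg (not_lt.2 hn)],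
    norm_le_of _ ε hε.le ?_⟩
  intro s
  have h1 : ∑ n ∈ s, ((v - v' : E) n) ^ 2 = ∑ n ∈ s.filter (fun n => m ≤ n), (v n) ^ 2 := by
    rw [Finset.sum_filter]
    refine Finset.sum_congr rfl fun n _ => ?_
    have e : (v - v' : E) n = v n - v' n := rfl
    rw [e, hv']
    split_ifs with h1 h2 h2
    · omega
    · simp
    · simp
    · omega
  rw [h1]
  exact hm _ (fun n hn => (Finset.mem_filter.1 hn).2)

/-- `x ↦ (x_n log (|x_n| / ‖x‖))_n` -/
noncomputable def K (x : E) (n : ℕ) : ℝ := x n * Real.log (|x n| / ‖x‖)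

lemma K_eq (x : E) (n : ℕ) : K x n = - F x n := by
  unfold K F
  have e : |x n| / ‖x‖ = (‖x‖ / |x n|)⁻¹ := by rw [inv_div]
  rw [e, Real.log_inv]; ring

/-- all pairs `(y, x)` with `y - K x` in `ℓ²` -/
def Mem (z : (ℕ → ℝ) × E) : Prop := ∃ w : E, ∀ n, w n = z.1 n - K z.2 n

lemma mem_add {z z' : (ℕ → ℝ) × E} (h : Mem z) (h' : Mem z') : Mem (z + z') := by
  obtain ⟨w, hw⟩ := h
  obtain ⟨w', hw'⟩ := h'
  obtain ⟨d, hd, -⟩ := F_quasi z.2 z'.2
  refine ⟨w + w' + d, fun n => ?_⟩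
  have e : (w + w' + d : E) n = w n + w' n + d n := rfl
  have e1 : (z + z').1 n = z.1 n + z'.1 n := rfl
  have e2 : (z + z').2 = z.2 + z'.2 := rfl
  rw [e, e1, e2, hw, hw', hd, K_eq, K_eq, K_eq]
  ring

lemma mem_smul (c : ℝ) {z : (ℕ → ℝ) × E} (h : Mem z) : Mem (c • z) := by
  obtain ⟨w, hw⟩ := h
  refine ⟨c • w, fun n => ?_⟩
  have e : (c • w : E) n = c * w n := rfl
  have e1 : (c • z).1 n = c * z.1 n := rfl
  have e2 : (c • z).2 = c • z.2 := rfl
  rw [e, e1, e2, hw, K_eq, K_eq, F_smul]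
  ring

lemma mem_zero : Mem 0 := by
  refine ⟨0, fun n => ?_⟩
  show (0 : ℝ) = 0 - K 0 n
  rw [K_eq, F_zero]; ring

lemma uniq {w w' : E} {f : ℕ → ℝ} (h : ∀ n, w n = f n) (h' : ∀ n, w' n = f n) : w = w' := by
  ext n; rw [h, h']

/-- density of the finitely supported pairs -/
lemma dense (z : (ℕ → ℝ) × E) (h : Mem z) (ε : ℝ) (hε : 0 < ε) :
    ∃ z' : (ℕ → ℝ) × E, Mem z' ∧ {n | z'.1 n ≠ 0}.Finite ∧ {n | z'.2 n ≠ 0}.Finite ∧
      ∀ w : E, (∀ n, w n = (z - z').1 n - K (z - z').2 n) → ‖w‖ + ‖(z - z').2‖ < ε := by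
  obtain ⟨w, hw⟩ := h
  obtain ⟨m, x', hx1, hx2, hx3⟩ := trunc z.2 (ε / 3) (by positivity)
  obtain ⟨d, hd, -⟩ := F_quasi x' (z.2 - x')
  obtain ⟨m', v', hv1, hv2, hv3⟩ := trunc (w - d) (ε / 3) (by positivity)
  have hKfin : ∀ n, m ≤ n → K x' n = 0 := by
    intro n hn
    unfold K; rw [hx2 n hn, zero_mul]
  refine ⟨(fun n => K x' n + v' n, x'), ?_, ?_, ?_, ?_⟩
  · exact ⟨v', fun n => by ring⟩
  · refine (Set.finite_lt_nat (max m m')).subset ?_
    intro n hn
    by_contra hcon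
    have hcon' : max m m' ≤ n := not_lt.1 hcon
    apply hn
    show K x' n + v' n = 0
    rw [hKfin n (le_trans (le_max_left _ _) hcon'), hv2 n (le_trans (le_max_right _ _) hcon'),
      add_zero]
  · refine (Set.finite_lt_nat m).subset ?_
    intro n hn
    by_contra hcon
    exact hn (hx2 n (not_lt.1 hcon))
  · intro u hu
    have hu' : u = w - d - v' := by
      ext n
      have e1 : (w - d - v' : E) n = w n - d n - v' n := rfl
      have e2 : (z - ((fun n => K x' n + v' n, x') : (ℕ → ℝ) × E)).1 n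
          = z.1 n - (K x' n + v' n) := rfl
      have e3 : (z - ((fun n => K x' n + v' n, x') : (ℕ → ℝ) × E)).2 = z.2 - x' := rfl
      rw [hu, e1, e2, e3, hw, hd, K_eq, K_eq, K_eq, add_sub_cancel]
      ring
    rw [hu']
    have e3 : (z - ((fun n => K x' n + v' n, x') : (ℕ → ℝ) × E)).2 = z.2 - x' := rfl
    rw [e3]
    linarith

/-- completeness -/
lemma complete (y : ℕ → ℕ → ℝ) (x : ℕ → E) (r : ℕ → ℕ → E)
    (hr : ∀ i j n, r i j n = (y i n - y j n) - K (x i - x j) n)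
    (hc : ∀ ε : ℝ, 0 < ε → ∃ N : ℕ, ∀ i ≥ N, ∀ j ≥ N, ‖r i j‖ + ‖x i - x j‖ < ε) :
    ∃ (y' : ℕ → ℝ) (x' : E), ∀ ε : ℝ, 0 < ε → ∃ N : ℕ, ∀ i ≥ N, ∃ w : E,
      (∀ n, w n = (y i n - y' n) - K (x i - x') n) ∧ ‖w‖ + ‖x i - x'‖ < ε := by
  have hx : CauchySeq x := by
    rw [Metric.cauchySeq_iff]
    intro ε hε
    obtain ⟨N, hN⟩ := hc ε hε
    refine ⟨N, fun i hi j hj => ?_⟩
    rw [dist_eq_norm]
    have := hN i hi j hj
    linarith [norm_nonneg (r i j)]
  obtain ⟨x', hx'⟩ := cauchySeq_tendsto_of_complete hx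
  have hy : ∀ n, CauchySeq (fun i => y i n) := by
    intro n
    rw [Metric.cauchySeq_iff]
    intro ε hε
    obtain ⟨N, hN⟩ := hc ε hε
    refine ⟨N, fun i hi j hj => ?_⟩
    rw [Real.dist_eq]
    have h1 := hN i hi j hj
    have h2 : y i n - y j n = r i j n - F (x i - x j) n := by
      rw [hr, K_eq]; ring
    rw [h2]
    have h3 := abs_le_norm (r i j) n
    have h4 := F_bound (x i - x j) n
    have h5 := abs_sub (r i j n) (F (x i - x j) n)
    linarith
  have hy' : ∀ n, ∃ l, Tendsto (fun i => y i n) atTop (𝓝 l) := fun n =>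
    cauchySeq_tendsto_of_complete (hy n)
  choose y' hy'' using hy'
  refine ⟨y', x', fun ε hε => ?_⟩
  obtain ⟨N, hN⟩ := hc (ε / 3) (by positivity)
  refine ⟨N, fun i hi => ?_⟩
  have hlim : ∀ n, Tendsto (fun j => r i j n) atTop (𝓝 ((y i n - y' n) - K (x i - x') n)) := by
    intro n
    have h1 : Tendsto (fun j => y i n - y j n) atTop (𝓝 (y i n - y' n)) :=
      tendsto_const_nhds.sub (hy'' n)
    have h2 : Tendsto (fun j => F (x i - x j) n) atTop (𝓝 (F (x i - x') n)) :=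
      ((F_continuous n).tendsto _).comp (tendsto_const_nhds.sub hx')
    have h3 := h1.add h2
    have e : (fun j => r i j n) = fun j => y i n - y j n + F (x i - x j) n := by
      funext j; rw [hr, K_eq]; ring
    rw [e, K_eq, sub_neg_eq_add]
    exact h3
  obtain ⟨w, hw, hwn⟩ := mk (fun n => (y i n - y' n) - K (x i - x') n) (ε / 3) (by positivity) (by
    intro s
    have h1 : Tendsto (fun j => ∑ n ∈ s, (r i j n) ^ 2) atTop
        (𝓝 (∑ n ∈ s, ((y i n - y' n) - K (x i - x') n) ^ 2)) :=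
      tendsto_finsetSum s (fun n _ => (hlim n).pow 2)
    refine le_of_tendsto h1 ?_
    filter_upwards [eventually_ge_atTop N] with j hj
    have h2 := hN i hi j hj
    have h3 : ‖r i j‖ ≤ ε / 3 := by linarith [norm_nonneg (x i - x j)]
    refine (sum_sq_le (r i j) s).trans ?_
    gcongr)
  refine ⟨w, hw, ?_⟩
  have h4 : Tendsto (fun j => ‖x i - x j‖) atTop (𝓝 ‖x i - x'‖) :=
    (tendsto_const_nhds.sub hx').norm
  have h5 : ‖x i - x'‖ ≤ ε / 3 := by
    refine le_of_tendsto h4 ?_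
    filter_upwards [eventually_ge_atTop N] with j hj
    have h2 := hN i hi j hj
    linarith [norm_nonneg (r i j)]
  linarith

/-! ### the space, in terms of `E` -/

/-- coordinates -/
def coE (x : E) (n : ℕ) : ℝ := x n

/-- The Kalton-Peck space -/
noncomputable def Z2E : Submodule ℝ ((ℕ → ℝ) × E) where
  carrier := {z | ∃ w : E, ∀ n, coE w n = z.1 n - K z.2 n}
  add_mem' := fun h h' => mem_add h h'
  zero_mem' := mem_zero
  smul_mem' := fun c _ h => mem_smul c h

/-- quasi-norm -/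
noncomputable def qnE (z : Z2E) : ℝ := ‖z.2.choose‖ + ‖(z : (ℕ → ℝ) × E).2‖

lemma choose_eq (z : Z2E) (w : E) (hw : ∀ n, coE w n = (z : (ℕ → ℝ) × E).1 n
    - K (z : (ℕ → ℝ) × E).2 n) : z.2.choose = w :=
  uniq (w := z.2.choose) (w' := w) z.2.choose_spec hw

lemma qn_eq (z : Z2E) (w : E) (hw : ∀ n, coE w n = (z : (ℕ → ℝ) × E).1 n
    - K (z : (ℕ → ℝ) × E).2 n) : qnE z = ‖w‖ + ‖(z : (ℕ → ℝ) × E).2‖ := by
  unfold qnE; rw [choose_eq z w hw]

theorem main :
    (∀ (z : Z2E) (ε : ℝ), 0 < ε → ∃ z' : Z2E, ({n | (z' : (ℕ → ℝ) × E).1 n ≠ 0}.Finite ∧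
      {n | coE (z' : (ℕ → ℝ) × E).2 n ≠ 0}.Finite) ∧ qnE (z - z') < ε) ∧
    (∀ z : ℕ → Z2E,
      (∀ ε : ℝ, 0 < ε → ∃ N : ℕ, ∀ i ≥ N, ∀ j ≥ N, qnE (z i - z j) < ε) →
        ∃ z' : Z2E, ∀ ε : ℝ, 0 < ε → ∃ N : ℕ, ∀ i ≥ N, qnE (z i - z') < ε) ∧
    ∃ (j : E →ₗ[ℝ] Z2E) (q : Z2E →ₗ[ℝ] E) (T U : E →L[ℝ] E),
    ((∃ C : ℝ, ∀ y, qnE (j y) ≤ C * ‖y‖) ∧ (∃ c : ℝ, 0 < c ∧ ∀ y, c * ‖y‖ ≤ qnE (j y)) ∧
      (∃ C : ℝ, ∀ z, ‖q z‖ ≤ C * qnE z) ∧ Function.Surjective q ∧
      (∀ z, q z = 0 ↔ ∃ y, j y = z)) ∧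
    (∃ τ : Z2E →ₗ[ℝ] Z2E, (∃ C : ℝ, ∀ z, qnE (τ z) ≤ C * qnE z) ∧
      (∀ y, τ (j y) = j (T y)) ∧ ∀ z, q (τ z) = U (q z)) ∧
    ¬ IsCompactOperator (T - U : E →L[ℝ] E) := by
  refine ⟨?_, ?_, ?_⟩
  · intro z ε hε
    obtain ⟨z', hm, hf1, hf2, hq⟩ := dense (z : (ℕ → ℝ) × E) z.2 ε hε
    exact ⟨⟨z', hm⟩, ⟨hf1, hf2⟩, hq _ ((z - (⟨z', hm⟩ : Z2E)).2.choose_spec)⟩
  · intro z hz
    obtain ⟨y', x', h⟩ := complete (fun i => (z i : (ℕ → ℝ) × E).1)
      (fun i => (z i : (ℕ → ℝ) × E).2) (fun i j => (z i - z j).2.choose)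
      (fun i j n => (z i - z j).2.choose_spec n) hz
    have hmem : Mem (y', x') := by
      obtain ⟨N, hN⟩ := h 1 one_pos
      obtain ⟨w, hw, -⟩ := hN N le_rfl
      have h1 : Mem ((z N : (ℕ → ℝ) × E) - (y', x')) := ⟨w, hw⟩
      have h2 := mem_add (z N).2 (mem_smul (-1) h1)
      have e : (z N : (ℕ → ℝ) × E) + (-1 : ℝ) • ((z N : (ℕ → ℝ) × E) - (y', x')) = (y', x') := by
        module
      rw [← e]; exact h2
    refine ⟨⟨(y', x'), hmem⟩, fun ε hε => ?_⟩
    obtain ⟨N, hN⟩ := h ε hε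
    refine ⟨N, fun i hi => ?_⟩
    obtain ⟨w, hw, hw2⟩ := hN i hi
    have e := qn_eq (z i - (⟨(y', x'), hmem⟩ : Z2E)) w (fun n => hw n)
    rw [e]
    exact hw2
  · obtain ⟨P, hP, hPn⟩ := exists_P
    obtain ⟨V, hV, hVn⟩ := exists_V
    have hVV : ∀ x, V (V x) = x := by
      intro x
      ext n; rw [hV, hV, ← mul_assoc, sg_sq, one_mul]
    have hK0 : ∀ n, K 0 n = 0 := fun n => by rw [K_eq, F_zero, neg_zero]
    have hKP : ∀ x n, K (P x) n = K x (sw n) := fun x n => by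
      rw [K_eq, K_eq, F_P P hP hPn]
    let j : E →ₗ[ℝ] Z2E :=
      { toFun := fun y => ⟨(coE (V y), 0), ⟨V y, fun n => by
          show (V y : E) n = (V y : E) n - K 0 n
          rw [hK0, sub_zero]⟩⟩
        map_add' := fun y y' => by
          apply Subtype.ext
          apply Prod.ext
          · funext n
            show (V (y + y') : E) n = (V y : E) n + (V y' : E) n
            rw [map_add]; rfl
          · show (0 : E) = 0 + 0
            rw [add_zero]
        map_smul' := fun c y => by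
          apply Subtype.ext
          apply Prod.ext
          · funext n
            show (V (c • y) : E) n = c * (V y : E) n
            rw [map_smul]; rfl
          · show (0 : E) = c • 0
            rw [smul_zero] }
    let q : Z2E →ₗ[ℝ] E :=
      { toFun := fun z => (z : (ℕ → ℝ) × E).2
        map_add' := fun _ _ => rfl
        map_smul' := fun _ _ => rfl }
    let τ : Z2E →ₗ[ℝ] Z2E :=
      { toFun := fun z => ⟨(fun n => (z : (ℕ → ℝ) × E).1 (sw n), P (z : (ℕ → ℝ) × E).2),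
          ⟨P z.2.choose, fun n => by
            show (P z.2.choose : E) n = (z : (ℕ → ℝ) × E).1 (sw n) - K (P (z : (ℕ → ℝ) × E).2) n
            rw [hKP, hP]
            exact z.2.choose_spec (sw n)⟩⟩
        map_add' := fun z z' => by
          apply Subtype.ext
          apply Prod.ext
          · rfl
          · exact map_add P _ _
        map_smul' := fun c z => by
          apply Subtype.ext
          apply Prod.ext
          · rfl
          · exact map_smul P _ _ }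
    have hjq : ∀ y : E, qnE (j y) = ‖y‖ := by
      intro y
      rw [qn_eq (j y) (V y) (fun n => by
          show (V y : E) n = (V y : E) n - K 0 n
          rw [hK0, sub_zero])]
      show ‖V y‖ + ‖(0 : E)‖ = _
      rw [norm_zero, add_zero]
      exact hVn y
    refine ⟨j, q, -P, P, ⟨⟨1, fun y => ?_⟩, ⟨1, one_pos, fun y => ?_⟩, ⟨1, fun z => ?_⟩, ?_, ?_⟩,
      ⟨τ, ⟨1, fun z => ?_⟩, ?_, ?_⟩, not_compact P hP⟩
    · rw [hjq, one_mul]
    · rw [hjq, one_mul]
    · rw [one_mul]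
      show ‖(z : (ℕ → ℝ) × E).2‖ ≤ ‖z.2.choose‖ + ‖(z : (ℕ → ℝ) × E).2‖
      linarith [norm_nonneg z.2.choose]
    · intro x
      refine ⟨⟨(K x, x), ⟨0, fun n => ?_⟩⟩, rfl⟩
      show (0 : ℝ) = K x n - K x n
      rw [sub_self]
    · intro z
      constructor
      · intro hz
        have hz' : (z : (ℕ → ℝ) × E).2 = 0 := hz
        refine ⟨V z.2.choose, ?_⟩
        apply Subtype.ext
        apply Prod.ext
        · funext n
          show (V (V z.2.choose) : E) n = (z : (ℕ → ℝ) × E).1 n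
          have h1 : coE z.2.choose n = (z : (ℕ → ℝ) × E).1 n - K (z : (ℕ → ℝ) × E).2 n :=
            z.2.choose_spec n
          have h2 : K (z : (ℕ → ℝ) × E).2 n = 0 := by
            have : K (0 : E) n = 0 := hK0 n
            rw [hz']; exact this
          rw [h2, sub_zero] at h1
          rw [hVV]
          exact h1
        · exact hz'.symm
      · rintro ⟨y, rfl⟩
        rfl
    · rw [one_mul]
      rw [qn_eq (τ z) (P z.2.choose) (fun n => by
            show (P z.2.choose : E) n = (z : (ℕ → ℝ) × E).1 (sw n) - K (P (z : (ℕ → ℝ) × E).2) n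
            rw [hKP, hP]
            exact z.2.choose_spec (sw n))]
      show ‖P z.2.choose‖ + ‖P (z : (ℕ → ℝ) × E).2‖ ≤ ‖z.2.choose‖ + ‖(z : (ℕ → ℝ) × E).2‖
      rw [hPn, hPn]
    · intro y
      apply Subtype.ext
      apply Prod.ext
      · funext n
        show (V y : E) (sw n) = (V ((-P) y) : E) n
        have e : V ((-P) y) = - V (P y) := by
          show V (-(P y)) = - V (P y)
          rw [map_neg]
        rw [e]
        show (V y : E) (sw n) = - (V (P y) n)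
        rw [hV, hV, hP, sg_sw, neg_mul]
      · show P 0 = 0
        exact map_zero P
    · intro z
      rfl


end Pool.Agent.X322.KP
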