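import Mathlib

open Matrix MeasureTheory Set
open scoped BigOperators Matrix.Norms.Elementwise

namespace Pool.Agent.X322.Lind

/-! ### scalar comparison lemmas -/

lemma mono_of_quad {F : ℝ → ℝ} {a b C δ : ℝ} (hab : a ≤ b) (hδ : 0 < δ)
    (h : ∀ s t, a ≤ s → s ≤ t → t ≤ b → t - s ≤ δ → F s - C * (t - s)^2 ≤ F t) : F a ≤ F b := by
  have key : ∀ n : ℕ, (b - a) / (n + 1) ≤ δ → F a - C * (b - a)^2 / (n + 1) ≤ F b := by
    intro n hn
    have hn0 : (0:ℝ) < n + 1 := by positivity
    set q := (b - a) / (n + 1) with hq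
    have hq0 : 0 ≤ q := div_nonneg (by linarith) hn0.le
    have step : ∀ j : ℕ, j ≤ n + 1 → F a - j * (C * q^2) ≤ F (a + j * q) := by
      intro j
      induction j with
      | zero => intro _; simp
      | succ j ih =>
        intro hj
        have h1 := ih (by omega)
        have hj' : ((j:ℝ) + 1) ≤ n + 1 := by exact_mod_cast hj
        have hb : a + (j + 1) * q ≤ b := by
          have : (n + 1) * q = b - a := by rw [hq]; field_simp
          nlinarith
        have h2 := h (a + j * q) (a + (j + 1) * q) (by nlinarith [mul_nonneg (Nat.cast_nonneg (α := ℝ) j) hq0])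
          (by nlinarith) hb (by nlinarith)
        have h3 : (a + (j + 1) * q) - (a + j * q) = q := by ring
        rw [h3] at h2
        push_cast
        linarith
    have := step (n + 1) le_rfl
    have h4 : a + ((n + 1 : ℕ) : ℝ) * q = b := by
      push_cast; rw [hq]; field_simp; ring
    rw [h4] at this
    have h5 : ((n + 1 : ℕ) : ℝ) * (C * q^2) = C * (b - a)^2 / (n + 1) := by
      push_cast; rw [hq]; field_simp
    rw [h5] at this
    exact this
  have hlim : Filter.Tendsto (fun n : ℕ => F a - C * (b - a)^2 / ((n:ℝ) + 1)) Filter.atTop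
      (nhds (F a - 0)) := by
    apply Filter.Tendsto.const_sub
    have := tendsto_one_div_add_atTop_nhds_zero_nat (𝕜 := ℝ)
    have h2 := this.const_mul (C * (b - a)^2)
    simp only [mul_one_div, mul_zero] at h2
    exact h2
  have hlim2 : Filter.Tendsto (fun n : ℕ => (b - a) / ((n:ℝ) + 1)) Filter.atTop (nhds 0) := by
    have := tendsto_one_div_add_atTop_nhds_zero_nat (𝕜 := ℝ)
    have h2 := this.const_mul (b - a)
    simp only [mul_one_div, mul_zero] at h2
    exact h2
  have hev : ∀ᶠ n : ℕ in Filter.atTop, (b - a) / ((n:ℝ) + 1) < δ := hlim2.eventually_lt_const hδ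
  rw [sub_zero] at hlim
  exact le_of_tendsto hlim (hev.mono fun n hn => key n hn.le)

lemma exp_comp {h : ℝ → ℝ} {a b κ C B : ℝ} (hab : a ≤ b) (hC : 0 ≤ C)
    (hB : ∀ t, a ≤ t → t ≤ b → |h t| ≤ B)
    (hh : ∀ s t, a ≤ s → s ≤ t → t ≤ b → h s + κ * (t - s) * h t - C * (t - s)^2 ≤ h t) :
    Real.exp (κ * (b - a)) * h a ≤ h b := by
  have hB0 : 0 ≤ B := (abs_nonneg _).trans (hB a le_rfl hab)
  set M := Real.exp (|κ| * (b - a)) with hM
  have hκ : 0 ≤ |κ| := abs_nonneg _
  have key := mono_of_quad (F := fun t => Real.exp (-(κ * (t - a))) * h t) (a := a) (b := b)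
    (C := M * (C + κ^2 * B)) (δ := 1 / (|κ| + 1)) hab (by positivity) ?_
  · simp only [sub_self, mul_zero, neg_zero, Real.exp_zero, one_mul] at key
    have h1 : Real.exp (κ * (b - a)) * h a ≤
        Real.exp (κ * (b - a)) * (Real.exp (-(κ * (b - a))) * h b) :=
      mul_le_mul_of_nonneg_left key (Real.exp_pos _).le
    rwa [← mul_assoc, ← Real.exp_add, add_neg_cancel, Real.exp_zero, one_mul] at h1
  · intro s t has hst htb hδ
    have h1 := hh s t has hst htb
    have h2 := hB t (by linarith) htb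
    set x := κ * (t - s) with hx
    have hx1 : |x| ≤ 1 := by
      rw [hx, abs_mul, abs_of_nonneg (by linarith : 0 ≤ t - s)]
      have : (|κ| + 1) * (t - s) ≤ 1 := by
        rw [le_div_iff₀ (by positivity)] at hδ
        linarith
      nlinarith
    have h3 : |Real.exp (-x) - 1 - (-x)| ≤ (-x)^2 :=
      Real.abs_exp_sub_one_sub_id_le (by rwa [abs_neg])
    have h4 : Real.exp (-(κ * (t - a))) = Real.exp (-(κ * (s - a))) * Real.exp (-x) := by
      rw [← Real.exp_add]; congr 1; rw [hx]; ring
    have hE : Real.exp (-(κ * (s - a))) ≤ M := by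
      rw [hM]; apply Real.exp_le_exp.mpr
      have : -κ ≤ |κ| := neg_le_abs κ
      nlinarith [mul_nonneg hκ (by linarith : 0 ≤ b - s), mul_nonneg (by linarith : 0 ≤ |κ| + κ)
        (by linarith : 0 ≤ s - a)]
    have hE0 : 0 ≤ Real.exp (-(κ * (s - a))) := (Real.exp_pos _).le
    have h5 : |(Real.exp (-x) - 1 - (-x)) * h t| ≤ x^2 * B := by
      rw [abs_mul]
      have : (-x)^2 = x^2 := by ring
      rw [this] at h3
      exact mul_le_mul h3 h2 (abs_nonneg _) (by positivity)
    have h6 := (abs_le.mp h5).1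
    have h7 : h s - (C + κ^2 * B) * (t - s)^2 ≤ Real.exp (-x) * h t := by
      have : x^2 * B = κ^2 * B * (t - s)^2 := by rw [hx]; ring
      nlinarith
    have h8 := mul_le_mul_of_nonneg_left h7 hE0
    have h9 : 0 ≤ (C + κ^2 * B) * (t - s)^2 := by positivity
    have h10 := mul_le_mul_of_nonneg_right hE h9
    simp only [h4]
    nlinarith

end Pool.Agent.X322.Lind
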