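import Mathlib

open Matrix MeasureTheory Set
open scoped BigOperators

namespace Pool.Agent.X322.Lind

abbrev Mat (d : ℕ) := Matrix (Fin d) (Fin d) ℂ

variable {d m : ℕ}

noncomputable def dissipator (L : Fin m → Mat d) (ρ : Mat d) : Mat d :=
  ∑ j, (L j * ρ * (L j)ᴴ - (1 / 2 : ℂ) • ((L j)ᴴ * L j * ρ + ρ * ((L j)ᴴ * L j)))

noncomputable def lind (L : Fin m → Mat d) (H : ℝ → Mat d) (t : ℝ) (ρ : Mat d) : Mat d :=
  (-Complex.I) • (H t * ρ - ρ * H t) + dissipator L ρ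

noncomputable def dg (μ : Fin d → ℝ) : Mat d := diagonal (fun i => (μ i : ℂ))

noncomputable def phi (k : ℕ) (U X : Mat d) : ℝ :=
  ∑ i : Fin d, if i.val < k then ((Uᴴ * X * U) i i).re else 0

lemma exists_sorted {ρ : Mat d} (h : ρ.IsHermitian) :
    ∃ U : Mat d, Uᴴ * U = 1 ∧ U * Uᴴ = 1 ∧ ∃ μ : Fin d → ℝ, Monotone μ ∧ ρ = U * dg μ * Uᴴ := by
  set V : Mat d := (h.eigenvectorUnitary : Mat d) with hV
  have hV1 : Vᴴ * V = 1 := by
    have := (Matrix.mem_unitaryGroup_iff').mp h.eigenvectorUnitary.2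
    exact this
  have hV2 : V * Vᴴ = 1 := by
    have := (Matrix.mem_unitaryGroup_iff).mp h.eigenvectorUnitary.2
    exact this
  have hspec : ρ = V * dg h.eigenvalues * Vᴴ := by
    have := h.spectral_theorem
    rw [Unitary.conjStarAlgAut_apply] at this
    exact this
  set σ := Tuple.sort h.eigenvalues with hσ
  refine ⟨V.submatrix id σ, ?_, ?_, h.eigenvalues ∘ σ, Tuple.monotone_sort _, ?_⟩
  · rw [Matrix.conjTranspose_submatrix]
    have h1 : (Vᴴ.submatrix σ id) * (V.submatrix id σ) = (Vᴴ * V).submatrix σ σ := by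
      rw [← Matrix.submatrix_mul_equiv Vᴴ V σ (Equiv.refl _) σ]; rfl
    rw [h1, hV1, Matrix.submatrix_one_equiv]
  · rw [Matrix.conjTranspose_submatrix, Matrix.submatrix_mul_equiv, hV2]
    simp
  · have h2 : dg (h.eigenvalues ∘ σ) = (dg h.eigenvalues).submatrix σ σ := by
      unfold dg
      rw [Matrix.submatrix_diagonal_equiv]; rfl
    rw [h2, Matrix.conjTranspose_submatrix, Matrix.submatrix_mul_equiv,
      Matrix.submatrix_mul_equiv, ← hspec]
    simp

lemma conj_dg_diag (Z : Mat d) (μ : Fin d → ℝ) (i : Fin d) :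
    ((Zᴴ * dg μ * Z) i i).re = ∑ l, ‖Z l i‖ ^ 2 * μ l := by
  unfold dg
  rw [Matrix.mul_assoc, Matrix.mul_apply, Complex.re_sum]
  refine Finset.sum_congr rfl fun l _ => ?_
  rw [Matrix.diagonal_mul, Matrix.conjTranspose_apply]
  have : star (Z l i) * ((μ l : ℂ) * Z l i) = ((‖Z l i‖ ^ 2 * μ l : ℝ) : ℂ) := by
    have h := Complex.conj_mul' (Z l i)
    have e : star (Z l i) * ((μ l : ℂ) * Z l i) = (starRingEnd ℂ (Z l i) * Z l i) * (μ l : ℂ) := by
      simp only [starRingEnd_apply]; ring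
    rw [e, h]; push_cast; ring
  rw [this, Complex.ofReal_re]

lemma col_sum {Z : Mat d} (hZ : Zᴴ * Z = 1) (i : Fin d) : ∑ l, ‖Z l i‖ ^ 2 = 1 := by
  have h := conj_dg_diag Z (fun _ => 1) i
  have h1 : dg (fun _ : Fin d => (1:ℝ)) = 1 := by
    unfold dg; simp
  rw [h1, Matrix.mul_one, hZ] at h
  simpa using h.symm

lemma row_sum {Z : Mat d} (hZ : Z * Zᴴ = 1) (l : Fin d) : ∑ i, ‖Z l i‖ ^ 2 = 1 := by
  have h := col_sum (Z := Zᴴ) (by rw [Matrix.conjTranspose_conjTranspose]; exact hZ) l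
  simpa [Matrix.conjTranspose_apply] using h

lemma kyfan {U W : Mat d} {μ : Fin d → ℝ} (hμ : Monotone μ) (hU1 : Uᴴ * U = 1) (hU2 : U * Uᴴ = 1)
    (hW1 : Wᴴ * W = 1) (hW2 : W * Wᴴ = 1) (k : ℕ) (hk : k < d) :
    (∑ i : Fin d, if i.val < k then μ i else 0) ≤ phi k W (U * dg μ * Uᴴ) := by
  set Z := Uᴴ * W with hZ
  have hZ1 : Zᴴ * Z = 1 := by
    rw [hZ, Matrix.conjTranspose_mul, Matrix.conjTranspose_conjTranspose, Matrix.mul_assoc,
      ← Matrix.mul_assoc U, hU2, Matrix.one_mul, hW1]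
  have hZ2 : Z * Zᴴ = 1 := by
    rw [hZ, Matrix.conjTranspose_mul, Matrix.conjTranspose_conjTranspose, Matrix.mul_assoc,
      ← Matrix.mul_assoc W, hW2, Matrix.one_mul, hU1]
  have hphi : phi k W (U * dg μ * Uᴴ) = ∑ l, (∑ i : Fin d, if i.val < k then ‖Z l i‖^2 else 0) * μ l := by
    unfold phi
    have e : Wᴴ * (U * dg μ * Uᴴ) * W = Zᴴ * dg μ * Z := by
      rw [hZ, Matrix.conjTranspose_mul, Matrix.conjTranspose_conjTranspose]
      simp only [Matrix.mul_assoc]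
    simp only [e, conj_dg_diag]
    simp only [Finset.sum_mul]
    rw [Finset.sum_comm]
    refine Finset.sum_congr rfl fun i _ => ?_
    split_ifs <;> simp
  rw [hphi]
  set p : Fin d → ℝ := fun l => ∑ i : Fin d, if i.val < k then ‖Z l i‖^2 else 0 with hp
  have hp0 : ∀ l, 0 ≤ p l := fun l => Finset.sum_nonneg fun i _ => by split_ifs <;> positivity
  have hp1 : ∀ l, p l ≤ 1 := fun l => by
    rw [← row_sum hZ2 l]
    exact Finset.sum_le_sum fun i _ => by split_ifs <;> first | exact le_rfl | positivity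
  have hps : ∑ l, p l = ∑ l : Fin d, (if l.val < k then (1:ℝ) else 0) := by
    rw [hp, Finset.sum_comm]
    refine Finset.sum_congr rfl fun i _ => ?_
    split_ifs with h
    · exact col_sum hZ1 i
    · simp
  set θ := μ ⟨k, hk⟩ with hθ
  have key : ∀ l : Fin d, 0 ≤ (p l - if l.val < k then (1:ℝ) else 0) * (μ l - θ) := by
    intro l
    split_ifs with h
    · have : μ l ≤ θ := hμ (by rw [Fin.le_def]; exact h.le)
      exact mul_nonneg_of_nonpos_of_nonpos (by linarith [hp1 l]) (by linarith)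
    · have : θ ≤ μ l := hμ (by rw [Fin.le_def]; exact not_lt.mp h)
      rw [sub_zero]
      exact mul_nonneg (hp0 l) (by linarith)
  have hsum := Finset.sum_nonneg fun l (_ : l ∈ Finset.univ) => key l
  have e2 : ∑ l : Fin d, (p l - if l.val < k then (1:ℝ) else 0) * (μ l - θ)
      = (∑ l, p l * μ l) - (∑ l : Fin d, if l.val < k then μ l else 0) -
        θ * ((∑ l, p l) - ∑ l : Fin d, (if l.val < k then (1:ℝ) else 0)) := by
    rw [← Finset.sum_sub_distrib, ← Finset.sum_sub_distrib, Finset.mul_sum,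
      ← Finset.sum_sub_distrib]
    refine Finset.sum_congr rfl fun l _ => ?_
    split_ifs <;> ring
  rw [e2, hps, sub_self, mul_zero, sub_zero] at hsum
  linarith

lemma phi_self {U : Mat d} {μ : Fin d → ℝ} (hU1 : Uᴴ * U = 1) (k : ℕ) :
    phi k U (U * dg μ * Uᴴ) = ∑ i : Fin d, if i.val < k then μ i else 0 := by
  unfold phi
  have e : Uᴴ * (U * dg μ * Uᴴ) * U = dg μ := by
    rw [Matrix.mul_assoc U, ← Matrix.mul_assoc Uᴴ, hU1, Matrix.one_mul, Matrix.mul_assoc, hU1,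
      Matrix.mul_one]
  rw [e]
  simp [dg]

lemma norm_sq_eq (z : ℂ) : z * star z = ((‖z‖ ^ 2 : ℝ) : ℂ) := by
  have := Complex.mul_conj' z
  simp only [starRingEnd_apply] at this
  rw [this]; push_cast; ring

/-- diagonal entries of the dissipator at a diagonal matrix -/
lemma dissipator_dg_diag (A : Fin m → Mat d) (μ : Fin d → ℝ) (i : Fin d) :
    ((dissipator A (dg μ)) i i).re =
      ∑ j, ∑ l, (‖A j i l‖ ^ 2 * μ l - ‖A j l i‖ ^ 2 * μ i) := by
  unfold dissipator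
  rw [Matrix.sum_apply, Complex.re_sum]
  refine Finset.sum_congr rfl fun j _ => ?_
  have h1 : (A j * dg μ * (A j)ᴴ) i i = ((∑ l, ‖A j i l‖ ^ 2 * μ l : ℝ) : ℂ) := by
    unfold dg
    rw [Matrix.mul_apply]
    push_cast
    refine Finset.sum_congr rfl fun l _ => ?_
    rw [Matrix.mul_diagonal, Matrix.conjTranspose_apply]
    have := norm_sq_eq (A j i l)
    calc A j i l * (μ l : ℂ) * star (A j i l) = (A j i l * star (A j i l)) * μ l := by ring
      _ = _ := by rw [this]; push_cast; ring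
  have h0 : ((A j)ᴴ * A j) i i = ((∑ l, ‖A j l i‖ ^ 2 : ℝ) : ℂ) := by
    rw [Matrix.mul_apply]
    push_cast
    refine Finset.sum_congr rfl fun l _ => ?_
    rw [Matrix.conjTranspose_apply, mul_comm, norm_sq_eq]; push_cast; ring
  have h2 : ((A j)ᴴ * A j * dg μ) i i = ((∑ l, ‖A j l i‖ ^ 2 * μ i : ℝ) : ℂ) := by
    unfold dg
    rw [Matrix.mul_diagonal, h0, ← Finset.sum_mul]; push_cast; ring
  have h3 : (dg μ * ((A j)ᴴ * A j)) i i = ((∑ l, ‖A j l i‖ ^ 2 * μ i : ℝ) : ℂ) := by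
    unfold dg
    rw [Matrix.diagonal_mul, h0, ← Finset.sum_mul]; push_cast; ring
  rw [Matrix.sub_apply, Matrix.smul_apply, Matrix.add_apply, h1, h2, h3, Finset.sum_sub_distrib]
  set a := ∑ l, ‖A j i l‖ ^ 2 * μ l
  set b := ∑ l, ‖A j l i‖ ^ 2 * μ i
  have : ((a : ℂ) - (1 / 2 : ℂ) • ((b : ℂ) + b)) = ((a - b : ℝ) : ℂ) := by
    rw [smul_eq_mul]; push_cast; ring
  rw [this, Complex.ofReal_re]

lemma conj_dissipator {U : Mat d} (hU1 : Uᴴ * U = 1) (hU2 : U * Uᴴ = 1)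
    (L : Fin m → Mat d) (ν : Mat d) :
    Uᴴ * dissipator L (U * ν * Uᴴ) * U = dissipator (fun j => Uᴴ * L j * U) ν := by
  unfold dissipator
  rw [Finset.mul_sum, Finset.sum_mul]
  refine Finset.sum_congr rfl fun j _ => ?_
  have e1 : Uᴴ * (L j * (U * ν * Uᴴ) * (L j)ᴴ) * U =
      (Uᴴ * L j * U) * ν * (Uᴴ * L j * U)ᴴ := by
    simp only [Matrix.conjTranspose_mul, Matrix.conjTranspose_conjTranspose, Matrix.mul_assoc]
  have e2 : Uᴴ * ((L j)ᴴ * L j * (U * ν * Uᴴ)) * U = (Uᴴ * L j * U)ᴴ * (Uᴴ * L j * U) * ν := by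
    simp only [Matrix.conjTranspose_mul, Matrix.conjTranspose_conjTranspose]
    calc Uᴴ * ((L j)ᴴ * L j * (U * ν * Uᴴ)) * U
        = Uᴴ * (L j)ᴴ * L j * U * ν * (Uᴴ * U) := by simp only [Matrix.mul_assoc]
      _ = Uᴴ * (L j)ᴴ * 1 * L j * U * ν := by rw [hU1]; simp only [Matrix.mul_one]
      _ = Uᴴ * (L j)ᴴ * (U * Uᴴ) * L j * U * ν := by rw [hU2]
      _ = _ := by simp only [Matrix.mul_assoc]
  have e3 : Uᴴ * ((U * ν * Uᴴ) * ((L j)ᴴ * L j)) * U = ν * ((Uᴴ * L j * U)ᴴ * (Uᴴ * L j * U)) := by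
    simp only [Matrix.conjTranspose_mul, Matrix.conjTranspose_conjTranspose]
    calc Uᴴ * ((U * ν * Uᴴ) * ((L j)ᴴ * L j)) * U
        = (Uᴴ * U) * ν * (Uᴴ * (L j)ᴴ * 1 * L j * U) := by
          simp only [Matrix.mul_assoc, Matrix.one_mul]
      _ = ν * (Uᴴ * (L j)ᴴ * (U * Uᴴ) * L j * U) := by rw [hU1, hU2, Matrix.one_mul]
      _ = _ := by simp only [Matrix.mul_assoc]
  rw [Matrix.mul_sub, Matrix.sub_mul, e1, Matrix.mul_smul, Matrix.smul_mul, Matrix.mul_add,
    Matrix.add_mul, e2, e3]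

/-- the rate from the top block to the bottom block -/
noncomputable def rate (k : ℕ) (A : Fin m → Mat d) : ℝ :=
  ∑ j, ∑ i : Fin d, ∑ l : Fin d, if i.val < k ∧ k ≤ l.val then ‖A j i l‖ ^ 2 else 0

noncomputable def tot (A : Fin m → Mat d) : ℝ := ∑ j, ∑ i : Fin d, ∑ l : Fin d, ‖A j i l‖ ^ 2

lemma phi_dissipator {U : Mat d} {μ : Fin d → ℝ} (hU1 : Uᴴ * U = 1) (hU2 : U * Uᴴ = 1)
    (L : Fin m → Mat d) (k : ℕ) :
    phi k U (dissipator L (U * dg μ * Uᴴ)) =
      ∑ j, ∑ i : Fin d, ∑ l : Fin d, if i.val < k ∧ k ≤ l.val then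
        (‖(Uᴴ * L j * U) i l‖ ^ 2 * μ l - ‖(Uᴴ * L j * U) l i‖ ^ 2 * μ i) else 0 := by
  unfold phi
  rw [conj_dissipator hU1 hU2]
  simp only [dissipator_dg_diag]
  set A := fun j => Uᴴ * L j * U with hA
  have h1 : (∑ i : Fin d, if i.val < k then
      ∑ j, ∑ l, (‖A j i l‖ ^ 2 * μ l - ‖A j l i‖ ^ 2 * μ i) else 0) =
      ∑ j, ∑ i : Fin d, ∑ l : Fin d, if i.val < k then
        (‖A j i l‖ ^ 2 * μ l - ‖A j l i‖ ^ 2 * μ i) else 0 := by
    rw [Finset.sum_comm]
    refine Finset.sum_congr rfl fun i _ => ?_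
    split_ifs <;> simp
  rw [h1]
  refine Finset.sum_congr rfl fun j _ => ?_
  have h2 : (∑ i : Fin d, ∑ l : Fin d, if i.val < k then
        (‖A j i l‖ ^ 2 * μ l - ‖A j l i‖ ^ 2 * μ i) else 0) =
      (∑ i : Fin d, ∑ l : Fin d, if i.val < k ∧ k ≤ l.val then
        (‖A j i l‖ ^ 2 * μ l - ‖A j l i‖ ^ 2 * μ i) else 0) +
      ((∑ i : Fin d, ∑ l : Fin d, if i.val < k ∧ l.val < k then ‖A j i l‖ ^ 2 * μ l else 0) -
       (∑ i : Fin d, ∑ l : Fin d, if i.val < k ∧ l.val < k then ‖A j l i‖ ^ 2 * μ i else 0)) := by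
    simp only [← Finset.sum_add_distrib, ← Finset.sum_sub_distrib]
    refine Finset.sum_congr rfl fun i _ => Finset.sum_congr rfl fun l _ => ?_
    by_cases hi : i.val < k <;> by_cases hl : l.val < k
    · have : ¬ (k ≤ l.val) := by omega
      simp [hi, hl, this]
    · have : k ≤ l.val := by omega
      simp [hi, hl, this]
    · simp [hi]
    · simp [hi]
  rw [h2]
  have h3 : (∑ i : Fin d, ∑ l : Fin d, if i.val < k ∧ l.val < k then ‖A j l i‖ ^ 2 * μ i else 0) =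
      (∑ i : Fin d, ∑ l : Fin d, if i.val < k ∧ l.val < k then ‖A j i l‖ ^ 2 * μ l else 0) := by
    rw [Finset.sum_comm]
    refine Finset.sum_congr rfl fun i _ => Finset.sum_congr rfl fun l _ => ?_
    simp only [and_comm]
  rw [h3, sub_self, add_zero]

lemma rate_nonneg (k : ℕ) (A : Fin m → Mat d) : 0 ≤ rate k A :=
  Finset.sum_nonneg fun j _ => Finset.sum_nonneg fun i _ => Finset.sum_nonneg fun l _ => by
    split_ifs <;> positivity

lemma phi_dissipator_ge {U : Mat d} {μ : Fin d → ℝ} (hU1 : Uᴴ * U = 1) (hU2 : U * Uᴴ = 1)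
    (hμ : Monotone μ) (hμ0 : ∀ i, 0 ≤ μ i) (L : Fin m → Mat d) (k : ℕ) (hk : k < d) :
    rate k (fun j => Uᴴ * L j * U) * μ ⟨k, hk⟩
      - tot (fun j => Uᴴ * L j * U) * (∑ i : Fin d, if i.val < k then μ i else 0)
      ≤ phi k U (dissipator L (U * dg μ * Uᴴ)) := by
  rw [phi_dissipator hU1 hU2]
  unfold rate tot
  rw [Finset.sum_mul, Finset.sum_mul, ← Finset.sum_sub_distrib]
  refine Finset.sum_le_sum fun j _ => ?_
  set A := fun j => Uᴴ * L j * U with hA
  set S := ∑ i : Fin d, if i.val < k then μ i else 0 with hS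
  have hSi : ∀ i : Fin d, i.val < k → μ i ≤ S := fun i hi => by
    have := Finset.single_le_sum (f := fun i : Fin d => if i.val < k then μ i else 0)
      (fun i _ => by split_ifs <;> first | exact hμ0 i | exact le_rfl) (Finset.mem_univ i)
    simpa [hi] using this
  have e : (∑ i : Fin d, ∑ l : Fin d, ‖A j i l‖ ^ 2) = ∑ i : Fin d, ∑ l : Fin d, ‖A j l i‖ ^ 2 :=
    Finset.sum_comm
  rw [e, Finset.sum_mul, Finset.sum_mul, ← Finset.sum_sub_distrib]
  refine Finset.sum_le_sum fun i _ => ?_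
  rw [Finset.sum_mul, Finset.sum_mul, ← Finset.sum_sub_distrib]
  refine Finset.sum_le_sum fun l _ => ?_
  by_cases h : i.val < k ∧ k ≤ l.val
  · rw [if_pos h, if_pos h]
    have h1 : μ ⟨k, hk⟩ ≤ μ l := hμ (by rw [Fin.le_def]; exact h.2)
    have h2 := hSi i h.1
    have h3 : 0 ≤ ‖A j i l‖ ^ 2 := by positivity
    have h4 : 0 ≤ ‖A j l i‖ ^ 2 := by positivity
    nlinarith [mul_le_mul_of_nonneg_left h1 h3, mul_le_mul_of_nonneg_left h2 h4]
  · rw [if_neg h, if_neg h]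
    have h4 : 0 ≤ ‖A j l i‖ ^ 2 := by positivity
    have hS0 : 0 ≤ S := Finset.sum_nonneg fun i _ => by
      split_ifs <;> first | exact hμ0 i | exact le_rfl
    nlinarith [mul_nonneg h4 hS0]

/-- `k = 1`, no positivity: -/
lemma phi_one_dissipator_ge {U : Mat d} {μ : Fin d → ℝ} (hU1 : Uᴴ * U = 1) (hU2 : U * Uᴴ = 1)
    (hμ : Monotone μ) (hd : 0 < d) (L : Fin m → Mat d) :
    - (2 * tot (fun j => Uᴴ * L j * U)) * |μ ⟨0, hd⟩|
      ≤ phi 1 U (dissipator L (U * dg μ * Uᴴ)) := by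
  rw [phi_dissipator hU1 hU2]
  unfold tot
  rw [Finset.mul_sum, ← Finset.sum_neg_distrib, Finset.sum_mul]
  refine Finset.sum_le_sum fun j _ => ?_
  set A := fun j => Uᴴ * L j * U with hA
  have e : 2 * (∑ i : Fin d, ∑ l : Fin d, ‖A j i l‖ ^ 2) =
      ∑ i : Fin d, ∑ l : Fin d, (‖A j i l‖ ^ 2 + ‖A j l i‖ ^ 2) := by
    simp only [Finset.sum_add_distrib]
    rw [two_mul]
    congr 1
    exact Finset.sum_comm
  rw [e, ← Finset.sum_neg_distrib, Finset.sum_mul]
  refine Finset.sum_le_sum fun i _ => ?_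
  rw [← Finset.sum_neg_distrib, Finset.sum_mul]
  refine Finset.sum_le_sum fun l _ => ?_
  have h0 := abs_nonneg (μ ⟨0, hd⟩)
  have h3 : 0 ≤ ‖A j i l‖ ^ 2 := by positivity
  have h4 : 0 ≤ ‖A j l i‖ ^ 2 := by positivity
  by_cases h : i.val < 1 ∧ 1 ≤ l.val
  · rw [if_pos h]
    have hi : i = ⟨0, hd⟩ := Fin.ext (Nat.lt_one_iff.mp h.1)
    have h1 : μ ⟨0, hd⟩ ≤ μ l := hμ (by rw [Fin.le_def]; exact Nat.zero_le _)
    have h5 : μ i ≤ |μ ⟨0, hd⟩| := by rw [hi]; exact le_abs_self _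
    have h6 : -|μ ⟨0, hd⟩| ≤ μ l := le_trans (neg_abs_le _) h1
    nlinarith [mul_le_mul_of_nonneg_left h5 h4, mul_le_mul_of_nonneg_left h6 h3]
  · rw [if_neg h]
    nlinarith [mul_nonneg h3 h0, mul_nonneg h4 h0]

/-- the Hamiltonian part does not contribute -/
lemma phi_comm {U : Mat d} {μ : Fin d → ℝ} (hU1 : Uᴴ * U = 1)
    (K : Mat d) (c : ℂ) (k : ℕ) :
    phi k U (c • (K * (U * dg μ * Uᴴ) - (U * dg μ * Uᴴ) * K)) = 0 := by
  unfold phi
  apply Finset.sum_eq_zero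
  intro i _
  split_ifs
  · have e : Uᴴ * (c • (K * (U * dg μ * Uᴴ) - (U * dg μ * Uᴴ) * K)) * U =
        c • ((Uᴴ * K * U) * dg μ - dg μ * (Uᴴ * K * U)) := by
      rw [Matrix.mul_smul, Matrix.smul_mul, Matrix.mul_sub, Matrix.sub_mul]
      congr 2
      · calc Uᴴ * (K * (U * dg μ * Uᴴ)) * U = (Uᴴ * K * U) * dg μ * (Uᴴ * U) := by
              simp only [Matrix.mul_assoc]
          _ = _ := by rw [hU1, Matrix.mul_one]
      · calc Uᴴ * (U * dg μ * Uᴴ * K) * U = (Uᴴ * U) * dg μ * (Uᴴ * K * U) := by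
              simp only [Matrix.mul_assoc]
          _ = _ := by rw [hU1, Matrix.one_mul]
    rw [e, Matrix.smul_apply, Matrix.sub_apply]
    unfold dg
    rw [Matrix.mul_diagonal, Matrix.diagonal_mul]
    ring_nf
    simp
  · rfl

lemma phi_lind {U : Mat d} {μ : Fin d → ℝ} (hU1 : Uᴴ * U = 1)
    (L : Fin m → Mat d) (H : ℝ → Mat d) (r : ℝ) (k : ℕ) :
    phi k U (lind L H r (U * dg μ * Uᴴ)) = phi k U (dissipator L (U * dg μ * Uᴴ)) := by
  have hadd : ∀ X Y : Mat d, phi k U (X + Y) = phi k U X + phi k U Y := by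
    intro X Y
    unfold phi
    rw [← Finset.sum_add_distrib]
    refine Finset.sum_congr rfl fun i _ => ?_
    split_ifs
    · rw [Matrix.mul_add, Matrix.add_mul, Matrix.add_apply, Complex.add_re]
    · simp
  unfold lind
  rw [hadd, phi_comm hU1, zero_add]

/-! ### compactness -/

/-- the set of unitary matrices is compact -/
lemma isCompact_unitary : IsCompact {U : Mat d | Uᴴ * U = 1} := by
  have hsub : {U : Mat d | Uᴴ * U = 1} ⊆
      Set.pi Set.univ (fun _ : Fin d => Set.pi Set.univ fun _ : Fin d => Metric.closedBall (0:ℂ) 1) := by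
    intro U hU i _ j _
    rw [mem_closedBall_zero_iff]
    exact entry_norm_bound_of_unitary (Matrix.mem_unitaryGroup_iff'.mpr hU) i j
  have hc : IsCompact (Set.pi Set.univ (fun _ : Fin d => Set.pi Set.univ
      fun _ : Fin d => Metric.closedBall (0:ℂ) 1)) :=
    isCompact_univ_pi fun _ => isCompact_univ_pi fun _ => isCompact_closedBall _ _
  refine hc.of_isClosed_subset ?_ hsub
  exact isClosed_eq (by fun_prop) continuous_const

lemma rate_pos {L : Fin m → Mat d} (hL : Algebra.adjoin ℂ (Set.range L) = ⊤)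
    {U : Mat d} (hU1 : Uᴴ * U = 1) (hU2 : U * Uᴴ = 1) {k : ℕ} (hk1 : 1 ≤ k) (hk : k < d) :
    0 < rate k (fun j => Uᴴ * L j * U) := by
  by_contra hcon
  have h0 : rate k (fun j => Uᴴ * L j * U) = 0 := le_antisymm (not_lt.mp hcon) (rate_nonneg _ _)
  unfold rate at h0
  have hz : ∀ j, ∀ i l : Fin d, i.val < k → k ≤ l.val → (Uᴴ * L j * U) i l = 0 := by
    intro j i l hi hl
    rw [Finset.sum_eq_zero_iff_of_nonneg (fun j _ => Finset.sum_nonneg fun i _ =>
      Finset.sum_nonneg fun l _ => by split_ifs <;> positivity)] at h0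
    have h1 := h0 j (Finset.mem_univ _)
    rw [Finset.sum_eq_zero_iff_of_nonneg (fun i _ =>
      Finset.sum_nonneg fun l _ => by split_ifs <;> positivity)] at h1
    have h2 := h1 i (Finset.mem_univ _)
    rw [Finset.sum_eq_zero_iff_of_nonneg (fun l _ => by split_ifs <;> positivity)] at h2
    have h3 := h2 l (Finset.mem_univ _)
    rw [if_pos ⟨hi, hl⟩] at h3
    exact norm_eq_zero.mp (pow_eq_zero_iff two_ne_zero |>.mp h3)
  have hall : ∀ A : Mat d, ∀ i l : Fin d, i.val < k → k ≤ l.val → (Uᴴ * A * U) i l = 0 := by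
    intro A
    have hA : A ∈ Algebra.adjoin ℂ (Set.range L) := by rw [hL]; trivial
    induction hA using Algebra.adjoin_induction with
    | mem x hx =>
      obtain ⟨j, rfl⟩ := hx
      exact hz j
    | algebraMap r =>
      intro i l hi hl
      have hne : i ≠ l := by intro h; subst h; omega
      rw [Algebra.algebraMap_eq_smul_one, Matrix.mul_smul, Matrix.smul_mul, Matrix.mul_one, hU1,
        Matrix.smul_apply, Matrix.one_apply_ne hne, smul_zero]
    | add x y _ _ hx hy =>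
      intro i l hi hl
      rw [Matrix.mul_add, Matrix.add_mul, Matrix.add_apply, hx i l hi hl, hy i l hi hl, add_zero]
    | mul x y _ _ hx hy =>
      intro i l hi hl
      have e : Uᴴ * (x * y) * U = (Uᴴ * x * U) * (Uᴴ * y * U) := by
        calc Uᴴ * (x * y) * U = Uᴴ * x * 1 * y * U := by
              simp only [Matrix.mul_assoc, Matrix.one_mul]
          _ = Uᴴ * x * (U * Uᴴ) * y * U := by rw [hU2]
          _ = _ := by simp only [Matrix.mul_assoc]
      rw [e, Matrix.mul_apply]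
      apply Finset.sum_eq_zero
      intro q _
      by_cases hq : q.val < k
      · rw [hy q l hq hl, mul_zero]
      · rw [hx i q hi (not_lt.mp hq), zero_mul]
  have h1 := hall (U * Matrix.single ⟨0, by omega⟩ ⟨k, hk⟩ 1 * Uᴴ) ⟨0, by omega⟩ ⟨k, hk⟩
    (by simp; omega) le_rfl
  have e : Uᴴ * (U * (Matrix.single ⟨0, by omega⟩ ⟨k, hk⟩ 1 : Mat d) * Uᴴ) * U =
      Matrix.single ⟨0, by omega⟩ ⟨k, hk⟩ 1 := by
    rw [Matrix.mul_assoc U, ← Matrix.mul_assoc Uᴴ, hU1, Matrix.one_mul, Matrix.mul_assoc, hU1,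
      Matrix.mul_one]
  rw [e] at h1
  simp at h1

lemma rate_bound {L : Fin m → Mat d} (hL : Algebra.adjoin ℂ (Set.range L) = ⊤)
    {k : ℕ} (hk1 : 1 ≤ k) (hk : k < d) :
    ∃ c : ℝ, 0 < c ∧ ∀ U : Mat d, Uᴴ * U = 1 → c ≤ rate k (fun j => Uᴴ * L j * U) := by
  have hcont : Continuous fun U : Mat d => rate k (fun j => Uᴴ * L j * U) := by
    unfold rate
    refine continuous_finsetSum _ fun j _ => continuous_finsetSum _ fun i _ =>
      continuous_finsetSum _ fun l _ => ?_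
    split_ifs
    · have : Continuous fun U : Mat d => (Uᴴ * L j * U) := by fun_prop
      exact ((this.matrix_elem i l).norm).pow 2
    · exact continuous_const
  obtain ⟨U0, hU0, hmin⟩ := (isCompact_unitary (d := d)).exists_isMinOn
    ⟨1, by simp⟩ hcont.continuousOn
  have hU02 : U0 * U0ᴴ = 1 := mul_eq_one_comm.mp hU0
  exact ⟨_, rate_pos hL hU0 hU02 hk1 hk, fun U hU => hmin hU⟩

lemma tot_bound (L : Fin m → Mat d) :
    ∃ C : ℝ, 0 < C ∧ ∀ U : Mat d, Uᴴ * U = 1 → tot (fun j => Uᴴ * L j * U) ≤ C := by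
  have hcont : Continuous fun U : Mat d => tot (fun j => Uᴴ * L j * U) := by
    unfold tot
    refine continuous_finsetSum _ fun j _ => continuous_finsetSum _ fun i _ =>
      continuous_finsetSum _ fun l _ => ?_
    have : Continuous fun U : Mat d => (Uᴴ * L j * U) := by fun_prop
    exact ((this.matrix_elem i l).norm).pow 2
  obtain ⟨U0, hU0, hmax⟩ := (isCompact_unitary (d := d)).exists_isMaxOn
    ⟨1, by simp⟩ hcont.continuousOn
  refine ⟨max (tot fun j => U0ᴴ * L j * U0) 1, by positivity, fun U hU => ?_⟩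
  exact (hmax hU).trans (le_max_left _ _)

end Pool.Agent.X322.Lind
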