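import Pool.Agent.X322.Lind1
import Pool.Agent.X322.Lind2

open Matrix MeasureTheory Set
open scoped BigOperators Matrix.Norms.Elementwise

namespace Pool.Agent.X322.Lind

variable {d m : ℕ}

structure Drive (H : ℝ → Mat d) : Prop where
  herm : ∀ t, 0 ≤ t → (H t).IsHermitian
  meas : ∀ i j, Measurable (fun t => H t i j)
  bdd : ∀ T : ℝ, ∃ M : ℝ, ∀ t, 0 ≤ t → t ≤ T → ∀ i j, ‖H t i j‖ ≤ M

structure Traj (L : Fin m → Mat d) (H : ℝ → Mat d) (s : ℝ) (x : ℝ → Mat d) : Prop where
  cont : ∀ i j, ContinuousOn (fun r => x r i j) (Ici s)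
  eq : ∀ t, s ≤ t → ∀ i j, x t i j = x s i j + ∫ r in s..t, (lind L H r (x r)) i j

lemma entry_le (A : Mat d) (i j : Fin d) : ‖A i j‖ ≤ ‖A‖ := Matrix.norm_entry_le_entrywise_sup_norm A

lemma mul_bound (A B : Mat d) : ‖A * B‖ ≤ d * (‖A‖ * ‖B‖) := by
  rw [Matrix.norm_le_iff (by positivity)]
  intro i j
  rw [Matrix.mul_apply]
  refine (norm_sum_le _ _).trans ?_
  calc ∑ k, ‖A i k * B k j‖ ≤ ∑ _k : Fin d, ‖A‖ * ‖B‖ := by
        refine Finset.sum_le_sum fun k _ => ?_
        rw [norm_mul]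
        exact mul_le_mul (entry_le A i k) (entry_le B k j) (norm_nonneg _) (norm_nonneg _)
    _ = _ := by simp

noncomputable def dissLin (L : Fin m → Mat d) : Mat d →ₗ[ℂ] Mat d where
  toFun := dissipator L
  map_add' X Y := by
    unfold dissipator
    rw [← Finset.sum_add_distrib]
    refine Finset.sum_congr rfl fun j _ => ?_
    simp only [Matrix.mul_add, Matrix.add_mul, smul_add]
    abel
  map_smul' c X := by
    unfold dissipator
    rw [RingHom.id_apply, Finset.smul_sum]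
    refine Finset.sum_congr rfl fun j _ => ?_
    simp only [Matrix.mul_smul, Matrix.smul_mul, smul_sub, smul_add]
    congr 1
    congr 1
    · rw [smul_comm]
    · rw [smul_comm]

lemma dissipator_sub (L : Fin m → Mat d) (X Y : Mat d) :
    dissipator L (X - Y) = dissipator L X - dissipator L Y := (dissLin L).map_sub X Y

lemma lind_sub (L : Fin m → Mat d) (H : ℝ → Mat d) (r : ℝ) (X Y : Mat d) :
    lind L H r (X - Y) = lind L H r X - lind L H r Y := by
  unfold lind
  rw [dissipator_sub, Matrix.mul_sub, Matrix.sub_mul]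
  simp only [smul_sub]
  abel

lemma diss_bound (L : Fin m → Mat d) : ∃ K : ℝ, 0 ≤ K ∧ ∀ X : Mat d, ‖dissipator L X‖ ≤ K * ‖X‖ := by
  have hm : ∀ A X B : Mat d, ‖A * X * B‖ ≤ (d:ℝ) * (d * (‖A‖ * ‖X‖) * ‖B‖) := fun A X B =>
    (mul_bound _ _).trans (by gcongr; exact mul_bound _ _)
  refine ⟨∑ j, ((d:ℝ)^2 * ‖L j‖ * ‖(L j)ᴴ‖ + 2 * (d * ‖(L j)ᴴ * L j‖)),
    Finset.sum_nonneg fun j _ => by positivity, fun X => ?_⟩
  unfold dissipator
  rw [Finset.sum_mul]
  refine (norm_sum_le _ _).trans (Finset.sum_le_sum fun j _ => ?_)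
  have h1 := hm (L j) X (L j)ᴴ
  have h2 := mul_bound ((L j)ᴴ * L j) X
  have h3 := mul_bound X ((L j)ᴴ * L j)
  have h4 : ‖(1/2 : ℂ) • ((L j)ᴴ * L j * X + X * ((L j)ᴴ * L j))‖ ≤
      ‖(L j)ᴴ * L j * X‖ + ‖X * ((L j)ᴴ * L j)‖ := by
    rw [norm_smul]
    have : ‖(1/2 : ℂ)‖ = 1/2 := by norm_num
    rw [this]
    have h5 := norm_add_le ((L j)ᴴ * L j * X) (X * ((L j)ᴴ * L j))
    have h6 := norm_nonneg ((L j)ᴴ * L j * X + X * ((L j)ᴴ * L j))
    linarith
  have h5 := norm_sub_le (L j * X * (L j)ᴴ) ((1/2 : ℂ) • ((L j)ᴴ * L j * X + X * ((L j)ᴴ * L j)))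
  nlinarith

lemma lind_bound (L : Fin m → Mat d) {H : ℝ → Mat d} (hH : Drive H) (T : ℝ) :
    ∃ K : ℝ, 0 ≤ K ∧ ∀ r, 0 ≤ r → r ≤ T → ∀ X : Mat d, ‖lind L H r X‖ ≤ K * ‖X‖ := by
  obtain ⟨M, hM⟩ := hH.bdd T
  obtain ⟨K, hK0, hK⟩ := diss_bound L
  refine ⟨2 * (d * |M|) + K, by positivity, fun r hr0 hrT X => ?_⟩
  have hHn : ‖H r‖ ≤ |M| := by
    rw [Matrix.norm_le_iff (abs_nonneg _)]
    exact fun i j => (hM r hr0 hrT i j).trans (le_abs_self _)
  have h1 : ‖H r * X‖ ≤ d * (|M| * ‖X‖) :=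
    (mul_bound _ _).trans (by gcongr)
  have h2 : ‖X * H r‖ ≤ d * (|M| * ‖X‖) :=
    (mul_bound _ _).trans (by rw [mul_comm ‖X‖]; gcongr)
  unfold lind
  calc ‖-Complex.I • (H r * X - X * H r) + dissipator L X‖
      ≤ ‖-Complex.I • (H r * X - X * H r)‖ + ‖dissipator L X‖ := norm_add_le _ _
    _ ≤ (‖H r * X‖ + ‖X * H r‖) + K * ‖X‖ := by
        gcongr
        · rw [norm_smul, norm_neg, Complex.norm_I, one_mul]
          exact norm_sub_le _ _
        · exact hK X
    _ ≤ (2 * (d * |M|) + K) * ‖X‖ := by nlinarith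

lemma Drive.integrable {H : ℝ → Mat d} (hH : Drive H) {a b : ℝ} (ha : 0 ≤ a) (hab : a ≤ b)
    (i j : Fin d) : IntervalIntegrable (fun r => H r i j) volume a b := by
  obtain ⟨M, hM⟩ := hH.bdd b
  refine (intervalIntegrable_const (c := M)).mono_fun' (hH.meas i j).aestronglyMeasurable ?_
  rw [uIoc_of_le hab]
  refine (ae_restrict_iff' measurableSet_Ioc).mpr (Filter.Eventually.of_forall fun r hr => ?_)
  exact hM r (ha.trans hr.1.le) hr.2 i j

section
variable {L : Fin m → Mat d} {H : ℝ → Mat d} {s : ℝ} {x : ℝ → Mat d}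

lemma Traj.contM (hx : Traj L H s x) : ContinuousOn x (Ici s) :=
  continuousOn_pi.mpr fun i => continuousOn_pi.mpr fun j => hx.cont i j

lemma ii_sum {ι E : Type*} [NormedAddCommGroup E] (S : Finset ι) {a b : ℝ} (f : ι → ℝ → E)
    (h : ∀ k, IntervalIntegrable (f k) volume a b) :
    IntervalIntegrable (fun r => ∑ k ∈ S, f k r) volume a b := by
  classical
  induction S using Finset.induction_on with
  | empty => simp
  | insert k S hk ih =>
    simp only [Finset.sum_insert hk]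
    exact (h k).add ih

lemma Traj.integrable_entry (hH : Drive H) (hx : Traj L H s x) (hs : 0 ≤ s) {a b : ℝ} (ha : s ≤ a)
    (hab : a ≤ b) (i j : Fin d) :
    IntervalIntegrable (fun r => (lind L H r (x r)) i j) volume a b := by
  have hsub : Set.uIcc a b ⊆ Ici s := by
    rw [uIcc_of_le hab]
    exact fun y hy => ha.trans hy.1
  have h1 : IntervalIntegrable (fun r => (H r * x r) i j) volume a b := by
    simp only [Matrix.mul_apply]
    exact ii_sum Finset.univ (fun k r => H r i k * x r k j)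
      (fun k => (hH.integrable (hs.trans ha) hab i k).mul_continuousOn ((hx.cont k j).mono hsub))
  have h2 : IntervalIntegrable (fun r => (x r * H r) i j) volume a b := by
    simp only [Matrix.mul_apply]
    exact ii_sum Finset.univ (fun k r => x r i k * H r k j)
      (fun k => (hH.integrable (hs.trans ha) hab k j).continuousOn_mul ((hx.cont i k).mono hsub))
  have h3 : ContinuousOn (fun r => (dissipator L (x r)) i j) (Set.uIcc a b) := by
    have hc : Continuous fun X : Mat d => (dissipator L X) i j := by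
      have h0 : Continuous fun X : Mat d => dissipator L X := by
        unfold dissipator
        refine continuous_finsetSum _ fun j _ => ?_
        fun_prop
      exact h0.matrix_elem i j
    exact hc.comp_continuousOn (hx.contM.mono hsub)
  have h5 := ((h1.sub h2).const_mul (-Complex.I)).add h3.intervalIntegrable
  exact h5

/-- integrated form, entrywise -/
lemma Traj.sub_eq (hH : Drive H) (hx : Traj L H s x) (hs : 0 ≤ s) {a b : ℝ} (ha : s ≤ a)
    (hab : a ≤ b) (i j : Fin d) :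
    x b i j - x a i j = ∫ r in a..b, (lind L H r (x r)) i j := by
  have h1 := hx.eq b (ha.trans hab) i j
  have h2 := hx.eq a ha i j
  have h3 := intervalIntegral.integral_interval_sub_left
    (hx.integrable_entry hH hs le_rfl (ha.trans hab) i j)
    (hx.integrable_entry hH hs le_rfl ha i j)
  rw [h1, h2, ← h3]
  ring

lemma lin_expand (φ : Mat d →ₗ[ℝ] ℝ) (X : Mat d) :
    φ X = ∑ i : Fin d, ∑ j : Fin d, φ (Matrix.single i j (X i j)) := by
  conv_lhs => rw [Matrix.matrix_eq_sum_single X]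
  simp only [map_sum]

noncomputable def entFun (φ : Mat d →ₗ[ℝ] ℝ) (i j : Fin d) : ℂ →ₗ[ℝ] ℝ where
  toFun z := φ (Matrix.single i j z)
  map_add' z w := by rw [Matrix.single_add, map_add]
  map_smul' c z := by
    rw [RingHom.id_apply, ← map_smul, Matrix.smul_single]

lemma Traj.lin_integrable (hH : Drive H) (hx : Traj L H s x) (hs : 0 ≤ s) {a b : ℝ} (ha : s ≤ a)
    (hab : a ≤ b) (φ : Mat d →ₗ[ℝ] ℝ) (i j : Fin d) :
    IntervalIntegrable (fun r => φ (Matrix.single i j ((lind L H r (x r)) i j))) volume a b := by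
  have h := hx.integrable_entry hH hs ha hab i j
  rw [intervalIntegrable_iff] at h ⊢
  exact (LinearMap.toContinuousLinearMap (entFun φ i j)).integrable_comp h

lemma Traj.lin_integrable' (hH : Drive H) (hx : Traj L H s x) (hs : 0 ≤ s) {a b : ℝ} (ha : s ≤ a)
    (hab : a ≤ b) (φ : Mat d →ₗ[ℝ] ℝ) :
    IntervalIntegrable (fun r => φ (lind L H r (x r))) volume a b := by
  have h : (fun r => φ (lind L H r (x r))) = fun r => ∑ q : Fin d × Fin d,
      φ (Matrix.single q.1 q.2 ((lind L H r (x r)) q.1 q.2)) := by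
    funext r
    rw [lin_expand φ, Fintype.sum_prod_type]
  rw [h]
  exact ii_sum (Finset.univ : Finset (Fin d × Fin d))
    (fun q r => φ (Matrix.single q.1 q.2 ((lind L H r (x r)) q.1 q.2)))
    (fun q => hx.lin_integrable hH hs ha hab φ q.1 q.2)

lemma Traj.lin_sub_eq (hH : Drive H) (hx : Traj L H s x) (hs : 0 ≤ s) {a b : ℝ} (ha : s ≤ a)
    (hab : a ≤ b) (φ : Mat d →ₗ[ℝ] ℝ) :
    φ (x b - x a) = ∫ r in a..b, φ (lind L H r (x r)) := by
  have h : (fun r => φ (lind L H r (x r))) = fun r => ∑ q : Fin d × Fin d,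
      φ (Matrix.single q.1 q.2 ((lind L H r (x r)) q.1 q.2)) := by
    funext r
    rw [lin_expand φ, Fintype.sum_prod_type]
  rw [h, intervalIntegral.integral_finsetSum
    (fun q _ => hx.lin_integrable hH hs ha hab φ q.1 q.2), lin_expand φ, Fintype.sum_prod_type]
  refine Finset.sum_congr rfl fun i _ => Finset.sum_congr rfl fun j _ => ?_
  rw [Matrix.sub_apply, hx.sub_eq hH hs ha hab i j]
  exact ((LinearMap.toContinuousLinearMap (entFun φ i j)).intervalIntegral_comp_comm
    (hx.integrable_entry hH hs ha hab i j)).symm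

/-- restriction to later times -/
lemma Traj.restrict (hH : Drive H) (hx : Traj L H s x) (hs : 0 ≤ s) {s' : ℝ} (h : s ≤ s') :
    Traj L H s' x where
  cont i j := (hx.cont i j).mono (Ici_subset_Ici.mpr h)
  eq t ht i j := by
    have h1 := hx.eq t (h.trans ht) i j
    have h2 := hx.eq s' h i j
    have h3 := intervalIntegral.integral_interval_sub_left
      (hx.integrable_entry hH hs le_rfl (h.trans ht) i j)
      (hx.integrable_entry hH hs le_rfl h i j)
    rw [h1, h2, ← h3]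
    ring

lemma Traj.bdd (hx : Traj L H s x) (T : ℝ) : ∃ B : ℝ, 0 ≤ B ∧ ∀ t, s ≤ t → t ≤ T → ‖x t‖ ≤ B := by
  have h1 : IsCompact (Icc s T) := isCompact_Icc
  choose B hB using fun i j => h1.exists_bound_of_continuousOn ((hx.cont i j).mono Icc_subset_Ici_self)
  refine ⟨∑ i, ∑ j, |B i j|, by positivity, fun t ht1 ht2 => ?_⟩
  rw [Matrix.norm_le_iff (by positivity)]
  intro i j
  calc ‖x t i j‖ ≤ |B i j| := (hB i j t ⟨ht1, ht2⟩).trans (le_abs_self _)
    _ ≤ ∑ j, |B i j| := Finset.single_le_sum (f := fun j => |B i j|)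
        (fun _ _ => abs_nonneg _) (Finset.mem_univ j)
    _ ≤ _ := Finset.single_le_sum (f := fun i => ∑ j, |B i j|)
        (fun _ _ => Finset.sum_nonneg fun _ _ => abs_nonneg _) (Finset.mem_univ i)

lemma Traj.diff_le (hH : Drive H) (hx : Traj L H s x) (hs : 0 ≤ s) {a b C : ℝ} (ha : s ≤ a)
    (hab : a ≤ b) (hC : 0 ≤ C) (h : ∀ r, a ≤ r → r ≤ b → ‖lind L H r (x r)‖ ≤ C) :
    ‖x b - x a‖ ≤ C * (b - a) := by
  have hba : 0 ≤ b - a := by linarith
  rw [Matrix.norm_le_iff (by positivity)]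
  intro i j
  rw [Matrix.sub_apply, hx.sub_eq hH hs ha hab]
  have := intervalIntegral.norm_integral_le_of_norm_le_const (a := a) (b := b)
    (f := fun r => (lind L H r (x r)) i j) (C := C) (fun r hr => by
      rw [uIoc_of_le hab] at hr
      exact (entry_le _ i j).trans (h r hr.1.le hr.2))
  rwa [abs_of_nonneg hba] at this

lemma Traj.lipschitz (hH : Drive H) (hx : Traj L H s x) (hs : 0 ≤ s) (T : ℝ) :
    ∃ K : ℝ, 0 ≤ K ∧ ∀ a b, s ≤ a → a ≤ b → b ≤ T → ‖x b - x a‖ ≤ K * (b - a) := by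
  obtain ⟨B, hB0, hB⟩ := hx.bdd T
  obtain ⟨K, hK0, hK⟩ := lind_bound L hH T
  refine ⟨K * B, by positivity, fun a b ha hab hbT => ?_⟩
  refine hx.diff_le hH hs ha hab (by positivity) fun r hr1 hr2 => ?_
  refine (hK r (hs.trans (ha.trans hr1)) (hr2.trans hbT) _).trans ?_
  exact mul_le_mul_of_nonneg_left (hB r (ha.trans hr1) (hr2.trans hbT)) hK0

lemma Traj.unique0 (hH : Drive H) (hx : Traj L H s x) (hs : 0 ≤ s) (h0 : x s = 0) :
    ∀ t, s ≤ t → x t = 0 := by
  intro T hT
  obtain ⟨Λ, hΛ0, hΛ⟩ := hx.lipschitz hH hs T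
  obtain ⟨B, hB0, hB⟩ := hx.bdd T
  obtain ⟨K, hK0, hK⟩ := lind_bound L hH T
  have key := exp_comp (h := fun t => -‖x t‖) (a := s) (b := T) (κ := K) (C := K * Λ) (B := B) hT
    (by positivity) (fun t h1 h2 => by rw [abs_neg, abs_norm]; exact hB t h1 h2) ?_
  · simp only [h0, norm_zero, neg_zero, mul_zero] at key
    exact norm_le_zero_iff.mp (by linarith)
  · intro a b ha hab hbT
    have hba : 0 ≤ b - a := by linarith
    have h1 : ‖x b - x a‖ ≤ K * (‖x b‖ + Λ * (b - a)) * (b - a) := by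
      refine hx.diff_le hH hs ha hab (by positivity) fun r hr1 hr2 => ?_
      refine (hK r (hs.trans (ha.trans hr1)) (hr2.trans hbT) _).trans ?_
      refine mul_le_mul_of_nonneg_left ?_ hK0
      have h2 := hΛ r b (ha.trans hr1) hr2 hbT
      have h3 : ‖x r‖ ≤ ‖x b‖ + ‖x b - x r‖ := by
        have := norm_sub_norm_le (x r) (x b)
        rw [norm_sub_rev] at this
        linarith
      have h4 : Λ * (b - r) ≤ Λ * (b - a) := by
        apply mul_le_mul_of_nonneg_left _ hΛ0
        linarith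
      linarith
    have h2 : ‖x b‖ ≤ ‖x a‖ + ‖x b - x a‖ := by
      have := norm_sub_norm_le (x b) (x a)
      linarith
    nlinarith

end

lemma norm_unitary_le {U : Mat d} (hU : Uᴴ * U = 1) : ‖U‖ ≤ 1 := by
  rw [Matrix.norm_le_iff zero_le_one]
  exact fun i j => entry_norm_bound_of_unitary (Matrix.mem_unitaryGroup_iff'.mpr hU) i j

noncomputable def phiLin (k : ℕ) (U : Mat d) : Mat d →ₗ[ℝ] ℝ where
  toFun := phi k U
  map_add' X Y := by
    unfold phi
    rw [← Finset.sum_add_distrib]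
    refine Finset.sum_congr rfl fun i _ => ?_
    split_ifs
    · rw [Matrix.mul_add, Matrix.add_mul, Matrix.add_apply, Complex.add_re]
    · simp
  map_smul' c X := by
    unfold phi
    rw [RingHom.id_apply, smul_eq_mul, Finset.mul_sum]
    refine Finset.sum_congr rfl fun i _ => ?_
    split_ifs
    · rw [Matrix.mul_smul, Matrix.smul_mul, Matrix.smul_apply, Complex.smul_re, smul_eq_mul]
    · simp

lemma phi_sub (k : ℕ) (U X Y : Mat d) : phi k U (X - Y) = phi k U X - phi k U Y :=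
  (phiLin k U).map_sub X Y

lemma phi_bound {U : Mat d} (hU : Uᴴ * U = 1) (k : ℕ) (X : Mat d) :
    |phi k U X| ≤ (d : ℝ) ^ 3 * ‖X‖ := by
  have h1 : ‖Uᴴ * X * U‖ ≤ (d:ℝ)^2 * ‖X‖ := by
    have hU2 : Uᴴᴴ * Uᴴ = 1 := by
      rw [Matrix.conjTranspose_conjTranspose]; exact mul_eq_one_comm.mp hU
    calc ‖Uᴴ * X * U‖ ≤ d * (‖Uᴴ * X‖ * ‖U‖) := mul_bound _ _
      _ ≤ d * ((d * (‖Uᴴ‖ * ‖X‖)) * 1) := by
          gcongr
          · exact mul_bound _ _
          · exact norm_unitary_le hU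
      _ ≤ d * ((d * (1 * ‖X‖)) * 1) := by
          gcongr
          exact norm_unitary_le hU2
      _ = _ := by ring
  unfold phi
  refine (Finset.abs_sum_le_sum_abs _ _).trans ?_
  calc ∑ i : Fin d, |if i.val < k then ((Uᴴ * X * U) i i).re else 0|
      ≤ ∑ _i : Fin d, (d:ℝ)^2 * ‖X‖ := by
        refine Finset.sum_le_sum fun i _ => ?_
        split_ifs
        · exact (Complex.abs_re_le_norm _).trans ((entry_le _ _ _).trans h1)
        · simp; positivity
    _ = _ := by simp; ring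

/-- the one-step inequality -/
lemma step {L : Fin m → Mat d} {H : ℝ → Mat d} {s : ℝ} {x : ℝ → Mat d}
    (hH : Drive H) (hx : Traj L H s x) (hs : 0 ≤ s) (T : ℝ) :
    ∃ C : ℝ, 0 ≤ C ∧ ∀ a b, s ≤ a → a ≤ b → b ≤ T → ∀ U : Mat d, Uᴴ * U = 1 →
      ∀ μ : Fin d → ℝ, x b = U * dg μ * Uᴴ → ∀ k : ℕ,
      phi k U (x a) + (b - a) * phi k U (dissipator L (x b)) - C * (b - a)^2 ≤ phi k U (x b) := by
  obtain ⟨Λ, hΛ0, hΛ⟩ := hx.lipschitz hH hs T
  obtain ⟨K, hK0, hK⟩ := lind_bound L hH T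
  refine ⟨(d:ℝ)^3 * (K * Λ), by positivity, fun a b ha hab hbT U hU1 μ hμ k => ?_⟩
  have e1 : phi k U (x b) - phi k U (x a) = ∫ r in a..b, phi k U (lind L H r (x r)) := by
    rw [← phi_sub]
    exact hx.lin_sub_eq hH hs ha hab (phiLin k U)
  have e2 : IntervalIntegrable (fun r => phi k U (lind L H r (x r))) volume a b := by
    exact hx.lin_integrable' hH hs ha hab (phiLin k U)
  have h3 : ∀ r ∈ Icc a b, phi k U (dissipator L (x b)) - (d:ℝ)^3 * (K * Λ) * (b - a) ≤
      phi k U (lind L H r (x r)) := by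
    intro r hr
    have h4 : phi k U (lind L H r (x b)) = phi k U (dissipator L (x b)) := by
      rw [hμ]; exact phi_lind hU1 L H r k
    have h5 : phi k U (lind L H r (x b - x r)) =
        phi k U (lind L H r (x b)) - phi k U (lind L H r (x r)) := by
      rw [lind_sub, phi_sub]
    have h6 := phi_bound hU1 k (lind L H r (x b - x r))
    have h7 := hK r (hs.trans (ha.trans hr.1)) (hr.2.trans hbT) (x b - x r)
    have h8 := hΛ r b (ha.trans hr.1) hr.2 hbT
    have h9 : (d:ℝ)^3 * ‖lind L H r (x b - x r)‖ ≤ (d:ℝ)^3 * (K * Λ) * (b - a) := by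
      have : ‖lind L H r (x b - x r)‖ ≤ K * (Λ * (b - a)) := by
        refine h7.trans (mul_le_mul_of_nonneg_left (h8.trans ?_) hK0)
        exact mul_le_mul_of_nonneg_left (by linarith [hr.1]) hΛ0
      calc (d:ℝ)^3 * ‖lind L H r (x b - x r)‖ ≤ (d:ℝ)^3 * (K * (Λ * (b - a))) := by gcongr
        _ = _ := by ring
    have h10 := le_abs_self (phi k U (lind L H r (x b - x r)))
    linarith
  have h4 := intervalIntegral.integral_mono_on hab intervalIntegrable_const e2 h3
  rw [intervalIntegral.integral_const, smul_eq_mul] at h4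
  nlinarith

end Pool.Agent.X322.Lind
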