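import Pool.Agent.X322.Lind3

open Matrix MeasureTheory Set
open scoped BigOperators Matrix.Norms.Elementwise ComplexOrder

namespace Pool.Agent.X322.Lind

variable {d m : ℕ}

section
variable {L : Fin m → Mat d} {H : ℝ → Mat d} {s : ℝ} {x y : ℝ → Mat d}

lemma Traj.sub (hH : Drive H) (hs : 0 ≤ s) (hx : Traj L H s x) (hy : Traj L H s y) :
    Traj L H s (fun t => x t - y t) where
  cont i j := (hx.cont i j).sub (hy.cont i j)
  eq t ht i j := by
    have h1 := hx.integrable_entry hH hs le_rfl ht i j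
    have h2 := hy.integrable_entry hH hs le_rfl ht i j
    simp only [Matrix.sub_apply, lind_sub]
    rw [intervalIntegral.integral_sub h1 h2, hx.eq t ht i j, hy.eq t ht i j]
    ring

lemma Traj.unique (hH : Drive H) (hs : 0 ≤ s) (hx : Traj L H s x) (hy : Traj L H s y)
    (h : x s = y s) (t : ℝ) (ht : s ≤ t) : x t = y t := by
  have := (hx.sub hH hs hy).unique0 hH hs (by simp [h]) t ht
  exact sub_eq_zero.mp this

lemma dissipator_conjTranspose (X : Mat d) : dissipator L Xᴴ = (dissipator L X)ᴴ := by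
  unfold dissipator
  rw [Matrix.conjTranspose_sum]
  refine Finset.sum_congr rfl fun j _ => ?_
  have h : star (1 / 2 : ℂ) = 1 / 2 := by
    simp
  rw [Matrix.conjTranspose_sub, Matrix.conjTranspose_smul, h, Matrix.conjTranspose_add]
  simp only [Matrix.conjTranspose_mul, Matrix.conjTranspose_conjTranspose, Matrix.mul_assoc]
  rw [add_comm]

lemma lind_conjTranspose (hH : Drive H) {r : ℝ} (hr : 0 ≤ r) (X : Mat d) :
    lind L H r Xᴴ = (lind L H r X)ᴴ := by
  unfold lind
  have h := hH.herm r hr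
  rw [Matrix.conjTranspose_add, Matrix.conjTranspose_smul, Matrix.conjTranspose_sub,
    Matrix.conjTranspose_mul, Matrix.conjTranspose_mul, h.eq, dissipator_conjTranspose]
  congr 1
  simp only [star_neg, Complex.star_def, Complex.conj_I, neg_neg]
  rw [neg_smul, ← smul_neg, neg_sub]

lemma Traj.conjT (hH : Drive H) (hs : 0 ≤ s) (hx : Traj L H s x) :
    Traj L H s (fun t => (x t)ᴴ) where
  cont i j := by
    simp only [Matrix.conjTranspose_apply]
    exact continuous_star.comp_continuousOn (hx.cont j i)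
  eq t ht i j := by
    simp only [Matrix.conjTranspose_apply]
    have h1 := hx.integrable_entry hH hs le_rfl ht j i
    have h2 : (∫ r in s..t, (lind L H r (x r)ᴴ) i j) = ∫ r in s..t, star ((lind L H r (x r)) j i) := by
      apply intervalIntegral.integral_congr
      intro r hr
      rw [uIcc_of_le ht] at hr
      simp only
      rw [lind_conjTranspose hH (hs.trans hr.1), Matrix.conjTranspose_apply]
    have h3 : (∫ r in s..t, star ((lind L H r (x r)) j i)) =
        star (∫ r in s..t, (lind L H r (x r)) j i) :=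
      (Complex.conjCLE : ℂ ≃L[ℝ] ℂ).toContinuousLinearMap.intervalIntegral_comp_comm h1
    rw [h2, h3, hx.eq t ht j i, star_add]

lemma Traj.hermitian (hH : Drive H) (hs : 0 ≤ s) (hx : Traj L H s x) (h : (x s).IsHermitian)
    (t : ℝ) (ht : s ≤ t) : (x t).IsHermitian :=
  (hx.conjT hH hs).unique hH hs hx h t ht

lemma trace_lind (r : ℝ) (X : Mat d) : (lind L H r X).trace = 0 := by
  unfold lind dissipator
  rw [Matrix.trace_add, Matrix.trace_smul, Matrix.trace_sub, Matrix.trace_mul_comm (H r) X,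
    sub_self, smul_zero, zero_add, Matrix.trace_sum]
  apply Finset.sum_eq_zero
  intro j _
  rw [Matrix.trace_sub, Matrix.trace_smul, Matrix.trace_add,
    Matrix.trace_mul_comm (L j * X) (L j)ᴴ, Matrix.trace_mul_comm X ((L j)ᴴ * L j),
    ← Matrix.mul_assoc]
  simp only [smul_eq_mul]
  ring

noncomputable def reTr : Mat d →ₗ[ℝ] ℝ where
  toFun X := X.trace.re
  map_add' X Y := by rw [Matrix.trace_add, Complex.add_re]
  map_smul' c X := by
    rw [Matrix.trace_smul, RingHom.id_apply, smul_eq_mul, Complex.smul_re, smul_eq_mul]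

lemma Traj.trace_re (hH : Drive H) (hs : 0 ≤ s) (hx : Traj L H s x) (t : ℝ) (ht : s ≤ t) :
    (x t).trace.re = (x s).trace.re := by
  have h := hx.lin_sub_eq hH hs le_rfl ht reTr
  have h2 : (fun r => reTr (lind L H r (x r))) = fun _ => (0:ℝ) := by
    funext r
    show (lind L H r (x r)).trace.re = 0
    rw [trace_lind]; simp
  rw [h2, map_sub] at h
  simp only [intervalIntegral.integral_zero] at h
  have h3 : reTr (x t) = (x t).trace.re := rfl
  have h4 : reTr (x s) = (x s).trace.re := rfl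
  rw [h3, h4] at h
  linarith

end

lemma sum_lt_one (hd : 0 < d) (μ : Fin d → ℝ) :
    (∑ i : Fin d, if i.val < 1 then μ i else 0) = μ ⟨0, hd⟩ := by
  rw [Finset.sum_eq_single (⟨0, hd⟩ : Fin d)]
  · simp
  · intro i _ hi
    have : ¬ i.val < 1 := fun h => hi (Fin.ext (Nat.lt_one_iff.mp h))
    rw [if_neg this]
  · simp

lemma posSemidef_of {U : Mat d} {μ : Fin d → ℝ} (hμ : ∀ i, 0 ≤ μ i) :
    (U * dg μ * Uᴴ).PosSemidef := by
  have h : (dg μ).PosSemidef := by
    unfold dg
    rw [Matrix.posSemidef_diagonal_iff]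
    intro i
    exact_mod_cast hμ i
  exact h.mul_mul_conjTranspose_same U

lemma nonneg_of_posSemidef {U : Mat d} {μ : Fin d → ℝ} (hU : Uᴴ * U = 1)
    (h : (U * dg μ * Uᴴ).PosSemidef) (i : Fin d) : 0 ≤ μ i := by
  have h1 := h.conjTranspose_mul_mul_same U
  have e : Uᴴ * (U * dg μ * Uᴴ) * U = dg μ := by
    rw [Matrix.mul_assoc U, ← Matrix.mul_assoc Uᴴ, hU, Matrix.one_mul, Matrix.mul_assoc, hU,
      Matrix.mul_one]
  rw [e] at h1
  unfold dg at h1
  rw [Matrix.posSemidef_diagonal_iff] at h1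
  exact_mod_cast h1 i

section
variable {L : Fin m → Mat d} {H : ℝ → Mat d} {s : ℝ} {x y : ℝ → Mat d}

lemma Traj.posSemidef (hd : 0 < d) (hH : Drive H) (hs : 0 ≤ s) (hx : Traj L H s x)
    (h : (x s).PosSemidef) (T : ℝ) (hT : s ≤ T) : (x T).PosSemidef := by
  have hdec : ∀ t : ℝ, ∃ U : Mat d, ∃ μ : Fin d → ℝ, s ≤ t → (Uᴴ * U = 1 ∧ U * Uᴴ = 1 ∧
      Monotone μ ∧ x t = U * dg μ * Uᴴ) := by
    intro t
    by_cases ht : s ≤ t
    · obtain ⟨U, h1, h2, μ, h3, h4⟩ := exists_sorted (hx.hermitian hH hs h.1 t ht)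
      exact ⟨U, μ, fun _ => ⟨h1, h2, h3, h4⟩⟩
    · exact ⟨0, 0, fun h => absurd h ht⟩
  choose U μ hUμ using hdec
  obtain ⟨C, hC0, hC⟩ := step hH hx hs T
  obtain ⟨Ct, hCt0, hCt⟩ := tot_bound L
  obtain ⟨B, hB0, hB⟩ := hx.bdd T
  set f : ℝ → ℝ := fun t => μ t ⟨0, hd⟩ with hf
  have hfphi : ∀ t, s ≤ t → phi 1 (U t) (x t) = f t := by
    intro t ht
    obtain ⟨h1, h2, h3, h4⟩ := hUμ t ht
    rw [h4, phi_self h1, sum_lt_one hd]
  have hstep : ∀ a b, s ≤ a → a ≤ b → b ≤ T →
      f a + (b - a) * (-(2 * Ct) * |f b|) - C * (b - a)^2 ≤ f b := by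
    intro a b ha hab hbT
    obtain ⟨h1, h2, h3, h4⟩ := hUμ b (ha.trans hab)
    obtain ⟨g1, g2, g3, g4⟩ := hUμ a ha
    have k1 := hC a b ha hab hbT (U b) h1 (μ b) h4 1
    rw [hfphi b (ha.trans hab)] at k1
    have k2 : f a ≤ phi 1 (U b) (x a) := by
      by_cases h1d : 1 < d
      · have := kyfan g3 g1 g2 h1 h2 1 h1d
        rw [sum_lt_one hd, ← g4] at this
        exact this
      · -- d = 1
        have hd1 : d = 1 := by omega
        subst hd1
        have e1 : phi 1 (U b) (x a) = (x a).trace.re := by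
          unfold phi
          have : ((U b)ᴴ * x a * U b).trace = (x a).trace := by
            rw [Matrix.trace_mul_comm, ← Matrix.mul_assoc, h2, Matrix.one_mul]
          rw [← this]
          simp [Matrix.trace]
        have e2 : f a = (x a).trace.re := by
          rw [← hfphi a ha]
          unfold phi
          have : ((U a)ᴴ * x a * U a).trace = (x a).trace := by
            rw [Matrix.trace_mul_comm, ← Matrix.mul_assoc, g2, Matrix.one_mul]
          rw [← this]
          simp [Matrix.trace]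
        rw [e1, e2]
    have k3 : -(2 * Ct) * |f b| ≤ phi 1 (U b) (dissipator L (x b)) := by
      have := phi_one_dissipator_ge h1 h2 h3 hd L
      rw [← h4] at this
      refine le_trans ?_ this
      have h5 := hCt (U b) h1
      have h6 := abs_nonneg (f b)
      have : -(2 * Ct) ≤ -(2 * tot fun j => (U b)ᴴ * L j * U b) := by linarith
      exact mul_le_mul_of_nonneg_right this h6
    have hba : 0 ≤ b - a := by linarith
    have k4 := mul_le_mul_of_nonneg_left k3 hba
    linarith
  have key := exp_comp (h := fun t => min (f t) 0) (a := s) (b := T) (κ := 2 * Ct) (C := C)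
    (B := (d:ℝ)^3 * B) hT hC0 ?_ ?_
  · have hfs : 0 ≤ f s := by
      obtain ⟨h1, h2, h3, h4⟩ := hUμ s le_rfl
      rw [h4] at h
      exact nonneg_of_posSemidef h1 h _
    simp only [min_eq_right hfs, mul_zero] at key
    have hfT : 0 ≤ f T := le_trans key (min_le_left _ _)
    obtain ⟨h1, h2, h3, h4⟩ := hUμ T hT
    rw [h4]
    exact posSemidef_of fun i => hfT.trans (h3 (by rw [Fin.le_def]; exact Nat.zero_le _))
  · intro t ht1 ht2
    have h5 : |f t| ≤ (d:ℝ)^3 * B := by
      rw [← hfphi t ht1]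
      refine (phi_bound (hUμ t ht1).1 1 _).trans ?_
      exact mul_le_mul_of_nonneg_left (hB t ht1 ht2) (by positivity)
    rcases le_total (f t) 0 with h6 | h6
    · simpa only [min_eq_left h6] using h5
    · simp only [min_eq_right h6, abs_zero]; positivity
  · intro a b ha hab hbT
    have k := hstep a b ha hab hbT
    have hba : 0 ≤ b - a := by linarith
    have hsq : 0 ≤ C * (b - a)^2 := by positivity
    rcases le_total 0 (f b) with h6 | h6
    · simp only [min_eq_right h6, mul_zero, add_zero]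
      have := min_le_right (f a) 0
      linarith
    · simp only [min_eq_left h6]
      rw [abs_of_nonpos h6] at k
      have := min_le_left (f a) 0
      nlinarith

end

/-- bundled: state trajectories -/
structure STraj (L : Fin m → Mat d) (H : ℝ → Mat d) (s : ℝ) (x : ℝ → Mat d) : Prop where
  drive : Drive H
  s0 : 0 ≤ s
  traj : Traj L H s x
  psd : ∀ t, s ≤ t → (x t).PosSemidef
  tr : ∀ t, s ≤ t → (x t).trace.re = 1

lemma trace_eq_sum {U : Mat d} {μ : Fin d → ℝ} (hU1 : Uᴴ * U = 1) :
    (U * dg μ * Uᴴ).trace.re = ∑ i, μ i := by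
  rw [Matrix.trace_mul_comm, ← Matrix.mul_assoc, hU1, Matrix.one_mul]
  unfold dg
  rw [Matrix.trace_diagonal, Complex.re_sum]
  simp

lemma lower {L : Fin m → Mat d} (hL : Algebra.adjoin ℂ (Set.range L) = ⊤) (n : ℕ) (hn : n < d) :
    ∃ ε : ℝ, 0 < ε ∧ ∀ H s x, STraj L H s x → ∀ t, s + n ≤ t → ∀ U : Mat d, ∀ μ : Fin d → ℝ,
      Uᴴ * U = 1 → Monotone μ → x t = U * dg μ * Uᴴ →
      ε ≤ ∑ i : Fin d, if i.val < d - n then μ i else 0 := by
  induction n with
  | zero =>
    refine ⟨1, one_pos, fun H s x hx t ht U μ hU _ he => ?_⟩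
    have h1 := hx.tr t (by simpa using ht)
    rw [he, trace_eq_sum hU] at h1
    rw [← h1]
    refine Finset.sum_le_sum fun i _ => ?_
    simp
  | succ n ih =>
    obtain ⟨ε, hε, ih⟩ := ih (by omega)
    have hk1 : 1 ≤ d - (n + 1) := by omega
    have hk : d - (n + 1) < d := by omega
    obtain ⟨c, hc, hrate⟩ := rate_bound hL hk1 hk
    obtain ⟨Ct, hCt0, hCt⟩ := tot_bound L
    set k := d - (n + 1) with hkdef
    set A := c + Ct with hA
    have hA0 : 0 < A := by positivity
    set q := c * ε / A with hq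
    have hq0 : 0 < q := by positivity
    have hE : Real.exp (-A) < 1 := by rw [Real.exp_lt_one_iff]; linarith
    refine ⟨q * (1 - Real.exp (-A)), mul_pos hq0 (by linarith), ?_⟩
    intro H s x hx T hT V ν hV hν heV
    set a0 := s + n with ha0
    have hT' : a0 + 1 ≤ T := by push_cast at hT; linarith
    have hsa0 : s ≤ a0 := by
      have : (0:ℝ) ≤ n := Nat.cast_nonneg n
      linarith
    have hdec : ∀ t : ℝ, ∃ U : Mat d, ∃ μ : Fin d → ℝ, s ≤ t → (Uᴴ * U = 1 ∧ U * Uᴴ = 1 ∧
        Monotone μ ∧ x t = U * dg μ * Uᴴ) := by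
      intro t
      by_cases ht : s ≤ t
      · obtain ⟨U, h1, h2, μ, h3, h4⟩ := exists_sorted (hx.psd t ht).1
        exact ⟨U, μ, fun _ => ⟨h1, h2, h3, h4⟩⟩
      · exact ⟨0, 0, fun h => absurd h ht⟩
    choose U μ hUμ using hdec
    obtain ⟨C, hC0, hC⟩ := step hx.drive hx.traj hx.s0 T
    set S : ℝ → ℝ := fun t => ∑ i : Fin d, if i.val < k then μ t i else 0 with hS
    have hμ0 : ∀ t, s ≤ t → ∀ i, 0 ≤ μ t i := by
      intro t ht i
      obtain ⟨h1, h2, h3, h4⟩ := hUμ t ht
      have := hx.psd t ht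
      rw [h4] at this
      exact nonneg_of_posSemidef h1 this i
    have hS0 : ∀ t, s ≤ t → 0 ≤ S t := fun t ht => Finset.sum_nonneg fun i _ => by
      split_ifs
      · exact hμ0 t ht i
      · exact le_rfl
    have hS1 : ∀ t, s ≤ t → S t ≤ 1 := fun t ht => by
      obtain ⟨h1, h2, h3, h4⟩ := hUμ t ht
      have h5 := hx.tr t ht
      rw [h4, trace_eq_sum h1] at h5
      rw [← h5]
      refine Finset.sum_le_sum fun i _ => ?_
      split_ifs
      · exact le_rfl
      · exact hμ0 t ht i
    have hSphi : ∀ t, s ≤ t → phi k (U t) (x t) = S t := by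
      intro t ht
      obtain ⟨h1, h2, h3, h4⟩ := hUμ t ht
      rw [h4, phi_self h1]
    have hmu : ∀ t, a0 ≤ t → ε - S t ≤ μ t ⟨k, hk⟩ := by
      intro t ht
      obtain ⟨h1, h2, h3, h4⟩ := hUμ t (hsa0.trans ht)
      have h5 := ih H s x hx t ht (U t) (μ t) h1 h3 h4
      have h6 : (∑ i : Fin d, if i.val < d - n then μ t i else 0) = S t + μ t ⟨k, hk⟩ := by
        have e : μ t ⟨k, hk⟩ = ∑ i : Fin d, if i = ⟨k, hk⟩ then μ t i else 0 := by simp
        rw [e, hS]
        simp only
        rw [← Finset.sum_add_distrib]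
        refine Finset.sum_congr rfl fun i _ => ?_
        by_cases hi : i = ⟨k, hk⟩
        · have h7 : ¬ i.val < k := by rw [hi]; simp
          have h8 : i.val < d - n := by rw [hi]; show k < d - n; omega
          rw [if_neg h7, if_pos h8, if_pos hi, zero_add]
        · have h9 : i.val ≠ k := fun h => hi (Fin.ext h)
          have h10 : (i.val < d - n) ↔ i.val < k := by omega
          simp only [h10, hi, if_false, add_zero]
      linarith
    have hstep : ∀ a b, a0 ≤ a → a ≤ b → b ≤ T →
        S a + (b - a) * (c * ε - A * S b) - C * (b - a)^2 ≤ S b := by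
      intro a b ha hab hbT
      have hsa := hsa0.trans ha
      obtain ⟨h1, h2, h3, h4⟩ := hUμ b (hsa.trans hab)
      obtain ⟨g1, g2, g3, g4⟩ := hUμ a hsa
      have k1 := hC a b hsa hab hbT (U b) h1 (μ b) h4 k
      rw [hSphi b (hsa.trans hab)] at k1
      have k2 : S a ≤ phi k (U b) (x a) := by
        have := kyfan g3 g1 g2 h1 h2 k hk
        rw [← g4] at this
        exact this
      have k3 : c * ε - A * S b ≤ phi k (U b) (dissipator L (x b)) := by
        have := phi_dissipator_ge h1 h2 h3 (hμ0 b (hsa.trans hab)) L k hk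
        rw [← h4] at this
        refine le_trans ?_ this
        have h5 := hCt (U b) h1
        have h6 := hrate (U b) h1
        have h7 := hmu b (ha.trans hab)
        have h8 := hμ0 b (hsa.trans hab) ⟨k, hk⟩
        have h9 : c * μ b ⟨k, hk⟩ ≤ rate k (fun j => (U b)ᴴ * L j * U b) * μ b ⟨k, hk⟩ :=
          mul_le_mul_of_nonneg_right h6 h8
        have h10 : tot (fun j => (U b)ᴴ * L j * U b) * S b ≤ Ct * S b :=
          mul_le_mul_of_nonneg_right h5 (hS0 b (hsa.trans hab))
        have h11 : c * (ε - S b) ≤ c * μ b ⟨k, hk⟩ := mul_le_mul_of_nonneg_left h7 hc.le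
        have h12 : A * S b = c * S b + Ct * S b := by rw [hA]; ring
        have h13 : (∑ i : Fin d, if i.val < k then μ b i else 0) = S b := rfl
        rw [h13]
        linarith
      have hba : 0 ≤ b - a := by linarith
      have k4 := mul_le_mul_of_nonneg_left k3 hba
      linarith
    have hqA : A * q = c * ε := by rw [hq]; field_simp
    have key := exp_comp (h := fun t => S t - q) (a := a0) (b := T) (κ := -A) (C := C)
      (B := 1 + q) (by linarith) hC0 ?_ ?_
    · have h1 : S T ≤ ∑ i : Fin d, if i.val < k then ν i else 0 := by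
        obtain ⟨g1, g2, g3, g4⟩ := hUμ T (by linarith)
        have := kyfan g3 g1 g2 hV (mul_eq_one_comm.mp hV) k hk
        rw [← g4, heV, phi_self hV] at this
        exact this
      have h2 : Real.exp (-A * (T - a0)) ≤ Real.exp (-A) := by
        apply Real.exp_le_exp.mpr
        nlinarith
      have h3 : 0 < Real.exp (-A * (T - a0)) := Real.exp_pos _
      have h4 := hS0 a0 hsa0
      nlinarith [mul_nonneg h3.le h4, mul_le_mul_of_nonneg_right h2 hq0.le]
    · intro t ht1 ht2
      have h1 := hS0 t (hsa0.trans ht1)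
      have h2 := hS1 t (hsa0.trans ht1)
      rw [abs_le]
      constructor <;> linarith
    · intro a b ha hab hbT
      have h1 := hstep a b ha hab hbT
      have h2 : c * ε - A * S b = -A * (S b - q) := by rw [← hqA]; ring
      rw [h2] at h1
      linarith

/-- uniform Doeblin minorisation -/
theorem doeblin (hd : 0 < d) {L : Fin m → Mat d} (hL : Algebra.adjoin ℂ (Set.range L) = ⊤) :
    ∃ ε : ℝ, 0 < ε ∧ ∀ H s x, Drive H → 0 ≤ s → Traj L H s x → (x s).PosSemidef →
      (x s).trace.re = 1 → ∀ t, s + (d - 1 : ℕ) ≤ t → (x t - (ε : ℂ) • (1 : Mat d)).PosSemidef := by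
  obtain ⟨ε, hε, h⟩ := lower hL (d - 1) (by omega)
  refine ⟨ε, hε, fun H s x hH hs hx hp ht1 t ht => ?_⟩
  have hS : STraj L H s x := ⟨hH, hs, hx, fun t ht => hx.posSemidef hd hH hs hp t ht,
    fun t ht => by rw [hx.trace_re hH hs t ht, ht1]⟩
  have hst : s ≤ t := by
    have : (0:ℝ) ≤ ((d - 1 : ℕ) : ℝ) := Nat.cast_nonneg _
    linarith
  obtain ⟨U, h1, h2, μ, h3, h4⟩ := exists_sorted (hS.psd t hst).1
  have h5 := h H s x hS t ht U μ h1 h3 h4
  have h6 : d - (d - 1) = 1 := by omega
  rw [h6, sum_lt_one hd] at h5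
  have h7 : x t - (ε : ℂ) • (1 : Mat d) = U * dg (fun i => μ i - ε) * Uᴴ := by
    have e1 : dg (fun i => μ i - ε) = dg μ - (ε : ℂ) • (1 : Mat d) := by
      unfold dg
      ext i j
      by_cases hij : i = j
      · subst hij; simp
      · simp [hij]
    rw [e1, Matrix.mul_sub, Matrix.sub_mul, ← h4, Matrix.mul_smul, Matrix.smul_mul, Matrix.mul_one,
      h2]
  rw [h7]
  refine posSemidef_of fun i => ?_
  have : μ ⟨0, hd⟩ ≤ μ i := h3 (by rw [Fin.le_def]; exact Nat.zero_le _)
  linarith

end Pool.Agent.X322.Lind
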