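import Pool.Agent.X322.Lind4

open Matrix MeasureTheory Set
open scoped BigOperators ComplexOrder

namespace Pool.Agent.X322.Lind

variable {d m : ℕ}

noncomputable def traceNorm (X : Mat d) : ℝ :=
  ∑ i, Real.sqrt ((Matrix.isHermitian_conjTranspose_mul_self X).eigenvalues i)

structure IsPropagator (L : Fin m → Mat d) (H : ℝ → Mat d)
    (E : ℝ → ℝ → (Mat d →ₗ[ℂ] Mat d)) : Prop where
  cont : ∀ s, 0 ≤ s → ∀ (X : Mat d) (i j : Fin d),
    ContinuousOn (fun t => (E t s X) i j) (Set.Ici s)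
  eq : ∀ s t, 0 ≤ s → s ≤ t → ∀ (X : Mat d) (i j : Fin d),
    (E t s X) i j = X i j + ∫ r in s..t, (lind L H r (E r s X)) i j

lemma traceNorm_eq {U : Mat d} {μ : Fin d → ℝ} (hU1 : Uᴴ * U = 1) (hU2 : U * Uᴴ = 1) :
    traceNorm (U * dg μ * Uᴴ) = ∑ i, |μ i| := by
  unfold traceNorm
  set X := U * dg μ * Uᴴ with hX
  set hh := Matrix.isHermitian_conjTranspose_mul_self X
  have hdg : (dg μ)ᴴ = dg μ := by
    unfold dg
    rw [Matrix.diagonal_conjTranspose]
    congr 1
    funext i
    simp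
  have e1 : Xᴴ * X = U * dg (fun i => (μ i)^2) * Uᴴ := by
    have e2 : dg μ * dg μ = dg (fun i => (μ i)^2) := by
      unfold dg
      rw [Matrix.diagonal_mul_diagonal]
      congr 1
      funext i
      push_cast; ring
    rw [hX, Matrix.conjTranspose_mul, Matrix.conjTranspose_mul, Matrix.conjTranspose_conjTranspose,
      hdg, ← e2]
    calc U * (dg μ * Uᴴ) * (U * dg μ * Uᴴ) = U * dg μ * (Uᴴ * U) * dg μ * Uᴴ := by
          simp only [Matrix.mul_assoc]
      _ = _ := by rw [hU1]; simp only [Matrix.mul_assoc, Matrix.one_mul]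
  have e3 : (Xᴴ * X).charpoly = (dg (fun i => (μ i)^2) : Mat d).charpoly := by
    rw [e1, Matrix.mul_assoc, Matrix.charpoly_mul_comm, Matrix.mul_assoc, hU1, Matrix.mul_one]
  have e4 := hh.roots_charpoly_eq_eigenvalues
  have e5 : (dg (fun i => (μ i)^2) : Mat d).charpoly.roots =
      Multiset.map (fun i => (((μ i)^2 : ℝ) : ℂ)) Finset.univ.val := by
    have e8 : ∀ ν : Fin d → ℂ, (diagonal ν : Mat d).charpoly.roots =
        Multiset.map ν Finset.univ.val := by
      intro ν
      rw [Matrix.charpoly_diagonal, Polynomial.roots_prod]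
      · simp
      · simp [Finset.prod_ne_zero_iff, Polynomial.X_sub_C_ne_zero]
    exact e8 _
  rw [e3, e5] at e4
  have e6 := congrArg (fun S : Multiset ℂ => (S.map (fun z => Real.sqrt z.re)).sum) e4
  simp only [Multiset.map_map] at e6
  have e7 : (Multiset.map ((fun z : ℂ => Real.sqrt z.re) ∘ fun i => (((μ i)^2 : ℝ) : ℂ))
      (Finset.univ : Finset (Fin d)).val).sum = ∑ i, |μ i| := by
    show (∑ i : Fin d, _) = _
    refine Finset.sum_congr rfl fun i _ => ?_
    simp only [Function.comp, Complex.ofReal_re]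
    exact Real.sqrt_sq_eq_abs _
  rw [e7] at e6
  rw [e6]
  rfl

lemma sum_posneg (μ : Fin d → ℝ) :
    (∑ i, |μ i|) = (∑ i, max (μ i) 0) + ∑ i, max (-μ i) 0 := by
  rw [← Finset.sum_add_distrib]
  refine Finset.sum_congr rfl fun i _ => ?_
  rcases le_total 0 (μ i) with h | h
  · rw [abs_of_nonneg h, max_eq_left h, max_eq_right (by linarith)]; ring
  · rw [abs_of_nonpos h, max_eq_right h, max_eq_left (by linarith)]; ring

lemma traceNorm_sub_le {P Q : Mat d} (hP : P.PosSemidef) (hQ : Q.PosSemidef) :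
    traceNorm (P - Q) ≤ P.trace.re + Q.trace.re := by
  obtain ⟨V, h1, h2, ν, h3, h4⟩ := exists_sorted (hP.1.sub hQ.1)
  rw [h4, traceNorm_eq h1 h2]
  have hd1 : ∀ i, ν i = ((Vᴴ * P * V) i i).re - ((Vᴴ * Q * V) i i).re := by
    intro i
    have e : Vᴴ * (P - Q) * V = dg ν := by
      rw [h4, Matrix.mul_assoc V, ← Matrix.mul_assoc Vᴴ, h1, Matrix.one_mul, Matrix.mul_assoc, h1,
        Matrix.mul_one]
    rw [Matrix.mul_sub, Matrix.sub_mul] at e
    have e2 := congrFun (congrFun e i) i
    rw [Matrix.sub_apply] at e2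
    unfold dg at e2
    rw [Matrix.diagonal_apply_eq] at e2
    have := congrArg Complex.re e2
    rw [Complex.sub_re, Complex.ofReal_re] at this
    exact this.symm
  have hpos : ∀ {R : Mat d}, R.PosSemidef → ∀ i, 0 ≤ ((Vᴴ * R * V) i i).re := by
    intro R hR i
    have := (hR.conjTranspose_mul_mul_same V).diag_nonneg (i := i)
    exact (Complex.le_def.mp this).1
  have htr : ∀ R : Mat d, (∑ i, ((Vᴴ * R * V) i i).re) = R.trace.re := by
    intro R
    have : (Vᴴ * R * V).trace = R.trace := by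
      rw [Matrix.trace_mul_comm, ← Matrix.mul_assoc, h2, Matrix.one_mul]
    rw [← this, Matrix.trace, Complex.re_sum]
    rfl
  rw [← htr P, ← htr Q, ← Finset.sum_add_distrib]
  refine Finset.sum_le_sum fun i _ => ?_
  rw [hd1 i, abs_le]
  have := hpos hP i
  have := hpos hQ i
  constructor <;> linarith

variable {L : Fin m → Mat d} {H : ℝ → Mat d} {E : ℝ → ℝ → (Mat d →ₗ[ℂ] Mat d)}

lemma IsPropagator.self (hE : IsPropagator L H E) {s : ℝ} (hs : 0 ≤ s) (X : Mat d) :
    E s s X = X := by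
  ext i j
  rw [hE.eq s s hs le_rfl X i j]
  simp

lemma IsPropagator.traj (hE : IsPropagator L H E) {s : ℝ} (hs : 0 ≤ s) (X : Mat d) :
    Traj L H s (fun t => E t s X) where
  cont i j := hE.cont s hs X i j
  eq t ht i j := by
    simp only [hE.self hs]
    exact hE.eq s t hs ht X i j

lemma IsPropagator.comp (hH : Drive H) (hE : IsPropagator L H E) {s r t : ℝ} (hs : 0 ≤ s)
    (hsr : s ≤ r) (hrt : r ≤ t) (X : Mat d) : E t s X = E t r (E r s X) := by
  have h1 := (hE.traj hs X).restrict hH hs hsr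
  have h2 := hE.traj (hs.trans hsr) (E r s X)
  exact h1.unique hH (hs.trans hsr) h2 (by simp only [hE.self (hs.trans hsr)]) t hrt

/-- contraction of the trace norm along one block of time -/
lemma contr (hd : 0 < d) (hH : Drive H) (hE : IsPropagator L H E) {ε : ℝ} (hε : 0 ≤ ε)
    {r t : ℝ} (hr : 0 ≤ r) (hrt : r ≤ t)
    (hD : ∀ ρ : Mat d, ρ.PosSemidef → ρ.trace.re = 1 →
      (E t r ρ - (ε : ℂ) • (1 : Mat d)).PosSemidef)
    {Y : Mat d} (hY : Y.IsHermitian) (htr : Y.trace.re = 0) :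
    traceNorm (E t r Y) ≤ (1 - d * ε) * traceNorm Y := by
  obtain ⟨U, h1, h2, μ, h3, h4⟩ := exists_sorted hY
  have hsum0 : ∑ i, μ i = 0 := by
    rw [← trace_eq_sum h1, ← h4, htr]
  set p := ∑ i, max (μ i) 0 with hp
  have hpm : ∑ i, max (-μ i) 0 = p := by
    have : ∀ i, max (μ i) 0 - max (-μ i) 0 = μ i := by
      intro i
      rcases le_total 0 (μ i) with h | h
      · rw [max_eq_left h, max_eq_right (by linarith)]; ring
      · rw [max_eq_right h, max_eq_left (by linarith)]; ring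
    have h5 : (∑ i, max (μ i) 0) - ∑ i, max (-μ i) 0 = 0 := by
      rw [← Finset.sum_sub_distrib]
      refine Eq.trans (Finset.sum_congr rfl fun i _ => this i) hsum0
    linarith
  have hYn : traceNorm Y = 2 * p := by
    rw [h4, traceNorm_eq h1 h2, sum_posneg, hpm]; ring
  have hp0 : 0 ≤ p := Finset.sum_nonneg fun i _ => le_max_right _ _
  rcases hp0.eq_or_lt with hp0 | hp0
  · -- Y = 0
    have hμ0 : ∀ i, μ i = 0 := by
      intro i
      have h5 : ∑ i, |μ i| = 0 := by rw [sum_posneg, hpm, ← hp, ← hp0]; ring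
      rw [Finset.sum_eq_zero_iff_of_nonneg (fun i _ => abs_nonneg _)] at h5
      exact abs_eq_zero.mp (h5 i (Finset.mem_univ i))
    have hY0 : Y = 0 := by
      rw [h4]
      have : dg μ = 0 := by
        unfold dg
        ext i j
        simp [hμ0, Matrix.diagonal_apply]
      rw [this]; simp
    have h0 : (E t r) Y = Y := by rw [hY0, map_zero]
    rw [h0, hYn, ← hp0]; simp
  · set Yp : Mat d := U * dg (fun i => max (μ i) 0 / p) * Uᴴ with hYp
    set Ym : Mat d := U * dg (fun i => max (-μ i) 0 / p) * Uᴴ with hYm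
    have hYdec : Y = (p : ℂ) • (Yp - Ym) := by
      rw [hYp, hYm, ← Matrix.sub_mul, ← Matrix.mul_sub, ← Matrix.smul_mul, ← Matrix.mul_smul]
      rw [h4]
      congr 2
      unfold dg
      ext i j
      by_cases hij : i = j
      · subst hij
        simp only [Matrix.diagonal_apply_eq, Matrix.smul_apply, Matrix.sub_apply, smul_eq_mul]
        have : μ i = p * (max (μ i) 0 / p - max (-μ i) 0 / p) := by
          field_simp
          rcases le_total 0 (μ i) with h | h
          · rw [max_eq_left h, max_eq_right (by linarith)]; ring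
          · rw [max_eq_right h, max_eq_left (by linarith)]; ring
        exact_mod_cast this
      · simp [hij]
    have hYp1 : Yp.PosSemidef := posSemidef_of fun i => div_nonneg (le_max_right _ _) hp0.le
    have hYm1 : Ym.PosSemidef := posSemidef_of fun i => div_nonneg (le_max_right _ _) hp0.le
    have hYp2 : Yp.trace.re = 1 := by
      rw [hYp, trace_eq_sum h1, ← Finset.sum_div, ← hp, div_self hp0.ne']
    have hYm2 : Ym.trace.re = 1 := by
      rw [hYm, trace_eq_sum h1, ← Finset.sum_div, hpm, div_self hp0.ne']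
    have hA := hD Yp hYp1 hYp2
    have hB := hD Ym hYm1 hYm2
    have htrE : ∀ ρ : Mat d, ρ.trace.re = 1 →
        (E t r ρ - (ε : ℂ) • (1 : Mat d)).trace.re = 1 - d * ε := by
      intro ρ hρ
      have h5 := (hE.traj hr ρ).trace_re hH hr t hrt
      simp only [hE.self hr] at h5
      rw [Matrix.trace_sub, Matrix.trace_smul, Matrix.trace_one, Complex.sub_re, h5, hρ]
      simp [mul_comm]
    have hpc : (0:ℂ) ≤ (p : ℂ) := by exact_mod_cast hp0.le
    have hPA := hA.smul hpc
    have hPB := hB.smul hpc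
    have hdec : E t r Y = (p : ℂ) • (E t r Yp - (ε : ℂ) • (1 : Mat d)) -
        (p : ℂ) • (E t r Ym - (ε : ℂ) • (1 : Mat d)) := by
      rw [hYdec, map_smul, map_sub, ← smul_sub]
      congr 1
      abel
    rw [hdec]
    refine (traceNorm_sub_le hPA hPB).trans ?_
    rw [Matrix.trace_smul, Matrix.trace_smul, hYn]
    simp only [smul_eq_mul, Complex.re_ofReal_mul]
    rw [htrE Yp hYp2, htrE Ym hYm2]
    apply le_of_eq; ring

theorem main (hd : 2 ≤ d) (hL : Algebra.adjoin ℂ (Set.range L) = ⊤) :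
    ∃ K : ℝ, 0 < K ∧ ∃ γ : ℝ, 0 < γ ∧ ∀ H : ℝ → Mat d, Drive H →
      ∀ E : ℝ → ℝ → (Mat d →ₗ[ℂ] Mat d), IsPropagator L H E →
      ∀ ρ σ : Mat d, ρ.PosSemidef → ρ.trace = 1 → σ.PosSemidef → σ.trace = 1 →
      ∀ s t : ℝ, 0 ≤ s → s ≤ t →
        traceNorm (E t s ρ - E t s σ) ≤ K * Real.exp (-γ * (t - s)) * traceNorm (ρ - σ) := by
  obtain ⟨ε, hε, hdoe⟩ := doeblin (by omega) hL
  set N : ℝ := ((d - 1 : ℕ) : ℝ) with hN
  have hN1 : (1:ℝ) ≤ N := by rw [hN]; exact_mod_cast (by omega : 1 ≤ d - 1)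
  have hN0 : 0 < N := by linarith
  set q : ℝ := max (1 - d * ε) (1/2) with hq
  have hq0 : 0 < q := lt_of_lt_of_le (by norm_num) (le_max_right _ _)
  have hq1 : q < 1 := by
    rw [hq, max_lt_iff]
    refine ⟨?_, by norm_num⟩
    have : (0:ℝ) < d := by exact_mod_cast (by omega : 0 < d)
    nlinarith
  have hlog : Real.log q < 0 := Real.log_neg hq0 hq1
  refine ⟨1 / q, by positivity, -Real.log q / N, div_pos (by linarith) hN0, ?_⟩
  intro H hH E hE ρ σ hρ hρ1 hσ hσ1 s t hs hst
  have htn0 : ∀ X : Mat d, 0 ≤ traceNorm X := fun X =>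
    Finset.sum_nonneg fun i _ => Real.sqrt_nonneg _
  have hherm : ∀ {a b : ℝ}, 0 ≤ a → a ≤ b → ∀ {Y : Mat d}, Y.IsHermitian → (E b a Y).IsHermitian := by
    intro a b ha hab Y hY
    exact (hE.traj ha Y).hermitian hH ha (by simpa only [hE.self ha] using hY) b hab
  have htrace : ∀ {a b : ℝ}, 0 ≤ a → a ≤ b → ∀ {Y : Mat d}, Y.trace.re = 0 →
      (E b a Y).trace.re = 0 := by
    intro a b ha hab Y hY
    have := (hE.traj ha Y).trace_re hH ha b hab
    simp only [hE.self ha] at this
    rw [this, hY]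
  have hweak : ∀ {a b : ℝ}, 0 ≤ a → a ≤ b → ∀ {Y : Mat d}, Y.IsHermitian → Y.trace.re = 0 →
      traceNorm (E b a Y) ≤ traceNorm Y := by
    intro a b ha hab Y hY hY0
    have := contr (by omega) hH hE (ε := 0) le_rfl ha hab (fun ρ h1 h2 => by
      have := (hE.traj ha ρ).posSemidef (by omega) hH ha (by simpa only [hE.self ha] using h1) b hab
      simpa using this) hY hY0
    simpa using this
  have hstrong : ∀ {a b : ℝ}, 0 ≤ a → a + N ≤ b → ∀ {Y : Mat d}, Y.IsHermitian → Y.trace.re = 0 →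
      traceNorm (E b a Y) ≤ q * traceNorm Y := by
    intro a b ha hab Y hY hY0
    have hab' : a ≤ b := by linarith
    have := contr (by omega) hH hE (ε := ε) hε.le ha hab' (fun ρ h1 h2 => by
      exact hdoe H a (fun t => E t a ρ) hH ha (hE.traj ha ρ)
        (by simpa only [hE.self ha] using h1) (by simpa only [hE.self ha] using h2) b hab) hY hY0
    exact this.trans (mul_le_mul_of_nonneg_right (le_max_left _ _) (htn0 _))
  have hiter : ∀ n : ℕ, ∀ b : ℝ, s + n * N ≤ b → ∀ {Y : Mat d}, Y.IsHermitian → Y.trace.re = 0 →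
      traceNorm (E b s Y) ≤ q ^ n * traceNorm Y := by
    intro n
    induction n with
    | zero =>
      intro b hb Y hY hY0
      rw [pow_zero, one_mul]
      exact hweak hs (by simpa using hb) hY hY0
    | succ n ih =>
      intro b hb Y hY hY0
      push_cast at hb
      have hr : s ≤ s + n * N := by
        have : 0 ≤ (n:ℝ) * N := by positivity
        linarith
      rw [hE.comp hH hs hr (by nlinarith : s + n * N ≤ b)]
      refine (hstrong (hs.trans hr) (by linarith) (hherm hs hr hY) (htrace hs hr hY0)).trans ?_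
      rw [pow_succ, mul_comm (q^n) q, mul_assoc]
      exact mul_le_mul_of_nonneg_left (ih _ le_rfl hY hY0) hq0.le
  have hX : (ρ - σ).IsHermitian := hρ.1.sub hσ.1
  have hX0 : (ρ - σ).trace.re = 0 := by rw [Matrix.trace_sub, hρ1, hσ1]; simp
  rw [← map_sub]
  set n := ⌊(t - s) / N⌋₊ with hn
  have hts : 0 ≤ (t - s) / N := div_nonneg (by linarith) hN0.le
  have hn1 : (n:ℝ) ≤ (t - s) / N := Nat.floor_le hts
  have hn2 : (t - s) / N < n + 1 := Nat.lt_floor_add_one _
  have h1 := hiter n t (by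
    have : (n:ℝ) * N ≤ t - s := by rwa [le_div_iff₀ hN0] at hn1
    linarith) hX hX0
  refine h1.trans (mul_le_mul_of_nonneg_right ?_ (htn0 _))
  have e1 : q ^ n = Real.exp (n * Real.log q) := by
    rw [mul_comm, Real.exp_mul, Real.exp_log hq0, Real.rpow_natCast]
  have e2 : 1 / q = Real.exp (-Real.log q) := by
    rw [Real.exp_neg, Real.exp_log hq0, one_div]
  rw [e1, e2, ← Real.exp_add]
  apply Real.exp_le_exp.mpr
  have e3 : -(-Real.log q / N) * (t - s) = Real.log q * ((t - s) / N) := by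
    field_simp
  rw [e3]
  nlinarith

end Pool.Agent.X322.Lind
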