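import Mathlib

set_option autoImplicit false

/-! Counting lemma: independent patterns on disjoint blocks of coordinates. -/

namespace Pool.Agent.X322.Met

open Finset

section count

variable {I : Type*} [Fintype I] [DecidableEq I] {ι : Type*} [DecidableEq ι]

/-- configurations avoiding the pattern `s i` on the block `S i` for every `i ∈ T` -/
def avoid (S : ι → Finset I) (s : ι → I → Bool) (T : Finset ι) : Finset (I → Bool) :=
  univ.filter fun x => ∀ i ∈ T, ∃ e ∈ S i, x e ≠ s i e

theorem avoid_insert_bound (S : ι → Finset I) (s : ι → I → Bool) (k : ℕ) (T : Finset ι) (j : ι)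
    (hj : j ∉ T) (hdis : ∀ i ∈ T, Disjoint (S i) (S j)) (hk : (S j).card ≤ k) :
    (avoid S s (insert j T)).card * 2 ^ k ≤ (2 ^ k - 1) * (avoid S s T).card := by
  classical
  set M : Finset (I → Bool) := (avoid S s T).filter fun x => ∀ e ∈ S j, x e = s j e with hM
  have h1 : avoid S s (insert j T) = (avoid S s T) \ M := by
    ext x
    simp only [avoid, hM, mem_filter, mem_univ, true_and, mem_sdiff, mem_insert, forall_eq_or_imp]
    constructor
    · rintro ⟨⟨e, he, hne⟩, h⟩
      exact ⟨h, fun hc => hne (hc.2 e he)⟩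
    · rintro ⟨h, hc⟩
      refine ⟨?_, h⟩
      by_contra hcon
      push Not at hcon
      exact hc ⟨h, hcon⟩
  have hMsub : M ⊆ avoid S s T := filter_subset _ _
  have h2 : (avoid S s T).card ≤ M.card * 2 ^ k := by
    have hinj : Set.InjOn (fun x : I → Bool =>
        ((fun e => if e ∈ S j then s j e else x e : I → Bool),
          (fun e : S j => x e : S j → Bool))) (avoid S s T : Set (I → Bool)) := by
      intro x _ y _ hxy
      simp only [Prod.mk.injEq] at hxy
      funext e
      by_cases he : e ∈ S j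
      · exact congrFun hxy.2 ⟨e, he⟩
      · have := congrFun hxy.1 e
        simpa [he] using this
    have hmaps : ∀ x ∈ avoid S s T, (fun x : I → Bool =>
        ((fun e => if e ∈ S j then s j e else x e : I → Bool),
          (fun e : S j => x e : S j → Bool))) x ∈ M ×ˢ (univ : Finset (S j → Bool)) := by
      intro x hx
      simp only [mem_product, mem_univ, and_true, hM, mem_filter, avoid, true_and] at hx ⊢
      refine ⟨fun i hi => ?_, fun e he => by simp [he]⟩
      obtain ⟨e, he, hne⟩ := hx i hi
      refine ⟨e, he, ?_⟩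
      have : e ∉ S j := fun hc => (Finset.disjoint_left.1 (hdis i hi)) he hc
      simpa [this] using hne
    have := Finset.card_le_card_of_injOn _ hmaps hinj
    rw [card_product, card_univ] at this
    refine this.trans (Nat.mul_le_mul_left _ ?_)
    rw [Fintype.card_fun, Fintype.card_bool, Fintype.card_coe]
    exact Nat.pow_le_pow_right (by norm_num) hk
  have h3 : (avoid S s (insert j T)).card = (avoid S s T).card - M.card := by
    rw [h1, card_sdiff_of_subset hMsub]
  rw [h3, Nat.sub_mul, Nat.sub_mul, one_mul]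
  have : (avoid S s T).card * 2 ^ k = 2 ^ k * (avoid S s T).card := mul_comm _ _
  omega

theorem avoid_bound (S : ι → Finset I) (s : ι → I → Bool) (k : ℕ) (T : Finset ι)
    (hdis : ∀ i ∈ T, ∀ j ∈ T, i ≠ j → Disjoint (S i) (S j)) (hk : ∀ i ∈ T, (S i).card ≤ k) :
    (avoid S s T).card * (2 ^ k) ^ T.card ≤ (2 ^ k - 1) ^ T.card * Fintype.card (I → Bool) := by
  classical
  induction T using Finset.induction_on with
  | empty =>
    simp only [card_empty, pow_zero, mul_one, one_mul]
    exact (Finset.card_le_univ _)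
  | insert j T hj ih =>
    have ih' := ih (fun i hi i' hi' => hdis i (mem_insert_of_mem hi) i' (mem_insert_of_mem hi'))
      (fun i hi => hk i (mem_insert_of_mem hi))
    have hb := avoid_insert_bound S s k T j hj
      (fun i hi => hdis i (mem_insert_of_mem hi) j (mem_insert_self _ _)
        (fun h => hj (h ▸ hi))) (hk j (mem_insert_self _ _))
    rw [card_insert_of_notMem hj, pow_succ, pow_succ]
    calc (avoid S s (insert j T)).card * ((2 ^ k) ^ T.card * 2 ^ k)
        = ((avoid S s (insert j T)).card * 2 ^ k) * (2 ^ k) ^ T.card := by ring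
      _ ≤ ((2 ^ k - 1) * (avoid S s T).card) * (2 ^ k) ^ T.card := Nat.mul_le_mul_right _ hb
      _ = (2 ^ k - 1) * ((avoid S s T).card * (2 ^ k) ^ T.card) := by ring
      _ ≤ (2 ^ k - 1) * ((2 ^ k - 1) ^ T.card * Fintype.card (I → Bool)) :=
        Nat.mul_le_mul_left _ ih'
      _ = _ := by ring

/-- real version -/
theorem avoid_bound_real (S : ι → Finset I) (s : ι → I → Bool) (k : ℕ) (T : Finset ι)
    (hdis : ∀ i ∈ T, ∀ j ∈ T, i ≠ j → Disjoint (S i) (S j)) (hk : ∀ i ∈ T, (S i).card ≤ k) :
    ((avoid S s T).card : ℝ) ≤ (1 - (1 / 2) ^ k) ^ T.card * Fintype.card (I → Bool) := by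
  have h := avoid_bound S s k T hdis hk
  have h' : ((avoid S s T).card : ℝ) * ((2 : ℝ) ^ k) ^ T.card
      ≤ ((2 : ℝ) ^ k - 1) ^ T.card * Fintype.card (I → Bool) := by
    have : (((avoid S s T).card * (2 ^ k) ^ T.card : ℕ) : ℝ)
      ≤ (((2 ^ k - 1) ^ T.card * Fintype.card (I → Bool) : ℕ) : ℝ) := by exact_mod_cast h
    have h1 : (1 : ℕ) ≤ 2 ^ k := Nat.one_le_two_pow
    push_cast [Nat.cast_sub h1] at this
    exact this
  have hpos : (0 : ℝ) < ((2 : ℝ) ^ k) ^ T.card := by positivity
  rw [← mul_le_mul_iff_left₀ hpos]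
  refine h'.trans (le_of_eq ?_)
  have : (1 - (1 / 2 : ℝ) ^ k) * 2 ^ k = 2 ^ k - 1 := by
    rw [sub_mul, one_mul, ← mul_pow]; norm_num
  rw [← this, mul_pow]
  ring

end count

end Pool.Agent.X322.Met
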