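import Mathlib

set_option autoImplicit false

/-! Path systems: the deterministic part. -/

namespace Pool.Agent.X322.Met

open Finset

section defs

variable {V : Type}

def IsSimplePath (G : SimpleGraph V) (u v : V) (l : List V) : Prop :=
  l.head? = some u ∧ l.getLast? = some v ∧ l.IsChain G.Adj ∧ l.Nodup

def IsPathSystem (G : SimpleGraph V) (P : V → V → List V) : Prop :=
  (∀ u v, IsSimplePath G u v (P u v)) ∧ ∀ u v, P v u = (P u v).reverse

def Consistent (P : V → V → List V) : Prop :=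
  ∀ u v (l : List V), l <:+: P u v → ∀ x y, l.head? = some x → l.getLast? = some y → P x y = l

def weight (w : Sym2 V → ℝ) (l : List V) : ℝ :=
  (List.zipWith (fun a b => w s(a, b)) l l.tail).sum

def Metrizable (G : SimpleGraph V) (P : V → V → List V) : Prop :=
  ∃ w : Sym2 V → ℝ, (∀ e ∈ G.edgeSet, 0 < w e) ∧
    ∀ u v (Q : List V), IsSimplePath G u v Q → weight w (P u v) ≤ weight w Q

def IsReduction (P : V → V → List V) (A B : Set V) : Prop :=
  A ∪ B = Set.univ ∧ Disjoint A B ∧ A.Nonempty ∧ B.Nonempty ∧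
    (∀ u ∈ A, ∀ v ∈ A, ∀ x ∈ P u v, x ∈ A) ∧ (∀ u ∈ B, ∀ v ∈ B, ∀ x ∈ P u v, x ∈ B)

def Good (G : SimpleGraph V) : Prop :=
  ∃ P : V → V → List V, IsPathSystem G P ∧ Consistent P ∧ (¬ ∃ A B, IsReduction P A B) ∧
    ¬ Metrizable G P

end defs

/-! ### The gadget -/

/-- adjacency of the gadget -/
def hadj (i j : Fin 7) : Bool :=
  (i.val, j.val) ∈ [(0,5),(0,6),(1,2),(1,5),(2,3),(2,4),(2,6),(3,5),(4,5),
    (5,0),(6,0),(2,1),(5,1),(3,2),(4,2),(6,2),(5,3),(5,4)]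

/-- path system of the gadget -/
def PH (i j : Fin 7) : List (Fin 7) :=
  if i = j then [i] else if hadj i j then [i, j] else
  match i.val, j.val with
  | 0, 1 => [0, 6, 2, 1]
  | 1, 0 => [1, 2, 6, 0]
  | 0, 2 => [0, 6, 2]
  | 2, 0 => [2, 6, 0]
  | 0, 3 => [0, 5, 3]
  | 3, 0 => [3, 5, 0]
  | 0, 4 => [0, 5, 4]
  | 4, 0 => [4, 5, 0]
  | 1, 3 => [1, 2, 3]
  | 3, 1 => [3, 2, 1]
  | 1, 4 => [1, 5, 4]
  | 4, 1 => [4, 5, 1]
  | 1, 6 => [1, 2, 6]
  | 6, 1 => [6, 2, 1]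
  | 2, 5 => [2, 4, 5]
  | 5, 2 => [5, 4, 2]
  | 3, 4 => [3, 2, 4]
  | 4, 3 => [4, 2, 3]
  | 3, 6 => [3, 5, 0, 6]
  | 6, 3 => [6, 0, 5, 3]
  | 4, 6 => [4, 5, 0, 6]
  | 6, 4 => [6, 0, 5, 4]
  | 5, 6 => [5, 0, 6]
  | 6, 5 => [6, 0, 5]
  | _, _ => []

theorem PH_path : ∀ i j : Fin 7, (PH i j).head? = some i ∧ (PH i j).getLast? = some j ∧
    (PH i j).IsChain (fun a b => hadj a b = true) ∧ (PH i j).Nodup := by decide

theorem PH_rev : ∀ i j : Fin 7, PH j i = (PH i j).reverse := by decide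

theorem PH_cons' : ∀ i j : Fin 7, ∀ t ∈ (PH i j).tails, ∀ l ∈ t.inits, ∀ x y : Fin 7,
    l.head? = some x → l.getLast? = some y → PH x y = l := by decide

theorem PH_cons (i j : Fin 7) (l : List (Fin 7)) (hl : l <:+: PH i j) (x y : Fin 7)
    (hx : l.head? = some x) (hy : l.getLast? = some y) : PH x y = l := by
  obtain ⟨t, h1, h2⟩ := List.infix_iff_prefix_suffix.1 hl
  exact PH_cons' i j t ((List.mem_tails _ _).2 h2) l ((List.mem_inits _ _).2 h1) x y hx hy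

theorem hadj_symm : ∀ i j : Fin 7, hadj i j = hadj j i := by decide

theorem hadj_irrefl : ∀ i : Fin 7, hadj i i = false := by decide

end Pool.Agent.X322.Met
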