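import Pool.Agent.X322.Met2

set_option autoImplicit false

/-! The path system on a graph containing the gadget. -/

namespace Pool.Agent.X322.Met

open Finset

section sys

variable {V : Type} [AddCommGroup V] (G : SimpleGraph V) (φ : Fin 7 → V)

open Classical in
noncomputable def mid (u v : V) : V :=
  if G.Adj u (-u - v) ∧ G.Adj v (-u - v) then -u - v else
    @Classical.epsilon V ⟨0⟩ (fun w => G.Adj u w ∧ G.Adj v w)

open Classical in
noncomputable def PG (u v : V) : List V :=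
  if h : (∃ i, φ i = u) ∧ (∃ j, φ j = v) then (PH h.1.choose h.2.choose).map φ else
  if u = v then [u] else if G.Adj u v then [u, v] else [u, mid G u v, v]

theorem mid_symm (u v : V) : mid G v u = mid G u v := by
  unfold mid
  have h : -v - u = -u - v := by abel
  rw [h]
  have h3 : (fun w => G.Adj v w ∧ G.Adj u w) = (fun w => G.Adj u w ∧ G.Adj v w) := by
    funext w
    rw [and_comm]
  rw [h3]
  classical
  exact if_congr and_comm rfl rfl

variable {G φ}

theorem mid_spec (hE2 : ∀ u v, u ≠ v → ∃ w, G.Adj u w ∧ G.Adj v w) {u v : V} (huv : u ≠ v) :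
    G.Adj u (mid G u v) ∧ G.Adj v (mid G u v) := by
  unfold mid
  split_ifs with h
  · exact h
  · exact @Classical.epsilon_spec V (fun w => G.Adj u w ∧ G.Adj v w) (hE2 u v huv)

theorem mid_eq {u v : V} (h : G.Adj u (-u - v) ∧ G.Adj v (-u - v)) : mid G u v = -u - v := by
  unfold mid
  rw [if_pos h]

theorem PG_phi (hφ : Function.Injective φ) (i j : Fin 7) :
    PG G φ (φ i) (φ j) = (PH i j).map φ := by
  unfold PG
  have h : (∃ i', φ i' = φ i) ∧ (∃ j', φ j' = φ j) := ⟨⟨i, rfl⟩, ⟨j, rfl⟩⟩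
  rw [dif_pos h]
  have h1 : h.1.choose = i := hφ h.1.choose_spec
  have h2 : h.2.choose = j := hφ h.2.choose_spec
  rw [h1, h2]

theorem PG_self (hφ : Function.Injective φ) (u : V) : PG G φ u u = [u] := by
  by_cases h : ∃ i, φ i = u
  · obtain ⟨i, rfl⟩ := h
    rw [PG_phi hφ]
    simp [PH]
  · unfold PG
    rw [dif_neg (fun hc => h hc.1), if_pos rfl]

theorem PG_adj (hφ : Function.Injective φ) (hadjφ : ∀ i j, G.Adj (φ i) (φ j) ↔ hadj i j = true)
    {u v : V} (huv : G.Adj u v) : PG G φ u v = [u, v] := by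
  by_cases h : (∃ i, φ i = u) ∧ (∃ j, φ j = v)
  · obtain ⟨⟨i, rfl⟩, ⟨j, rfl⟩⟩ := h
    rw [PG_phi hφ]
    have h1 : hadj i j = true := (hadjφ i j).1 huv
    have h2 : i ≠ j := fun hc => huv.ne (by rw [hc])
    simp [PH, h1, h2]
  · unfold PG
    rw [dif_neg h, if_neg huv.ne, if_pos huv]

theorem PG_else {u v : V} (h : ¬ ((∃ i, φ i = u) ∧ (∃ j, φ j = v))) (hne : u ≠ v)
    (hadj : ¬ G.Adj u v) : PG G φ u v = [u, mid G u v, v] := by
  unfold PG
  rw [dif_neg h, if_neg hne, if_neg hadj]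

/-- case analysis -/
theorem PG_cases (hφ : Function.Injective φ)
    (hadjφ : ∀ i j, G.Adj (φ i) (φ j) ↔ hadj i j = true)
    (hE2 : ∀ u v, u ≠ v → ∃ w, G.Adj u w ∧ G.Adj v w) (u v : V) :
    (∃ i j, φ i = u ∧ φ j = v ∧ PG G φ u v = (PH i j).map φ) ∨
    (u = v ∧ PG G φ u v = [u]) ∨ (G.Adj u v ∧ PG G φ u v = [u, v]) ∨
    (∃ m, G.Adj u m ∧ G.Adj v m ∧ u ≠ v ∧ m = mid G u v ∧ ¬ G.Adj u v ∧
      ¬ ((∃ i, φ i = u) ∧ (∃ j, φ j = v)) ∧ PG G φ u v = [u, m, v]) := by
  by_cases h : (∃ i, φ i = u) ∧ (∃ j, φ j = v)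
  · obtain ⟨⟨i, rfl⟩, ⟨j, rfl⟩⟩ := h
    exact Or.inl ⟨i, j, rfl, rfl, PG_phi hφ i j⟩
  · by_cases h2 : u = v
    · subst h2
      exact Or.inr (Or.inl ⟨rfl, PG_self hφ u⟩)
    · by_cases h3 : G.Adj u v
      · exact Or.inr (Or.inr (Or.inl ⟨h3, PG_adj hφ hadjφ h3⟩))
      · have := mid_spec hE2 h2
        exact Or.inr (Or.inr (Or.inr ⟨mid G u v, this.1, this.2, h2, rfl, h3, h, PG_else h h2 h3⟩))

theorem PG_path (hφ : Function.Injective φ)
    (hadjφ : ∀ i j, G.Adj (φ i) (φ j) ↔ hadj i j = true)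
    (hE2 : ∀ u v, u ≠ v → ∃ w, G.Adj u w ∧ G.Adj v w) (u v : V) :
    IsSimplePath G u v (PG G φ u v) := by
  rcases PG_cases hφ hadjφ hE2 u v with ⟨i, j, rfl, rfl, h⟩ | ⟨rfl, h⟩ | ⟨ha, h⟩ |
      ⟨m, h1, h2, hne, -, -, -, h⟩
  · rw [h]
    obtain ⟨p1, p2, p3, p4⟩ := PH_path i j
    refine ⟨by simp [p1], by simp [p2], ?_, p4.map hφ⟩
    rw [List.isChain_map]
    exact p3.imp (fun a b hab => (hadjφ a b).2 hab)
  · rw [h]
    simp [IsSimplePath]
  · rw [h]
    simp [IsSimplePath, ha, ha.ne]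
  · rw [h]
    simp [IsSimplePath, h1, h2.symm, hne, h1.ne, h2.ne.symm]

theorem PG_system (hφ : Function.Injective φ)
    (hadjφ : ∀ i j, G.Adj (φ i) (φ j) ↔ hadj i j = true)
    (hE2 : ∀ u v, u ≠ v → ∃ w, G.Adj u w ∧ G.Adj v w) : IsPathSystem G (PG G φ) := by
  refine ⟨PG_path hφ hadjφ hE2, fun u v => ?_⟩
  rcases PG_cases hφ hadjφ hE2 u v with ⟨i, j, rfl, rfl, h⟩ | ⟨rfl, h⟩ | ⟨ha, h⟩ |
      ⟨m, h1, h2, hne, hm, hna, hr, h⟩
  · rw [h, PG_phi hφ, PH_rev i j, List.map_reverse]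
  · rw [h]; rfl
  · rw [h, PG_adj hφ hadjφ ha.symm]; rfl
  · rw [h, PG_else (fun hc => hr ⟨hc.2, hc.1⟩) hne.symm (fun hc => hna hc.symm), mid_symm, ← hm]
    rfl

theorem PG_consistent (hφ : Function.Injective φ)
    (hadjφ : ∀ i j, G.Adj (φ i) (φ j) ↔ hadj i j = true)
    (hE2 : ∀ u v, u ≠ v → ∃ w, G.Adj u w ∧ G.Adj v w) : Consistent (PG G φ) := by
  intro u v l hl x y hx hy
  obtain ⟨t, hpre, hsuf⟩ := List.infix_iff_prefix_suffix.1 hl
  rcases PG_cases hφ hadjφ hE2 u v with ⟨i, j, rfl, rfl, h⟩ | ⟨rfl, h⟩ | ⟨ha, h⟩ |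
      ⟨m, h1, h2, hne, hm, hna, hr, h⟩
  · rw [h] at hl
    obtain ⟨a, b, hab⟩ := hl
    obtain ⟨l1, l2, hL, hl1, hl2⟩ := List.map_eq_append_iff.1 hab.symm
    obtain ⟨l3, l4, hL', hl3, hl4⟩ := List.map_eq_append_iff.1 hl1
    have hinf : l4 <:+: PH i j := ⟨l3, l2, by rw [hL, hL']⟩
    rw [← hl4] at hx hy ⊢
    rw [List.head?_map] at hx
    rw [List.getLast?_map] at hy
    obtain ⟨x', hx', rfl⟩ := Option.map_eq_some_iff.1 hx
    obtain ⟨y', hy', rfl⟩ := Option.map_eq_some_iff.1 hy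
    rw [PG_phi hφ, PH_cons i j l4 hinf x' y' hx' hy']
  · rw [h] at hsuf
    rw [← List.mem_tails] at hsuf
    rw [← List.mem_inits] at hpre
    simp only [List.tails, List.mem_cons, List.not_mem_nil, or_false] at hsuf
    rcases hsuf with rfl | rfl <;>
      simp only [List.inits, List.mem_cons, List.map_cons, List.map_nil,
        List.not_mem_nil, or_false] at hpre
    · rcases hpre with rfl | rfl
      · simp at hx
      · simp at hx hy
        subst hx
        subst hy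
        exact PG_self hφ _
    · subst hpre
      simp at hx
  · rw [h] at hsuf
    rw [← List.mem_tails] at hsuf
    rw [← List.mem_inits] at hpre
    simp only [List.tails, List.mem_cons, List.not_mem_nil, or_false] at hsuf
    rcases hsuf with rfl | rfl | rfl <;>
      simp only [List.inits, List.mem_cons, List.map_cons, List.map_nil,
        List.not_mem_nil, or_false] at hpre
    · rcases hpre with rfl | rfl | rfl
      · simp at hx
      · simp at hx hy
        subst hx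
        subst hy
        exact PG_self hφ _
      · simp at hx hy
        subst hx
        subst hy
        exact PG_adj hφ hadjφ ha
    · rcases hpre with rfl | rfl
      · simp at hx
      · simp at hx hy
        subst hx
        subst hy
        exact PG_self hφ _
    · subst hpre
      simp at hx
  · rw [h] at hsuf
    rw [← List.mem_tails] at hsuf
    rw [← List.mem_inits] at hpre
    simp only [List.tails, List.mem_cons, List.not_mem_nil, or_false] at hsuf
    rcases hsuf with rfl | rfl | rfl | rfl <;>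
      simp only [List.inits, List.mem_cons, List.map_cons, List.map_nil,
        List.not_mem_nil, or_false] at hpre
    · rcases hpre with rfl | rfl | rfl | rfl
      · simp at hx
      · simp at hx hy
        rw [← hx, ← hy]
        exact PG_self hφ _
      · simp at hx hy
        rw [← hx, ← hy]
        exact PG_adj hφ hadjφ h1
      · simp at hx hy
        rw [← hx, ← hy]
        exact h
    · rcases hpre with rfl | rfl | rfl
      · simp at hx
      · simp at hx hy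
        rw [← hx, ← hy]
        exact PG_self hφ _
      · simp at hx hy
        rw [← hx, ← hy]
        exact PG_adj hφ hadjφ h2.symm
    · rcases hpre with rfl | rfl
      · simp at hx
      · simp at hx hy
        rw [← hx, ← hy]
        exact PG_self hφ _
    · subst hpre
      simp at hx

theorem PG_irreducible
    (hE3 : ∀ A : Set V, A.Nonempty → Aᶜ.Nonempty → ∃ x y, (x ∈ A ↔ y ∈ A) ∧
      (x ∈ A ↔ -x - y ∉ A) ∧ x ≠ y ∧ ¬ G.Adj x y ∧ G.Adj x (-x - y) ∧ G.Adj y (-x - y) ∧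
      ¬ ((∃ i, φ i = x) ∧ (∃ j, φ j = y))) : ¬ ∃ A B, IsReduction (PG G φ) A B := by
  rintro ⟨A, B, hU, hD, hA, hB, h1, h2⟩
  have hBc : B = Aᶜ := by
    ext x
    constructor
    · intro hx hxA
      exact (Set.disjoint_left.1 hD) hxA hx
    · intro hx
      have : x ∈ A ∪ B := by rw [hU]; trivial
      rcases this with h | h
      · exact absurd h hx
      · exact h
  subst hBc
  obtain ⟨x, y, hxy, hz, hne, hna, ha1, ha2, hr⟩ := hE3 A hA hB
  have hP : PG G φ x y = [x, -x - y, y] := by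
    rw [PG_else hr hne hna, mid_eq ⟨ha1, ha2⟩]
  by_cases hx : x ∈ A
  · have := h1 x hx y (hxy.1 hx) (-x - y) (by rw [hP]; simp)
    exact (hz.1 hx) this
  · have hy : y ∉ A := fun hc => hx (hxy.2 hc)
    have hz' : -x - y ∈ A := by
      by_contra hc
      exact hx (hz.2 hc)
    exact h2 x hx y hy (-x - y) (by rw [hP]; simp) hz'

theorem PG_not_metrizable (hφ : Function.Injective φ)
    (hadjφ : ∀ i j, G.Adj (φ i) (φ j) ↔ hadj i j = true) : ¬ Metrizable G (PG G φ) := by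
  rintro ⟨w, hw, hm⟩
  have key : ∀ (i j : Fin 7) (Q : List (Fin 7)), Q.head? = some i → Q.getLast? = some j →
      Q.IsChain (fun a b => hadj a b = true) → Q.Nodup →
      weight w ((PH i j).map φ) ≤ weight w (Q.map φ) := by
    intro i j Q h1 h2 h3 h4
    rw [← PG_phi (G := G) hφ]
    refine hm _ _ _ ⟨by simp [h1], by simp [h2], ?_, h4.map hφ⟩
    rw [List.isChain_map]
    exact h3.imp (fun a b hab => (hadjφ a b).2 hab)
  have k1 := key 0 1 [0, 5, 1] (by decide) (by decide) (by decide) (by decide)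
  have k2 := key 1 4 [1, 2, 4] (by decide) (by decide) (by decide) (by decide)
  have k3 := key 3 4 [3, 5, 4] (by decide) (by decide) (by decide) (by decide)
  have k4 := key 3 6 [3, 2, 6] (by decide) (by decide) (by decide) (by decide)
  have e1 : PH 0 1 = [0, 6, 2, 1] := by decide
  have e2 : PH 1 4 = [1, 5, 4] := by decide
  have e3 : PH 3 4 = [3, 2, 4] := by decide
  have e4 : PH 3 6 = [3, 5, 0, 6] := by decide
  rw [e1] at k1
  rw [e2] at k2
  rw [e3] at k3
  rw [e4] at k4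
  simp only [weight, List.map_cons, List.map_nil, List.tail_cons, List.zipWith_cons_cons,
    List.zipWith_nil_right, List.sum_cons, List.sum_nil] at k1 k2 k3 k4
  have hpos : 0 < w s(φ 0, φ 6) := by
    apply hw
    rw [SimpleGraph.mem_edgeSet]
    exact (hadjφ 0 6).2 (by decide)
  have s1 : s(φ 5, φ 1) = s(φ 1, φ 5) := Sym2.eq_swap
  have s2 : s(φ 2, φ 1) = s(φ 1, φ 2) := Sym2.eq_swap
  have s3 : s(φ 6, φ 2) = s(φ 2, φ 6) := Sym2.eq_swap
  have s4 : s(φ 5, φ 0) = s(φ 0, φ 5) := Sym2.eq_swap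
  have s5 : s(φ 5, φ 4) = s(φ 4, φ 5) := Sym2.eq_swap
  have s6 : s(φ 3, φ 2) = s(φ 2, φ 3) := Sym2.eq_swap
  rw [s3, s2, s1] at k1
  rw [s5] at k2
  rw [s6, s5] at k3
  rw [s4, s6] at k4
  linarith

theorem good_of (hφ : Function.Injective φ)
    (hadjφ : ∀ i j, G.Adj (φ i) (φ j) ↔ hadj i j = true)
    (hE2 : ∀ u v, u ≠ v → ∃ w, G.Adj u w ∧ G.Adj v w)
    (hE3 : ∀ A : Set V, A.Nonempty → Aᶜ.Nonempty → ∃ x y, (x ∈ A ↔ y ∈ A) ∧
      (x ∈ A ↔ -x - y ∉ A) ∧ x ≠ y ∧ ¬ G.Adj x y ∧ G.Adj x (-x - y) ∧ G.Adj y (-x - y) ∧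
      ¬ ((∃ i, φ i = x) ∧ (∃ j, φ j = y))) : Good G :=
  ⟨PG G φ, PG_system hφ hadjφ hE2, PG_consistent hφ hadjφ hE2, PG_irreducible hE3,
    PG_not_metrizable hφ hadjφ⟩

end sys

end Pool.Agent.X322.Met
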