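import Mathlib

set_option autoImplicit false

/-! Counting bichromatic zero-sum triples. -/

namespace Pool.Agent.X322.Met

open Finset

section cnt

variable {V : Type} [AddCommGroup V] [Fintype V] [DecidableEq V]

theorem sum_third (B : Finset V) :
    ((univ.filter fun p : V × V => (p.1 ∈ B ↔ p.2 ∈ B) ∧ (p.1 ∈ B ↔ -p.1 - p.2 ∉ B)).card : ℤ)
      = Fintype.card V * B.card - B.card * B.card := by
  classical
  set f : V → ℤ := fun x => if x ∈ B then 1 else 0 with hf
  have hfs : ∑ x, f x = B.card := by simp [hf]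
  have hz : ∀ x, ∑ y, f (-x - y) = B.card := by
    intro x
    rw [← hfs]
    exact Fintype.sum_equiv (Equiv.subLeft (-x)) _ _ (fun y => by simp)
  have hz' : ∀ y, ∑ x, f (-x - y) = B.card := by
    intro y
    rw [← hz y]
    refine Finset.sum_congr rfl (fun x _ => ?_)
    congr 1
    abel
  have key : ((univ.filter fun p : V × V => (p.1 ∈ B ↔ p.2 ∈ B) ∧
      (p.1 ∈ B ↔ -p.1 - p.2 ∉ B)).card : ℤ)
      = ∑ x, ∑ y, (f (-x - y) - f x * f (-x - y) - f y * f (-x - y) + f x * f y) := by
    rw [card_filter]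
    push_cast
    rw [← univ_product_univ, Finset.sum_product]
    refine Finset.sum_congr rfl (fun x _ => Finset.sum_congr rfl (fun y _ => ?_))
    simp only [hf]
    by_cases h1 : x ∈ B <;> by_cases h2 : y ∈ B <;> by_cases h3 : -x - y ∈ B <;>
      simp [h1, h2, h3]
  rw [key]
  simp only [Finset.sum_add_distrib, Finset.sum_sub_distrib, ← Finset.mul_sum, hz]
  rw [Finset.sum_comm (f := fun x y => f y * f (-x - y))]
  simp only [← Finset.mul_sum, hz', ← Finset.sum_mul, hfs]
  simp only [Finset.sum_const, card_univ, nsmul_eq_mul]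
  ring

omit [Fintype V] [DecidableEq V] in
theorem third_eq {a b c a' b' c' : V} (h : a + b + c = 0) (h' : a' + b' + c' = 0) (ha : a = a')
    (hb : b = b') : c = c' := by
  subst ha hb
  exact add_left_cancel (h.trans h'.symm)

end cnt

section fin

variable {n : ℕ} [NeZero n]

theorem double_fiber (c : Fin n) : (univ.filter fun x : Fin n => -x - x = c).card ≤ 2 := by
  have : (univ.filter fun x : Fin n => -x - x = c).card ≤ (univ : Finset Bool).card := by
    refine Finset.card_le_card_of_injOn (fun x => decide (x.val + x.val < n))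
      (fun _ _ => Finset.mem_coe.2 (mem_univ _)) ?_
    intro x hx y hy hxy
    have hx := (mem_filter.1 (Finset.mem_coe.1 hx)).2
    have hy := (mem_filter.1 (Finset.mem_coe.1 hy)).2
    have h1 : x + x = y + y := by
      have : -(x + x) = -(y + y) := by
        rw [neg_add, neg_add, ← sub_eq_add_neg, ← sub_eq_add_neg, hx, hy]
      exact neg_injective this
    have h2 := congrArg Fin.val h1
    rw [Fin.val_add, Fin.val_add] at h2
    have hxn := x.isLt
    have hyn := y.isLt
    simp only [decide_eq_decide] at hxy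
    apply Fin.ext
    by_cases hlt : x.val + x.val < n
    · have hlt' := hxy.1 hlt
      rw [Nat.mod_eq_of_lt hlt, Nat.mod_eq_of_lt hlt'] at h2
      omega
    · have hlt' : ¬ (y.val + y.val < n) := fun h => hlt (hxy.2 h)
      have e1 : (x.val + x.val) % n = x.val + x.val - n := by
        rw [Nat.mod_eq_sub_mod (by omega), Nat.mod_eq_of_lt (by omega)]
      have e2 : (y.val + y.val) % n = y.val + y.val - n := by
        rw [Nat.mod_eq_sub_mod (by omega), Nat.mod_eq_of_lt (by omega)]
      rw [e1, e2] at h2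
      omega
  simpa using this

/-- the family of usable triples -/
def TT (B X : Finset (Fin n)) : Finset (Fin n × Fin n) :=
  univ.filter fun p => p.1 < p.2 ∧ (p.1 ∈ B ↔ p.2 ∈ B) ∧ (p.1 ∈ B ↔ -p.1 - p.2 ∉ B) ∧
    ¬ (p.1 ∈ X ∧ p.2 ∈ X)

theorem TT_card (B X : Finset (Fin n)) (hX : X.card ≤ 7) (hB : 2 * B.card ≤ n)
    (hB1 : 1 ≤ B.card) (hn : 208 ≤ n) : B.card * (n / 8) ≤ (TT B X).card := by
  classical
  set T0 : Finset (Fin n × Fin n) :=
    univ.filter fun p => (p.1 ∈ B ↔ p.2 ∈ B) ∧ (p.1 ∈ B ↔ -p.1 - p.2 ∉ B) with hT0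
  set D : Finset (Fin n) := univ.filter fun x => x ∈ B ↔ -x - x ∉ B with hD
  have hsub : T0 ⊆ (TT B X ∪ (TT B X).image Prod.swap) ∪ (D.image (fun x => (x, x)) ∪ X ×ˢ X) := by
    intro p hp
    obtain ⟨x, y⟩ := p
    simp only [hT0, mem_filter, mem_univ, true_and] at hp
    simp only [TT, mem_union, mem_filter, mem_univ, true_and, mem_image, mem_product,
      Prod.exists, Prod.swap_prod_mk, Prod.mk.injEq, hD]
    by_cases hXX : x ∈ X ∧ y ∈ X
    · exact Or.inr (Or.inr hXX)
    rcases lt_trichotomy x y with h | h | h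
    · exact Or.inl (Or.inl ⟨h, hp.1, hp.2, hXX⟩)
    · subst h
      exact Or.inr (Or.inl ⟨x, hp.2, rfl, rfl⟩)
    · refine Or.inl (Or.inr ⟨y, x, ⟨h, hp.1.symm, ?_, fun hc => hXX ⟨hc.2, hc.1⟩⟩, rfl, rfl⟩)
      have : -y - x = -x - y := by
        rw [← neg_add', ← neg_add', add_comm]
      rw [this, ← hp.1]
      exact hp.2
  have h1 : T0.card ≤ ((TT B X).card + (TT B X).card) + (D.card + 49) := by
    refine (card_le_card hsub).trans ((card_union_le _ _).trans (Nat.add_le_add
      ((card_union_le _ _).trans (Nat.add_le_add le_rfl card_image_le))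
      ((card_union_le _ _).trans (Nat.add_le_add card_image_le ?_))))
    rw [card_product]
    calc X.card * X.card ≤ 7 * 7 := Nat.mul_le_mul hX hX
      _ = 49 := rfl
  have h2 : D.card ≤ 3 * B.card := by
    have hs : D ⊆ B ∪ B.biUnion (fun c => univ.filter fun x : Fin n => -x - x = c) := by
      intro x hx
      simp only [hD, mem_filter, mem_univ, true_and] at hx
      simp only [mem_union, mem_biUnion, mem_filter, mem_univ, true_and, exists_eq_right']
      tauto
    refine (card_le_card hs).trans ((card_union_le _ _).trans ?_)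
    have : (B.biUnion (fun c => univ.filter fun x : Fin n => -x - x = c)).card ≤ B.card * 2 :=
      card_biUnion_le_card_mul _ _ _ (fun c _ => double_fiber c)
    omega
  have h3 := sum_third B
  rw [← hT0, Fintype.card_fin] at h3
  have h4 : (B.card : ℤ) * (n / 8 : ℕ) ≤ (TT B X).card := by
    have hb : (1 : ℤ) ≤ B.card := by exact_mod_cast hB1
    have hb2 : 2 * (B.card : ℤ) ≤ n := by exact_mod_cast hB
    have hn' : (208 : ℤ) ≤ n := by exact_mod_cast hn
    have h1' : (T0.card : ℤ) ≤ 2 * (TT B X).card + 3 * B.card + 49 := by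
      have : T0.card ≤ 2 * (TT B X).card + 3 * B.card + 49 := by omega
      exact_mod_cast this
    have h8 : 8 * ((n / 8 : ℕ) : ℤ) ≤ n := by
      have : 8 * (n / 8) ≤ n := Nat.mul_div_le n 8
      exact_mod_cast this
    rw [h3] at h1'
    nlinarith [mul_nonneg (sub_nonneg.2 hb) (sub_nonneg.2 hn'),
      mul_nonneg (le_trans zero_le_one hb) (sub_nonneg.2 hb2),
      mul_nonneg (le_trans zero_le_one hb) (sub_nonneg.2 h8),
      mul_nonneg (le_trans zero_le_one hb) (sub_nonneg.2 hn')]
  exact_mod_cast h4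

theorem TT_disj {B X : Finset (Fin n)} {p p' : Fin n × Fin n} (hp : p ∈ TT B X)
    (hp' : p' ∈ TT B X) (e : Sym2 (Fin n))
    (he : e = s(p.1, p.2) ∨ e = s(p.1, -p.1 - p.2) ∨ e = s(p.2, -p.1 - p.2))
    (he' : e = s(p'.1, p'.2) ∨ e = s(p'.1, -p'.1 - p'.2) ∨ e = s(p'.2, -p'.1 - p'.2)) :
    p = p' := by
  obtain ⟨x, y⟩ := p
  obtain ⟨x', y'⟩ := p'
  simp only [TT, mem_filter, mem_univ, true_and] at hp hp' he he'
  obtain ⟨hlt, h1, h2, -⟩ := hp
  obtain ⟨hlt', h1', h2', -⟩ := hp'
  obtain ⟨z, hz⟩ : ∃ z, z = -x - y := ⟨_, rfl⟩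
  obtain ⟨z', hz'⟩ : ∃ z, z = -x' - y' := ⟨_, rfl⟩
  rw [← hz] at he h2
  rw [← hz'] at he' h2'
  have s1 : x + y + z = 0 := by rw [hz]; abel
  have s2 : x + z + y = 0 := by rw [hz]; abel
  have s3 : y + z + x = 0 := by rw [hz]; abel
  have s1' : x' + y' + z' = 0 := by rw [hz']; abel
  have s2' : x' + z' + y' = 0 := by rw [hz']; abel
  have s3' : y' + z' + x' = 0 := by rw [hz']; abel
  clear hz hz'
  have w1 : z' + x' + y' = 0 := by rw [← s2']; abel
  have w2 : y' + x' + z' = 0 := by rw [← s2']; abel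
  have w3 : z' + y' + x' = 0 := by rw [← s2']; abel
  rcases he with he | he | he <;> rcases he' with he' | he' | he' <;>
    rw [he, Sym2.eq_iff] at he' <;> rcases he' with ⟨ha, hb⟩ | ⟨ha, hb⟩
  · rw [ha, hb]
  · exfalso; rw [ha, hb] at hlt; exact absurd hlt (not_lt.2 hlt'.le)
  · exfalso; rw [ha, hb] at h1; tauto
  · exfalso; rw [ha, hb] at h1; tauto
  · exfalso; rw [ha, hb] at h1; tauto
  · exfalso; rw [ha, hb] at h1; tauto
  · exfalso; rw [ha, hb] at h2; tauto
  · exfalso; rw [ha, hb] at h2; tauto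
  · rw [ha, third_eq s2 s2' ha hb]
  · exfalso
    have := third_eq s2 w1 ha hb
    rw [ha, this] at h1; tauto
  · exfalso
    have := third_eq s2 s3' ha hb
    rw [ha, this] at hlt; exact absurd hlt (not_lt.2 hlt'.le)
  · exfalso
    have := third_eq s2 w3 ha hb
    rw [ha, this] at h1; tauto
  · exfalso; rw [ha, hb] at s3; have := third_eq s3 s1' rfl rfl
    rw [this, hb] at h2; rw [this, ha] at h1; tauto
  · exfalso; rw [ha, hb] at s3; have := third_eq s3 w2 rfl rfl
    rw [this, hb] at h2; rw [this, ha] at h1; tauto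
  · exfalso
    have := third_eq s3 s2' ha hb
    rw [ha, this] at hlt; exact absurd hlt (not_lt.2 hlt'.le)
  · exfalso
    have := third_eq s3 w1 ha hb
    rw [ha, this] at h1; tauto
  · rw [ha, third_eq s3 s3' ha hb]
  · exfalso
    have := third_eq s3 w3 ha hb
    rw [ha, this] at h1; tauto

end fin

end Pool.Agent.X322.Met
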