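import Pool.Agent.X322.Met1
import Pool.Agent.X322.Met3
import Pool.Agent.X322.Met4

set_option autoImplicit false

/-! Union bound. -/

namespace Pool.Agent.X322.Met

open Finset

abbrev II (n : ℕ) := {e : Sym2 (Fin n) // ¬ e.IsDiag}

/-- graph of a 0/1 vector -/
def toG {n : ℕ} (x : II n → Bool) : SimpleGraph (Fin n) where
  Adj u v := ∃ h : ¬ (s(u, v)).IsDiag, x ⟨s(u, v), h⟩ = true
  symm := ⟨by
    rintro u v ⟨h, hx⟩
    have e : s(v, u) = s(u, v) := Sym2.eq_swap
    refine ⟨by rw [e]; exact h, ?_⟩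
    convert hx using 2
    exact Subtype.ext e⟩
  loopless := ⟨fun u h => h.1 rfl⟩

open Classical in
noncomputable def equivG (n : ℕ) : (II n → Bool) ≃ SimpleGraph (Fin n) where
  toFun := toG
  invFun G := fun e => decide (e.1 ∈ G.edgeSet)
  left_inv x := by
    funext e
    obtain ⟨e, he⟩ := e
    induction e using Sym2.ind with
    | _ u v =>
      have : s(u, v) ∈ (toG x).edgeSet ↔ x ⟨s(u, v), he⟩ = true := by
        rw [SimpleGraph.mem_edgeSet]
        exact ⟨fun h => h.2, fun h => ⟨he, h⟩⟩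
      rw [Bool.eq_iff_iff, decide_eq_true_iff, this]
  right_inv G := by
    ext u v
    constructor
    · rintro ⟨h, hx⟩
      simpa using hx
    · intro h
      refine ⟨fun hd => h.ne ?_, by simpa using h⟩
      simpa using hd

theorem card_filter_three {n : ℕ} (A : Finset (Sym2 (Fin n))) :
    (univ.filter fun e : II n => e.1 ∈ A).card ≤ A.card := by
  refine Finset.card_le_card_of_injOn (fun e => e.1) ?_ (fun a _ b _ h => Subtype.ext h)
  intro e he
  exact (mem_filter.1 (mem_coe.1 he)).2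

section F1

variable (n : ℕ)

def bet (t : Fin (n / 7)) (i : Fin 7) : Fin n :=
  ⟨7 * t.val + i.val, by have := t.isLt; have := i.isLt; omega⟩

theorem bet_inj (t : Fin (n / 7)) : Function.Injective (bet n t) := by
  intro i j h
  have := congrArg Fin.val h
  simp only [bet] at this
  apply Fin.ext
  omega

theorem bet_block {t t' : Fin (n / 7)} {i i' : Fin 7} (h : bet n t i = bet n t' i') : t = t' := by
  have := congrArg Fin.val h
  simp only [bet] at this
  have h1 := i.isLt
  have h2 := i'.isLt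
  apply Fin.ext
  omega

def A1 (t : Fin (n / 7)) : Finset (Sym2 (Fin n)) :=
  (univ : Finset (Fin 7 × Fin 7)).image fun p => s(bet n t p.1, bet n t p.2)

def S1 (t : Fin (n / 7)) : Finset (II n) := univ.filter fun e => e.1 ∈ A1 n t

open Classical in
noncomputable def s1 (t : Fin (n / 7)) (e : II n) : Bool :=
  decide (∃ i j, e.1 = s(bet n t i, bet n t j) ∧ hadj i j = true)

theorem F1_bound : ((avoid (S1 n) (s1 n) univ).card : ℝ)
    ≤ (1 - (1 / 2) ^ 49) ^ (n / 7) * Fintype.card (II n → Bool) := by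
  have h := avoid_bound_real (S1 n) (s1 n) 49 univ ?_ ?_
  · simpa using h
  · intro t _ t' _ hne
    rw [Finset.disjoint_left]
    intro e he he'
    simp only [S1, A1, mem_filter, mem_univ, true_and, mem_image, Prod.exists] at he he'
    obtain ⟨i, j, h1⟩ := he
    obtain ⟨i', j', h2⟩ := he'
    rw [← h1, Sym2.eq_iff] at h2
    rcases h2 with ⟨h2, -⟩ | ⟨h2, -⟩
    · exact hne (bet_block n h2).symm
    · exact hne (bet_block n h2).symm
  · intro t _
    refine (card_filter_three (A1 n t)).trans (card_image_le.trans (by simp))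

theorem F1_spec (x : II n → Bool) (hx : x ∉ avoid (S1 n) (s1 n) univ) :
    ∃ φ : Fin 7 → Fin n, Function.Injective φ ∧
      ∀ i j, (toG x).Adj (φ i) (φ j) ↔ hadj i j = true := by
  classical
  simp only [avoid, mem_filter, mem_univ, true_and] at hx
  push Not at hx
  obtain ⟨t, -, ht⟩ := hx
  refine ⟨bet n t, bet_inj n t, fun i j => ?_⟩
  by_cases hij : i = j
  · subst hij
    simp [hadj_irrefl]
  · have hd : ¬ (s(bet n t i, bet n t j)).IsDiag := by
      simp only [Sym2.isDiag_iff_proj_eq]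
      exact fun h => hij (bet_inj n t h)
    have h1 := ht ⟨_, hd⟩ (by
      simp only [S1, A1, mem_filter, mem_univ, true_and, mem_image, Prod.exists]
      exact ⟨i, j, rfl⟩)
    have h2 : (toG x).Adj (bet n t i) (bet n t j) ↔ x ⟨_, hd⟩ = true :=
      ⟨fun h => h.2, fun h => ⟨hd, h⟩⟩
    rw [h2, h1, s1, decide_eq_true_iff]
    constructor
    · rintro ⟨i', j', h3, h4⟩
      rw [Sym2.eq_iff] at h3
      rcases h3 with ⟨h5, h6⟩ | ⟨h5, h6⟩
      · rw [bet_inj n t h5, bet_inj n t h6]; exact h4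
      · rw [bet_inj n t h5, bet_inj n t h6, hadj_symm]; exact h4
    · intro h
      exact ⟨i, j, rfl, h⟩

end F1

section F2

variable {n : ℕ}

def S2 (p : Fin n × Fin n) (w : Fin n) : Finset (II n) :=
  univ.filter fun e => e.1 ∈ ({s(p.1, w), s(p.2, w)} : Finset (Sym2 (Fin n)))

theorem F2_bound (p : Fin n × Fin n) (hp : p.1 ≠ p.2) :
    ((avoid (S2 p) (fun _ _ => true) (univ.filter fun w => w ≠ p.1 ∧ w ≠ p.2)).card : ℝ)
    ≤ (3 / 4) ^ (n - 2) * Fintype.card (II n → Bool) := by
  classical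
  have h := avoid_bound_real (S2 p) (fun _ _ => true) 2
    (univ.filter fun w => w ≠ p.1 ∧ w ≠ p.2) ?_ ?_
  · have hc : (univ.filter fun w => w ≠ p.1 ∧ w ≠ p.2).card = n - 2 := by
      have : (univ.filter fun w => w ≠ p.1 ∧ w ≠ p.2) = (univ : Finset (Fin n)) \ {p.1, p.2} := by
        ext w; simp
      rw [this, card_sdiff_of_subset (subset_univ _), card_univ, Fintype.card_fin,
        card_pair hp]
    rw [hc] at h
    norm_num at h ⊢
    exact h
  · intro w hw w' hw' hne
    simp only [mem_filter, mem_univ, true_and] at hw hw'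
    rw [Finset.disjoint_left]
    intro e he he'
    simp only [S2, mem_filter, mem_univ, true_and, mem_insert, mem_singleton] at he he'
    rcases he with he | he <;> rcases he' with he' | he' <;>
      rw [he, Sym2.eq_iff] at he' <;> rcases he' with ⟨h1, h2⟩ | ⟨h1, h2⟩
    all_goals first
      | exact hne h2
      | exact hw'.1 h1.symm
      | exact hw'.2 h1.symm
      | exact hw.1 h2
      | exact hw.2 h2
  · intro w _
    exact (card_filter_three _).trans card_le_two

theorem F2_spec (x : II n → Bool) (p : Fin n × Fin n)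
    (hx : x ∉ avoid (S2 p) (fun _ _ => true) (univ.filter fun w => w ≠ p.1 ∧ w ≠ p.2)) :
    ∃ w, (toG x).Adj p.1 w ∧ (toG x).Adj p.2 w := by
  classical
  simp only [avoid, mem_filter, mem_univ, true_and] at hx
  push Not at hx
  obtain ⟨w, hw, h⟩ := hx
  have hd1 : ¬ (s(p.1, w)).IsDiag := by
    simp only [Sym2.isDiag_iff_proj_eq]; exact fun h => hw.1 h.symm
  have hd2 : ¬ (s(p.2, w)).IsDiag := by
    simp only [Sym2.isDiag_iff_proj_eq]; exact fun h => hw.2 h.symm
  refine ⟨w, ⟨hd1, h _ ?_⟩, ⟨hd2, h _ ?_⟩⟩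
  · simp [S2]
  · simp [S2]

end F2

section F3

variable {n : ℕ} [NeZero n]

def A3 (p : Fin n × Fin n) : Finset (Sym2 (Fin n)) :=
  {s(p.1, p.2), s(p.1, -p.1 - p.2), s(p.2, -p.1 - p.2)}

def S3 (p : Fin n × Fin n) : Finset (II n) := univ.filter fun e => e.1 ∈ A3 p

def s3 (p : Fin n × Fin n) (e : II n) : Bool := decide (e.1 ≠ s(p.1, p.2))

theorem F3_bound (B X : Finset (Fin n)) :
    ((avoid S3 s3 (TT B X)).card : ℝ)
      ≤ (7 / 8) ^ (TT B X).card * Fintype.card (II n → Bool) := by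
  classical
  have h := avoid_bound_real (S3 (n := n)) s3 3 (TT B X) ?_ ?_
  · norm_num at h ⊢
    exact h
  · intro p hp p' hp' hne
    rw [Finset.disjoint_left]
    intro e he he'
    simp only [S3, A3, mem_filter, mem_univ, true_and, mem_insert, mem_singleton] at he he'
    exact hne (TT_disj hp hp' e.1 he he')
  · intro p _
    exact (card_filter_three _).trans card_le_three

theorem F3_spec (x : II n → Bool) (B X : Finset (Fin n)) (hx : x ∉ avoid S3 s3 (TT B X)) :
    ∃ a b, (a ∈ B ↔ b ∈ B) ∧ (a ∈ B ↔ -a - b ∉ B) ∧ a ≠ b ∧ ¬ (toG x).Adj a b ∧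
      (toG x).Adj a (-a - b) ∧ (toG x).Adj b (-a - b) ∧ ¬ (a ∈ X ∧ b ∈ X) := by
  classical
  simp only [avoid, mem_filter, mem_univ, true_and] at hx
  push Not at hx
  obtain ⟨⟨a, b⟩, hp, h⟩ := hx
  simp only [TT, mem_filter, mem_univ, true_and] at hp
  obtain ⟨hlt, h1, h2, h3⟩ := hp
  have hac : a ≠ -a - b := fun hc => by
    rw [← hc] at h2; tauto
  have hbc : b ≠ -a - b := fun hc => by
    rw [← hc] at h2; tauto
  have hd1 : ¬ (s(a, b)).IsDiag := by
    simp only [Sym2.isDiag_iff_proj_eq]; exact hlt.ne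
  have hd2 : ¬ (s(a, -a - b)).IsDiag := by
    simp only [Sym2.isDiag_iff_proj_eq]; exact hac
  have hd3 : ¬ (s(b, -a - b)).IsDiag := by
    simp only [Sym2.isDiag_iff_proj_eq]; exact hbc
  refine ⟨a, b, h1, h2, hlt.ne, ?_, ⟨hd2, ?_⟩, ⟨hd3, ?_⟩, h3⟩
  · rintro ⟨hd, hx⟩
    rw [h ⟨_, hd⟩ (by simp [S3, A3])] at hx
    simp [s3] at hx
  · rw [h ⟨_, hd2⟩ (by simp [S3, A3])]
    simp only [s3, decide_eq_true_eq, ne_eq]
    rw [Sym2.eq_iff]
    rintro (⟨-, h5⟩ | ⟨h5, -⟩)
    · exact hbc h5.symm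
    · exact hlt.ne h5
  · rw [h ⟨_, hd3⟩ (by simp [S3, A3])]
    simp only [s3, decide_eq_true_eq, ne_eq]
    rw [Sym2.eq_iff]
    rintro (⟨h5, -⟩ | ⟨-, h5⟩)
    · exact hlt.ne h5.symm
    · exact hac h5.symm

end F3

end Pool.Agent.X322.Met
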