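import Pool.Agent.X322.Met5

set_option autoImplicit false

/-! Union bound and limit. -/

namespace Pool.Agent.X322.Met

open Finset Filter Topology

section union

variable {n : ℕ} [NeZero n]

def famB (n : ℕ) : Finset (Finset (Fin n)) :=
  univ.filter fun B => 1 ≤ B.card ∧ 2 * B.card ≤ n

theorem good_of_not_bad (x : II n → Bool)
    (h1 : x ∉ avoid (S1 n) (s1 n) univ)
    (h2 : ∀ p : Fin n × Fin n, p.1 ≠ p.2 →
      x ∉ avoid (S2 p) (fun _ _ => true) (univ.filter fun w => w ≠ p.1 ∧ w ≠ p.2))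
    (h3 : ∀ φ : Fin 7 → Fin n, ∀ B ∈ famB n, x ∉ avoid S3 s3 (TT B (univ.image φ))) :
    Good (toG x) := by
  classical
  obtain ⟨φ, hφ, hadjφ⟩ := F1_spec n x h1
  refine good_of hφ hadjφ (fun u v huv => F2_spec x (u, v) (h2 (u, v) huv)) ?_
  intro A hA hAc
  have key : ∀ B : Finset (Fin n), B ∈ famB n → ∃ a b, (a ∈ B ↔ b ∈ B) ∧ (a ∈ B ↔ -a - b ∉ B) ∧
      a ≠ b ∧ ¬ (toG x).Adj a b ∧ (toG x).Adj a (-a - b) ∧ (toG x).Adj b (-a - b) ∧
      ¬ ((∃ i, φ i = a) ∧ (∃ j, φ j = b)) := by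
    intro B hB
    obtain ⟨a, b, k1, k2, k3, k4, k5, k6, k7⟩ := F3_spec x B (univ.image φ) (h3 φ B hB)
    refine ⟨a, b, k1, k2, k3, k4, k5, k6, fun hc => k7 ⟨?_, ?_⟩⟩
    · obtain ⟨i, hi⟩ := hc.1
      exact mem_image.2 ⟨i, mem_univ _, hi⟩
    · obtain ⟨i, hi⟩ := hc.2
      exact mem_image.2 ⟨i, mem_univ _, hi⟩
  by_cases hc : 2 * A.toFinset.card ≤ n
  · obtain ⟨a, b, k1, k2, k3⟩ := key A.toFinset (by
      simp only [famB, mem_filter, mem_univ, true_and]
      refine ⟨?_, hc⟩
      rw [Nat.one_le_iff_ne_zero, Ne, card_eq_zero, Set.toFinset_eq_empty]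
      exact hA.ne_empty)
    simp only [Set.mem_toFinset] at k1 k2
    exact ⟨a, b, k1, k2, k3⟩
  · obtain ⟨a, b, k1, k2, k3⟩ := key (Aᶜ).toFinset (by
      simp only [famB, mem_filter, mem_univ, true_and]
      constructor
      · rw [Nat.one_le_iff_ne_zero, Ne, card_eq_zero, Set.toFinset_eq_empty]
        exact hAc.ne_empty
      · rw [Set.toFinset_compl, card_compl, Fintype.card_fin]
        omega)
    simp only [Set.mem_toFinset, Set.mem_compl_iff] at k1 k2
    refine ⟨a, b, not_iff_not.1 k1, ?_, k3⟩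
    tauto

open Classical in
theorem bad_bound (hn : 208 ≤ n) :
    ((univ.filter fun x : II n → Bool => ¬ Good (toG x)).card : ℝ)
      ≤ ((1 - (1 / 2) ^ 49) ^ (n / 7) + (n : ℝ) ^ 2 * (3 / 4) ^ (n - 2)
          + (n : ℝ) ^ 7 * ((1 + (7 / 8) ^ (n / 8)) ^ n - 1)) * Fintype.card (II n → Bool) := by
  set N : ℝ := (Fintype.card (II n → Bool) : ℝ) with hN
  have hN0 : 0 ≤ N := by rw [hN]; positivity
  set F2 : Finset (II n → Bool) := (univ.filter fun p : Fin n × Fin n => p.1 ≠ p.2).biUnion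
    fun p => avoid (S2 p) (fun _ _ => true) (univ.filter fun w => w ≠ p.1 ∧ w ≠ p.2) with hF2
  set F3 : Finset (II n → Bool) := (univ : Finset (Fin 7 → Fin n)).biUnion fun φ =>
    (famB n).biUnion fun B => avoid S3 s3 (TT B (univ.image φ)) with hF3
  have hsub : (univ.filter fun x : II n → Bool => ¬ Good (toG x))
      ⊆ avoid (S1 n) (s1 n) univ ∪ F2 ∪ F3 := by
    intro x hx
    rw [mem_filter] at hx
    by_contra hcon
    rw [mem_union, mem_union, not_or, not_or] at hcon
    obtain ⟨⟨c1, c2⟩, c3⟩ := hcon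
    apply hx.2
    refine good_of_not_bad x c1 ?_ ?_
    · intro p hp hxp
      exact c2 (mem_biUnion.2 ⟨p, mem_filter.2 ⟨mem_univ _, hp⟩, hxp⟩)
    · intro φ B hB hxp
      exact c3 (mem_biUnion.2 ⟨φ, mem_univ _, mem_biUnion.2 ⟨B, hB, hxp⟩⟩)
  have hcard : ((univ.filter fun x : II n → Bool => ¬ Good (toG x)).card : ℝ)
      ≤ (avoid (S1 n) (s1 n) univ).card + F2.card + F3.card := by
    have := (card_le_card hsub).trans ((card_union_le _ _).trans
      (Nat.add_le_add_right (card_union_le _ _) _))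
    exact_mod_cast this
  have b1 := F1_bound n
  have b2 : (F2.card : ℝ) ≤ (n : ℝ) ^ 2 * (3 / 4) ^ (n - 2) * N := by
    have h1 : (F2.card : ℝ) ≤ ∑ p ∈ univ.filter fun p : Fin n × Fin n => p.1 ≠ p.2,
        ((3 / 4 : ℝ) ^ (n - 2) * N) := by
      have : F2.card ≤ ∑ p ∈ univ.filter fun p : Fin n × Fin n => p.1 ≠ p.2,
        (avoid (S2 p) (fun _ _ => true) (univ.filter fun w => w ≠ p.1 ∧ w ≠ p.2)).card :=
        card_biUnion_le
      have h2 : (F2.card : ℝ) ≤ ∑ p ∈ univ.filter fun p : Fin n × Fin n => p.1 ≠ p.2,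
        ((avoid (S2 p) (fun _ _ => true)
          (univ.filter fun w => w ≠ p.1 ∧ w ≠ p.2)).card : ℝ) := by exact_mod_cast this
      exact h2.trans (Finset.sum_le_sum fun p hp => F2_bound p (mem_filter.1 hp).2)
    refine h1.trans ?_
    rw [sum_const, nsmul_eq_mul, ← mul_assoc]
    have h3 : ((univ.filter fun p : Fin n × Fin n => p.1 ≠ p.2).card : ℝ) ≤ (n : ℝ) ^ 2 := by
      have : (univ.filter fun p : Fin n × Fin n => p.1 ≠ p.2).card ≤ n ^ 2 := by
        refine (card_filter_le _ _).trans ?_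
        rw [card_univ, Fintype.card_prod, Fintype.card_fin, sq]
      exact_mod_cast this
    gcongr
  have b3 : (F3.card : ℝ) ≤ (n : ℝ) ^ 7 * ((1 + (7 / 8) ^ (n / 8)) ^ n - 1) * N := by
    have h1 : (F3.card : ℝ) ≤ ∑ φ : Fin 7 → Fin n, ∑ B ∈ famB n,
        ((7 / 8 : ℝ) ^ (n / 8)) ^ B.card * N := by
      have : F3.card ≤ ∑ φ : Fin 7 → Fin n, ∑ B ∈ famB n,
          (avoid S3 s3 (TT B (univ.image φ))).card :=
        card_biUnion_le.trans (Finset.sum_le_sum fun φ _ => card_biUnion_le)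
      have h2 : (F3.card : ℝ) ≤ ∑ φ : Fin 7 → Fin n, ∑ B ∈ famB n,
          ((avoid S3 s3 (TT B (univ.image φ))).card : ℝ) := by exact_mod_cast this
      refine h2.trans (Finset.sum_le_sum fun φ _ => Finset.sum_le_sum fun B hB => ?_)
      refine (F3_bound B (univ.image φ)).trans ?_
      have hB' := (mem_filter.1 hB).2
      have hT := TT_card B (univ.image φ) (card_image_le.trans (by simp)) hB'.2 hB'.1 hn
      have : (7 / 8 : ℝ) ^ (TT B (univ.image φ)).card ≤ ((7 / 8 : ℝ) ^ (n / 8)) ^ B.card := by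
        rw [← pow_mul, mul_comm (n / 8)]
        exact pow_le_pow_of_le_one (by norm_num) (by norm_num) hT
      exact mul_le_mul_of_nonneg_right this hN0
    have h2 : ∑ B ∈ famB n, ((7 / 8 : ℝ) ^ (n / 8)) ^ B.card * N
        ≤ ((1 + (7 / 8) ^ (n / 8)) ^ n - 1) * N := by
      rw [← Finset.sum_mul]
      refine mul_le_mul_of_nonneg_right ?_ hN0
      have h3 : ∑ B ∈ (univ : Finset (Fin n)).powerset, ((7 / 8 : ℝ) ^ (n / 8)) ^ B.card
          = (1 + (7 / 8) ^ (n / 8)) ^ n := by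
        have := Finset.prod_one_add (f := fun _ : Fin n => (7 / 8 : ℝ) ^ (n / 8)) univ
        simp only [prod_const, card_univ, Fintype.card_fin] at this
        rw [this]
      have h4 : ∑ B ∈ famB n, ((7 / 8 : ℝ) ^ (n / 8)) ^ B.card + 1
          ≤ ∑ B ∈ (univ : Finset (Fin n)).powerset, ((7 / 8 : ℝ) ^ (n / 8)) ^ B.card := by
        have hne : (∅ : Finset (Fin n)) ∉ famB n := by simp [famB]
        have : ∑ B ∈ insert ∅ (famB n), ((7 / 8 : ℝ) ^ (n / 8)) ^ B.card
            = 1 + ∑ B ∈ famB n, ((7 / 8 : ℝ) ^ (n / 8)) ^ B.card := by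
          rw [sum_insert hne, card_empty, pow_zero]
        rw [add_comm, ← this]
        exact Finset.sum_le_sum_of_subset_of_nonneg (by intro B _; simp)
          (fun B _ _ => by positivity)
      rw [h3] at h4
      linarith
    refine h1.trans ((Finset.sum_le_sum fun φ _ => h2).trans ?_)
    rw [sum_const, nsmul_eq_mul, card_univ, Fintype.card_fun, Fintype.card_fin, Fintype.card_fin]
    push_cast
    rw [mul_assoc]
  calc _ ≤ _ := hcard
    _ ≤ (1 - (1 / 2) ^ 49) ^ (n / 7) * N + (n : ℝ) ^ 2 * (3 / 4) ^ (n - 2) * N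
        + (n : ℝ) ^ 7 * ((1 + (7 / 8) ^ (n / 8)) ^ n - 1) * N := by
      exact add_le_add (add_le_add b1 b2) b3
    _ = _ := by ring

end union

section lim

theorem lim1 : Tendsto (fun n : ℕ => (1 - (1 / 2 : ℝ) ^ 49) ^ (n / 7)) atTop (𝓝 0) := by
  have h := tendsto_pow_atTop_nhds_zero_of_lt_one (r := (1 - (1 / 2 : ℝ) ^ 49))
    (by norm_num) (by norm_num)
  exact h.comp (Nat.tendsto_div_const_atTop (by norm_num))

theorem lim2 : Tendsto (fun n : ℕ => (n : ℝ) ^ 2 * (3 / 4 : ℝ) ^ (n - 2)) atTop (𝓝 0) := by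
  have h := tendsto_pow_const_mul_const_pow_of_abs_lt_one 2 (r := (3 / 4 : ℝ))
    (by rw [abs_of_pos (by norm_num)]; norm_num)
  have h2 := h.const_mul (16 / 9)
  rw [mul_zero] at h2
  refine h2.congr' ?_
  filter_upwards [eventually_ge_atTop 2] with n hn
  obtain ⟨m, rfl⟩ := Nat.exists_eq_add_of_le hn
  rw [Nat.add_sub_cancel_left, pow_add (3 / 4 : ℝ)]
  ring

theorem lim3 : Tendsto (fun n : ℕ => (n : ℝ) ^ 7 * ((1 + (7 / 8 : ℝ) ^ (n / 8)) ^ n - 1))
    atTop (𝓝 0) := by
  have hq : Tendsto (fun n : ℕ => (n : ℝ) ^ 8 * (7 / 8 : ℝ) ^ (n / 8)) atTop (𝓝 0) := by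
    have h := tendsto_pow_const_mul_const_pow_of_abs_lt_one 8 (r := (7 / 8 : ℝ))
      (by rw [abs_of_pos (by norm_num)]; norm_num)
    have h2 := (h.comp (Nat.tendsto_div_const_atTop (n := 8) (by norm_num))).const_mul (16 ^ 8)
    rw [mul_zero] at h2
    refine tendsto_of_tendsto_of_tendsto_of_le_of_le' tendsto_const_nhds h2
      (Eventually.of_forall fun n => by positivity) ?_
    filter_upwards [eventually_ge_atTop 8] with n hn
    simp only [Function.comp_apply]
    rw [← mul_assoc, ← mul_pow]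
    have : (n : ℝ) ≤ 16 * ((n / 8 : ℕ) : ℝ) := by
      have : n ≤ 16 * (n / 8) := by omega
      exact_mod_cast this
    gcongr
  have h2 := hq.const_mul 2
  rw [mul_zero] at h2
  refine tendsto_of_tendsto_of_tendsto_of_le_of_le' tendsto_const_nhds h2
      (Eventually.of_forall fun n => ?_) ?_
  · have : (1 : ℝ) ≤ (1 + (7 / 8 : ℝ) ^ (n / 8)) ^ n :=
      one_le_pow₀ (by have : (0 : ℝ) ≤ (7 / 8 : ℝ) ^ (n / 8) := by positivity
                      linarith)
    have : 0 ≤ (1 + (7 / 8 : ℝ) ^ (n / 8)) ^ n - 1 := by linarith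
    positivity
  · have hev : ∀ᶠ n : ℕ in atTop, (n : ℝ) ^ 8 * (7 / 8 : ℝ) ^ (n / 8) < 1 :=
      hq.eventually (gt_mem_nhds one_pos)
    filter_upwards [hev, eventually_ge_atTop 1] with n hn hn1
    set q : ℝ := (7 / 8 : ℝ) ^ (n / 8) with hqd
    have hq0 : 0 ≤ q := by positivity
    have hn1' : (1 : ℝ) ≤ n := by exact_mod_cast hn1
    have hnq : (n : ℝ) * q ≤ 1 := by
      have : (n : ℝ) * q ≤ (n : ℝ) ^ 8 * q := by
        apply mul_le_mul_of_nonneg_right _ hq0
        calc (n : ℝ) = (n : ℝ) ^ 1 := (pow_one _).symm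
          _ ≤ (n : ℝ) ^ 8 := pow_le_pow_right₀ hn1' (by norm_num)
      linarith
    have hexp : (1 + q) ^ n ≤ Real.exp (n * q) := by
      rw [mul_comm, Real.exp_mul, Real.rpow_natCast]
      apply pow_le_pow_left₀ (by linarith)
      rw [add_comm]
      exact Real.add_one_le_exp q
    have habs : |(n : ℝ) * q| = n * q := abs_of_nonneg (by positivity)
    have h3 := Real.abs_exp_sub_one_le (x := (n : ℝ) * q) (by rw [habs]; exact hnq)
    rw [habs] at h3
    have h4 := (abs_le.1 h3).2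
    calc (n : ℝ) ^ 7 * ((1 + q) ^ n - 1) ≤ (n : ℝ) ^ 7 * (2 * (n * q)) := by
          apply mul_le_mul_of_nonneg_left _ (by positivity)
          linarith
      _ = 2 * ((n : ℝ) ^ 8 * q) := by ring

theorem main : Tendsto (fun n : ℕ => (Nat.card {G : SimpleGraph (Fin n) // Good G} : ℝ) /
    Nat.card (SimpleGraph (Fin n))) atTop (𝓝 1) := by
  classical
  have hbad := (lim1.add lim2).add lim3
  simp only [add_zero] at hbad
  have hlow := hbad.const_sub 1
  rw [sub_zero] at hlow
  refine tendsto_of_tendsto_of_tendsto_of_le_of_le' hlow tendsto_const_nhds ?_ ?_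
  · filter_upwards [eventually_ge_atTop 208] with n hn
    have : NeZero n := ⟨by omega⟩
    have hb := bad_bound (n := n) hn
    have hc1 : Nat.card {G : SimpleGraph (Fin n) // Good G}
        = (univ.filter fun x : II n → Bool => Good (toG x)).card := by
      rw [← Nat.card_congr ((equivG n).subtypeEquiv (p := fun x => Good (toG x))
        (q := fun G => Good G) (fun x => Iff.rfl)), Nat.card_eq_fintype_card,
        Fintype.card_subtype]
    have hc2 : Nat.card (SimpleGraph (Fin n)) = Fintype.card (II n → Bool) := by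
      rw [← Nat.card_congr (equivG n), Nat.card_eq_fintype_card]
    rw [hc1, hc2]
    have hN : (0 : ℝ) < Fintype.card (II n → Bool) := by
      exact_mod_cast Fintype.card_pos
    have hsum : ((univ.filter fun x : II n → Bool => Good (toG x)).card : ℝ)
        + ((univ.filter fun x : II n → Bool => ¬ Good (toG x)).card : ℝ)
        = Fintype.card (II n → Bool) := by
      have := Finset.card_filter_add_card_filter_not (s := (univ : Finset (II n → Bool)))
        (fun x => Good (toG x))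
      rw [card_univ] at this
      exact_mod_cast this
    rw [le_div_iff₀ hN, sub_mul, one_mul]
    linarith
  · refine Eventually.of_forall fun n => ?_
    apply div_le_one_of_le₀ _ (Nat.cast_nonneg _)
    have : Finite (SimpleGraph (Fin n)) := Finite.of_equiv _ (equivG n)
    exact_mod_cast Finite.card_subtype_le _

end lim

end Pool.Agent.X322.Met
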